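import Pool.Agent.H34P.Glob0

/-! The lattice of integral models of a torsor; twists. -/

namespace SelAvg.FF.T5

open WeierstrassCurve WithZero Filter Topology Matrix
open scoped Classical ENNReal

section Lin

variable {R : Type} [CommRing R]

lemma toM_c (x : Fin 50 → R) (k : Fin 5) : (toM x).c k = altM fun p => x (ix k p) := rfl

lemma toM_add_c (x y : Fin 50 → R) (k : Fin 5) : (toM (x + y)).c k = (toM x).c k + (toM y).c k := by
  ext i j
  fin_cases i <;> fin_cases j <;> simp [toM_c, altM, add_comm]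

lemma toM_smul_c (a : R) (x : Fin 50 → R) (k : Fin 5) : (toM (a • x)).c k = a • (toM x).c k := by
  ext i j
  fin_cases i <;> fin_cases j <;> simp [toM_c, altM]

lemma lin_add (g : G R) (x y : Fin 50 → R) :
    Model.equivVec (g • toM (x + y)) = Model.equivVec (g • toM x) + Model.equivVec (g • toM y) := by
  funext n
  simp only [Pi.add_apply, Model.equivVec_apply, G.smul_def, Model.act_c, Model.ev, toM_add_c,
    smul_add, Finset.sum_add_distrib, Matrix.mul_add, Matrix.add_mul, Matrix.add_apply]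

lemma lin_smul (g : G R) (a : R) (x : Fin 50 → R) :
    Model.equivVec (g • toM (a • x)) = a • Model.equivVec (g • toM x) := by
  funext n
  simp only [Pi.smul_apply, Model.equivVec_apply, G.smul_def, Model.act_c, Model.ev, toM_smul_c,
    smul_comm _ a, ← Finset.smul_sum, Matrix.mul_smul, Matrix.smul_mul, Matrix.smul_apply]

/-- the action on coefficient vectors -/
noncomputable def linG (g : G R) : (Fin 50 → R) ≃ₗ[R] (Fin 50 → R) where
  toFun x := Model.equivVec (g • toM x)
  invFun x := Model.equivVec (g⁻¹ • toM x)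
  map_add' x y := lin_add g x y
  map_smul' a x := lin_smul g a x
  left_inv x := by simp only [toM, Equiv.symm_apply_apply, inv_smul_smul, Equiv.apply_symm_apply]
  right_inv x := by simp only [toM, Equiv.symm_apply_apply, smul_inv_smul, Equiv.apply_symm_apply]

lemma linG_apply (g : G R) (x : Fin 50 → R) : linG g x = Model.equivVec (g • toM x) := rfl

/-- the scalars of the second factor -/
def sc2 (t : Rˣ) : G R := G.ofM (scN 5 t)

@[simp] lemma sc2_A (t : Rˣ) : (sc2 t).A = 1 := rfl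
@[simp] lemma sc2_M (t : Rˣ) : (sc2 t).M = scN 5 t := rfl

lemma vec_sc2 (t : Rˣ) (f : Model R) :
    Model.equivVec (sc2 t • f) = (t : R) • Model.equivVec f := by
  funext n
  have h := Model.act_diagonal (fun _ => (1 : R)) (fun _ => (t : R)) f (ixK n) (pI (ixP n))
    (pJ (ixP n))
  rw [diagonal_one, ← G.scM_val, one_mul, one_mul] at h
  exact h

lemma sc2_comm (t : Rˣ) (g : G R) : sc2 t * g = g * sc2 t :=
  G.ext ((one_mul g.A).trans (mul_one g.A).symm) (scN_comm t g.M)

lemma det_sc2 (t : Rˣ) : (sc2 t).det = t ^ 5 := by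
  rw [G.det, sc2_A, sc2_M, det_scN, map_one, one_pow, one_mul]

end Lin

variable {F : Type} [Field F]

lemma cls_sc2 (t : (A F)ˣ) : cls (sc2 t) = 5 • idiv t := by
  rw [cls, det_sc2, idiv_pow]

/-- the twist of the bundle of the variables -/
noncomputable def tw2G (E : Div F) : Equiv.Perm (XG F) := RC.act (KG F) (sc2 (piD E))⁻¹

lemma tw2G_mk (E : Div F) (g : G (A F)) :
    tw2G E (RC.mk (KG F) g) = RC.mk (KG F) (sc2 (piD E) * g) := by
  rw [tw2G, RC.act_mk, inv_inv, sc2_comm]

lemma pN_tw2G (E : Div F) (x : XG F) : pN (tw2G E x) = pN x := by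
  obtain ⟨g, rfl⟩ := x.mk_surj
  rw [tw2G_mk, pN_mk, pN_mk]
  exact congrArg _ (one_mul _)

lemma pM_tw2G (E : Div F) (x : XG F) : pM (tw2G E x) = twN 5 E (pM x) := by
  obtain ⟨g, rfl⟩ := x.mk_surj
  rw [tw2G_mk, pM_mk, pM_mk, twN_mk]
  rfl

lemma orb_wdg (u : (A F)ˣ) (a : Fin 50 → A F) : wdg kV u a = (u : A F) • a := by
  funext i
  rw [wdg_apply]
  exact congrArg (· * a i) (pow_one _)

/-- the family of lattices of models -/
noncomputable def LV (g : G (A F)) : Lat F 50 :=
  ⟨kV, kV_pos, linG g, fun u a => by rw [orb_wdg, orb_wdg, map_smul]⟩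

variable [Cv F]

lemma tw2G_act (E : Div F) (γ : G F) (x : XG F) :
    tw2G E (actG F γ x) = actG F γ (tw2G E x) := by
  obtain ⟨g, rfl⟩ := x.mk_surj
  rw [actG_mk, tw2G_mk, tw2G_mk, actG_mk, mul_assoc]

lemma tw2G_mem_XD {D E : Div F} {x : XG F} : tw2G E x ∈ XD (D + 5 • E) ↔ x ∈ XD D := by
  obtain ⟨g, rfl⟩ := x.mk_surj
  rw [tw2G_mk, mk_mem_XD, mk_mem_XD, cls_mul, cls_sc2, idiv_piD]
  exact exists_congr fun u => by rw [add_right_comm, add_comm (5 • E), add_left_inj]

lemma linG_dlg (g : G (A F)) (x : Fin 50 → F) :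
    linG g (dlg x) = Model.equivVec (g • (toM x).map (toA F)) := by
  rw [linG_apply, Model.equivVec_symm_map]
  rfl

lemma mem_hbox_linG {g : G (A F)} {x : Fin 50 → F} : x ∈ hbox (linG g) ↔ IntM g (toM x) := by
  rw [mem_hbox, linG_dlg, intM_iff]

/-- the integral models -/
noncomputable def VB (g : G (A F)) : Finset (Model F) :=
  (hbox (linG g)).map Model.equivVec.symm.toEmbedding

lemma mem_VB {g : G (A F)} {f : Model F} : f ∈ VB g ↔ IntM g f := by
  rw [VB, Finset.mem_map_equiv, mem_hbox_linG, Equiv.symm_symm, toM, Equiv.symm_apply_apply]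

lemma card_VB (g : G (A F)) : (VB g).card = (hbox (linG g)).card := Finset.card_map _

lemma VB_K {k : G (A F)} (hk : k ∈ KG F) (g : G (A F)) : VB (k * g) = VB g := by
  ext f
  rw [mem_VB, mem_VB, intM_K hk]

lemma sum_VB_act {M : Type} [AddCommMonoid M] (γ : G F) (g : G (A F)) (h : Model F → M) :
    ∑ f ∈ VB (g * (gA F γ)⁻¹), h f = ∑ f ∈ VB g, h (γ • f) := by
  refine (Finset.sum_equiv (MulAction.toPerm γ) (fun f => ?_) fun f _ => rfl).symm
  rw [mem_VB, mem_VB, MulAction.toPerm_apply, intM_act]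

/-- the family of torsors through `g` -/
noncomputable def gm (g : G (A F)) (m : ℕ) : G (A F) := sc2 (piD (m • PP F)) * g

lemma cls_gm (g : G (A F)) (m : ℕ) : cls (gm g m) = cls g + (5 * m) • PP F := by
  rw [gm, cls_mul, cls_sc2, idiv_piD, add_comm, smul_smul]

lemma tw2G_out (x : XG F) (m : ℕ) : tw2G (m • PP F) x = RC.mk (KG F) (gm x.out m) := by
  rw [gm, ← tw2G_mk, RC.mk_out]

lemma LV_tw (g : G (A F)) (m : ℕ) (a : Fin 50 → A F) : (LV g).tw m a = linG (gm g m) a := by
  change wdg kV (piD (m • PP F)) (linG g a) = _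
  rw [orb_wdg, linG_apply, linG_apply, gm, mul_smul, vec_sc2]

lemma mem_LV_box {g : G (A F)} {m : ℕ} {x : Fin 50 → F} :
    x ∈ (LV g).box m ↔ IntM (gm g m) (toM x) := by
  rw [Lat.box, mem_hbox, LV_tw, ← mem_hbox, mem_hbox_linG]

lemma LV_loc (g : G (A F)) (m : ℕ) (v : Place F) (x : Fin 50 → F) :
    toM ((LV g).loc m v x) = locM v (gm g m) (toM x) := by
  unfold Lat.loc locM
  rw [LV_tw, linG_dlg]

lemma avg_VB_gm (g : G (A F)) (m : ℕ) (h : Model F → ℝ) :
    avg (VB (gm g m)) h = avg ((LV g).box m) fun x => h (toM x) := by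
  have e : VB (gm g m) = ((LV g).box m).map Model.equivVec.symm.toEmbedding := by
    ext f
    rw [Finset.mem_map_equiv, mem_LV_box, mem_VB, Equiv.symm_symm, toM, Equiv.symm_apply_apply]
  rw [e, avg, avg, Finset.sum_map, Finset.card_map]
  rfl

end SelAvg.FF.T5
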