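import Pool.Agent.H34P.GtD
import Pool.Agent.H34P.Orb0

/-! The cusp bound for quintic models. -/

namespace SelAvg.FF.T5

open WeierstrassCurve WithZero Filter Topology Matrix
open scoped Classical ENNReal

variable {F : Type} [Field F] [Cv F]

theorem cusp (h : AutLe F) : ∃ K : ℝ, 0 < K ∧ ∀ g : G (A F), 0 ≤ deg (cls g) →
    (((VB g).filter fun f => f.jac.Δ ≠ 0 ∧ ¬f.Triv).card : ℝ) ≤
      K * (wtN (RC.mk (KN F 5) g.A) * wtN (RC.mk (KN F 5) g.M)) *
        qq F ^ (10 * deg (cls g) + 50 * cc F) :=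
  (cusp_of_aut h).imp fun _ h => ⟨h.1, fun g _ => h.2 g _ fun _ hf => intM_iff.1 (mem_VB.1 hf)⟩

end SelAvg.FF.T5
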