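import Pool.Agent.H34P.Cusp5A

/-! The cusp for five alternating matrices of size five: the thirteen patterns. -/

namespace SelAvg.Cusp5

open Matrix

variable {K : Type} [Field K]

/-- five matrices of size five -/
abbrev V (K : Type) : Type := Fin 5 → Matrix (Fin 5) (Fin 5) K

/-- all five matrices are alternating -/
def Alt (f : V K) : Prop := (∀ i j, f i j j = 0) ∧ ∀ i j k, f i k j = -f i j k

/-- the action of a pair of matrices -/
def act (g h : Matrix (Fin 5) (Fin 5) K) (f : V K) : V K := fun i => ∑ i', g i i' • (h * f i' * hᵀ)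

/-- What is needed of the excluded models (singular, or the trivial class). -/
structure IsBad (Bad : V K → Prop) : Prop where
  gl : ∀ (g h : Matrix (Fin 5) (Fin 5) K) (f : V K), IsUnit g.det → IsUnit h.det → Alt f →
    Bad (act g h f) → Bad f
  tor : ∀ (l m : Fin 5 → ℤ) (f : V K), ∑ i, l i = 0 → ∑ j, m j = 0 → (l ≠ 0 ∨ m ≠ 0) → Alt f →
    (∀ i j k, l i + m j + m k < 0 → f i j k = 0) → Bad f
  kos : ∀ f : V K, Alt f →
    (∀ i j k : Fin 5, ![0, 1, 2, 3, 5] i + j.val + k.val ≤ 5 → f i j k = 0) → Bad f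

def cd (i j k : Fin 5) : ℕ := 25 * i.val + 5 * j.val + k.val

def mem (Z : ℕ) (i j k : Fin 5) : Bool := j == k || Z.testBit (cd i j k) || Z.testBit (cd i k j)

def Van (Z : ℕ) (f : V K) : Prop := ∀ i j k, mem Z i j k = true → f i j k = 0

def BP (Bad : V K → Prop) (Z : ℕ) : Prop := ∀ f, Alt f → Van Z f → Bad f

lemma van_of {Z : ℕ} {f : V K} (hf : Alt f) (h : ∀ i j k, Z.testBit (cd i j k) = true → f i j k = 0) :
    Van Z f := fun i j k hm => by
  simp only [mem, Bool.or_eq_true, beq_iff_eq] at hm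
  rcases hm with (rfl | hm) | hm
  · exact hf.1 _ _
  · exact h _ _ _ hm
  · rw [hf.2, h _ _ _ hm, neg_zero]

lemma Van.bit {Z : ℕ} {f : V K} (h : Van Z f) {i j k : Fin 5} (e : Z.testBit (cd i j k) = true) :
    f i j k = 0 := h i j k (by simp [mem, e])

lemma Van.or {Z : ℕ} {f : V K} (hf : Alt f) (h : Van Z f) {i j k : Fin 5} (e : f i j k = 0) :
    Van (Z ||| 2 ^ cd i j k) f := van_of hf fun i' j' k' hm => by
  rw [Nat.testBit_or, Bool.or_eq_true, Nat.testBit_two_pow, decide_eq_true_eq] at hm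
  rcases hm with hm | hm
  · exact h.bit hm
  · have h1 : i' = i := by unfold cd at hm; omega
    have h2 : j' = j := by unfold cd at hm; omega
    have h3 : k' = k := by unfold cd at hm; omega
    rw [h1, h2, h3, e]

lemma act_c1 (s t : Fin 5) (r : K) (f : V K) (i j k : Fin 5) :
    act (transvection s t r) 1 f i j k = f i j k + if s = i then r * f t j k else 0 := by
  simp only [act, transvection, transpose_one, Matrix.mul_one, Matrix.sum_apply,
    Matrix.smul_apply, Matrix.add_apply, smul_eq_mul, add_mul, Finset.sum_add_distrib, one_apply,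
    single_apply, ite_mul, one_mul, zero_mul, Finset.sum_ite_eq, Finset.mem_univ, if_true]
  congr 1
  by_cases h : s = i <;> simp [h]

lemma act_c2 (s t : Fin 5) (r : K) {f : V K} (hf : Alt f) (i j k : Fin 5) :
    act 1 (transvection s t r) f i j k = f i j k + (if s = j then r * f i t k else 0) +
      if s = k then r * f i j t else 0 := by
  have e : act 1 (transvection s t r) f i = transvection s t r * f i * (transvection s t r)ᵀ := by
    simp [act, one_apply]
  have e2 : (transvection s t r)ᵀ = transvection t s r := by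
    simp [transvection]
  rw [e, e2]
  by_cases h1 : s = j <;> by_cases h2 : s = k
  · subst h1 h2
    simp [hf.1]
  · subst h1
    simp [h2, Ne.symm h2]
  · subst h2
    simp [h1, Ne.symm h1]
  · simp [h1, h2, Ne.symm h1, Ne.symm h2]

lemma act_perm (σ τ : Equiv.Perm (Fin 5)) (f : V K) (i j k : Fin 5) :
    act (σ.permMatrix K) (τ.permMatrix K) f i j k = f (σ i) (τ j) (τ k) := by
  have e : ∀ (σ : Equiv.Perm (Fin 5)) (i j : Fin 5),
      σ.permMatrix K i j = if σ i = j then 1 else 0 := fun σ i j => by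
    simp [Equiv.Perm.permMatrix, PEquiv.toMatrix_apply, Equiv.toPEquiv_apply, eq_comm]
  simp only [act, Matrix.sum_apply, Matrix.smul_apply, Matrix.mul_apply, transpose_apply, e,
    smul_eq_mul, ite_mul, one_mul, zero_mul, mul_ite, mul_one, mul_zero, Finset.sum_ite_eq,
    Finset.mem_univ, if_true]

variable {Bad : V K → Prop} (hB : IsBad Bad)
include hB

lemma bp_tor {Z : ℕ} (l m : Fin 5 → ℤ) (h : ∑ i, l i = 0 ∧ ∑ j, m j = 0 ∧ (l ≠ 0 ∨ m ≠ 0) ∧
    ∀ i j k, l i + m j + m k < 0 → mem Z i j k = true) : BP Bad Z := fun f hf hZ =>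
  hB.tor l m f h.1 h.2.1 h.2.2.1 hf fun i j k e => hZ i j k (h.2.2.2 i j k e)

lemma bp_perm {P Z : ℕ} (σ τ : Equiv.Perm (Fin 5))
    (h : ∀ i j k, mem P i j k = true → mem Z (σ i) (τ j) (τ k) = true) (hP : BP Bad P) :
    BP Bad Z := fun f hf hZ => by
  have u : ∀ σ : Equiv.Perm (Fin 5), IsUnit (σ.permMatrix K).det := fun σ => by
    rw [det_permutation]
    exact (Equiv.Perm.sign σ).isUnit.map (Int.castRingHom K)
  refine hB.gl _ _ f (u σ) (u τ) hf (hP _ ⟨fun i j => ?_, fun i j k => ?_⟩ fun i j k e => ?_)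
  · rw [act_perm, hf.1]
  · rw [act_perm, act_perm, hf.2]
  · rw [act_perm, hZ _ _ _ (h i j k e)]

lemma bp_c1 {Z : ℕ} (s t j k : Fin 5)
    (h : s ≠ t ∧ ∀ j k, mem Z s j k = true → mem Z t j k = true)
    (h1 : BP Bad (Z ||| 2 ^ cd s j k)) (h2 : BP Bad (Z ||| 2 ^ cd t j k)) : BP Bad Z :=
  fun f hf hZ => by
  by_cases hp : f t j k = 0
  · exact h2 f hf (hZ.or hf hp)
  have hf' : Alt (act (transvection s t (-(f s j k / f t j k))) 1 f) := by
    generalize -(f s j k / f t j k) = r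
    refine ⟨fun i j => ?_, fun i j k => ?_⟩
    · simp [act_c1, hf.1]
    · rw [act_c1, act_c1, hf.2 i j k, hf.2 t j k]
      split_ifs <;> ring
  refine hB.gl _ _ f (by simp [det_transvection_of_ne _ _ h.1]) (by simp) hf
    (h1 _ hf' (Van.or hf' (fun i' j' k' e => ?_) ?_))
  · rw [act_c1, hZ _ _ _ e]
    split_ifs with e'
    · rw [hZ t j' k' (h.2 _ _ (e' ▸ e)), mul_zero, add_zero]
    · rw [add_zero]
  · rw [act_c1, if_pos rfl, neg_mul, div_mul_cancel₀ _ hp, add_neg_cancel]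

lemma bp_c2 {Z : ℕ} (s t i k : Fin 5)
    (h : s ≠ t ∧ s ≠ k ∧ (∀ i k, mem Z i s k = true → s ≠ k → mem Z i t k = true) ∧
      ∀ i j, mem Z i j s = true → s ≠ j → mem Z i j t = true)
    (h1 : BP Bad (Z ||| 2 ^ cd i s k)) (h2 : BP Bad (Z ||| 2 ^ cd i t k)) : BP Bad Z :=
  fun f hf hZ => by
  by_cases hp : f i t k = 0
  · exact h2 f hf (hZ.or hf hp)
  have hf' : Alt (act 1 (transvection s t (-(f i s k / f i t k))) f) := by
    generalize -(f i s k / f i t k) = r
    refine ⟨fun i j => ?_, fun i j k => ?_⟩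
    · rw [act_c2 _ _ _ hf, hf.1, hf.2 i j t]
      split_ifs <;> ring
    · rw [act_c2 _ _ _ hf, act_c2 _ _ _ hf, hf.2 i j k, hf.2 i j t, hf.2 i t k]
      split_ifs <;> ring
  refine hB.gl _ _ f (by simp) (by simp [det_transvection_of_ne _ _ h.1]) hf
    (h1 _ hf' (Van.or hf' (fun i' j' k' e => ?_) ?_))
  · by_cases e0 : j' = k'
    · rw [e0, hf'.1]
    rw [act_c2 _ _ _ hf, hZ _ _ _ e]
    split_ifs with e1 e2 e2
    · exact absurd (e1.symm.trans e2) e0
    · rw [hZ i' t k' (h.2.2.1 _ _ (e1 ▸ e) e2), mul_zero, add_zero, add_zero]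
    · rw [hZ i' j' t (h.2.2.2 _ _ (e2 ▸ e) e1), mul_zero, add_zero, add_zero]
    · rw [add_zero, add_zero]
  · rw [act_c2 _ _ _ hf, if_pos rfl, if_neg h.2.1, neg_mul, div_mul_cancel₀ _ hp, add_neg_cancel,
      add_zero]

lemma p0 : BP Bad 226673751055543633453982 := fun f hf hZ => hB.kos f hf fun i j k e =>
  hZ i j k ((by decide +kernel : ∀ i j k : Fin 5, ![0, 1, 2, 3, 5] i + j.val + k.val ≤ 5 →
    mem 226673751055543633453982 i j k = true) i j k e)

lemma p1 : BP Bad 150870592013231006 :=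
  bp_tor hB ![-6, -1, -1, 4, 4] ![-2, -2, -2, 3, 3] (by decide +kernel)

lemma p2 : BP Bad 288232579470 :=
  bp_tor hB ![-3, -3, 2, 2, 2] ![-1, -1, -1, -1, 4] (by decide +kernel)

lemma p3 : BP Bad 2535301276014324780707610624926 :=
  bp_tor hB ![-4, 1, 1, 1, 1] ![-3, -3, 2, 2, 2] (by decide +kernel)

lemma p4 : BP Bad 549790 :=
  bp_tor hB ![-1, 0, 0, 0, 1] ![0, 0, 0, 0, 0] (by decide +kernel)

lemma p5 : BP Bad 5062377020506851682287750 :=
  bp_tor hB ![-1, -1, -1, -1, 4] ![-2, -2, -2, 3, 3] (by decide +kernel)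

lemma p6 : BP Bad 33776998211911710 :=
  bp_tor hB ![-2, -2, -2, 3, 3] ![-4, 1, 1, 1, 1] (by decide +kernel)

lemma p7 : BP Bad 2535301276014338291520317161886 :=
  bp_c1 hB 0 1 1 4 (by decide +kernel)
    (bp_tor hB ![-4, 1, 1, 1, 1] ![-3, -3, 2, 2, 2] (by decide +kernel))
    (bp_tor hB ![1, -4, 1, 1, 1] ![-3, -3, 2, 2, 2] (by decide +kernel))

lemma p8 : BP Bad 226673597933142612665246 :=
  bp_c2 hB 1 2 4 0 (by decide +kernel)
    (bp_tor hB ![-4, 1, 1, 1, 1] ![-3, -3, 2, 2, 2] (by decide +kernel))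
    (bp_tor hB ![-4, 1, 1, 1, 1] ![-3, 2, -3, 2, 2] (by decide +kernel))

lemma p9 : BP Bad 31071404958 :=
  bp_c1 hB 2 3 0 1 (by decide +kernel)
    (bp_c1 hB 3 4 0 1 (by decide +kernel)
      (bp_tor hB ![-4, -4, 1, 1, 6] ![-3, -3, 2, 2, 2] (by decide +kernel))
      (bp_tor hB ![-4, -4, 1, 6, 1] ![-3, -3, 2, 2, 2] (by decide +kernel)))
    (bp_c1 hB 2 4 0 1 (by decide +kernel)
      (bp_tor hB ![-4, -4, 1, 1, 6] ![-3, -3, 2, 2, 2] (by decide +kernel))
      (bp_tor hB ![-4, -4, 6, 1, 1] ![-3, -3, 2, 2, 2] (by decide +kernel)))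

lemma q1 : BP Bad 448108176278036878 :=
  bp_c1 hB 1 2 2 3 (by decide +kernel)
    (bp_perm hB 1 1 (by decide +kernel) (p2 hB))
    (bp_perm hB (Equiv.swap 1 2) 1 (by decide +kernel) (p2 hB))

lemma p10 : BP Bad 448108176278028686 :=
  bp_c1 hB 0 1 2 3 (by decide +kernel)
    (bp_perm hB 1 1 (by decide +kernel) (q1 hB))
    (bp_perm hB (Equiv.swap 0 1) 1 (by decide +kernel) (q1 hB))

lemma q2 : BP Bad 528905061843999966363678 :=
  bp_c1 hB 2 3 0 4 (by decide +kernel)
    (bp_perm hB 1 1 (by decide +kernel) (p6 hB))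
    (bp_perm hB (Equiv.swap 2 3) 1 (by decide +kernel) (p6 hB))

lemma q3 : BP Bad 528905061843999429492766 :=
  bp_c1 hB 1 2 0 4 (by decide +kernel)
    (bp_perm hB 1 1 (by decide +kernel) (q2 hB))
    (bp_perm hB (Equiv.swap 1 2) 1 (by decide +kernel) (q2 hB))

lemma p11 : BP Bad 528905061843999429492750 :=
  bp_c1 hB 0 1 0 4 (by decide +kernel)
    (bp_perm hB 1 1 (by decide +kernel) (q3 hB))
    (bp_perm hB (Equiv.swap 0 1) 1 (by decide +kernel) (q3 hB))

lemma q4 : BP Bad 7605903828042983349322355048462 :=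
  bp_c1 hB 3 4 0 3 (by decide +kernel)
    (bp_perm hB 1 1 (by decide +kernel) (p11 hB))
    (bp_perm hB (Equiv.swap 3 4) 1 (by decide +kernel) (p11 hB))

lemma q5 : BP Bad 7605903828042974342123100307470 :=
  bp_c1 hB 2 3 0 3 (by decide +kernel)
    (bp_perm hB 1 1 (by decide +kernel) (q4 hB))
    (bp_perm hB (Equiv.swap 2 3) 1 (by decide +kernel) (q4 hB))

lemma q6 : BP Bad 7605903828042974342122831872014 :=
  bp_c1 hB 1 2 0 3 (by decide +kernel)
    (bp_perm hB 1 1 (by decide +kernel) (q5 hB))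
    (bp_perm hB (Equiv.swap 1 2) 1 (by decide +kernel) (q5 hB))

lemma p12 : BP Bad 7605903828042974342122831872006 :=
  bp_c1 hB 0 1 0 3 (by decide +kernel)
    (bp_perm hB 1 1 (by decide +kernel) (q6 hB))
    (bp_perm hB (Equiv.swap 0 1) 1 (by decide +kernel) (q6 hB))

lemma bp_pats : ∀ P ∈ pats, BP Bad P := by
  simp only [pats, List.forall_mem_cons]
  exact ⟨p0 hB, p1 hB, p10 hB, p7 hB, p2 hB, p3 hB, p12 hB, p8 hB, p4 hB, p9 hB, p11 hB, p5 hB,
    p6 hB, fun _ h => nomatch h⟩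

/-- The excess is at most `99 / 100` of the exponent in the mass of the stratum. -/
theorem cusp5_mono {f : V K} (hf : Alt f) (hn : ¬Bad f) {a c : Fin 5 → ℤ} (ha : Monotone a)
    (hc : Monotone c) (h0 : ∀ i j k, j < k → a i + c j + c k < 0 → f i j k = 0) :
    100 * ∑ i, ∑ j, ∑ k, (if j < k then max 0 (-(a i + c j + c k)) else 0) ≤
      99 * (4 * (a 4 - a 0) + 2 * (a 3 - a 1) + 4 * (c 4 - c 0) + 2 * (c 3 - c 1)) := by
  let ext : (Fin 5 → ℤ) → ℕ → ℤ := fun a n => a ⟨min n 4, by omega⟩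
  have hm : ∀ {a : Fin 5 → ℤ}, Monotone a → Monotone (ext a) := fun ha m n h =>
    ha (Fin.mk_le_mk.2 (min_le_min_right _ h))
  have he : ∀ (a : Fin 5 → ℤ) (i : Fin 5) (n : ℕ), n = i.val → ext a n = a i := fun a i n h =>
    congrArg a (Fin.ext (by simp only; omega))
  have h1 : ∀ i j k, a i + c j + c k < 0 → f i j k = 0 := fun i j k e => by
    rcases lt_trichotomy j k with h | rfl | h
    · exact h0 i j k h e
    · exact hf.1 _ _
    · rw [hf.2, h0 i k j h (by omega), neg_zero]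
  have := E_order_le (hm ha) (hm hc) fun P hP hN => hn (bp_pats hB P hP f hf (van_of hf
    fun i j k e => h1 i j k (by
      have := hN _ e
      rwa [w, he a i _ (by unfold cI cd; omega), he c j _ (by unfold cJ cd; omega),
        he c k _ (by unfold cK cd; omega)] at this)))
  refine le_trans (le_of_eq ?_) this
  simp only [E, order, List.map_cons, List.map_nil, List.sum_cons, List.sum_nil, w, cI, cJ, cK,
    Nat.reduceDiv, Nat.reduceMod, Fin.sum_univ_five]
  simp only [Fin.reduceLT, lt_self_iff_false, if_true, if_false, he a 0 0 rfl, he a 1 1 rfl,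
    he a 2 2 rfl, he a 3 3 rfl, he a 4 4 rfl, he c 0 0 rfl, he c 1 1 rfl, he c 2 2 rfl,
    he c 3 3 rfl, he c 4 4 rfl]
  ring

/-- The form for reduced bundles: the slopes increase up to `b`, and a coordinate vanishes as soon
as all coordinates below it have negative degree. -/
theorem cusp5_excess {f : V K} (hf : Alt f) (hn : ¬Bad f) {a c : Fin 5 → ℤ} {b : ℕ}
    (ha : ∀ i : Fin 4, -(b : ℤ) ≤ a i.succ - a i.castSucc)
    (hc : ∀ i : Fin 4, -(b : ℤ) ≤ c i.succ - c i.castSucc)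
    (h0 : ∀ i j k, j < k → (∀ i' ≤ i, ∀ j' ≤ j, ∀ k' ≤ k, j' < k' → a i' + c j' + c k' < 0) →
      f i j k = 0) :
    100 * ∑ i, ∑ j, ∑ k, (if j < k then max 0 (-(a i + c j + c k)) else 0) ≤
      99 * (4 * (a 4 - a 0) + 2 * (a 3 - a 1) + 4 * (c 4 - c 0) + 2 * (c 3 - c 1)) +
        34000 * b := by
  have hm : ∀ {a : Fin 5 → ℤ}, (∀ i : Fin 4, -(b : ℤ) ≤ a i.succ - a i.castSucc) →
      Monotone fun i : Fin 5 => a i + i.val * b := fun h =>
    Fin.monotone_iff_le_succ.2 fun i => by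
      have := h i
      simp only [Fin.val_succ, Fin.val_castSucc, Nat.cast_add, Nat.cast_one]
      linarith
  have h1 := cusp5_mono hB hf hn (hm ha) (hm hc) fun i j k hjk e => h0 i j k hjk
    fun i' hi j' hj k' hk _ => by
      have e1 := hm ha hi
      have e2 := hm hc hj
      have e3 := hm hc hk
      have e4 : (0 : ℤ) ≤ i'.val * b := by positivity
      have e5 : (0 : ℤ) ≤ j'.val * b := by positivity
      have e6 : (0 : ℤ) ≤ k'.val * b := by positivity
      simp only at e1 e2 e3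
      linarith
  have h2 : ∑ i, ∑ j, ∑ k, (if j < k then max 0 (-(a i + c j + c k)) else 0) ≤
      ∑ i, ∑ j, ∑ k, ((if j < k then max 0 (-(a i + i.val * b + (c j + j.val * b) +
        (c k + k.val * b))) else 0) + if j < k then ((i.val + j.val + k.val : ℕ) : ℤ) * b else 0) := by
    refine Finset.sum_le_sum fun i _ => Finset.sum_le_sum fun j _ => Finset.sum_le_sum fun k _ => ?_
    split_ifs
    · have e4 : (0 : ℤ) ≤ ((i.val + j.val + k.val : ℕ) : ℤ) * b := by positivity
      refine max_le (add_nonneg (le_max_left _ _) e4) (le_trans (le_of_eq ?_)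
        (add_le_add_left (le_max_right _ _) _))
      push_cast
      ring
    · simp
  simp only [Finset.sum_add_distrib] at h2
  have h3 : ∑ i : Fin 5, ∑ j : Fin 5, ∑ k : Fin 5,
      (if j < k then ((i.val + j.val + k.val : ℕ) : ℤ) * b else 0) = 300 * b := by
    simp only [Fin.sum_univ_five, Fin.reduceLT, lt_self_iff_false, if_true, if_false]
    simp
    ring
  rw [h3] at h2
  have e0 : ((0 : Fin 5).val : ℤ) = 0 := rfl
  have e1 : ((1 : Fin 5).val : ℤ) = 1 := rfl
  have e3 : ((3 : Fin 5).val : ℤ) = 3 := rfl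
  have e4 : ((4 : Fin 5).val : ℤ) = 4 := rfl
  simp only [e0, e1, e3, e4] at h1
  have : (0 : ℤ) ≤ b := Nat.cast_nonneg _
  linarith

end SelAvg.Cusp5
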