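import Pool.Agent.H81Sel.Fin2
import Pool.Agent.H15G.ZetaN

/-! The model-free arithmetic at the end of the chain. -/

namespace SelAvg.FF

open WeierstrassCurve WithZero Filter Topology
open scoped Classical

variable {F : Type} [Field F] [Cv F]

theorem finG_le {A : Div F → ℝ} {n z : ℝ} {cs : Finset (Place F) → ℝ} (hn : 0 < n) (hz : 0 < z)
    (h1 : Tendsto (fun N => cs (plLE F N) * z) atTop (𝓝 1)) (R : Div F)
    (hup : ∀ (N : ℕ) (η : ℝ), 0 < η → ∃ j, 2 ≤ j ∧ ∀ᶠ m : ℕ in atTop, A (R + m • PP F) ≤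
      n * z * (2 * (cs (plLE F N) * delta (plLE F N) j) + η) + η)
    {ε : ℝ} (hε : 0 < ε) :
    ∀ᶠ m : ℕ in atTop, A (R + m • PP F) - n * TD (R + m • PP F) ≤ ε := by
  obtain ⟨C, -, hC⟩ := le_TD (F := F)
  obtain ⟨a, ha, hae⟩ : ∃ a : ℝ, 0 < a ∧ a * (4 * n + n * z + 1) = ε :=
    ⟨ε / (4 * n + n * z + 1), by positivity, div_mul_cancel₀ _ (by positivity)⟩
  have h2 : ∀ᶠ N : ℕ in atTop, cs (plLE F N) * z ≤ 1 + a :=
    h1.eventually (eventually_le_nhds (lt_add_of_pos_right _ ha))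
  obtain ⟨N, hN1, hN2⟩ := (h2.and (fin2_tau (F := F) C ha)).exists
  obtain ⟨j, hj, hA⟩ := hup N a ha
  have hd0 := delta_nonneg (plLE F N) j
  have hd1 := delta_le_one (plLE F N) j
  filter_upwards [hA, hC N hj ha R] with m hm hm'
  have h3 : cs (plLE F N) * z * delta (plLE F N) j ≤ (1 + a) * delta (plLE F N) j :=
    mul_le_mul_of_nonneg_right hN1 hd0
  have h4 : a * delta (plLE F N) j ≤ a := mul_le_of_le_one_right ha.le hd1
  have h5 : cs (plLE F N) * z * delta (plLE F N) j ≤ TD (R + m • PP F) / 2 + 2 * a := by linarith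
  have h6 := mul_le_mul_of_nonneg_left h5 hn.le
  rw [← hae]
  linarith

theorem finG_ge {A : Div F → ℝ} {n z : ℝ} (c : ℝ) {cs : Finset (Place F) → ℝ} (hn : 0 < n)
    (hz : 0 < z) (h0 : ∀ S, 1 ≤ cs S * z) (R : Div F)
    (hlow : ∀ (N : ℕ) (η : ℝ), 0 < η → ∃ j, 2 ≤ j ∧ ∀ᶠ m : ℕ in atTop,
      n * z * (2 * (cs (plLE F N) * delta (plLE F N) j) - c * tau F N - η) - η ≤ A (R + m • PP F))
    {ε : ℝ} (hε : 0 < ε) :
    ∀ᶠ m : ℕ in atTop, -ε ≤ A (R + m • PP F) - n * TD (R + m • PP F) := by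
  obtain ⟨a, ha, hae⟩ : ∃ a : ℝ, 0 < a ∧ a * (n + n * z + 2) = ε :=
    ⟨ε / (n + n * z + 2), by positivity, div_mul_cancel₀ _ (by positivity)⟩
  obtain ⟨N, hN⟩ := (fin2_tau (F := F) (n * z * c) ha).exists
  obtain ⟨j, hj, hA⟩ := hlow N a ha
  have hd0 := delta_nonneg (plLE F N) j
  filter_upwards [hA, TD_le (plLE F N) hj ha R] with m hm hm'
  have h2 : delta (plLE F N) j ≤ cs (plLE F N) * z * delta (plLE F N) j :=
    le_mul_of_one_le_left hd0 (h0 _)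
  have h3 : TD (R + m • PP F) ≤ 2 * (cs (plLE F N) * z * delta (plLE F N) j) + a := by linarith
  have h4 := mul_le_mul_of_nonneg_left h3 hn.le
  rw [← hae]
  linarith

variable (F) in
/-- the product of the zeta values for two copies of `GL₅` -/
noncomputable def zz5 : ℝ := (zt F * ztN F 3 * ztN F 4 * ztN F 5) ^ 2

/-- the product of the local factors -/
noncomputable def cs5 (S : Finset (Place F)) : ℝ := (cS S * cSN 3 S * cSN 4 S * cSN 5 S) ^ 2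

/-- the local factor -/
noncomputable def lf5 (Q : ℝ) : ℝ :=
  ((1 - 1 / Q ^ 2) * (1 - 1 / Q ^ 3) * (1 - 1 / Q ^ 4) * (1 - 1 / Q ^ 5)) ^ 2

lemma prod_lf5 (S : Finset (Place F)) : ∏ v ∈ S, lf5 (qq F ^ dg v) = cs5 S := by
  simp only [lf5, cs5, Finset.prod_pow, Finset.prod_mul_distrib]
  rfl

lemma cs5_nonneg (S : Finset (Place F)) : 0 ≤ cs5 S := sq_nonneg _

lemma zz5_pos : 0 < zz5 F := by
  have h2 := fin2_zt_pos (F := F)
  have h3 := zero_lt_one.trans_le (one_le_ztN (F := F) (s := 3) (by norm_num))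
  have h4 := zero_lt_one.trans_le (one_le_ztN (F := F) (s := 4) (by norm_num))
  have h5 := zero_lt_one.trans_le (one_le_ztN (F := F) (s := 5) (by norm_num))
  unfold zz5
  positivity

lemma cs5_mul (S : Finset (Place F)) : cs5 S * zz5 F = (cS S * zt F * (cSN 3 S * ztN F 3) *
    (cSN 4 S * ztN F 4) * (cSN 5 S * ztN F 5)) ^ 2 := by
  unfold cs5 zz5
  ring

lemma one_le_cs5 (S : Finset (Place F)) : 1 ≤ cs5 S * zz5 F := by
  rw [cs5_mul]
  exact one_le_pow₀ (one_le_mul_of_one_le_of_one_le (one_le_mul_of_one_le_of_one_le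
    (one_le_mul_of_one_le_of_one_le (one_le_cS_mul_zt S) (one_le_cSN_mul_ztN (by norm_num) S))
    (one_le_cSN_mul_ztN (by norm_num) S)) (one_le_cSN_mul_ztN (by norm_num) S))

lemma tendsto_cs5 : Tendsto (fun N => cs5 (plLE F N) * zz5 F) atTop (𝓝 1) := by
  have h := ((((tendsto_cS_mul_zt (F := F)).mul (tendsto_cSN_mul_ztN (F := F) (s := 3)
    (by norm_num))).mul (tendsto_cSN_mul_ztN (F := F) (s := 4) (by norm_num))).mul
    (tendsto_cSN_mul_ztN (F := F) (s := 5) (by norm_num))).pow 2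
  simp only [mul_one, one_pow] at h
  exact h.congr fun N => (cs5_mul _).symm

omit [Cv F] in
lemma lf5_bounds {Q : ℝ} (hQ : 1 ≤ Q) : 1 - 8 * (1 / Q ^ 2) ≤ lf5 Q ∧ lf5 Q ≤ 1 := by
  have hle : ∀ k : ℕ, 2 ≤ k → 0 ≤ 1 / Q ^ k ∧ 1 / Q ^ k ≤ 1 / Q ^ 2 := fun k hk =>
    ⟨by positivity, one_div_le_one_div_of_le (by positivity) (pow_le_pow_right₀ hQ hk)⟩
  have h1 : 1 / Q ^ 2 ≤ 1 := (div_le_one (by positivity)).2 (one_le_pow₀ hQ)
  obtain ⟨a2, -⟩ := hle 2 le_rfl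
  obtain ⟨a3, b3⟩ := hle 3 (by norm_num)
  obtain ⟨a4, b4⟩ := hle 4 (by norm_num)
  obtain ⟨a5, b5⟩ := hle 5 (by norm_num)
  unfold lf5
  generalize 1 / Q ^ 2 = x at *
  generalize 1 / Q ^ 3 = y at *
  generalize 1 / Q ^ 4 = z at *
  generalize 1 / Q ^ 5 = w at *
  have key : ∀ p s t : ℝ, 0 ≤ p → p ≤ 1 → 1 - s ≤ p → 0 ≤ t → t ≤ 1 →
      0 ≤ p * (1 - t) ∧ p * (1 - t) ≤ 1 ∧ 1 - (s + t) ≤ p * (1 - t) := fun p s t p0 p1 ps t0 t1 =>
    ⟨mul_nonneg p0 (by linarith), by nlinarith, by nlinarith⟩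
  obtain ⟨c1, c2, c3⟩ := key (1 - x) x y (by linarith) (by linarith) le_rfl a3 (by linarith)
  obtain ⟨d1, d2, d3⟩ := key _ _ z c1 c2 c3 a4 (by linarith)
  obtain ⟨e1, e2, e3⟩ := key _ _ w d1 d2 d3 a5 (by linarith)
  generalize (1 - x) * (1 - y) * (1 - z) * (1 - w) = p at *
  exact ⟨by nlinarith [sq_nonneg (1 - p)], by nlinarith⟩

end SelAvg.FF
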