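import Pool.Agent.H34P.TwoB

/-!
Over a field: consequences of nonsingularity in standard position and existence of the normal form
attached to two points.
-/

namespace SelAvg.FF.T5

open WeierstrassCurve Matrix

section Ring

variable {R : Type*} [CommRing R]

lemma Par.mul' {A B A' B' : Matrix (Fin 5) (Fin 5) R} (h : Par A B) (h' : Par A' B') :
    Par (A * A') (B * B') := by
  constructor <;>
    simp [mul_apply, Fin.sum_univ_five, h.a03, h.a04, h.a13, h.a14, h.a23, h.a24, h.b01, h.b02,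
      h.b03, h.b04, h.b12, h.b13, h.b14, h'.a03, h'.a04, h'.a13, h'.a14, h'.a23, h'.a24, h'.b01,
      h'.b02, h'.b03, h'.b04, h'.b12, h'.b13, h'.b14]

lemma two_WS_disc (f : Model R) : f.WS.Δ = f.lam ^ 12 * f.cub.jac.Δ := by
  have h := para_disc 0 0 0 f.lam f.cub.jac
  have e : (wsh 0 0 0 : VariableChange R) = 1 := rfl
  rwa [e, one_smul] at h

lemma two_pol_cub (f : Model R) (v w : T3.Pt R) : f.cub.pol v w =
    (f.alp 3 ⬝ᵥ w) * f.qd 4 v + (f.alp 3 ⬝ᵥ v) * (w ᵥ* f.qm 4 ⬝ᵥ v + v ᵥ* f.qm 4 ⬝ᵥ w)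
      - (f.alp 4 ⬝ᵥ w) * f.qd 3 v - (f.alp 4 ⬝ᵥ v) * (w ᵥ* f.qm 3 ⬝ᵥ v + v ᵥ* f.qm 3 ⬝ᵥ w) := by
  simp only [Model.cub, Model.qd]
  generalize f.alp 3 = a, f.alp 4 = b, f.qm 3 = M, f.qm 4 = N
  simp only [ofTensor, T3.Model.pol, T3.Model.Fx, T3.Model.Fy, T3.Model.Fz, vecMul, dotProduct,
    Fin.sum_univ_three]
  ring

lemma two_alp_dot (f : Model R) (i : Fin 5) (v : T3.Pt R) :
    f.alp i ⬝ᵥ v = f.nv i ⬝ᵥ (f.Tm *ᵥ v) := by
  rw [Model.alp, dotProduct_mulVec]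

lemma two_qd (f : Model R) (i : Fin 5) (v : T3.Pt R) : f.qd i v =
    (f.lin 0 i ⬝ᵥ v) * (f.Tm *ᵥ v) 0 + (f.lin 1 i ⬝ᵥ v) * (f.Tm *ᵥ v) 1
      + (f.lin 2 i ⬝ᵥ v) * (f.Tm *ᵥ v) 2 := by
  simp only [Model.qd, Model.qm, vecMul, mulVec, dotProduct, Fin.sum_univ_three, of_apply]
  ring

lemma two_line {h : T3.Model R} (hb : h.b = 0) (hc : h.c = 0) (hb3 : h.b3 = 0) (hc2 : h.c2 = 0) :
    h.jac.Δ = 0 := by
  simp only [WeierstrassCurve.Δ, b₂, b₄, b₆, b₈, T3.Model.jac, hb, hc, hb3, hc2]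
  ring

lemma two_mk' (f : Model R) : f.mk' = crossProduct (f.nv 3) (f.nv 4) ᵥ* f.Tmᵀ.adjugate := by
  rw [← para_cross, Model.mk', Model.alp, Model.alp, mulVec_transpose, mulVec_transpose]

lemma two_c0 {f : Model R} (h : f.Std) : f.c 0 = altM ![0, 0, 0, 0, 0, 0, 0, 0, 0, f.lam] := by
  rw [← altM_eq (f.diag 0) (f.alt 0)]
  congr 1
  funext p
  fin_cases p
  exacts [h.c001, h.c002, h.c003, h.c004, h.c012, h.c013, h.c014, h.c023, h.c024, rfl]

lemma two_rk2_c0 {f : Model R} (h : f.Std) : Rk2 (f.c 0) := by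
  rw [rk2_iff (f.diag 0) (f.alt 0)]
  simp [pf, h.c001, h.c002, h.c003, h.c004, h.c012, h.c013, h.c014, h.c023, h.c024]

lemma two_row (B : Matrix (Fin 5) (Fin 5) R) (k : Fin 5) : Pi.single k 1 ᵥ* B = B k := by
  funext j; simp [vecMul, dotProduct, Pi.single_apply]

lemma two_mul_row (B B' : Matrix (Fin 5) (Fin 5) R) (k : Fin 5) : (B * B') k = B k ᵥ* B' := by
  funext j; simp [mul_apply, vecMul, dotProduct]

lemma two_eq_nf {f : Model R} (h : f.Std) (hl : f.lam = 1)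
    (h2 : f.c 2 = altM ![1, 0, 0, 0, 0, 0, 0, 0, 0, 0]) (h134 : f.c 1 3 4 = 0)
    (h301 : f.c 3 0 1 = 0) (h323 : f.c 3 2 3 = 0) (h324 : f.c 3 2 4 = 0) (h334 : f.c 3 3 4 = 0)
    (h401 : f.c 4 0 1 = 0) (h434 : f.c 4 3 4 = 0) : ∃ p : NP R, f = p.nf := by
  refine ⟨⟨f.c 3 0 2, f.c 4 0 2, f.c 3 1 2, f.c 4 1 2, f.c 1 2 3, f.c 1 2 4, f.c 4 2 3, f.c 4 2 4,
    f.c 1 0 3, f.c 1 0 4, f.c 1 1 3, f.c 1 1 4, f.c 3 0 3, f.c 3 0 4, f.c 3 1 3, f.c 3 1 4,
    f.c 4 0 3, f.c 4 0 4, f.c 4 1 3, f.c 4 1 4⟩, ?_⟩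
  ext1
  funext k
  fin_cases k
  · exact (two_c0 h).trans (by rw [hl]; rfl)
  · refine (altM_eq (f.diag 1) (f.alt 1)).symm.trans (congrArg altM ?_)
    funext p; fin_cases p
    exacts [h.c101, h.c102, rfl, rfl, h.c112, rfl, rfl, rfl, rfl, h134]
  · exact h2
  · refine (altM_eq (f.diag 3) (f.alt 3)).symm.trans (congrArg altM ?_)
    funext p; fin_cases p
    exacts [h301, rfl, rfl, rfl, rfl, rfl, rfl, h323, h324, h334]
  · refine (altM_eq (f.diag 4) (f.alt 4)).symm.trans (congrArg altM ?_)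
    funext p; fin_cases p
    exacts [h401, rfl, rfl, rfl, rfl, rfl, rfl, rfl, rfl, h434]

end Ring

variable {L : Type*} [Field L] {f : Model L}

lemma two_lam_ne (hD : f.WS.Δ ≠ 0) : f.lam ≠ 0 := fun h => hD (by rw [two_WS_disc, h]; simp)

lemma two_cub_ne (hD : f.WS.Δ ≠ 0) : f.cub.jac.Δ ≠ 0 := fun h => hD (by rw [two_WS_disc, h]; simp)

lemma two_Tm (hD : f.cub.jac.Δ ≠ 0) {v : T3.Pt L} (hv : f.Tm *ᵥ v = 0) : v = 0 := by
  by_contra h0
  have ha : ∀ i, f.alp i ⬝ᵥ v = 0 := fun i => by rw [two_alp_dot, hv, dotProduct_zero]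
  have hq : ∀ i, f.qd i v = 0 := fun i => by rw [two_qd, hv]; simp
  have hon : f.cub.On v := ⟨h0, by rw [Model.F_cub, ha, ha]; simp⟩
  obtain ⟨w, hw⟩ := T3.Model.smooth_iff.1 (T3.Model.smooth_of_on hD hon)
  exact hw (by rw [two_pol_cub, ha, ha, hq, hq]; simp)

lemma two_orth1 {a b : Fin 3 → L} (h : crossProduct a b = 0) (ha : a ≠ 0) :
    ∃ M : Matrix (Fin 3) (Fin 3) L, M.det ≠ 0 ∧ a ⬝ᵥ M 1 = 0 ∧ a ⬝ᵥ M 2 = 0 ∧ b ⬝ᵥ M 1 = 0 ∧
      b ⬝ᵥ M 2 = 0 := by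
  have e0 := congrFun h 0
  have e1 := congrFun h 1
  have e2 := congrFun h 2
  simp only [cross_apply, cons_val_zero, cons_val_one, cons_val, Pi.zero_apply] at e0 e1 e2
  by_cases h0 : a 0 = 0
  · by_cases h1 : a 1 = 0
    · have h2 : a 2 ≠ 0 := fun h2 => ha (by funext i; fin_cases i <;> assumption)
      refine ⟨!![0, 0, 1; a 2, 0, -a 0; 0, a 2, -a 1], by simp [det_fin_three, h2], ?_, ?_, ?_, ?_⟩
        <;> simp [dotProduct, Fin.sum_univ_three]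
      · ring
      · ring
      · linear_combination e1
      · linear_combination -e0
    · refine ⟨!![0, 1, 0; a 1, -a 0, 0; 0, -a 2, a 1], by simp [det_fin_three, h1], ?_, ?_, ?_, ?_⟩
        <;> simp [dotProduct, Fin.sum_univ_three]
      · ring
      · ring
      · linear_combination -e2
      · linear_combination e0
  · refine ⟨!![1, 0, 0; -a 1, a 0, 0; -a 2, 0, a 0], by simp [det_fin_three, h0], ?_, ?_, ?_, ?_⟩
      <;> simp [dotProduct, Fin.sum_univ_three]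
    · ring
    · ring
    · linear_combination e2
    · linear_combination -e1

lemma two_orth {a b : Fin 3 → L} (h : crossProduct a b = 0) :
    ∃ M : Matrix (Fin 3) (Fin 3) L, M.det ≠ 0 ∧ a ⬝ᵥ M 1 = 0 ∧ a ⬝ᵥ M 2 = 0 ∧ b ⬝ᵥ M 1 = 0 ∧
      b ⬝ᵥ M 2 = 0 := by
  by_cases ha : a = 0
  · by_cases hb : b = 0
    · exact ⟨1, by simp, by simp [ha], by simp [ha], by simp [hb], by simp [hb]⟩
    · obtain ⟨M, h0, h1, h2, h3, h4⟩ := two_orth1 (a := b) (b := a)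
        (by rw [← cross_anticomm, h, neg_zero]) hb
      exact ⟨M, h0, h3, h4, h1, h2⟩
  · exact two_orth1 h ha

lemma two_mk'_ne (hD : f.cub.jac.Δ ≠ 0) : f.mk' ≠ 0 := by
  intro h
  obtain ⟨M, h0, h1, h2, h3, h4⟩ := two_orth h
  have := (T3.Model.jac_Delta_smul (T3.difcG M h0) f.cub).2 hD
  rw [T3.difcG_smul] at this
  refine this (two_line ?_ ?_ ?_ ?_)
  · rw [T3.Model.subst_b, Model.F_cub, h1, h3]; simp
  · rw [T3.Model.subst_c, Model.F_cub, h2, h4]; simp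
  · rw [T3.Model.subst_b3, two_pol_cub, h1, h2, h3, h4]; simp
  · rw [T3.Model.subst_c2, two_pol_cub, h1, h2, h3, h4]; simp

/-- the tangent line at the standard point contains no other point -/
lemma two_tail (hs : f.Std) (hD : f.cub.jac.Δ ≠ 0) {Q : Pt L} (hQ : Rk2 (f.ev Q))
    (h : Q.tail = 0) : Q 1 = 0 := by
  by_contra h1
  have q2 : Q 2 = 0 := congrFun h 0
  have q3 : Q 3 = 0 := congrFun h 1
  have q4 : Q 4 = 0 := congrFun h 2
  have e1 := hQ 0 1 3 4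
  have e2 := hQ 0 2 3 4
  have e3 := hQ 1 2 3 4
  simp only [pf, Model.ev_apply, Fin.sum_univ_five, q2, q3, q4, hs.c001, hs.c002, hs.c003, hs.c004,
    hs.c012, hs.c013, hs.c014, hs.c023, hs.c024, hs.c101, hs.c102, hs.c112, mul_zero, zero_mul,
    add_zero, zero_add] at e1 e2 e3
  apply two_mk'_ne hD
  have hc : crossProduct (f.nv 3) (f.nv 4) = 0 := by
    have h2 := pow_ne_zero 2 h1
    have x0 : f.c 1 1 3 * f.c 1 2 4 - f.c 1 2 3 * f.c 1 1 4 = 0 :=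
      mul_left_cancel₀ h2 (by linear_combination -e3)
    have x1 : f.c 1 2 3 * f.c 1 0 4 - f.c 1 0 3 * f.c 1 2 4 = 0 :=
      mul_left_cancel₀ h2 (by linear_combination e2)
    have x2 : f.c 1 0 3 * f.c 1 1 4 - f.c 1 1 3 * f.c 1 0 4 = 0 :=
      mul_left_cancel₀ h2 (by linear_combination -e1)
    funext i
    fin_cases i
    exacts [x0, x1, x2]
  rw [two_mk', hc, zero_vecMul]

/-- a pair fixing the standard point and standard position is block triangular -/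
theorem par_of_std (hs : f.Std) (hD : f.WS.Δ ≠ 0) {A B : Matrix (Fin 5) (Fin 5) L}
    (hA : A.det ≠ 0) (hB : B.det ≠ 0) (hs' : (f.act A B).Std) (b1 : B 0 1 = 0) (b2 : B 0 2 = 0)
    (b3 : B 0 3 = 0) (b4 : B 0 4 = 0) : Par A B := by
  have hl := two_lam_ne hD
  have b0 : B 0 0 ≠ 0 := fun b0 => hB (det_eq_zero_of_row_eq_zero 0 fun j => by
    fin_cases j <;> assumption)
  have hc : ∀ i j, (f.act A B).c 0 i j = B 0 0 * f.lam * (A i 3 * A j 4 - A i 4 * A j 3) := by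
    intro i j
    have e : f.ev (B 0) = B 0 0 • f.c 0 := by simp [Model.ev, Fin.sum_univ_five, b1, b2, b3, b4]
    rw [Model.act_c, e, two_c0 hs]
    simp [altM, mul_apply, Fin.sum_univ_five]
    ring
  have hm : ∀ i j, (f.act A B).c 0 i j = 0 → A i 3 * A j 4 - A i 4 * A j 3 = 0 := fun i j h =>
    (mul_eq_zero.1 ((hc i j).symm.trans h)).resolve_left (mul_ne_zero b0 hl)
  have hk : A 3 3 * A 4 4 - A 3 4 * A 4 3 ≠ 0 := by
    intro hk
    have e : (f.act A B).c 0 = 0 := by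
      rw [two_c0 hs', Model.lam, hc, hk]
      ext i j; fin_cases i <;> fin_cases j <;> simp [altM]
    have hu : IsUnit A.det := hA.isUnit
    have e2 : f.ev (B 0) = 0 := by
      have h1 : A⁻¹ * (A * f.ev (B 0) * Aᵀ) * A⁻¹ᵀ = f.ev (B 0) := by
        rw [← Matrix.mul_assoc, ← Matrix.mul_assoc, nonsing_inv_mul _ hu, Matrix.one_mul,
          Matrix.mul_assoc, ← transpose_mul, nonsing_inv_mul _ hu, transpose_one, Matrix.mul_one]
      rw [← h1, ← Model.act_c, e]; simp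
    have e3 := congrFun (congrFun e2 3) 4
    simp only [Model.ev_apply, Fin.sum_univ_five, b1, b2, b3, b4, zero_mul, add_zero,
      Matrix.zero_apply] at e3
    exact mul_ne_zero b0 hl e3
  have col : ∀ i, (f.act A B).c 0 i 3 = 0 → (f.act A B).c 0 i 4 = 0 → A i 3 = 0 ∧ A i 4 = 0 := by
    intro i h3 h4
    have e3 := hm i 3 h3
    have e4 := hm i 4 h4
    exact ⟨mul_left_cancel₀ hk (by linear_combination A 3 3 * e4 - A 4 3 * e3),
      mul_left_cancel₀ hk (by linear_combination A 3 4 * e4 - A 4 4 * e3)⟩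
  obtain ⟨a03, a04⟩ := col 0 hs'.c003 hs'.c004
  obtain ⟨a13, a14⟩ := col 1 hs'.c013 hs'.c014
  obtain ⟨a23, a24⟩ := col 2 hs'.c023 hs'.c024
  have hP : Par A 1 := by constructor <;> first | assumption | simp
  have h3 : (blk3 A).det ≠ 0 := left_ne_zero_of_mul (hP.det_fst ▸ hA)
  have ht : f.Tm *ᵥ Pt.tail (B 1) = 0 := by
    have e1 := hs'.c101
    have e2 := hs'.c102
    have e3 := hs'.c112
    have hM : ∀ i j, f.ev (B 1) j i = -f.ev (B 1) i j := f.ev_alt _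
    have hd : ∀ i, f.ev (B 1) i i = 0 := f.ev_diag _
    have t0 : (f.Tm *ᵥ Pt.tail (B 1)) 0 = f.ev (B 1) 1 2 := by
      simp [Model.Tm, Model.lin, mulVec, dotProduct, Fin.sum_univ_three, Model.ev_apply,
        Fin.sum_univ_five, hs.c012, hs.c112]; ring
    have t1 : (f.Tm *ᵥ Pt.tail (B 1)) 1 = -f.ev (B 1) 0 2 := by
      simp [Model.Tm, Model.lin, mulVec, dotProduct, Fin.sum_univ_three, Model.ev_apply,
        Fin.sum_univ_five, hs.c002, hs.c102]; ring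
    have t2 : (f.Tm *ᵥ Pt.tail (B 1)) 2 = f.ev (B 1) 0 1 := by
      simp [Model.Tm, Model.lin, mulVec, dotProduct, Fin.sum_univ_three, Model.ev_apply,
        Fin.sum_univ_five, hs.c001, hs.c101]; ring
    rw [Model.act_c] at e1 e2 e3
    generalize f.ev (B 1) = M at e1 e2 e3 hM hd t0 t1 t2
    simp only [mul_apply, transpose_apply, Fin.sum_univ_five, a03, a04, a13, a14, a23, a24, hd,
      hM 0 1, hM 0 2, hM 1 2, mul_zero, zero_mul, add_zero, zero_add] at e1 e2 e3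
    funext r
    fin_cases r
    · refine t0.trans (mul_left_cancel₀ h3 ?_)
      rw [det_blk3, Pi.zero_apply]; linear_combination A 2 0 * e1 - A 1 0 * e2 + A 0 0 * e3
    · refine t1.trans (mul_left_cancel₀ h3 ?_)
      rw [det_blk3, Pi.zero_apply]; linear_combination A 2 1 * e1 - A 1 1 * e2 + A 0 1 * e3
    · refine t2.trans (mul_left_cancel₀ h3 ?_)
      rw [det_blk3, Pi.zero_apply]; linear_combination A 2 2 * e1 - A 1 2 * e2 + A 0 2 * e3
  have ht0 := two_Tm (two_cub_ne hD) ht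
  exact ⟨a03, a04, a13, a14, a23, a24, b1, b2, b3, b4, congrFun ht0 0, congrFun ht0 1,
    congrFun ht0 2⟩

/-- `(f', Q')` is obtained from `(f, Q)` by an invertible block triangular pair -/
def TwoStep (f : Model L) (Q : Pt L) (f' : Model L) (Q' : Pt L) : Prop :=
  ∃ A B : Matrix (Fin 5) (Fin 5) L, Par A B ∧ A.det ≠ 0 ∧ B.det ≠ 0 ∧ f' = f.act A B ∧ Q' ᵥ* B = Q

lemma TwoStep.trans {f f' f'' : Model L} {Q Q' Q'' : Pt L} (h : TwoStep f Q f' Q')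
    (h' : TwoStep f' Q' f'' Q'') : TwoStep f Q f'' Q'' := by
  obtain ⟨A, B, hP, hA, hB, rfl, rfl⟩ := h
  obtain ⟨A', B', hP', hA', hB', rfl, rfl⟩ := h'
  exact ⟨A' * A, B' * B, hP'.mul' hP, by rw [det_mul]; exact mul_ne_zero hA' hA,
    by rw [det_mul]; exact mul_ne_zero hB' hB, Model.act_act _ _ _ _ _, by rw [vecMul_vecMul]⟩

lemma TwoStep.std {f f' : Model L} {Q Q' : Pt L} (h : TwoStep f Q f' Q') (hs : f.Std) : f'.Std := by
  obtain ⟨A, B, hP, -, -, rfl, -⟩ := h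
  exact hP.std hs

lemma TwoStep.disc {f f' : Model L} {Q Q' : Pt L} (h : TwoStep f Q f' Q') (hs : f.Std)
    (hD : f.WS.Δ ≠ 0) : f'.WS.Δ ≠ 0 := by
  obtain ⟨A, B, hP, hA, hB, rfl, -⟩ := h
  rw [WS_act_disc hP hs]
  exact mul_ne_zero (pow_ne_zero _ (mul_ne_zero (pow_ne_zero _ hA) hB)) hD

lemma TwoStep.rk2 {f f' : Model L} {Q Q' : Pt L} (h : TwoStep f Q f' Q') (hQ : Rk2 (f.ev Q)) :
    Rk2 (f'.ev Q') := by
  obtain ⟨A, B, -, -, -, rfl, rfl⟩ := h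
  rw [Model.ev_act]
  exact hQ.conj A

lemma two_complete {v : T3.Pt L} (hv : v ≠ 0) :
    ∃ N : Matrix (Fin 3) (Fin 3) L, N.det ≠ 0 ∧ N 0 = v := by
  obtain ⟨i, hi⟩ := Function.ne_iff.1 hv
  obtain ⟨g, hg⟩ := T3.exists_mover_pt (Q := v) ⟨i, Ne.isUnit hi⟩
  exact ⟨g.e, by rw [← T3.G.det_val]; exact g.det.ne_zero, by rw [← T3.G.pt_std, hg]⟩

lemma two_step1 (f : Model L) {Q : Pt L} (h : Q.tail ≠ 0) :
    ∃ f', TwoStep f Q f' (Pi.single 2 1) := by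
  obtain ⟨N, hN, h0⟩ := two_complete h
  let B : Matrix (Fin 5) (Fin 5) L := !![1, 0, 0, 0, 0; 0, 1, 0, 0, 0; Q 0, Q 1, N 0 0, N 0 1, N 0 2;
    0, 0, N 1 0, N 1 1, N 1 2; 0, 0, N 2 0, N 2 1, N 2 2]
  have hP : Par 1 B := by constructor <;> simp [B]
  have hl : low3 B = N := by ext i j; fin_cases i <;> fin_cases j <;> rfl
  refine ⟨_, 1, B, hP, by simp, ?_, rfl, ?_⟩
  · rw [hP.det_snd, hl]; simpa [B] using hN
  · rw [two_row]
    funext j
    fin_cases j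
    exacts [rfl, rfl, congrFun h0 0, congrFun h0 1, congrFun h0 2]

lemma two_k_ne (hD : f.WS.Δ ≠ 0) : (![f.c 2 1 2, -f.c 2 0 2, f.c 2 0 1] : T3.Pt L) ≠ 0 := by
  intro h
  have e : f.Tm *ᵥ T3.Pt.std = 0 := by
    rw [← h]; funext r
    fin_cases r <;> simp [Model.Tm, Model.lin, mulVec, dotProduct, Fin.sum_univ_three]
  exact T3.Pt.prim_std (two_Tm (two_cub_ne hD) e)

lemma two_act_one (A : Matrix (Fin 5) (Fin 5) L) (f : Model L) (k : Fin 5) :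
    (f.act A 1).c k = A * f.c k * Aᵀ := by
  have h : (1 : Matrix (Fin 5) (Fin 5) L) k = Pi.single k 1 := by
    funext j; simp [one_apply, Pi.single_apply, eq_comm]
  rw [Model.act_c, h, Model.ev_single]

lemma two_step2 (hD : f.WS.Δ ≠ 0) (Q : Pt L) :
    ∃ f', TwoStep f Q f' Q ∧ f'.c 2 0 2 = 0 ∧ f'.c 2 1 2 = 0 := by
  obtain ⟨N, hN, h0⟩ := two_complete (two_k_ne hD)
  have n0 : N 0 0 = f.c 2 1 2 := congrFun h0 0
  have n1 : N 0 1 = -f.c 2 0 2 := congrFun h0 1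
  have n2 : N 0 2 = f.c 2 0 1 := congrFun h0 2
  let A : Matrix (Fin 5) (Fin 5) L := !![N 1 0, N 1 1, N 1 2, 0, 0; N 2 0, N 2 1, N 2 2, 0, 0;
    N 0 0, N 0 1, N 0 2, 0, 0; 0, 0, 0, 1, 0; 0, 0, 0, 0, 1]
  have hP : Par A 1 := by constructor <;> simp [A]
  refine ⟨_, ⟨A, 1, hP, ?_, by simp, rfl, by simp⟩, ?_, ?_⟩
  · rw [hP.det_fst, det_blk3]
    rw [det_fin_three] at hN
    simp [A, det2]
    intro h; apply hN; linear_combination h
  all_goals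
    rw [two_act_one]
    simp [A, mul_apply, vecMul, dotProduct, Fin.sum_univ_five, f.diag, f.alt 2 0 1, f.alt 2 0 2,
      f.alt 2 1 2, n0, n1, n2]
    ring

lemma two_step3 (hD : f.WS.Δ ≠ 0) (hR : Rk2 (f.c 2)) (h02 : f.c 2 0 2 = 0) (h12 : f.c 2 1 2 = 0)
    (Q : Pt L) : ∃ f', TwoStep f Q f' Q ∧ f'.c 2 = altM ![1, 0, 0, 0, 0, 0, 0, 0, 0, 0] := by
  have hμ : f.c 2 0 1 ≠ 0 := fun h => two_k_ne hD (by
    funext r; fin_cases r <;> simp [h, h02, h12])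
  have h23 : f.c 2 2 3 = 0 := mul_left_cancel₀ hμ (by
    have := hR 0 1 2 3; simp only [pf, h02, h12] at this; linear_combination this)
  have h24 : f.c 2 2 4 = 0 := mul_left_cancel₀ hμ (by
    have := hR 0 1 2 4; simp only [pf, h02, h12] at this; linear_combination this)
  have h34 := hR 0 1 3 4
  simp only [pf] at h34
  obtain ⟨ν, hν⟩ : ∃ ν, f.c 2 0 1 * ν = 1 := ⟨_, mul_inv_cancel₀ hμ⟩
  let A : Matrix (Fin 5) (Fin 5) L := !![ν, 0, 0, 0, 0; 0, 1, 0, 0, 0; 0, 0, 1, 0, 0;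
    f.c 2 1 3 * ν, -f.c 2 0 3 * ν, 0, 1, 0; f.c 2 1 4 * ν, -f.c 2 0 4 * ν, 0, 0, 1]
  have hP : Par A 1 := by constructor <;> simp [A]
  refine ⟨_, ⟨A, 1, hP, ?_, by simp, rfl, by simp⟩, ?_⟩
  · rw [hP.det_fst, det_blk3]
    simpa [A, det2] using right_ne_zero_of_mul (hν ▸ one_ne_zero)
  · rw [← altM_eq ((f.act A 1).diag 2) ((f.act A 1).alt 2), two_act_one,
      ← altM_eq (f.diag 2) (f.alt 2)]
    congr 1
    funext p
    fin_cases p <;> simp [A, altM, pI, pJ, mul_apply, Fin.sum_univ_five, h02, h12, h23, h24]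
    · linear_combination hν
    · linear_combination -f.c 2 0 3 * ν * hν
    · linear_combination -f.c 2 0 4 * ν * hν
    · linear_combination -f.c 2 1 3 * hν
    · linear_combination -f.c 2 1 4 * hν
    · linear_combination ν * h34
        - (f.c 2 3 4 - ν * (f.c 2 0 3 * f.c 2 1 4 - f.c 2 0 4 * f.c 2 1 3)) * hν

lemma two_step4 (hs : f.Std) (hD : f.WS.Δ ≠ 0)
    (h2 : f.c 2 = altM ![1, 0, 0, 0, 0, 0, 0, 0, 0, 0]) :
    ∃ p : NP L, TwoStep f (Pi.single 2 1) p.nf (Pi.single 2 1) := by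
  have hl := two_lam_ne hD
  obtain ⟨ν, hν⟩ : ∃ ν, f.c 0 3 4 * ν = 1 := ⟨_, mul_inv_cancel₀ hl⟩
  have ea : f.cub.a = 0 := by
    simp [Model.cub, ofTensor, Model.qm, Model.lin, Model.Tm, h2, altM]
  have ea2 : f.cub.a2 = f.c 1 2 3 * f.c 3 2 4 - f.c 1 2 4 * f.c 3 2 3 := by
    simp [Model.cub, ofTensor, Model.qm, Model.lin, Model.Tm, Model.alp, Model.nv, vecMul,
      dotProduct, Fin.sum_univ_three, h2, altM]
  have ea3 : f.cub.a3 = f.c 1 2 3 * f.c 4 2 4 - f.c 1 2 4 * f.c 4 2 3 := by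
    simp [Model.cub, ofTensor, Model.qm, Model.lin, Model.Tm, Model.alp, Model.nv, vecMul,
      dotProduct, Fin.sum_univ_three, h2, altM]
  obtain ⟨x, y, hxy⟩ : ∃ x y : L, f.cub.a3 * y + f.cub.a2 * x = 1 := by
    rcases T3.Model.a2_or_a3 (two_cub_ne hD) ea with h | h
    · exact ⟨f.cub.a2⁻¹, 0, by field_simp; ring⟩
    · exact ⟨0, f.cub.a3⁻¹, by field_simp; ring⟩
  obtain ⟨t1, ht1⟩ : ∃ t, t = f.c 4 2 3 * f.c 3 2 4 - f.c 3 2 3 * f.c 4 2 4 := ⟨_, rfl⟩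
  generalize f.cub.a3 = t3 at ea3 hxy
  generalize f.cub.a2 = t4 at ea2 hxy
  let B : Matrix (Fin 5) (Fin 5) L := !![ν, 0, 0, 0, 0; -f.c 1 3 4 * ν, 1, 0, 0, 0; 0, 0, 1, 0, 0;
    -(f.c 1 3 4 * t1 + f.c 3 3 4 * t3 - f.c 4 3 4 * t4) * ν, t1,
      -(f.c 3 0 1 * t3 - f.c 4 0 1 * t4), t3, -t4;
    -(f.c 3 3 4 * x + f.c 4 3 4 * y) * ν, 0, -(f.c 3 0 1 * x + f.c 4 0 1 * y), x, y]
  have hP : Par 1 B := by constructor <;> simp [B]
  have hc : ∀ k i j, (f.act 1 B).c k i j = ∑ l, B k l * f.c l i j := fun k i j => by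
    rw [Model.act_c]; simp [Model.ev_apply]
  obtain ⟨p, hp⟩ : ∃ p : NP L, f.act 1 B = p.nf := by
    refine two_eq_nf (hP.std hs) ?_ ?_ ?_ ?_ ?_ ?_ ?_ ?_ ?_
    · rw [Model.lam, hc]; simp [B, Fin.sum_univ_five]; linear_combination hν
    · rw [← h2]; ext i j; rw [hc]; simp [B, Fin.sum_univ_five]
    · rw [hc]; simp [B, Fin.sum_univ_five, h2, altM]; linear_combination -f.c 1 3 4 * hν
    · rw [hc]; simp [B, Fin.sum_univ_five, h2, altM, hs.c001, hs.c101]; ring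
    · rw [hc]; simp [B, Fin.sum_univ_five, h2, altM, hs.c023]; rw [ht1, ea2, ea3]; ring
    · rw [hc]; simp [B, Fin.sum_univ_five, h2, altM, hs.c024]; rw [ht1, ea2, ea3]; ring
    · rw [hc]; simp [B, Fin.sum_univ_five, h2, altM]
      linear_combination -(f.c 1 3 4 * t1 + f.c 3 3 4 * t3 - f.c 4 3 4 * t4) * hν
    · rw [hc]; simp [B, Fin.sum_univ_five, h2, altM, hs.c001, hs.c101, mul_comm]
    · rw [hc]; simp [B, Fin.sum_univ_five, h2, altM]
      linear_combination -(f.c 3 3 4 * x + f.c 4 3 4 * y) * hν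
  refine ⟨p, 1, B, hP, by simp, ?_, hp.symm, ?_⟩
  · have e : B.det = ν * (t3 * y + t4 * x) := by
      rw [hP.det_snd, det_low3]; simp [B]
    rw [e, hxy, mul_one]
    exact right_ne_zero_of_mul (hν ▸ one_ne_zero)
  · rw [two_row]; funext j; fin_cases j <;> simp [B]

/-- the normal form attached to the standard point and a second point -/
theorem two_exists_nf (hs : f.Std) (hD : f.WS.Δ ≠ 0) {Q : Pt L} (hQ : Rk2 (f.ev Q))
    (ht : Q.tail ≠ 0) : ∃ p : NP L, TwoStep f Q p.nf (Pi.single 2 1) := by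
  obtain ⟨f1, h1⟩ := two_step1 f ht
  obtain ⟨f2, h2, e02, e12⟩ := two_step2 (h1.disc hs hD) (Pi.single 2 1)
  have h12 := h1.trans h2
  obtain ⟨f3, h3, e3⟩ := two_step3 (h12.disc hs hD) (by
    rw [← Model.ev_single]; exact h12.rk2 hQ) e02 e12 (Pi.single 2 1)
  have h123 := h12.trans h3
  obtain ⟨p, h4⟩ := two_step4 (h123.std hs) (h123.disc hs hD) e3
  exact ⟨p, h123.trans h4⟩

end SelAvg.FF.T5
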