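import Pool.Agent.H34P.DifB1
import Pool.Agent.H34P.TwoC

/-!
Additivity of the difference map and its relation with the covering map.
-/

namespace SelAvg.FF.T5

open WeierstrassCurve Matrix
open scoped Classical

section Ring

variable {R S : Type*} [CommRing R] [CommRing S]

lemma difc_map_inv (φ : R →+* S) (C : VariableChange R) : C⁻¹.map φ = (C.map φ)⁻¹ :=
  (VariableChange.mapHom φ).map_inv C

lemma difc_u_mul (C C' : VariableChange R) : (C * C').u = C.u * C'.u := rfl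

lemma difc_u_inv (C : VariableChange R) : C⁻¹.u = C.u⁻¹ := rfl

lemma difc_sh_sw (p : NP R) :
    p.nf.sh swA swB = p.swap.nf.shS * (p.swap.kap * p.sig * p.kap⁻¹) * p.nf.shS⁻¹ := by
  have key : ∀ q : NP (T3.Free R),
      q.nf.sh swA swB = q.swap.nf.shS * (q.swap.kap * q.sig * q.kap⁻¹) * q.nf.shS⁻¹ := by
    intro q
    apply Model.sh_unique
    · simp [difc_u_mul, difc_u_inv, Model.shS_u, NP.kap_u, NP.sig_u]
    · rw [NP.act_sw, chi_sw, T3.wsc_one, Model.jac_std q.swap.nf_std, Model.jac_std q.nf_std,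
        mul_smul (_ * _), inv_smul_smul, mul_smul q.swap.nf.shS, NP.WS_swap]
  have h := congrArg (VariableChange.map · (T3.freeEv R)) (key (p.map MvPolynomial.X))
  simp only [Obj.vc_map_mul, difc_map_inv, ← Model.sh_map, ← Model.shS_map, ← NP.nf_map,
    ← NP.kap_map, ← NP.sig_map, ← NP.swap_map, NP.map_lift, swA_map, swB_map] at h
  exact h

lemma difc_shift (p : NP R) :
    SelAvg.G.ofShift p.r0 p.r1 p.r2 • p.sec.redP = p.tan.redP ∧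
      (SelAvg.G.ofShift p.r0 p.r1 p.r2).Gam p.sec.redP = p.kap := by
  refine ⟨by simp [SelAvg.G.smul_def, NP.redP_tan], ?_⟩
  simp only [SelAvg.G.Gam, SelAvg.G.ofShift_m11, SelAvg.G.ofShift_m12, SelAvg.G.ofShift_m21,
    SelAvg.G.ofShift_m22, SelAvg.Model.subst_one, SelAvg.G.ofShift_r0, SelAvg.G.ofShift_r1,
    SelAvg.G.ofShift_r2, SelAvg.G.det_ofShift, SelAvg.G.ofShift_μ, NP.kap]
  ext <;> simp [wsh, wdiag, VariableChange.mul_def, SelAvg.Model.subR, SelAvg.Model.subS,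
    SelAvg.Model.subT]

lemma difc_pf3 (p : NP R) (Q : Pt R) : pf (p.nf.ev Q) 0 1 2 3 = Q 2 * (p.a3 * Q 1 + p.b3 * Q 4)
    + Q 1 * (p.c33 * Q 3 + p.c34 * Q 4) + (p.d30 * Q 3 ^ 2 + p.d31 * Q 3 * Q 4 + p.d32 * Q 4 ^ 2) := by
  simp [NP.ev_nf, pf, altM, NP.c33, NP.c34, NP.d30, NP.d31, NP.d32]; ring

lemma difc_pf4 (p : NP R) (Q : Pt R) : pf (p.nf.ev Q) 0 1 2 4 = Q 2 * (p.a4 * Q 1 + p.b4 * Q 4)
    + Q 1 * (p.c43 * Q 3 + p.c44 * Q 4) + (p.d40 * Q 3 ^ 2 + p.d41 * Q 3 * Q 4 + p.d42 * Q 4 ^ 2) := by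
  simp [NP.ev_nf, pf, altM, NP.c43, NP.c44, NP.d40, NP.d41, NP.d42]; ring

/-- the object given by the secant cubic -/
noncomputable def secO (p : NP R) (γ : VariableChange R) : T3.Obj R :=
  ⟨p.sec, p.kap⁻¹ * (p.nf.shS⁻¹ * γ)⟩

lemma difc_red (p : NP R) (γ : VariableChange R) :
    (⟨p.nf, γ⟩ : Obj R).red = ⟨p.tan, p.nf.shS⁻¹ * γ⟩ := by
  simp only [Obj.red, NP.nf_lam, NP.cub_nf, T3.Model.scale_one]

lemma difc_redP (p : NP R) (γ : VariableChange R) :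
    (⟨p.tan, p.nf.shS⁻¹ * γ⟩ : T3.Obj R).redP =
      SelAvg.G.ofShift p.r0 p.r1 p.r2 • (secO p γ).redP := by
  refine SelAvg.Obj.ext (difc_shift p).1.symm ?_
  change _ = (SelAvg.G.ofShift p.r0 p.r1 p.r2).Gam p.sec.redP * (p.kap⁻¹ * (p.nf.shS⁻¹ * γ))
  rw [(difc_shift p).2, mul_inv_cancel_left]
  rfl

lemma difc_over_tan {p : NP R} {γ : VariableChange R} {W : WeierstrassCurve R}
    (h : (⟨p.nf, γ⟩ : Obj R).Over W) : (⟨p.tan, p.nf.shS⁻¹ * γ⟩ : T3.Obj R).Over W := by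
  change p.nf.jac = γ • W at h
  change p.tan.jac = (p.nf.shS⁻¹ * γ) • W
  rw [mul_smul, ← h, Model.jac_std p.nf_std, inv_smul_smul, NP.WS_nf]

lemma difc_over_sec {p : NP R} {γ : VariableChange R} {W : WeierstrassCurve R}
    (h : (⟨p.nf, γ⟩ : Obj R).Over W) : (secO p γ).Over W := by
  have h' := difc_over_tan h
  change p.tan.jac = (p.nf.shS⁻¹ * γ) • W at h'
  change p.sec.jac = (p.kap⁻¹ * (p.nf.shS⁻¹ * γ)) • W
  rw [mul_smul, ← h', NP.jac_tan, inv_smul_smul]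

/-- the exchange of the two points -/
def swG : G R := ⟨⟨swA, swA, swA_mul, swA_mul⟩, ⟨swB, swB, swB_mul, swB_mul⟩⟩

/-- the exchange on the secant cubic -/
def swT : T3.G R := ⟨⟨sw3, sw3, sw3_mul, sw3_mul⟩, -1⟩

/-- the second point -/
def ptE : Pt R := Pi.single 2 1

lemma swG_pt (Q : Pt R) : swG.pt Q = ![Q 2, Q 3, Q 0, Q 1, Q 4] := vecMul_swB Q

lemma swT_pt (Q : T3.Pt R) : swT.pt Q = ![Q 1, Q 0, Q 2] := vecMul_sw3 Q

lemma swG_pt_pt (Q : Pt R) : swG.pt (swG.pt Q) = Q := by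
  rw [swG_pt, swG_pt]; funext j; fin_cases j <;> rfl

lemma swG_std : swG.pt (Pt.std : Pt R) = ptE := by
  rw [swG_pt]; funext j; fin_cases j <;> simp [ptE]

lemma swG_smul (p : NP R) (γ : VariableChange R) :
    (swG : G R) • (⟨p.nf, γ⟩ : Obj R) = ⟨p.swap.nf, p.nf.sh swA swB * γ⟩ := by
  refine Obj.ext p.act_sw ?_
  have e : (swG : G R).det = 1 := Units.ext (by rw [G.det_val]; exact chi_sw)
  change (p.nf.sh swA swB * wdiag (swG : G R).det⁻¹) * γ = _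
  rw [e, inv_one]
  congr 1
  exact mul_one _

lemma swT_smul (p : NP R) (γ : VariableChange R) :
    (swT : T3.G R) • secO p γ = secO p.swap (p.nf.sh swA swB * γ) := by
  refine T3.Obj.ext ?_ ?_
  · change (p.sec.subst sw3).scale (((-1 : Rˣ)⁻¹ : Rˣ) : R) = p.swap.sec
    rw [NP.sec_swap]; simp
  · have e : (swT : T3.G R).det = -1 := Units.ext (by rw [T3.G.det_val]; exact det_sw3)
    have e2 : (swT : T3.G R).Gam p.sec = p.sig := by
      change wdiag (-1) * p.sec.sh sw3 * wdiag (swT : T3.G R).det⁻¹ = _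
      rw [e, T3.Model.sh_eq_wsh, mul_assoc, wsh_mul_wdiag, ← mul_assoc, wdiag_mul, NP.sig]
      ext <;> simp [wsh, wdiag, VariableChange.mul_def]
      ring
    change (swT : T3.G R).Gam p.sec * (p.kap⁻¹ * (p.nf.shS⁻¹ * γ)) =
      p.swap.kap⁻¹ * (p.swap.nf.shS⁻¹ * (p.nf.sh swA swB * γ))
    rw [e2, difc_sh_sw]
    simp only [mul_assoc, inv_mul_cancel_left]

end Ring

variable {L : Type*} [Field L]

/-- the projection from the secant line -/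
noncomputable def psi (Q : Pt L) : T3.Pt L :=
  if Q 1 = 0 ∧ Q 3 = 0 ∧ Q 4 = 0 then ![Q 0, Q 2, 0] else ![Q 1, Q 3, Q 4]

lemma psi_std : psi (Pt.std : Pt L) = T3.Pt.std := by simp [psi, T3.Pt.std]

lemma psi_swG (Q : Pt L) : swT.pt (psi (swG.pt Q)) = psi Q := by
  rw [swT_pt, swG_pt]
  by_cases h : Q 1 = 0 ∧ Q 3 = 0 ∧ Q 4 = 0
  · simp [psi, h]
  · have h' : ¬(Q 3 = 0 ∧ Q 1 = 0 ∧ Q 4 = 0) := fun e => h ⟨e.2.1, e.1, e.2.2⟩
    simp [psi, h, h']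

lemma psi_ptE : psi (ptE : Pt L) = swT.pt T3.Pt.std := by
  rw [← psi_std, ← swG_std, ← psi_swG, swG_pt_pt]

lemma difc_plane {p : NP L} (hΔ : p.tan.jac.Δ ≠ 0) {Q : Pt L} (hQ : p.nf.On Q) (h3 : Q 3 = 0)
    (h4 : Q 4 = 0) : Q 1 = 0 ∧ (Q 0 = 0 ∨ Q 2 = 0) := by
  by_cases h2 : Q 2 = 0
  · refine ⟨two_tail p.nf_std (by rw [p.cub_nf]; exact hΔ) hQ.eq ?_, Or.inr h2⟩
    funext i; fin_cases i; exacts [h2, h3, h4]
  have hδ : p.tan.a3 ≠ 0 := T3.Model.a3_ne hΔ ⟨rfl, rfl⟩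
  have e3 := hQ.eq 0 1 2 3
  have e4 := hQ.eq 0 1 2 4
  rw [difc_pf3] at e3
  rw [difc_pf4] at e4
  have h1 : Q 1 = 0 := mul_left_cancel₀ (mul_ne_zero h2 hδ) (by
    simp only [NP.tan, h3, h4] at e3 e4 ⊢
    linear_combination p.b4 * e3 - p.b3 * e4)
  have e := hQ.eq 0 1 3 4
  simp [NP.ev_nf, pf, altM, h1, h3, h4, h2] at e
  exact ⟨h1, Or.inl e⟩

lemma difc_on_psi {p : NP L} (hΔ : p.tan.jac.Δ ≠ 0) {Q : Pt L} (hQ : p.nf.On Q) :
    p.sec.On (psi Q) := by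
  by_cases h : Q 1 = 0 ∧ Q 3 = 0 ∧ Q 4 = 0
  · rw [psi, if_pos h]
    refine ⟨fun e => hQ.prim ?_, ?_⟩
    · funext i; fin_cases i
      exacts [congrFun e 0, h.1, congrFun e 1, h.2.1, h.2.2]
    · rcases (difc_plane hΔ hQ h.2.1 h.2.2).2 with e | e <;> simp [T3.Model.F, NP.sec, e]
  · rw [psi, if_neg h]
    refine ⟨fun e => h ⟨congrFun e 0, congrFun e 1, congrFun e 2⟩, ?_⟩
    have e3 := hQ.eq 0 1 2 3
    have e4 := hQ.eq 0 1 2 4
    rw [difc_pf3] at e3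
    rw [difc_pf4] at e4
    simp only [T3.Model.F, NP.sec, cons_val_zero, cons_val_one, cons_val]
    linear_combination (p.a4 * Q 1 + p.b4 * Q 4) * e3 - (p.a3 * Q 1 + p.b3 * Q 4) * e4

lemma difc_on_phi {p : NP L} (hΔ : p.tan.jac.Δ ≠ 0) {Q : Pt L} (hQ : p.nf.On Q) :
    p.tan.On (p.nf.phi Q) := by
  rw [← p.cub_nf] at hΔ ⊢
  by_cases h : Q.tail = 0
  · rw [Model.phi, if_pos h]
    exact ⟨two_mk'_ne hΔ, Model.F_mk' _⟩
  · rw [Model.phi, if_neg h]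
    exact ⟨h, p.nf_std.F_tail hQ.eq⟩

lemma difc_sec_disc {p : NP L} (hΔ : p.tan.jac.Δ ≠ 0) : p.sec.jac.Δ ≠ 0 := by
  rw [NP.jac_tan] at hΔ
  exact (Delta_smul_ne_zero _).1 hΔ

/-- the two projections to the degree 2 model agree -/
lemma difc_compat {p : NP L} (hΔ : p.tan.jac.Δ ≠ 0) {Q : Pt L} (hQ : p.nf.On Q) :
    ((SelAvg.G.ofShift p.r0 p.r1 p.r2).pt (p.tan.phiP (p.nf.phi Q))).Eqv (p.sec.phiP (psi Q)) := by
  by_cases h34 : Q 3 = 0 ∧ Q 4 = 0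
  · obtain ⟨h1, h02⟩ := difc_plane hΔ hQ h34.1 h34.2
    rw [psi, if_pos ⟨h1, h34⟩]
    by_cases h2 : Q 2 = 0
    · have ht : Q.tail = 0 := by funext i; fin_cases i; exacts [h2, h34.1, h34.2]
      have hs := T3.Model.a2_or_a3 (difc_sec_disc hΔ) rfl
      rw [Model.phi, if_pos ht, NP.mk'_nf, T3.Model.phiP_of_ne _ (by
        rcases hs with h | h <;> simp [h]), T3.Model.phiP, if_pos (by simp [h2])]
      refine ⟨1, one_ne_zero, ?_⟩
      ext <;> simp [SelAvg.G.pt, T3.Model.phiP0, SelAvg.Model.q, T3.Model.redP]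
      simp only [NP.tan, NP.sec, NP.r0, NP.r1, NP.r2]
      ring
    · have ht : Q.tail ≠ 0 := fun e => h2 (congrFun e 0)
      have hδ : p.tan.a3 ≠ 0 := T3.Model.a3_ne hΔ ⟨rfl, rfl⟩
      have h0 : Q 0 = 0 := h02.resolve_right h2
      rw [Model.phi, if_neg ht, T3.Model.phiP, if_pos (by simpa using h34),
        T3.Model.phiP_of_ne _ (by simp [h2])]
      refine ⟨Q 2 / p.tan.a3, div_ne_zero h2 hδ, ?_⟩
      have e2 : p.tan.a2 = 0 := rfl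
      have e1 : p.sec.b1 = -p.r0 := by simp only [NP.sec, NP.r0]; ring
      ext <;> simp [SelAvg.G.pt, T3.Model.phiP0, SelAvg.Model.q, T3.Model.redP, e2, e1, h0]
      · field_simp
      · field_simp
  · have ht : Q.tail ≠ 0 := fun e => h34 ⟨congrFun e 1, congrFun e 2⟩
    rw [psi, if_neg (fun e => h34 e.2), Model.phi, if_neg ht,
      T3.Model.phiP_of_ne _ (by simpa using h34), T3.Model.phiP_of_ne _ (by simpa using h34)]
    refine ⟨1, one_ne_zero, ?_⟩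
    have e3 := hQ.eq 0 1 2 3
    have e4 := hQ.eq 0 1 2 4
    rw [difc_pf3] at e3
    rw [difc_pf4] at e4
    ext <;> simp [SelAvg.G.pt, T3.Model.phiP0, SelAvg.Model.q, T3.Model.redP]
    simp only [NP.tan, NP.sec, NP.r0, NP.r1, NP.r2]
    linear_combination p.a3 * e4 - p.a4 * e3

variable {W : WeierstrassCurve L} {z : Obj L}

section NF

variable {p : NP L} {γ : VariableChange L}

lemma difc_disc (hW : W.Δ ≠ 0) (hz : (⟨p.nf, γ⟩ : Obj L).Over W) : p.tan.jac.Δ ≠ 0 := by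
  have h := (difc_over_tan hz).jac_Delta hW
  dsimp only at h
  exact h

lemma difc_D (hW : W.Δ ≠ 0) (hz : (⟨p.nf, γ⟩ : Obj L).Over W) {P P' : Pt L} (hP : p.nf.On P)
    (hP' : p.nf.On P') : T3.D W ⟨p.tan, p.nf.shS⁻¹ * γ⟩ (p.nf.phi P) (p.nf.phi P') =
      T3.D W (secO p γ) (psi P) (psi P') := by
  have ht := difc_over_tan hz
  have hs := difc_over_sec hz
  have hΔ : p.tan.jac.Δ ≠ 0 := difc_disc hW hz
  have hr : (secO p γ).redP.Over W := (T3.Obj.over_redP rfl).2 hs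
  have hon : ∀ Q, p.nf.On Q → (SelAvg.G.ofShift p.r0 p.r1 p.r2 • (secO p γ).redP).f.On
      (p.tan.phiP (p.nf.phi Q)) := fun Q hQ => by
    rw [← difc_redP]; exact T3.Model.on_phiP hΔ rfl (difc_on_phi hΔ hQ)
  rw [T3.D_redP hW ht rfl (difc_on_phi hΔ hP) (difc_on_phi hΔ hP'),
    T3.D_redP hW hs rfl (difc_on_psi hΔ hP) (difc_on_psi hΔ hP'), difc_redP,
    SelAvg.D_smul hW hr _ (hon P hP) (hon P' hP')]
  exact SelAvg.D_eqv hW hr ((SelAvg.Model.on_pt _ _ _).2 (hon P hP))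
    ((SelAvg.Model.on_pt _ _ _).2 (hon P' hP')) (difc_compat hΔ hP) (difc_compat hΔ hP')

lemma difc_on_sw {Q : Pt L} (hQ : p.nf.On Q) : p.swap.nf.On (swG.pt Q) := by
  rw [← p.act_sw]
  exact (Model.on_pt swG p.nf _).1 (by rw [swG_pt_pt]; exact hQ)

lemma difc_on_E : p.nf.On (ptE : Pt L) := by
  have h := difc_on_sw (p := p.swap) p.swap.nf_std.on_std
  rwa [NP.swap_swap, swG_std] at h

lemma difc_D0 (hW : W.Δ ≠ 0) (hz : (⟨p.nf, γ⟩ : Obj L).Over W) {Q : Pt L} (hQ : p.nf.On Q) :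
    D W ⟨p.nf, γ⟩ Pt.std Q = T3.D W (secO p γ) T3.Pt.std (psi Q) := by
  rw [D_std hW hz p.nf_std hQ, difc_red, ← psi_std, ← difc_D hW hz p.nf_std.on_std hQ,
    Model.phi_std]

lemma difc_over_sw (hz : (⟨p.nf, γ⟩ : Obj L).Over W) :
    (⟨p.swap.nf, p.nf.sh swA swB * γ⟩ : Obj L).Over W := by
  rw [← swG_smul]; exact hz.smul swG

lemma difc_D2 (hW : W.Δ ≠ 0) (hz : (⟨p.nf, γ⟩ : Obj L).Over W) {Q : Pt L} (hQ : p.nf.On Q) :
    D W ⟨p.nf, γ⟩ ptE Q = T3.D W (secO p γ) (psi ptE) (psi Q) := by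
  have hz' := difc_over_sw hz
  have hΔ : p.swap.tan.jac.Δ ≠ 0 := difc_disc hW hz'
  have e := D_smul hW hz swG (Q := Pt.std) (Q' := swG.pt Q)
    (by rw [swG_smul]; exact p.swap.nf_std.on_std) (by rw [swG_smul]; exact difc_on_sw hQ)
  rw [swG_std, swG_pt_pt, swG_smul, difc_D0 hW hz' (difc_on_sw hQ), ← swT_smul,
    T3.D_smul hW (difc_over_sec hz) swT, psi_swG, ← psi_ptE] at e
  · exact e.symm
  · rw [swT_smul]; exact T3.Model.on_std.2 rfl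
  · rw [swT_smul]; exact difc_on_psi hΔ (difc_on_sw hQ)

lemma difc_pi0 (hW : W.Δ ≠ 0) (hz : (⟨p.nf, γ⟩ : Obj L).Over W) :
    piP W ⟨p.nf, γ⟩ Pt.std =
      T3.piP W (secO p γ) T3.Pt.std + T3.D W (secO p γ) T3.Pt.std (psi ptE) := by
  have ht := difc_over_tan hz
  have hs := difc_over_sec hz
  have hΔ : p.tan.jac.Δ ≠ 0 := difc_disc hW hz
  have hΔ' := difc_sec_disc hΔ
  have hr : (secO p γ).redP.Over W := (T3.Obj.over_redP rfl).2 hs
  have h0 : p.nf.On Pt.std := p.nf_std.on_std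
  have hE : p.nf.On ptE := difc_on_E
  have eE : p.nf.phi ptE = T3.Pt.std := by
    have e : (ptE : Pt L).tail = T3.Pt.std := by funext i; fin_cases i <;> simp [ptE]
    rw [Model.phi, e, if_neg T3.Pt.prim_std]
  have hon : (SelAvg.G.ofShift p.r0 p.r1 p.r2 • (secO p γ).redP).f.On
      (p.tan.phiP (p.nf.phi ptE)) := by
    rw [← difc_redP]; exact T3.Model.on_phiP hΔ rfl (difc_on_phi hΔ hE)
  have e1 := T3.three_smul_D hW ht (difc_on_phi hΔ h0) (difc_on_phi hΔ hE)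
  have e2 : T3.piP W ⟨p.tan, p.nf.shS⁻¹ * γ⟩ (p.nf.phi ptE) =
      SelAvg.piP W (secO p γ).redP (p.sec.phiP (psi ptE)) := by
    rw [← SelAvg.piP_eqv hW hr ((SelAvg.Model.on_pt _ _ _).2 hon) (difc_compat hΔ hE),
      ← SelAvg.piP_smul hW hr _ hon, ← difc_redP, eE]
    exact T3.piP_redP hW ht rfl
  have e3 := SelAvg.two_smul_D hW hr (T3.Model.on_phiP hΔ' rfl (difc_on_psi hΔ h0))
    (T3.Model.on_phiP hΔ' rfl (difc_on_psi hΔ hE))
  have e4 := T3.D_redP hW hs rfl (difc_on_psi hΔ h0) (difc_on_psi hΔ hE)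
  have e5 := T3.piP_redP hW hs rfl
  rw [difc_D hW hz h0 hE, e2, Model.phi_std, psi_std] at e1
  rw [psi_std] at e3 e4
  change _ = SelAvg.D W _ (p.sec.phiP _) (p.sec.phiP _) at e4
  change _ = SelAvg.piP W _ (p.sec.phiP _) at e5
  rw [← e4, ← e5] at e3
  rw [piP_std hW hz p.nf_std, difc_red, eq_add_of_sub_eq e1.symm, eq_add_of_sub_eq e3.symm]
  abel

lemma difc_pi2 (hW : W.Δ ≠ 0) (hz : (⟨p.nf, γ⟩ : Obj L).Over W) :
    piP W ⟨p.nf, γ⟩ ptE =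
      T3.piP W (secO p γ) (psi ptE) + T3.D W (secO p γ) (psi ptE) T3.Pt.std := by
  have hz' := difc_over_sw hz
  have hΔ : p.swap.tan.jac.Δ ≠ 0 := difc_disc hW hz'
  have h0 : ((swT : T3.G L) • secO p γ).f.On T3.Pt.std := by rw [swT_smul]; exact T3.Model.on_std.2 rfl
  have h1 : ((swT : T3.G L) • secO p γ).f.On (psi ptE) := by
    rw [swT_smul]; exact difc_on_psi hΔ difc_on_E
  have e := piP_smul hW hz swG (Q := Pt.std) (by rw [swG_smul]; exact p.swap.nf_std.on_std)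
  rw [swG_std, swG_smul, difc_pi0 hW hz', ← swT_smul, T3.D_smul hW (difc_over_sec hz) swT h0 h1,
    T3.piP_smul hW (difc_over_sec hz) swT h0, ← psi_ptE, ← swG_std, psi_swG, swG_std,
    psi_std] at e
  exact e.symm

end NF

/-- the normal form attached to two distinct points -/
theorem exists_two (hW : W.Δ ≠ 0) (hz : z.Over W) {Q₁ Q₂ : Pt L} (h₁ : z.f.On Q₁)
    (h₂ : z.f.On Q₂) (hne : ¬Q₁.Eqv Q₂) : ∃ (g : G L) (p : NP L) (γ : VariableChange L),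
      g • z = ⟨p.nf, γ⟩ ∧ (g.pt Pt.std).Eqv Q₁ ∧ g.pt ptE = Q₂ := by
  obtain ⟨g, hg, hs⟩ := Model.exists_std h₁
  have hD : (g • z.f).WS.Δ ≠ 0 := by
    rw [two_WS_disc, ← Model.Δ_std hs, ← Obj.smul_f]
    exact (hz.smul g).jac_Delta hW
  have hQ : (g • z.f).On (g⁻¹.pt Q₂) := (Model.on_pt g z.f _).1 (by simpa using h₂)
  have ht : (g⁻¹.pt Q₂).tail ≠ 0 := by
    intro h
    have e := ((Pt.std_eqv_iff hQ.prim).2 ⟨two_tail hs (two_cub_ne hD) hQ.eq h, h⟩).pt g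
    rw [hg, G.pt_inv_pt] at e
    exact hne e
  obtain ⟨p, A, B, hP, hA, hB, hp, hrow⟩ := two_exists_nf hs hD hQ.eq ht
  let k : G L := ⟨GeneralLinearGroup.mkOfDetNeZero A hA, GeneralLinearGroup.mkOfDetNeZero B hB⟩
  have hk : k.IsPar := hP
  refine ⟨k * g, p, ((k * g) • z).γ, Obj.ext ?_ rfl, ?_, ?_⟩
  · rw [Obj.smul_f, mul_smul]; exact hp.symm
  · rw [G.mul_pt, ← hg]; exact hk.eqv_std.pt g
  · rw [G.mul_pt]
    have e : k.pt ptE = g⁻¹.pt Q₂ := hrow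
    rw [e, G.pt_inv_pt]

theorem D_add (hW : W.Δ ≠ 0) (hz : z.Over W) {Q₁ Q₂ Q₃ : Pt L} (h₁ : z.f.On Q₁)
    (h₂ : z.f.On Q₂) (h₃ : z.f.On Q₃) : D W z Q₁ Q₂ + D W z Q₂ Q₃ = D W z Q₁ Q₃ := by
  by_cases hne : Q₁.Eqv Q₂
  · rw [(D_eq_zero_iff hW hz h₁ h₂).2 hne, zero_add]
    exact (D_eqv hW hz h₁ h₃ hne (Pt.Eqv.refl _)).symm
  obtain ⟨g, p, γ, e, e1, rfl⟩ := exists_two hW hz h₁ h₂ hne
  obtain ⟨Q, rfl⟩ : ∃ Q, Q₃ = g.pt Q := ⟨g⁻¹.pt Q₃, by simp⟩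
  have hz' : (⟨p.nf, γ⟩ : Obj L).Over W := by rw [← e]; exact hz.smul g
  have ef : (g • z).f = p.nf := congrArg Obj.f e
  have hQ' : (g • z).f.On Q := (Model.on_pt g z.f Q).1 h₃
  have hQ : p.nf.On Q := by rw [← ef]; exact hQ'
  have h0 : (g • z).f.On Pt.std := by rw [ef]; exact p.nf_std.on_std
  have hE : (g • z).f.On ptE := by rw [ef]; exact difc_on_E
  have hΔ : p.tan.jac.Δ ≠ 0 := difc_disc hW hz'
  rw [D_eqv hW hz h₁ h₂ e1.symm (Pt.Eqv.refl _), D_eqv hW hz h₁ h₃ e1.symm (Pt.Eqv.refl _),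
    ← D_smul hW hz g h0 hE, ← D_smul hW hz g hE hQ', ← D_smul hW hz g h0 hQ', e,
    difc_D0 hW hz' difc_on_E, difc_D0 hW hz' hQ, difc_D2 hW hz' hQ]
  exact T3.D_add hW (difc_over_sec hz') (T3.Model.on_std.2 rfl) (difc_on_psi hΔ difc_on_E)
    (difc_on_psi hΔ hQ)

lemma D_symm (hW : W.Δ ≠ 0) (hz : z.Over W) {Q Q' : Pt L} (hQ : z.f.On Q) (hQ' : z.f.On Q') :
    D W z Q' Q = -D W z Q Q' := by
  rw [eq_neg_iff_add_eq_zero, D_add hW hz hQ' hQ hQ', D_self hW hz hQ']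

theorem five_smul_D (hW : W.Δ ≠ 0) (hz : z.Over W) {Q Q' : Pt L} (hQ : z.f.On Q)
    (hQ' : z.f.On Q') : 5 • D W z Q Q' = piP W z Q - piP W z Q' := by
  by_cases hne : Q.Eqv Q'
  · rw [(D_eq_zero_iff hW hz hQ hQ').2 hne, piP_eqv hW hz hQ hne]; simp
  obtain ⟨g, p, γ, e, e1, rfl⟩ := exists_two hW hz hQ hQ' hne
  have hz' : (⟨p.nf, γ⟩ : Obj L).Over W := by rw [← e]; exact hz.smul g
  have ef : (g • z).f = p.nf := congrArg Obj.f e
  have h0 : (g • z).f.On Pt.std := by rw [ef]; exact p.nf_std.on_std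
  have hE : (g • z).f.On ptE := by rw [ef]; exact difc_on_E
  have hΔ : p.tan.jac.Δ ≠ 0 := difc_disc hW hz'
  have hs := difc_over_sec hz'
  have s0 : (secO p γ).f.On T3.Pt.std := T3.Model.on_std.2 rfl
  have s1 : (secO p γ).f.On (psi ptE) := difc_on_psi hΔ difc_on_E
  have e3 := T3.three_smul_D hW hs s0 s1
  rw [D_eqv hW hz hQ hQ' e1.symm (Pt.Eqv.refl _), piP_eqv hW hz hQ e1.symm,
    ← D_smul hW hz g h0 hE, ← piP_smul hW hz g h0, ← piP_smul hW hz g hE, e,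
    difc_D0 hW hz' difc_on_E, difc_pi0 hW hz', difc_pi2 hW hz', T3.D_symm hW hs s0 s1,
    eq_add_of_sub_eq e3.symm]
  abel

/-- An automorphism `g` moves every point by the same 5-torsion point. -/
theorem aut_translation (hW : W.Δ ≠ 0) (hz : z.Over W) {g : G L} (hg : g • z = z) {Q Q' : Pt L}
    (hQ : z.f.On Q) (hQ' : z.f.On Q') :
    D W z Q (g.pt Q) = D W z Q' (g.pt Q') ∧ 5 • D W z Q (g.pt Q) = 0 := by
  have hon : ∀ P, z.f.On P → (g • z).f.On P := fun P hP => by rw [hg]; exact hP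
  have hon' : ∀ P, z.f.On P → z.f.On (g.pt P) := fun P hP => (Model.on_pt g z.f P).2 (hon P hP)
  have e1 := D_smul hW hz g (hon Q hQ) (hon Q' hQ')
  have e2 := piP_smul hW hz g (hon Q hQ)
  rw [hg] at e1 e2
  refine ⟨?_, by rw [five_smul_D hW hz hQ (hon' Q hQ), ← e2, sub_self]⟩
  have a1 := D_add hW hz hQ (hon' Q hQ) (hon' Q' hQ')
  have a2 := D_add hW hz hQ hQ' (hon' Q' hQ')
  rw [← e1, ← a2, add_comm] at a1
  exact add_left_cancel a1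

end SelAvg.FF.T5
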