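import Pool.Agent.H34P.LocU
import Pool.Agent.H34P.DifC

/-! Local theory of degree five models: the local weights of the integral models in a class sum to
one. -/

namespace SelAvg.FF.T5.LocalField

open WeierstrassCurve WithZero Matrix SelAvg.LocalField
open scoped Classical

variable {L κ : Type*} [Field L] [Field κ] {V : LocalField L} {red : V.O →+* κ}

/-- a point is good on at most one integral model; reduce to `unique_std` with
`exists_std_good` -/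
theorem unique_good (hred : V.IsRed red 1) {W : WeierstrassCurve V.O} (hW : W.Δ ≠ 0) {z₀ : Obj L}
    (hz : z₀.Over (W.map V.incl)) (p p' : V.LocRep5 z₀) {Q Q' : Pt V.O}
    (hF : Rk2 (p.z.f.ev Q)) (hs : (p.z.f.map red).Good (Q.map red))
    (hF' : Rk2 (p'.z.f.ev Q')) (hs' : (p'.z.f.map red).Good (Q'.map red))
    (e : (p.g.pt (Q.map V.incl)).Eqv (p'.g.pt (Q'.map V.incl))) : V.MEq5 p.g p'.g := by
  obtain ⟨k, hk, ha, hu⟩ := exists_std_good hred hF hs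
  obtain ⟨k', hk', ha', hu'⟩ := exists_std_good hred hF' hs'
  have hg : (G.map V.incl k * p.g * (G.map V.incl k' * p'.g)⁻¹) • (k' • p'.z).map V.incl =
      (k • p.z).map V.incl := by
    rw [Obj.map_smul, Obj.map_smul, ← p.eq, ← p'.eq, ← mul_smul (G.map V.incl k'), ← mul_smul,
      inv_mul_cancel_right, mul_smul]
  have hpt : ∀ (k : G V.O) (g : G L), (G.map V.incl k * g).pt Pt.std =
      g.pt ((k.pt Pt.std).map V.incl) := by
    intro k g
    rw [G.mul_pt, ← G.map_pt, Pt.map_std]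
  have hQe : ((G.map V.incl k * p.g * (G.map V.incl k' * p'.g)⁻¹).pt Pt.std).Eqv Pt.std := by
    have h1 := e.pt (G.map V.incl k' * p'.g)⁻¹
    rw [← hk', ← hpt k' p'.g, G.inv_pt_pt] at h1
    rw [G.mul_pt, hpt, hk]
    exact h1
  have h := (unique_std hred (locModel_Delta hW) (z := k • p.z) (z' := k' • p'.z)
    (((LocRep5.over hz p').smul k').map V.incl) ha ha' hu hu' hg hQe).mul_right
      (G.map V.incl k' * p'.g)
  rw [one_mul, inv_mul_cancel_right] at h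
  have h1 : V.MEq5 p.g (G.map V.incl k * p.g) := ⟨1, k, by simp⟩
  have h2 : V.MEq5 p'.g (G.map V.incl k' * p'.g) := ⟨1, k', by simp⟩
  exact h1.trans (h.symm.trans h2.symm)

lemma locModel_on_smul {z₀ : Obj L} (p : V.LocRep5 z₀) {Q : Pt V.O} (hQ : V.IPrim5 Q)
    (hF : Rk2 (p.z.f.ev Q)) : (p.g • z₀).f.On (Q.map V.incl) := by
  rw [p.eq]
  exact on_int hQ hF

lemma locModel_on {z₀ : Obj L} (p : V.LocRep5 z₀) {Q : Pt V.O} (hQ : V.IPrim5 Q)
    (hF : Rk2 (p.z.f.ev Q)) : z₀.f.On (p.g.pt (Q.map V.incl)) :=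
  (Model.on_pt _ _ _).2 (locModel_on_smul p hQ hF)

/-- `disc` transported to `z₀` -/
lemma locModel_disc (hred : V.IsRed red 1) {W : WeierstrassCurve V.O} (hW : W.Δ ≠ 0)
    {z₀ : Obj L} (hz : z₀.Over (W.map V.incl)) (p : V.LocRep5 z₀) {Q Q' : Pt V.O}
    (hQ : V.IPrim5 Q) (hF : Rk2 (p.z.f.ev Q)) (hs : (p.z.f.map red).Good (Q.map red))
    (hQ' : V.IPrim5 Q') (hF' : Rk2 (p.z.f.ev Q')) :
    D (W.map V.incl) z₀ (p.g.pt (Q.map V.incl)) (p.g.pt (Q'.map V.incl)) ∈ V.E1 W ↔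
      (Q.map red).Eqv (Q'.map red) := by
  rw [mem_E1 hW, ← D_smul (locModel_Delta hW) hz p.g (locModel_on_smul p hQ hF)
    (locModel_on_smul p hQ' hF'), p.eq]
  exact disc hred hW (LocRep5.over hz p) hQ hF hs hQ' hF'

/-- every point of `z₀` has an integral representative on every integral model -/
lemma locModel_rep {z₀ : Obj L} (p : V.LocRep5 z₀) {P : Pt L} (hP : z₀.f.On P) :
    ∃ Q : Pt V.O, V.IPrim5 Q ∧ Rk2 (p.z.f.ev Q) ∧ P.Eqv (p.g.pt (Q.map V.incl)) := by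
  have h1 : (p.z.f.map V.incl).On (p.g⁻¹.pt P) := by
    have h2 : p.g • z₀.f = p.z.f.map V.incl := congrArg Obj.f p.eq
    rw [← h2, ← Model.on_pt, G.pt_inv_pt]
    exact hP
  obtain ⟨Q, hQ, hF, e⟩ := exists_integral_rep p.z.f h1
  refine ⟨Q, hQ, hF, ?_⟩
  have := e.pt p.g
  rwa [G.pt_inv_pt] at this

lemma locModel_coset {W : WeierstrassCurve V.O} (hW : W.Δ ≠ 0) {z₀ : Obj L}
    (hz : z₀.Over (W.map V.incl)) {Q₁ P P' : Pt L} (h₁ : z₀.f.On Q₁) (hP : z₀.f.On P)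
    (hP' : z₀.f.On P') :
    ((D (W.map V.incl) z₀ Q₁ P : (W.map V.incl).toAffine.Point) :
        (W.map V.incl).toAffine.Point ⧸ V.E1 W) =
      (D (W.map V.incl) z₀ Q₁ P' : (W.map V.incl).toAffine.Point) ↔
      D (W.map V.incl) z₀ P P' ∈ V.E1 W := by
  rw [QuotientAddGroup.eq, ← D_symm (locModel_Delta hW) hz h₁ hP,
    D_add (locModel_Delta hW) hz hP h₁ hP']

lemma locModel_card [Finite κ] {z₀ : Obj L} {ι : Type*} (s : Finset ι) (p : ι → V.LocRep5 z₀) :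
    Nat.card (Σ i : s, {q : PIdx κ // ((p i).z.f.map red).Good (npt q)}) =
      ∑ i ∈ s, nGood ((p i).z.f.map red) := by
  rw [Nat.card_sigma, ← Finset.sum_coe_sort s]
  rfl

/-- every point of `z₀` is good on some integral model -/
lemma locModel_cover (hred : V.IsRed red 1) {W : WeierstrassCurve V.O} (hW : W.Δ ≠ 0)
    {z₀ : Obj L} (hz : z₀.Over (W.map V.incl)) {P : Pt L} (hP : z₀.f.On P) :
    ∃ (p : V.LocRep5 z₀) (Q : Pt V.O), V.IPrim5 Q ∧ Rk2 (p.z.f.ev Q) ∧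
      (p.z.f.map red).Good (Q.map red) ∧ (p.g.pt (Q.map V.incl)).Eqv P := by
  obtain ⟨z, hzW, ha, hu, hπ⟩ := exists_good hred hW (piP (W.map V.incl) z₀ P)
  have hstd : (z.map V.incl).f.On Pt.std := (ha.map V.incl).on_std
  obtain ⟨g, hg, e⟩ := exists_iso (locModel_Delta hW) (hzW.map V.incl) hz hstd hP hπ
  refine ⟨⟨g, z, hg⟩, Pt.std, ⟨0, isUnit_one⟩, ha.rk2_std, ?_, ?_⟩
  · rw [Pt.map_std]
    exact (Model.good_std hu.std).2 hu
  · rw [Pt.map_std]
    exact e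

/-- good points move to equivalent integral models -/
lemma locModel_transport {z₀ : Obj L} (p p' : V.LocRep5 z₀) (h : V.MEq5 p.g p'.g) {Q : Pt V.O}
    (hQ : V.IPrim5 Q) (hF : Rk2 (p.z.f.ev Q)) (hs : (p.z.f.map red).Good (Q.map red)) :
    ∃ Q' : Pt V.O, V.IPrim5 Q' ∧ Rk2 (p'.z.f.ev Q') ∧ (p'.z.f.map red).Good (Q'.map red) ∧
      (p.g.pt (Q.map V.incl)).Eqv (p'.g.pt (Q'.map V.incl)) := by
  obtain ⟨t, k, hg, hz⟩ := equiv_lift p p' h
  refine ⟨k⁻¹.pt Q, hQ.pt _, ?_, ?_, ?_⟩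
  · rw [hz, Obj.smul_f]
    exact locP_rk2_smul k (by rw [G.pt_inv_pt]; exact hF)
  · rw [hz, Obj.smul_f, G.map_smul, ← Model.good_pt, G.map_pt, G.pt_inv_pt]
    exact hs
  · rw [hg, G.mul_pt, G.mul_pt, G.scalar_pt, G.pt_sc, G.map_pt, G.pt_inv_pt, G.pt_sc]
    exact ⟨_, (t⁻¹ ^ 2).ne_zero, rfl⟩

/-- If the sum is positive fix a point `Q₁` of `z₀`.  Send `(i, Q)` (a good point of the
reduction, lifted by `exists_lift`) to the coset of `D Q₁ ((p i).g.pt Q)`.  If two cosets agree,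
transport the second point to the first model (`exists_integral_rep`), use `D_add`, `D_smul`,
`disc` to see that it reduces to the same good point, `unique_good` to get `i = j`, and
`IPrim5.eqv_red`, `npt_inj`. -/
theorem sum_nGood_le [Finite κ] (hred : V.IsRed red 1) {W : WeierstrassCurve V.O} (hW : W.Δ ≠ 0)
    {z₀ : Obj L} (hz : z₀.Over (W.map V.incl)) {ι : Type*} (s : Finset ι) (p : ι → V.LocRep5 z₀)
    (hp : ∀ i ∈ s, ∀ j ∈ s, V.MEq5 (p i).g (p j).g → i = j) :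
    ∑ i ∈ s, nGood ((p i).z.f.map red) ≤ V.Nloc W := by
  rw [← locModel_card]
  set T := Σ i : s, {q : PIdx κ // ((p i).z.f.map red).Good (npt q)} with hT
  have hlift : ∀ τ : T, ∃ Q : Pt V.O, V.IPrim5 Q ∧ Rk2 ((p τ.1).z.f.ev Q) ∧ Q.map red = npt τ.2.1 :=
    fun τ => exists_lift hred _ τ.2.2
  choose lift hl1 hl2 hl3 using hlift
  rcases isEmpty_or_nonempty T with hE | ⟨⟨τ₁⟩⟩
  · simp
  have h₁ := locModel_on (p τ₁.1) (hl1 τ₁) (hl2 τ₁)
  have : Finite ((W.map V.incl).toAffine.Point ⧸ V.E1 W) :=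
    Nat.finite_of_card_ne_zero (Nloc_pos hred hW).ne'
  refine Nat.card_le_card_of_injective (fun τ : T =>
    ((D (W.map V.incl) z₀ ((p τ₁.1).g.pt ((lift τ₁).map V.incl))
      ((p τ.1).g.pt ((lift τ).map V.incl)) : (W.map V.incl).toAffine.Point) :
        (W.map V.incl).toAffine.Point ⧸ V.E1 W)) ?_
  intro τ τ' hττ
  have hP := locModel_on (p τ.1) (hl1 τ) (hl2 τ)
  have hP' := locModel_on (p τ'.1) (hl1 τ') (hl2 τ')
  have hsm : ∀ τ : T, ((p τ.1).z.f.map red).Good ((lift τ).map red) := fun τ => by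
    rw [hl3]; exact τ.2.2
  have hE := (locModel_coset hW hz h₁ hP hP').1 hττ
  obtain ⟨Q₀, hQ₀, hF₀, e₀⟩ := locModel_rep (p τ.1) hP'
  rw [D_eqv (locModel_Delta hW) hz hP hP' (Pt.Eqv.refl _) e₀,
    locModel_disc hred hW hz (p τ.1) (hl1 τ) (hl2 τ) (hsm τ) hQ₀ hF₀] at hE
  have hM := unique_good hred hW hz (p τ.1) (p τ'.1) hF₀ ((hsm τ).eqv hE) (hl2 τ')
    (hsm τ') e₀.symm
  obtain ⟨i, q⟩ := τ
  obtain ⟨j, q'⟩ := τ'
  have hij : i = j := Subtype.ext (hp i i.2 j j.2 hM)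
  subst hij
  have e1 := e₀.pt (p i).g⁻¹
  rw [G.inv_pt_pt, G.inv_pt_pt] at e1
  have e2 := IPrim5.eqv_red hred (hl1 ⟨i, q'⟩) hQ₀ e1
  have e3 := hE.trans e2.symm
  rw [hl3, hl3] at e3
  have : q = q' := Subtype.ext (npt_inj e3)
  rw [this]

/-- For each coset choose `R`, a point `Q_R` with `D Q₁ Q_R = R`, the integral normal form of
`piP Q_R` (`exists_good`) and an isomorphism (`exists_iso`).  Choose one representative in
each `MEq` class; by `equiv_lift` the point `Q_R` becomes a good point on the representative,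
and by `disc` its reduction determines the coset. -/
theorem exists_sum_nGood_ge [Finite κ] (hred : V.IsRed red 1) {W : WeierstrassCurve V.O}
    (hW : W.Δ ≠ 0) {z₀ : Obj L} (hz : z₀.Over (W.map V.incl)) (hsol : z₀.f.Soluble) :
    ∃ s : Finset (V.LocRep5 z₀), (∀ p ∈ s, ∀ p' ∈ s, V.MEq5 p.g p'.g → p = p') ∧
      V.Nloc W ≤ ∑ p ∈ s, nGood (p.z.f.map red) := by
  obtain ⟨Q₁, h₁⟩ := hsol
  have hfin : Finite ((W.map V.incl).toAffine.Point ⧸ V.E1 W) :=
    Nat.finite_of_card_ne_zero (Nloc_pos hred hW).ne'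
  have := Fintype.ofFinite ((W.map V.incl).toAffine.Point ⧸ V.E1 W)
  let S : Setoid (V.LocRep5 z₀) :=
    ⟨fun p p' => V.MEq5 p.g p'.g, ⟨fun _ => MEq5.refl _, MEq5.symm, MEq5.trans⟩⟩
  have hc : ∀ c : (W.map V.incl).toAffine.Point ⧸ V.E1 W, ∃ a : Quotient S, ∃ Q : Pt V.O,
      V.IPrim5 Q ∧ Rk2 (a.out.z.f.ev Q) ∧ (a.out.z.f.map red).Good (Q.map red) ∧
      ((D (W.map V.incl) z₀ Q₁ (a.out.g.pt (Q.map V.incl)) : (W.map V.incl).toAffine.Point) :
        (W.map V.incl).toAffine.Point ⧸ V.E1 W) = c := by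
    intro c
    obtain ⟨R, rfl⟩ := QuotientAddGroup.mk_surjective c
    obtain ⟨P, hP, rfl⟩ := D_surjective (locModel_Delta hW) hz h₁ R
    obtain ⟨p, Q, hQ, hF, hs, e⟩ := locModel_cover hred hW hz hP
    have hM : V.MEq5 p.g (Quotient.mk S p).out.g := MEq5.symm (Quotient.mk_out (s := S) p)
    obtain ⟨Q', hQ', hF', hs', e'⟩ := locModel_transport p _ hM hQ hF hs
    refine ⟨Quotient.mk S p, Q', hQ', hF', hs', ?_⟩
    rw [D_eqv (locModel_Delta hW) hz h₁ hP (Pt.Eqv.refl _) (e.symm.trans e')]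
  choose a Qc hc1 hc2 hc3 hc4 using hc
  refine ⟨Finset.univ.image fun c => (a c).out, ?_, ?_⟩
  · intro p hp p' hp' hM
    obtain ⟨c, -, rfl⟩ := Finset.mem_image.1 hp
    obtain ⟨c', -, rfl⟩ := Finset.mem_image.1 hp'
    have h1 : Quotient.mk S (a c).out = Quotient.mk S (a c').out := Quotient.sound hM
    rw [Quotient.out_eq, Quotient.out_eq] at h1
    rw [h1]
  set s : Finset (V.LocRep5 z₀) := Finset.univ.image fun c => (a c).out with hs
  rw [← locModel_card (red := red) s fun x => x]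
  set T := Σ i : s, {q : PIdx κ // (i.1.z.f.map red).Good (npt q)} with hT
  have hlift : ∀ τ : T, ∃ Q : Pt V.O, V.IPrim5 Q ∧ Rk2 (τ.1.1.z.f.ev Q) ∧ Q.map red = npt τ.2.1 :=
    fun τ => exists_lift hred _ τ.2.2
  choose lift hl1 hl2 hl3 using hlift
  refine Nat.card_le_card_of_surjective (fun τ : T =>
    ((D (W.map V.incl) z₀ Q₁ (τ.1.1.g.pt ((lift τ).map V.incl)) : (W.map V.incl).toAffine.Point) :
        (W.map V.incl).toAffine.Point ⧸ V.E1 W)) ?_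
  intro c
  have hprim : ((Qc c).map red).Prim := (IPrim5.map_red hred).1 (hc1 c)
  obtain ⟨q, hq⟩ := exists_npt hprim
  let τ : T := ⟨⟨(a c).out, Finset.mem_image.2 ⟨c, Finset.mem_univ _, rfl⟩⟩,
    ⟨q, (hc3 c).eqv hq⟩⟩
  refine ⟨τ, ?_⟩
  rw [← hc4 c]
  symm
  refine (locModel_coset hW hz h₁ (locModel_on _ (hc1 c) (hc2 c))
    (locModel_on (a c).out (hl1 τ) (hl2 τ))).2 ?_
  rw [locModel_disc hred hW hz (a c).out (hc1 c) (hc2 c) (hc3 c) (hl1 τ) (hl2 τ), hl3]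
  exact hq

theorem nGood_le_Nloc [Finite κ] (hred : V.IsRed red 1) {f : Model V.O} (hΔ : f.jac.Δ ≠ 0) :
    nGood (f.map red) ≤ V.Nloc f.jac := by
  have hz : (⟨f, 1⟩ : Obj V.O).Over f.jac := (one_smul _ _).symm
  have h := sum_nGood_le hred hΔ (hz.map V.incl) ({()} : Finset Unit)
    (fun _ => ⟨1, ⟨f, 1⟩, one_smul _ _⟩) (fun _ _ _ _ _ => rfl)
  simpa using h

theorem phiL_le_one [Finite κ] (hred : V.IsRed red 1) {f : Model V.O} (hΔ : f.jac.Δ ≠ 0) :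
    V.phiL5 red f ≤ 1 := by
  have h0 : (0 : ℝ) < V.Nloc f.jac := by exact_mod_cast Nloc_pos hred hΔ
  unfold phiL5
  rw [div_le_one h0]
  exact_mod_cast nGood_le_Nloc hred hΔ

theorem phiL_smul (red : V.O →+* κ) (h : G V.O) {f : Model V.O} (hΔ : f.jac.Δ ≠ 0) :
    V.phiL5 red (h • f) = V.phiL5 red f := by
  unfold phiL5
  rw [G.map_smul, nGood_smul, G.jac_smul, Nloc_smul _ hΔ]

/-- `LocRep5.over`, `Nloc_smul` -/
lemma _root_.SelAvg.LocalField.LocRep5.phiL_eq {W : WeierstrassCurve V.O} (hW : W.Δ ≠ 0) {z₀ : Obj L}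
    (hz : z₀.Over (W.map V.incl)) (p : V.LocRep5 z₀) :
    V.phiL5 red p.z.f = (nGood (p.z.f.map red) : ℝ) / V.Nloc W := by
  rw [phiL5, show p.z.f.jac = p.z.γ • W from p.over hz, Nloc_smul _ hW]

/-- `equiv_lift`, `phiL_smul` -/
theorem _root_.SelAvg.LocalField.LocRep5.phiL_eq_of_mEq {W : WeierstrassCurve V.O} (hW : W.Δ ≠ 0) {z₀ : Obj L}
    (hz : z₀.Over (W.map V.incl)) (p p' : V.LocRep5 z₀) (h : V.MEq5 p.g p'.g) :
    V.phiL5 red p.z.f = V.phiL5 red p'.z.f := by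
  obtain ⟨-, k, -, e⟩ := equiv_lift p p' h
  rw [e, Obj.smul_f, phiL_smul red k (p.jac_Delta hW hz)]

theorem sum_phiL_le_one [Finite κ] (hred : V.IsRed red 1) {W : WeierstrassCurve V.O}
    (hW : W.Δ ≠ 0) {z₀ : Obj L} (hz : z₀.Over (W.map V.incl)) {ι : Type*} (s : Finset ι)
    (p : ι → V.LocRep5 z₀) (hp : ∀ i ∈ s, ∀ j ∈ s, V.MEq5 (p i).g (p j).g → i = j) :
    ∑ i ∈ s, V.phiL5 red (p i).z.f ≤ 1 := by
  have h0 : (0 : ℝ) < V.Nloc W := by exact_mod_cast Nloc_pos hred hW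
  simp only [LocRep5.phiL_eq hW hz, ← Finset.sum_div]
  rw [div_le_one h0]
  exact_mod_cast sum_nGood_le hred hW hz s p hp

theorem exists_sum_phiL_ge_one [Finite κ] (hred : V.IsRed red 1) {W : WeierstrassCurve V.O}
    (hW : W.Δ ≠ 0) {z₀ : Obj L} (hz : z₀.Over (W.map V.incl)) (hsol : z₀.f.Soluble) :
    ∃ s : Finset (V.LocRep5 z₀), (∀ p ∈ s, ∀ p' ∈ s, V.MEq5 p.g p'.g → p = p') ∧
      1 ≤ ∑ p ∈ s, V.phiL5 red p.z.f := by
  have h0 : (0 : ℝ) < V.Nloc W := by exact_mod_cast Nloc_pos hred hW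
  obtain ⟨s, h1, h2⟩ := exists_sum_nGood_ge hred hW hz hsol
  refine ⟨s, h1, ?_⟩
  simp only [LocRep5.phiL_eq hW hz, ← Finset.sum_div]
  rw [one_le_div h0]
  exact_mod_cast h2

/-- two representatives of weight one are equivalent (`sum_phiL_le_one` with two indices) -/
theorem mEq_of_phiL_eq_one [Finite κ] (hred : V.IsRed red 1) {W : WeierstrassCurve V.O}
    (hW : W.Δ ≠ 0) {z₀ : Obj L} (hz : z₀.Over (W.map V.incl)) (p p' : V.LocRep5 z₀)
    (h : V.phiL5 red p.z.f = 1) (h' : V.phiL5 red p'.z.f = 1) : V.MEq5 p.g p'.g := by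
  by_contra hn
  have h1 := sum_phiL_le_one hred hW hz Finset.univ (fun b : Bool => cond b p p') (by
    rintro (_ | _) - (_ | _) - k
    exacts [rfl, absurd k.symm hn, absurd k hn, rfl])
  rw [Fintype.sum_bool] at h1
  simp only [cond_true, cond_false, h, h'] at h1
  norm_num at h1

end SelAvg.FF.T5.LocalField
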