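import Pool.Agent.H34P.InvDef

/-! Block triangular pairs: the effect on standard position, on the cubic and on the marked point. -/

namespace SelAvg.FF.T5

open WeierstrassCurve Matrix Polynomial

variable {R S : Type*} [CommRing R] [CommRing S]

/-- a cubic is determined by one value over the polynomial ring -/
lemma para_ext {g h : T3.Model R}
    (e : (g.map (C : R →+* R[X])).F ![1, X, X ^ 4] = (h.map (C : R →+* R[X])).F ![1, X, X ^ 4]) :
    g = h := by
  have key : ∀ g : T3.Model R, (g.map (C : R →+* R[X])).F ![1, X, X ^ 4] =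
      monomial 0 g.a + monomial 3 g.b + monomial 12 g.c + monomial 1 g.a2 + monomial 4 g.a3
        + monomial 2 g.b1 + monomial 6 g.b3 + monomial 8 g.c1 + monomial 9 g.c2
        + monomial 5 g.m := fun g => by
    simp only [T3.Model.F, ← C_mul_X_pow_eq_monomial, T3.Model.map_a, T3.Model.map_b,
      T3.Model.map_c, T3.Model.map_a2, T3.Model.map_a3, T3.Model.map_b1, T3.Model.map_b3,
      T3.Model.map_c1, T3.Model.map_c2, T3.Model.map_m, Matrix.cons_val]
    ring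
  rw [key, key] at e
  have c := fun n => congrArg (fun p : R[X] => p.coeff n) e
  simp only [coeff_add, coeff_monomial] at c
  ext
  · simpa using c 0
  · simpa using c 3
  · simpa using c 12
  · simpa using c 1
  · simpa using c 4
  · simpa using c 2
  · simpa using c 6
  · simpa using c 8
  · simpa using c 9
  · simpa using c 5

lemma det_blk3 (A : Matrix (Fin 5) (Fin 5) R) : (blk3 A).det =
    A 0 0 * A 1 1 * A 2 2 - A 0 0 * A 1 2 * A 2 1 - A 0 1 * A 1 0 * A 2 2 + A 0 1 * A 1 2 * A 2 0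
      + A 0 2 * A 1 0 * A 2 1 - A 0 2 * A 1 1 * A 2 0 := det_fin_three _

lemma det_low3 (A : Matrix (Fin 5) (Fin 5) R) : (low3 A).det =
    A 2 2 * A 3 3 * A 4 4 - A 2 2 * A 3 4 * A 4 3 - A 2 3 * A 3 2 * A 4 4 + A 2 3 * A 3 4 * A 4 2
      + A 2 4 * A 3 2 * A 4 3 - A 2 4 * A 3 3 * A 4 2 := det_fin_three _

lemma Par.map {A B : Matrix (Fin 5) (Fin 5) R} (h : Par A B) (φ : R →+* S) :
    Par (A.map φ) (B.map φ) := by
  obtain ⟨h1, h2, h3, h4, h5, h6, h7, h8, h9, h10, h11, h12, h13⟩ := h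
  constructor <;> simp [*]

lemma blk3_map (φ : R →+* S) (A : Matrix (Fin 5) (Fin 5) R) : blk3 (A.map φ) = (blk3 A).map φ := by
  ext i j; fin_cases i <;> fin_cases j <;> rfl

lemma low3_map (φ : R →+* S) (A : Matrix (Fin 5) (Fin 5) R) : low3 (A.map φ) = (low3 A).map φ := by
  ext i j; fin_cases i <;> fin_cases j <;> rfl

lemma det2_map (φ : R →+* S) (A : Matrix (Fin 5) (Fin 5) R) : det2 (A.map φ) = φ (det2 A) := by
  simp [det2]

/-- the Pfaffians `(0, 1, 2, i)` under a block triangular matrix -/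
lemma pf_par {A B M : Matrix (Fin 5) (Fin 5) R} (h : Par A B) (hd : ∀ i, M i i = 0)
    (ha : ∀ i j, M j i = -M i j) (i : Fin 5) : pf (A * M * Aᵀ) 0 1 2 i =
      (blk3 A).det * (A i 3 * pf M 0 1 2 3 + A i 4 * pf M 0 1 2 4) := by
  simp only [pf, moda_conj, Fin.sum_univ_five, h.a03, h.a04, h.a13, h.a14, h.a23, h.a24, hd,
    ha 0 1, ha 0 2, ha 0 3, ha 0 4, ha 1 2, ha 1 3, ha 1 4, ha 2 3, ha 2 4, ha 3 4, det_blk3]
  ring

lemma Par.tail_vecMul {A B : Matrix (Fin 5) (Fin 5) R} (h : Par A B) (Q : Pt R) :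
    Pt.tail (Q ᵥ* B) = Q.tail ᵥ* low3 B := by
  funext i
  fin_cases i <;>
    simp [Pt.tail, low3, vecMul, dotProduct, Fin.sum_univ_five, Fin.sum_univ_three, h.b02, h.b03,
      h.b04, h.b12, h.b13, h.b14]

lemma Par.vecMul_one {A B : Matrix (Fin 5) (Fin 5) R} (h : Par A B) (Q : Pt R) :
    (Q ᵥ* B) 1 = Q 1 * B 1 1 + (Q 2 * B 2 1 + Q 3 * B 3 1 + Q 4 * B 4 1) := by
  simp only [vecMul, dotProduct, Fin.sum_univ_five, h.b01]; ring

namespace Model

/-- the value of the quadratic part -/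
def qd (f : Model R) (i : Fin 5) (v : T3.Pt R) : R := v ᵥ* f.qm i ⬝ᵥ v

lemma F_cub (f : Model R) (v : T3.Pt R) :
    f.cub.F v = (f.alp 3 ⬝ᵥ v) * f.qd 4 v - (f.alp 4 ⬝ᵥ v) * f.qd 3 v := by
  rw [cub, F_ofTensor]
  simp only [qd, vecMul, dotProduct, Fin.sum_univ_three]
  ring

lemma Std.pf_three {f : Model R} (h : f.Std) (Q : Pt R) :
    pf (f.ev Q) 0 1 2 3 = Q 1 * (f.alp 3 ⬝ᵥ Q.tail) + f.qd 3 Q.tail := by
  simp [pf, ev_apply, Fin.sum_univ_five, qd, alp, qm, nv, Tm, lin, vecMul, dotProduct,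
    Fin.sum_univ_three, h.c001, h.c002, h.c003, h.c012, h.c013, h.c023, h.c101, h.c102, h.c112]
  ring

lemma Std.pf_four {f : Model R} (h : f.Std) (Q : Pt R) :
    pf (f.ev Q) 0 1 2 4 = Q 1 * (f.alp 4 ⬝ᵥ Q.tail) + f.qd 4 Q.tail := by
  simp [pf, ev_apply, Fin.sum_univ_five, qd, alp, qm, nv, Tm, lin, vecMul, dotProduct,
    Fin.sum_univ_three, h.c001, h.c002, h.c004, h.c012, h.c014, h.c024, h.c101, h.c102, h.c112]
  ring

lemma act_c_apply (A B : Matrix (Fin 5) (Fin 5) R) (f : Model R) (k i j : Fin 5) :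
    (f.act A B).c k i j = ∑ a, ∑ b, A i a * A j b * ∑ l, B k l * f.c l a b := by
  rw [act_c, moda_conj]; simp only [ev_apply]

end Model

open _root_.SelAvg.FF.T5.Model

theorem Par.std {A B : Matrix (Fin 5) (Fin 5) R} (h : Par A B) {f : Model R} (hf : f.Std) :
    (f.act A B).Std := by
  have a := f.alt
  constructor <;>
    simp only [act_c_apply, Fin.sum_univ_five, h.a03, h.a04, h.a13, h.a14, h.a23, h.a24, h.b01,
      h.b02, h.b03, h.b04, h.b12, h.b13, h.b14, f.diag, a _ 0 1, a _ 0 2, a _ 0 3, a _ 0 4, a _ 1 2,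
      a _ 1 3, a _ 1 4, a _ 2 3, a _ 2 4, a _ 3 4, hf.c001, hf.c002, hf.c003, hf.c004, hf.c012,
      hf.c013, hf.c014, hf.c023, hf.c024, hf.c101, hf.c102, hf.c112, mul_zero, zero_mul, add_zero,
      zero_add, neg_zero]

theorem lam_act {A B : Matrix (Fin 5) (Fin 5) R} (h : Par A B) {f : Model R} (hf : f.Std) :
    (f.act A B).lam = det2 A * B 0 0 * f.lam := by
  have a := f.alt
  simp only [lam, det2, act_c_apply, Fin.sum_univ_five, h.b01,
      h.b02, h.b03, h.b04, f.diag, a _ 0 1, a _ 0 2, a _ 0 3, a _ 0 4, a _ 1 2,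
      a _ 1 3, a _ 1 4, a _ 2 3, a _ 2 4, a _ 3 4, hf.c001, hf.c002, hf.c003, hf.c004, hf.c012,
      hf.c013, hf.c014, hf.c023, hf.c024, mul_zero, zero_mul, add_zero,
      zero_add, neg_zero]
  ring

lemma pf_act {A B : Matrix (Fin 5) (Fin 5) R} (h : Par A B) {f : Model R} (hf : f.Std) (Q : Pt R)
    (i : Fin 5) : pf ((f.act A B).ev Q) 0 1 2 i = (blk3 A).det *
      (A i 3 * ((Q ᵥ* B) 1 * (f.alp 3 ⬝ᵥ (Q.tail ᵥ* low3 B)) + f.qd 3 (Q.tail ᵥ* low3 B))
        + A i 4 * ((Q ᵥ* B) 1 * (f.alp 4 ⬝ᵥ (Q.tail ᵥ* low3 B)) + f.qd 4 (Q.tail ᵥ* low3 B))) := by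
  rw [ev_act, pf_par h (f.ev_diag _) (f.ev_alt _), hf.pf_three, hf.pf_four, h.tail_vecMul]

/-- the point with coordinates `(0, t, v)` -/
def lift (t : R) (v : T3.Pt R) : Pt R := ![0, t, v 0, v 1, v 2]

lemma lift_tail (t : R) (v : T3.Pt R) : (lift t v).tail = v := by
  funext i; fin_cases i <;> rfl

lemma para_both {A B : Matrix (Fin 5) (Fin 5) R} (h : Par A B) {f : Model R} (hf : f.Std)
    (v : T3.Pt R) {i : Fin 5} (hi : i = 3 ∨ i = 4) (t : R) :
    t * ((f.act A B).alp i ⬝ᵥ v) + (f.act A B).qd i v = (blk3 A).det *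
      (A i 3 * ((t * B 1 1 + (v 0 * B 2 1 + v 1 * B 3 1 + v 2 * B 4 1))
          * (f.alp 3 ⬝ᵥ (v ᵥ* low3 B)) + f.qd 3 (v ᵥ* low3 B))
        + A i 4 * ((t * B 1 1 + (v 0 * B 2 1 + v 1 * B 3 1 + v 2 * B 4 1))
          * (f.alp 4 ⬝ᵥ (v ᵥ* low3 B)) + f.qd 4 (v ᵥ* low3 B))) := by
  have e := pf_act h hf (lift t v) i
  rw [h.vecMul_one, lift_tail] at e
  rcases hi with rfl | rfl
  · rw [(h.std hf).pf_three, lift_tail] at e; exact e
  · rw [(h.std hf).pf_four, lift_tail] at e; exact e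

lemma qd_act {A B : Matrix (Fin 5) (Fin 5) R} (h : Par A B) {f : Model R} (hf : f.Std)
    (v : T3.Pt R) {i : Fin 5} (hi : i = 3 ∨ i = 4) :
    (f.act A B).qd i v = (blk3 A).det *
      (A i 3 * ((v 0 * B 2 1 + v 1 * B 3 1 + v 2 * B 4 1)
          * (f.alp 3 ⬝ᵥ (v ᵥ* low3 B)) + f.qd 3 (v ᵥ* low3 B))
        + A i 4 * ((v 0 * B 2 1 + v 1 * B 3 1 + v 2 * B 4 1)
          * (f.alp 4 ⬝ᵥ (v ᵥ* low3 B)) + f.qd 4 (v ᵥ* low3 B))) := by
  linear_combination para_both h hf v hi 0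

lemma alp_dot_act {A B : Matrix (Fin 5) (Fin 5) R} (h : Par A B) {f : Model R} (hf : f.Std)
    (v : T3.Pt R) {i : Fin 5} (hi : i = 3 ∨ i = 4) :
    (f.act A B).alp i ⬝ᵥ v = (blk3 A).det * B 1 1 *
      (A i 3 * (f.alp 3 ⬝ᵥ (v ᵥ* low3 B)) + A i 4 * (f.alp 4 ⬝ᵥ (v ᵥ* low3 B))) := by
  linear_combination para_both h hf v hi 1 - para_both h hf v hi 0

theorem alp_act {A B : Matrix (Fin 5) (Fin 5) R} (h : Par A B) {f : Model R} (hf : f.Std)
    {i : Fin 5} (hi : i = 3 ∨ i = 4) : (f.act A B).alp i =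
      ((blk3 A).det * B 1 1) • (low3 B *ᵥ (A i 3 • f.alp 3 + A i 4 • f.alp 4)) := by
  funext r
  have e := alp_dot_act h hf (Pi.single r 1) hi
  rw [dotProduct_single, mul_one, single_one_vecMul] at e
  rw [e]
  simp only [Pi.smul_apply, smul_eq_mul, mulVec, dotProduct, Fin.sum_univ_three, Pi.add_apply,
    row_apply']
  ring

lemma F_cub_act {A B : Matrix (Fin 5) (Fin 5) R} (h : Par A B) {f : Model R} (hf : f.Std)
    (v : T3.Pt R) : (f.act A B).cub.F v =
      (blk3 A).det ^ 2 * det2 A * B 1 1 * f.cub.F (v ᵥ* low3 B) := by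
  rw [F_cub, F_cub, alp_dot_act h hf v (Or.inl rfl), alp_dot_act h hf v (Or.inr rfl),
    qd_act h hf v (Or.inl rfl), qd_act h hf v (Or.inr rfl), det2]
  ring

theorem cub_act {A B : Matrix (Fin 5) (Fin 5) R} (h : Par A B) {f : Model R} (hf : f.Std) :
    (f.act A B).cub =
      (f.cub.subst (low3 B)).scale ((blk3 A).det ^ 2 * det2 A * B 1 1) := by
  apply para_ext
  rw [← cub_map, map_act, F_cub_act (h.map _) (hf.map _), T3.Model.map_scale, T3.Model.map_subst,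
    T3.Model.F_scale, T3.Model.F_subst, cub_map, blk3_map, det2_map, low3_map]
  simp only [map_mul, map_pow, RingHom.map_det, RingHom.mapMatrix_apply, map_apply]

lemma para_cross (N : Matrix (Fin 3) (Fin 3) R) (a b : Fin 3 → R) :
    crossProduct (N *ᵥ a) (N *ᵥ b) = crossProduct a b ᵥ* N.adjugate := by
  funext r
  fin_cases r <;>
    simp [crossProduct, mulVec, vecMul, dotProduct, Fin.sum_univ_three, adjugate_fin_three] <;>
    ring

theorem mk'_act {A B : Matrix (Fin 5) (Fin 5) R} (h : Par A B) {f : Model R} (hf : f.Std) :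
    (f.act A B).mk' =
      (((blk3 A).det * B 1 1) ^ 2 * det2 A) • (f.mk' ᵥ* (low3 B).adjugate) := by
  rw [mk', alp_act h hf (Or.inl rfl), alp_act h hf (Or.inr rfl), map_smul, map_smul,
    LinearMap.smul_apply, para_cross, smul_smul, mk']
  have : crossProduct (A 3 3 • f.alp 3 + A 3 4 • f.alp 4) (A 4 3 • f.alp 3 + A 4 4 • f.alp 4)
      = det2 A • crossProduct (f.alp 3) (f.alp 4) := by
    funext r
    fin_cases r <;> simp [crossProduct, det2] <;> ring
  rw [this, smul_vecMul, smul_smul, sq]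

theorem mk'_act_vecMul {A B : Matrix (Fin 5) (Fin 5) R} (h : Par A B) {f : Model R}
    (hf : f.Std) : (f.act A B).mk' ᵥ* low3 B =
      (((blk3 A).det * B 1 1) ^ 2 * det2 A * (low3 B).det) • f.mk' := by
  rw [mk'_act h hf, smul_vecMul, vecMul_vecMul, adjugate_mul, vecMul_smul, vecMul_one, smul_smul]

lemma Par.det_fst {A B : Matrix (Fin 5) (Fin 5) R} (h : Par A B) :
    A.det = (blk3 A).det * det2 A := by
  rw [det_blk3, det2]
  simp [det_succ_row_zero, Fin.sum_univ_succ, Fin.succAbove, h.a03, h.a04, h.a13, h.a14, h.a23,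
    h.a24]
  ring

lemma Par.det_snd {A B : Matrix (Fin 5) (Fin 5) R} (h : Par A B) :
    B.det = B 0 0 * B 1 1 * (low3 B).det := by
  rw [det_low3]
  simp [det_succ_row_zero, Fin.sum_univ_succ, Fin.succAbove, h.b01, h.b02, h.b03, h.b04, h.b12,
    h.b13, h.b14]
  ring

lemma Par.chi_eq {A B : Matrix (Fin 5) (Fin 5) R} (h : Par A B) : chi A B =
    det2 A * B 0 0 * ((blk3 A).det ^ 2 * det2 A * B 1 1) * (low3 B).det := by
  rw [chi, h.det_fst, h.det_snd]; ring

/-- the scalar between the two cubics times the new coefficient `lam` -/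
def parU (A B : Matrix (Fin 5) (Fin 5) R) (f : Model R) : R :=
  det2 A * B 0 0 * f.lam * ((blk3 A).det ^ 2 * det2 A * B 1 1)

/-- explicit form of `WS_act` -/
theorem WS_act' {A B : Matrix (Fin 5) (Fin 5) R} (h : Par A B) {f : Model R} (hf : f.Std) :
    (f.act A B).WS = wsh (parU A B f ^ 2 * (f.cub.sh (low3 B)).r) (parU A B f * (f.cub.sh (low3 B)).s)
      (parU A B f ^ 3 * (f.cub.sh (low3 B)).t) • wsc (chi A B) f.WS := by
  have e : chi A B * f.lam = parU A B f * (low3 B).det := by rw [h.chi_eq, parU]; ring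
  rw [WS, WS, cub_act h hf, lam_act h hf, T3.Model.jac_scale, T3.Model.jac_subst,
    T3.wsc_wsc (chi A B), e, ← T3.wsc_wsc (parU A B f), ← T3.wsc_wsh, ← T3.Model.sh_eq_wsh,
    T3.wsc_wsc, parU]

/-- the Weierstrass equation in standard position changes by a shift and the character -/
theorem WS_act {A B : Matrix (Fin 5) (Fin 5) R} (h : Par A B) {f : Model R} (hf : f.Std) :
    ∃ r s t : R, (f.act A B).WS = wsh r s t • wsc (chi A B) f.WS := ⟨_, _, _, WS_act' h hf⟩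

lemma para_c4 (r s t u : R) (W : WeierstrassCurve R) : (wsh r s t • wsc u W).c₄ = u ^ 4 * W.c₄ := by
  rw [variableChange_c₄]
  simp only [wsh, inv_one, Units.val_one, wsc, c₄, b₂, b₄]; ring

lemma para_c6 (r s t u : R) (W : WeierstrassCurve R) : (wsh r s t • wsc u W).c₆ = u ^ 6 * W.c₆ := by
  rw [variableChange_c₆]
  simp only [wsh, inv_one, Units.val_one, wsc, c₆, b₂, b₄, b₆]; ring

lemma para_disc (r s t u : R) (W : WeierstrassCurve R) :
    (wsh r s t • wsc u W).Δ = u ^ 12 * W.Δ := by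
  rw [variableChange_Δ]
  simp only [wsh, inv_one, Units.val_one, wsc, Δ, b₂, b₄, b₆, b₈]; ring

theorem WS_act_c4 {A B : Matrix (Fin 5) (Fin 5) R} (h : Par A B) {f : Model R} (hf : f.Std) :
    (f.act A B).WS.c₄ = chi A B ^ 4 * f.WS.c₄ := by
  obtain ⟨r, s, t, e⟩ := WS_act h hf
  rw [e, para_c4]

theorem WS_act_c6 {A B : Matrix (Fin 5) (Fin 5) R} (h : Par A B) {f : Model R} (hf : f.Std) :
    (f.act A B).WS.c₆ = chi A B ^ 6 * f.WS.c₆ := by
  obtain ⟨r, s, t, e⟩ := WS_act h hf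
  rw [e, para_c6]

theorem WS_act_disc {A B : Matrix (Fin 5) (Fin 5) R} (h : Par A B) {f : Model R} (hf : f.Std) :
    (f.act A B).WS.Δ = chi A B ^ 12 * f.WS.Δ := by
  obtain ⟨r, s, t, e⟩ := WS_act h hf
  rw [e, para_disc]

end SelAvg.FF.T5
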