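import Pool.Agent.H34P.LocD
import Pool.Agent.H34P.ParA

/-! The local mass formula in degree five: from good points to good standard position. -/

namespace SelAvg.FF.T5

open WeierstrassCurve Matrix
open scoped Classical

section Field

variable {L : Type*} [Field L]

lemma msu_det_a (g : G L) : g.a.det ≠ 0 := Matrix.GeneralLinearGroup.det_ne_zero g.A

lemma msu_det_e (g : G L) : g.e.det ≠ 0 := Matrix.GeneralLinearGroup.det_ne_zero g.M

/-- block triangular pairs preserve good standard position -/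
lemma msu_par_good {g : G L} (hg : g.IsPar) {f : Model L} (hf : f.GoodStd) : (g • f).GoodStd := by
  have hA := msu_det_a g
  have hB := msu_det_e g
  rw [Par.det_fst hg] at hA
  rw [Par.det_snd hg] at hB
  have h1 : (blk3 g.a).det ≠ 0 := left_ne_zero_of_mul hA
  have h2 : det2 g.a ≠ 0 := right_ne_zero_of_mul hA
  have h3 : g.e 0 0 ≠ 0 := left_ne_zero_of_mul (left_ne_zero_of_mul hB)
  have h4 : g.e 1 1 ≠ 0 := right_ne_zero_of_mul (left_ne_zero_of_mul hB)
  have h5 : (low3 g.e).det ≠ 0 := right_ne_zero_of_mul hB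
  refine ⟨Par.std hg hf.std, ?_, ?_⟩
  · rw [G.smul_def, lam_act hg hf.std]
    exact mul_ne_zero (mul_ne_zero h2 h3) hf.lam
  · have hc : (blk3 g.a).det ^ 2 * det2 g.a * g.e 1 1 ≠ 0 :=
      mul_ne_zero (mul_ne_zero (pow_ne_zero _ h1) h2) h4
    let k : T3.G L := ⟨Matrix.GeneralLinearGroup.mkOfDetNeZero _ h5, (Units.mk0 _ hc)⁻¹⟩
    have e1 : (g • f).cub = k • f.cub := by
      rw [G.smul_def, cub_act hg hf.std, T3.G.smul_def]
      simp only [k, inv_inv, Units.val_mk0]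
      rfl
    have e2 : k.pt (g • f).mk' = f.mk'.sc
        (((blk3 g.a).det * g.e 1 1) ^ 2 * det2 g.a * (low3 g.e).det) :=
      mk'_act_vecMul hg hf.std
    rw [e1, ← T3.Model.good_pt, e2]
    exact hf.good.eqv (T3.Pt.eqv_sc _
      (mul_ne_zero (mul_ne_zero (pow_ne_zero _ (mul_ne_zero h1 h4)) h2) h5))

lemma msu_det_Tm {f : Model L} (h : f.cub.Smooth f.mk') : f.Tm.det ≠ 0 := by
  intro h0
  obtain ⟨w, hw⟩ := T3.Model.smooth_iff.1 h
  have h1 : f.Tm *ᵥ f.mk' = f.Tm.det • crossProduct (f.nv 3) (f.nv 4) := by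
    rw [Model.mk', Model.alp, Model.alp]
    generalize f.Tm = M
    funext i
    fin_cases i <;>
      simp [crossProduct, mulVec, vecMul, dotProduct, Fin.sum_univ_three, det_fin_three] <;> ring
  rw [h0, zero_smul] at h1
  have h2 : ∀ i, f.qm i *ᵥ f.mk' = 0 := fun i => by
    have : f.qm i = (of ![f.lin 0 i, f.lin 1 i, f.lin 2 i])ᵀ * f.Tm := by
      ext s u
      simp [Model.qm, mul_apply, Fin.sum_univ_three]
    rw [this, ← mulVec_mulVec, h1, mulVec_zero]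
  have h3 : ∀ (α β : T3.Pt L) (P Q : Matrix (Fin 3) (Fin 3) L) (p : T3.Pt L),
      (ofTensor fun r s u => α r * Q s u - β r * P s u).pol p w =
      (α ⬝ᵥ w) * (p ⬝ᵥ Q *ᵥ p) + (α ⬝ᵥ p) * (p ⬝ᵥ Q *ᵥ w + w ⬝ᵥ Q *ᵥ p)
        - (β ⬝ᵥ w) * (p ⬝ᵥ P *ᵥ p) - (β ⬝ᵥ p) * (p ⬝ᵥ P *ᵥ w + w ⬝ᵥ P *ᵥ p) := by
    intro α β P Q p
    simp only [ofTensor, T3.Model.pol, T3.Model.Fx, T3.Model.Fy, T3.Model.Fz, mulVec,
      dotProduct, Fin.sum_univ_three]
    ring
  apply hw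
  rw [Model.cub, h3, h2, h2]
  simp [Model.mk']

/-- an element that fixes the standard point and keeps good standard position is block
triangular -/
lemma msu_par_of {g : G L} {f : Model L} (hf : f.GoodStd) (hg : (g • f).GoodStd) {t : L}
    (ht : g.pt Pt.std = Pt.std.sc t) : g.IsPar := by
  have hT := msu_det_Tm hf.good.smooth
  rw [G.pt_std] at ht
  have b1 : g.e 0 1 = 0 := by simpa using congrFun ht 1
  have b2 : g.e 0 2 = 0 := by simpa using congrFun ht 2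
  have b3 : g.e 0 3 = 0 := by simpa using congrFun ht 3
  have b4 : g.e 0 4 = 0 := by simpa using congrFun ht 4
  have a := f.alt
  have hs := hf.std
  have c0 : ∀ i j, (g • f).c 0 i j =
      g.e 0 0 * f.lam * (g.a i 3 * g.a j 4 - g.a i 4 * g.a j 3) := fun i j => by
    simp only [G.smul_def, Model.lam, Model.act_c_apply, Fin.sum_univ_five, b1, b2, b3, b4, f.diag,
      a _ 0 1, a _ 0 2, a _ 0 3, a _ 0 4, a _ 1 2, a _ 1 3, a _ 1 4, a _ 2 3, a _ 2 4, a _ 3 4,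
      hs.c001, hs.c002, hs.c003, hs.c004, hs.c012, hs.c013, hs.c014, hs.c023, hs.c024, mul_zero,
      zero_mul, add_zero, zero_add, neg_zero]
    ring
  have hl : g.e 0 0 * f.lam * (g.a 3 3 * g.a 4 4 - g.a 3 4 * g.a 4 3) ≠ 0 := by
    rw [← c0]; exact hg.lam
  have key : ∀ i, (g • f).c 0 i 3 = 0 → (g • f).c 0 i 4 = 0 → g.a i 3 = 0 ∧ g.a i 4 = 0 := by
    intro i h3 h4
    rw [c0] at h3 h4
    exact ⟨(mul_eq_zero.1 (by linear_combination g.a 3 3 * h4 - g.a 4 3 * h3)).resolve_left hl,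
      (mul_eq_zero.1 (by linear_combination g.a 3 4 * h4 - g.a 4 4 * h3)).resolve_left hl⟩
  obtain ⟨a03, a04⟩ := key 0 hg.std.c003 hg.std.c004
  obtain ⟨a13, a14⟩ := key 1 hg.std.c013 hg.std.c014
  obtain ⟨a23, a24⟩ := key 2 hg.std.c023 hg.std.c024
  have hP : Par g.a (1 : Matrix (Fin 5) (Fin 5) L) := by
    constructor <;> first | assumption | simp
  have hA : (blk3 g.a).det ≠ 0 := by
    have := msu_det_a g
    rw [hP.det_fst] at this
    exact left_ne_zero_of_mul this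
  have e01 := hg.std.c101
  have e02 := hg.std.c102
  have e12 := hg.std.c112
  simp only [G.smul_def, Model.act_c_apply, Fin.sum_univ_five, a03, a04, a13, a14, a23, a24, f.diag,
    a _ 0 1, a _ 0 2, a _ 1 2, hs.c001, hs.c002, hs.c012, hs.c101, hs.c102, hs.c112, mul_zero,
    zero_mul, add_zero, zero_add, neg_zero] at e01 e02 e12
  have hw : f.Tm *ᵥ Pt.tail (g.e 1) = 0 := by
    funext r
    refine (mul_eq_zero.1 (?_ : (blk3 g.a).det * _ = 0)).resolve_left hA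
    rw [det_blk3]
    fin_cases r <;>
      simp [Model.Tm, Model.lin, Pt.tail, mulVec, dotProduct, Fin.sum_univ_three, -mul_eq_zero]
    · linear_combination g.a 0 0 * e12 - g.a 1 0 * e02 + g.a 2 0 * e01
    · linear_combination g.a 0 1 * e12 - g.a 1 1 * e02 + g.a 2 1 * e01
    · linear_combination g.a 0 2 * e12 - g.a 1 2 * e02 + g.a 2 2 * e01
  have hz : Pt.tail (g.e 1) = 0 := eq_zero_of_mulVec_eq_zero hT hw
  exact ⟨a03, a04, a13, a14, a23, a24, b1, b2, b3, b4, congrFun hz 0, congrFun hz 1, congrFun hz 2⟩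

lemma msu_par_pt {g : G L} (hg : g.IsPar) : g.pt Pt.std = Pt.std.sc (g.e 0 0) := by
  rw [G.pt_std]
  funext i
  fin_cases i <;> simp [hg.b01, hg.b02, hg.b03, hg.b04]

lemma msu_par_ne {g : G L} (hg : g.IsPar) : g.e 0 0 ≠ 0 := by
  have hB := msu_det_e g
  rw [Par.det_snd hg] at hB
  exact left_ne_zero_of_mul (left_ne_zero_of_mul hB)

lemma msu_exists_npt {Q : Pt L} (h : Q ≠ 0) : ∃ (p : PIdx L) (t : L), t ≠ 0 ∧ Q = (npt p).sc t := by
  by_cases h0 : Q 0 = 0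
  · by_cases h1 : Q 1 = 0
    · by_cases h2 : Q 2 = 0
      · by_cases h3 : Q 3 = 0
        · have h4 : Q 4 ≠ 0 := fun h4 => h (by funext i; fin_cases i <;> assumption)
          exact ⟨.inr (.inr (.inr none)), Q 4, h4, by
            funext i; fin_cases i <;> simp [npt, h0, h1, h2, h3]⟩
        · exact ⟨.inr (.inr (.inr (some (Q 4 / Q 3)))), Q 3, h3, by
            funext i; fin_cases i <;> simp [npt, h0, h1, h2, mul_div_cancel₀ _ h3]⟩
      · exact ⟨.inr (.inr (.inl (Q 3 / Q 2, Q 4 / Q 2))), Q 2, h2, by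
          funext i; fin_cases i <;> simp [npt, h0, h1, mul_div_cancel₀ _ h2]⟩
    · exact ⟨.inr (.inl (Q 2 / Q 1, Q 3 / Q 1, Q 4 / Q 1)), Q 1, h1, by
        funext i; fin_cases i <;> simp [npt, h0, mul_div_cancel₀ _ h1]⟩
  · exact ⟨.inl (Q 1 / Q 0, Q 2 / Q 0, Q 3 / Q 0, Q 4 / Q 0), Q 0, h0, by
      funext i; fin_cases i <;> simp [npt, mul_div_cancel₀ _ h0]⟩

lemma msu_npt_inj {p p' : PIdx L} {t t' : L} (ht : t ≠ 0) (ht' : t' ≠ 0)
    (h : (npt p).sc t = (npt p').sc t') : p = p' := by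
  have e0 := congrFun h 0
  have e1 := congrFun h 1
  have e2 := congrFun h 2
  have e3 := congrFun h 3
  have e4 := congrFun h 4
  obtain ⟨a, b, c, d⟩ | ⟨a, b, c⟩ | ⟨a, b⟩ | _ | a := p <;>
    obtain ⟨a', b', c', d'⟩ | ⟨a', b', c'⟩ | ⟨a', b'⟩ | _ | a' := p' <;>
    simp [npt, ht, ht'] at e0 e1 e2 e3 e4 ⊢ <;> subst_vars <;> simp_all

/-- the elements moving a model to good standard position -/
lemma msu_count (f : Model L) : Nat.card {g : G L // (g • f).GoodStd} =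
    nGood f * Nat.card {k : G L // k.IsPar} := by
  choose u hu1 hu2 using fun p : {p : PIdx L // f.Good (npt p)} => p.2
  rw [nGood, ← Nat.card_prod]
  symm
  refine Nat.card_eq_of_bijective (fun x => ⟨x.2.1 * u x.1, by
    rw [mul_smul]; exact msu_par_good x.2.2 (hu2 x.1)⟩) ⟨?_, ?_⟩
  · rintro ⟨p, k⟩ ⟨p', k'⟩ e
    have e1 : k.1 * u p = k'.1 * u p' := congrArg Subtype.val e
    have e2 := congrArg (fun g : G L => g.pt Pt.std) e1
    simp only [G.mul_pt, msu_par_pt k.2, msu_par_pt k'.2, G.pt_sc, hu1] at e2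
    obtain rfl : p = p' := Subtype.ext (msu_npt_inj (msu_par_ne k.2) (msu_par_ne k'.2) e2)
    exact Prod.ext rfl (Subtype.ext (mul_right_cancel e1))
  · rintro ⟨g, hg⟩
    have hQ : g.pt Pt.std ≠ 0 := fun h0 => by
      have := congrFun (congrArg (fun Q => g⁻¹.pt Q) h0) 0
      simp only [G.inv_pt_pt, Pt.std_zero] at this
      simp [G.pt] at this
    obtain ⟨p, t, ht, e⟩ := msu_exists_npt hQ
    have hs : (G.ofM (G.scM (Units.mk0 t ht)⁻¹)).IsPar := by
      constructor <;> simp [G.a, G.e, G.scM_val]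
    have hp : f.Good (npt p) := by
      refine ⟨G.ofM (G.scM (Units.mk0 t ht)⁻¹) * g, ?_, by
        rw [mul_smul]; exact msu_par_good hs hg⟩
      rw [G.mul_pt, msu_par_pt hs, G.pt_sc, e]
      funext i
      simp [G.e, G.scM_val, ht]
    refine ⟨(⟨p, hp⟩, ⟨g * (u ⟨p, hp⟩)⁻¹, msu_par_of (hu2 ⟨p, hp⟩) (t := t) ?_ ?_⟩),
      Subtype.ext (by simp)⟩
    · rw [mul_smul, inv_smul_smul]; exact hg
    · rw [G.mul_pt, e, G.pt_sc, ← hu1 ⟨p, hp⟩, G.inv_pt_pt]

end Field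

section Card

variable {κ : Type*} [Field κ] [Fintype κ]

lemma msu_card_det (n : ℕ) : (Nat.card {M : Matrix (Fin n) (Fin n) κ // M.det ≠ 0} : ℝ) =
    ∏ i : Fin n, ((Fintype.card κ : ℝ) ^ n - (Fintype.card κ : ℝ) ^ (i : ℕ)) := by
  have e : GL (Fin n) κ ≃ {M : Matrix (Fin n) (Fin n) κ // M.det ≠ 0} :=
    { toFun := fun g => ⟨g.1, Matrix.GeneralLinearGroup.det_ne_zero g⟩
      invFun := fun M => Matrix.GeneralLinearGroup.mkOfDetNeZero M.1 M.2
      left_inv := fun g => by ext; rfl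
      right_inv := fun M => by ext; rfl }
  rw [← Nat.card_congr e, Matrix.card_GL_field, Nat.cast_prod]
  refine Finset.prod_congr rfl fun i _ => ?_
  rw [Nat.cast_sub (Nat.pow_le_pow_right Fintype.card_pos i.2.le)]
  push_cast
  rfl

omit [Fintype κ] in
lemma msu_card_split (P Q : Matrix (Fin 5) (Fin 5) κ → Prop) :
    Nat.card {g : G κ // P g.a ∧ Q g.e} =
      Nat.card {A : Matrix (Fin 5) (Fin 5) κ // A.det ≠ 0 ∧ P A} *
        Nat.card {B : Matrix (Fin 5) (Fin 5) κ // B.det ≠ 0 ∧ Q B} := by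
  rw [← Nat.card_prod]
  refine Nat.card_congr
    { toFun := fun g => (⟨g.1.a, msu_det_a g.1, g.2.1⟩, ⟨g.1.e, msu_det_e g.1, g.2.2⟩)
      invFun := fun x => ⟨⟨Matrix.GeneralLinearGroup.mkOfDetNeZero x.1.1 x.1.2.1,
        Matrix.GeneralLinearGroup.mkOfDetNeZero x.2.1 x.2.2.1⟩, x.1.2.2, x.2.2.2⟩
      left_inv := fun g => Subtype.ext (G.ext (by ext; rfl) (by ext; rfl))
      right_inv := fun x => rfl }

lemma msu_card_G : (Nat.card (G κ) : ℝ) =
    (∏ i : Fin 5, ((Fintype.card κ : ℝ) ^ 5 - (Fintype.card κ : ℝ) ^ (i : ℕ))) ^ 2 := by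
  have h := msu_card_split (κ := κ) (fun _ => True) fun _ => True
  simp only [and_true, Nat.card_subtype_true] at h
  rw [h, Nat.cast_mul, msu_card_det, sq]

/-- the first matrix of a block triangular pair -/
def msuA (P : Matrix (Fin 3) (Fin 3) κ) (S : Matrix (Fin 2) (Fin 2) κ) (w : Fin 6 → κ) :
    Matrix (Fin 5) (Fin 5) κ :=
  !![P 0 0, P 0 1, P 0 2, 0, 0; P 1 0, P 1 1, P 1 2, 0, 0; P 2 0, P 2 1, P 2 2, 0, 0;
    w 0, w 1, w 2, S 0 0, S 0 1; w 3, w 4, w 5, S 1 0, S 1 1]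

/-- the second matrix of a block triangular pair -/
def msuB (b c : κ) (T : Matrix (Fin 3) (Fin 3) κ) (w : Fin 7 → κ) : Matrix (Fin 5) (Fin 5) κ :=
  !![b, 0, 0, 0, 0; w 0, c, 0, 0, 0; w 1, w 2, T 0 0, T 0 1, T 0 2;
    w 3, w 4, T 1 0, T 1 1, T 1 2; w 5, w 6, T 2 0, T 2 1, T 2 2]

omit [Fintype κ] in
lemma msu_card_A : Nat.card {A : Matrix (Fin 5) (Fin 5) κ // A.det ≠ 0 ∧ Par A 1} =
    Nat.card {P : Matrix (Fin 3) (Fin 3) κ // P.det ≠ 0} *
      (Nat.card {S : Matrix (Fin 2) (Fin 2) κ // S.det ≠ 0} * Nat.card (Fin 6 → κ)) := by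
  have hp : ∀ P S w, Par (msuA (κ := κ) P S w) 1 := fun P S w => by
    constructor <;> rfl
  have h3 : ∀ P S w, blk3 (msuA (κ := κ) P S w) = P := fun P S w => by
    ext i j; fin_cases i <;> fin_cases j <;> rfl
  have h2 : ∀ P S w, det2 (msuA (κ := κ) P S w) = S.det := fun P S w => by
    rw [det_fin_two]; rfl
  rw [← Nat.card_prod, ← Nat.card_prod]
  symm
  refine Nat.card_eq_of_bijective (fun x => ⟨msuA x.1.1 x.2.1.1 x.2.2, by
    rw [(hp _ _ _).det_fst, h3, h2]; exact mul_ne_zero x.1.2 x.2.1.2, hp _ _ _⟩) ⟨?_, ?_⟩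
  · rintro ⟨⟨P, _⟩, ⟨S, _⟩, w⟩ ⟨⟨P', _⟩, ⟨S', _⟩, w'⟩ e
    have e1 : msuA P S w = msuA P' S' w' := congrArg Subtype.val e
    obtain rfl : P = P' := by rw [← h3 P S w, e1, h3]
    obtain rfl : S = S' := by
      ext i j
      fin_cases i <;> fin_cases j
      exacts [congrFun (congrFun e1 3) 3, congrFun (congrFun e1 3) 4, congrFun (congrFun e1 4) 3,
        congrFun (congrFun e1 4) 4]
    obtain rfl : w = w' := by
      funext i
      fin_cases i
      exacts [congrFun (congrFun e1 3) 0, congrFun (congrFun e1 3) 1, congrFun (congrFun e1 3) 2,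
        congrFun (congrFun e1 4) 0, congrFun (congrFun e1 4) 1, congrFun (congrFun e1 4) 2]
    rfl
  · rintro ⟨A, hA, h⟩
    rw [h.det_fst] at hA
    refine ⟨(⟨blk3 A, left_ne_zero_of_mul hA⟩, ⟨!![A 3 3, A 3 4; A 4 3, A 4 4], by
      rw [det_fin_two_of]; exact right_ne_zero_of_mul hA⟩,
      ![A 3 0, A 3 1, A 3 2, A 4 0, A 4 1, A 4 2]), Subtype.ext ?_⟩
    ext i j
    fin_cases i <;> fin_cases j <;>
      first | rfl | simp [msuA, h.a03, h.a04, h.a13, h.a14, h.a23, h.a24]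

omit [Fintype κ] in
lemma msu_card_B : Nat.card {B : Matrix (Fin 5) (Fin 5) κ // B.det ≠ 0 ∧ Par 1 B} =
    Nat.card {b : κ // b ≠ 0} * (Nat.card {b : κ // b ≠ 0} *
      (Nat.card {T : Matrix (Fin 3) (Fin 3) κ // T.det ≠ 0} * Nat.card (Fin 7 → κ))) := by
  have hp : ∀ b c T w, Par 1 (msuB (κ := κ) b c T w) := fun b c T w => by
    constructor <;> rfl
  have h3 : ∀ b c T w, low3 (msuB (κ := κ) b c T w) = T := fun b c T w => by
    ext i j; fin_cases i <;> fin_cases j <;> rfl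
  rw [← Nat.card_prod, ← Nat.card_prod, ← Nat.card_prod]
  symm
  refine Nat.card_eq_of_bijective (fun x => ⟨msuB x.1.1 x.2.1.1 x.2.2.1.1 x.2.2.2, by
    rw [(hp _ _ _ _).det_snd, h3]
    exact mul_ne_zero (mul_ne_zero x.1.2 x.2.1.2) x.2.2.1.2, hp _ _ _ _⟩) ⟨?_, ?_⟩
  · rintro ⟨⟨b, _⟩, ⟨c, _⟩, ⟨T, _⟩, w⟩ ⟨⟨b', _⟩, ⟨c', _⟩, ⟨T', _⟩, w'⟩ e
    have e1 : msuB b c T w = msuB b' c' T' w' := congrArg Subtype.val e
    obtain rfl : T = T' := by rw [← h3 b c T w, e1, h3]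
    obtain rfl : b = b' := congrFun (congrFun e1 0) 0
    obtain rfl : c = c' := congrFun (congrFun e1 1) 1
    obtain rfl : w = w' := by
      funext i
      fin_cases i
      exacts [congrFun (congrFun e1 1) 0, congrFun (congrFun e1 2) 0, congrFun (congrFun e1 2) 1,
        congrFun (congrFun e1 3) 0, congrFun (congrFun e1 3) 1, congrFun (congrFun e1 4) 0,
        congrFun (congrFun e1 4) 1]
    rfl
  · rintro ⟨B, hB, h⟩
    rw [h.det_snd] at hB
    refine ⟨(⟨B 0 0, left_ne_zero_of_mul (left_ne_zero_of_mul hB)⟩,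
      ⟨B 1 1, right_ne_zero_of_mul (left_ne_zero_of_mul hB)⟩, ⟨low3 B, right_ne_zero_of_mul hB⟩,
      ![B 1 0, B 2 0, B 2 1, B 3 0, B 3 1, B 4 0, B 4 1]), Subtype.ext ?_⟩
    ext i j
    fin_cases i <;> fin_cases j <;>
      first | rfl | simp [msuB, h.b01, h.b02, h.b03, h.b04, h.b12, h.b13, h.b14]

lemma msu_card_ne : (Nat.card {b : κ // b ≠ 0} : ℝ) = Fintype.card κ - 1 := by
  rw [Nat.card_eq_fintype_card, Fintype.card_subtype_compl, Fintype.card_subtype_eq,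
    Nat.cast_sub Fintype.card_pos, Nat.cast_one]

lemma msu_card_par : (Nat.card {k : G κ // k.IsPar} : ℝ) =
    (((Fintype.card κ : ℝ) ^ 3 - 1) * ((Fintype.card κ : ℝ) ^ 3 - Fintype.card κ) *
      ((Fintype.card κ : ℝ) ^ 3 - (Fintype.card κ : ℝ) ^ 2)) ^ 2 *
      (((Fintype.card κ : ℝ) ^ 2 - 1) * ((Fintype.card κ : ℝ) ^ 2 - Fintype.card κ)) *
      ((Fintype.card κ : ℝ) - 1) ^ 2 * (Fintype.card κ : ℝ) ^ 13 := by
  have e : ∀ k : G κ, k.IsPar ↔ Par k.a 1 ∧ Par 1 k.e := fun k =>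
    ⟨fun h => ⟨⟨h.a03, h.a04, h.a13, h.a14, h.a23, h.a24, by simp, by simp, by simp, by simp,
      by simp, by simp, by simp⟩, ⟨by simp, by simp, by simp, by simp, by simp, by simp, h.b01,
      h.b02, h.b03, h.b04, h.b12, h.b13, h.b14⟩⟩,
    fun h => ⟨h.1.a03, h.1.a04, h.1.a13, h.1.a14, h.1.a23, h.1.a24, h.2.b01, h.2.b02, h.2.b03,
      h.2.b04, h.2.b12, h.2.b13, h.2.b14⟩⟩
  simp only [e]
  rw [msu_card_split (fun A => Par A 1) fun B => Par 1 B, msu_card_A, msu_card_B]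
  have c : ∀ n : ℕ, (Nat.card (Fin n → κ) : ℝ) = (Fintype.card κ : ℝ) ^ n := fun n => by simp
  simp only [Nat.cast_mul]
  rw [msu_card_det, msu_card_det, msu_card_ne, c, c, Fin.prod_univ_three, Fin.prod_univ_two]
  simp only [Fin.val_zero, Fin.val_one, Fin.val_two]
  ring

end Card

section Sum

variable {R κ : Type*} [CommRing R] [Field κ] [Fintype κ] {θ : R →+* κ}

omit [Fintype κ] in
lemma msu_lift_GL (h : IsResidue θ) (M : GL (Fin 5) κ) :
    ∃ N : GL (Fin 5) R, Matrix.GeneralLinearGroup.map θ N = M := by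
  choose N hN using fun i j => h.surj (M.1 i j)
  have e : (Matrix.of N).map θ = M.1 := by ext i j; exact hN i j
  have hu : IsUnit (Matrix.of N).det := by
    rw [h.unit, RingHom.map_det, RingHom.mapMatrix_apply, e]
    exact Matrix.GeneralLinearGroup.det_ne_zero M
  exact ⟨Matrix.GeneralLinearGroup.mk'' _ hu, Units.ext e⟩

omit [Fintype κ] in
lemma msu_lift (h : IsResidue θ) (g : G κ) : ∃ g' : G R, G.map θ g' = g := by
  obtain ⟨A, hA⟩ := msu_lift_GL h g.A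
  obtain ⟨M, hM⟩ := msu_lift_GL h g.M
  exact ⟨⟨A, M⟩, G.ext hA hM⟩

/-- Double counting of the pairs `(f, g)` with `g • f` in good standard position modulo the maximal
ideal. -/
theorem mass_points [Fintype (Model R)] (h : IsResidue θ) (Φ : Model R → ℝ)
    (hΦ : ∀ (g : G R) f, Φ (g • f) = Φ f) :
    ∑ f : Model R, (nGood (f.map θ) : ℝ) * Φ f =
      ((Fintype.card κ : ℝ) ^ 5 - 1) ^ 2 * ((Fintype.card κ : ℝ) ^ 4 - 1) ^ 2 /
        (((Fintype.card κ : ℝ) - 1) ^ 3 * ((Fintype.card κ : ℝ) ^ 2 - 1)) *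
        ∑ f : Model R with (f.map θ).GoodStd, Φ f := by
  have : Finite (G κ) := Finite.of_injective (fun g : G κ => (g.A, g.M)) fun g g' e =>
    G.ext (congrArg Prod.fst e) (congrArg Prod.snd e)
  let : Fintype (G κ) := Fintype.ofFinite _
  have h1 : ∀ g : G κ, ∑ f : Model R, (if (g • f.map θ).GoodStd then Φ f else 0) =
      ∑ f : Model R with (f.map θ).GoodStd, Φ f := fun g => by
    obtain ⟨g', rfl⟩ := msu_lift h g
    rw [Finset.sum_filter, ← Equiv.sum_comp (MulAction.toPerm g')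
      fun f : Model R => if (f.map θ).GoodStd then Φ f else 0]
    refine Finset.sum_congr rfl fun f _ => ?_
    rw [MulAction.toPerm_apply, hΦ, G.map_smul]
  have h2 : ∀ f : Model R, ∑ g : G κ, (if (g • f.map θ).GoodStd then Φ f else 0) =
      (Nat.card {k : G κ // k.IsPar} : ℝ) * ((nGood (f.map θ) : ℝ) * Φ f) := fun f => by
    rw [← Finset.sum_filter, Finset.sum_const, nsmul_eq_mul, ← Fintype.card_subtype,
      ← Nat.card_eq_fintype_card, msu_count, Nat.cast_mul]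
    ring
  have h3 : (Nat.card {k : G κ // k.IsPar} : ℝ) * ∑ f : Model R, (nGood (f.map θ) : ℝ) * Φ f =
      Nat.card (G κ) * ∑ f : Model R with (f.map θ).GoodStd, Φ f := by
    rw [Finset.mul_sum, ← Finset.sum_congr rfl fun f _ => h2 f, Finset.sum_comm,
      Finset.sum_congr rfl fun g _ => h1 g, Finset.sum_const, Finset.card_univ, nsmul_eq_mul,
      Nat.card_eq_fintype_card]
  rw [msu_card_par, msu_card_G, Fin.prod_univ_five] at h3
  have hq : (1 : ℝ) < Fintype.card κ := by exact_mod_cast Fintype.one_lt_card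
  generalize (Fintype.card κ : ℝ) = q at h3 hq ⊢
  have q0 : q ≠ 0 := by positivity
  have q1 : q - 1 ≠ 0 := (sub_pos.2 hq).ne'
  have q2 : q ^ 2 - 1 ≠ 0 := (sub_pos.2 (one_lt_pow₀ hq (by norm_num))).ne'
  have q3 : q ^ 3 - 1 ≠ 0 := (sub_pos.2 (one_lt_pow₀ hq (by norm_num))).ne'
  have hc : ((q ^ 3 - 1) * (q ^ 2 - 1) * (q - 1)) ^ 2 * q ^ 20 ≠ 0 :=
    mul_ne_zero (pow_ne_zero _ (mul_ne_zero (mul_ne_zero q3 q2) q1)) (pow_ne_zero _ q0)
  rw [div_mul_eq_mul_div, eq_div_iff (mul_ne_zero (pow_ne_zero _ q1) q2)]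
  refine mul_left_cancel₀ hc ?_
  simp only [Fin.val_zero, Fin.val_one, Fin.val_two, show ((3 : Fin 5) : ℕ) = 3 from rfl,
    show ((4 : Fin 5) : ℕ) = 4 from rfl] at h3
  linear_combination h3

end Sum

end SelAvg.FF.T5
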