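import Pool.Agent.H34P.Mass5B
import Pool.Agent.H34P.MassU

/-! The local mass formula for degree five models. -/

namespace SelAvg.FF.T5

open WeierstrassCurve
open scoped Classical

variable {R κ : Type*} [CommRing R] [Field κ] [Fintype R] [Fintype κ] [Fintype (Model R)]
  {θ : R →+* κ}

theorem mass (h : IsResidue θ) (ψ : WeierstrassCurve R → ℝ)
    (hψ : ∀ (C : VariableChange R) W, ψ (C • W) = ψ W) :
    avg Finset.univ (fun f : Model R => phiR θ f * ψ f.jac) =
      ((1 - 1 / (Fintype.card κ : ℝ) ^ 2) * (1 - 1 / (Fintype.card κ : ℝ) ^ 3) *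
        (1 - 1 / (Fintype.card κ : ℝ) ^ 4) * (1 - 1 / (Fintype.card κ : ℝ) ^ 5)) ^ 2 *
        avg Finset.univ ψ := by
  have hq : (1 : ℝ) < Fintype.card κ := by exact_mod_cast Fintype.one_lt_card
  have hq0 : (0 : ℝ) < Fintype.card κ := one_pos.trans hq
  have hq1 : (Fintype.card κ : ℝ) - 1 ≠ 0 := sub_ne_zero.2 hq.ne'
  have hq2 : (Fintype.card κ : ℝ) ^ 2 - 1 ≠ 0 := sub_ne_zero.2 (one_lt_pow₀ hq two_ne_zero).ne'
  have hN : (0 : ℝ) < Fintype.card R := by exact_mod_cast Fintype.card_pos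
  set Ψ : WeierstrassCurve R → ℝ :=
    fun W => ψ W / (1 + (nAff W : ℝ) * Fintype.card κ / Fintype.card R) with hΨdef
  have hΨ : ∀ (C : VariableChange R) W, Ψ (C • W) = Ψ W := by
    intro C W
    simp only [hΨdef, hψ, nAff_smul]
  have hΦ : ∀ (g : G R) (f : Model R), Ψ (g • f).jac = Ψ f.jac := fun g f => by
    rw [G.jac_smul, hΨ]
  have h5 : ∑ W : WeierstrassCurve R, ψ W = ∑ W : WeierstrassCurve R, Ψ W +
      (Fintype.card κ : ℝ) / Fintype.card R * ∑ W : WeierstrassCurve R, (nAff W : ℝ) * Ψ W := by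
    rw [Finset.mul_sum, ← Finset.sum_add_distrib]
    refine Finset.sum_congr rfl fun W _ => ?_
    have hpos : (0 : ℝ) < 1 + (nAff W : ℝ) * Fintype.card κ / Fintype.card R := by positivity
    have : ψ W = (1 + (nAff W : ℝ) * Fintype.card κ / Fintype.card R) * Ψ W := by
      simp only [hΨdef]
      rw [mul_div_cancel₀ _ hpos.ne']
    rw [this]
    ring
  have h6 : ∑ f : Model R, phiR θ f * ψ f.jac =
      ∑ f : Model R, (nGood (f.map θ) : ℝ) * Ψ f.jac := by
    refine Finset.sum_congr rfl fun f _ => ?_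
    simp only [phiR, hΨdef, Nat.card_eq_fintype_card]
    ring
  have h7 : Fintype.card (Model R) = Fintype.card R ^ 50 := by
    rw [Fintype.card_congr Model.equivVec]; simp
  unfold avg
  rw [h6, mass_points h _ hΦ, mass_exact h _ hΦ, mass_std h Ψ hΨ, m5S_sum h Ψ hΨ,
    m5_cubics h Ψ hΨ, T3.mass_red h Ψ, T3.mass_two h Ψ hΨ, h5, Finset.card_univ, Finset.card_univ,
    h7, card_W]
  push_cast
  field_simp
  ring

end SelAvg.FF.T5
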