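import Pool.Agent.H34P.Mod
import Pool.Agent.H34P.ParA

/-!
Standard position over a ring, the projection of objects, block triangular elements.
-/

namespace SelAvg.FF.T5

open WeierstrassCurve Matrix

variable {R S : Type*} [CommRing R] [CommRing S]

namespace Model

/-- nondegenerate standard position over a ring -/
structure NStd (f : Model R) : Prop where
  std : f.Std
  lam : IsUnit f.lam
  tm : IsUnit f.Tm.det
  prim : ∃ i, IsUnit (f.mk' i)

/-- semi-normal form -/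
structure SN (f : Model R) : Prop where
  std : f.Std
  lam : f.lam = 1
  tm : f.Tm = 1
  nv3 : f.nv 3 = ![0, 1, 0]
  nv4 : f.nv 4 = ![0, 0, 1]

lemma unred_map (φ : R →+* S) (h : T3.Model R) : unred (h.map φ) = (unred h).map φ := by
  rw [unred, unred, ofVec_map]
  congr 1
  funext k p
  fin_cases k <;> fin_cases p <;> simp

lemma unred_sn (h : T3.Model R) : (unred h).SN := by
  refine ⟨by constructor <;> rfl, rfl, ?_, ?_, ?_⟩
  · ext i j; fin_cases i <;> fin_cases j <;> simp [Tm, lin, unred, ofVec, altM]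
  · funext i; fin_cases i <;> rfl
  · funext i; fin_cases i <;> rfl

lemma unred_std (h : T3.Model R) : (unred h).Std := (unred_sn h).std

lemma lam_unred (h : T3.Model R) : (unred h).lam = 1 := (unred_sn h).lam

lemma SN.mk'_eq {f : Model R} (h : f.SN) : f.mk' = T3.Pt.std := by
  rw [mk', alp, alp, h.tm, h.nv3, h.nv4, vecMul_one, vecMul_one]
  funext i; fin_cases i <;> simp [crossProduct, T3.Pt.std]

lemma SN.nstd {f : Model R} (h : f.SN) : f.NStd :=
  ⟨h.std, h.lam ▸ isUnit_one, by rw [h.tm, det_one]; exact isUnit_one,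
    0, by rw [h.mk'_eq]; exact isUnit_one⟩

lemma mk'_unred (h : T3.Model R) : (unred h).mk' = T3.Pt.std := (unred_sn h).mk'_eq

lemma cub_unred {h : T3.Model R} (ha : h.a = 0) : (unred h).cub = h := by
  have e : ∀ i s u, (unred h).qm i s u = ![(unred h).lin 0 i s, (unred h).lin 1 i s,
      (unred h).lin 2 i s] u := fun i s u => by
    rw [qm, (unred_sn h).tm]
    fin_cases u <;> simp
  rw [cub, alp, alp, (unred_sn h).tm, (unred_sn h).nv3, (unred_sn h).nv4, vecMul_one, vecMul_one]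
  ext <;> simp only [ofTensor, e] <;> simp [lin, unred, ofVec, altM, ha]

lemma WS_unred {h : T3.Model R} (ha : h.a = 0) : (unred h).WS = h.jac := by
  rw [WS, lam_unred, cub_unred ha, T3.wsc_one]

/-- the marked point lies on the cubic -/
lemma F_mk' (f : Model R) : f.cub.F f.mk' = 0 := by
  rw [F_cub, mk', dot_self_cross, dot_cross_self, zero_mul, zero_mul, sub_zero]

lemma SN.cub_a {f : Model R} (h : f.SN) : f.cub.a = 0 := by
  have e := F_mk' f
  rw [h.mk'_eq] at e
  simpa [T3.Model.F, T3.Pt.std] using e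

lemma NStd.map {f : Model R} (h : f.NStd) (φ : R →+* S) : (f.map φ).NStd :=
  ⟨h.std.map φ, h.lam.map φ, by rw [Tm_map, T3.Model.det_map']; exact h.tm.map φ,
    h.prim.imp fun i hi => by rw [mk'_map]; exact hi.map φ⟩

lemma SN.map {f : Model R} (h : f.SN) (φ : R →+* S) : (f.map φ).SN := by
  refine ⟨h.std.map φ, by rw [lam_map, h.lam, map_one],
    by rw [Tm_map, h.tm, Matrix.map_one _ (map_zero φ) (map_one φ)], ?_, ?_⟩
  · rw [nv_map, h.nv3]; funext i; fin_cases i <;> simp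
  · rw [nv_map, h.nv4]; funext i; fin_cases i <;> simp

/-- the projection of a point lies on the cubic -/
lemma Std.F_tail {f : Model R} (h : f.Std) {Q : Pt R} (hQ : Rk2 (f.ev Q)) :
    f.cub.F Q.tail = 0 := by
  have e3 := (h.pf_three Q).symm.trans (hQ _ _ _ _)
  have e4 := (h.pf_four Q).symm.trans (hQ _ _ _ _)
  rw [F_cub]
  linear_combination (f.alp 3 ⬝ᵥ Q.tail) * e4 - (f.alp 4 ⬝ᵥ Q.tail) * e3

lemma Std.rk2_std {f : Model R} (h : f.Std) : Rk2 (f.ev Pt.std) := by
  rw [ev_std, rk2_iff (f.diag 0) (f.alt 0)]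
  simp [pf, h.c001, h.c002, h.c003, h.c004, h.c012, h.c013, h.c014]

end Model

lemma Obj.red_f (z : Obj R) : z.red.f = z.f.cub.scale z.f.lam := rfl
lemma Obj.red_γ (z : Obj R) : z.red.γ = z.f.shS⁻¹ * z.γ := rfl
lemma Obj.unred_f (z : T3.Obj R) : (Obj.unred z).f = Model.unred z.f := rfl

lemma Obj.over_red {z : Obj R} (h : z.f.Std) {W : WeierstrassCurve R} :
    z.red.Over W ↔ z.Over W := by
  rw [T3.Obj.Over, Obj.Over, red_f, red_γ, T3.Model.jac_scale, Model.jac_std h, mul_smul,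
    eq_inv_smul_iff, Model.WS]

lemma Obj.red_map (φ : R →+* S) (z : Obj R) : (z.map φ).red = z.red.map φ := by
  refine T3.Obj.ext ?_ ?_
  · rw [T3.Obj.map_f, red_f, red_f, map_f, Model.cub_map, Model.lam_map, T3.Model.map_scale]
  · rw [T3.Obj.map_γ, red_γ, red_γ, map_f, map_γ, Model.shS_map, vc_map_mul]
    exact congrArg (· * _) ((VariableChange.mapHom φ).map_inv _).symm

lemma Obj.red_rmul (z : Obj R) (C : VariableChange R) : (z.rmul C).red = z.red.rmul C :=
  T3.Obj.ext rfl (mul_assoc _ _ _).symm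

lemma Obj.unred_map (φ : R →+* S) (z : T3.Obj R) :
    Obj.unred (z.map φ) = (Obj.unred z).map φ := by
  refine Obj.ext (Model.unred_map φ z.f) ?_
  change (Model.unred (z.f.map φ)).shS * z.γ.map φ = ((Model.unred z.f).shS * z.γ).map φ
  rw [Model.unred_map, Model.shS_map, vc_map_mul]

lemma Obj.red_unred {z : T3.Obj R} (ha : z.f.a = 0) : (Obj.unred z).red = z := by
  refine T3.Obj.ext ?_ (inv_mul_cancel_left _ _)
  rw [red_f, unred_f, Model.cub_unred ha, Model.lam_unred, T3.Model.scale_one]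

lemma Obj.over_unred {z : T3.Obj R} (ha : z.f.a = 0) {W : WeierstrassCurve R} :
    (Obj.unred z).Over W ↔ z.Over W := by
  rw [← Obj.over_red (Model.unred_std z.f), red_unred ha]

/-- objects in standard position with the same model and the same projection are equal -/
lemma Obj.eq_of_red {z z' : Obj R} (e : z.f = z'.f) (e' : z.red = z'.red) : z = z' := by
  have h := congrArg T3.Obj.γ e'
  rw [red_γ, red_γ, e] at h
  exact Obj.ext e (mul_left_cancel h)

lemma red1_par_iff {A B : Matrix (Fin 5) (Fin 5) R} : Par A B ↔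
    A.BlockTriangular ![1, 1, 1, 0, (0 : ℕ)] ∧ B.BlockTriangular ![2, 1, 0, 0, (0 : ℕ)] := by
  refine ⟨fun ⟨h1, h2, h3, h4, h5, h6, h7, h8, h9, h10, h11, h12, h13⟩ => ⟨fun i j h => ?_,
    fun i j h => ?_⟩, fun ⟨h, h'⟩ => ?_⟩
  · fin_cases i <;> fin_cases j <;> first | assumption | exact absurd h (by decide)
  · fin_cases i <;> fin_cases j <;> first | assumption | exact absurd h (by decide)
  · constructor <;> first | exact h (by decide) | exact h' (by decide)

namespace G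

lemma IsPar.one : (1 : G R).IsPar := red1_par_iff.2 ⟨blockTriangular_one, blockTriangular_one⟩

lemma IsPar.mul {g h : G R} (hg : g.IsPar) (hh : h.IsPar) : (g * h).IsPar :=
  red1_par_iff.2 ⟨(red1_par_iff.1 hg).1.mul (red1_par_iff.1 hh).1,
    (red1_par_iff.1 hg).2.mul (red1_par_iff.1 hh).2⟩

lemma IsPar.inv {g : G R} (hg : g.IsPar) : g⁻¹.IsPar := by
  have := g.A.invertible
  have := g.M.invertible
  rw [IsPar, a, e, inv_A, inv_M, coe_units_inv, coe_units_inv]
  exact red1_par_iff.2 ⟨blockTriangular_inv_of_blockTriangular (red1_par_iff.1 hg).1,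
    blockTriangular_inv_of_blockTriangular (red1_par_iff.1 hg).2⟩

lemma IsPar.map' {g : G R} (hg : g.IsPar) (φ : R →+* S) : (G.map φ g).IsPar := Par.map hg φ

lemma IsPar.scalar (t : Rˣ) : (G.scalar t).IsPar := by
  rw [IsPar, a, e, scalar_A, scalar_M, scM_val, scM_val]
  exact red1_par_iff.2 ⟨blockTriangular_diagonal _, blockTriangular_diagonal _⟩

lemma red1_det_a (g : G R) : IsUnit g.a.det := (isUnit_iff_isUnit_det _).1 g.A.isUnit

lemma red1_det_e (g : G R) : IsUnit g.e.det := (isUnit_iff_isUnit_det _).1 g.M.isUnit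

lemma IsPar.units {g : G R} (hg : g.IsPar) : IsUnit (blk3 g.a).det ∧ IsUnit (det2 g.a) ∧
    IsUnit (g.e 0 0) ∧ IsUnit (g.e 1 1) ∧ IsUnit (low3 g.e).det := by
  have h1 := red1_det_a g
  have h2 := red1_det_e g
  rw [Par.det_fst hg, IsUnit.mul_iff] at h1
  rw [Par.det_snd hg, IsUnit.mul_iff, IsUnit.mul_iff] at h2
  exact ⟨h1.1, h1.2, h2.1.1, h2.1.2, h2.2⟩

lemma IsPar.pt_std {g : G R} (hg : g.IsPar) : g.pt Pt.std = Pt.std.sc (g.e 0 0) := by
  rw [G.pt_std]
  funext i
  fin_cases i <;> simp [hg.b01, hg.b02, hg.b03, hg.b04]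

lemma IsPar.std' {g : G R} (hg : g.IsPar) {f : Model R} (h : f.Std) : (g • f).Std :=
  Par.std hg h

lemma IsPar.Tm_eq {g : G R} (hg : g.IsPar) {f : Model R} (h : f.Std) :
    (g • f).Tm = (blk3 g.a).adjugateᵀ * f.Tm * (low3 g.e)ᵀ := by
  have a := f.alt
  ext i j
  fin_cases i <;> fin_cases j <;>
    simp [Model.Tm, Model.lin, smul_def, Model.act_c_apply, Fin.sum_univ_five, hg.a03, hg.a04,
      hg.a13, hg.a14, hg.a23, hg.a24, f.diag, a _ 0 1, a _ 0 2, a _ 1 2, h.c001, h.c002, h.c012,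
      h.c101, h.c102, h.c112, mul_apply, Fin.sum_univ_three, blk3, low3, adjugate_fin_three] <;>
    ring

lemma IsPar.Tm_det {g : G R} (hg : g.IsPar) {f : Model R} (h : f.Std) :
    (g • f).Tm.det = (blk3 g.a).det ^ 2 * (low3 g.e).det * f.Tm.det := by
  rw [hg.Tm_eq h, Matrix.det_mul, Matrix.det_mul, det_transpose, det_transpose, det_adjugate,
    mul_right_comm]
  rfl

/-- `mk'` of `g • f` is unimodular, but over a general ring no single coordinate need be a unit -/
lemma IsPar.nstd [IsLocalRing R] {g : G R} (hg : g.IsPar) {f : Model R} (h : f.NStd) :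
    (g • f).NStd := by
  obtain ⟨h1, h2, h3, h4, h5⟩ := hg.units
  obtain ⟨i, hi⟩ := h.prim
  refine ⟨hg.std' h.std, ?_, ?_, ?_⟩
  · rw [smul_def, lam_act hg h.std]
    exact (h2.mul h3).mul h.lam
  · rw [hg.Tm_det h.std]
    exact ((h1.pow 2).mul h5).mul h.tm
  · have e : IsUnit (((g • f).mk' ᵥ* low3 g.e) i) := by
      rw [smul_def, mk'_act_vecMul hg h.std]
      exact ((((h1.mul h4).pow 2).mul h2).mul h5).mul hi
    obtain ⟨j, -, hj⟩ := IsLocalRing.exists_of_isUnit_sum (s := Finset.univ)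
      (f := fun j => (g • f).mk' j * low3 g.e j i) e
    exact ⟨j, isUnit_of_mul_isUnit_left hj⟩

/-- an element fixing the standard point and preserving standard position is block triangular -/
theorem par_of_std {g : G R} {f : Model R} (hf : f.Std) (hl : IsUnit f.lam)
    (ht : IsUnit f.Tm.det) (h1 : g.e 0 1 = 0) (h2 : g.e 0 2 = 0) (h3 : g.e 0 3 = 0)
    (h4 : g.e 0 4 = 0) (hg : (g • f).Std) : g.IsPar := by
  have a := f.alt
  have h0 : IsUnit (g.e 0 0) := by
    have e := congrArg (fun M : GL (Fin 5) R => M.1 0 0) (mul_inv_cancel g.M)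
    simp only [Units.val_mul, mul_apply, Fin.sum_univ_five, h1, h2, h3, h4, zero_mul, add_zero,
      Units.val_one, one_apply_eq] at e
    exact .of_mul_eq_one _ e
  have c0 : ∀ i j, (g • f).c 0 i j = 0 → g.a i 3 * g.a j 4 - g.a i 4 * g.a j 3 = 0 := fun i j e => by
    refine (h0.mul hl).mul_right_eq_zero.1 (Eq.trans ?_ e)
    simp only [G.smul_def, Model.lam, Model.act_c_apply, Fin.sum_univ_five, h1, h2, h3, h4, f.diag,
      a _ 0 1, a _ 0 2, a _ 0 3, a _ 0 4, a _ 1 2, a _ 1 3, a _ 1 4, a _ 2 3, a _ 2 4, a _ 3 4,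
      hf.c001, hf.c002, hf.c003, hf.c004, hf.c012, hf.c013, hf.c014, hf.c023, hf.c024, mul_zero,
      zero_mul, add_zero, zero_add, neg_zero]
    ring
  have hd : IsUnit (g.a 3 3 * g.a 4 4 - g.a 3 4 * g.a 4 3) := by
    obtain ⟨N, hN⟩ : ∃ N, N * g.a = 1 := ⟨_, g.A.inv_mul⟩
    have e := fun i j => congrFun (congrFun hN i) j
    have e33 := e 3 3
    have e34 := e 3 4
    have e43 := e 4 3
    have e44 := e 4 4
    simp only [mul_apply, Fin.sum_univ_five, one_apply_eq, ne_eq, Fin.reduceEq, not_false_eq_true,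
      one_apply_ne] at e33 e34 e43 e44
    refine .of_mul_eq_one (N 3 3 * N 4 4 - N 3 4 * N 4 3) ?_
    linear_combination (N 4 0 * g.a 0 4 + N 4 1 * g.a 1 4 + N 4 2 * g.a 2 4 + N 4 3 * g.a 3 4 +
      N 4 4 * g.a 4 4) * e33 + e44 - (N 4 0 * g.a 0 3 + N 4 1 * g.a 1 3 + N 4 2 * g.a 2 3 +
      N 4 3 * g.a 3 3 + N 4 4 * g.a 4 3) * e34 - (N 3 0 * N 4 1 - N 3 1 * N 4 0) * c0 0 1 hg.c001
      - (N 3 0 * N 4 2 - N 3 2 * N 4 0) * c0 0 2 hg.c002
      - (N 3 0 * N 4 3 - N 3 3 * N 4 0) * c0 0 3 hg.c003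
      - (N 3 0 * N 4 4 - N 3 4 * N 4 0) * c0 0 4 hg.c004
      - (N 3 1 * N 4 2 - N 3 2 * N 4 1) * c0 1 2 hg.c012
      - (N 3 1 * N 4 3 - N 3 3 * N 4 1) * c0 1 3 hg.c013
      - (N 3 1 * N 4 4 - N 3 4 * N 4 1) * c0 1 4 hg.c014
      - (N 3 2 * N 4 3 - N 3 3 * N 4 2) * c0 2 3 hg.c023
      - (N 3 2 * N 4 4 - N 3 4 * N 4 2) * c0 2 4 hg.c024
  have key : ∀ i, (g • f).c 0 i 3 = 0 → (g • f).c 0 i 4 = 0 → g.a i 3 = 0 ∧ g.a i 4 = 0 :=
    fun i h3 h4 => ⟨hd.mul_right_eq_zero.1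
      (by linear_combination g.a 3 3 * c0 _ _ h4 - g.a 4 3 * c0 _ _ h3), hd.mul_right_eq_zero.1
      (by linear_combination g.a 3 4 * c0 _ _ h4 - g.a 4 4 * c0 _ _ h3)⟩
  obtain ⟨a03, a04⟩ := key 0 hg.c003 hg.c004
  obtain ⟨a13, a14⟩ := key 1 hg.c013 hg.c014
  obtain ⟨a23, a24⟩ := key 2 hg.c023 hg.c024
  have hP : Par g.a (1 : Matrix (Fin 5) (Fin 5) R) := by
    constructor <;> first | assumption | simp
  have hA : IsUnit (blk3 g.a).det := isUnit_of_mul_isUnit_left (hP.det_fst ▸ red1_det_a g)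
  have e01 := hg.c101
  have e02 := hg.c102
  have e12 := hg.c112
  simp only [G.smul_def, Model.act_c_apply, Fin.sum_univ_five, a03, a04, a13, a14, a23, a24, f.diag,
    a _ 0 1, a _ 0 2, a _ 1 2, hf.c001, hf.c002, hf.c012, hf.c101, hf.c102, hf.c112, mul_zero,
    zero_mul, add_zero, zero_add, neg_zero] at e01 e02 e12
  have hw : f.Tm *ᵥ Pt.tail (g.e 1) = 0 := by
    funext r
    refine hA.mul_right_eq_zero.1 ?_
    rw [det_blk3]
    fin_cases r <;>
      simp [Model.Tm, Model.lin, Pt.tail, mulVec, dotProduct, Fin.sum_univ_three, -mul_eq_zero]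
    · linear_combination g.a 0 0 * e12 - g.a 1 0 * e02 + g.a 2 0 * e01
    · linear_combination g.a 0 1 * e12 - g.a 1 1 * e02 + g.a 2 1 * e01
    · linear_combination g.a 0 2 * e12 - g.a 1 2 * e02 + g.a 2 2 * e01
  have hz : Pt.tail (g.e 1) = 0 := by
    rw [← one_mulVec (Pt.tail _), ← nonsing_inv_mul _ ht, ← mulVec_mulVec, hw, mulVec_zero]
  exact ⟨a03, a04, a13, a14, a23, a24, h1, h2, h3, h4, congrFun hz 0, congrFun hz 1, congrFun hz 2⟩

end G

end SelAvg.FF.T5
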