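import Pool.Agent.H34P.ModA

/-! Coefficient vectors of degree five models. -/

namespace SelAvg.FF.T5

/-- the weights of the coefficients -/
def kV : Fin 50 → ℕ := fun _ => 1

lemma kV_pos (i : Fin 50) : 0 < kV i := Nat.one_pos

/-- the model with given coefficients -/
abbrev toM {R : Type} [CommRing R] (x : Fin 50 → R) : Model R := Model.equivVec.symm x

lemma vec_map {R S : Type*} [CommRing R] [CommRing S] (φ : R →+* S) (f : Model R) (i : Fin 50) :
    Model.equivVec (f.map φ) i = φ (Model.equivVec f i) := rfl

end SelAvg.FF.T5
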