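import Pool.Agent.H34P.DensG
import Pool.Agent.H34P.FinG
import Pool.Agent.H34P.ToM
import Pool.Agent.H34P.Red1
import Pool.Agent.H34P.Mass
import Pool.Agent.H34P.LocS

/-! Local and global densities for degree five models. -/

namespace SelAvg.FF.T5

open WeierstrassCurve WithZero Filter Topology
open scoped Classical

variable {F : Type} [Field F]

lemma dens_jac_w {R : Type*} [CommRing R] (W : WeierstrassCurve R) :
    (Model.unred ⟨0, -1, -W.a₆, 0, 1, 0, -W.a₂, W.a₃, -W.a₄, W.a₁⟩).jac.Δ = W.Δ := by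
  rw [Model.Δ_std (Model.unred_std _), Model.lam_unred, Model.cub_unred rfl]
  simp only [T3.Model.jac, Δ, b₂, b₄, b₆, b₈]
  ring

/-- the family of Jacobians -/
noncomputable def fam : WFam 50 where
  J x := (toM x).jac
  map φ x := by rw [← Model.jac_map, Model.equivVec_symm_map]
  surj W := ⟨Model.equivVec _, by rw [toM, Equiv.symm_apply_apply, dens_jac_w W]⟩

variable [Cv F]

/-- `phiR_eq_phiL` -/
lemma phiR_thv_eq (v : Place F) (j : ℕ) {f : Model v.loc.O}
    (h : ¬v.loc.unif ^ (2 * (j + 1)) ∣ f.jac.Δ) :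
    phiR (thv v j) (f.map (redv v (2 * (j + 1)))) = v.loc.phiL5 (resv v) f := by
  refine LocalField.phiR_eq_phiL (resv_isRed v) (redv_isRed v (2 * (j + 1))) (thv v j)
    (thv_comp v j) fun h0 => h ((redv_eq_zero_iff v _ _).1 h0)

lemma phiR_thv_le_one (v : Place F) (j : ℕ) {f : Model (Rv v (2 * (j + 1)))} (h : f.jac.Δ ≠ 0) :
    phiR (thv v j) f ≤ 1 := by
  choose y hy using fun i => (redv_isRed v (2 * (j + 1))).surj (Model.equivVec f i)
  have e : (Model.equivVec.symm y).map (redv v (2 * (j + 1))) = f := by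
    rw [Model.equivVec_symm_map, funext hy, Equiv.symm_apply_apply]
  subst e
  rw [Model.jac_map, map_Δ, Ne, redv_eq_zero_iff] at h
  rw [phiR_thv_eq v j h]
  refine LocalField.phiL_le_one (resv_isRed v) fun h0 => h ?_
  rw [h0]
  exact dvd_zero _

lemma phiR_thv_le (v : Place F) (j : ℕ) (f : Model (Rv v (2 * (j + 1)))) :
    phiR (thv v j) f ≤
      (qq F ^ dg v) ^ 4 + (qq F ^ dg v) ^ 3 + (qq F ^ dg v) ^ 2 + qq F ^ dg v + 1 := by
  have h := phiR_le (thv v j) f
  rwa [Nat.card_eq_fintype_card, card_kv_real] at h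

lemma fam_mass (v : Place F) (j : ℕ) :
    fam.Mass (fun x => phiR (thv v j) (toM x)) (lf5 (qq F ^ dg v)) := by
  intro ψ hψ
  let _ : Fintype (Model (Rv v (2 * (j + 1)))) := Fintype.ofEquiv _ Model.equivVec.symm
  have h := mass (thv_isResidue v j) ψ hψ
  rw [card_kv_real] at h
  exact (avg_equiv Model.equivVec.symm
    fun f : Model (Rv v (2 * (j + 1))) => phiR (thv v j) f * ψ f.jac).trans h

theorem avg_phiM (L : Lat F 50) (S : Finset (Place F)) {j : ℕ} (hj : 2 ≤ j) : ∀ᶠ m in atTop,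
    avg (L.box m) (fun x => ind (∀ v ∈ S, ¬NonMin v.loc.unif (toM (L.loc m v x)).jac) *
      ∏ v ∈ S, phiR (thv v j) ((toM (L.loc m v x)).map (redv v (2 * (j + 1))))) =
      cs5 S * delta S j := by
  have h := fam.avg_phiM L S hj (fun v x => phiR (thv v j) (toM x)) _ fun v => fam_mass v j
  rw [prod_lf5] at h
  simp only [Model.equivVec_symm_map]
  exact h

theorem exists_level (S : Finset (Place F)) {ε : ℝ} (hε : 0 < ε) : ∃ j, 2 ≤ j ∧ ∀ L : Lat F 50,
    ∀ᶠ m in atTop, dens (L.box m)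
      (fun x => ∃ v ∈ S, v.loc.unif ^ (2 * (j + 1)) ∣ (toM (L.loc m v x)).jac.Δ) ≤ ε :=
  fam.exists_level S hε

theorem dens_medium (L : Lat F 50) : ∃ b : ℕ, ∀ N m : ℕ, dens (L.box m)
    (fun x => ∃ v : Place F, N < dg v ∧ 2 * dg v + b ≤ m * pp F ∧
      v.loc.unif ^ 2 ∣ (toM (L.loc m v x)).jac.Δ) ≤ 11 * tau F N := by
  refine fam.dens_medium (k := 11) (by norm_num) (fun v => ?_) L
  obtain ⟨h1, h2⟩ := lf5_bounds (one_le_pow₀ (one_lt_qq (F := F)).le : 1 ≤ qq F ^ dg v)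
  rw [mul_one_div] at h1
  exact (fam.dens_sq_le v (fam_mass v 0) (fun x hx => phiR_thv_le_one v 0 hx) h2 h1).trans_eq
    (by norm_num)

end SelAvg.FF.T5
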