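import Pool.Agent.H81Sel.DensB

/-! Densities for a family of Weierstrass curves with `N` parameters. -/

namespace SelAvg.FF

open WeierstrassCurve WithZero Filter Topology
open scoped Classical

/-- a family of Weierstrass curves, natural in the ring, that attains every discriminant -/
structure WFam (N : ℕ) where
  J : ∀ {R : Type} [CommRing R], (Fin N → R) → WeierstrassCurve R
  map : ∀ {R S : Type} [CommRing R] [CommRing S] (φ : R →+* S) (x : Fin N → R),
    J (fun i => φ (x i)) = (J x).map φ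
  surj : ∀ {R : Type} [CommRing R] (W : WeierstrassCurve R), ∃ x, (J x).Δ = W.Δ

namespace WFam

variable {F : Type} [Field F] {N : ℕ} (U : WFam N)

lemma eval_gen {R S : Type} [CommRing R] [CommRing S] (φ : R →+* S) (x : Fin N → S) :
    MvPolynomial.eval x (MvPolynomial.map φ
      (U.J (MvPolynomial.X : Fin N → MvPolynomial (Fin N) R)).Δ) = (U.J x).Δ := by
  rw [← RingHom.comp_apply, ← map_Δ, ← U.map]
  simp

lemma gen_ne_zero (R : Type) [CommRing R] [Nontrivial R] :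
    (U.J (MvPolynomial.X : Fin N → MvPolynomial (Fin N) R)).Δ ≠ 0 := by
  intro h
  have key : ∀ W : WeierstrassCurve R, W.Δ = 0 := fun W => by
    obtain ⟨x, hx⟩ := U.surj W
    have h1 := U.eval_gen (RingHom.id R) x
    rw [h, map_zero, map_zero, hx] at h1
    exact h1.symm
  have h1 := key ⟨0, 0, 1, -1, 0⟩
  have h2 := key ⟨0, -1, 1, 0, 0⟩
  simp only [Δ, b₂, b₄, b₆, b₈] at h1 h2
  exact one_ne_zero (α := R) (by linear_combination 3 * h1 + 10 * h2)

variable [Cv F]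

theorem dens_Delta_tendsto (v : Place F) : Tendsto (fun j => dens Finset.univ
    fun x : Fin N → Rv v (2 * (j + 1)) => (U.J x).Δ = 0) atTop (𝓝 0) := by
  have h1 := (dens_zero_tendsto v (U.gen_ne_zero v.loc.O)).comp
    (show Tendsto (fun j : ℕ => 2 * (j + 1)) atTop atTop from
      tendsto_atTop_mono (fun j => by change j ≤ 2 * (j + 1); omega) tendsto_id)
  exact h1.congr fun j => dens_congr fun x _ => by rw [U.eval_gen]

/-- a mass formula with constant `c` for the weight `ph` -/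
def Mass {R : Type} [CommRing R] [Fintype R] (ph : (Fin N → R) → ℝ) (c : ℝ) : Prop :=
  ∀ ψ : WeierstrassCurve R → ℝ, (∀ (C : VariableChange R) W, ψ (C • W) = ψ W) →
    avg Finset.univ (fun x : Fin N → R => ph x * ψ (U.J x)) = c * avg Finset.univ ψ

/-- from a mass formula -/
theorem dens_sq_le (v : Place F) {ph : (Fin N → Rv v (2 * (0 + 1))) → ℝ} {c k : ℝ}
    (hm : U.Mass ph c) (hle : ∀ x, (U.J x).Δ ≠ 0 → ph x ≤ 1) (hc : c ≤ 1)
    (hk : 1 - k / (qq F ^ dg v) ^ 2 ≤ c) :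
    dens Finset.univ (fun x : Fin N → Rv v (2 * (0 + 1)) => (U.J x).Δ = 0) ≤
      (k + 3) / (qq F ^ dg v) ^ 2 := by
  have h1 := dens_W_sq_le v
  have h2 := hm (fun W => ind (¬W.Δ = 0)) fun C W => by
    rw [variableChange_Δ, ((C.u⁻¹).isUnit.pow 12).mul_right_eq_zero]
  rw [← dens_eq_avg, dens_not Finset.univ_nonempty] at h2
  have h3 : avg Finset.univ (fun x : Fin N → Rv v (2 * (0 + 1)) =>
      ph x * ind (¬(U.J x).Δ = 0)) ≤
      dens Finset.univ fun x : Fin N → Rv v (2 * (0 + 1)) => ¬(U.J x).Δ = 0 := by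
    rw [dens_eq_avg]
    refine avg_mono fun f _ => ?_
    by_cases hf : (U.J f).Δ = 0
    · rw [ind_neg (not_not.2 hf), mul_zero]
    · rw [ind_pos hf, mul_one]
      exact hle f hf
  rw [h2, dens_not Finset.univ_nonempty] at h3
  have h8 := dens_nonneg Finset.univ fun W : WeierstrassCurve (Rv v (2 * (0 + 1))) => W.Δ = 0
  rw [add_div]
  nlinarith [mul_le_mul_of_nonneg_right hc h8]

theorem avg_ph (v : Place F) (j : ℕ) {ph : (Fin N → Rv v (2 * (j + 1))) → ℝ} {c : ℝ}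
    (hm : U.Mass ph c) : avg Finset.univ (fun x : Fin N → Rv v (2 * (j + 1)) =>
      ind (¬NonMin (redv v (2 * (j + 1)) v.loc.unif) (U.J x)) * ph x) = c * nuLoc v j := by
  have h := hm (fun W => ind (¬NonMin (redv v (2 * (j + 1)) v.loc.unif) W))
    fun C W => congrArg ind (propext (not_congr (nonMin_smul C W)))
  rw [← dens_eq_avg] at h
  rw [nuLoc, ← h]
  exact avg_congr fun f _ => mul_comm _ _

lemma db_one (L : Lat F N) : ∃ b : ℕ, ∀ (m M : ℕ) (v : Place F), M * dg v + b ≤ m * pp F →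
    dens (L.box m) (fun x => v.loc.unif ^ M ∣ (U.J (L.loc m v x)).Δ) =
      dens Finset.univ fun x : Fin N → Rv v M => (U.J x).Δ = 0 := by
  obtain ⟨b, hb⟩ := L.equidist
  refine ⟨b, fun m M v h => ?_⟩
  have h1 := hb m M {v} (by simpa using h) fun w y => ind ((U.J y).Δ = 0)
  simp only [Finset.prod_singleton] at h1
  rw [dens_eq_avg, dens_eq_avg, ← h1]
  refine avg_congr fun x _ => congrArg ind (propext ?_)
  rw [← redv_eq_zero_iff, ← map_Δ, ← U.map]

theorem avg_phiM (L : Lat F N) (S : Finset (Place F)) {j : ℕ} (hj : 2 ≤ j)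
    (ph : ∀ v : Place F, (Fin N → Rv v (2 * (j + 1))) → ℝ) (c : Place F → ℝ)
    (hm : ∀ v, U.Mass (ph v) (c v)) : ∀ᶠ m in atTop,
    avg (L.box m) (fun x => ind (∀ v ∈ S, ¬NonMin v.loc.unif (U.J (L.loc m v x))) *
      ∏ v ∈ S, ph v fun i => redv v (2 * (j + 1)) (L.loc m v x i)) =
      (∏ v ∈ S, c v) * delta S j := by
  obtain ⟨b, hb⟩ := L.equidist
  filter_upwards [db_ev (F := F) (2 * (j + 1) * ∑ v ∈ S, dg v + b)] with m hm'
  have h := hb m (2 * (j + 1)) S hm' fun v y =>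
    ind (¬NonMin (redv v (2 * (j + 1)) v.loc.unif) (U.J y)) * ph v y
  rw [Finset.prod_congr rfl fun v _ => U.avg_ph v j (hm v), Finset.prod_mul_distrib] at h
  refine Eq.trans (avg_congr fun x _ => ?_) h
  rw [Finset.prod_mul_distrib, final1_ind_forall]
  refine congrArg₂ (· * ·) (Finset.prod_congr rfl fun v _ => congrArg ind (propext ?_)) rfl
  rw [← nonMin_redv_iff v hj, ← U.map]

theorem exists_level (S : Finset (Place F)) {ε : ℝ} (hε : 0 < ε) : ∃ j, 2 ≤ j ∧ ∀ L : Lat F N,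
    ∀ᶠ m in atTop, dens (L.box m)
      (fun x => ∃ v ∈ S, v.loc.unif ^ (2 * (j + 1)) ∣ (U.J (L.loc m v x)).Δ) ≤ ε := by
  have hc : (0 : ℝ) < S.card + 1 := by positivity
  obtain ⟨M, hM⟩ := eventually_atTop.1 ((eventually_all_finset S).2 fun v _ =>
    (U.dens_Delta_tendsto v).eventually_le_const (div_pos hε hc))
  refine ⟨M + 2, by omega, fun L => ?_⟩
  obtain ⟨b, hb⟩ := U.db_one L
  filter_upwards [db_ev (F := F) (2 * (M + 2 + 1) * ∑ v ∈ S, dg v + b)] with m hm
  refine (dens_exists_le (L.box m) S fun v x =>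
    v.loc.unif ^ (2 * (M + 2 + 1)) ∣ (U.J (L.loc m v x)).Δ).trans ?_
  refine (Finset.sum_le_card_nsmul _ _ (ε / (S.card + 1)) fun v hv => ?_).trans ?_
  · rw [hb m _ v (le_trans (Nat.add_le_add_right (Nat.mul_le_mul_left _
      (Finset.single_le_sum (f := fun v : Place F => dg v) (fun _ _ => Nat.zero_le _) hv)) b) hm)]
    exact hM (M + 2) (by omega) v hv
  · rw [nsmul_eq_mul, ← mul_div_assoc, div_le_iff₀ hc]
    nlinarith

theorem dens_medium {k : ℝ} (hk : 0 ≤ k) (h : ∀ v : Place F, dens Finset.univ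
      (fun x : Fin N → Rv v (2 * (0 + 1)) => (U.J x).Δ = 0) ≤ k / (qq F ^ dg v) ^ 2)
    (L : Lat F N) : ∃ b : ℕ, ∀ n m : ℕ, dens (L.box m)
      (fun x => ∃ v : Place F, n < dg v ∧ 2 * dg v + b ≤ m * pp F ∧
        v.loc.unif ^ 2 ∣ (U.J (L.loc m v x)).Δ) ≤ k * tau F n := by
  obtain ⟨b, hb⟩ := U.db_one L
  refine ⟨b, fun n m => ?_⟩
  set T := (plLE F (m * pp F)).filter fun v => n < dg v ∧ 2 * dg v + b ≤ m * pp F with hT
  refine (dens_mono (Q := fun x => ∃ v ∈ T,
    v.loc.unif ^ (2 * (0 + 1)) ∣ (U.J (L.loc m v x)).Δ) ?_).trans ?_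
  · rintro x - ⟨v, h1, h2, h3⟩
    exact ⟨v, Finset.mem_filter.2 ⟨mem_plLE.2 (by omega), h1, h2⟩, h3⟩
  refine (dens_exists_le (L.box m) T fun v x =>
    v.loc.unif ^ (2 * (0 + 1)) ∣ (U.J (L.loc m v x)).Δ).trans ?_
  refine le_trans (Finset.sum_le_sum (g := fun v => k * (1 / (qq F ^ dg v) ^ 2)) fun v hv => ?_) ?_
  · rw [hb m _ v (Finset.mem_filter.1 hv).2.2, mul_one_div]
    exact h v
  · rw [← Finset.mul_sum]
    exact mul_le_mul_of_nonneg_left (sum_le_tau T fun v hv => (Finset.mem_filter.1 hv).2.1) hk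

end WFam

end SelAvg.FF
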