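import Pool.Agent.H34P.DifB2

/-!
The trivial class.
-/

namespace SelAvg.FF.T5

open WeierstrassCurve Matrix
open scoped Classical

variable {L L' : Type*} [Field L] [Field L']
variable {W : WeierstrassCurve L} {z z' : Obj L}

/-- a row operation followed by an index permutation -/
def difb3U (t : L) : GL (Fin 5) L where
  val := !![1, 0, 0, 0, 0; 0, 1, 0, 0, 0; 0, 0, -t, 1, 0; 0, 0, 0, 0, 1; 0, 0, 1, 0, 0]
  inv := !![1, 0, 0, 0, 0; 0, 1, 0, 0, 0; 0, 0, 0, 0, 1; 0, 0, 1, 0, t; 0, 0, 0, 1, 0]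
  val_inv := by
    ext i j
    fin_cases i <;> fin_cases j <;> simp [mul_apply, Fin.sum_univ_five]
  inv_val := by
    ext i j
    fin_cases i <;> fin_cases j <;> simp [mul_apply, Fin.sum_univ_five]

lemma difb3_c (A : GL (Fin 5) L) (f : Model L) (k i j : Fin 5) :
    (G.ofA A • f).c k i j = ∑ a, ∑ b, A.1 i a * A.1 j b * f.c k a b := by
  have h : (1 : Matrix (Fin 5) (Fin 5) L) k = Pi.single k 1 := by
    funext j; simp [one_apply, Pi.single_apply, eq_comm]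
  change (f.act A.1 1).c k i j = _
  rw [Model.act_c, h, Model.ev_single, moda_conj]

lemma difb3_row (t : L) (f : Model L) (k : Fin 5) : (G.ofA (difb3U t) • f).c k =
    altM ![f.c k 0 1, f.c k 0 3 - t * f.c k 0 2, f.c k 0 4, f.c k 0 2, f.c k 1 3 - t * f.c k 1 2,
      f.c k 1 4, f.c k 1 2, f.c k 3 4 - t * f.c k 2 4, -f.c k 2 3, -f.c k 2 4] := by
  have a := f.alt k
  rw [← altM_eq ((G.ofA (difb3U t) • f).diag k) ((G.ofA (difb3U t) • f).alt k)]
  congr 1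
  funext p
  fin_cases p <;>
    simp [difb3_c, difb3U, pI, pJ, Fin.sum_univ_five, f.diag, a 2 3, a 2 4] <;> ring

/-- the index permutation `0, 1, 2, 3, 4 ↦ 0, 1, 3, 4, 2` takes `unred h` to the flag pattern -/
lemma triv_unred {h : T3.Model L} (hs : h.Std) (h1 : h.b1 = 0) : (Model.unred h).Triv := by
  refine ⟨G.ofA (difb3U 0)⁻¹, fun k i j hk => ?_⟩
  rw [difb3_c]
  fin_cases k <;> fin_cases i <;> fin_cases j <;>
    first
    | exact absurd hk (by decide)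
    | simp [difb3U, Model.unred, Model.ofVec, altM, Fin.sum_univ_five, hs.a2, h1]

/-- If `c 0 2 4 = 0` then `f` is in standard position with `det Tm = 0`.  Otherwise clear `c 0 3 4`
by a row operation and permute the indices: the cubic becomes `b y ^ 3 + z (…)`. -/
lemma exists_std_of_kos {f : Model L} (hΔ : f.jac.Δ ≠ 0) (h : f.Kos) : ∃ g : G L, (g • f).Std ∧
    (g • f).cub.Std ∧ (g • f).cub.b1 = 0 ∧ T3.Pt.Eqv T3.Pt.std (g • f).mk' := by
  have k : ∀ k i j : Fin 5, decide (i.1 + j.1 + Model.kosB k ≤ 5) = true → f.c k i j = 0 :=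
    fun k i j e => h k i j (of_decide_eq_true e)
  have h24 : f.c 0 2 4 ≠ 0 := by
    intro h0
    have hs : f.Std := ⟨k 0 0 1 rfl, k 0 0 2 rfl, k 0 0 3 rfl, k 0 0 4 rfl, k 0 1 2 rfl,
      k 0 1 3 rfl, k 0 1 4 rfl, k 0 2 3 rfl, h0, k 1 0 1 rfl, k 1 0 2 rfl, k 1 1 2 rfl⟩
    apply (Model.goodStd_of_Delta hΔ hs).nstd.tm.ne_zero
    simp [Model.Tm, Model.lin, det_fin_three, k 2 1 2 rfl, k 2 0 2 rfl, k 2 0 1 rfl]
  have e := difb3_row (f.c 0 3 4 / f.c 0 2 4) f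
  have hΔ' := (Model.jac_Delta_smul (G.ofA (difb3U (f.c 0 3 4 / f.c 0 2 4))) f).2 hΔ
  refine ⟨G.ofA (difb3U (f.c 0 3 4 / f.c 0 2 4)), ?_⟩
  generalize G.ofA (difb3U (f.c 0 3 4 / f.c 0 2 4)) • f = f' at e hΔ'
  have hs : f'.Std := by
    constructor <;>
      simp [e, altM, k 0 0 1 rfl, k 0 0 2 rfl, k 0 0 3 rfl, k 0 0 4 rfl, k 0 1 2 rfl,
        k 0 1 3 rfl, k 0 1 4 rfl, k 0 2 3 rfl, k 1 0 1 rfl, k 1 0 2 rfl, k 1 1 2 rfl,
        k 1 0 3 rfl, k 1 1 3 rfl, h24]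
  have z1 : f'.c 1 0 3 = 0 := by simp [e, altM, k 1 0 4 rfl]
  have z2 : f'.c 1 0 4 = 0 := by simp [e, altM, k 1 0 2 rfl]
  have z3 : f'.c 1 1 4 = 0 := by simp [e, altM, k 1 1 2 rfl]
  have z4 : f'.c 2 0 1 = 0 := by simp [e, altM, k 2 0 1 rfl]
  have z5 : f'.c 3 0 1 = 0 := by simp [e, altM, k 3 0 1 rfl]
  have z6 : f'.c 2 0 2 = 0 := by simp [e, altM, k 2 0 2 rfl, k 2 0 3 rfl]
  have z7 : f'.c 2 0 4 = 0 := by simp [e, altM, k 2 0 2 rfl]
  have z8 : f'.c 3 0 4 = 0 := by simp [e, altM, k 3 0 2 rfl]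
  have z9 : f'.c 2 1 4 = 0 := by simp [e, altM, k 2 1 2 rfl]
  have m1 : f'.mk' 1 = 0 := by
    simp [Model.mk', Model.alp, Model.nv, Model.Tm, Model.lin, crossProduct,
      z1, z2, z3, z4, z5, z6]
  have m2 : f'.mk' 2 = 0 := by
    simp [Model.mk', Model.alp, Model.nv, Model.Tm, Model.lin, crossProduct,
      z1, z2, z3, z4, z5, z6]
  obtain ⟨i, hi⟩ := (Model.goodStd_of_Delta hΔ' hs).nstd.prim
  have m0 : f'.mk' 0 ≠ 0 := by
    fin_cases i
    exacts [hi.ne_zero, absurd m1 hi.ne_zero, absurd m2 hi.ne_zero]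
  refine ⟨hs, ⟨?_, ?_⟩, ?_, f'.mk' 0, m0, ?_⟩
  rotate_right
  · funext r; fin_cases r <;> simp [m1, m2]
  all_goals
    simp [Model.cub, ofTensor, Model.qm, Model.alp, Model.nv, Model.Tm, Model.lin, vecMul,
      dotProduct, Fin.sum_univ_three, z1, z2, z3, z4, z5, z6, z7, z8, z9]

lemma difb3_triv (hW : W.Δ ≠ 0) {y : T3.Obj L} (hy : y.Over W) (ha : y.f.a = 0)
    (h0 : T3.piP W y T3.Pt.std = 0) : (Model.unred y.f).Triv := by
  obtain ⟨h1, h2⟩ := T3.mover_spec (hy.jac_Delta hW) (T3.Model.on_std.2 ha)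
  generalize T3.mover y.f T3.Pt.std = k at h1 h2
  have hb : (k • y.f).b1 = 0 := (T3.piP_std_eq_zero_iff hW (hy.smul k) h2).1 (by
    rw [T3.piP_smul hW hy k (T3.Model.on_std.2 h2.a), h1, h0])
  rw [T3.G.pt_std] at h1
  obtain ⟨g, hg, hk, hsn⟩ := exists_par_sn (Model.unred_sn y.f) (k := k) (by rw [h1]; rfl)
    (by rw [h1]; rfl)
  obtain ⟨g', -, -, e⟩ := exists_unred hsn
  have e' := hk.smul hg (Model.unred_std y.f)
  rw [hsn.lam, Model.lam_unred, Model.cub_unred ha, T3.Model.scale_one, T3.Model.scale_one] at e'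
  rw [← Model.triv_smul g, ← Model.triv_smul g', e, ← e']
  exact triv_unred h2 hb

theorem triv_iff (hW : W.Δ ≠ 0) (hz : z.Over W) :
    z.f.Triv ↔ ∃ Q, z.f.On Q ∧ piP W z Q = 0 := by
  constructor
  · rintro ⟨g, hk⟩
    obtain ⟨g', hs, hc, hb, he⟩ := exists_std_of_kos ((hz.smul g).jac_Delta hW) hk
    rw [Obj.smul_f, ← mul_smul] at hs hc hb he
    have hz' := hz.smul (g' * g)
    have hr := (Obj.over_red (z := (g' * g) • z) hs).2 hz'
    have hr' : ((g' * g) • z).red.f.Std :=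
      ⟨by simp [Obj.red_f, hc.a], by simp [Obj.red_f, hc.a2]⟩
    refine ⟨(g' * g).pt Pt.std, (Model.on_pt _ z.f _).2 hs.on_std, ?_⟩
    rw [← piP_smul hW hz _ hs.on_std, piP_std hW hz' hs, Obj.smul_f,
      ← T3.piP_eqv hW hr (T3.Model.on_std.2 hr'.a) he]
    exact (T3.piP_std_eq_zero_iff hW hr hr').2 (by simp [Obj.red_f, hb])
  · rintro ⟨Q, hQ, h0⟩
    obtain ⟨h1, h2⟩ := mover_spec hQ
    generalize mover z.f Q = m at h1 h2
    have hz' := hz.smul m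
    obtain ⟨g, y, hg, ha, e⟩ := exists_nf (z := m • z)
      (Model.goodStd_of_Delta (hz'.jac_Delta hW) h2).nstd
    have hy : (Obj.unred y).Over W := e ▸ hz'.smul g
    have hs := Model.unred_std y.f
    have h3 : piP W (Obj.unred y) Pt.std = 0 := by
      rw [← e, piP_smul hW hz' g (by rw [e]; exact hs.on_std),
        ← piP_eqv hW hz' h2.on_std hg.eqv_std.symm, piP_smul hW hz m h2.on_std, h1, h0]
    rw [piP_std hW hy hs, Obj.red_unred ha, Obj.unred_f, Model.mk'_unred] at h3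
    rw [← Model.triv_smul m, ← Model.triv_smul g]
    have e' : g • m • z.f = Model.unred y.f := congrArg Obj.f e
    rw [e']
    exact difb3_triv hW ((Obj.over_unred ha).1 hy) ha h3

end SelAvg.FF.T5
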