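import Pool.Agent.H5T.LangW

/-! Multiplication by five on a Weierstrass curve, the theorem of Lang for classes killed by five. -/

namespace H5T

open SelAvg WeierstrassCurve Polynomial
open scoped Classical

variable {L : Type*} [Field L] {W : WeierstrassCurve L}

/-- the sum of the abscissae of `A + B` and `A - B` -/
lemma w5_sum {x y x' y' : L} (k : W.toAffine.Nonsingular x y) (k' : W.toAffine.Nonsingular x' y')
    (h : x ≠ x') : ∃ (a b : L) (ka : W.toAffine.Nonsingular a b) (c d : L)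
      (kc : W.toAffine.Nonsingular c d),
      Affine.Point.some x y k + .some x' y' k' = .some a b ka ∧
      Affine.Point.some x y k - .some x' y' k' = .some c d kc ∧
      (a + c) * (x - x') ^ 2 = 2 * x * x' * (x + x') + W.b₂ * x * x' + W.b₄ * (x + x') + W.b₆ := by
  refine ⟨_, _, _, _, _, _, Affine.Point.add_of_X_ne h, by
    rw [sub_eq_add_neg, Affine.Point.neg_some, Affine.Point.add_of_X_ne h], ?_⟩
  have e := (Affine.equation_iff _ _).1 k.1
  have e' := (Affine.equation_iff _ _).1 k'.1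
  have hl := div_mul_cancel₀ (y - y') (sub_ne_zero.2 h)
  have hm := div_mul_cancel₀ (y - W.toAffine.negY x' y') (sub_ne_zero.2 h)
  rw [Affine.slope_of_X_ne h, Affine.slope_of_X_ne h]
  generalize (y - y') / (x - x') = l at hl ⊢
  generalize (y - W.toAffine.negY x' y') / (x - x') = m at hm ⊢
  rw [Affine.negY] at hm
  simp only [Affine.addX, b₂, b₄, b₆]
  linear_combination 2 * e + 2 * e' + (l * (x - x') + (y - y') + W.a₁ * (x - x')) * hl +
    (m * (x - x') + (y + y' + W.a₁ * x' + W.a₃) + W.a₁ * (x - x')) * hm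

lemma w5_four (x : L) : W.preΨ₄.eval x =
    (6 * x ^ 2 + W.b₂ * x + W.b₄) * W.Ψ₃.eval x - W.Ψ₂Sq.eval x ^ 2 := by
  simp only [preΨ₄, Ψ₃, Ψ₂Sq, eval_add, eval_mul, eval_pow, eval_X, eval_C, eval_ofNat]
  linear_combination x ^ 2 * W.b_relation

lemma w5_w (x : L) : (12 * x + W.b₂) * W.Ψ₂Sq.eval x =
    (6 * x ^ 2 + W.b₂ * x + W.b₄) ^ 2 + 4 * W.Ψ₃.eval x := by
  simp only [Ψ₃, Ψ₂Sq, eval_add, eval_mul, eval_pow, eval_X, eval_C, eval_ofNat]
  linear_combination -W.b_relation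

lemma w5_five : W.preΨ' 5 = W.preΨ₄ * W.Ψ₂Sq ^ 2 - W.Ψ₃ ^ 3 := by
  rw [show 5 = 2 * (0 + 2) + 1 from rfl, preΨ'_odd]
  simp

lemma w5_Phi : W.Φ 5 = X * W.preΨ' 5 ^ 2 -
    W.Ψ₃ * (W.preΨ' 5 - W.preΨ₄ ^ 2) * W.preΨ₄ * W.Ψ₂Sq := by
  rw [show 5 = ((4 : ℕ) + 1 : ℤ) from rfl, Φ_ofNat, if_pos (by decide), if_pos (by decide),
    show 4 + 2 = 2 * (0 + 3) from rfl, preΨ'_even]
  simp only [zero_add, preΨ'_one, preΨ'_two, preΨ'_three, preΨ'_four, Nat.reduceAdd]
  ring

/-- the double of a point through the division polynomials -/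
lemma w5_two {x y : L} (k : W.toAffine.Nonsingular x y) :
    (W.Ψ₂Sq.eval x = 0 → W.Ψ₃.eval x ≠ 0 ∧ 2 • Affine.Point.some x y k = 0) ∧
    (W.Ψ₂Sq.eval x ≠ 0 → ∃ (a b : L) (ka : W.toAffine.Nonsingular a b),
      2 • Affine.Point.some x y k = .some a b ka ∧ (a - x) * W.Ψ₂Sq.eval x = -W.Ψ₃.eval x) := by
  have e := (Affine.equation_iff _ _).1 k.1
  obtain ⟨s, hs⟩ : ∃ s, s = 2 * y + W.a₁ * x + W.a₃ := ⟨_, rfl⟩
  obtain ⟨t, ht⟩ : ∃ t, t = 3 * x ^ 2 + 2 * W.a₂ * x + W.a₄ - W.a₁ * y := ⟨_, rfl⟩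
  have e2 : W.Ψ₂Sq.eval x = s ^ 2 := by
    simp only [Ψ₂Sq, eval_add, eval_mul, eval_pow, eval_X, eval_C, b₂, b₄, b₆, hs]
    linear_combination -4 * e
  have e3 : W.Ψ₃.eval x = (3 * x + W.a₂) * s ^ 2 - W.a₁ * s * t - t ^ 2 := by
    simp only [Ψ₃, eval_add, eval_mul, eval_pow, eval_X, eval_C, eval_ofNat, b₂, b₄, b₆, b₈,
      hs, ht]
    linear_combination -(12 * x + W.a₁ ^ 2 + 4 * W.a₂) * e
  rw [e2, e3]
  constructor
  · intro h
    have h0 : s = 0 := pow_eq_zero_iff two_ne_zero |>.1 h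
    refine ⟨fun hp => ?_, (two_smul_eq_zero_iff k).2 (hs ▸ h0)⟩
    rw [h0] at hp
    have h1 : t = 0 := pow_eq_zero_iff two_ne_zero |>.1 (by linear_combination -hp)
    rcases ((Affine.nonsingular_iff' _ _).1 k).2 with h | h
    · exact h (by linear_combination ht - h1)
    · exact h (hs ▸ h0)
  · intro h
    have h0 : s ≠ 0 := fun h0 => h (by rw [h0]; ring)
    obtain ⟨l, k', hl, h2⟩ := lw_double k (hs ▸ h0)
    rw [← hs, ← ht] at hl
    refine ⟨_, _, k', h2, ?_⟩
    rw [Affine.addX]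
    linear_combination (l * s + t + W.a₁ * s) * hl

/-- five times a point through the division polynomials -/
theorem w5_main {x y : L} (k : W.toAffine.Nonsingular x y) :
    ((W.preΨ' 5).eval x = 0 → (W.Φ 5).eval x ≠ 0 ∧ 5 • Affine.Point.some x y k = 0) ∧
    ((W.preΨ' 5).eval x ≠ 0 → ∃ (a b : L) (ka : W.toAffine.Nonsingular a b),
      5 • Affine.Point.some x y k = .some a b ka ∧
        a * (W.preΨ' 5).eval x ^ 2 = (W.Φ 5).eval x) := by
  obtain ⟨h20, h21⟩ := w5_two k
  have e4 := w5_four (W := W) x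
  have ew := w5_w (W := W) x
  have eS : W.Ψ₂Sq.eval x = 4 * x ^ 3 + W.b₂ * x ^ 2 + 2 * W.b₄ * x + W.b₆ := by
    simp only [Ψ₂Sq, eval_add, eval_mul, eval_pow, eval_X, eval_C]
  have e5 : (W.preΨ' 5).eval x = W.preΨ₄.eval x * W.Ψ₂Sq.eval x ^ 2 - W.Ψ₃.eval x ^ 3 := by
    simp only [w5_five, eval_sub, eval_mul, eval_pow]
  rw [w5_Phi]
  simp only [eval_sub, eval_mul, eval_pow, eval_X]
  generalize (W.preΨ' 5).eval x = f at e5 ⊢
  generalize W.preΨ₄.eval x = q at e4 e5 ⊢
  generalize W.Ψ₂Sq.eval x = S at h20 h21 e4 ew eS e5 ⊢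
  generalize W.Ψ₃.eval x = p at h20 h21 e4 ew e5 ⊢
  generalize hP : Affine.Point.some x y k = P at h20 h21 ⊢
  have hP0 : P ≠ 0 := hP ▸ Affine.Point.some_ne_zero k
  by_cases hS : S = 0
  · obtain ⟨hp, h2⟩ := h20 hS
    have hf : f ≠ 0 := fun h => pow_ne_zero 3 hp (by rw [hS] at e5; linear_combination e5 - h)
    refine ⟨fun h => absurd h hf, fun _ => ⟨x, y, k, ?_, by rw [hS]; ring⟩⟩
    rw [hP, show 5 • P = 2 • 2 • P + P by abel, h2, smul_zero, zero_add]
  obtain ⟨a, b, ka, h2, ha⟩ := h21 hS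
  by_cases hp : p = 0
  · have hf : f ≠ 0 := fun h => pow_ne_zero 4 hS (by
      rw [e4, hp] at e5; linear_combination e5 - h)
    have : a = x := sub_eq_zero.1 ((mul_eq_zero.1 (by rw [ha, hp, neg_zero])).resolve_right hS)
    subst this
    have h3 : 2 • P = -P := by
      rcases Affine.Y_eq_of_X_eq ka.1 k.1 rfl with rfl | e
      · rw [hP, two_nsmul, add_eq_left] at h2
        exact absurd h2 hP0
      · rw [h2, ← hP, Affine.Point.neg_some, Affine.Point.some.injEq]
        exact ⟨rfl, e⟩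
    refine ⟨fun h => absurd h hf, fun _ => ⟨a, b, ka, ?_, by rw [hp]; ring⟩⟩
    rw [← h2, show 5 • P = 2 • 2 • P + P by abel, h3]
    abel
  have hax : a ≠ x := fun h => hp (by rw [h] at ha; linear_combination ha)
  obtain ⟨c, d, kc, x', y', kx, h3, h1, hc⟩ := w5_sum ka k hax
  rw [← h2, hP] at h3 h1
  rw [show 2 • P - P = P by abel, ← hP, Affine.Point.some.injEq] at h1
  rw [← h1.1] at hc
  clear h1
  obtain ⟨a, rfl⟩ : ∃ a', a = x + a' := ⟨a - x, by ring⟩
  obtain ⟨c, rfl⟩ : ∃ c', c = x + c' := ⟨c - x, by ring⟩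
  have ha' : a * S = -p := by linear_combination ha
  have hc1 : c * a ^ 2 = S + (6 * x ^ 2 + W.b₂ * x + W.b₄) * a := by
    linear_combination hc - eS
  generalize hr : 6 * x ^ 2 + W.b₂ * x + W.b₄ = r at e4 ew hc1
  have hc' : c * p ^ 2 = -(S * q) := by
    rw [e4]
    linear_combination S ^ 2 * hc1 + (r * S - c * (a * S - p)) * ha'
  have hac : (c - a) * (S * p ^ 2) = -f := by
    rw [e5]
    linear_combination S * hc' - p ^ 2 * ha'
  have hSp : S * p ^ 2 ≠ 0 := mul_ne_zero hS (pow_ne_zero 2 hp)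
  constructor
  · intro hf
    have hq : q ≠ 0 := fun h => pow_ne_zero 3 hp (by rw [h] at e5; linear_combination e5 - hf)
    refine ⟨fun h => mul_ne_zero (mul_ne_zero hp (pow_ne_zero 3 hq)) hS (by
      rw [hf] at h; linear_combination h), ?_⟩
    have : c = a := sub_eq_zero.1 ((mul_eq_zero.1 (by rw [hac, hf, neg_zero])).resolve_right hSp)
    subst this
    rcases Affine.Y_eq_of_X_eq kc.1 ka.1 rfl with rfl | e
    · rw [← h2, add_eq_left] at h3
      exact absurd h3 hP0
    · have : 2 • P + P = -(2 • P) := by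
        rw [h3, h2, Affine.Point.neg_some, Affine.Point.some.injEq]
        exact ⟨rfl, e⟩
      rw [show 5 • P = 2 • P + P + 2 • P by abel, this, neg_add_cancel]
  · intro hf
    have hne : x + c ≠ x + a := fun h => hf (by
      rw [add_right_inj] at h
      rw [h] at hac; linear_combination hac)
    obtain ⟨u, v, ku, x', y', kx', h5, h1, hu⟩ := w5_sum kc ka hne
    rw [← h3, ← h2] at h5 h1
    rw [show 2 • P + P - 2 • P = P by abel, ← hP, Affine.Point.some.injEq] at h1
    rw [← h1.1] at hu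
    refine ⟨u, v, ku, by rw [← h5]; abel, ?_⟩
    have hu1 : (u - x) * (c - a) ^ 2 =
        S + r * (a + c) + (12 * x + W.b₂) * (a * c) + 2 * (a * c) * (a + c) := by
      rw [← hr]
      linear_combination hu - eS
    have h6 : a * c * p = q := by
      refine mul_right_cancel₀ (mul_ne_zero hS hp) ?_
      linear_combination c * p ^ 2 * ha' - p * hc'
    have h7 : (a + c) * (S * p ^ 2) = -(p ^ 3 + S ^ 2 * q) := by
      linear_combination S * hc' + p ^ 2 * ha'
    generalize a * c = m at hu1 h6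
    generalize a + c = n at hu1 h7
    generalize c - a = z at hu1 hac
    have h8 : r * p = q + S ^ 2 := by linear_combination -e4
    have h9 : (u - x) * f ^ 2 = S ^ 3 * p ^ 4 - r * p * (S * p) * (p ^ 3 + S ^ 2 * q) +
        ((r * p) ^ 2 + 4 * p ^ 3) * (S * p * q) - 2 * q * (S * p) * (p ^ 3 + S ^ 2 * q) := by
      linear_combination (S * p ^ 2) ^ 2 * hu1 - (u - x) * (z * (S * p ^ 2) - f) * hac +
        (r * (S * p ^ 2) + 2 * m * (S * p ^ 2)) * h7 + m * S * p ^ 4 * ew +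
        ((r ^ 2 + 4 * p) * S * p ^ 3 - 2 * S * p * (p ^ 3 + S ^ 2 * q)) * h6
    rw [h8] at h9
    linear_combination h9 + p * q * S * e5

/-- a nonzero point of order five: its abscissa is a root of the division polynomial -/
theorem tor5_root {x y : L} (k : W.toAffine.Nonsingular x y) :
    5 • Affine.Point.some x y k = 0 ↔ (W.preΨ' 5).eval x = 0 := by
  refine ⟨fun h => ?_, fun h => ((w5_main k).1 h).2⟩
  by_contra h0
  obtain ⟨a, b, ka, e, -⟩ := (w5_main k).2 h0
  exact Affine.Point.some_ne_zero ka (e.symm.trans h)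

theorem five_surj [IsAlgClosed L] (hW : W.Δ ≠ 0) (R : W.toAffine.Point) : ∃ Q, 5 • Q = R := by
  rcases R with _ | ⟨u, v, k⟩
  · exact ⟨0, smul_zero _⟩
  obtain ⟨x, hx⟩ := IsAlgClosed.exists_root (W.Φ 5 - C u * W.preΨ' 5 ^ 2) (by
    have h1 : (C u * W.preΨ' 5 ^ 2).natDegree < (W.Φ 5).natDegree := by
      rw [natDegree_Φ]
      refine (natDegree_C_mul_le _ _).trans_lt (natDegree_pow_le.trans_lt ?_)
      have := W.natDegree_preΨ'_le 5
      rw [if_neg (by decide)] at this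
      norm_num at this ⊢
      omega
    intro h0
    have h2 := natDegree_sub_eq_left_of_natDegree_lt h1
    rw [natDegree_eq_of_degree_eq_some h0, natDegree_Φ] at h2
    norm_num at h2)
  obtain ⟨y, k₀⟩ := lw_exists_y hW x
  simp only [IsRoot, eval_sub, eval_mul, eval_pow, eval_C] at hx
  have hf : (W.preΨ' 5).eval x ≠ 0 := fun h => ((w5_main k₀).1 h).1 (by
    rw [h] at hx; linear_combination hx)
  obtain ⟨a, b, ka, e, ha⟩ := (w5_main k₀).2 hf
  have : a = u := mul_right_cancel₀ (pow_ne_zero 2 hf) (by linear_combination ha + hx)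
  subst this
  exact lw_pm e

/-- the fifth division polynomial of a nonsingular curve is not zero, in every characteristic -/
theorem psi5_ne_zero (hW : W.Δ ≠ 0) : W.preΨ' 5 ≠ 0 := by
  intro h
  have hW' : (W.map (algebraMap L (AlgebraicClosure L))).Δ ≠ 0 := by
    rwa [map_Δ, _root_.map_ne_zero]
  obtain ⟨y, k⟩ := lw_exists_y hW' 0
  obtain ⟨Q, hQ⟩ := five_surj hW' (.some 0 y k)
  refine Affine.Point.some_ne_zero k (hQ.symm.trans ?_)
  rcases Q with _ | ⟨a, b, ka⟩
  · exact smul_zero _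
  · exact (tor5_root ka).2 (by rw [map_preΨ', h, Polynomial.map_zero, eval_zero])

theorem finite_five_torsion (hW : W.Δ ≠ 0) : {P : W.toAffine.Point | 5 • P = 0}.Finite :=
  lw_finite (W.preΨ' 5).roots.toFinset.finite_toSet fun x y k hP => by
    rw [Finset.mem_coe, Multiset.mem_toFinset, mem_roots (psi5_ne_zero hW), IsRoot]
    exact (tor5_root k).1 hP

/-- At most twenty-five 5-torsion points. -/
theorem five_torsion_le (hW : W.Δ ≠ 0) (s : Finset W.toAffine.Point) (hs : ∀ P ∈ s, 5 • P = 0) :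
    s.card ≤ 25 := by
  have h0 := psi5_ne_zero hW
  have h4 : (W.preΨ' 5).roots.toFinset.card ≤ 12 :=
    (Multiset.toFinset_card_le _).trans ((Polynomial.card_roots' _).trans (W.natDegree_preΨ'_le 5))
  have h1 := Finset.card_le_mul_card_image_of_maps_to (s := s.erase 0)
    (t := (W.preΨ' 5).roots.toFinset.image some) (f := fun P => (toRaw P).map Prod.fst) ?_ 2 ?_
  · have h5 := Finset.card_image_le (s := (W.preΨ' 5).roots.toFinset) (f := some)
    have h6 := Finset.pred_card_le_card_erase (s := s) (a := 0)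
    omega
  · rintro (_ | ⟨x, y, k⟩) hP
    · exact absurd rfl (Finset.ne_of_mem_erase hP)
    · exact Finset.mem_image.2 ⟨x, Multiset.mem_toFinset.2 ((Polynomial.mem_roots h0).2
        ((tor5_root k).1 (hs _ (Finset.mem_of_mem_erase hP)))), rfl⟩
  · intro b _
    rcases Finset.eq_empty_or_nonempty
      ((s.erase 0).filter fun P => (toRaw P).map Prod.fst = b) with h | ⟨P, hP⟩
    · rw [h]; simp
    refine (Finset.card_le_card (t := {P, -P}) fun Q hQ => ?_).trans Finset.card_le_two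
    have e := (Finset.mem_filter.1 hQ).2.trans (Finset.mem_filter.1 hP).2.symm
    rcases P with _ | ⟨x, y, k⟩
    · exact absurd rfl (Finset.ne_of_mem_erase (Finset.mem_filter.1 hP).1)
    rcases Q with _ | ⟨x', y', k'⟩
    · cases e
    obtain rfl : x' = x := Option.some.inj e
    rw [Finset.mem_insert, Finset.mem_singleton, Affine.Point.neg_some]
    rcases Affine.Y_eq_of_X_eq k'.1 k.1 rfl with rfl | rfl
    · exact Or.inl rfl
    · exact Or.inr rfl

theorem lang_five [IsAlgClosed L] (hW : W.Δ ≠ 0) (φ : L →+* L) (hφ : {x | φ x = x}.Finite)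
    (h : W = W.map φ) {ξ R : W.toAffine.Point} (e : 5 • ξ = pmap φ h R - R) :
    ∃ S, ξ = pmap φ h S - S :=
  lang_abstract _ 5 (five_surj hW) (finite_five_torsion hW) (finite_fixed φ hφ h) e

end H5T
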