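import Pool.Agent.H34P.ModA

/-! Every model has a point over an algebraically closed field. -/

namespace SelAvg.FF.T5

open Matrix Polynomial

variable {L : Type*} [Field L]

lemma pta_coeff (f : Model L) {Q : Pt L[X]} {d : ℕ} (hd : ∀ k, (Q k).natDegree ≤ d)
    (i j k l : Fin 5) :
    (pf ((f.map C).ev Q) i j k l).coeff (d + d) = pf (f.ev fun k => (Q k).coeff d) i j k l := by
  have h1 : ∀ a b, ((f.map C).ev Q a b).natDegree ≤ d := fun a b => by
    rw [Model.ev_apply]
    exact natDegree_sum_le_of_forall_le _ _ fun k _ => (natDegree_mul_C_le _ _).trans (hd k)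
  have h2 : ∀ a b, ((f.map C).ev Q a b).coeff d = f.ev (fun k => (Q k).coeff d) a b :=
    fun a b => by simp [Model.ev_apply]
  simp only [pf, coeff_add, coeff_sub, coeff_mul_add_eq_of_natDegree_le (h1 _ _) (h1 _ _), h2]

lemma pta_step [IsAlgClosed L] (f : Model L) (d : ℕ) : ∀ Q : Pt L[X], Q ≠ 0 →
    (∀ k, (Q k).natDegree ≤ d) → (f.map C).ev Q 0 1 = 0 →
    (∀ a : Fin 5, (f.map C).ev Q 0 a = X * (f.map C).ev Q 1 a ∨ a = 0 ∨ a = 1) →
    ∃ Q : Pt L, Q ≠ 0 ∧ Rk2 (f.ev Q) := by
  induction d using Nat.strong_induction_on with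
  | _ d ih =>
  intro Q hQ hd h1 ha
  have h2 := (ha 2).resolve_right (by decide)
  have h3 := (ha 3).resolve_right (by decide)
  have h4 := (ha 4).resolve_right (by decide)
  obtain ⟨c, hc⟩ : ∃ c, c = pf ((f.map C).ev Q) 1 2 3 4 := ⟨_, rfl⟩
  have p0 : pf ((f.map C).ev Q) 0 1 2 3 = 0 := by simp only [pf, h1, h2, h3]; ring
  have p1 : pf ((f.map C).ev Q) 0 1 2 4 = 0 := by simp only [pf, h1, h2, h4]; ring
  have p2 : pf ((f.map C).ev Q) 0 1 3 4 = 0 := by simp only [pf, h1, h3, h4]; ring
  have p3 : pf ((f.map C).ev Q) 0 2 3 4 = X * c := by simp only [hc, pf, h2, h3, h4]; ring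
  by_cases h0 : (fun k => (Q k).coeff d) = 0
  · rcases d with _ | d
    · refine absurd (funext fun k => ?_) hQ
      rw [eq_C_of_natDegree_le_zero (hd k), show (Q k).coeff 0 = 0 from congrFun h0 k]
      simp
    · exact ih d d.lt_succ_self Q hQ
        (fun k => natDegree_le_pred (hd k) (congrFun h0 k)) h1 ha
  have hdeg : (X * c).natDegree ≤ d + d := by
    have h1 : ∀ a b, ((f.map C).ev Q a b).natDegree ≤ d := fun a b => by
      rw [Model.ev_apply]
      exact natDegree_sum_le_of_forall_le _ _ fun k _ => (natDegree_mul_C_le _ _).trans (hd k)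
    have h2 : ∀ a b a' b', ((f.map C).ev Q a b * (f.map C).ev Q a' b').natDegree ≤ d + d :=
      fun a b a' b' => natDegree_mul_le.trans (add_le_add (h1 _ _) (h1 _ _))
    rw [← p3, pf]
    exact natDegree_add_le_of_degree_le ((natDegree_sub_le _ _).trans (max_le (h2 ..) (h2 ..)))
      (h2 ..)
  by_cases h5 : (X * c).coeff (d + d) = 0
  · refine ⟨_, h0, (rk2_iff (f.ev_diag _) (f.ev_alt _)).2 ?_⟩
    simp only [← pta_coeff f hd, p0, p1, p2, p3, h5, ← hc, coeff_zero, true_and]
    rw [← coeff_X_mul]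
    exact coeff_eq_zero_of_natDegree_lt (Nat.lt_succ_of_le hdeg)
  have hc0 : c ≠ 0 := fun e => h5 (by simp [e])
  have h6 : c.natDegree + 1 = d + d := by
    rw [← natDegree_X_mul hc0]
    exact natDegree_eq_of_le_of_coeff_ne_zero hdeg h5
  obtain ⟨t, ht⟩ := IsAlgClosed.exists_root c (fun e => by
    rw [natDegree_eq_of_degree_eq_some (n := 0) e] at h6
    omega)
  by_cases h7 : Q.map (evalRingHom t) = 0
  · choose Q' hQ' using fun k => dvd_iff_isRoot.2 (show (Q k).IsRoot t from congrFun h7 k)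
    have e : Q = (X - C t) • Q' := funext hQ'
    have hX := X_sub_C_ne_zero t
    rw [e, Model.ev_smul] at h1 ha
    refine ih (d - 1) (by omega) Q' (fun e' => hQ (by rw [e, e', smul_zero])) (fun k => ?_)
      ((mul_eq_zero.1 h1).resolve_left hX) fun a => (ha a).imp_left fun h => ?_
    · by_cases hk : Q' k = 0
      · simp [hk]
      · have := hd k
        rw [hQ', natDegree_mul hX hk, natDegree_X_sub_C] at this
        omega
    · refine mul_left_cancel₀ hX ?_
      simp only [Matrix.smul_apply, smul_eq_mul] at h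
      rw [h]; ring
  · refine ⟨_, h7, (rk2_iff (f.ev_diag _) (f.ev_alt _)).2 ?_⟩
    have e : f.ev (Q.map (evalRingHom t)) = ((f.map C).ev Q).map (evalRingHom t) := by
      ext i j; simp [Model.ev_apply, eval_finsetSum]
    simp only [e, pf_map, p0, p1, p2, p3, ← hc]
    simpa using ⟨Or.inr ht, ht⟩

/-- Every model has a point over an algebraically closed field. -/
theorem exists_point [IsAlgClosed L] (f : Model L) : ∃ Q : Pt L, Q ≠ 0 ∧ Rk2 (f.ev Q) := by
  let N : Matrix (Fin 4) (Fin 5) L[X] := of fun r k =>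
    ![C (f.c k 0 1), C (f.c k 0 2) - X * C (f.c k 1 2), C (f.c k 0 3) - X * C (f.c k 1 3),
      C (f.c k 0 4) - X * C (f.c k 1 4)] r
  obtain ⟨Q, hQ, hQ0⟩ : ∃ Q, N.mulVecLin Q = 0 ∧ Q ≠ 0 := by
    by_contra h
    have := LinearMap.finrank_le_finrank_of_injective (f := N.mulVecLin)
      ((injective_iff_map_eq_zero _).2 fun Q hQ => by_contra fun h0 => h ⟨Q, hQ, h0⟩)
    simp at this
  have e0 := congrFun hQ 0
  have e1 := congrFun hQ 1
  have e2 := congrFun hQ 2
  have e3 := congrFun hQ 3
  simp [N, mulVec, dotProduct, Fin.sum_univ_five] at e0 e1 e2 e3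
  refine pta_step f (Finset.univ.sup fun k => (Q k).natDegree) Q hQ0
    (fun k => Finset.le_sup (f := fun k => (Q k).natDegree) (Finset.mem_univ k)) ?_ fun a => ?_
  · simp only [Model.ev_apply, Fin.sum_univ_five, Model.map_c]
    linear_combination e0
  · fin_cases a
    · exact Or.inr (Or.inl rfl)
    · exact Or.inr (Or.inr rfl)
    all_goals
      left
      simp only [Model.ev_apply, Fin.sum_univ_five, Model.map_c, Fin.reduceFinMk]
    · linear_combination e1
    · linear_combination e2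
    · linear_combination e3

end SelAvg.FF.T5
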