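import Pool.Agent.H34P.ParA
import Pool.Agent.H34P.PtA

/-! Standard position over valuation rings. -/

namespace SelAvg.FF.T5

open WeierstrassCurve Matrix Polynomial

variable {R S : Type*} [CommRing R] [CommRing S]

/-- a vector with a unit coordinate is a row of an invertible matrix; the other rows are
standard basis vectors -/
lemma parb_row {v : Pt R} {i : Fin 5} (hv : IsUnit (v i)) (k : Fin 5) :
    ∃ B : Matrix (Fin 5) (Fin 5) R, IsUnit B.det ∧ B k = v ∧
      ∀ r, r ≠ k → r ≠ i → B r = Pi.single r 1 := by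
  have hd : ((1 : Matrix (Fin 5) (Fin 5) R).updateRow i v).det = v i := by
    have h := det_updateRow_sum (1 : Matrix (Fin 5) (Fin 5) R) i v
    have e : (∑ k, v k • (1 : Matrix (Fin 5) (Fin 5) R) k) = v := by
      funext j; simp [Finset.sum_apply, one_apply]
    rw [e] at h
    simpa using h
  refine ⟨((1 : Matrix (Fin 5) (Fin 5) R).updateRow i v).submatrix (Equiv.swap k i) id, ?_, ?_, ?_⟩
  · rw [det_permute, hd]
    exact ((Equiv.Perm.sign (Equiv.swap k i)).isUnit.map (Int.castRingHom R)).mul hv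
  · funext j; simp
  · intro r h1 h2
    funext j
    simp [Equiv.swap_apply_of_ne_of_ne h1 h2, updateRow_ne h2, one_apply, Pi.single_apply, eq_comm]

/-- an alternating matrix of rank two with a unit entry is congruent to the elementary one -/
lemma parb_alt {M : Matrix (Fin 5) (Fin 5) R} (hd : ∀ i, M i i = 0) (ha : ∀ i j, M j i = -M i j)
    (h : Rk2 M) {i j : Fin 5} (hij : i ≠ j) (hu : IsUnit (M i j)) :
    ∃ A : Matrix (Fin 5) (Fin 5) R, IsUnit A.det ∧ (A * M * Aᵀ) 3 4 = M i j ∧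
      ∀ a b : Fin 5, a.1 ≤ 2 → (A * M * Aᵀ) a b = 0 := by
  obtain ⟨σ, h3, h4⟩ : ∃ σ : Equiv.Perm (Fin 5), σ 3 = i ∧ σ 4 = j := by
    have h1 : Equiv.swap 3 i j ≠ 3 := fun e => hij (by
      have := congrArg (Equiv.swap 3 i) e
      simpa using this.symm)
    refine ⟨Equiv.swap 3 i * Equiv.swap 4 (Equiv.swap 3 i j), ?_, by simp⟩
    rw [Equiv.Perm.mul_apply, Equiv.swap_apply_of_ne_of_ne (by decide) h1.symm]
    simp
  set N := M.submatrix σ σ with hN
  set P := (1 : Matrix (Fin 5) (Fin 5) R).submatrix σ id with hP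
  have hPN : P * M * Pᵀ = N := by
    ext a b; simp [hP, hN, mul_apply, one_apply]
  have hPd : IsUnit P.det := by
    rw [hP, det_permute, det_one, mul_one]
    exact (Equiv.Perm.sign σ).isUnit.map (Int.castRingHom R)
  have nd : ∀ i, N i i = 0 := fun i => hd _
  have na : ∀ i j, N j i = -N i j := fun i j => ha _ _
  have nr : Rk2 N := fun a b c d => h _ _ _ _
  have n34 : N 3 4 = M i j := by simp [hN, h3, h4]
  rw [← n34] at hu ⊢
  clear_value N P
  let A₁ : Matrix (Fin 5) (Fin 5) R :=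
    !![N 3 4, 0, 0, -N 0 4, N 0 3; 0, N 3 4, 0, -N 1 4, N 1 3; 0, 0, N 3 4, -N 2 4, N 2 3;
      0, 0, 0, 1, 0; 0, 0, 0, 0, 1]
  have hA : A₁.det = N 3 4 ^ 3 := by
    simp [A₁, det_succ_column_zero, Fin.sum_univ_succ, Fin.succAbove]; ring
  have e : A₁ * P * M * (A₁ * P)ᵀ = A₁ * N * A₁ᵀ := by
    rw [← hPN, transpose_mul]; simp only [Matrix.mul_assoc]
  have row : ∀ a c : Fin 5, a.1 ≤ 2 → (A₁ * N) a c = 0 := by
    intro a c h2
    have k := nr 3 4 a c
    rw [pf, na a 3, na a 4] at k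
    have : (A₁ * N) a c = N 3 4 * N a c - N a 4 * N 3 c + N a 3 * N 4 c := by
      fin_cases a
      · simp [A₁, mul_apply, Fin.sum_univ_five]; ring
      · simp [A₁, mul_apply, Fin.sum_univ_five]; ring
      · simp [A₁, mul_apply, Fin.sum_univ_five]; ring
      · simp at h2
      · simp at h2
    rw [this]; linear_combination k
  refine ⟨A₁ * P, ?_, ?_, ?_⟩
  · rw [det_mul, hA]; exact (hu.pow 3).mul hPd
  · rw [e]; simp [A₁, mul_apply, vecMul, dotProduct, Fin.sum_univ_five]
  · intro a b h2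
    rw [e, mul_apply]
    exact Finset.sum_eq_zero fun c _ => by rw [row a c h2, zero_mul]

section Val

variable {O : Type*} [CommRing O] [IsDomain O] [ValuationRing O]

/-- over a valuation ring a vector is a multiple of one with a coordinate `1` -/
lemma parb_prim {ι : Type*} [Fintype ι] [Nonempty ι] (v : ι → O) :
    ∃ (m : O) (w : ι → O) (i : ι), v = m • w ∧ w i = 1 := by
  classical
  have key : ∀ s : Finset ι, s.Nonempty → ∃ i, ∀ j ∈ s, v i ∣ v j := by
    intro s hs
    induction hs using Finset.Nonempty.cons_induction with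
    | singleton a => exact ⟨a, by simp⟩
    | cons a s ha hs ih =>
      obtain ⟨i, hi⟩ := ih
      rcases ValuationRing.dvd_total (v i) (v a) with h | h
      · exact ⟨i, fun j hj => by
          rcases Finset.mem_cons.1 hj with rfl | hj
          exacts [h, hi j hj]⟩
      · exact ⟨a, fun j hj => by
          rcases Finset.mem_cons.1 hj with rfl | hj
          exacts [dvd_rfl, h.trans (hi j hj)]⟩
  obtain ⟨i, hi⟩ := key Finset.univ Finset.univ_nonempty
  choose w hw using fun j => hi j (Finset.mem_univ j)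
  refine ⟨v i, Function.update w i 1, i, ?_, by simp⟩
  funext j
  by_cases h : j = i
  · subst h; simp
  · simp [Function.update_of_ne h, ← hw j]

lemma parb_alt_val {M : Matrix (Fin 5) (Fin 5) O} (hd : ∀ i, M i i = 0)
    (ha : ∀ i j, M j i = -M i j) (h : Rk2 M) :
    ∃ A : Matrix (Fin 5) (Fin 5) O, IsUnit A.det ∧
      ∀ a b : Fin 5, a.1 ≤ 2 → (A * M * Aᵀ) a b = 0 := by
  obtain ⟨m, w, p, e, hw⟩ := parb_prim fun p => M (pI p) (pJ p)
  have hM : M = m • altM w := by
    rw [← altM_eq hd ha, e]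
    ext i j; fin_cases i <;> fin_cases j <;> simp [altM]
  by_cases hm : m = 0
  · exact ⟨1, by simp, fun a b _ => by simp [hM, hm]⟩
  have hr : Rk2 (altM w) := fun i j k l => by
    have := h i j k l
    rw [hM, pf_smul] at this
    exact (mul_eq_zero.1 this).resolve_left (pow_ne_zero 2 hm)
  obtain ⟨A, hA, -, h0⟩ := parb_alt (altM_diag w) (altM_alt w) hr (i := pI p) (j := pJ p)
    ((by decide : ∀ p, pI p ≠ pJ p) p) (by rw [altM_pI, hw]; exact isUnit_one)
  exact ⟨A, hA, fun a b h2 => by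
    rw [hM, Matrix.mul_smul, Matrix.smul_mul, Matrix.smul_apply, h0 a b h2, smul_zero]⟩

/-- a tangent direction -/
lemma parb_tan (f : Model O) : ∃ (b : Pt O) (i : Fin 5), b 0 = 0 ∧ b i = 1 ∧ f.ev b 0 1 = 0 ∧
    f.ev b 0 2 = 0 ∧ f.ev b 1 2 = 0 := by
  let K : Matrix (Fin 5) (Fin 5) O :=
    of fun k => ![f.c k 0 1, f.c k 0 2, f.c k 1 2, (Pt.std : Pt O) k, 0]
  obtain ⟨v, hv, hK⟩ := (exists_vecMul_eq_zero_iff (M := K)).2
    (det_eq_zero_of_column_eq_zero 4 fun k => rfl)
  obtain ⟨m, b, i, rfl, hb⟩ := parb_prim v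
  have hm : m ≠ 0 := fun h => hv (by simp [h])
  rw [smul_vecMul] at hK
  have hK' : ∀ j, (b ᵥ* K) j = 0 := fun j =>
    (mul_eq_zero.1 (congrFun hK j)).resolve_left hm
  refine ⟨b, i, ?_, hb, ?_, ?_, ?_⟩
  · simpa [K, vecMul, dotProduct, Fin.sum_univ_five] using hK' 3
  · simpa [K, vecMul, dotProduct, Model.ev_apply] using hK' 0
  · simpa [K, vecMul, dotProduct, Model.ev_apply] using hK' 1
  · simpa [K, vecMul, dotProduct, Model.ev_apply] using hK' 2

/-- if `Φ(e₀)` has the standard shape, a change of the other coordinates gives standard position -/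
lemma parb_std (f : Model O) (h0 : ∀ a b : Fin 5, a.1 ≤ 2 → f.c 0 a b = 0) :
    ∃ B : Matrix (Fin 5) (Fin 5) O, IsUnit B.det ∧ B 0 = Pt.std ∧ (f.act 1 B).Std := by
  obtain ⟨b, i, b0, bi, e1, e2, e3⟩ := parb_tan f
  have hi : (0 : Fin 5) ≠ i := fun h => by rw [← h, b0] at bi; exact zero_ne_one bi
  obtain ⟨B, hB, B1, Br⟩ := parb_row (v := b) (i := i) (by rw [bi]; exact isUnit_one) 1
  have B0 := Br 0 (by decide) hi
  have c0 : (f.act 1 B).c 0 = f.c 0 := by rw [Model.act_c, B0, Model.ev_single]; simp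
  have c1 : (f.act 1 B).c 1 = f.ev b := by rw [Model.act_c, B1]; simp
  refine ⟨B, hB, ?_, ?_⟩
  · rw [B0]; funext j; fin_cases j <;> simp
  · constructor <;> first | (rw [c0]; exact h0 _ _ (by decide)) | (rw [c1]; assumption)

/-- standard position over a valuation ring, for a point with a unit coordinate -/
theorem exists_std_unit (f : Model O) {Q : Pt O} (hQ : ∃ i, IsUnit (Q i)) (h : Rk2 (f.ev Q)) :
    ∃ A B : Matrix (Fin 5) (Fin 5) O, IsUnit A.det ∧ IsUnit B.det ∧ B 0 = Q ∧ (f.act A B).Std := by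
  obtain ⟨i, hi⟩ := hQ
  obtain ⟨B₀, hB₀, e₀, -⟩ := parb_row hi 0
  obtain ⟨A, hA, h0⟩ := parb_alt_val (f.ev_diag Q) (f.ev_alt Q) h
  obtain ⟨B, hB, e, hs⟩ := parb_std (f.act A B₀) fun a b h2 => by
    rw [Model.act_c, e₀]; exact h0 a b h2
  rw [Model.act_act, Matrix.one_mul] at hs
  refine ⟨A, B * B₀, hA, by rw [det_mul]; exact hB.mul hB₀, ?_, hs⟩
  funext j
  simp [mul_apply, Fin.sum_univ_five, e, ← e₀]

/-- the same with elements of `GL₅` -/
theorem exists_std_GL (f : Model O) {Q : Pt O} (hQ : ∃ i, IsUnit (Q i)) (h : Rk2 (f.ev Q)) :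
    ∃ A B : GL (Fin 5) O, B.1 0 = Q ∧ (f.act A.1 B.1).Std := by
  obtain ⟨A, B, hA, hB, e, hs⟩ := exists_std_unit f hQ h
  exact ⟨GeneralLinearGroup.mk'' A hA, GeneralLinearGroup.mk'' B hB, e, hs⟩

/-- a point over the fraction field is proportional to a point with a coordinate `1` -/
lemma exists_prim_val {L : Type*} [Field L] [Algebra O L] [IsFractionRing O L] {Q : Pt L}
    (hQ : Q ≠ 0) : ∃ (t : L) (P : Pt O) (i : Fin 5), t ≠ 0 ∧ P i = 1 ∧
      Pt.map (algebraMap O L) P = t • Q := by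
  obtain ⟨b, hb⟩ := IsLocalization.exist_integer_multiples_of_finite (nonZeroDivisors O) Q
  choose v hv using hb
  obtain ⟨m, w, i, rfl, hw⟩ := parb_prim v
  have hb0 : algebraMap O L b ≠ 0 :=
    IsFractionRing.to_map_ne_zero_of_mem_nonZeroDivisors b.2
  have hv' : ∀ j, algebraMap O L m * algebraMap O L (w j) = algebraMap O L b * Q j := fun j => by
    simpa [Algebra.smul_def] using hv j
  have hm : algebraMap O L m ≠ 0 := fun h => hQ (funext fun j => by
    have := hv' j
    rw [h, zero_mul] at this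
    exact (mul_eq_zero.1 this.symm).resolve_left hb0)
  refine ⟨algebraMap O L b / algebraMap O L m, w, i, div_ne_zero hb0 hm, hw, funext fun j => ?_⟩
  change algebraMap O L (w j) = algebraMap O L b / algebraMap O L m * Q j
  field_simp
  linear_combination hv' j

/-- standard position over a valuation ring, for a point over the fraction field -/
theorem exists_std_val {L : Type*} [Field L] [Algebra O L] [IsFractionRing O L] (f : Model O)
    {Q : Pt L} (hQ : Q ≠ 0) (h : Rk2 ((f.map (algebraMap O L)).ev Q)) :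
    ∃ A B : GL (Fin 5) O, (f.act A.1 B.1).Std ∧
      ∃ t : L, t ≠ 0 ∧ Pt.map (algebraMap O L) (B.1 0) = t • Q := by
  obtain ⟨t, P, i, ht, hP, e⟩ := exists_prim_val (O := O) hQ
  have hr : Rk2 (f.ev P) := fun a b c d => IsFractionRing.injective O L (by
    rw [← pf_map, ← Model.ev_map, e, Model.ev_smul, pf_smul, h, mul_zero, map_zero])
  obtain ⟨A, B, hB, hs⟩ := exists_std_GL f ⟨i, by rw [hP]; exact isUnit_one⟩ hr
  exact ⟨A, B, hs, t, ht, by rw [hB, e]⟩

end Val

/-- standard position over a field -/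
theorem exists_std_field {L : Type*} [Field L] (f : Model L) {Q : Pt L} (hQ : Q ≠ 0)
    (h : Rk2 (f.ev Q)) : ∃ A B : GL (Fin 5) L, B.1 0 = Q ∧ (f.act A.1 B.1).Std := by
  obtain ⟨i, hi⟩ := Function.ne_iff.1 hQ
  exact exists_std_GL f ⟨i, Ne.isUnit hi⟩ h

end SelAvg.FF.T5
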