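import Pool.Agent.H34P.SepA
import Pool.Agent.H34P.ParB
import Pool.Agent.H38Sel.Desc

/-! Points over the separable closure. -/

namespace SelAvg.FF.T5

open WeierstrassCurve Matrix

universe u

theorem soluble_of_isSepClosed {L : Type u} [Field L] [IsSepClosed L] {f : Model L}
    (hΔ : f.jac.Δ ≠ 0) : f.Soluble := by
  obtain ⟨Q, hQ, h⟩ := exists_point (f.map (algebraMap L (AlgebraicClosure L)))
  obtain ⟨A, B, -, hs⟩ := exists_std_field _ hQ h
  exact soluble_of_std_Δ hΔ A.det_ne_zero B.det_ne_zero hs

/-- A nonsingular model has a point over the separable closure. -/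
lemma exists_sep_point {K : Type u} [Field K] {f : Model K} (hΔ : f.jac.Δ ≠ 0) :
    (f.map (toSep K)).Soluble :=
  soluble_of_isSepClosed (by rwa [Model.jac_map, map_Δ, _root_.map_ne_zero])

end SelAvg.FF.T5
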