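import Pool.Agent.H34P.Inv

/-!
The Jacobian of a degree five model, the group `GL₅ × GL₅`, objects, points and the difference map.
-/

namespace SelAvg.FF.T5

open WeierstrassCurve Matrix
open T3 (Free freeEv freeEv_X wsc_map wsc_wsc wsc_one wsc_wsh wsh_map)

variable {R S : Type*} [CommRing R] [CommRing S]

/-- in characteristic zero `c₄` and `c₆` determine the equation up to a shift -/
theorem exists_vc_of_c {R : Type*} [CommRing R] [IsDomain R] [IsIntegrallyClosed R] [CharZero R]
    {W W' : WeierstrassCurve R} (h4 : W'.c₄ = W.c₄) (h6 : W'.c₆ = W.c₆) :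
    ∃ C : VariableChange R, C.u = 1 ∧ W' = C • W := by
  have key : ∀ {L : Type _} [Field L] [CharZero L] {V V' : WeierstrassCurve L}, V'.c₄ = V.c₄ →
      V'.c₆ = V.c₆ → ∃ r s t : L, wsh r s t • V = V' := by
    intro L _ _ V V' e4 e6
    refine ⟨(V'.b₂ - V.b₂) / 12, (V'.a₁ - V.a₁) / 2,
      (V'.a₃ - V.a₃ - (V'.b₂ - V.b₂) / 12 * V.a₁) / 2, ?_⟩
    simp only [c₄, c₆, b₂, b₄, b₆] at e4 e6
    ext
    · simp only [wsh, variableChange_a₁, inv_one, Units.val_one]; ring
    · simp only [wsh, variableChange_a₂, inv_one, Units.val_one, b₂]; ring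
    · simp only [wsh, variableChange_a₃, inv_one, Units.val_one]; ring
    · simp only [wsh, variableChange_a₄, inv_one, Units.val_one, b₂]
      linear_combination (1 / 48 : L) * e4
    · simp only [wsh, variableChange_a₆, inv_one, Units.val_one, b₂]
      linear_combination (1 / 864 : L) * e6 + ((V'.a₁ ^ 2 + 4 * V'.a₂) / 576 : L) * e4
  have : CharZero (FractionRing R) :=
    charZero_of_injective_algebraMap (IsFractionRing.injective R (FractionRing R))
  obtain ⟨r, s, t, h⟩ := key (V := W.map (algebraMap R (FractionRing R)))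
    (V' := W'.map (algebraMap R (FractionRing R))) (by simp [h4]) (by simp [h6])
  obtain ⟨C, hC, h'⟩ := vc_integral (R := R) (L := FractionRing R) 1 (by simp [wsh]) h
  refine ⟨C, ?_, h'.symm⟩
  have hu := congrArg (fun C : VariableChange (FractionRing R) => (C.u : FractionRing R)) hC
  ext1
  apply IsFractionRing.injective R (FractionRing R)
  simpa [VariableChange.map, wsh] using hu

/-- in a domain of characteristic zero a shift is determined by its effect -/
lemma vc_unique [IsDomain R] [CharZero R] {W : WeierstrassCurve R} {C C' : VariableChange R}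
    (hu : C.u = C'.u) (h : C • W = C' • W) : C = C' := by
  have e1 := congrArg WeierstrassCurve.a₁ h
  have e2 := congrArg WeierstrassCurve.a₂ h
  have e3 := congrArg WeierstrassCurve.a₃ h
  simp only [variableChange_a₁, variableChange_a₂, variableChange_a₃, hu, Units.mul_right_inj,
    ← Units.val_pow_eq_pow_val] at e1 e2 e3
  have hs : C.s = C'.s := mul_left_cancel₀ (two_ne_zero (α := R)) (by linear_combination e1)
  rw [hs] at e2
  have hr : C.r = C'.r := mul_left_cancel₀ (by norm_num : (3 : R) ≠ 0) (by linear_combination e2)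
  rw [hr] at e3
  have ht : C.t = C'.t := mul_left_cancel₀ (two_ne_zero (α := R)) (by linear_combination e3)
  exact VariableChange.ext hu hr hs ht

lemma wsc_c₄ (u : R) (W : WeierstrassCurve R) : (wsc u W).c₄ = u ^ 4 * W.c₄ := by
  simp only [wsc, c₄, b₂, b₄]; ring

lemma wsc_c₆ (u : R) (W : WeierstrassCurve R) : (wsc u W).c₆ = u ^ 6 * W.c₆ := by
  simp only [wsc, c₆, b₂, b₄, b₆]; ring

lemma wsc_Δ (u : R) (W : WeierstrassCurve R) : (wsc u W).Δ = u ^ 12 * W.Δ := by
  simp only [wsc, Δ, b₂, b₄, b₆, b₈]; ring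

/-- the universal Jacobian -/
noncomputable def uW : WeierstrassCurve UV := exists_jac_univ.choose

/-- the Weierstrass equation of the Jacobian -/
noncomputable def Model.jac (f : Model R) : WeierstrassCurve R := uW.map (evV f)

lemma Model.jac_map (φ : R →+* S) (f : Model R) : (f.map φ).jac = f.jac.map φ := by
  rw [Model.jac, Model.jac, WeierstrassCurve.map_map, comp_evV]

/-- the specialisation of the universal data -/
noncomputable def univEv (A B : Matrix (Fin 5) (Fin 5) R) (f : Model R) : Univ →+* R :=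
  MvPolynomial.eval₂Hom (Int.castRingHom R)
    (Sum.elim (fun p => A p.1 p.2) (Sum.elim (fun p => B p.1 p.2) (fun k => Model.equivVec f k)))

lemma univA_map (A B : Matrix (Fin 5) (Fin 5) R) (f : Model R) : univA.map (univEv A B f) = A := by
  ext i j; simp [univA, univEv]

lemma univB_map (A B : Matrix (Fin 5) (Fin 5) R) (f : Model R) : univB.map (univEv A B f) = B := by
  ext i j; simp [univB, univEv]

lemma univF_map (A B : Matrix (Fin 5) (Fin 5) R) (f : Model R) : univF.map (univEv A B f) = f := by
  rw [univF, Model.equivVec_symm_map]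
  simp [univEv]

lemma comp_univEv (φ : R →+* S) (A B : Matrix (Fin 5) (Fin 5) R) (f : Model R) :
    φ.comp (univEv A B f) = univEv (A.map φ) (B.map φ) (f.map φ) := by
  apply MvPolynomial.ringHom_ext
  · intro r; simp [univEv]
  · rintro (p | p | k) <;> simp [univEv, Model.equivVec_map]

theorem exists_sh_univ : ∃ C : VariableChange Univ, C.u = 1 ∧
    (univF.act univA univB).jac = C • wsc (chi univA univB) univF.jac :=
  exists_vc_of_c (by rw [wsc_c₄]; exact exists_jac_univ.choose_spec.act4)
    (by rw [wsc_c₆]; exact exists_jac_univ.choose_spec.act6)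

theorem exists_shS_univ : ∃ C : VariableChange UV, C.u = 1 ∧ uS.jac = C • uS.WS :=
  exists_vc_of_c exists_jac_univ.choose_spec.std4 exists_jac_univ.choose_spec.std6

/-- the lift to the free ring that preserves `0` and `1` -/
noncomputable def lift01 (x : R) : Free R := by
  classical exact if x = 0 then 0 else if x = 1 then 1 else MvPolynomial.X x

@[simp] lemma freeEv_lift01 (x : R) : freeEv R (lift01 x) = x := by
  unfold lift01
  split_ifs with h h' <;> simp [*]

@[simp] lemma lift01_zero : lift01 (0 : R) = 0 := by simp [lift01]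

lemma lift01_one [Nontrivial R] : lift01 (1 : R) = 1 := by simp [lift01]

/-- the lift of a matrix -/
noncomputable def liftM (M : Matrix (Fin 5) (Fin 5) R) : Matrix (Fin 5) (Fin 5) (Free R) :=
  M.map lift01

/-- the lift of a model (zero coordinates stay zero) -/
noncomputable def liftF (f : Model R) : Model (Free R) :=
  Model.equivVec.symm fun k => lift01 (Model.equivVec f k)

lemma liftM_map (M : Matrix (Fin 5) (Fin 5) R) : (liftM M).map (freeEv R) = M := by
  ext i j; simp [liftM]

lemma liftF_map (f : Model R) : (liftF f).map (freeEv R) = f := by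
  rw [liftF, Model.equivVec_symm_map]
  simp

lemma liftF_std {f : Model R} (h : f.Std) : (liftF f).Std :=
  std_iff.2 fun n hn => by simp [liftF, std_iff.1 h n hn]

lemma liftM_par {A B : Matrix (Fin 5) (Fin 5) R} (h : Par A B) : Par (liftM A) (liftM B) := by
  constructor <;> simp [liftM, h.a03, h.a04, h.a13, h.a14, h.a23, h.a24, h.b01, h.b02, h.b03,
    h.b04, h.b12, h.b13, h.b14]

namespace Model

/-- the change of Weierstrass coordinates (with `u = 1`) induced by a substitution -/
noncomputable def sh (A B : Matrix (Fin 5) (Fin 5) R) (f : Model R) : VariableChange R :=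
  exists_sh_univ.choose.map (univEv A B f)

lemma sh_u (A B : Matrix (Fin 5) (Fin 5) R) (f : Model R) : (f.sh A B).u = 1 := by
  simp [sh, VariableChange.map, exists_sh_univ.choose_spec.1]

lemma sh_eq_wsh (A B : Matrix (Fin 5) (Fin 5) R) (f : Model R) :
    f.sh A B = wsh (f.sh A B).r (f.sh A B).s (f.sh A B).t := by
  ext1 <;> simp [wsh, sh_u]

lemma jac_act (A B : Matrix (Fin 5) (Fin 5) R) (f : Model R) :
    (f.act A B).jac = f.sh A B • wsc (chi A B) f.jac := by
  have h := congrArg (fun W => W.map (univEv A B f)) exists_sh_univ.choose_spec.2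
  rw [← jac_map, map_act, ← map_variableChange, wsc_map, ← jac_map, ← chi_map, univA_map,
    univB_map, univF_map] at h
  exact h

lemma sh_map (φ : R →+* S) (A B : Matrix (Fin 5) (Fin 5) R) (f : Model R) :
    (f.map φ).sh (A.map φ) (B.map φ) = (f.sh A B).map φ := by
  rw [sh, sh, VariableChange.map_map, comp_univEv]

lemma sh_unique [IsDomain R] [CharZero R] {A B : Matrix (Fin 5) (Fin 5) R} {f : Model R}
    {C : VariableChange R} (hu : C.u = 1) (h : (f.act A B).jac = C • wsc (chi A B) f.jac) :
    f.sh A B = C :=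
  vc_unique (by rw [sh_u, hu]) ((f.jac_act A B).symm.trans h)

/-- the change of coordinates (with `u = 1`) from `WS` to the Jacobian, in standard position -/
noncomputable def shS (f : Model R) : VariableChange R := exists_shS_univ.choose.map (evV f)

lemma shS_u (f : Model R) : f.shS.u = 1 := by
  simp [shS, VariableChange.map, exists_shS_univ.choose_spec.1]

lemma jac_std {f : Model R} (h : f.Std) : f.jac = f.shS • f.WS := by
  have e := congrArg (fun W => W.map (evV f)) exists_shS_univ.choose_spec.2
  rw [← jac_map, ← map_variableChange, ← WS_map, uS_map h] at e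
  exact e

lemma shS_map (φ : R →+* S) (f : Model R) : (f.map φ).shS = f.shS.map φ := by
  rw [shS, shS, VariableChange.map_map, comp_evV]

lemma shS_unique [IsDomain R] [CharZero R] {f : Model R} (hf : f.Std) {C : VariableChange R}
    (hu : C.u = 1) (h : f.jac = C • f.WS) : f.shS = C :=
  vc_unique (by rw [shS_u, hu]) ((jac_std hf).symm.trans h)

lemma sh_mul (A B A' B' : Matrix (Fin 5) (Fin 5) R) (f : Model R) :
    f.sh (A * A') (B * B') = (f.act A' B').sh A B *
      wsh (chi A B ^ 2 * (f.sh A' B').r) (chi A B * (f.sh A' B').s)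
        (chi A B ^ 3 * (f.sh A' B').t) := by
  have key : ∀ (A B A' B' : Matrix (Fin 5) (Fin 5) (Free R)) (f : Model (Free R)),
      f.sh (A * A') (B * B') = (f.act A' B').sh A B *
        wsh (chi A B ^ 2 * (f.sh A' B').r) (chi A B * (f.sh A' B').s)
          (chi A B ^ 3 * (f.sh A' B').t) := by
    intro A B A' B' f
    apply sh_unique (by simp [VariableChange.mul_def, sh_u, wsh])
    rw [mul_smul, chi_mul, ← wsc_wsc, ← wsc_wsh, ← sh_eq_wsh, ← jac_act, ← jac_act, act_act]
  have h := congrArg (fun C => C.map (freeEv R))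
    (key (liftM A) (liftM B) (liftM A') (liftM B') (liftF f))
  have hr := congrArg VariableChange.r (sh_map (freeEv R) (liftM A') (liftM B') (liftF f))
  have hs := congrArg VariableChange.s (sh_map (freeEv R) (liftM A') (liftM B') (liftF f))
  have ht := congrArg VariableChange.t (sh_map (freeEv R) (liftM A') (liftM B') (liftF f))
  simp only [VariableChange.map_r, VariableChange.map_s, VariableChange.map_t, liftM_map,
    liftF_map] at hr hs ht
  simpa only [← sh_map, Matrix.map_mul, SelAvg.Obj.vc_map_mul, wsh_map, map_mul, map_pow,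
    ← hr, ← hs, ← ht, ← chi_map, map_act, liftM_map, liftF_map] using h

lemma sh_one (f : Model R) : f.sh 1 1 = 1 := by
  have key : (liftF f).sh 1 1 = 1 := sh_unique rfl (by simp)
  have h := congrArg (fun C => C.map (freeEv R)) key
  simp only [← sh_map, liftF_map, Matrix.map_one _ (map_zero _) (map_one _)] at h
  rw [h]; ext <;> simp [VariableChange.map, VariableChange.one_def]

lemma act_smul_smul (t s : R) (f : Model R) :
    f.act (t • 1) (s • 1) = f.act 1 ((t ^ 2 * s) • 1) := by
  ext k i j
  have h1 := act_diagonal (fun _ => t) (fun _ => s) f k i j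
  have h2 := act_diagonal (fun _ => (1 : R)) (fun _ => t ^ 2 * s) f k i j
  rw [diagonal_one] at h2
  rw [smul_one_eq_diagonal, smul_one_eq_diagonal, smul_one_eq_diagonal, h1, h2]
  ring

lemma sh_smul_smul (t s : R) (f : Model R) :
    f.sh (t • 1) (s • 1) = f.sh 1 ((t ^ 2 * s) • 1) := by
  have key : ∀ (t s : Free R) (f : Model (Free R)),
      f.sh (t • 1) (s • 1) = f.sh 1 ((t ^ 2 * s) • 1) := by
    intro t s f
    apply sh_unique (sh_u _ _ _)
    have hc : chi (t • (1 : Matrix (Fin 5) (Fin 5) (Free R))) (s • 1) = chi 1 ((t ^ 2 * s) • 1) := by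
      simp only [chi, det_smul, det_one, Fintype.card_fin]; ring
    rw [act_smul_smul, jac_act, hc]
  have h := congrArg (fun C => C.map (freeEv R))
    (key (MvPolynomial.X t) (MvPolynomial.X s) (liftF f))
  simpa only [← sh_map, liftF_map, smul_one_eq_diagonal, diagonal_map (map_zero _), map_mul,
    map_pow, freeEv_X, Matrix.map_one _ (map_zero _) (map_one _)] using h

lemma c₄_act (A B : Matrix (Fin 5) (Fin 5) R) (f : Model R) :
    (f.act A B).jac.c₄ = chi A B ^ 4 * f.jac.c₄ := by
  rw [jac_act, variableChange_c₄, sh_u, wsc_c₄]; simp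

lemma c₆_act (A B : Matrix (Fin 5) (Fin 5) R) (f : Model R) :
    (f.act A B).jac.c₆ = chi A B ^ 6 * f.jac.c₆ := by
  rw [jac_act, variableChange_c₆, sh_u, wsc_c₆]; simp

lemma Δ_act (A B : Matrix (Fin 5) (Fin 5) R) (f : Model R) :
    (f.act A B).jac.Δ = chi A B ^ 12 * f.jac.Δ := by
  rw [jac_act, variableChange_Δ, sh_u, wsc_Δ]; simp

lemma c₄_std {f : Model R} (h : f.Std) : f.jac.c₄ = f.lam ^ 4 * f.cub.jac.c₄ := by
  rw [jac_std h, variableChange_c₄, shS_u, WS, wsc_c₄]; simp

lemma c₆_std {f : Model R} (h : f.Std) : f.jac.c₆ = f.lam ^ 6 * f.cub.jac.c₆ := by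
  rw [jac_std h, variableChange_c₆, shS_u, WS, wsc_c₆]; simp

lemma Δ_std {f : Model R} (h : f.Std) : f.jac.Δ = f.lam ^ 12 * f.cub.jac.Δ := by
  rw [jac_std h, variableChange_Δ, shS_u, WS, wsc_Δ]; simp

end Model

/-- `A` acts on the alternating matrices, `M` on the variables -/
@[ext] structure G (R : Type*) [CommRing R] where
  A : GL (Fin 5) R
  M : GL (Fin 5) R

namespace G

/-- the entries of `A` -/
abbrev a (g : G R) : Matrix (Fin 5) (Fin 5) R := g.A.1

/-- the entries of `M` -/
abbrev e (g : G R) : Matrix (Fin 5) (Fin 5) R := g.M.1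

/-- the character `det A ^ 2 * det M` as a unit -/
def det (g : G R) : Rˣ :=
  Matrix.GeneralLinearGroup.det g.A ^ 2 * Matrix.GeneralLinearGroup.det g.M

lemma det_val (g : G R) : (g.det : R) = chi g.a g.e := by simp [det, chi]

instance : One (G R) := ⟨⟨1, 1⟩⟩
instance : Mul (G R) := ⟨fun g h => ⟨g.A * h.A, g.M * h.M⟩⟩
instance : Inv (G R) := ⟨fun g => ⟨g.A⁻¹, g.M⁻¹⟩⟩

def ofA (A : GL (Fin 5) R) : G R := ⟨A, 1⟩

def ofM (M : GL (Fin 5) R) : G R := ⟨1, M⟩

@[simp] lemma one_A : (1 : G R).A = 1 := rfl
@[simp] lemma one_M : (1 : G R).M = 1 := rfl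
@[simp] lemma mul_A (g h : G R) : (g * h).A = g.A * h.A := rfl
@[simp] lemma mul_M (g h : G R) : (g * h).M = g.M * h.M := rfl
@[simp] lemma inv_A (g : G R) : g⁻¹.A = g.A⁻¹ := rfl
@[simp] lemma inv_M (g : G R) : g⁻¹.M = g.M⁻¹ := rfl
@[simp] lemma ofA_A (A : GL (Fin 5) R) : (ofA A).A = A := rfl
@[simp] lemma ofA_M (A : GL (Fin 5) R) : (ofA A).M = 1 := rfl
@[simp] lemma ofM_A (M : GL (Fin 5) R) : (ofM M).A = 1 := rfl
@[simp] lemma ofM_M (M : GL (Fin 5) R) : (ofM M).M = M := rfl

instance : Group (G R) := Group.ofLeftAxioms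
  (fun _ _ _ => G.ext (mul_assoc _ _ _) (mul_assoc _ _ _))
  (fun _ => G.ext (one_mul _) (one_mul _))
  (fun _ => G.ext (inv_mul_cancel _) (inv_mul_cancel _))

lemma decomp (g : G R) : g = ofA g.A * ofM g.M := G.ext (by simp) (by simp)

@[simp] lemma det_mul (g h : G R) : (g * h).det = g.det * h.det := by
  simp only [det, mul_A, mul_M, map_mul, mul_pow]; exact mul_mul_mul_comm _ _ _ _
@[simp] lemma det_one : (1 : G R).det = 1 := by simp [det]
@[simp] lemma det_inv (g : G R) : g⁻¹.det = g.det⁻¹ := by
  rw [eq_inv_iff_mul_eq_one, ← det_mul, inv_mul_cancel, det_one]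

/-- the scalar `t` as an invertible matrix -/
def scM (t : Rˣ) : GL (Fin 5) R := Matrix.GeneralLinearGroup.scalar (Fin 5) t

/-- the scalars, which act trivially -/
def scalar (t : Rˣ) : G R := ⟨scM t, scM (t⁻¹ ^ 2)⟩

@[simp] lemma scalar_A (t : Rˣ) : (scalar t).A = scM t := rfl
@[simp] lemma scalar_M (t : Rˣ) : (scalar t).M = scM (t⁻¹ ^ 2) := rfl

lemma scM_val (t : Rˣ) : (scM t).1 = diagonal fun _ : Fin 5 => (t : R) := by
  simp [scM]

lemma scM_val' (t : Rˣ) : (scM t).1 = (t : R) • (1 : Matrix (Fin 5) (Fin 5) R) := by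
  rw [scM_val, smul_one_eq_diagonal]

lemma scM_mul (t t' : Rˣ) : scM (t * t') = scM t * scM t' := by simp [scM]
@[simp] lemma scM_one : scM (1 : Rˣ) = 1 := by simp [scM]
lemma scM_comm (t : Rˣ) (M : GL (Fin 5) R) : scM t * M = M * scM t := by
  ext1; simp [scM_val']

lemma det_scM (t : Rˣ) : Matrix.GeneralLinearGroup.det (scM t) = t ^ 5 := by
  ext1; simp [scM_val]

lemma scalar_mul (t t' : Rˣ) : scalar (t * t') = scalar t * scalar t' :=
  G.ext (by simp [scM_mul]) (by simp [← scM_mul, mul_pow, mul_comm])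

@[simp] lemma scalar_one : scalar (1 : Rˣ) = 1 := G.ext (by simp) (by simp)

lemma scalar_comm (t : Rˣ) (g : G R) : scalar t * g = g * scalar t :=
  G.ext (by simp [scM_comm]) (by simp only [mul_M, scalar_M, scM_comm])

lemma scalar_injective : Function.Injective (scalar : Rˣ → G R) := by
  intro t t' h
  have := congrArg (fun g : G R => g.a 0 0) h
  ext1
  simpa [a, scM_val] using this

lemma det_scalar (t : Rˣ) : (scalar t).det = 1 := by
  rw [det, scalar_A, scalar_M, det_scM, det_scM]; group

/-- base change of group elements -/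
def map (φ : R →+* S) : G R →* G S where
  toFun g := ⟨Matrix.GeneralLinearGroup.map φ g.A, Matrix.GeneralLinearGroup.map φ g.M⟩
  map_one' := G.ext (by simp) (by simp)
  map_mul' g h := G.ext (by simp) (by simp)

@[simp] lemma map_A (φ : R →+* S) (g : G R) :
    (map φ g).A = Matrix.GeneralLinearGroup.map φ g.A := rfl
@[simp] lemma map_M (φ : R →+* S) (g : G R) :
    (map φ g).M = Matrix.GeneralLinearGroup.map φ g.M := rfl
lemma map_a (φ : R →+* S) (g : G R) : (map φ g).a = g.a.map φ := rfl
lemma map_e (φ : R →+* S) (g : G R) : (map φ g).e = g.e.map φ := rfl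
@[simp] lemma map_det (φ : R →+* S) (g : G R) : (map φ g).det = Units.map φ g.det := by
  ext1; simp [det_val, map_a, map_e, chi_map]
lemma map_scM (φ : R →+* S) (t : Rˣ) :
    Matrix.GeneralLinearGroup.map φ (scM t) = scM (Units.map φ t) := by
  ext i j; simp [scM_val, diagonal_apply, apply_ite φ]
@[simp] lemma map_scalar (φ : R →+* S) (t : Rˣ) :
    map φ (scalar t) = scalar (Units.map φ t) :=
  G.ext (map_scM φ t) (by simp only [map_M, scalar_M, map_scM, map_pow, map_inv])

lemma map_map {T : Type*} [CommRing T] (φ : R →+* S) (ψ : S →+* T) (g : G R) :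
    map ψ (map φ g) = map (ψ.comp φ) g :=
  G.ext (by ext i j; rfl) (by ext i j; rfl)

lemma map_injective {φ : R →+* S} (h : Function.Injective φ) : Function.Injective (map φ) := by
  intro g g' e
  refine G.ext ?_ ?_
  · ext i j; exact h (congrArg (fun x : G S => x.a i j) e)
  · ext i j; exact h (congrArg (fun x : G S => x.e i j) e)

/-- the map on points: `g.pt` sends the curve of `g • f` to the curve of `f` -/
def pt (g : G R) (Q : Pt R) : Pt R := Q ᵥ* g.e

lemma mul_pt (g h : G R) (Q : Pt R) : (g * h).pt Q = h.pt (g.pt Q) := by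
  simp [pt, e, vecMul_vecMul]

@[simp] lemma one_pt (Q : Pt R) : (1 : G R).pt Q = Q := by simp [pt, e]

@[simp] lemma inv_pt_pt (g : G R) (Q : Pt R) : g⁻¹.pt (g.pt Q) = Q := by
  rw [← mul_pt, mul_inv_cancel, one_pt]

@[simp] lemma pt_inv_pt (g : G R) (Q : Pt R) : g.pt (g⁻¹.pt Q) = Q := by
  rw [← mul_pt, inv_mul_cancel, one_pt]

lemma pt_sc (g : G R) (t : R) (Q : Pt R) : g.pt (Q.sc t) = (g.pt Q).sc t := by
  simp [pt, smul_vecMul]

lemma scalar_pt (t : Rˣ) (Q : Pt R) : (scalar t).pt Q = Q.sc ((t⁻¹ ^ 2 : Rˣ) : R) := by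
  rw [pt, e, scalar_M, scM_val', vecMul_smul, vecMul_one]

lemma map_pt (φ : R →+* S) (g : G R) (Q : Pt R) : (map φ g).pt (Q.map φ) = (g.pt Q).map φ := by
  funext j; simp [pt, map_e, vecMul, dotProduct]

lemma pt_std (g : G R) : g.pt Pt.std = g.e 0 := by
  funext j; simp [pt, vecMul, dotProduct, Fin.sum_univ_five]

instance : SMul (G R) (Model R) := ⟨fun g f => f.act g.a g.e⟩

lemma smul_def (g : G R) (f : Model R) : g • f = f.act g.a g.e := rfl

instance : MulAction (G R) (Model R) where
  one_smul f := by simp [smul_def, a, e]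
  mul_smul g h f := by simp only [smul_def, Model.act_act]; rfl

lemma map_smul (φ : R →+* S) (g : G R) (f : Model R) : (g • f).map φ = map φ g • f.map φ :=
  Model.map_act φ _ _ f

lemma scalar_smul (t : Rˣ) (f : Model R) : scalar t • f = f := by
  rw [smul_def, a, e, scalar_A, scalar_M, scM_val', scM_val', Model.act_smul_smul]
  simp [← mul_pow]

lemma ev_pt (g : G R) (f : Model R) (Q : Pt R) :
    (g • f).ev Q = g.a * f.ev (g.pt Q) * g.aᵀ := Model.ev_act _ _ f Q

/-- the change of Weierstrass coordinates induced by `g` at `f` -/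
noncomputable def Gam (g : G R) (f : Model R) : VariableChange R :=
  f.sh g.a g.e * wdiag g.det⁻¹

lemma jac_smul (g : G R) (f : Model R) : (g • f).jac = g.Gam f • f.jac := by
  rw [smul_def, Model.jac_act, ← det_val, wsc_unit, Gam, mul_smul]

lemma Gam_u (g : G R) (f : Model R) : (g.Gam f).u = g.det⁻¹ := by
  simp [Gam, wdiag, VariableChange.mul_def, Model.sh_u]

lemma Gam_one (f : Model R) : (1 : G R).Gam f = 1 := by
  rw [Gam, det_one, inv_one]
  change f.sh 1 1 * 1 = 1
  rw [Model.sh_one, mul_one]

lemma Gam_mul (g h : G R) (f : Model R) : (g * h).Gam f = g.Gam (h • f) * h.Gam f := by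
  have he : (g * h).e = g.e * h.e := rfl
  have ha : (g * h).a = g.a * h.a := rfl
  rw [Gam, Gam, Gam, he, ha, Model.sh_mul, smul_def, det_mul, ← det_val,
    Model.sh_eq_wsh h.a h.e f]
  simp only [mul_assoc]
  rw [← mul_assoc (wdiag g.det⁻¹), SelAvg.G.wdiag_inv_mul_wsh, mul_assoc, wdiag_mul, mul_inv]
  rfl

lemma Gam_map (φ : R →+* S) (g : G R) (f : Model R) :
    (map φ g).Gam (f.map φ) = (g.Gam f).map φ := by
  rw [Gam, Gam, map_e, map_a, Model.sh_map, SelAvg.Obj.vc_map_mul, map_det]
  congr 1
  ext <;> simp [wdiag, VariableChange.map]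

lemma Gam_scalar (t : Rˣ) (f : Model R) : (scalar t).Gam f = 1 := by
  have h : ((t : R) ^ 2 * ((t⁻¹ ^ 2 : Rˣ) : R)) = 1 := by simp [← mul_pow]
  rw [Gam, det_scalar, inv_one, a, e, scalar_A, scalar_M, scM_val', scM_val', Model.sh_smul_smul,
    h, one_smul, Model.sh_one]
  exact mul_one 1

/-- block triangular elements -/
abbrev IsPar (g : G R) : Prop := Par g.a g.e

end G

/-- A model together with a change of coordinates; it lies over `W` if `jac f = γ • W`. -/
@[ext] structure Obj (R : Type*) [CommRing R] where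
  f : Model R
  γ : VariableChange R

namespace Obj

def Over (z : Obj R) (W : WeierstrassCurve R) : Prop := z.f.jac = z.γ • W

def map (φ : R →+* S) (z : Obj R) : Obj S := ⟨z.f.map φ, z.γ.map φ⟩

/-- change of the base curve: if `z` lies over `W` then `z.rmul C` lies over `C⁻¹ • W` -/
def rmul (z : Obj R) (C : VariableChange R) : Obj R := ⟨z.f, z.γ * C⟩

noncomputable instance : SMul (G R) (Obj R) := ⟨fun g z => ⟨g • z.f, g.Gam z.f * z.γ⟩⟩

@[simp] lemma smul_f (g : G R) (z : Obj R) : (g • z).f = g • z.f := rfl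
@[simp] lemma smul_γ (g : G R) (z : Obj R) : (g • z).γ = g.Gam z.f * z.γ := rfl
@[simp] lemma map_f (φ : R →+* S) (z : Obj R) : (z.map φ).f = z.f.map φ := rfl
@[simp] lemma map_γ (φ : R →+* S) (z : Obj R) : (z.map φ).γ = z.γ.map φ := rfl
@[simp] lemma rmul_f (z : Obj R) (C : VariableChange R) : (z.rmul C).f = z.f := rfl
@[simp] lemma rmul_γ (z : Obj R) (C : VariableChange R) : (z.rmul C).γ = z.γ * C := rfl

noncomputable instance : MulAction (G R) (Obj R) where
  one_smul z := by ext1 <;> simp [G.Gam_one]
  mul_smul g h z := by ext1 <;> simp [mul_smul, G.Gam_mul, mul_assoc]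

lemma Over.smul {z : Obj R} {W : WeierstrassCurve R} (h : z.Over W) (g : G R) :
    (g • z).Over W := by
  unfold Over at *
  rw [smul_f, smul_γ, G.jac_smul, h, mul_smul]

lemma over_smul_iff {z : Obj R} {W : WeierstrassCurve R} (g : G R) :
    (g • z).Over W ↔ z.Over W :=
  ⟨fun h => by simpa using h.smul g⁻¹, fun h => h.smul g⟩

lemma Over.map {z : Obj R} {W : WeierstrassCurve R} (h : z.Over W) (φ : R →+* S) :
    (z.map φ).Over (W.map φ) := by
  unfold Over at *
  rw [map_f, map_γ, Model.jac_map, h, map_variableChange]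

lemma Over.rmul {z : Obj R} {W : WeierstrassCurve R} {C : VariableChange R}
    (h : z.Over (C • W)) : (z.rmul C).Over W := by
  unfold Over at *
  rw [rmul_f, rmul_γ, h, mul_smul]

lemma vc_map_mul (φ : R →+* S) (C C' : VariableChange R) :
    (C * C').map φ = C.map φ * C'.map φ := (VariableChange.mapHom φ).map_mul C C'

lemma map_smul (φ : R →+* S) (g : G R) (z : Obj R) : (g • z).map φ = G.map φ g • z.map φ := by
  ext1
  · simp [G.map_smul]
  · simp only [map_γ, smul_γ, map_f, G.Gam_map, vc_map_mul]

lemma map_map {T : Type*} [CommRing T] (φ : R →+* S) (ψ : S →+* T) (z : Obj R) :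
    (z.map φ).map ψ = z.map (ψ.comp φ) := by
  ext1
  · rfl
  · simp only [map_γ, VariableChange.map_map]

lemma map_injective {φ : R →+* S} (h : Function.Injective φ) : Function.Injective (Obj.map φ) := by
  intro z z' hz
  ext1
  · exact Model.map_injective h (congrArg Obj.f hz)
  · exact VariableChange.map_injective h (congrArg Obj.γ hz)

lemma smul_rmul (g : G R) (z : Obj R) (C : VariableChange R) :
    g • z.rmul C = (g • z).rmul C := by
  ext1 <;> simp [mul_assoc]

lemma rmul_rmul (z : Obj R) (C C' : VariableChange R) :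
    (z.rmul C).rmul C' = z.rmul (C * C') := by
  ext1 <;> simp [mul_assoc]

@[simp] lemma rmul_one (z : Obj R) : z.rmul 1 = z := by ext1 <;> simp

lemma map_rmul (φ : R →+* S) (z : Obj R) (C : VariableChange R) :
    (z.rmul C).map φ = (z.map φ).rmul (C.map φ) := by
  ext1
  · rfl
  · simp only [map_γ, rmul_γ, vc_map_mul]

lemma scalar_smul (t : Rˣ) (z : Obj R) : G.scalar t • z = z := by
  ext1 <;> simp [G.scalar_smul, G.Gam_scalar]

/-- The projection of an object in standard position: the cubic is scaled by `lam`, so that its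
Jacobian is `WS`. -/
noncomputable def red (z : Obj R) : T3.Obj R := ⟨z.f.cub.scale z.f.lam, z.f.shS⁻¹ * z.γ⟩

/-- the object in standard position with given projection -/
noncomputable def unred (z : T3.Obj R) : Obj R :=
  ⟨Model.unred z.f, (Model.unred z.f).shS * z.γ⟩

end Obj

/-- A group element with integral matrices is integral. -/
theorem G_integral {L : Type*} [Field L] [Algebra R L] [IsFractionRing R L]
    {f f' : Model R} {g : G L} (A M : GL (Fin 5) R)
    (hA : g.A = Matrix.GeneralLinearGroup.map (algebraMap R L) A)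
    (hM : g.M = Matrix.GeneralLinearGroup.map (algebraMap R L) M)
    (h : g • f.map (algebraMap R L) = f'.map (algebraMap R L)) :
    ∃ g₀ : G R, G.map (algebraMap R L) g₀ = g ∧ g₀ • f = f' := by
  have e : G.map (algebraMap R L) ⟨A, M⟩ = g := G.ext hA.symm hM.symm
  refine ⟨⟨A, M⟩, e, Model.map_injective (IsFractionRing.injective R L) ?_⟩
  rw [G.map_smul, e, h]

section Field

open scoped Classical

variable {L L' : Type*} [Field L] [Field L']

namespace Pt

def Prim (Q : Pt L) : Prop := Q ≠ 0

/-- the same point of projective space -/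
def Eqv (Q Q' : Pt L) : Prop := ∃ t : L, t ≠ 0 ∧ Q' = Q.sc t

end Pt

namespace Model

/-- `Q` is a point of the curve -/
structure On (f : Model L) (Q : Pt L) : Prop where
  prim : Q.Prim
  eq : Rk2 (f.ev Q)

/-- the standard point is good -/
structure GoodStd (f : Model L) : Prop where
  std : f.Std
  lam : f.lam ≠ 0
  good : f.cub.Good f.mk'

/-- `Q` is a good point: in standard position its image on the cubic is a good point -/
def Good (f : Model L) (Q : Pt L) : Prop := ∃ g : G L, g.pt Pt.std = Q ∧ (g • f).GoodStd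

/-- the curve has a rational point -/
def Soluble (f : Model L) : Prop := ∃ Q, f.On Q

/-- the flag pattern of the trivial class is reached over `L` -/
def Triv (f : Model L) : Prop := ∃ g : G L, (g • f).Kos

/-- the projection of points, in standard position -/
noncomputable def phi (f : Model L) (Q : Pt L) : T3.Pt L := if Q.tail = 0 then f.mk' else Q.tail

end Model

/-- a group element moving `(f, Q)` to standard position -/
noncomputable def mover (f : Model L) (Q : Pt L) : G L :=
  if h : ∃ g : G L, g.pt Pt.std = Q ∧ (g • f).Std then h.choose else 1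

/-- the difference `Q' - Q` as a point of `W` -/
noncomputable def D (W : WeierstrassCurve L) (z : Obj L) (Q Q' : Pt L) : W.toAffine.Point :=
  T3.D W (mover z.f Q • z).red (mover z.f Q • z).f.mk'
    ((mover z.f Q • z).f.phi ((mover z.f Q)⁻¹.pt Q'))

/-- the covering map -/
noncomputable def piP (W : WeierstrassCurve L) (z : Obj L) (Q : Pt L) : W.toAffine.Point :=
  T3.piP W (mover z.f Q • z).red (mover z.f Q • z).f.mk'

/-- no rational point of order 5 -/
def NoFiveTorsion (W : WeierstrassCurve L) : Prop :=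
  ∀ P : W.toAffine.Point, 5 • P = 0 → P = 0

end Field

end SelAvg.FF.T5
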