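import Pool.Agent.H5T.DescG
import Pool.Agent.H34P.Mod

/-! Galois descent for objects and group elements of degree five; the splitting of cocycles. -/

namespace SelAvg.FF.T5

open WeierstrassCurve Matrix Filter Topology H5T
open scoped Classical

variable {K : Type} [Field K]

lemma desc5_ofin (z : Obj (SeparableClosure K)) :
    ∀ᶠ σ : Gal K in 𝓝 1, z.map (galHom σ) = z := by
  filter_upwards [ev_pm (Model.equivVec z.f), ev_units z.γ.u, ev_fix z.γ.r, ev_fix z.γ.s,
    ev_fix z.γ.t] with σ h1 h2 h3 h4 h5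
  exact Obj.ext (Model.equivVec.injective h1) (VariableChange.ext h2 h3 h4 h5)

lemma desc5_gfin (g : G (SeparableClosure K)) : ∀ᶠ σ : Gal K in 𝓝 1, G.map (galHom σ) g = g := by
  filter_upwards [ev_GL g.A, ev_GL g.M] with σ h1 h2
  exact G.ext h1 h2

lemma desc5_odesc {z : Obj (SeparableClosure K)} (h : ∀ σ : Gal K, z.map (galHom σ) = z) :
    ∃ z₀ : Obj K, z₀.map (toSep K) = z := by
  have h1 : ∀ i, ∃ a, toSep K a = Model.equivVec z.f i := fun i => desc1_fixed fun σ =>
    congrArg (fun x => Model.equivVec x.f i) (h σ)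
  choose v hv using h1
  obtain ⟨u, hu⟩ := desc_units (t := z.γ.u) fun σ => congrArg (fun x => x.γ.u) (h σ)
  obtain ⟨r, hr⟩ := desc1_fixed (x := z.γ.r) fun σ => congrArg (fun x => x.γ.r) (h σ)
  obtain ⟨s, hs⟩ := desc1_fixed (x := z.γ.s) fun σ => congrArg (fun x => x.γ.s) (h σ)
  obtain ⟨t, ht⟩ := desc1_fixed (x := z.γ.t) fun σ => congrArg (fun x => x.γ.t) (h σ)
  refine ⟨⟨Model.equivVec.symm v, ⟨u, r, s, t⟩⟩, Obj.ext ?_ (VariableChange.ext hu hr hs ht)⟩
  rw [Obj.map_f, Model.equivVec_symm_map, Equiv.symm_apply_eq]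
  exact funext hv

lemma desc5_gdesc {g : G (SeparableClosure K)} (h : ∀ σ : Gal K, G.map (galHom σ) g = g) :
    ∃ g₀ : G K, G.map (toSep K) g₀ = g := by
  obtain ⟨A, hA⟩ := desc_GL (H := g.A) fun σ => congrArg G.A (h σ)
  obtain ⟨M, hM⟩ := desc_GL (H := g.M) fun σ => congrArg G.M (h σ)
  exact ⟨⟨A, M⟩, G.ext hA hM⟩

lemma Obj.over_map_iff {L L' : Type*} [Field L] [Field L'] (φ : L →+* L') {z : Obj L}
    {W : WeierstrassCurve L} : (z.map φ).Over (W.map φ) ↔ z.Over W := by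
  refine ⟨fun h => ?_, fun h => h.map φ⟩
  unfold Obj.Over at h ⊢
  rw [Obj.map_f, Obj.map_γ, Model.jac_map, map_variableChange] at h
  exact WeierstrassCurve.map_injective φ.injective h

lemma desc5_scM_inj {R : Type*} [CommRing R] : Function.Injective (G.scM : Rˣ → GL (Fin 5) R) := by
  intro t t' h
  have := congrArg (fun M : GL (Fin 5) R => M.1 0 0) h
  ext1
  simpa [G.scM_val] using this

lemma desc5_det_map {R S : Type*} [CommRing R] [CommRing S] (φ : R →+* S) (A : GL (Fin 5) R) :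
    GeneralLinearGroup.det (GeneralLinearGroup.map φ A) =
      Units.map (φ : R →* S) (GeneralLinearGroup.det A) :=
  Units.ext (by
    rw [GeneralLinearGroup.val_det_apply, Units.coe_map, GeneralLinearGroup.val_det_apply]
    exact (φ.map_det A.1).symm)

/-- A cocycle modulo scalars whose second component splits is split. -/
theorem desc5_split (g : Gal K → G (SeparableClosure K))
    (hmul : ∀ σ τ, ∃ t, g (σ * τ) = G.scalar t * (G.map (galHom σ) (g τ) * g σ))
    (hc : ∀ᶠ σ in 𝓝 1, ∃ t, g σ = G.scalar t) (H : GL (Fin 5) (SeparableClosure K))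
    (hH : ∀ σ, ∃ t, GeneralLinearGroup.map (galHom σ) H * (g σ).M = G.scM t * H) :
    ∃ h : G (SeparableClosure K), ∀ σ, ∃ t, G.map (galHom σ) h * g σ = G.scalar t * h := by
  choose s hs using hH
  choose t ht using hmul
  have hA : ∀ σ τ, (g (σ * τ)).A =
      G.scM (t σ τ) * (GeneralLinearGroup.map (galHom σ) (g τ).A * (g σ).A) :=
    fun σ τ => congrArg G.A (ht σ τ)
  have hS : ∀ σ τ, s (σ * τ) = (t σ τ)⁻¹ ^ 2 *
      (Units.map (galHom σ : SeparableClosure K →* SeparableClosure K) (s τ) * s σ) := by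
    intro σ τ
    have e1 : (g (σ * τ)).M = G.scM ((t σ τ)⁻¹ ^ 2) *
        (GeneralLinearGroup.map (galHom σ) (g τ).M * (g σ).M) := congrArg G.M (ht σ τ)
    have e2 : GeneralLinearGroup.map (galHom (σ * τ)) H =
        GeneralLinearGroup.map (galHom σ) (GeneralLinearGroup.map (galHom τ) H) := rfl
    refine desc5_scM_inj (mul_right_cancel (b := H) ?_)
    rw [← hs, e1, e2, ← mul_assoc, ← G.scM_comm, mul_assoc, ← mul_assoc _ _ (g σ).M, ← map_mul, hs,
      map_mul, G.map_scM, mul_assoc, hs, G.scM_mul, G.scM_mul, mul_assoc, mul_assoc]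
  obtain ⟨u, hu⟩ : ∃ u : Gal K → (SeparableClosure K)ˣ,
      ∀ σ, u σ = GeneralLinearGroup.det (g σ).A * s σ ^ 2 := ⟨_, fun _ => rfl⟩
  have hU : ∀ σ τ, u (σ * τ) = t σ τ *
      (Units.map (galHom σ : SeparableClosure K →* SeparableClosure K) (u τ) * u σ) := by
    intro σ τ
    rw [hu, hu, hu, hA, hS, map_mul, map_mul, G.det_scM, desc5_det_map, map_mul, map_pow]
    apply Additive.ofMul.injective
    simp only [ofMul_mul, ofMul_pow, ofMul_inv]
    abel
  have hone : ∀ᶠ σ in 𝓝 1, (g σ).A = G.scM (u σ) ∧ s σ = (u σ)⁻¹ ^ 2 := by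
    filter_upwards [hc, ev_GL H] with σ ⟨r, e1⟩ e2
    have e3 := hs σ
    rw [e2, e1, G.scalar_M, ← G.scM_comm] at e3
    have e4 := desc5_scM_inj (mul_right_cancel e3)
    have e5 : u σ = r := by
      rw [hu, e1, G.scalar_A, G.det_scM, ← e4]
      group
    rw [e5, e1]
    exact ⟨rfl, e4.symm⟩
  obtain ⟨X, hX⟩ := h90_GL (fun σ => G.scM (u σ)⁻¹ * (g σ).A) (fun σ τ => by
      rw [hA, hU, map_mul, G.map_scM, ← mul_assoc, ← G.scM_mul, mul_assoc (G.scM _),
        ← mul_assoc _ (G.scM (u σ)⁻¹), ← G.scM_comm, mul_assoc, ← mul_assoc (G.scM _) (G.scM _),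
        ← G.scM_mul, map_inv]
      congr 2
      apply Additive.ofMul.injective
      simp only [ofMul_mul, ofMul_inv]
      abel)
    (hone.mono fun σ h => by rw [h.1, ← G.scM_mul, inv_mul_cancel, G.scM_one])
  obtain ⟨y, hy⟩ := h90_units (fun σ => s σ * u σ ^ 2) (fun σ τ => by
      rw [hS, hU, map_mul, map_pow]
      apply Additive.ofMul.injective
      simp only [ofMul_mul, ofMul_pow, ofMul_inv]
      abel)
    (hone.mono fun σ h => by rw [h.2, ← mul_pow, inv_mul_cancel, one_pow])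
  refine ⟨⟨X, G.scM y * H⟩, fun σ => ⟨u σ, G.ext ?_ ?_⟩⟩
  · change GeneralLinearGroup.map (galHom σ) X * (g σ).A = G.scM (u σ) * X
    conv_rhs => rw [← hX σ, ← mul_assoc, G.scM_comm, mul_assoc, ← mul_assoc (G.scM _), ← G.scM_mul,
      mul_inv_cancel, G.scM_one, one_mul]
  · change GeneralLinearGroup.map (galHom σ) (G.scM y * H) * (g σ).M =
      G.scM ((u σ)⁻¹ ^ 2) * (G.scM y * H)
    rw [map_mul, G.map_scM, mul_assoc, hs, ← mul_assoc, ← mul_assoc, ← G.scM_mul, ← G.scM_mul]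
    congr 2
    conv_rhs => rw [← hy σ]
    apply Additive.ofMul.injective
    simp only [ofMul_mul, ofMul_pow, ofMul_inv]
    abel

end SelAvg.FF.T5
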