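import Pool.Agent.H34P.DifA2

/-!
The projection of points.
-/

namespace SelAvg.FF.T5

open WeierstrassCurve Matrix
open scoped Classical

variable {L L' : Type*} [Field L] [Field L']

lemma difa_par {u a b : Fin 3 → L} (hu : u ≠ 0) (ha : u ⬝ᵥ a = 0) (hb : u ⬝ᵥ b = 0) :
    ∃ s : L, s • u = crossProduct a b := by
  by_contra h
  refine crossProduct_ne_zero_iff_linearIndependent.2
    ((LinearIndependent.pair_iff' hu).2 fun s e => h ⟨s, e⟩) ?_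
  rw [cross_cross_eq_smul_sub_smul', hb, dotProduct_comm a, ha, zero_smul, zero_smul, sub_zero]

namespace Model

/-- the column `i` of the upper three rows -/
def difa_col (f : Model L) (i : Fin 5) (t : L) (v : T3.Pt L) : Fin 3 → L :=
  ![t * f.c 1 0 i + f.lin 0 i ⬝ᵥ v, t * f.c 1 1 i + f.lin 1 i ⬝ᵥ v, t * f.c 1 2 i + f.lin 2 i ⬝ᵥ v]

lemma difa_dot (f : Model L) (i : Fin 5) (t : L) (v : T3.Pt L) :
    f.Tm *ᵥ v ⬝ᵥ f.difa_col i t v = t * (f.alp i ⬝ᵥ v) + f.qd i v := by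
  simp only [difa_col, qd, alp, qm, nv, mulVec, vecMul, dotProduct, Fin.sum_univ_three, of_apply,
    cons_val]
  ring

lemma difa_rk2 {f : Model L} (h : f.Std) (Q : Pt L) : Rk2 (f.ev Q) ↔
    Q 1 * (f.alp 3 ⬝ᵥ Q.tail) + f.qd 3 Q.tail = 0 ∧ Q 1 * (f.alp 4 ⬝ᵥ Q.tail) + f.qd 4 Q.tail = 0 ∧
      (Q 0 * f.lam + Q 1 * f.c 1 3 4 + f.lin 3 4 ⬝ᵥ Q.tail) • f.Tm *ᵥ Q.tail =
        crossProduct (f.difa_col 3 (Q 1) Q.tail) (f.difa_col 4 (Q 1) Q.tail) := by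
  rw [rk2_iff (f.ev_diag Q) (f.ev_alt Q), h.pf_three, h.pf_four, funext_iff, Fin.forall_fin_succ,
    Fin.forall_fin_two]
  refine and_congr_right fun _ => and_congr_right fun _ => ?_
  simp only [pf, ev_apply, Fin.sum_univ_five, h.c001, h.c002, h.c003, h.c004, h.c012, h.c013,
    h.c014, h.c023, h.c024, h.c101, h.c102, h.c112, difa_col, Tm, lin, lam, mulVec, dotProduct,
    Fin.sum_univ_three, of_apply, cons_val, cross_apply, Pi.smul_apply, smul_eq_mul, Pi.neg_apply,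
    Pt.tail_zero, Pt.tail_one, Pt.tail_two, Fin.succ_zero_eq_one, Fin.succ_one_eq_two]
  exact ⟨fun ⟨h1, h2, h3⟩ => ⟨by linear_combination h3, by linear_combination -h2,
      by linear_combination h1⟩,
    fun ⟨h1, h2, h3⟩ => ⟨by linear_combination h3, by linear_combination -h2,
      by linear_combination h1⟩⟩

lemma difa_sing (f : Model L) {v : T3.Pt L} (a3 : f.alp 3 ⬝ᵥ v = 0) (a4 : f.alp 4 ⬝ᵥ v = 0)
    (q3 : f.qd 3 v = 0) (q4 : f.qd 4 v = 0) : ¬f.cub.Smooth v := by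
  rw [cub]
  rw [qd] at q3 q4
  generalize f.alp 3 = a, f.alp 4 = b, f.qm 3 = M, f.qm 4 = N at *
  simp only [vecMul, dotProduct, Fin.sum_univ_three] at a3 a4 q3 q4
  simp only [T3.Model.Smooth, not_or, not_not, ofTensor, T3.Model.Fx, T3.Model.Fy, T3.Model.Fz]
  refine ⟨?_, ?_, ?_⟩
  · linear_combination a 0 * q4 - b 0 * q3
      + (2 * N 0 0 * v 0 + (N 0 1 + N 1 0) * v 1 + (N 0 2 + N 2 0) * v 2) * a3
      - (2 * M 0 0 * v 0 + (M 0 1 + M 1 0) * v 1 + (M 0 2 + M 2 0) * v 2) * a4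
  · linear_combination a 1 * q4 - b 1 * q3
      + (2 * N 1 1 * v 1 + (N 0 1 + N 1 0) * v 0 + (N 1 2 + N 2 1) * v 2) * a3
      - (2 * M 1 1 * v 1 + (M 0 1 + M 1 0) * v 0 + (M 1 2 + M 2 1) * v 2) * a4
  · linear_combination a 2 * q4 - b 2 * q3
      + (2 * N 2 2 * v 2 + (N 0 2 + N 2 0) * v 0 + (N 1 2 + N 2 1) * v 1) * a3
      - (2 * M 2 2 * v 2 + (M 0 2 + M 2 0) * v 0 + (M 1 2 + M 2 1) * v 1) * a4

lemma difa_mk' {f : Model L} (h : f.NStd) : T3.Pt.Prim f.mk' := by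
  obtain ⟨i, hi⟩ := h.prim
  exact T3.Pt.prim_iff.2 ⟨i, hi.ne_zero⟩

lemma difa_eqv {f : Model L} (h : f.NStd) {v : T3.Pt L} (hv : v ≠ 0) (a3 : f.alp 3 ⬝ᵥ v = 0)
    (a4 : f.alp 4 ⬝ᵥ v = 0) : T3.Pt.Eqv v f.mk' := by
  obtain ⟨s, hs⟩ := difa_par hv ((dotProduct_comm _ _).trans a3) ((dotProduct_comm _ _).trans a4)
  refine ⟨s, fun h0 => difa_mk' h ?_, hs.symm⟩
  rw [mk', ← hs, h0, zero_smul]

lemma difa_Tm {f : Model L} (h : f.NStd) {v : T3.Pt L} (hv : v ≠ 0) : f.Tm *ᵥ v ≠ 0 := fun e =>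
  hv (by rw [← one_mulVec v, ← nonsing_inv_mul _ h.tm, ← mulVec_mulVec, e, mulVec_zero])

/-- away from the standard point one of the two linear forms does not vanish -/
lemma difa_alp {f : Model L} (h : f.GoodStd) {Q : Pt L} (hQ : f.On Q) (h0 : Q.tail ≠ 0) :
    f.alp 3 ⬝ᵥ Q.tail ≠ 0 ∨ f.alp 4 ⬝ᵥ Q.tail ≠ 0 := by
  by_contra hn
  rw [not_or, not_not, not_not] at hn
  obtain ⟨e3, e4, -⟩ := (difa_rk2 h.std Q).1 hQ.eq
  rw [hn.1, mul_zero, zero_add] at e3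
  rw [hn.2, mul_zero, zero_add] at e4
  exact difa_sing f hn.1 hn.2 e3 e4 (h.good.eqv (difa_eqv h.nstd h0 hn.1 hn.2).symm).smooth

@[simp] lemma phi_std (f : Model L) : f.phi Pt.std = f.mk' :=
  if_pos (by funext i; fin_cases i <;> rfl)

lemma phi_of_ne (f : Model L) {Q : Pt L} (h : Q.tail ≠ 0) : f.phi Q = Q.tail := if_neg h

lemma phi_map (φ : L →+* L') (f : Model L) (Q : Pt L) :
    (f.map φ).phi (Q.map φ) = T3.Pt.map φ (f.phi Q) := by
  have e : (Q.map φ).tail ≠ 0 ↔ Q.tail ≠ 0 := by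
    rw [Pt.tail_map]
    exact T3.Pt.prim_map φ
  by_cases h : Q.tail = 0
  · rw [phi, phi, if_pos h, if_pos (not_not.1 fun h' => e.1 h' h), mk'_map]
  · rw [phi_of_ne _ h, phi_of_ne _ (e.2 h), Pt.tail_map]

lemma phi_eqv (f : Model L) {Q Q' : Pt L} (e : Q.Eqv Q') :
    T3.Pt.Eqv (f.phi Q) (f.phi Q') := by
  obtain ⟨t, ht, rfl⟩ := e
  by_cases h : Q.tail = 0
  · rw [phi, phi, if_pos h, if_pos (by rw [Pt.tail_smul, h, smul_zero])]
    exact T3.Pt.Eqv.refl _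
  · rw [phi_of_ne _ h, phi_of_ne _ (by rw [Pt.tail_smul]; exact smul_ne_zero ht h), Pt.tail_smul]
    exact ⟨t, ht, rfl⟩

lemma on_mk' {f : Model L} (h : f.NStd) : (f.cub.scale f.lam).On f.mk' :=
  ⟨difa_mk' h, by rw [T3.Model.F_scale, F_mk', mul_zero]⟩

lemma on_phi {f : Model L} (h : f.NStd) {Q : Pt L} (hQ : f.On Q) :
    (f.cub.scale f.lam).On (f.phi Q) := by
  by_cases h0 : Q.tail = 0
  · rw [phi, if_pos h0]
    exact on_mk' h
  · rw [phi_of_ne _ h0]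
    exact ⟨h0, by rw [T3.Model.F_scale, h.std.F_tail hQ.eq, mul_zero]⟩

/-- a point on the tangent line is the standard point (Pfaffians `(i, j, 3, 4)`) -/
lemma eqv_std_of_tail {f : Model L} (h : f.NStd) {Q : Pt L} (hQ : f.On Q) (h0 : Q.tail = 0) :
    (Pt.std : Pt L).Eqv Q := by
  refine (Pt.std_eqv_iff hQ.prim).2 ⟨?_, h0⟩
  obtain ⟨-, -, e⟩ := (difa_rk2 h.std Q).1 hQ.eq
  have e1 : ∀ i, f.difa_col i (Q 1) 0 = Q 1 • f.nv i := fun i => by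
    funext r; fin_cases r <;> simp [difa_col, nv]
  rw [h0, mulVec_zero, smul_zero, e1, e1, map_smul, map_smul, LinearMap.smul_apply] at e
  by_contra h1
  have e2 : crossProduct (f.nv 3) (f.nv 4) = 0 :=
    (smul_eq_zero_iff_right h1).1 ((smul_eq_zero_iff_right h1).1 e.symm)
  refine difa_mk' h ?_
  rw [mk', alp, alp, ← mulVec_transpose, ← mulVec_transpose, para_cross, e2, zero_vecMul]

/-- If `tail Q` is proportional to `mk'` then both quadrics `qd 3`, `qd 4` vanish there and the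
cubic is singular at `mk'`.  Otherwise the Pfaffians `(0, 1, 2, i)` determine `Q 1` and the
Pfaffians `(i, j, 3, 4)` determine `Q 0`. -/
lemma phi_injective {f : Model L} (h : f.GoodStd) {Q Q' : Pt L} (hQ : f.On Q) (hQ' : f.On Q')
    (e : T3.Pt.Eqv (f.phi Q) (f.phi Q')) : Q.Eqv Q' := by
  have key : ∀ {P : Pt L}, f.On P → P.tail ≠ 0 → ¬T3.Pt.Eqv f.mk' P.tail := by
    rintro P hP h0 ⟨t, -, ht⟩
    have := difa_alp h hP h0
    rw [ht, dotProduct_smul, dotProduct_smul, mk', dot_self_cross, dot_cross_self] at this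
    simp at this
  by_cases h0 : Q.tail = 0 <;> by_cases h0' : Q'.tail = 0
  · exact (eqv_std_of_tail h.nstd hQ h0).symm.trans (eqv_std_of_tail h.nstd hQ' h0')
  · rw [phi, if_pos h0, phi_of_ne _ h0'] at e
    exact absurd e (key hQ' h0')
  · rw [phi_of_ne _ h0, phi, if_pos h0'] at e
    exact absurd e.symm (key hQ h0)
  rw [phi_of_ne _ h0, phi_of_ne _ h0'] at e
  obtain ⟨t, ht, e⟩ := e
  refine ⟨t, ht, ?_⟩
  obtain ⟨P, hP⟩ : ∃ P, P = Q.sc t := ⟨_, rfl⟩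
  have e' : P.tail = Q'.tail := by rw [hP, Pt.tail_smul, e]
  obtain ⟨a3, a4, a5⟩ := (difa_rk2 h.std P).1 (hP ▸ hQ.eqv (Pt.eqv_sc Q ht)).eq
  obtain ⟨b3, b4, b5⟩ := (difa_rk2 h.std Q').1 hQ'.eq
  rw [e'] at a3 a4 a5
  have e1 : P 1 = Q' 1 := by
    rcases difa_alp h hQ' h0' with hn | hn
    · exact mul_right_cancel₀ hn (by linear_combination a3 - b3)
    · exact mul_right_cancel₀ hn (by linear_combination a4 - b4)
  rw [e1, ← b5] at a5
  have e0 : P 0 = Q' 0 := mul_right_cancel₀ h.lam (by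
    linear_combination smul_left_injective L (difa_Tm h.nstd h0') a5)
  rw [← hP]
  funext i
  fin_cases i
  exacts [e0.symm, e1.symm, (congrFun e' 0).symm, (congrFun e' 1).symm, (congrFun e' 2).symm]

lemma phi_surjective {f : Model L} (h : f.NStd) {P : T3.Pt L}
    (hP : (f.cub.scale f.lam).On P) : ∃ Q, f.On Q ∧ T3.Pt.Eqv (f.phi Q) P := by
  have hl : f.lam ≠ 0 := h.lam.ne_zero
  have hF : (f.alp 3 ⬝ᵥ P) * f.qd 4 P - (f.alp 4 ⬝ᵥ P) * f.qd 3 P = 0 := by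
    have := hP.eq
    rw [T3.Model.F_scale, F_cub] at this
    exact (mul_eq_zero.1 this).resolve_left hl
  by_cases h0 : f.alp 3 ⬝ᵥ P = 0 ∧ f.alp 4 ⬝ᵥ P = 0
  · exact ⟨Pt.std, h.std.on_std, by rw [phi_std]; exact (difa_eqv h hP.prim h0.1 h0.2).symm⟩
  obtain ⟨t, t3, t4⟩ : ∃ t, t * (f.alp 3 ⬝ᵥ P) + f.qd 3 P = 0 ∧
      t * (f.alp 4 ⬝ᵥ P) + f.qd 4 P = 0 := by
    rcases not_and_or.1 h0 with hn | hn
    · exact ⟨-f.qd 3 P / (f.alp 3 ⬝ᵥ P), by field_simp; ring, by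
        field_simp; linear_combination hF⟩
    · exact ⟨-f.qd 4 P / (f.alp 4 ⬝ᵥ P), by field_simp; linear_combination -hF, by
        field_simp; ring⟩
  obtain ⟨s, hs⟩ := difa_par (difa_Tm h hP.prim) ((difa_dot f 3 t P).trans t3)
    ((difa_dot f 4 t P).trans t4)
  obtain ⟨Q, hQ⟩ : ∃ Q : Pt L,
    Q = ![(s - t * f.c 1 3 4 - f.lin 3 4 ⬝ᵥ P) / f.lam, t, P 0, P 1, P 2] := ⟨_, rfl⟩
  have e : Q.tail = P := by
    rw [hQ]; funext i; fin_cases i <;> rfl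
  have e1 : Q 1 = t := by rw [hQ]; rfl
  have e0 : Q 0 * f.lam = s - t * f.c 1 3 4 - f.lin 3 4 ⬝ᵥ P := by
    rw [hQ]; exact div_mul_cancel₀ _ hl
  have hn : Q.tail ≠ 0 := e ▸ hP.prim
  refine ⟨Q, ⟨fun h1 => hn (by rw [h1]; funext i; fin_cases i <;> rfl),
    (difa_rk2 h.std Q).2 ?_⟩, by rw [phi_of_ne _ hn, e]; exact T3.Pt.Eqv.refl _⟩
  rw [e, e1, e0, ← hs]
  exact ⟨t3, t4, by congr 1; ring⟩

end Model

lemma G.Ind.phi {g : G L} (hg : g.IsPar) {f : Model L} (hf : f.Std) {k : T3.G L}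
    (h : g.Ind k) (Q : Pt L) : T3.Pt.Eqv (k.pt ((g • f).phi Q)) (f.phi (g.pt Q)) := by
  have hd : (blk3 g.a).det ≠ 0 := hg.units.1.ne_zero
  have e := h.pt_tail hg Q
  by_cases h0 : Q.tail = 0
  · have h1 : (g.pt Q).tail = 0 := by
      rw [h0, T3.G.pt, zero_vecMul] at e
      exact (smul_eq_zero_iff_right hd).1 e.symm
    obtain ⟨t, ht⟩ := h.pt_mk' hg hf
    rw [Model.phi, Model.phi, if_pos h0, if_pos h1, ht]
    exact (T3.Pt.eqv_sc _ t.ne_zero).symm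
  · have h1 : (g.pt Q).tail ≠ 0 := fun h1 =>
      T3.Pt.Prim.pt h0 k (by rw [e, h1, smul_zero])
    rw [Model.phi_of_ne _ h0, Model.phi_of_ne _ h1, e]
    exact (T3.Pt.eqv_sc _ hd).symm

end SelAvg.FF.T5
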