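import Pool.Agent.H34P.Red
import Pool.Agent.H34P.ParB

/-!
Points over a field: equivalence, points of the curve, standard position.
-/

namespace SelAvg.FF.T5

open WeierstrassCurve Matrix
open scoped Classical

variable {L L' : Type*} [Field L] [Field L']

-- ROW DIFA1 begin
namespace Pt

lemma Eqv.refl (Q : Pt L) : Eqv Q Q := ⟨1, one_ne_zero, (one_smul _ _).symm⟩

lemma Eqv.symm {Q Q' : Pt L} (h : Eqv Q Q') : Eqv Q' Q := by
  obtain ⟨t, ht, rfl⟩ := h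
  exact ⟨t⁻¹, inv_ne_zero ht, by rw [sc, sc, smul_smul, inv_mul_cancel₀ ht, one_smul]⟩

lemma Eqv.trans {Q Q' Q'' : Pt L} (h : Eqv Q Q') (h' : Eqv Q' Q'') : Eqv Q Q'' := by
  obtain ⟨t, ht, rfl⟩ := h
  obtain ⟨t', ht', rfl⟩ := h'
  exact ⟨t' * t, mul_ne_zero ht' ht, by rw [sc, sc, sc, smul_smul]⟩

lemma Eqv.pt {Q Q' : Pt L} (h : Eqv Q Q') (g : G L) : Eqv (g.pt Q) (g.pt Q') := by
  obtain ⟨t, ht, rfl⟩ := h
  exact ⟨t, ht, g.pt_sc t Q⟩

lemma Eqv.map {Q Q' : Pt L} (h : Eqv Q Q') (φ : L →+* L') : Eqv (Q.map φ) (Q'.map φ) := by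
  obtain ⟨t, ht, rfl⟩ := h
  exact ⟨φ t, (map_ne_zero φ).2 ht, by funext i; simp⟩

lemma Eqv.of_map {Q Q' : Pt L} (hQ : Q.Prim) (φ : L →+* L') (h : Eqv (Q.map φ) (Q'.map φ)) :
    Eqv Q Q' := by
  obtain ⟨t, ht, e⟩ := h
  obtain ⟨i, hi⟩ : ∃ i, Q i ≠ 0 := Function.ne_iff.1 hQ
  have e' : ∀ j, φ (Q' j) = t * φ (Q j) := fun j => by simpa using congrFun e j
  have hi' : φ (Q i) ≠ 0 := (map_ne_zero φ).2 hi
  have hs : φ (Q' i / Q i) = t := by rw [map_div₀, e', mul_div_cancel_right₀ _ hi']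
  refine ⟨Q' i / Q i, fun h0 => ht (by rw [← hs, h0, map_zero]), ?_⟩
  funext j
  apply φ.injective
  rw [e', sc, Pi.smul_apply, smul_eq_mul, map_mul, hs]

lemma Eqv.prim {Q Q' : Pt L} (h : Eqv Q Q') (hQ : Q.Prim) : Q'.Prim := by
  obtain ⟨t, ht, rfl⟩ := h
  exact smul_ne_zero ht hQ

lemma eqv_sc (Q : Pt L) {t : L} (ht : t ≠ 0) : Eqv Q (Q.sc t) := ⟨t, ht, rfl⟩

lemma Prim.pt {Q : Pt L} (h : Q.Prim) (g : G L) : (g.pt Q).Prim := by
  intro h0
  apply h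
  have e : Q = g⁻¹.pt (g.pt Q) := (g.inv_pt_pt Q).symm
  rw [e, h0]
  simp [G.pt]

lemma prim_iff {Q : Pt L} : Q.Prim ↔ ∃ i, Q i ≠ 0 := Function.ne_iff

lemma prim_map {Q : Pt L} (φ : L →+* L') : (Q.map φ).Prim ↔ Q.Prim := by
  simp only [prim_iff, Function.comp_apply, map_ne_zero]

lemma prim_std : (std : Pt L).Prim := prim_iff.2 ⟨0, by simp⟩

lemma std_eqv_iff {Q : Pt L} (hQ : Q.Prim) :
    (std : Pt L).Eqv Q ↔ Q 1 = 0 ∧ Q.tail = 0 := by
  constructor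
  · rintro ⟨t, -, rfl⟩
    exact ⟨by simp, by funext i; fin_cases i <;> simp⟩
  · rintro ⟨h1, h2⟩
    have e : Q = std.sc (Q 0) := by
      funext i
      fin_cases i
      · simp
      · simpa using h1
      · simpa using congrFun h2 0
      · simpa using congrFun h2 1
      · simpa using congrFun h2 2
    exact ⟨Q 0, fun h0 => hQ (by rw [e, h0, sc, zero_smul]), e⟩

end Pt

lemma G.IsPar.eqv_std {g : G L} (hg : g.IsPar) : (g.pt Pt.std).Eqv Pt.std := by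
  rw [hg.pt_std]
  exact (Pt.eqv_sc _ hg.units.2.2.1.ne_zero).symm

/-- an element fixing the standard point and standard position is block triangular -/
lemma G.par_of_pt {g : G L} {f : Model L} (hf : f.NStd) (hg : (g.pt Pt.std).Eqv Pt.std)
    (hs : (g • f).Std) : g.IsPar := by
  obtain ⟨h1, h2⟩ := (Pt.std_eqv_iff (Pt.prim_std.pt g)).1 hg.symm
  rw [G.pt_std] at h1 h2
  exact G.par_of_std hf.std hf.lam hf.tm h1 (congrFun h2 0) (congrFun h2 1) (congrFun h2 2) hs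

namespace Model

lemma on_pt (g : G L) (f : Model L) (Q : Pt L) : f.On (g.pt Q) ↔ (g • f).On Q := by
  refine ⟨fun h => ⟨by simpa using h.prim.pt g⁻¹, by rw [G.ev_pt]; exact h.eq.conj _⟩,
    fun h => ⟨h.prim.pt g, ?_⟩⟩
  have e := G.ev_pt g⁻¹ (g • f) (g.pt Q)
  rw [inv_smul_smul, G.inv_pt_pt] at e
  rw [e]
  exact h.eq.conj _

lemma On.eqv {f : Model L} {Q Q' : Pt L} (h : f.On Q) (e : Q.Eqv Q') : f.On Q' := by
  refine ⟨e.prim h.prim, ?_⟩
  obtain ⟨t, -, rfl⟩ := e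
  intro i j k l
  rw [ev_smul, pf_smul, h.eq, mul_zero]

lemma on_map (φ : L →+* L') (f : Model L) (Q : Pt L) : (f.map φ).On (Q.map φ) ↔ f.On Q := by
  refine ⟨fun h => ⟨(Pt.prim_map φ).1 h.prim, fun i j k l => ?_⟩,
    fun h => ⟨(Pt.prim_map φ).2 h.prim, fun i j k l => ?_⟩⟩
  · have e := h.eq i j k l
    rwa [ev_map, pf_map, map_eq_zero] at e
  · rw [ev_map, pf_map, h.eq, map_zero]

lemma Std.on_std {f : Model L} (h : f.Std) : f.On Pt.std := ⟨Pt.prim_std, h.rk2_std⟩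

lemma jac_Delta_smul {R : Type*} [CommRing R] (g : G R) (f : Model R) :
    (g • f).jac.Δ ≠ 0 ↔ f.jac.Δ ≠ 0 := by
  rw [G.smul_def, Δ_act, ← G.det_val, ← Units.val_pow_eq_pow_val]
  exact not_congr (Units.mul_right_eq_zero _)

lemma soluble_smul (g : G L) (f : Model L) : (g • f).Soluble ↔ f.Soluble :=
  ⟨fun ⟨Q, h⟩ => ⟨g.pt Q, (on_pt g f Q).2 h⟩,
    fun ⟨Q, h⟩ => ⟨g⁻¹.pt Q, (on_pt g f _).1 (by rwa [G.pt_inv_pt])⟩⟩

lemma triv_smul (g : G L) (f : Model L) : (g • f).Triv ↔ f.Triv :=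
  ⟨fun ⟨k, h⟩ => ⟨k * g, by rwa [mul_smul]⟩,
    fun ⟨k, h⟩ => ⟨k * g⁻¹, by rwa [mul_smul, inv_smul_smul]⟩⟩

lemma Triv.map {f : Model L} (h : f.Triv) (φ : L →+* L') : (f.map φ).Triv := by
  obtain ⟨g, hg⟩ := h
  refine ⟨G.map φ g, fun k i j e => ?_⟩
  rw [← G.map_smul, map_c, hg k i j e, map_zero]

/-- every point can be moved to standard position: an alternating matrix with vanishing Pfaffians
is `λ v ∧ w`, and three linear forms in four variables have a common zero -/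
theorem exists_std {f : Model L} {Q : Pt L} (hQ : f.On Q) :
    ∃ g : G L, g.pt Pt.std = Q ∧ (g • f).Std := by
  obtain ⟨A, B, e, hs⟩ := exists_std_field f hQ.prim hQ.eq
  exact ⟨⟨A, B⟩, (G.pt_std _).trans e, hs⟩
-- ROW DIFA1 end

end Model

lemma mover_spec {f : Model L} {Q : Pt L} (hQ : f.On Q) :
    (mover f Q).pt Pt.std = Q ∧ (mover f Q • f).Std := by
  have h := Model.exists_std hQ
  rw [mover, dif_pos h]
  exact h.choose_spec

end SelAvg.FF.T5
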