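import Pool.Agent.H34P.DifA1
import Pool.Agent.H34P.TwoC

/-!
Good points.
-/

namespace SelAvg.FF.T5

open WeierstrassCurve Matrix
open scoped Classical

variable {L L' : Type*} [Field L] [Field L']

lemma dfa2_det_Tm {f : Model L} (h : f.cub.Smooth f.mk') : f.Tm.det ≠ 0 := by
  intro h0
  obtain ⟨w, hw⟩ := T3.Model.smooth_iff.1 h
  have h1 : f.Tm *ᵥ f.mk' = f.Tm.det • crossProduct (f.nv 3) (f.nv 4) := by
    rw [Model.mk', Model.alp, Model.alp]
    generalize f.Tm = M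
    funext i
    fin_cases i <;>
      simp [crossProduct, mulVec, vecMul, dotProduct, Fin.sum_univ_three, det_fin_three] <;> ring
  rw [h0, zero_smul] at h1
  have h2 : ∀ i, f.qm i *ᵥ f.mk' = 0 := fun i => by
    have : f.qm i = (of ![f.lin 0 i, f.lin 1 i, f.lin 2 i])ᵀ * f.Tm := by
      ext s u
      simp [Model.qm, mul_apply, Fin.sum_univ_three]
    rw [this, ← mulVec_mulVec, h1, mulVec_zero]
  have h3 : ∀ (α β : T3.Pt L) (P Q : Matrix (Fin 3) (Fin 3) L) (p : T3.Pt L),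
      (ofTensor fun r s u => α r * Q s u - β r * P s u).pol p w =
      (α ⬝ᵥ w) * (p ⬝ᵥ Q *ᵥ p) + (α ⬝ᵥ p) * (p ⬝ᵥ Q *ᵥ w + w ⬝ᵥ Q *ᵥ p)
        - (β ⬝ᵥ w) * (p ⬝ᵥ P *ᵥ p) - (β ⬝ᵥ p) * (p ⬝ᵥ P *ᵥ w + w ⬝ᵥ P *ᵥ p) := by
    intro α β P Q p
    simp only [ofTensor, T3.Model.pol, T3.Model.Fx, T3.Model.Fy, T3.Model.Fz, mulVec,
      dotProduct, Fin.sum_univ_three]
    ring
  apply hw
  rw [Model.cub, h3, h2, h2]
  simp [Model.mk']

namespace Model

/-- If `det Tm = 0` the cubic is singular at a kernel vector of `Tm`, and this vector is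
proportional to the marked point. -/
lemma GoodStd.nstd {f : Model L} (h : f.GoodStd) : f.NStd := by
  refine ⟨h.std, h.lam.isUnit, (dfa2_det_Tm h.good.smooth).isUnit, ?_⟩
  obtain ⟨i, hi⟩ := Function.ne_iff.1 (show f.mk' ≠ 0 from h.good.on.prim)
  exact ⟨i, IsUnit.mk0 _ hi⟩

/-- `lam ≠ 0` by `Δ_std`; if `mk' = 0` the cubic has a linear factor, hence a singular point over
the algebraic closure. -/
lemma goodStd_of_Delta {f : Model L} (hΔ : f.jac.Δ ≠ 0) (h : f.Std) : f.GoodStd := by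
  rw [Δ_std h] at hΔ
  have hD : f.cub.jac.Δ ≠ 0 := right_ne_zero_of_mul hΔ
  exact ⟨h, fun h0 => left_ne_zero_of_mul hΔ (by rw [h0]; simp),
    T3.Model.good_of_on hD ⟨two_mk'_ne hD, F_mk' f⟩⟩

lemma GoodStd.par {f : Model L} (h : f.GoodStd) {g : G L} (hg : g.IsPar) :
    (g • f).GoodStd := by
  obtain ⟨h1, h2, h3, h4, h5⟩ := hg.units
  replace h1 := h1.ne_zero
  replace h2 := h2.ne_zero
  replace h3 := h3.ne_zero
  replace h4 := h4.ne_zero
  replace h5 := h5.ne_zero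
  refine ⟨Par.std hg h.std, ?_, ?_⟩
  · rw [G.smul_def, lam_act hg h.std]
    exact mul_ne_zero (mul_ne_zero h2 h3) h.lam
  · have hc : (blk3 g.a).det ^ 2 * det2 g.a * g.e 1 1 ≠ 0 :=
      mul_ne_zero (mul_ne_zero (pow_ne_zero _ h1) h2) h4
    let k : T3.G L := ⟨Matrix.GeneralLinearGroup.mkOfDetNeZero _ h5, (Units.mk0 _ hc)⁻¹⟩
    have e1 : (g • f).cub = k • f.cub := by
      rw [G.smul_def, cub_act hg h.std, T3.G.smul_def]
      simp only [k, inv_inv, Units.val_mk0]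
      rfl
    have e2 : k.pt (g • f).mk' = f.mk'.sc
        (((blk3 g.a).det * g.e 1 1) ^ 2 * det2 g.a * (low3 g.e).det) :=
      mk'_act_vecMul hg h.std
    rw [e1, ← T3.Model.good_pt, e2]
    exact h.good.eqv (T3.Pt.eqv_sc _
      (mul_ne_zero (mul_ne_zero (pow_ne_zero _ (mul_ne_zero h1 h4)) h2) h5))

lemma goodStd_map (φ : L →+* L') (f : Model L) : (f.map φ).GoodStd ↔ f.GoodStd := by
  constructor
  · rintro ⟨h1, h2, h3⟩
    rw [cub_map, mk'_map, T3.Model.good_map] at h3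
    exact ⟨h1.of_map φ.injective, fun h0 => h2 (by rw [lam_map, h0, map_zero]), h3⟩
  · rintro ⟨h1, h2, h3⟩
    refine ⟨h1.map φ, by rw [lam_map]; exact (map_ne_zero φ).2 h2, ?_⟩
    rw [cub_map, mk'_map, T3.Model.good_map]
    exact h3

lemma good_pt (g : G L) (f : Model L) (Q : Pt L) : f.Good (g.pt Q) ↔ (g • f).Good Q := by
  constructor
  · rintro ⟨k, hk, h⟩
    refine ⟨k * g⁻¹, by rw [G.mul_pt, hk, G.inv_pt_pt], ?_⟩
    rwa [← mul_smul, inv_mul_cancel_right]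
  · rintro ⟨k, hk, h⟩
    refine ⟨k * g, by rw [G.mul_pt, hk], ?_⟩
    rwa [mul_smul]

lemma dfa2_par_ofM {t : L} (ht : t ≠ 0) : (G.ofM (G.scM (Units.mk0 t ht))).IsPar := by
  constructor <;> simp [G.a, G.e, G.scM_val]

lemma Good.eqv {f : Model L} {Q Q' : Pt L} (h : f.Good Q) (e : Q.Eqv Q') : f.Good Q' := by
  obtain ⟨t, ht, rfl⟩ := e
  obtain ⟨k, hk, h⟩ := h
  refine ⟨G.ofM (G.scM (Units.mk0 t ht)) * k, ?_, ?_⟩
  · rw [G.mul_pt, (dfa2_par_ofM ht).pt_std, G.pt_sc, hk]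
    simp [G.e, G.scM_val]
  · rw [mul_smul]
    exact h.par (dfa2_par_ofM ht)

lemma Good.on {f : Model L} {Q : Pt L} (h : f.Good Q) : f.On Q := by
  obtain ⟨g, rfl, h⟩ := h
  exact (on_pt g f _).2 h.std.on_std

lemma good_std {f : Model L} (h : f.Std) : f.Good Pt.std ↔ f.GoodStd := by
  constructor
  · rintro ⟨g, e, hg⟩
    have e' : g⁻¹.pt Pt.std = Pt.std := by
      conv_lhs => rw [← e]
      rw [G.inv_pt_pt]
    have hp : g⁻¹.IsPar := G.par_of_pt hg.nstd (by rw [e']; exact Pt.Eqv.refl _)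
      (by rwa [inv_smul_smul])
    simpa only [inv_smul_smul] using hg.par hp
  · intro hg
    exact ⟨1, G.one_pt _, by rwa [one_smul]⟩

lemma good_map (φ : L →+* L') (f : Model L) (Q : Pt L) :
    (f.map φ).Good (Q.map φ) ↔ f.Good Q := by
  constructor
  · intro hg
    obtain ⟨g, rfl, hs⟩ := exists_std ((on_map φ f Q).1 hg.on)
    rw [← G.map_pt, Pt.map_std, good_pt, ← G.map_smul, good_std (hs.map φ), goodStd_map] at hg
    exact ⟨g, rfl, hg⟩
  · rintro ⟨g, rfl, hg⟩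
    refine ⟨G.map φ g, by rw [← G.map_pt, Pt.map_std], ?_⟩
    rw [← G.map_smul, goodStd_map]
    exact hg

lemma good_of_on {f : Model L} (hΔ : f.jac.Δ ≠ 0) {Q : Pt L} (hQ : f.On Q) : f.Good Q := by
  obtain ⟨g, e, hs⟩ := exists_std hQ
  exact ⟨g, e, goodStd_of_Delta ((jac_Delta_smul g f).2 hΔ) hs⟩

end Model

end SelAvg.FF.T5
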