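import Pool.Agent.H34P.DifA
import Pool.Agent.H5T.DifC

/-!
The API of the difference map.
-/

namespace SelAvg.FF.T5

open WeierstrassCurve Matrix
open scoped Classical

variable {L L' : Type*} [Field L] [Field L']
variable {W : WeierstrassCurve L} {z z' : Obj L}

lemma Obj.Over.jac_Delta (hW : W.Δ ≠ 0) (hz : z.Over W) : z.f.jac.Δ ≠ 0 := by
  rw [show z.f.jac = z.γ • W from hz]
  exact (Delta_smul_ne_zero z.γ).2 hW

lemma difb1_on (g : G L) {f : Model L} {Q : Pt L} (hQ : f.On Q) : (g • f).On (g⁻¹.pt Q) :=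
  (Model.on_pt g f _).1 (by rwa [G.pt_inv_pt])

lemma difb1_good (hW : W.Δ ≠ 0) (hz : z.Over W) (hs : z.f.Std) : z.f.GoodStd :=
  Model.goodStd_of_Delta (hz.jac_Delta hW) hs

lemma difb1_nstd (hW : W.Δ ≠ 0) (hz : z.Over W) (hs : z.f.Std) : z.f.NStd :=
  (difb1_good hW hz hs).nstd

lemma difb1_mk (hW : W.Δ ≠ 0) (hz : z.Over W) (hs : z.f.Std) : z.red.f.On z.f.mk' :=
  Model.on_mk' (difb1_nstd hW hz hs)

lemma difb1_phi (hW : W.Δ ≠ 0) (hz : z.Over W) (hs : z.f.Std) {Q : Pt L} (hQ : z.f.On Q) :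
    z.red.f.On (z.f.phi Q) :=
  Model.on_phi (difb1_nstd hW hz hs) hQ

lemma difb1_core (hW : W.Δ ≠ 0) (hz : z.Over W) (hs : z.f.Std) {h : G L}
    (hh : (h.pt Pt.std).Eqv Pt.std) (h2 : (h • z.f).Std) :
    ∃ k : T3.G L, k • z.red = (h • z).red ∧ T3.Pt.Eqv (k.pt (h • z.f).mk') z.f.mk' ∧
      ∀ Q, T3.Pt.Eqv (k.pt ((h • z.f).phi Q)) (z.f.phi (h.pt Q)) := by
  have hb : h.IsPar := G.par_of_pt (difb1_nstd hW hz hs) hh h2
  obtain ⟨k, hk⟩ := hb.exists_ind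
  refine ⟨k, G.Ind.smul_obj hb hs hk, ?_, G.Ind.phi hb hs hk⟩
  obtain ⟨t, ht⟩ := G.Ind.pt_mk' hb hs hk
  rw [ht]
  exact T3.Pt.Eqv.symm ⟨_, t.ne_zero, rfl⟩

lemma difb1_inv {f : Model L} {Q : Pt L} (hQ : f.On Q) : (mover f Q)⁻¹.pt Q = Pt.std := by
  have := G.inv_pt_pt (mover f Q) Pt.std
  rwa [(mover_spec hQ).1] at this

lemma difb1_split {f : Model L} {Q : Pt L} (hQ : f.On Q) {g : G L}
    (hg : (g.pt Pt.std).Eqv Q) :
    ∃ h : G L, g = h * mover f Q ∧ (h.pt Pt.std).Eqv Pt.std := by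
  refine ⟨g * (mover f Q)⁻¹, by simp, ?_⟩
  have e := hg.pt (mover f Q)⁻¹
  rw [G.mul_pt]
  rwa [difb1_inv hQ] at e

lemma difb1_map_Delta (φ : L →+* L') (hW : W.Δ ≠ 0) : (W.map φ).Δ ≠ 0 := by
  rw [map_Δ]
  exact (map_ne_zero φ).2 hW

/-- Any `g` moving `(z, Q)` to standard position computes `D`: `g * (mover z.f Q)⁻¹` is block
triangular (`G.par_of_pt`); use `G.IsPar.exists_ind`, `G.Ind.smul_obj`, `G.Ind.phi`, `T3.D_smul`,
`T3.D_eqv`. -/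
theorem D_eq (hW : W.Δ ≠ 0) (hz : z.Over W) {Q Q' : Pt L} (hQ : z.f.On Q) (hQ' : z.f.On Q')
    (g : G L) (hg : (g.pt Pt.std).Eqv Q) (hs : (g • z.f).Std) :
    D W z Q Q' = T3.D W (g • z).red (g • z.f).mk' ((g • z.f).phi (g⁻¹.pt Q')) := by
  have hmk : (g • z).red.f.On (g • z.f).mk' := difb1_mk hW (hz.smul g) hs
  have hon : (g • z).red.f.On ((g • z.f).phi (g⁻¹.pt Q')) :=
    difb1_phi hW (hz.smul g) hs (difb1_on _ hQ')
  obtain ⟨h, rfl, hh⟩ := difb1_split hQ hg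
  have hs0 : (mover z.f Q • z).f.Std := (mover_spec hQ).2
  have hz0 := hz.smul (mover z.f Q)
  rw [mul_smul] at hs
  rw [mul_smul, mul_smul] at hmk hon
  obtain ⟨k, k1, k2, k3⟩ := difb1_core hW hz0 hs0 hh hs
  have hr := (Obj.over_red hs0).2 hz0
  rw [← k1] at hmk hon
  rw [mul_smul, mul_smul, ← k1, T3.D_smul hW hr k hmk hon, D]
  have e := k3 ((h * mover z.f Q)⁻¹.pt Q')
  rw [_root_.mul_inv_rev, G.mul_pt, G.pt_inv_pt] at e
  rw [_root_.mul_inv_rev, G.mul_pt] at hon ⊢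
  exact (T3.D_eqv hW hr ((T3.Model.on_pt _ _ _).2 hmk) ((T3.Model.on_pt _ _ _).2 hon)
    k2 e).symm

theorem piP_eq (hW : W.Δ ≠ 0) (hz : z.Over W) {Q : Pt L} (hQ : z.f.On Q)
    (g : G L) (hg : (g.pt Pt.std).Eqv Q) (hs : (g • z.f).Std) :
    piP W z Q = T3.piP W (g • z).red (g • z.f).mk' := by
  have hmk : (g • z).red.f.On (g • z.f).mk' := difb1_mk hW (hz.smul g) hs
  obtain ⟨h, rfl, hh⟩ := difb1_split hQ hg
  have hs0 : (mover z.f Q • z).f.Std := (mover_spec hQ).2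
  have hz0 := hz.smul (mover z.f Q)
  rw [mul_smul] at hs
  rw [mul_smul, mul_smul] at hmk
  obtain ⟨k, k1, k2, -⟩ := difb1_core hW hz0 hs0 hh hs
  have hr := (Obj.over_red hs0).2 hz0
  rw [← k1] at hmk
  rw [mul_smul, mul_smul, ← k1, T3.piP_smul hW hr k hmk, piP]
  exact (T3.piP_eqv hW hr ((T3.Model.on_pt _ _ _).2 hmk) k2).symm

lemma D_std (hW : W.Δ ≠ 0) (hz : z.Over W) (h : z.f.Std) {Q : Pt L} (hQ : z.f.On Q) :
    D W z Pt.std Q = T3.D W z.red z.f.mk' (z.f.phi Q) := by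
  have := D_eq hW hz h.on_std hQ 1 (by rw [G.one_pt]; exact Pt.Eqv.refl _)
    (by rw [one_smul]; exact h)
  rwa [one_smul, one_smul, inv_one, G.one_pt] at this

lemma piP_std (hW : W.Δ ≠ 0) (hz : z.Over W) (h : z.f.Std) :
    piP W z Pt.std = T3.piP W z.red z.f.mk' := by
  have := piP_eq hW hz h.on_std 1 (by rw [G.one_pt]; exact Pt.Eqv.refl _)
    (by rw [one_smul]; exact h)
  rwa [one_smul, one_smul] at this

theorem D_smul (hW : W.Δ ≠ 0) (hz : z.Over W) (g : G L) {Q Q' : Pt L} (hQ : (g • z).f.On Q)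
    (hQ' : (g • z).f.On Q') : D W (g • z) Q Q' = D W z (g.pt Q) (g.pt Q') := by
  have hm := mover_spec hQ
  rw [D_eq hW hz ((Model.on_pt g z.f _).2 hQ) ((Model.on_pt g z.f _).2 hQ')
    (mover (g • z).f Q * g) (by rw [G.mul_pt, hm.1]; exact Pt.Eqv.refl _)
    (by rw [mul_smul]; exact hm.2), D, mul_smul, mul_smul, _root_.mul_inv_rev, G.mul_pt,
    G.inv_pt_pt]
  rfl

theorem piP_smul (hW : W.Δ ≠ 0) (hz : z.Over W) (g : G L) {Q : Pt L} (hQ : (g • z).f.On Q) :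
    piP W (g • z) Q = piP W z (g.pt Q) := by
  have hm := mover_spec hQ
  rw [piP_eq hW hz ((Model.on_pt g z.f _).2 hQ)
    (mover (g • z).f Q * g) (by rw [G.mul_pt, hm.1]; exact Pt.Eqv.refl _)
    (by rw [mul_smul]; exact hm.2), piP, mul_smul, mul_smul]
  rfl

lemma D_eqv (hW : W.Δ ≠ 0) (hz : z.Over W) {Q₁ Q₁' Q₂ Q₂' : Pt L} (h₁ : z.f.On Q₁)
    (h₂ : z.f.On Q₂) (e₁ : Q₁.Eqv Q₁') (e₂ : Q₂.Eqv Q₂') : D W z Q₁ Q₂ = D W z Q₁' Q₂' := by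
  have hm := mover_spec h₁
  have hz0 := hz.smul (mover z.f Q₁)
  rw [D_eq hW hz (h₁.eqv e₁) (h₂.eqv e₂) (mover z.f Q₁) (by rw [hm.1]; exact e₁) hm.2, D]
  exact T3.D_eqv hW ((Obj.over_red (z := mover z.f Q₁ • z) hm.2).2 hz0)
    (difb1_mk hW hz0 hm.2) (difb1_phi hW hz0 hm.2 (difb1_on _ h₂)) (T3.Pt.Eqv.refl _)
    (Model.phi_eqv _ (e₂.pt _))

lemma piP_eqv (hW : W.Δ ≠ 0) (hz : z.Over W) {Q Q' : Pt L} (h : z.f.On Q) (e : Q.Eqv Q') :
    piP W z Q = piP W z Q' := by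
  have hm := mover_spec h
  rw [piP_eq hW hz (h.eqv e) (mover z.f Q) (by rw [hm.1]; exact e) hm.2, piP]
  rfl

lemma D_eq_zero_iff (hW : W.Δ ≠ 0) (hz : z.Over W) {Q Q' : Pt L} (hQ : z.f.On Q)
    (hQ' : z.f.On Q') : D W z Q Q' = 0 ↔ Q.Eqv Q' := by
  have hm := mover_spec hQ
  have hz0 := hz.smul (mover z.f Q)
  have ho := difb1_on (mover z.f Q) hQ'
  rw [D, T3.D_eq_zero_iff hW ((Obj.over_red (z := mover z.f Q • z) hm.2).2 hz0)
    (difb1_mk hW hz0 hm.2) (difb1_phi hW hz0 hm.2 ho), Obj.smul_f]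
  constructor
  · intro e
    rw [← Model.phi_std (mover z.f Q • z.f)] at e
    have := (Model.phi_injective (difb1_good hW hz0 hm.2) hm.2.on_std ho e).pt (mover z.f Q)
    rwa [hm.1, G.pt_inv_pt] at this
  · intro e
    have e1 := e.pt (mover z.f Q)⁻¹
    rw [difb1_inv hQ] at e1
    have := Model.phi_eqv (mover z.f Q • z.f) e1
    rwa [Model.phi_std] at this

lemma D_self (hW : W.Δ ≠ 0) (hz : z.Over W) {Q : Pt L} (hQ : z.f.On Q) : D W z Q Q = 0 :=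
  (D_eq_zero_iff hW hz hQ hQ).2 (Pt.Eqv.refl Q)

theorem toRaw_D_map (φ : L →+* L') (hW : W.Δ ≠ 0) (hz : z.Over W) {Q Q' : Pt L} (hQ : z.f.On Q)
    (hQ' : z.f.On Q') :
    toRaw (D (W.map φ) (z.map φ) (Q.map φ) (Q'.map φ)) = rawMap φ (toRaw (D W z Q Q')) := by
  have hm := mover_spec hQ
  have hz0 := hz.smul (mover z.f Q)
  have h1 : ((G.map φ (mover z.f Q)).pt Pt.std).Eqv (Q.map φ) := by
    rw [← Pt.map_std φ, G.map_pt, hm.1]; exact Pt.Eqv.refl _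
  have h2 : (G.map φ (mover z.f Q) • (z.map φ).f).Std := by
    rw [Obj.map_f, ← G.map_smul]; exact hm.2.map φ
  rw [D_eq (difb1_map_Delta φ hW) (hz.map φ) ((Model.on_map φ _ _).2 hQ)
    ((Model.on_map φ _ _).2 hQ') _ h1 h2, D,
    ← T3.toRaw_D_map φ hW ((Obj.over_red (z := mover z.f Q • z) hm.2).2 hz0)
      (difb1_mk hW hz0 hm.2) (difb1_phi hW hz0 hm.2 (difb1_on _ hQ')),
    ← Obj.map_smul, Obj.red_map, Obj.map_f, ← G.map_smul, ← map_inv, G.map_pt, Model.phi_map,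
    Model.mk'_map, Obj.smul_f]

theorem toRaw_piP_map (φ : L →+* L') (hW : W.Δ ≠ 0) (hz : z.Over W) {Q : Pt L} (hQ : z.f.On Q) :
    toRaw (piP (W.map φ) (z.map φ) (Q.map φ)) = rawMap φ (toRaw (piP W z Q)) := by
  have hm := mover_spec hQ
  have hz0 := hz.smul (mover z.f Q)
  have h1 : ((G.map φ (mover z.f Q)).pt Pt.std).Eqv (Q.map φ) := by
    rw [← Pt.map_std φ, G.map_pt, hm.1]; exact Pt.Eqv.refl _
  have h2 : (G.map φ (mover z.f Q) • (z.map φ).f).Std := by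
    rw [Obj.map_f, ← G.map_smul]; exact hm.2.map φ
  rw [piP_eq (difb1_map_Delta φ hW) (hz.map φ) ((Model.on_map φ _ _).2 hQ) _ h1 h2, piP,
    ← T3.toRaw_piP_map φ hW ((Obj.over_red (z := mover z.f Q • z) hm.2).2 hz0)
      (difb1_mk hW hz0 hm.2),
    ← Obj.map_smul, Obj.red_map, Obj.map_f, ← G.map_smul, Model.mk'_map, Obj.smul_f]

theorem toRaw_D_rmul (C : VariableChange L) (hW : W.Δ ≠ 0) (hz : z.Over (C • W)) {Q Q' : Pt L}
    (hQ : z.f.On Q) (hQ' : z.f.On Q') :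
    toRaw (D W (z.rmul C) Q Q') = vcRaw C (toRaw (D (C • W) z Q Q')) := by
  have hm := mover_spec hQ
  have hW' := (Delta_smul_ne_zero C).2 hW
  have hz0 := hz.smul (mover z.f Q)
  rw [D, D, Obj.smul_rmul, Obj.red_rmul]
  exact T3.toRaw_D_rmul C hW ((Obj.over_red (z := mover z.f Q • z) hm.2).2 hz0)
    (difb1_mk hW' hz0 hm.2) (difb1_phi hW' hz0 hm.2 (difb1_on _ hQ'))

lemma pmap_D (φ : L →+* L') (hW : W.Δ ≠ 0) (hz : z.Over W) {Q Q' : Pt L} (hQ : z.f.On Q)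
    (hQ' : z.f.On Q') : pmap φ (rfl : W.map φ = W.map φ) (D W z Q Q') =
      D (W.map φ) (z.map φ) (Q.map φ) (Q'.map φ) := by
  apply toRaw_injective
  rw [toRaw_pmap, toRaw_D_map φ hW hz hQ hQ']

theorem D_injective (hW : W.Δ ≠ 0) (hz : z.Over W) {Q Q' Q'' : Pt L} (hQ : z.f.On Q)
    (hQ' : z.f.On Q') (hQ'' : z.f.On Q'') (h : D W z Q Q' = D W z Q Q'') : Q'.Eqv Q'' := by
  have hm := mover_spec hQ
  have hz0 := hz.smul (mover z.f Q)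
  have o1 := difb1_on (mover z.f Q) hQ'
  have o2 := difb1_on (mover z.f Q) hQ''
  have e := T3.D_injective hW ((Obj.over_red (z := mover z.f Q • z) hm.2).2 hz0)
    (difb1_mk hW hz0 hm.2) (difb1_phi hW hz0 hm.2 o1) (difb1_phi hW hz0 hm.2 o2) h
  have e2 := (Model.phi_injective (difb1_good hW hz0 hm.2) o1 o2 e).pt (mover z.f Q)
  rwa [G.pt_inv_pt, G.pt_inv_pt] at e2

theorem D_surjective (hW : W.Δ ≠ 0) (hz : z.Over W) {Q : Pt L} (hQ : z.f.On Q)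
    (P : W.toAffine.Point) : ∃ Q', z.f.On Q' ∧ D W z Q Q' = P := by
  have hm := mover_spec hQ
  have hz0 := hz.smul (mover z.f Q)
  have h4 := (Obj.over_red (z := mover z.f Q • z) hm.2).2 hz0
  have h5 := difb1_mk hW hz0 hm.2
  obtain ⟨P', hP', e⟩ := T3.D_surjective hW h4 h5 P
  obtain ⟨R, hR, eR⟩ := Model.phi_surjective (difb1_nstd hW hz0 hm.2) hP'
  refine ⟨(mover z.f Q).pt R, (Model.on_pt _ _ _).2 hR, ?_⟩
  rw [D, G.inv_pt_pt, ← e]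
  exact T3.D_eqv hW h4 h5 (difb1_phi hW hz0 hm.2 hR) (T3.Pt.Eqv.refl _) eR

end SelAvg.FF.T5
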