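import Pool.Agent.H34P.DifB1

/-!
Normal forms and isomorphisms of pointed objects.
-/

namespace SelAvg.FF.T5

open WeierstrassCurve Matrix
open scoped Classical

variable {L L' : Type*} [Field L] [Field L']
variable {W : WeierstrassCurve L} {z z' : Obj L}

/-- the normal form attached to a raw point -/
noncomputable def zP (W : WeierstrassCurve L) (p : Option (L × L)) : Obj L :=
  Obj.unred (T3.zP W p)

lemma zP_std (W : WeierstrassCurve L) (p : Option (L × L)) : (zP W p).f.Std := Model.unred_std _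

lemma zP_on (W : WeierstrassCurve L) (p : Option (L × L)) : (zP W p).f.On Pt.std :=
  (zP_std W p).on_std

lemma zP_over {W : WeierstrassCurve L} {p : Option (L × L)} (hp : Valid W p) :
    (zP W p).Over W :=
  (Obj.over_unred (T3.zP_a W p)).2 (T3.zP_over hp)

lemma zP_map (φ : L →+* L') (W : WeierstrassCurve L) (p : Option (L × L)) :
    (zP W p).map φ = zP (W.map φ) (rawMap φ p) := by
  rw [zP, zP, ← T3.zP_map, Obj.unred_map]

lemma zP_u (W : WeierstrassCurve L) (p : Option (L × L)) : (zP W p).γ.u = 1 := by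
  have h1 := T3.zP_u W p
  have h2 := Model.shS_u (Model.unred (T3.zP W p).f)
  change ((Model.unred (T3.zP W p).f).shS * (T3.zP W p).γ).u = 1
  rw [VariableChange.mul_def]
  simp only [h1, h2, mul_one]

lemma piP_zP (hW : W.Δ ≠ 0) (P : W.toAffine.Point) : piP W (zP W (toRaw P)) Pt.std = P := by
  rw [piP_std hW (zP_over (valid_toRaw P)) (zP_std _ _), zP, Obj.red_unred (T3.zP_a _ _),
    Obj.unred_f, Model.mk'_unred]
  exact T3.piP_zP hW P

/-- the data of a pointed object moved to standard position -/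
lemma difb2_std (hW : W.Δ ≠ 0) (hz : z.Over W) {Q : Pt L} (hQ : z.f.On Q) :
    (mover z.f Q).pt Pt.std = Q ∧ (mover z.f Q)⁻¹.pt Q = Pt.std ∧ (mover z.f Q • z).f.NStd ∧
      (mover z.f Q • z).red.Over W ∧ (mover z.f Q • z).red.f.On (mover z.f Q • z).f.mk' := by
  obtain ⟨h1, h2⟩ := mover_spec hQ
  have h3 : (mover z.f Q • z).f.NStd :=
    (Model.goodStd_of_Delta ((hz.smul (mover z.f Q)).jac_Delta hW) h2).nstd
  refine ⟨h1, ?_, h3, (Obj.over_red h3.std).2 (hz.smul _), Model.on_mk' h3⟩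
  have := G.inv_pt_pt (mover z.f Q) Pt.std
  rwa [h1] at this

/-- Move both points to standard position, apply `T3.exists_iso` to the projections and lift by
`exists_par_of_red`. -/
theorem exists_iso (hW : W.Δ ≠ 0) (hz : z.Over W) (hz' : z'.Over W) {Q Q' : Pt L}
    (hQ : z.f.On Q) (hQ' : z'.f.On Q') (h : piP W z Q = piP W z' Q') :
    ∃ g : G L, g • z' = z ∧ (g.pt Q).Eqv Q' := by
  obtain ⟨-, h2, h3, h4, h5⟩ := difb2_std hW hz hQ
  obtain ⟨h1', -, h3', h4', h5'⟩ := difb2_std hW hz' hQ'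
  obtain ⟨k, hk, e⟩ := T3.exists_iso hW h4 h4' h5 h5' h
  obtain ⟨t, -, e⟩ := e.symm
  obtain ⟨g, hg, -, hgz⟩ := exists_par_of_red h3 h3' hk (t := t) e
  refine ⟨(mover z.f Q)⁻¹ * g * mover z'.f Q', ?_, ?_⟩
  · rw [mul_smul, mul_smul, hgz, inv_smul_smul]
  · have h7 := hg.eqv_std.pt (mover z'.f Q')
    rw [h1'] at h7
    rw [G.mul_pt, G.mul_pt, h2]
    exact h7

/-- an automorphism fixing the standard point of a model in standard position is a scalar -/
lemma difb2_scalar (hW : W.Δ ≠ 0) (hz : z.Over W) (h2 : z.f.NStd) {g : G L} (hg : g • z = z)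
    (hpt : (g.pt Pt.std).Eqv Pt.std) : ∃ t : Lˣ, g = G.scalar t := by
  have hf : g • z.f = z.f := congrArg Obj.f hg
  have hB : g.IsPar := G.par_of_pt h2 hpt (by rw [hf]; exact h2.std)
  obtain ⟨k, hk⟩ := hB.exists_ind
  have hkz : k • z.red = z.red := by rw [G.Ind.smul_obj hB h2.std hk, hg]
  obtain ⟨s, hs⟩ := G.Ind.pt_mk' hB h2.std hk
  rw [hf] at hs
  have hkp : T3.Pt.Eqv (k.pt z.f.mk') z.f.mk' := T3.Pt.Eqv.symm ⟨s, s.ne_zero, hs⟩
  obtain ⟨t, rfl⟩ := T3.eq_scalar_of_fix hW ((Obj.over_red h2.std).2 hz) (Model.on_mk' h2) hkz hkp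
  have hi := G.Ind.mul (G.IsPar.scalar t).inv hB
    (G.Ind.inv (G.IsPar.scalar t) (G.Ind.scalar t)) hk
  rw [inv_mul_cancel] at hi
  have e : ((G.scalar t)⁻¹ * g) • z.f = z.f := by
    rw [mul_smul, hf, inv_smul_eq_iff, G.scalar_smul]
  have := eq_one_of_ind h2 ((G.IsPar.scalar t).inv.mul hB) hi e
  exact ⟨t, (inv_mul_eq_one.1 this).symm⟩

/-- In standard position `g` is block triangular, the induced element is a scalar `t`
(`T3.eq_scalar_of_fix`), and `eq_one_of_ind` applies to `(scalar t)⁻¹ * g`. -/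
theorem eq_scalar_of_fix (hW : W.Δ ≠ 0) (hz : z.Over W) {Q : Pt L} (hQ : z.f.On Q) {g : G L}
    (hg : g • z = z) (hgQ : (g.pt Q).Eqv Q) : ∃ t : Lˣ, g = G.scalar t := by
  obtain ⟨h1, h2, h3, -⟩ := difb2_std hW hz hQ
  have hg1 : (mover z.f Q * g * (mover z.f Q)⁻¹) • (mover z.f Q • z) = mover z.f Q • z := by
    rw [mul_smul, inv_smul_smul, mul_smul, hg]
  have hpt : ((mover z.f Q * g * (mover z.f Q)⁻¹).pt Pt.std).Eqv Pt.std := by
    rw [G.mul_pt, G.mul_pt, h1]
    have h4 := hgQ.pt (mover z.f Q)⁻¹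
    rwa [h2] at h4
  obtain ⟨t, ht⟩ := difb2_scalar hW (hz.smul _) h3 hg1 hpt
  refine ⟨t, ?_⟩
  have h4 : mover z.f Q * g = mover z.f Q * G.scalar t := by
    rw [← G.scalar_comm, ← ht, inv_mul_cancel_right]
  exact mul_left_cancel h4

theorem iso_unique (hW : W.Δ ≠ 0) (hz : z.Over W) {Q : Pt L} {g g' : G L}
    (hQ : (g • z).f.On Q) (hg : g • z = g' • z) (hgQ : (g.pt Q).Eqv (g'.pt Q)) :
    ∃ t : Lˣ, g' = G.scalar t * g := by
  have h1 : (g' * g⁻¹) • (g • z) = g • z := by rw [mul_smul, inv_smul_smul, hg]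
  have h2 : ((g' * g⁻¹).pt Q).Eqv Q := by
    rw [G.mul_pt]
    have := hgQ.symm.pt g⁻¹
    rwa [G.inv_pt_pt] at this
  obtain ⟨t, ht⟩ := eq_scalar_of_fix hW (hz.smul g) hQ h1 h2
  exact ⟨t, by rw [← ht, inv_mul_cancel_right]⟩

end SelAvg.FF.T5
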