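import Pool.Agent.H15G.SiegN

/-! The weight that dominates the cusp, in every rank. -/

namespace SelAvg.FF

open WeierstrassCurve WithZero Filter Topology Matrix
open scoped Classical ENNReal

lemma wtN_geom {s : ℝ≥0∞} (hs : s < 1) (n : ℕ) : ∑' e : Fin n → ℕ, ∏ i, s ^ e i ≠ ⊤ := by
  induction n with
  | zero => simp
  | succ n ih =>
    rw [← (Fin.consEquiv fun _ => ℕ).tsum_eq, ENNReal.tsum_prod']
    simp only [Fin.consEquiv_apply, Fin.prod_univ_succ, Fin.cons_zero, Fin.cons_succ,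
      ENNReal.tsum_mul_left]
    rw [ENNReal.tsum_mul_right, ENNReal.tsum_geometric]
    exact ENNReal.mul_ne_top (ENNReal.inv_ne_top.2 (tsub_pos_of_lt hs).ne') ih

variable {F : Type} [Field F] [Cv F] {n m : ℕ}

variable (F) in
/-- the bound in the reduction theorem -/
noncomputable def rbN : ℕ := (exists_reducedN (F := F)).choose

variable (F) in
/-- the slopes increase up to the bound -/
def RedN (d : Fin n → ℤ) : Prop := ∀ i j : Fin n, (j : ℕ) + 1 = i → -(rbN F : ℤ) ≤ d i - d j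

variable (F) in
/-- the sum of the differences of the shifted degrees -/
noncomputable def spN (d : Fin n → ℤ) : ℤ :=
  ∑ i, ∑ j, if j < i then d i + (i : ℕ) * rbN F - (d j + (j : ℕ) * rbN F) else 0

lemma RedN.mono {d : Fin n → ℤ} (h : RedN F d) : Monotone fun i : Fin n => d i + (i : ℕ) * rbN F := by
  cases n with
  | zero => exact fun i => i.elim0
  | succ n =>
    refine Fin.monotone_iff_le_succ.2 fun i => ?_
    have := h i.succ i.castSucc rfl
    simp only [Fin.val_succ, Fin.val_castSucc, Nat.cast_add, Nat.cast_one]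
    linarith

lemma RedN.term {d : Fin n → ℤ} (h : RedN F d) (i j : Fin n) :
    0 ≤ if j < i then d i + (i : ℕ) * rbN F - (d j + (j : ℕ) * rbN F) else 0 := by
  split_ifs with h1
  exacts [sub_nonneg.2 (h.mono h1.le), le_rfl]

lemma RedN.spN_nonneg {d : Fin n → ℤ} (h : RedN F d) : 0 ≤ spN F d :=
  Finset.sum_nonneg fun i _ => Finset.sum_nonneg fun j _ => h.term i j

lemma spN_five (d : Fin 5 → ℤ) : spN F d = 4 * (d 4 - d 0) + 2 * (d 3 - d 1) + 20 * rbN F := by
  simp [spN, Fin.sum_univ_succ]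
  ring

lemma spN_four (d : Fin 4 → ℤ) : spN F d = 3 * (d 3 - d 0) + (d 2 - d 1) + 10 * rbN F := by
  simp [spN, Fin.sum_univ_succ]
  ring

lemma spN_two (d : Fin 2 → ℤ) : spN F d = d 1 - d 0 + rbN F := by
  simp [spN, Fin.sum_univ_succ]
  ring

lemma sxN_eq (d : Fin n → ℤ) : sxN F d = spN F d + (sxN F (0 : Fin n → ℤ) - spN F (0 : Fin n → ℤ)) := by
  simp only [sxN, spN, ← Finset.sum_sub_distrib, ← Finset.sum_add_distrib, Pi.zero_apply]
  refine Finset.sum_congr rfl fun i _ => Finset.sum_congr rfl fun j _ => ?_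
  split_ifs <;> ring

/-- the spreads of the reduced flags -/
def SpN (x : XN F n) : Set ℕ := {r | ∃ d, StratN d x ∧ RedN F d ∧ spN F d = r}

lemma SpN_nonempty (x : XN F n) : (SpN x).Nonempty := by
  obtain ⟨γ, D, η, h1, h2⟩ := (exists_reducedN (F := F)).choose_spec n x
  have h3 : RedN F fun i => deg (D i) := h2
  exact ⟨_, _, ⟨γ, D, η, h1, fun _ => rfl⟩, h3, (Int.toNat_of_nonneg h3.spN_nonneg).symm⟩

/-- the least spread -/
noncomputable def rN (x : XN F n) : ℕ := sInf (SpN x)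

/-- the weight of a bundle -/
noncomputable def wtN (x : XN F n) : ℝ := qq F ^ (99 / 100 * (rN x : ℝ))

lemma one_le_wtN (x : XN F n) : 1 ≤ wtN x := Real.one_le_rpow one_lt_qq.le (by positivity)

lemma wtN_pos (x : XN F n) : 0 < wtN x := zero_lt_one.trans_le (one_le_wtN x)

theorem exists_rN (x : XN F n) : ∃ (γ : GL (Fin n) F) (D : Fin n → Div F)
    (η : Fin n → Fin n → A F), actN F n γ x = RC.mk (KN F n) (triN D η) ∧
      RedN F (fun i => deg (D i)) ∧ spN F (fun i => deg (D i)) = rN x := by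
  obtain ⟨d, ⟨γ, D, η, h1, h2⟩, h3, h4⟩ := Nat.sInf_mem (SpN_nonempty x)
  obtain rfl : (fun i => deg (D i)) = d := funext h2
  exact ⟨γ, D, η, h1, h3, h4⟩

lemma wtN_act (γ : GL (Fin n) F) (x : XN F n) : wtN (actN F n γ x) = wtN x := by
  simp only [wtN, rN, SpN, StratN_act]

lemma SpN_twN_subset (E : Div F) (x : XN F n) : SpN x ⊆ SpN (twN n E x) := by
  rintro r ⟨d, ⟨γ, D, η, h1, h2⟩, h3, h4⟩
  refine ⟨fun i => d i + deg E, ⟨γ, fun i => D i + E, η, ?_, fun i => by rw [map_add, h2]⟩,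
    fun i j h => by simpa using h3 i j h, Eq.trans ?_ h4⟩
  · rw [← twN_actN, h1, twN_triN]
  · refine Finset.sum_congr rfl fun i _ => Finset.sum_congr rfl fun j _ => ?_
    split_ifs <;> ring

lemma wtN_twN (E : Div F) (x : XN F n) : wtN (twN n E x) = wtN x := by
  have h := SpN_twN_subset (-E) (twN n E x)
  rw [← twN_add, neg_add_cancel, twN_zero] at h
  rw [wtN, wtN, rN, rN, h.antisymm (SpN_twN_subset E x)]

/-- the weight is summable over finitely many degrees -/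
theorem tsum_wtN_ne_top (hn : 0 < n) {ρ : XN F n → ℝ≥0∞} (hρ : IsBru (actN F n) ρ) (K : Finset ℤ) :
    ∑' x, ρ x * (if degN x ∈ K then ENNReal.ofReal (wtN x) else 0) ≠ ⊤ := by
  have hq := one_lt_qq (F := F)
  have hq0 : 0 < qq F := zero_lt_one.trans hq
  obtain ⟨T, hT⟩ : ∃ T : Set (Fin n → ℤ), ∀ d, d ∈ T ↔ ∑ i, d i ∈ K ∧ RedN F d :=
    ⟨_, fun _ => Iff.rfl⟩
  have h1 := tsum_le_stratN hρ (fun x => if degN x ∈ K then ENNReal.ofReal (wtN x) else 0)
    (fun d => if d ∈ T then ENNReal.ofReal (qq F ^ (99 / 100 * (spN F d : ℝ))) else 0)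
    fun x hx => by
      have hk : degN x ∈ K := by
        by_contra hk
        exact hx (if_neg hk)
      obtain ⟨d, h0, h1, h2⟩ := Nat.sInf_mem (SpN_nonempty x)
      refine ⟨d, h0, ?_⟩
      rw [if_pos hk, if_pos ((hT _).2 ⟨h0.degN ▸ hk, h1⟩), h2]
      rfl
  refine ne_top_of_le_ne_top (ENNReal.mul_ne_top (ENNReal.pow_ne_top kap_ne_top) ?_) h1
  obtain ⟨t, ht⟩ : ∃ t, t = qq F ^ (-(1 / 100) : ℝ) := ⟨_, rfl⟩
  have ht0 : 0 < t := ht ▸ Real.rpow_pos_of_pos hq0 _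
  have ht1 : t < 1 := ht ▸ Real.rpow_lt_one_of_one_lt_of_neg hq (by norm_num)
  obtain ⟨z, hz⟩ : ∃ z : Fin n, ∀ i, z ≤ i := ⟨⟨0, hn⟩, fun i => Nat.zero_le _⟩
  have hp : ∀ d : T, ∀ i : Fin n, 0 ≤ d.1 i + (i : ℕ) * rbN F - (d.1 z + (z : ℕ) * rbN F) :=
    fun d i => sub_nonneg.2 (((hT _).1 d.2).2.mono (hz i))
  let φ : T → K × (Fin n → ℕ) := fun d => (⟨∑ i, d.1 i, ((hT _).1 d.2).1⟩,
    fun i => (d.1 i + (i : ℕ) * rbN F - (d.1 z + (z : ℕ) * rbN F)).toNat)
  have hφ : Function.Injective φ := fun d d' e => by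
    have e1 : ∑ i, d.1 i = ∑ i, d'.1 i := congrArg (fun p => p.1.1) e
    have e2 : ∀ i, d.1 i = d'.1 i + (d.1 z - d'.1 z) := fun i => by
      have e3 : _ = _ := congrArg (fun p => ((p.2 i : ℕ) : ℤ)) e
      simp only [φ, Int.toNat_of_nonneg (hp _ i)] at e3
      linarith
    rw [Finset.sum_congr rfl fun i _ => e2 i, Finset.sum_add_distrib, add_eq_left, Finset.sum_const,
      Finset.card_univ, Fintype.card_fin, nsmul_eq_mul, mul_eq_zero,
      or_iff_right (by exact_mod_cast hn.ne')] at e1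
    exact Subtype.ext (funext fun i => by rw [e2 i, e1, add_zero])
  have h2 := ENNReal.tsum_comp_le_tsum_of_injective hφ fun p => ∏ i, ENNReal.ofReal t ^ p.2 i
  have h3 : ∑' p : K × (Fin n → ℕ), ∏ i, ENNReal.ofReal t ^ p.2 i ≠ ⊤ := by
    rw [ENNReal.tsum_prod', tsum_fintype]
    exact ENNReal.sum_ne_top.2 fun _ _ => wtN_geom (ENNReal.ofReal_lt_one.2 ht1) n
  refine ne_top_of_le_ne_top (ENNReal.mul_ne_top (ENNReal.ofReal_ne_top
    (r := qq F ^ (-(sxN F (0 : Fin n → ℤ) - spN F (0 : Fin n → ℤ))))) h3) ?_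
  refine le_trans ?_ (mul_le_mul_right h2 _)
  rw [← ENNReal.tsum_mul_left, ← tsum_subtype_eq_of_support_subset (s := T) fun d hd => by
    by_contra h
    exact hd (by simp only [if_neg h, zero_mul])]
  refine ENNReal.tsum_le_tsum fun d => ?_
  have h4 := ((hT _).1 d.2).2
  obtain ⟨r, hr⟩ := Int.eq_ofNat_of_zero_le h4.spN_nonneg
  have h5 : ∑ i, (φ d).2 i ≤ r := by
    zify
    rw [← hr]
    refine Finset.sum_le_sum fun i _ => ?_
    simp only [φ, Int.toNat_of_nonneg (hp _ i)]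
    refine le_trans ?_ (Finset.single_le_sum (fun j _ => h4.term i j) (Finset.mem_univ z))
    rcases (hz i).eq_or_lt with h | h
    · simp [h]
    · rw [if_pos h]
  rw [if_pos d.2, Finset.prod_pow_eq_pow_sum, ← ENNReal.ofReal_pow ht0.le,
    ← ENNReal.ofReal_mul (zpow_pos hq0 _).le, ← ENNReal.ofReal_mul' (zpow_pos hq0 _).le, sxN_eq,
    neg_add, zpow_add₀ hq0.ne', ← mul_assoc, mul_comm]
  refine ENNReal.ofReal_le_ofReal (mul_le_mul_of_nonneg_left (le_trans (le_of_eq ?_)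
    (pow_le_pow_of_le_one ht0.le ht1.le h5)) (zpow_pos hq0 _).le)
  rw [hr, ht, ← Real.rpow_intCast, ← Real.rpow_add hq0, ← Real.rpow_natCast, ← Real.rpow_mul hq0.le]
  congr 1
  push_cast
  ring

/-- the weight of pairs is summable over finitely many degrees -/
theorem tsum_wtNN_ne_top (hm : 0 < m) (hn : 0 < n) {τ : XN F m × XN F n → ℝ≥0∞}
    (hτ : IsBru (prodAct (actN F m) (actN F n)) τ) (K L : Finset ℤ) :
    ∑' x, τ x * (if degN x.1 ∈ K ∧ degN x.2 ∈ L then ENNReal.ofReal (wtN x.1 * wtN x.2) else 0) ≠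
      ⊤ := by
  obtain ⟨ρ, hρ⟩ := exists_bruN (F := F) m
  obtain ⟨ρ', hρ'⟩ := exists_bruN (F := F) n
  have h := hτ.tsum_prod hρ hρ' (fun x => if degN x ∈ K then ENNReal.ofReal (wtN x) else 0)
    (fun x => if degN x ∈ L then ENNReal.ofReal (wtN x) else 0)
    (fun g x => by rw [degN_act, wtN_act]) fun g x => by rw [degN_act, wtN_act]
  refine ne_of_eq_of_ne (Eq.trans (tsum_congr fun x => ?_) h)
    (ENNReal.mul_ne_top (tsum_wtN_ne_top hm hρ K) (tsum_wtN_ne_top hn hρ' L))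
  by_cases h1 : degN x.1 ∈ K <;> by_cases h2 : degN x.2 ∈ L <;>
    simp [h1, h2, ENNReal.ofReal_mul (wtN_pos x.1).le]

end SelAvg.FF
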