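import Pool.Agent.H34P.GtB

/-! The cusp bound for an arbitrary pair of adelic matrices. -/

namespace SelAvg.FF.T5

open WeierstrassCurve WithZero Filter Topology Matrix
open scoped Classical ENNReal

variable {F : Type} [Field F]

lemma forall_vec_mem {f : Model (A F)} :
    (∀ n, Model.equivVec f n ∈ Oh F) ↔ ∀ k i j, f.c k i j ∈ Oh F := by
  refine ⟨fun h k i j => ?_, fun h n => h _ _ _⟩
  have h1 : ∀ i j, i < j → f.c k i j ∈ Oh F := fun i j hij => by
    obtain ⟨p, rfl, rfl⟩ := exists_pI i j hij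
    exact Model.equivVec_ix f k p ▸ h (ix k p)
  rcases lt_trichotomy i j with e | rfl | e
  · exact h1 i j e
  · rw [f.diag]
    exact zero_mem _
  · rw [f.alt]
    exact neg_mem (h1 j i e)

variable [Cv F]

lemma int5_iff {a b : GL (Fin 5) (A F)} {f : Model F} :
    Int5 a b f ↔ ∀ k i j, ((f.map (toA F)).act a.1 b.1).c k i j ∈ Oh F := forall_vec_mem

lemma Int5.K {a b k k' : GL (Fin 5) (A F)} (hk : k ∈ KN F 5) (hk' : k' ∈ KN F 5) {f : Model F}
    (h : Int5 a b f) : Int5 (k * a) (k' * b) f := by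
  refine int5_iff.2 fun l i j => ?_
  rw [Units.val_mul, Units.val_mul, ← Model.act_act, act_apply]
  exact sum_mem fun p _ => mul_mem (mul_mem (mul_mem ((mem_KN.1 hk').1 _ _) ((mem_KN.1 hk).1 _ _))
    ((mem_KN.1 hk).1 _ _)) (int5_iff.1 h _ _ _)

lemma int5_act (a b : GL (Fin 5) (A F)) (γ δ : GL (Fin 5) F) (f : Model F) :
    Int5 (a * (glAN F 5 γ)⁻¹) (b * (glAN F 5 δ)⁻¹) (f.act γ.1 δ.1) ↔ Int5 a b f := by
  have h : ∀ (a : GL (Fin 5) (A F)) (γ : GL (Fin 5) F),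
      (a * (glAN F 5 γ)⁻¹).1 * γ.1.map (toA F) = a.1 := fun a γ =>
    congrArg Units.val (inv_mul_cancel_right a (glAN F 5 γ))
  rw [Int5, Int5, Model.map_act, Model.act_act, h, h]

/-- the cusp bound -/
theorem cusp5 {Bad : Model F → Prop} (hB : IsBad5 Bad) : ∃ K : ℝ, 0 < K ∧
    ∀ (a b : GL (Fin 5) (A F)) (s : Finset (Model F)), (∀ f ∈ s, Int5 a b f ∧ ¬Bad f) →
      (s.card : ℝ) ≤ K * (wtN (RC.mk (KN F 5) a) * wtN (RC.mk (KN F 5) b)) *
        qq F ^ (10 * deg (2 • idiv (GeneralLinearGroup.det a) + idiv (GeneralLinearGroup.det b)) +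
          50 * cc F) := by
  obtain ⟨K, hK, hC⟩ := card_cusp_le hB
  refine ⟨K, hK, fun a b s hs => ?_⟩
  obtain ⟨γ, DA, η, h1, h2, h3⟩ := exists_rN (RC.mk (KN F 5) a)
  obtain ⟨δ, DB, ζ, h4, h5, h6⟩ := exists_rN (RC.mk (KN F 5) b)
  have e1 := congrArg degN h1
  have e2 := congrArg degN h4
  rw [degN_act, degN_triN, degN, detN_mk, ← map_sum] at e1 e2
  obtain ⟨k, hk, e3⟩ := RC.mk_eq.1 ((actN_mk γ a).symm.trans h1)
  obtain ⟨k', hk', e4⟩ := RC.mk_eq.1 ((actN_mk δ b).symm.trans h4)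
  have hi : Function.Injective fun f : Model F => f.act γ.1 δ.1 := fun f f' e => by
    have := congrArg (Model.act (γ⁻¹).1 (δ⁻¹).1) e
    simpa only [Model.act_act, Units.inv_mul, Model.act_one] using this
  have h7 := hC DA DB η ζ h2 h5 (s.image fun f => f.act γ.1 δ.1) fun f' hf' => by
    obtain ⟨f, hf, rfl⟩ := Finset.mem_image.1 hf'
    refine ⟨?_, fun h => (hs f hf).2 (hB.gl _ _ f (isUnit_iff_isUnit_det _ |>.1 γ.isUnit)
      (isUnit_iff_isUnit_det _ |>.1 δ.isUnit) h)⟩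
    rw [e3, e4]
    exact ((int5_act a b γ δ f).2 (hs f hf).1).K hk hk'
  rw [Finset.card_image_of_injective _ hi, h3, h6, map_add, map_nsmul, ← e1, ← e2, ← map_nsmul,
    ← map_add] at h7
  exact h7

theorem finite_int5' (a b : GL (Fin 5) (A F)) : {f | Int5 a b f}.Finite := by
  obtain ⟨k, hk, DA, η, rfl⟩ := exists_triN a
  obtain ⟨k', hk', DB, ζ, rfl⟩ := exists_triN b
  refine (finite_int5 DA DB η ζ).subset fun f hf => ?_
  have h := Int5.K (inv_mem hk) (inv_mem hk') hf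
  rwa [inv_mul_cancel_left, inv_mul_cancel_left] at h

end SelAvg.FF.T5
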