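import Pool.Agent.H34P.Orb0
import Pool.Agent.H34P.GtC
import Pool.Agent.H81Sel.Orb

/-! The size of the boxes in a family of torsors. -/

namespace SelAvg.FF.T5

open WeierstrassCurve WithZero Filter Topology Matrix
open scoped Classical ENNReal

variable {F : Type} [Field F] [Cv F]

lemma intM_iff_int5 {g : G (A F)} {f : Model F} : IntM g f ↔ Int5 g.A g.M f := intM_iff

theorem card_VB_gm (g : G (A F)) : ∀ᶠ m : ℕ in atTop,
    ((VB (gm g m)).card : ℝ) = qq F ^ (10 * deg (cls (gm g m)) + 50 * cc F) := by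
  obtain ⟨k, hk, DA, η, h1⟩ := exists_triN g.A
  obtain ⟨k', hk', DB, ζ, h2⟩ := exists_triN g.M
  have h3 : ∀ᶠ m : ℕ in atTop, ∀ n, (c0 F : ℤ) - deg (DV DA DB n) ≤ deg (m • PP F) :=
    eventually_all.2 fun n => orb_ev _
  filter_upwards [h3] with m hm
  have hk0 : (⟨k, k'⟩ : G (A F)) ∈ KG F := mem_KG.2 ⟨hk, hk'⟩
  have e : gm g m = ⟨k, k'⟩ * ⟨triN DA η, triN (fun i => DB i + m • PP F) ζ⟩ := by
    refine G.ext ((one_mul _).trans h1) ?_
    change scN 5 (piD (m • PP F)) * g.M = k' * triN (fun i => DB i + m • PP F) ζ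
    rw [h2, ← scN_mul_triN, ← mul_assoc, scN_comm, mul_assoc]
  rw [e, VB_K hk0, cls_K hk0, cls_eq, det_triN, det_triN, idiv_piD, idiv_piD]
  refine card_int5 η ζ (fun n => ?_) _ fun f => mem_VB.trans intM_iff_int5
  have h4 := hm n
  simp only [DV, map_add] at h4 ⊢
  omega

end SelAvg.FF.T5
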