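import Pool.Agent.H34P.Sum0
import Pool.Agent.H34P.Orb
import Pool.Agent.H81Sel.Sum1
import Pool.Agent.H5T.Wt3

/-! Dominated convergence over the pairs of bundles of rank five. -/

namespace SelAvg.FF.T5

open WeierstrassCurve WithZero Filter Topology Matrix
open scoped Classical ENNReal

lemma ev_five {p : ℕ → Prop} (h : ∀ r : Fin 5, ∀ᶠ j : ℕ in atTop, p (5 * j + r)) :
    ∀ᶠ m : ℕ in atTop, p m := by
  obtain ⟨N, hN⟩ := eventually_atTop.1 (eventually_all.2 h)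
  filter_upwards [eventually_ge_atTop (5 * N)] with m hm
  have h1 := hN (m / 5) (by omega) ⟨m % 5, by omega⟩
  rwa [Nat.div_add_mod] at h1

variable {F : Type} [Field F] [Cv F]

lemma norm_const {D : Div F} (hD : (c0 F : ℤ) ≤ deg D) :
    ((GB D).card : ℝ) * qq F ^ (10 * deg D + 50 * cc F) =
      ww F * qq F ^ (48 * cc F) * (WB D).card := by
  have hq : qq F ≠ 0 := (zero_lt_one.trans one_lt_qq).ne'
  rw [card_GB hD, card_WB hD, mul_assoc, mul_assoc, ← zpow_add₀ hq, ← zpow_add₀ hq]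
  congr 2
  ring

lemma sum1_const {D : Div F} (hD : (c0 F : ℤ) ≤ deg D) {T : ℝ} :
    ((GB D).card : ℝ≥0∞) * ENNReal.ofReal (T * qq F ^ (10 * deg D + 50 * cc F)) =
      ENNReal.ofReal (ww F * qq F ^ (48 * cc F) * T * (WB D).card) := by
  rw [← ENNReal.ofReal_natCast, ← ENNReal.ofReal_mul (Nat.cast_nonneg _)]
  congr 1
  linear_combination T * norm_const hD

lemma sum1_mG : ww F * qq F ^ (48 * cc F) * mG F = 5 * kapR F * zz5 F := by
  have h1 : qq F ^ (48 * cc F) * qq F ^ (-48 * cc F) = 1 := by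
    rw [← zpow_add₀ (zero_lt_one.trans one_lt_qq).ne']
    simp
  have h2 : (ww F : ℝ) * (ww F : ℝ)⁻¹ = 1 := mul_inv_cancel₀ (Nat.cast_ne_zero.2 ww_pos.ne')
  rw [mG]
  linear_combination (5 * kapR F * zz5 F * (ww F * (ww F : ℝ)⁻¹)) * h1 + 5 * kapR F * zz5 F * h2

lemma sum1_shift {ρ : XG F → ℝ≥0∞} (hρ : IsBru (actG F) ρ) (R : Div F) (j : ℕ) :
    ∃ ρ', IsBru (actG F) ρ' ∧ ∀ Ψ : XG F → ℝ≥0∞, ∑' x, ρ' x *
      (if x ∈ XD (R + (5 * j) • PP F) then (if parN (pN x) then Ψ x else 0) else 0) =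
      ∑' x, ρ x * (if x ∈ XD R ∧ parN (pN x) then Ψ (tw2G (j • PP F) x) else 0) := by
  refine ⟨_, hρ.comp_perm (tw2G (j • PP F)).symm fun g x => ?_, fun Ψ => ?_⟩
  · rw [Equiv.symm_apply_eq, tw2G_act, Equiv.apply_symm_apply]
  · rw [← (tw2G (j • PP F)).tsum_eq]
    simp only [Equiv.symm_apply_apply, mul_smul, tw2G_mem_XD, pN_tw2G, ite_and]

lemma sum1_Psi {h : G (A F) → Model F → ℝ} (hh : Adm h) (x : XG F) (j : ℕ) {Q : ℝ} (hQ : 0 < Q)
    (hc : ((VB (gm x.out j)).card : ℝ) = Q) :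
    Psi h (tw2G (j • PP F) x) = avg (VB (gm x.out j)) (h (gm x.out j)) * Q := by
  rw [tw2G_out, hh.Psi_mk, avg, hc, div_mul_cancel₀ _ hQ.ne']

lemma sum1_card (R : Div F) {x : XG F} (hx : x ∈ XD R) : ∀ᶠ j : ℕ in atTop,
    ((VB (gm x.out j)).card : ℝ) = qq F ^ (10 * deg (R + (5 * j) • PP F) + 50 * cc F) := by
  obtain ⟨u, hu⟩ := hx
  filter_upwards [card_VB_gm x.out] with j hj
  rw [hj, cls_gm, hu, add_right_comm, map_add _ _ (dv _), deg_dv, add_zero]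

lemma sum1_deg5 (R : Div F) : ∀ᶠ j : ℕ in atTop, (c0 F : ℤ) ≤ deg (R + (5 * j) • PP F) :=
  (tendsto_id.const_mul_atTop' (by norm_num : 0 < 5)).eventually (sum1_deg R)

lemma SD_le_five (R : Div F) (S : Finset (Place F)) {L : ℝ} (hL : 0 ≤ L)
    (h : ∀ g, ∀ᶠ m : ℕ in atTop, avg (VB (gm g m)) (upF S (gm g m)) ≤ L)
    {ε : ℝ} (hε : 0 < ε) : ∀ᶠ j : ℕ in atTop, SD (R + (5 * j) • PP F) ≤ 5 * zz5 F * L + ε := by
  obtain ⟨ρ, hρ⟩ := exists_bruG (F := F)
  obtain ⟨r, hr, hrw, hr0, hrs, hru⟩ := sumG_mass hρ R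
  obtain ⟨C, hC0, hC⟩ := exists_Psi_le (F := F)
  have hq : 0 < qq F := zero_lt_one.trans one_lt_qq
  have hk : 0 < kapR F := kapR_pos
  have hw : 0 < (ww F : ℝ) * qq F ^ (48 * cc F) := mul_pos (Nat.cast_pos.2 ww_pos) (zpow_pos hq _)
  obtain ⟨Good, hGood⟩ : ∃ Good : ℕ → XG F → Prop, ∀ j x, Good j x ↔
      ((VB (gm x.out j)).card : ℝ) = qq F ^ (10 * deg (R + (5 * j) • PP F) + 50 * cc F) ∧
      avg (VB (gm x.out j)) (upF S (gm x.out j)) ≤ L := ⟨_, fun _ _ => Iff.rfl⟩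
  obtain ⟨u, hu⟩ : ∃ u : ℕ → XG F → ℝ, ∀ j x, u j x = if x ∈ XD R then (if Good j x then
      avg (VB (gm x.out j)) (upF S (gm x.out j)) else C * wtG x) else 0 := ⟨_, fun _ _ => rfl⟩
  have hub : ∀ j x, 0 ≤ u j x ∧ u j x ≤ max C L * wtG x := fun j x => by
    rw [hu]
    split_ifs with hx hg
    · exact ⟨avg_nonneg fun f _ => (adm_upF S).nonneg _ f,
        ((hGood j x).1 hg).2.trans ((le_max_right _ _).trans
          (le_mul_of_one_le_right (le_max_of_le_right hL) (one_le_wtG x)))⟩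
    · exact ⟨mul_nonneg hC0.le (wtG_pos x).le,
        mul_le_mul_of_nonneg_right (le_max_left _ _) (wtG_pos x).le⟩
    · exact ⟨le_rfl, mul_nonneg (le_max_of_le_right hL) (wtG_pos x).le⟩
  have huL : ∀ x, ∀ᶠ j in atTop, u j x ≤ L := fun x => by
    by_cases hx : x ∈ XD R
    · filter_upwards [sum1_card R hx, h x.out] with j h2 h3
      rw [hu, if_pos hx, if_pos ((hGood j x).2 ⟨h2, h3⟩)]
      exact h3
    · exact Eventually.of_forall fun j => by rw [hu, if_neg hx]; exact hL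
  filter_upwards [tsum_eventually_le_wt hr hrw hr0 u hL (Eventually.of_forall hub) huL
    (div_pos (mul_pos hε hk) hw), sum1_deg5 R] with j hm hD
  have hQ : 0 < qq F ^ (10 * deg (R + (5 * j) • PP F) + 50 * cc F) := zpow_pos hq _
  obtain ⟨ρ', hρ', hs⟩ := sum1_shift hρ R j
  have h1 : ∑' x, ρ x * (if x ∈ XD R ∧ parN (pN x) then
      ENNReal.ofReal (Psi (upF S) (tw2G (j • PP F) x)) else 0) ≤
      ∑' x, ρ x * (if x ∈ XD R ∧ parN (pN x) then
        ENNReal.ofReal (u j x * qq F ^ (10 * deg (R + (5 * j) • PP F) + 50 * cc F)) else 0) := by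
    refine ENNReal.tsum_le_tsum fun x => mul_le_mul_right ?_ _
    split_ifs with hx
    · refine ENNReal.ofReal_le_ofReal ?_
      rw [hu, if_pos hx.1]
      split_ifs with hg
      · exact (sum1_Psi (adm_upF S) x j hQ ((hGood j x).1 hg).1).le
      · rw [← wtG_tw2G (j • PP F) x]
        exact hC _ (adm_upF S) _ ((Int.natCast_nonneg _).trans hD) _
          (by rw [mul_smul]; exact tw2G_mem_XD.2 hx.1)
    · exact le_rfl
  have hT : 0 ≤ ∑' x, r x * u j x := tsum_nonneg fun x => mul_nonneg (hr0 x) (hub j x).1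
  have h2 := SD_le_tsum hD S hρ'
  rw [hs] at h2
  replace h2 := h2.trans (mul_le_mul_right h1 _)
  rw [hru (u j) _ _ (hub j) hQ.le, sum1_const hD, sum1_kap,
    ENNReal.ofReal_le_ofReal_iff (mul_nonneg (mul_nonneg hw.le hT) (sum1_WB_pos hD).le),
    ← mul_assoc] at h2
  have h3 := le_of_mul_le_mul_right h2 (sum1_WB_pos hD)
  have h4 := mul_le_mul_of_nonneg_left hm hw.le
  rw [hrs, mul_add, mul_div_cancel₀ _ hw.ne'] at h4
  refine le_of_mul_le_mul_left (h3.trans (h4.trans_eq ?_)) hk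
  linear_combination L * sum1_mG (F := F)

lemma SD_ge_five (R : Div F) (S : Finset (Place F)) {L : ℝ}
    (h : ∀ g, ∀ᶠ m : ℕ in atTop, L ≤ avg (VB (gm g m)) (lowF S (gm g m)))
    {ε : ℝ} (hε : 0 < ε) : ∀ᶠ j : ℕ in atTop, 5 * zz5 F * L - ε ≤ SD (R + (5 * j) • PP F) := by
  obtain ⟨ρ, hρ⟩ := exists_bruG (F := F)
  obtain ⟨r, hr, -, hr0, hrs, hru⟩ := sumG_mass hρ R
  have hq : 0 < qq F := zero_lt_one.trans one_lt_qq
  have hk : 0 < kapR F := kapR_pos
  have hw : 0 < (ww F : ℝ) * qq F ^ (48 * cc F) := mul_pos (Nat.cast_pos.2 ww_pos) (zpow_pos hq _)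
  obtain ⟨Good, hGood⟩ : ∃ Good : ℕ → XG F → Prop, ∀ j x, Good j x ↔
      ((VB (gm x.out j)).card : ℝ) = qq F ^ (10 * deg (R + (5 * j) • PP F) + 50 * cc F) ∧
      L ≤ avg (VB (gm x.out j)) (lowF S (gm x.out j)) := ⟨_, fun _ _ => Iff.rfl⟩
  obtain ⟨u, hu⟩ : ∃ u : ℕ → XG F → ℝ, ∀ j x, u j x = if x ∈ XD R then (if Good j x then
      avg (VB (gm x.out j)) (lowF S (gm x.out j)) else 0) else max L 0 := ⟨_, fun _ _ => rfl⟩
  have hub : ∀ j x, 0 ≤ u j x ∧ u j x ≤ max L 4800 := fun j x => by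
    rw [hu]
    split_ifs with hx hg
    · refine ⟨avg_nonneg fun f _ => (adm_lowF S).nonneg _ f, le_max_of_le_right
        (avg_le_of_le (by norm_num) fun f hf => ((adm_lowF S).le _ f (mem_VB.1 hf)).trans ?_)⟩
      have := ind_le_one (f.jac.Δ ≠ 0 ∧ ¬f.Triv)
      linarith
    · exact ⟨le_rfl, le_max_of_le_right (by norm_num)⟩
    · exact ⟨le_max_right _ _, max_le_max le_rfl (by norm_num)⟩
  have huL : ∀ x, ∀ᶠ j in atTop, L ≤ u j x := fun x => by
    by_cases hx : x ∈ XD R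
    · filter_upwards [sum1_card R hx, h x.out] with j h2 h3
      rw [hu, if_pos hx, if_pos ((hGood j x).2 ⟨h2, h3⟩)]
      exact h3
    · exact Eventually.of_forall fun j => by rw [hu, if_neg hx]; exact le_max_left _ _
  filter_upwards [tsum_eventually_ge hr hr0 u (Eventually.of_forall hub) huL
    (div_pos (mul_pos hε hk) hw), sum1_deg5 R] with j hm hD
  have hQ : 0 < qq F ^ (10 * deg (R + (5 * j) • PP F) + 50 * cc F) := zpow_pos hq _
  obtain ⟨ρ', hρ', hs⟩ := sum1_shift hρ R j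
  have h1 : ∑' x, ρ x * (if x ∈ XD R ∧ parN (pN x) then
        ENNReal.ofReal (u j x * qq F ^ (10 * deg (R + (5 * j) • PP F) + 50 * cc F)) else 0) ≤
      ∑' x, ρ x * (if x ∈ XD R ∧ parN (pN x) then
        ENNReal.ofReal (Psi (lowF S) (tw2G (j • PP F) x)) else 0) := by
    refine ENNReal.tsum_le_tsum fun x => mul_le_mul_right ?_ _
    split_ifs with hx
    · refine ENNReal.ofReal_le_ofReal ?_
      rw [hu, if_pos hx.1]
      split_ifs with hg
      · exact (sum1_Psi (adm_lowF S) x j hQ ((hGood j x).1 hg).1).ge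
      · rw [zero_mul]
        exact (adm_lowF S).Psi_nonneg _
    · exact le_rfl
  have hS : 0 ≤ SD (R + (5 * j) • PP F) := avg_nonneg fun W _ =>
    mul_nonneg (mul_nonneg (ind_nonneg _) (Nat.cast_nonneg _)) (Nat.cast_nonneg _)
  have h2 := tsum_le_SD hD S hρ'
  rw [hs] at h2
  replace h2 := (mul_le_mul_right h1 _).trans h2
  rw [hru (u j) (max L 4800) _ (fun x => ⟨(hub j x).1, (hub j x).2.trans
      (le_mul_of_one_le_right (le_max_of_le_right (by norm_num)) (one_le_wtG x))⟩) hQ.le,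
    sum1_const hD, sum1_kap,
    ENNReal.ofReal_le_ofReal_iff (mul_nonneg hk.le (mul_nonneg hS (sum1_WB_pos hD).le)),
    ← mul_assoc] at h2
  have h3 := le_of_mul_le_mul_right h2 (sum1_WB_pos hD)
  have h4 := mul_le_mul_of_nonneg_left hm hw.le
  rw [hrs, mul_sub, mul_div_cancel₀ _ hw.ne'] at h4
  refine le_of_mul_le_mul_left ((Eq.trans_le ?_ h4).trans h3) hk
  linear_combination (-L) * sum1_mG (F := F)

lemma sum1_res (R : Div F) (j r : ℕ) :
    R + (5 * j + r) • PP F = R + r • PP F + (5 * j) • PP F := by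
  rw [add_smul, add_comm ((5 * j) • PP F), add_assoc]

theorem SD_eventually_le (R : Div F) (S : Finset (Place F)) {L : ℝ} (hL : 0 ≤ L)
    (h : ∀ g, ∀ᶠ m : ℕ in atTop, avg (VB (gm g m)) (upF S (gm g m)) ≤ L)
    {ε : ℝ} (hε : 0 < ε) : ∀ᶠ m : ℕ in atTop, SD (R + m • PP F) ≤ 5 * zz5 F * L + ε :=
  ev_five fun r => by
    simp only [sum1_res]
    exact SD_le_five _ S hL h hε

theorem SD_eventually_ge (R : Div F) (S : Finset (Place F)) {L : ℝ}
    (h : ∀ g, ∀ᶠ m : ℕ in atTop, L ≤ avg (VB (gm g m)) (lowF S (gm g m)))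
    {ε : ℝ} (hε : 0 < ε) : ∀ᶠ m : ℕ in atTop, 5 * zz5 F * L - ε ≤ SD (R + m • PP F) :=
  ev_five fun r => by
    simp only [sum1_res]
    exact SD_ge_five _ S h hε

end SelAvg.FF.T5
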