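import Pool.Agent.H5T.DescG

/-! Block TAIL5: the objects of trivial class over a finite field form one orbit. -/

namespace H5T.Th

open WeierstrassCurve SelAvg
open scoped Classical

variable {n m : ℕ} (T : Th n m) {κ : Type} [Field κ] [Fintype κ] [Fintype (T.Obj κ)]

/-- the objects of trivial class over `W` -/
noncomputable def trO (W : WeierstrassCurve κ) : Finset (T.Obj κ) :=
  Finset.univ.filter fun z => T.Over z W ∧ ∃ Q, T.On z Q ∧ T.piP W z Q = 0

theorem trO_card [Finite (T.G κ)] {W : WeierstrassCurve κ} (hW : W.Δ ≠ 0) :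
    ∃ s : ℕ, (T.trO W).card * s = Nat.card (T.G κ) ∧ Fintype.card κ - 1 ≤ s ∧
      (NoTors W n → s ≤ Fintype.card κ - 1) ∧ (¬NoTors W n → 2 * (Fintype.card κ - 1) ≤ s) := by
  obtain ⟨z, Q, hz, hQ, h0⟩ := T.piP_surj hW 0
  have hu : Nat.card κˣ = Fintype.card κ - 1 := by rw [Nat.card_units, Nat.card_eq_fintype_card]
  have h1 : (T.trO W : Set (T.Obj κ)) = MulAction.orbit (T.G κ) z := by
    ext z'
    rw [trO, Finset.coe_filter, Set.mem_ofPred_eq, MulAction.mem_orbit_iff]
    constructor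
    · rintro ⟨-, hz', Q', hQ', h0'⟩
      obtain ⟨g, hg, -⟩ := T.exists_iso hW hz' hz hQ' hQ (h0'.trans h0.symm)
      exact ⟨g, hg⟩
    · rintro ⟨g, rfl⟩
      have e : T.pt g (T.pt g⁻¹ Q) = Q := by
        rw [T.pt_eq, T.pt_eq, Matrix.vecMul_vecMul, ← Units.val_mul, ← map_mul, inv_mul_cancel,
          map_one, Units.val_one, Matrix.vecMul_one]
      have hQ' : T.On (g • z) (T.pt g⁻¹ Q) := (T.on_pt g z _).1 (e.symm ▸ hQ)
      exact ⟨Finset.mem_univ _, T.over_smul hz g, _, hQ', by rw [T.piP_smul hW hz g hQ', e, h0]⟩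
  refine ⟨Nat.card (MulAction.stabilizer (T.G κ) z), ?_, ?_, fun h => ?_, fun h => ?_⟩
  · rw [← Nat.card_eq_finsetCard,
      ← Nat.card_congr (MulAction.orbitProdStabilizerEquivGroup (T.G κ) z), Nat.card_prod, ← h1]
    rfl
  · rw [← hu]
    exact Nat.card_le_card_of_injective
      (fun t : κˣ => (⟨T.scalar t, T.scalar_smul t z⟩ : MulAction.stabilizer (T.G κ) z))
      fun t t' e => T.scalar_inj (congrArg Subtype.val e)
  · rw [← hu]
    refine Nat.card_le_card_of_surjective
      (fun t : κˣ => (⟨T.scalar t, T.scalar_smul t z⟩ : MulAction.stabilizer (T.G κ) z))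
      fun g => ?_
    obtain ⟨t, ht⟩ := T.aut_eq_scalar hW h hz g.2
    exact ⟨t, Subtype.ext ht.symm⟩
  · simp only [NoTors, not_forall] at h
    obtain ⟨P, hP, hP0⟩ := h
    obtain ⟨Q', hQ', hD⟩ := T.D_surj hW hz hQ P
    have h2 := T.smul_D hW hz hQ hQ'
    rw [hD, hP, eq_comm, sub_eq_zero] at h2
    obtain ⟨g, hg, hg'⟩ := T.exists_iso hW hz hz hQ hQ' h2
    have hs : ∀ t, g ≠ T.scalar t := fun t e => by
      obtain ⟨s, hs⟩ := T.mat_scalar t
      refine hP0 (hD ▸ (T.D_eq_zero_iff hW hz hQ hQ').2 (Eqv.trans ⟨s, s.ne_zero, ?_⟩ hg'))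
      rw [e, T.pt_eq, hs]
      funext i
      simp [Matrix.GeneralLinearGroup.scalar, Matrix.vecMul_diagonal, mul_comm]
    rw [two_mul, ← hu, ← Nat.card_sum]
    refine Nat.card_le_card_of_injective (Sum.elim
      (fun t : κˣ => (⟨T.scalar t, T.scalar_smul t z⟩ : MulAction.stabilizer (T.G κ) z))
      fun t : κˣ => ⟨T.scalar t * g, by
        rw [MulAction.mem_stabilizer_iff, mul_smul, hg, T.scalar_smul]⟩) ?_
    refine Function.Injective.sumElim (fun t t' e => T.scalar_inj (congrArg Subtype.val e))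
      (fun t t' e => T.scalar_inj (mul_right_cancel (congrArg Subtype.val e))) fun t t' e => ?_
    have e1 : T.scalar t = T.scalar t' * g := congrArg Subtype.val e
    exact hs (t'⁻¹ * t) (by rw [map_mul, map_inv, e1, inv_mul_cancel_left])

variable {M : Type} [Fintype M] [Fintype (VariableChange κ)] (jac : M → WeierstrassCurve κ)
  (e : T.Obj κ ≃ M × VariableChange κ)
  (he : ∀ z W, T.Over z W ↔ jac (e z).1 = (e z).2 • W)

include he

theorem orbit_lower [Finite (T.G κ)] (P : WeierstrassCurve κ → Prop)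
    (hP : ∀ (C : VariableChange κ) W, P W → P (C • W))
    (h0 : ∀ W, P W → W.Δ ≠ 0 ∧ NoTors W n) :
    Nat.card (T.G κ) * (Finset.univ.filter P).card ≤ (Fintype.card κ - 1) *
      ((Finset.univ.filter fun f => P (jac f)).card * Fintype.card (VariableChange κ)) := by
  have h1 : ((Finset.univ.filter P).sigma T.trO).card ≤
      (Finset.univ.filter fun f => P (jac f)).card * Fintype.card (VariableChange κ) := by
    rw [← Finset.card_univ, ← Finset.card_product]
    refine Finset.card_le_card_of_injOn (fun p => e p.2) (fun p hp => ?_) fun p hp p' hp' h => ?_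
    · obtain ⟨a1, a2⟩ := Finset.mem_sigma.1 hp
      refine Finset.mem_product.2 ⟨Finset.mem_filter.2 ⟨Finset.mem_univ _, ?_⟩, Finset.mem_univ _⟩
      rw [(he _ _).1 (Finset.mem_filter.1 a2).2.1]
      exact hP _ _ (Finset.mem_filter.1 a1).2
    · have a1 := (he _ _).1 (Finset.mem_filter.1 (Finset.mem_sigma.1 hp).2).2.1
      have a2 := (he _ _).1 (Finset.mem_filter.1 (Finset.mem_sigma.1 hp').2).2.1
      have a3 : p.2 = p'.2 := e.injective h
      rw [← a3, a1] at a2
      exact Sigma.ext (MulAction.injective _ a2) (heq_of_eq a3)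
  refine le_trans ?_ (Nat.mul_le_mul_left _ h1)
  rw [Finset.card_sigma, Finset.mul_sum, mul_comm, ← smul_eq_mul, ← Finset.sum_const]
  refine Finset.sum_le_sum fun W hW => ?_
  obtain ⟨a1, a2⟩ := h0 W (Finset.mem_filter.1 hW).2
  obtain ⟨s, b1, -, b3, -⟩ := T.trO_card a1
  rw [← b1, mul_comm]
  exact Nat.mul_le_mul_right _ (b3 a2)

theorem orbit_upper [Finite (T.G κ)] (Tr : M → Prop)
    (hT : ∀ z W, W.Δ ≠ 0 → T.Over z W → Tr (e z).1 → ∃ Q, T.On z Q ∧ T.piP W z Q = 0) :
    2 * (Fintype.card κ - 1) * ((Finset.univ.filter fun f => (jac f).Δ ≠ 0 ∧ Tr f).card *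
      Fintype.card (VariableChange κ)) + Nat.card (T.G κ) *
        (Finset.univ.filter fun W : WeierstrassCurve κ => W.Δ ≠ 0 ∧ ¬NoTors W n).card ≤
      2 * Nat.card (T.G κ) * Fintype.card (WeierstrassCurve κ) := by
  have h1 : (Finset.univ.filter fun f => (jac f).Δ ≠ 0 ∧ Tr f).card *
      Fintype.card (VariableChange κ) ≤
      ((Finset.univ.filter fun W : WeierstrassCurve κ => W.Δ ≠ 0).sigma T.trO).card := by
    rw [← Finset.card_univ, ← Finset.card_product]
    refine Finset.card_le_card_of_injOn (fun p => ⟨p.2⁻¹ • jac p.1, e.symm p⟩) (fun p hp => ?_)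
      fun p _ p' _ h => e.symm.injective (eq_of_heq (Sigma.ext_iff.1 h).2)
    obtain ⟨a1, a2⟩ := (Finset.mem_filter.1 (Finset.mem_product.1 hp).1).2
    have a3 : (p.2⁻¹ • jac p.1).Δ ≠ 0 := by
      rw [variableChange_Δ]
      exact mul_ne_zero (pow_ne_zero _ (Units.ne_zero _)) a1
    have a4 : T.Over (e.symm p) (p.2⁻¹ • jac p.1) := by
      rw [he, e.apply_symm_apply, smul_inv_smul]
    exact Finset.mem_sigma.2 ⟨Finset.mem_filter.2 ⟨Finset.mem_univ _, a3⟩,
      Finset.mem_filter.2 ⟨Finset.mem_univ _, a4, hT _ _ a3 a4 (by rwa [e.apply_symm_apply])⟩⟩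
  refine le_trans (Nat.add_le_add_right (Nat.mul_le_mul_left _ h1) _) ?_
  rw [Finset.card_sigma, ← Finset.filter_filter, Finset.card_filter (fun W => ¬NoTors W n),
    Finset.mul_sum, Finset.mul_sum, ← Finset.sum_add_distrib]
  refine le_trans (Finset.sum_le_card_nsmul _ _ (2 * Nat.card (T.G κ)) fun W hW => ?_) ?_
  · obtain ⟨s, b1, b2, -, b4⟩ := T.trO_card (Finset.mem_filter.1 hW).2
    rw [← b1]
    split_ifs with h
    · have := Nat.mul_le_mul_left (T.trO W).card b2
      nlinarith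
    · have := Nat.mul_le_mul_left (T.trO W).card (b4 h)
      nlinarith
  · rw [smul_eq_mul, mul_comm]
    exact Nat.mul_le_mul_left _ (Finset.card_le_univ _)

end H5T.Th
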