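import Pool.Agent.H34P.Tail5B
import Pool.Agent.H34P.Tail5G

/-! Block TAIL5: local densities over a finite field. -/

namespace SelAvg.FF

open WeierstrassCurve Matrix H5T
open scoped Classical

variable {κ : Type} [Field κ] [Fintype κ]

omit [Fintype κ] in
/-- the coordinates of a change of variables -/
def t5vc : VariableChange κ ≃ κˣ × κ × κ × κ :=
  ⟨fun C => (C.u, C.r, C.s, C.t), fun p => ⟨p.1, p.2.1, p.2.2.1, p.2.2.2⟩, fun _ => rfl,
    fun _ => rfl⟩

lemma t5_card_vc [Fintype (VariableChange κ)] :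
    Fintype.card (VariableChange κ) = (Fintype.card κ - 1) * Fintype.card κ ^ 3 := by
  simp only [Fintype.card_congr t5vc, Fintype.card_prod, Fintype.card_units]
  ring

lemma t5_card_GL : Fintype.card κ ^ 25 ≤ 32 * Nat.card (GL (Fin 5) κ) ∧
    Nat.card (GL (Fin 5) κ) ≤ (Fintype.card κ - 1) * Fintype.card κ ^ 24 := by
  rw [card_GL_field]
  have hq : 2 ≤ Fintype.card κ := Fintype.one_lt_card
  generalize Fintype.card κ = q at hq
  constructor
  · have h : ∀ i : Fin 5, q ^ 5 ≤ 2 * (q ^ 5 - q ^ i.1) := fun i => by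
      have h1 : q ^ i.1 ≤ q ^ 4 := Nat.pow_le_pow_right (by omega) (by omega)
      have h2 : 2 * q ^ 4 ≤ q ^ 5 := by
        rw [pow_succ' q 4]
        exact Nat.mul_le_mul_right _ hq
      omega
    have h1 := Finset.prod_le_prod' (s := Finset.univ) fun i _ => h i
    rw [Finset.prod_mul_distrib, Finset.prod_const, Finset.prod_const, Finset.card_univ,
      Fintype.card_fin, ← pow_mul] at h1
    exact h1
  · rw [Fin.prod_univ_castSucc]
    have h1 := Finset.prod_le_pow_card (Finset.univ : Finset (Fin 4))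
      (fun i => q ^ 5 - q ^ (i.castSucc : Fin 5).1) (q ^ 5) fun i _ => Nat.sub_le _ _
    rw [Finset.card_univ, Fintype.card_fin, ← pow_mul] at h1
    have h2 : q ^ 5 - q ^ (Fin.last 4).1 = (q - 1) * q ^ 4 := by
      rw [Nat.sub_mul, one_mul, ← pow_succ']
      rfl
    rw [h2]
    calc _ ≤ q ^ (5 * 4) * ((q - 1) * q ^ 4) := Nat.mul_le_mul_right _ h1
      _ = _ := by ring

variable (T : Th 5 5) (eG : T.G κ ≃ GL (Fin 5) κ × GL (Fin 5) κ)
  (jac : (Fin 50 → κ) → WeierstrassCurve κ) (e : T.Obj κ ≃ (Fin 50 → κ) × VariableChange κ)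
  (he : ∀ z W, T.Over z W ↔ jac (e z).1 = (e z).2 • W)

include eG he

theorem dens_tor5_le (hΔ : dens Finset.univ (fun W : WeierstrassCurve κ => W.Δ = 0) ≤ 1 / 8) :
    dens Finset.univ (fun x => Tor5 (jac x)) ≤ 1 - 1 / 8192 := by
  let _ : Fintype (VariableChange κ) := Fintype.ofEquiv _ t5vc.symm
  let _ : Fintype (T.Obj κ) := Fintype.ofEquiv _ e.symm
  have : Finite (T.G κ) := Finite.of_equiv _ eG.symm
  have hq : 0 < Fintype.card κ := Fintype.card_pos
  have h1 := T.orbit_lower jac e he (fun W => ¬Tor5 W ∧ W.Δ ≠ 0) (fun C W h => ⟨by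
    rw [tor5_smul]; exact h.1, by
    rw [variableChange_Δ]; exact mul_ne_zero (pow_ne_zero _ (Units.ne_zero _)) h.2⟩)
    fun W h => ⟨h.2, fun P hP => by_contra fun h0 => h.1 (tor5_of_point h0 hP)⟩
  rw [t5_card_vc, Nat.card_congr eG, Nat.card_prod, Finset.filter_congr_decidable,
    Finset.filter_congr_decidable _ fun x => ¬Tor5 (jac x) ∧ (jac x).Δ ≠ 0] at h1
  have h2 : 8 * (Finset.univ.filter fun W : WeierstrassCurve κ => W.Δ = 0).card ≤
      Fintype.card κ ^ 5 := by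
    rw [dens, Finset.card_univ, t3_card_W, div_le_iff₀ (by positivity)] at hΔ
    have : (8 : ℝ) * (Finset.univ.filter fun W : WeierstrassCurve κ => W.Δ = 0).card ≤
      ((Fintype.card κ ^ 5 : ℕ) : ℝ) := by linarith
    exact_mod_cast this
  have h3 : Fintype.card κ ^ 5 ≤
      8 * (Finset.univ.filter fun W : WeierstrassCurve κ => ¬Tor5 W ∧ W.Δ ≠ 0).card := by
    have a1 := card_tor5_le (κ := κ)
    have a2 := Finset.card_filter_add_card_filter_not (s := Finset.univ)
      fun W : WeierstrassCurve κ => Tor5 W ∨ W.Δ = 0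
    rw [Finset.card_univ, t3_card_W] at a2
    simp only [not_or] at a2
    have a3 := Finset.card_union_le (Finset.univ.filter fun W : WeierstrassCurve κ => Tor5 W)
      (Finset.univ.filter fun W : WeierstrassCurve κ => W.Δ = 0)
    rw [← Finset.filter_or] at a3
    have a4 : 4 * Fintype.card κ ^ 3 ≤ Fintype.card κ ^ 5 := by
      have h4 : 2 ^ 2 ≤ Fintype.card κ ^ 2 := Nat.pow_le_pow_left Fintype.one_lt_card 2
      calc 4 * Fintype.card κ ^ 3 ≤ Fintype.card κ ^ 2 * Fintype.card κ ^ 3 :=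
          Nat.mul_le_mul_right _ h4
        _ = _ := by ring
    simp only [ne_eq]
    omega
  have h4 : Fintype.card κ ^ 50 ≤ 8192 * (Finset.univ.filter fun x => ¬Tor5 (jac x)).card := by
    have a1 : (Finset.univ.filter fun x => ¬Tor5 (jac x) ∧ (jac x).Δ ≠ 0).card ≤
        (Finset.univ.filter fun x => ¬Tor5 (jac x)).card := Finset.card_le_card fun x hx =>
      Finset.mem_filter.2 ⟨Finset.mem_univ _, (Finset.mem_filter.1 hx).2.1⟩
    have a2 := (t5_card_GL (κ := κ)).1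
    refine Nat.le_of_mul_le_mul_left ?_ (pow_pos hq 5)
    calc _ = Fintype.card κ ^ 25 * Fintype.card κ ^ 25 * Fintype.card κ ^ 5 := by ring
      _ ≤ _ := Nat.mul_le_mul (Nat.mul_le_mul a2 a2) h3
      _ = 8192 * (Nat.card (GL (Fin 5) κ) * Nat.card (GL (Fin 5) κ) * (Finset.univ.filter
          fun W : WeierstrassCurve κ => ¬Tor5 W ∧ W.Δ ≠ 0).card) := by ring
      _ ≤ 8192 * (Fintype.card κ * ((Finset.univ.filter fun x => ¬Tor5 (jac x)).card *
          (Fintype.card κ * Fintype.card κ ^ 3))) :=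
        Nat.mul_le_mul_left _ (h1.trans (Nat.mul_le_mul (Nat.sub_le _ _)
          (Nat.mul_le_mul a1 (Nat.mul_le_mul_right _ (Nat.sub_le _ _)))))
      _ = _ := by ring
  have h5 := Finset.card_filter_add_card_filter_not (s := Finset.univ) fun x => Tor5 (jac x)
  rw [Finset.card_univ, Fintype.card_fun, Fintype.card_fin] at h5
  refine dens_le_of_card_le ?_ (by norm_num)
  rw [Finset.card_univ, Fintype.card_fun, Fintype.card_fin]
  have h6 := (Nat.cast_le (α := ℝ)).2 h4
  have h7 := congrArg (Nat.cast : ℕ → ℝ) h5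
  push_cast at h6 h7 ⊢
  linarith

theorem dens_triv5_le (hκ : 8 ≤ Fintype.card κ) (Tr : (Fin 50 → κ) → Prop)
    (hT : ∀ z W, W.Δ ≠ 0 → T.Over z W → Tr (e z).1 → ∃ Q, T.On z Q ∧ T.piP W z Q = 0) :
    dens Finset.univ (fun x => (jac x).Δ ≠ 0 ∧ Tr x) ≤ 1 - 1 / 100 := by
  let _ : Fintype (VariableChange κ) := Fintype.ofEquiv _ t5vc.symm
  let _ : Fintype (T.Obj κ) := Fintype.ofEquiv _ e.symm
  have : Finite (T.G κ) := Finite.of_equiv _ eG.symm
  have h1 := T.orbit_upper jac e he Tr hT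
  rw [t5_card_vc, Nat.card_congr eG, Nat.card_prod, t3_card_W] at h1
  have h2 := card_tors5_ge (κ := κ)
  have h3 := (t5_card_GL (κ := κ)).2
  have h4 : (Finset.univ.filter fun W : WeierstrassCurve κ => W.Δ ≠ 0 ∧ ¬NoTors W 5).card ≤
      Fintype.card κ ^ 5 := by
    rw [← t3_card_W]
    exact Finset.card_le_univ _
  refine dens_le_of_card_le ?_ (by norm_num)
  rw [Finset.card_univ, Fintype.card_fun, Fintype.card_fin, Finset.filter_congr_decidable]
  generalize (Finset.univ.filter fun W : WeierstrassCurve κ => W.Δ ≠ 0 ∧ ¬NoTors W 5).card = n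
    at h1 h2 h4
  generalize (Finset.univ.filter fun x => (jac x).Δ ≠ 0 ∧ Tr x).card = t at h1 ⊢
  generalize Nat.card (GL (Fin 5) κ) = g at h1 h3
  obtain ⟨u, hu⟩ := Nat.exists_eq_add_of_le hκ
  rw [hu] at h1 h2 h3 h4 ⊢
  rw [show 8 + u - 1 = u + 7 by omega] at h1 h2 h3
  rw [show 8 + u - 3 = u + 5 by omega] at h2
  obtain ⟨c, hc⟩ := Nat.exists_eq_add_of_le (h4.trans (Nat.le_mul_of_pos_left _ two_pos))
  have a1 : 2 * (u + 7) * (t * ((u + 7) * (8 + u) ^ 3)) ≤ g * g * c := by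
    rw [mul_comm 2 (g * g), mul_assoc (g * g), hc, mul_add (g * g), add_comm (g * g * n)] at h1
    exact Nat.le_of_add_le_add_right h1
  have a2 : 2 * t ≤ (8 + u) ^ 45 * c := by
    refine Nat.le_of_mul_le_mul_left ?_ (show 0 < (u + 7) ^ 2 * (8 + u) ^ 3 by positivity)
    calc _ = _ := by ring
      _ ≤ _ := a1
      _ ≤ _ := Nat.mul_le_mul_right _ (Nat.mul_le_mul h3 h3)
      _ = _ := by ring
  have a3 : (8 + u) ^ 5 ≤ 50 * n := by
    calc _ = (8 + u) ^ 2 * (8 + u) ^ 3 := by ring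
      _ ≤ 2 * ((u + 7) * (u + 5)) * (8 + u) ^ 3 := Nat.mul_le_mul_right _ (by nlinarith)
      _ = 2 * ((u + 7) * (u + 5) * (8 + u) ^ 3) := by ring
      _ ≤ _ := by omega
  have a4 : 100 * t ≤ 99 * (8 + u) ^ 50 := by
    calc _ = 50 * (2 * t) := by ring
      _ ≤ 50 * ((8 + u) ^ 45 * c) := Nat.mul_le_mul_left _ a2
      _ = (8 + u) ^ 45 * (50 * c) := by ring
      _ ≤ (8 + u) ^ 45 * (99 * (8 + u) ^ 5) := Nat.mul_le_mul_left _ (by omega)
      _ = _ := by ring
  have a5 := (Nat.cast_le (α := ℝ)).2 a4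
  push_cast at a5 ⊢
  linarith

end SelAvg.FF
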