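import Pool.Agent.H5T.Tail3A

/-! Block TAIL5, generic part: a family of polynomials that contains, for each coordinate, a nonzero
member not depending on it rarely has a common zero at a large place. -/

namespace SelAvg.FF

open Polynomial WithZero Filter Topology
open scoped Classical

variable {F : Type} [Field F] {n : ℕ}

/-- the polynomial function does not depend on the coordinate `i` -/
def t5Ind (p : MvPolynomial (Fin n) F) (i : Fin n) : Prop :=
  ∀ (x : Fin n → F) (a : F), MvPolynomial.aeval (Function.update x i a) p = MvPolynomial.aeval x p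

/-- `p` as a polynomial in the coordinate `i` -/
noncomputable def t5pi (i : Fin n) (p : MvPolynomial (Fin n) F) : (MvPolynomial (Fin n) F)[X] :=
  MvPolynomial.aeval (fun j => if j = i then X else C (MvPolynomial.X j)) p

lemma t5pi_eval (i : Fin n) (p : MvPolynomial (Fin n) F) (x : Fin n → F) (a : F) :
    (t3spec (t5pi i p) x).eval a = MvPolynomial.aeval (Function.update x i a) p := by
  induction p using MvPolynomial.induction_on with
  | C c => simp [t3spec, t5pi]
  | add p q hp hq =>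
    simp only [t3spec, t5pi, map_add, Polynomial.map_add, eval_add] at hp hq ⊢
    rw [hp, hq]
  | mul_X p j hp =>
    simp only [t3spec, t5pi, map_mul, Polynomial.map_mul, eval_mul, MvPolynomial.aeval_X] at hp ⊢
    rw [hp]
    congr 1
    by_cases h : j = i
    · subst h; simp
    · simp [h]

lemma t5_coeff (P : (MvPolynomial (Fin n) F)[X]) (x : Fin n → F) (r : ℕ) :
    (t3spec P x).coeff r = MvPolynomial.aeval x (P.coeff r) := by
  rw [t3spec, coeff_map]; rfl

variable [Infinite F]

lemma t5_ne_zero {p : MvPolynomial (Fin n) F} (hp : p ≠ 0) :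
    ∃ x : Fin n → F, MvPolynomial.aeval x p ≠ 0 := by
  by_contra h
  push Not at h
  exact hp (MvPolynomial.funext fun x => by
    rw [map_zero, ← MvPolynomial.coe_aeval_eq_eval]; exact h x)

lemma t5pi_self (i : Fin n) (p : MvPolynomial (Fin n) F) (x : Fin n → F) (a : F) :
    t3spec (t5pi i p) (Function.update x i a) = t3spec (t5pi i p) x :=
  Polynomial.funext fun b => by rw [t5pi_eval, t5pi_eval, Function.update_idem]

lemma t5pi_ind (i : Fin n) {p : MvPolynomial (Fin n) F} {j : Fin n} (h : j = i ∨ t5Ind p j) (r : ℕ) :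
    t5Ind ((t5pi i p).coeff r) j := by
  intro x a
  rw [← t5_coeff, ← t5_coeff]
  by_cases hj : j = i
  · rw [hj, t5pi_self]
  · congr 1
    refine Polynomial.funext fun b => ?_
    rw [t5pi_eval, t5pi_eval, Function.update_comm hj, h.resolve_left hj]

lemma t5pi_coeff_ne (i : Fin n) {p : MvPolynomial (Fin n) F} (hp : p ≠ 0) :
    ∃ r ∈ (t5pi i p).support, (t5pi i p).coeff r ≠ 0 := by
  obtain ⟨x, hx⟩ := t5_ne_zero hp
  have h : t5pi i p ≠ 0 := fun h => hx (by
    have := t5pi_eval i p x (x i)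
    rw [h, Function.update_eq_self] at this
    rw [← this]; simp [t3spec])
  obtain ⟨r, hr⟩ := Finset.nonempty_iff_ne_empty.2 (support_eq_empty.not.2 h)
  exact ⟨r, hr, mem_support_iff.1 hr⟩

omit [Infinite F] in
lemma t5_const {p : MvPolynomial (Fin n) F} (h : ∀ i, t5Ind p i) (x y : Fin n → F) :
    MvPolynomial.aeval x p = MvPolynomial.aeval y p := by
  have key : ∀ s : Finset (Fin n), MvPolynomial.aeval (s.piecewise x y) p = MvPolynomial.aeval y p := by
    intro s
    induction s using Finset.induction_on with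
    | empty => rw [Finset.piecewise_empty]
    | insert a s _ ih => rw [Finset.piecewise_insert, h a, ih]
  rw [← key Finset.univ, Finset.piecewise_univ]

omit [Infinite F]

variable [Cv F]

theorem t5_family_aux (D : Fin n → Div F) {k : Fin n → ℕ} (hk : ∀ i, 0 < k i) {N : ℕ → ℕ} {c e : ℕ}
    (he : 0 < e) (hN : ∀ m, (m - c) / e ≤ N m) (T : Finset (Fin n)) :
    ∀ S : Finset (MvPolynomial (Fin n) F), (∀ p ∈ S, ∀ j ∉ T, t5Ind p j) → (∃ p ∈ S, p ≠ 0) →
      (∀ i ∈ T, ∃ p ∈ S, p ≠ 0 ∧ t5Ind p i) →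
      Tendsto (fun m => dens (PB D k m) fun x => ∃ v : Place F, N m ≤ dg v ∧
        ∀ p ∈ S, v.1 (MvPolynomial.aeval x p) < 1) atTop (𝓝 0) := by
  have := infinite_field (F := F)
  induction T using Finset.induction_on with
  | empty =>
    rintro S h1 ⟨p, hp, hp0⟩ -
    obtain ⟨y, hy⟩ := t5_ne_zero hp0
    refine tendsto_const_nhds.congr' ?_
    filter_upwards [(ta_tendsto he hN).eventually_gt_atTop
      ((Cv.fin_supp _ hy).toFinset.sup dg)] with m hm
    refine le_antisymm (dens_nonneg _ _) ((dens_mono (Q := fun _ => False) ?_).trans_eq (by simp [dens]))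
    rintro x - ⟨v, h2, h3⟩
    have h4 := h3 p hp
    rw [t5_const (fun j => h1 p hp j (Finset.notMem_empty j)) x y] at h4
    have h5 := Finset.le_sup (f := dg) ((Cv.fin_supp _ hy).mem_toFinset.2 h4.ne)
    omega
  | insert i T hi ih =>
    intro S h1 h0 h2
    obtain ⟨p₁, hp₁, hp₁0, hp₁i⟩ := h2 i (Finset.mem_insert_self _ _)
    set S' := S.biUnion fun p => (t5pi i p).support.image (t5pi i p).coeff with hS'
    have hmem : ∀ p ∈ S, ∀ r ∈ (t5pi i p).support, (t5pi i p).coeff r ∈ S' := fun p hp r hr =>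
      Finset.mem_biUnion.2 ⟨p, hp, Finset.mem_image_of_mem _ hr⟩
    have a1 := ih S' (fun q hq j hj => by
      obtain ⟨p, hp, hq⟩ := Finset.mem_biUnion.1 hq
      obtain ⟨r, -, rfl⟩ := Finset.mem_image.1 hq
      refine t5pi_ind i (or_iff_not_imp_left.2 fun h => h1 p hp j ?_) r
      simp [h, hj]) (by
      obtain ⟨r, hr, h⟩ := t5pi_coeff_ne i hp₁0
      exact ⟨_, hmem _ hp₁ r hr, h⟩) (fun j hj => by
      obtain ⟨p, hp, hp0, hpj⟩ := h2 j (Finset.mem_insert_of_mem hj)
      obtain ⟨r, hr, h⟩ := t5pi_coeff_ne i hp0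
      exact ⟨_, hmem _ hp r hr, h, t5pi_ind i (Or.inr hpj) r⟩)
    have a2 := tendsto_finsetSum S fun p _ => ek_tendsto D hk he hN i hp₁0 hp₁i
      (t3spec (t5pi i p)) (t5pi_self i p) (r := (t5pi i p).natDegree) fun _ => natDegree_map_le
    have a3 := a1.add a2
    rw [Finset.sum_const_zero, add_zero] at a3
    choose B b _ hB _ using fun p => t3_coeff D k i (t5pi i p)
    choose s hs using fun p => ta_supp (B p)
    refine squeeze_zero' (Eventually.of_forall fun d => dens_nonneg _ _) ?_ a3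
    filter_upwards [(ta_tendsto he hN).eventually_ge_atTop (S.sup s)] with m hm
    refine le_trans (le_trans (dens_mono fun x hx => ?_) (dens_or_le _ _ _))
      (add_le_add le_rfl (dens_exists_le _ _ _))
    rintro ⟨v, h3, h4⟩
    rw [or_iff_not_imp_right]
    intro h5
    refine ⟨v, h3, fun q hq => ?_⟩
    obtain ⟨p, hp, hq⟩ := Finset.mem_biUnion.1 hq
    obtain ⟨r, -, rfl⟩ := Finset.mem_image.1 hq
    obtain ⟨Q, hQ⟩ := ta_lift (v := v) (Q := t3spec (t5pi i p) x) fun j =>
      ta_le_one (hB p m x hx j) (hs p v ((Finset.le_sup hp).trans (hm.trans h3)) _)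
    have h6 : Q.map (rO v) = 0 := by
      by_contra h7
      refine h5 ⟨p, hp, v, h3, h4 _ hp₁, ⟨Q, hQ, h7⟩, ?_⟩
      rw [t5pi_eval, Function.update_eq_self]
      exact h4 p hp
    rw [← t5_coeff, ← hQ, coeff_map]
    refine (rO_eq_zero _).1 ?_
    rw [← coeff_map, h6, coeff_zero]

/-- The Ekedahl sieve for a family. -/
theorem t5_family (D : Fin n → Div F) {k : Fin n → ℕ} (hk : ∀ i, 0 < k i) {N : ℕ → ℕ} {c e : ℕ}
    (he : 0 < e) (hN : ∀ m, (m - c) / e ≤ N m) {ι : Type} [Fintype ι] [Nonempty ι]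
    (L : ι → MvPolynomial (Fin n) F) (h0 : ∀ a, L a ≠ 0) (h : ∀ i, ∃ a, t5Ind (L a) i) :
    Tendsto (fun m => dens (PB D k m) fun x => ∃ v : Place F, N m ≤ dg v ∧
      ∀ a, v.1 (MvPolynomial.aeval x (L a)) < 1) atTop (𝓝 0) := by
  have h1 := t5_family_aux D hk he hN Finset.univ (Finset.univ.image L)
    (fun _ _ j hj => absurd (Finset.mem_univ j) hj)
    ⟨_, Finset.mem_image_of_mem _ (Finset.mem_univ (Classical.arbitrary ι)), h0 _⟩ fun i _ =>
      (h i).elim fun a ha => ⟨_, Finset.mem_image_of_mem _ (Finset.mem_univ a), h0 a, ha⟩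
  simpa using h1

end SelAvg.FF
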