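import Pool.Agent.H34P.InvDef
import Pool.Agent.H5T.Tail3W

/-! Block TAIL5: two pencils of models whose discriminant is separable of degree twelve. -/

namespace SelAvg.FF.T5.W12

open WeierstrassCurve Matrix Polynomial

variable {R : Type*} [CommRing R]

/-- separable with nonzero coefficient in degree twelve -/
def Good12 {F : Type*} [Field F] (P : F[X]) : Prop := P.Separable ∧ P.coeff 12 ≠ 0

/-- put `t` at the entry `(0, 1)` of the coefficient of `x₁` -/
def put (w : Fin 5 → Fin 10 → R) (t : R) : Fin 5 → Fin 10 → R :=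
  Function.update w 1 (Function.update (w 1) 0 t)

/-- the same after the shear `x₄ ↦ x₄ - t x₁` -/
def shr (w : Fin 5 → Fin 10 → R) (t : R) : Fin 5 → Fin 10 → R :=
  Function.update w 1 (Function.update (w 1) 0 t + (-t) • w 4)

lemma shr_apply (w : Fin 5 → Fin 10 → R) (t : R) (k : Fin 5) (p : Fin 10) :
    shr w t k p = if k = 1 then (if p = 0 then t else w 1 p) - t * w 4 p else w k p := by
  by_cases h : k = 1
  · subst h
    simp [shr, Function.update_apply, sub_eq_add_neg]
  · simp [shr, h]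

def w1 : Fin 5 → Fin 10 → R :=
  ![![0, 0, 0, 0, 0, 0, 0, 0, 0, 1],
    ![0, 0, -1, 0, 0, 0, 1, 1, -1, 0],
    ![0, 0, 1, -1, 1, 0, 1, 0, 1, 0],
    ![0, -1, -1, -1, 0, 0, 0, 1, 0, 0],
    ![1, 0, 0, 0, 0, 1, -1, -1, 0, 0]]

def s1 (t : R) : Fin 5 → Fin 10 → R :=
  ![![0, 0, 0, 0, 0, 0, 0, 0, 0, 1],
    ![0, 0, -1, 0, 0, -t, 1 + t, 1 + t, -1, 0],
    ![0, 0, 1, -1, 1, 0, 1, 0, 1, 0],
    ![0, -1, -1, -1, 0, 0, 0, 1, 0, 0],
    ![1, 0, 0, 0, 0, 1, -1, -1, 0, 0]]

lemma s1_eq (t : R) : shr w1 t = s1 t := by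
  funext k p
  rw [shr_apply]
  fin_cases k <;> fin_cases p <;> simp [w1, s1]

lemma s1_std (t : R) : (Model.ofVec (s1 t)).Std := by
  constructor <;> rfl

lemma s1_cub (t : R) : (Model.ofVec (s1 t)).cub =
    ⟨1, 0, -1, -1, -1 - t, 1 + t, -2 - t, 1 + t, 2, -t⟩ := by
  ext <;> simp [Model.cub, ofTensor, Model.alp, Model.qm, Model.nv, Model.Tm, Model.lin, Model.ofVec,
    altM, s1, vecMul, dotProduct, Fin.sum_univ_three] <;> ring

lemma s1_jac (t : R) : (Model.ofVec (s1 t)).WS =
    ⟨-t,
      -1 - 5 * t - 2 * t ^ 2,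
      3 + 2 * t + t ^ 2,
      1 + 4 * t + 10 * t ^ 2 + 7 * t ^ 3 + t ^ 4,
      -3 - 5 * t - 4 * t ^ 2 - 7 * t ^ 3 - 7 * t ^ 4 - 2 * t ^ 5⟩ := by
  have h : (Model.ofVec (s1 t)).lam = 1 := rfl
  rw [Model.WS, s1_cub, h]
  ext <;> simp only [wsc, T3.Model.jac] <;> ring

lemma s1_Δ (t : R) : (Model.ofVec (s1 t)).WS.Δ =
      -123 - 188 * t - 78 * t ^ 2 - 187 * t ^ 3 - 450 * t ^ 4 - 195 * t ^ 5 + 29 * t ^ 6
      - 203 * t ^ 7 - 219 * t ^ 8 + 98 * t ^ 9 + 119 * t ^ 10 - 9 * t ^ 11 - 15 * t ^ 12 := by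
  rw [s1_jac]
  simp only [Δ, b₂, b₄, b₆, b₈]
  ring

lemma s1_sep {F : Type*} [Field F] (h : (410375641130873328629939652814194766692558184575 : F) ≠ 0) :
    Good12 (Model.ofVec (s1 (X : F[X]))).WS.Δ := by
  rw [s1_Δ]
  refine ⟨H5T.sep_of_bezout _
    (-10285810095847647493995328148932743356461567701
      + 690833952641411638808140137207009803733639576 * X
      - 20267149006945054437896757663041151337640839260 * X ^ 2
      - 60185005492879821097831684559336518394833931070 * X ^ 3
      - 7648961380314755045044294011392924663597576265 * X ^ 4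
      + 20071272655588995069969939630423798227831913168 * X ^ 5
      - 89139140968790149427718546172129919831220177276 * X ^ 6
      - 14745238309005399021032580016708977643450754166 * X ^ 7
      + 62281792770026157552254516912078842573224081747 * X ^ 8
      + 4136335017719430458521345380837319126118787894 * X ^ 9
      - 9778799845448556152134458597897031637222763720 * X ^ 10)
    (4546696812012698474103647390981556734852205546
      + 6061037336013208166689103521966865396375494653 * X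
      - 1760335126188359072758722837189290302418953233 * X ^ 2
      + 9430091495247261613612699242604894330238695728 * X ^ 3
      + 13348014015778052099639081402687667486594610086 * X ^ 4
      - 924847126978602051050773666762687552774493103 * X ^ 5
      - 1483443050711916126441410615178865551587263719 * X ^ 6
      + 11833330979567542775378334440630401371757646028 * X ^ 7
      + 977809477702053385405736464751840400633675549 * X ^ 8
      - 6307272748248106458654431420815190449804941783 * X ^ 9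
      - 303949585453916887576218537578538962021470809 * X ^ 10
      + 814899987120713012677871549824752636435230310 * X ^ 11) _ h ?_, ?_⟩
  · have hd : derivative (-123 - 188 * X - 78 * X ^ 2 - 187 * X ^ 3 - 450 * X ^ 4 - 195 * X ^ 5 + 29 * X ^ 6
      - 203 * X ^ 7 - 219 * X ^ 8 + 98 * X ^ 9 + 119 * X ^ 10 - 9 * X ^ 11 - 15 * X ^ 12 : F[X]) =
      -188 - 156 * X - 561 * X ^ 2 - 1800 * X ^ 3 - 975 * X ^ 4 + 174 * X ^ 5 - 1421 * X ^ 6
      - 1752 * X ^ 7 + 882 * X ^ 8 + 1190 * X ^ 9 - 99 * X ^ 10 - 180 * X ^ 11 := by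
      simp only [derivative_add, derivative_sub, derivative_neg, derivative_mul, derivative_X_pow,
        derivative_ofNat, derivative_X, Nat.cast_ofNat, map_ofNat]
      ring
    rw [hd, map_ofNat]
    ring
  · have h0 : (15 : F) ≠ 0 := fun e => h (by linear_combination 27358376075391555241995976854279651112837212305 * e)
    simpa [coeff_X, coeff_one, mul_assoc] using h0

def w2 : Fin 5 → Fin 10 → R :=
  ![![0, 0, 0, 0, 0, 0, 0, 0, 0, 1],
    ![0, 0, 1, 0, 0, 0, -1, 0, 0, 0],
    ![0, 0, 0, 1, 1, 0, 0, 0, 1, 0],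
    ![0, -1, -1, 0, 0, -1, -1, 0, 0, 0],
    ![1, 0, 0, 1, 0, 0, 0, 1, -1, 0]]

def s2 (t : R) : Fin 5 → Fin 10 → R :=
  ![![0, 0, 0, 0, 0, 0, 0, 0, 0, 1],
    ![0, 0, 1, -t, 0, 0, -1, -t, t, 0],
    ![0, 0, 0, 1, 1, 0, 0, 0, 1, 0],
    ![0, -1, -1, 0, 0, -1, -1, 0, 0, 0],
    ![1, 0, 0, 1, 0, 0, 0, 1, -1, 0]]

lemma s2_eq (t : R) : shr w2 t = s2 t := by
  funext k p
  rw [shr_apply]
  fin_cases k <;> fin_cases p <;> simp [w2, s2]

lemma s2_std (t : R) : (Model.ofVec (s2 t)).Std := by
  constructor <;> rfl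

lemma s2_cub (t : R) : (Model.ofVec (s2 t)).cub =
    ⟨1, -1, 0, -t, 2 - t, -2 - t, 2 * t, -1 - t, 1, t⟩ := by
  ext <;> simp [Model.cub, ofTensor, Model.alp, Model.qm, Model.nv, Model.Tm, Model.lin, Model.ofVec,
    altM, s2, vecMul, dotProduct, Fin.sum_univ_three] <;> ring

lemma s2_jac (t : R) : (Model.ofVec (s2 t)).WS =
    ⟨t,
      -2 - 6 * t + t ^ 2,
      2 - 3 * t - 2 * t ^ 2 - 2 * t ^ 3,
      -9 + 7 * t - 2 * t ^ 2 - 4 * t ^ 3 - 2 * t ^ 4,
      18 + 21 * t + 23 * t ^ 2 + 22 * t ^ 3 + 13 * t ^ 4 + 4 * t ^ 5⟩ := by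
  have h : (Model.ofVec (s2 t)).lam = 1 := rfl
  rw [Model.WS, s2_cub, h]
  ext <;> simp only [wsc, T3.Model.jac] <;> ring

lemma s2_Δ (t : R) : (Model.ofVec (s2 t)).WS.Δ =
      4112 + 7264 * t ^ 2 - 4208 * t ^ 4 - 14085 * t ^ 6 - 6732 * t ^ 8 + 309 * t ^ 10
      + 316 * t ^ 12 := by
  rw [s2_jac]
  simp only [Δ, b₂, b₄, b₆, b₈]
  ring

lemma s2_sep {F : Type*} [Field F] (h : (25914209156962274731695217375072 : F) ≠ 0) :
    Good12 (Model.ofVec (s2 (X : F[X]))).WS.Δ := by
  rw [s2_Δ]
  refine ⟨H5T.sep_of_bezout _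
    (6302093666576428679886969206 + 98890616621408478894232906643496744 * X ^ 2
      - 213628641951151118842013332679117586 * X ^ 4
      - 361266573173833378686246113897315736 * X ^ 6
      - 4728217812055276183904913894053976 * X ^ 8
      + 25769153074692965476911145567032384 * X ^ 10)
    (-27989968428251656058938852066148329 * X - 21408837107647268436109298106750488 * X ^ 3
      + 50087598393748243218932048626627789 * X ^ 5
      + 45704416568699382199267736718673168 * X ^ 7 + 44041520375205578073056116513420 * X ^ 9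
      - 2147429422891080456409262130586032 * X ^ 11) _ h ?_, ?_⟩
  · have hd : derivative (4112 + 7264 * X ^ 2 - 4208 * X ^ 4 - 14085 * X ^ 6 - 6732 * X ^ 8 + 309 * X ^ 10
      + 316 * X ^ 12 : F[X]) =
      14528 * X - 16832 * X ^ 3 - 84510 * X ^ 5 - 53856 * X ^ 7 + 3090 * X ^ 9 + 3792 * X ^ 11 := by
      simp only [derivative_add, derivative_sub, derivative_mul, derivative_X_pow,
        derivative_ofNat, Nat.cast_ofNat, map_ofNat]
      ring
    rw [hd, map_ofNat]
    ring
  · have h0 : (316 : F) ≠ 0 := fun e => h (by linear_combination 82006991003045173201567143592 * e)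
    simpa [coeff_X, coeff_one, mul_assoc] using h0

lemma w_ne {F : Type*} [Field F] : (410375641130873328629939652814194766692558184575 : F) ≠ 0 ∨
    (25914209156962274731695217375072 : F) ≠ 0 := by
  by_contra hc
  rw [not_or, not_not, not_not] at hc
  have : (1 : F) = 0 := by
    linear_combination (-790055525309304453709191882881) * hc.1
      + (12511265181352751003057263409660350112659955008) * hc.2
  exact one_ne_zero this

theorem exists_wit (F : Type*) [Field F] : ∃ w : Fin 5 → Fin 10 → F,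
    (Model.ofVec (shr (fun k p => C (w k p)) X)).Std ∧
      Good12 (Model.ofVec (shr (fun k p => C (w k p)) X)).WS.Δ := by
  rcases w_ne (F := F) with h | h
  · have e : (fun k p => C ((w1 : Fin 5 → Fin 10 → F) k p)) = w1 := by
      funext k p
      fin_cases k <;> fin_cases p <;> simp [w1]
    exact ⟨w1, by rw [e, s1_eq]; exact ⟨s1_std _, s1_sep h⟩⟩
  · have e : (fun k p => C ((w2 : Fin 5 → Fin 10 → F) k p)) = w2 := by
      funext k p
      fin_cases k <;> fin_cases p <;> simp [w2]
    exact ⟨w2, by rw [e, s2_eq]; exact ⟨s2_std _, s2_sep h⟩⟩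

end SelAvg.FF.T5.W12
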