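import Pool.Agent.H34P.Mod
import Pool.Agent.H34P.Tail5A
import Pool.Agent.H34P.Tail5W

/-! Block TAIL5: squares of large places rarely divide the discriminant. -/

namespace SelAvg.FF.T5

open WeierstrassCurve Matrix Polynomial WithZero Filter Topology
open scoped Classical

section Ring

variable {R S : Type*} [CommRing R] [CommRing S]

/-- the discriminant in terms of the five coefficient vectors -/
noncomputable def dlv (v : Fin 5 → Fin 10 → R) : R := (Model.ofVec v).jac.Δ

lemma dlv_map (φ : R →+* S) (v : Fin 5 → Fin 10 → R) : dlv (fun k p => φ (v k p)) = φ (dlv v) := by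
  rw [dlv, dlv, ← Model.ofVec_map, Model.jac_map, map_Δ]

lemma t5_altM_lin (a b : R) (u w : Fin 10 → R) : altM (a • u + b • w) = a • altM u + b • altM w := by
  ext i j
  fin_cases i <;> fin_cases j <;> simp [altM] <;> ring

lemma t5_act_row (v : Fin 5 → Fin 10 → R) (k l : Fin 5) (a b : R) :
    (Model.ofVec v).act 1 (updateRow 1 k (a • Pi.single k 1 + b • Pi.single l 1)) =
      Model.ofVec (Function.update v k (a • v k + b • v l)) := by
  ext1
  funext j
  rw [Model.act_c, transpose_one, Matrix.one_mul, Matrix.mul_one]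
  change _ = altM _
  by_cases h : j = k
  · rw [h, updateRow_self, Function.update_self, t5_altM_lin, Model.ev_add, Model.ev_smul,
      Model.ev_smul, Model.ev_single, Model.ev_single]
    rfl
  · have e : (1 : Matrix (Fin 5) (Fin 5) R) j = Pi.single j 1 := by
      funext i; simp [one_apply, Pi.single_apply, eq_comm]
    rw [updateRow_ne h, Function.update_of_ne h, e, Model.ev_single]
    rfl

lemma dlv_row (v : Fin 5 → Fin 10 → R) {k l : Fin 5} (h : k ≠ l) (a b : R) :
    dlv (Function.update v k (a • v k + b • v l)) = a ^ 12 * dlv v := by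
  have e : ∀ j : Fin 5, (Pi.single j 1 : Fin 5 → R) = (1 : Matrix (Fin 5) (Fin 5) R) j := fun j => by
    funext i; simp [one_apply, Pi.single_apply, eq_comm]
  rw [dlv, ← t5_act_row, Model.Δ_act, chi, det_updateRow_add, det_updateRow_smul,
    det_updateRow_smul, e, e, updateRow_eq_self, det_updateRow_eq_zero h.symm]
  simp [dlv]

lemma dlv_perm (v : Fin 5 → Fin 10 → R) (σ : Equiv.Perm (Fin 5)) :
    dlv (fun k q => altM (v k) (σ (pI q)) (σ (pJ q))) = dlv v := by
  have e : Model.ofVec (fun k q => altM (v k) (σ (pI q)) (σ (pJ q))) =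
      (Model.ofVec v).act (σ.permMatrix R) 1 := by
    ext1
    funext j
    have e : (1 : Matrix (Fin 5) (Fin 5) R) j = Pi.single j 1 := by
      funext i; simp [one_apply, Pi.single_apply, eq_comm]
    rw [Model.act_c, e, Model.ev_single, transpose_permMatrix, PEquiv.toMatrix_toPEquiv_mul,
      PEquiv.mul_toMatrix_toPEquiv]
    exact altM_eq (M := (altM (v j)).submatrix σ σ) (fun i => altM_diag _ _) fun a b => altM_alt _ _ _
  rw [dlv, e, Model.Δ_act, chi, det_permutation, det_one, mul_one, ← Int.cast_pow,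
    ← Units.val_pow_eq_pow_val, Int.units_sq]
  simp [dlv]

/-- the coefficient vectors -/
def cur {α : Type*} (x : Fin 50 → α) : Fin 5 → Fin 10 → α := fun k p => x (ix k p)

lemma cur_update {α : Type*} (x : Fin 50 → α) (k : Fin 5) (p : Fin 10) (a : α) :
    cur (Function.update x (ix k p) a) =
      Function.update (cur x) k (Function.update (cur x k) p a) := by
  funext j q
  by_cases h : j = k
  · subst h
    rw [Function.update_self]
    by_cases h' : q = p
    · subst h'
      simp [cur]
    · rw [Function.update_of_ne h', cur, cur, Function.update_of_ne]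
      exact fun e => h' (by simpa using congrArg ixP e)
  · rw [Function.update_of_ne h, cur, cur, Function.update_of_ne]
    exact fun e => h (by simpa using congrArg ixK e)

lemma Δ_symm (x : Fin 50 → R) : (Model.equivVec.symm x).jac.Δ = dlv (cur x) := rfl

/-- the discriminant as a polynomial in one coordinate -/
noncomputable def PD (x : Fin 50 → R) (n : Fin 50) : R[X] :=
  dlv (cur (Function.update (fun j => C (x j)) n X))

lemma PD_map (φ : R →+* S) (x : Fin 50 → R) (n : Fin 50) :
    (PD x n).map φ = PD (fun j => φ (x j)) n := by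
  rw [PD, PD, ← coe_mapRingHom, ← dlv_map]
  congr 1
  funext k p
  simp [cur, Function.update_apply, apply_ite (Polynomial.map φ)]

lemma PD_eval (x : Fin 50 → R) (n : Fin 50) (a : R) :
    (PD x n).eval a = dlv (cur (Function.update x n a)) := by
  rw [PD, ← coe_evalRingHom, ← dlv_map]
  congr 1
  funext k p
  simp [cur, Function.update_apply, apply_ite (Polynomial.eval a)]

lemma PD_update (x : Fin 50 → R) (n : Fin 50) (a : R) : PD (Function.update x n a) n = PD x n := by
  rw [PD, PD]
  congr 2
  funext j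
  by_cases h : j = n <;> simp [h]

lemma t5_altM_update (u : Fin 10 → R) (t : R) {a b : Fin 5} (h : ¬(a = 0 ∧ b = 1))
    (h' : ¬(a = 1 ∧ b = 0)) : altM (Function.update u 0 t) a b = altM u a b := by
  fin_cases a <;> fin_cases b <;> simp [altM] at h h' ⊢

lemma t5_exists_perm (p : Fin 10) : ∃ σ : Equiv.Perm (Fin 5), σ (pI p) = 0 ∧ σ (pJ p) = 1 :=
  ⟨Equiv.swap 1 (Equiv.swap 0 (pI p) (pJ p)) * Equiv.swap 0 (pI p), by revert p; decide⟩

lemma t5_pair_inj : ∀ p q : Fin 10, (pI q = pI p ∧ pJ q = pJ p → q = p) ∧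
    ¬(pI q = pJ p ∧ pJ q = pI p) := by decide

lemma PD_perm (w : Fin 5 → Fin 10 → R) (p : Fin 10) :
    ∃ x : Fin 50 → R, PD x (ix 1 p) = dlv (W12.put (fun k q => C (w k q)) X) := by
  obtain ⟨σ, h0, h1⟩ := t5_exists_perm p
  refine ⟨fun n => altM (w (ixK n)) (σ (pI (ixP n))) (σ (pJ (ixP n))), ?_⟩
  rw [← dlv_perm _ σ, PD, cur_update, W12.put]
  congr 1
  funext k q
  have e : ∀ j, cur (fun n => C (altM (w (ixK n)) (σ (pI (ixP n))) (σ (pJ (ixP n))))) j q =
      altM (fun q => C (w j q)) (σ (pI q)) (σ (pJ q)) := fun j => by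
    rw [← altM_map (C : R →+* R[X]), cur, ixK_ix, ixP_ix, map_apply]
  by_cases h : k = 1
  · rw [h, Function.update_self, Function.update_self]
    by_cases h' : q = p
    · rw [h', Function.update_self, h0, h1]
      rfl
    · rw [Function.update_of_ne h', e, t5_altM_update]
      · rw [← h0, ← h1, σ.apply_eq_iff_eq, σ.apply_eq_iff_eq]
        exact fun c => h' ((t5_pair_inj p q).1 c)
      · rw [← h0, ← h1, σ.apply_eq_iff_eq, σ.apply_eq_iff_eq]
        exact (t5_pair_inj p q).2
  · rw [Function.update_of_ne h, Function.update_of_ne h, e]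

end Ring

section Field

variable {F : Type} [Field F]

theorem exists_PD_good (p : Fin 10) : ∃ x : Fin 50 → F, W12.Good12 (PD x (ix 1 p)) := by
  obtain ⟨w, h1, h2⟩ := W12.exists_wit F
  obtain ⟨x, hx⟩ := PD_perm w p
  refine ⟨x, ?_⟩
  have h3 := dlv_row (W12.put (fun k q => C (w k q)) X) (k := 1) (l := 4) (by decide) 1 (-X)
  rw [one_pow, one_mul] at h3
  rw [hx, ← h3, W12.put, Function.update_idem, Function.update_self, one_smul,
    Function.update_of_ne (by decide)]
  rwa [Model.WS, wsc_Δ, ← Model.Δ_std h1] at h2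

lemma t5_reflect [Infinite F] {P Q : F[X]} (h : ∀ a, a ≠ 0 → P.eval a = a ^ 12 * Q.eval a⁻¹) :
    P.natDegree ≤ 12 ∧ P.coeff 12 = Q.eval 0 := by
  have e : P * X ^ Q.natDegree = reflect Q.natDegree Q * X ^ 12 := by
    refine eq_of_infinite_eval_eq _ _ ((Set.finite_singleton (0 : F)).infinite_compl.mono ?_)
    intro a ha
    let _ := invertibleOfNonzero (inv_ne_zero ha)
    have h1 := eval₂_reflect_mul_pow (RingHom.id F) a⁻¹ Q.natDegree Q le_rfl
    rw [invOf_eq_inv, inv_inv, eval₂_id, eval₂_id] at h1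
    simp only [Set.mem_ofPred_eq, eval_mul, eval_pow, eval_X]
    rw [h a ha, ← h1, inv_pow]
    have : a ^ Q.natDegree ≠ 0 := pow_ne_zero _ ha
    field_simp
  have key : ∀ j, P.coeff (j + 12) = Q.coeff (revAt Q.natDegree (j + Q.natDegree)) := fun j => by
    rw [← coeff_mul_X_pow P Q.natDegree, e, add_right_comm, coeff_mul_X_pow, coeff_reflect]
  refine ⟨natDegree_le_iff_coeff_eq_zero.2 fun j hj => ?_, ?_⟩
  · obtain ⟨i, rfl⟩ := Nat.exists_eq_add_of_le' hj.le
    rw [key, revAt_eq_self_of_lt (by omega)]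
    exact coeff_eq_zero_of_natDegree_lt (by omega)
  · have := key 0
    rwa [zero_add, zero_add, revAt_le le_rfl, Nat.sub_self, coeff_zero_eq_eval_zero] at this

lemma PD_top [Infinite F] (x : Fin 50 → F) (p : Fin 10) : (PD x (ix 1 p)).natDegree ≤ 12 ∧
    (PD x (ix 1 p)).coeff 12 = dlv (Function.update (cur x) 1 (Pi.single p 1)) := by
  have hQ : ∀ a : F, (dlv (Function.update (fun k q => C (cur x k q)) 1
      (Function.update (fun q => X * C (cur x 1 q)) p 1))).eval a =
      dlv (Function.update (cur x) 1 (Function.update (a • cur x 1) p 1)) := fun a => by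
    rw [← coe_evalRingHom, ← dlv_map]
    congr 1
    funext k q
    by_cases h : k = 1
    · rw [h, Function.update_self, Function.update_self]
      by_cases h' : q = p
      · rw [h', Function.update_self, Function.update_self, map_one]
      · rw [Function.update_of_ne h', Function.update_of_ne h', map_mul, coe_evalRingHom, eval_X,
          eval_C]
        rfl
    · rw [Function.update_of_ne h, Function.update_of_ne h]
      simp
  have h := t5_reflect (P := PD x (ix 1 p)) fun a ha => by
    rw [hQ, PD_eval, cur_update, ← dlv_row _ (k := 1) (l := 0) (by decide) a 0,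
      Function.update_idem, Function.update_self, zero_smul, add_zero]
    congr 2
    funext q
    by_cases h' : q = p <;> simp [h', ha]
  rw [hQ, zero_smul] at h
  exact h

lemma t3spec_PD (x : Fin 50 → F) (n : Fin 50) : t3spec (PD MvPolynomial.X n) x = PD x n := by
  rw [t3spec, PD_map]
  congr 1
  funext i
  exact MvPolynomial.aeval_X x i

lemma PD_natDegree [Infinite F] (p : Fin 10) :
    (PD (MvPolynomial.X : Fin 50 → MvPolynomial (Fin 50) F) (ix 1 p)).natDegree ≤ 12 := by
  refine natDegree_le_iff_coeff_eq_zero.2 fun j hj => ?_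
  by_contra h
  obtain ⟨x, hx⟩ := t5_ne_zero h
  rw [← t5_coeff, t3spec_PD] at hx
  exact hx (coeff_eq_zero_of_natDegree_lt ((PD_top x p).1.trans_lt hj))

lemma PD_ind [Infinite F] (n : Fin 50) : t5Ind ((PD MvPolynomial.X (ix 1 (ixP n))).coeff 12 :
    MvPolynomial (Fin 50) F) n := by
  intro x a
  rw [← t5_coeff, ← t5_coeff, t3spec_PD, t3spec_PD, (PD_top _ _).2, (PD_top _ _).2]
  conv_lhs => rw [← ix_ixK n, cur_update, ixP_ix]
  generalize ixK n = k, ixP n = p
  by_cases h : k = 1
  · rw [h, Function.update_idem]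
  · have h1 := dlv_row (Function.update (cur x) 1 (Pi.single p 1)) h 1 (a - cur x k p)
    rw [one_pow, one_mul, Function.update_self, Function.update_of_ne h] at h1
    rw [← h1, Function.update_comm h]
    congr 2
    funext q
    by_cases h' : q = p <;> simp [h']

variable [Cv F]

theorem tendsto_large' (D : Fin 50 → Div F) {k : Fin 50 → ℕ} (hk : ∀ i, 0 < k i) (b : ℕ) :
    Tendsto (fun m => dens (PB D k m) fun x => ∃ v : Place F, m * pp F < 2 * dg v + b ∧
      v.1 (Model.equivVec.symm x).jac.Δ ≤ exp (-2)) atTop (𝓝 0) := by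
  have := infinite_field (F := F)
  choose x₀ h₀ using exists_PD_good (F := F)
  have h1 := (t5_family D hk (N := fun m => (m - b) / 2) two_pos (fun _ => le_rfl)
    (fun p : Fin 10 => (PD MvPolynomial.X (ix 1 p)).coeff 12) (fun p h => (h₀ p).2 (by
      rw [← t3spec_PD, t5_coeff, h, map_zero])) fun n => ⟨_, PD_ind n⟩).add
    (tendsto_finsetSum Finset.univ fun p _ =>
      t3_large D hk (N := fun m => (m - b) / 2) two_pos (fun _ => le_rfl) (ix 1 p)
        (PD MvPolynomial.X (ix 1 p)) (fun x a => by rw [t3spec_PD, t3spec_PD, PD_update])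
        (x₀ := x₀ p) (by rw [t3spec_PD]; exact (h₀ p).1) (by
          rw [t3spec_PD]; exact (PD_natDegree p).trans (le_natDegree_of_ne_zero (h₀ p).2)))
  rw [Finset.sum_const_zero, add_zero] at h1
  obtain ⟨c₁, h₁⟩ := tl_integral D k
  refine squeeze_zero' (Eventually.of_forall fun d => dens_nonneg _ _) ?_ h1
  filter_upwards [eventually_ge_atTop (2 * c₁ + b)] with m hm
  refine le_trans (le_trans (dens_mono fun x hx => ?_) (dens_or_le _ _ _))
    (add_le_add le_rfl (dens_exists_le _ _ _))
  rintro ⟨v, h2, h3⟩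
  have h4 : m ≤ m * pp F := Nat.le_mul_of_pos_right m pp_pos
  have h5 : (m - b) / 2 ≤ dg v := by omega
  rw [or_iff_not_imp_right]
  refine fun h => ⟨v, h5, fun p => ?_⟩
  obtain ⟨y, rfl⟩ := (h₁ v (by omega)).2 m x hx
  have h6 : (PD y (ix 1 p)).map (rO v) = 0 := by
    by_contra h7
    refine h ⟨p, Finset.mem_univ _, v, h5, ?_⟩
    rw [t3spec_PD, PD_eval, Function.update_eq_self]
    exact ⟨⟨_, PD_map _ _ _, h7⟩, h3⟩
  rw [← t5_coeff, t3spec_PD, ← PD_map, coeff_map]
  refine (rO_eq_zero _).1 ?_
  rw [← coeff_map, h6, coeff_zero]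

end Field

end SelAvg.FF.T5
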