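import Pool.Agent.H34P.Mod
import Pool.Agent.H81Sel.Tail

/-! Block TAIL5: a rational flag of the trivial class reduces to such a flag modulo every place. -/

namespace SelAvg.FF.T5

open Matrix

lemma t5r_scale {F : Type} [Field F] (O : ValuationSubring F) {n : ℕ} {x : Fin n → F}
    (hx : x ≠ 0) : ∃ (i : Fin n) (t : F) (y : Fin n → O), y i = 1 ∧ O.subtype ∘ y = t • x := by
  obtain ⟨j0, hj0⟩ := Function.ne_iff.1 hx
  have : Nonempty (Fin n) := ⟨j0⟩
  obtain ⟨i, hi⟩ := Finite.exists_max fun i => O.valuation (x i)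
  have h0 : x i ≠ 0 := by
    intro h
    have := hi j0
    rw [h, map_zero, le_zero_iff, map_eq_zero] at this
    exact hj0 this
  refine ⟨i, (x i)⁻¹, fun j => ⟨(x i)⁻¹ * x j, ?_⟩, Subtype.ext (inv_mul_cancel₀ h0), rfl⟩
  rw [← O.valuation_le_one_iff, map_mul, map_inv₀]
  exact inv_mul_le_one_of_le₀ (hi j) zero_le

/-- the rows of an invertible matrix can be made integral and unimodular from the top -/
lemma t5r_rows {F : Type} [Field F] (O : ValuationSubring F) {n : ℕ} (A : GL (Fin n) F) :
    ∀ m ≤ n, ∃ (c : Fin n → Fin n → F) (k : Fin n → Fin n → O) (p : Fin n → Fin n),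
      (∀ i : Fin n, i.1 < m → k i (p i) = 1 ∧ (∀ j, j < i → k i (p j) = 0) ∧
        (∀ j, i < j → c i j = 0) ∧ c i ᵥ* A.1 = O.subtype ∘ k i) ∧
      ∀ x : Fin n → F, ∃ d : Fin n → F, (∀ j : Fin n, m ≤ j.1 → d j = 0) ∧
        ∀ j : Fin n, j.1 < m → (d ᵥ* A.1) (p j) = x (p j) := by
  intro m
  induction m with
  | zero => exact fun _ => ⟨0, 0, id, by simp, fun x => ⟨0, by simp, by simp⟩⟩
  | succ m ih =>
    intro hm
    obtain ⟨c, k, p, h1, h2⟩ := ih (by omega)
    obtain ⟨a, ha⟩ : ∃ a : Fin n, a.1 = m := ⟨⟨m, hm⟩, rfl⟩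
    obtain ⟨d, hd, hd'⟩ := h2 (A.1 a)
    have hr : (Pi.single a 1 - d) ᵥ* A.1 ≠ 0 := by
      intro h
      have h3 := congrArg (fun x => x ᵥ* (A⁻¹).1) h
      simp only [vecMul_vecMul, Units.mul_inv, vecMul_one, zero_vecMul] at h3
      have h4 := congrFun h3 a
      simp [hd a ha.ge] at h4
    obtain ⟨q, t, y, hy1, hy⟩ := t5r_scale O hr
    have hy0 : ∀ j : Fin n, j.1 < m → y (p j) = 0 := by
      intro j hj
      apply O.subtype_injective
      have := congrFun hy (p j)
      simp only [Function.comp_apply, Pi.smul_apply, sub_vecMul, Pi.sub_apply, single_one_vecMul,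
        hd' j hj] at this
      rw [this, map_zero]
      simp [Matrix.row]
    have hc : ∀ j : Fin n, m + 1 ≤ j.1 → (t • (Pi.single a 1 - d) : Fin n → F) j = 0 := by
      intro j hj
      have : j ≠ a := fun e => by rw [e] at hj; omega
      simp [this, hd j (by omega)]
    have hp : ∀ j : Fin n, j.1 < m → Function.update p a q j = p j := fun j hj =>
      Function.update_of_ne (fun e => by rw [e] at hj; omega) _ _
    refine ⟨Function.update c a (t • (Pi.single a 1 - d)), Function.update k a y,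
      Function.update p a q, fun i hi => ?_, fun x => ?_⟩
    · by_cases e : i = a
      · subst e
        simp only [Function.update_self]
        refine ⟨hy1, fun j hj => ?_, fun j hj => hc j ?_, ?_⟩
        · have hj' : j.1 < m := ha ▸ hj
          rw [hp j hj', hy0 j hj']
        · have : i.1 < j.1 := hj
          omega
        · rw [smul_vecMul, hy]
      · have hi' : i.1 < m := by
          have : i.1 ≠ a.1 := fun h => e (Fin.ext h)
          omega
        obtain ⟨e1, e2, e3, e4⟩ := h1 i hi'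
        simp only [Function.update_of_ne e]
        refine ⟨e1, fun j hj => ?_, e3, e4⟩
        have : j.1 < i.1 := hj
        rw [hp j (by omega), e2 j hj]
    · obtain ⟨b, hb, hb'⟩ := h2 x
      refine ⟨b + (x q - (b ᵥ* A.1) q) • (t • (Pi.single a 1 - d)), fun j hj => ?_, fun j hj => ?_⟩
      · rw [Pi.add_apply, hb j (by omega), Pi.smul_apply, hc j hj, smul_zero, add_zero]
      · rw [add_vecMul, smul_vecMul, smul_vecMul, ← hy]
        by_cases e : j = a
        · subst e
          simp [hy1]
        · have hj' : j.1 < m := by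
            have : j.1 ≠ a.1 := fun h => e (Fin.ext h)
            omega
          simp [hp j hj', hy0 j hj', hb' j hj']

/-- the Iwasawa decomposition over a valuation ring -/
lemma t5r_iwa {F : Type} [Field F] (O : ValuationSubring F) {n : ℕ} (A : GL (Fin n) F) :
    ∃ (L : Matrix (Fin n) (Fin n) F) (K : GL (Fin n) O), (∀ i j, i < j → L i j = 0) ∧
      L * A.1 = K.1.map O.subtype := by
  obtain ⟨c, k, p, h, -⟩ := t5r_rows O A n le_rfl
  have h1 : (of k * of fun l j => if l = p j then (1 : O) else 0) = of fun i j => k i (p j) := by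
    ext i j
    simp [mul_apply]
  have h2 : (of fun i j => k i (p j)).det = 1 := by
    rw [det_of_isUpperTriangular (M := of fun i j => k i (p j))
      fun i j hij => (h i i.2).2.1 j hij]
    simp [fun i => (h i i.2).1]
  have h3 : IsUnit (of k).det := by
    rw [← h1, det_mul] at h2
    exact IsUnit.of_mul_eq_one _ h2
  refine ⟨of c, GeneralLinearGroup.mk'' (of k) h3, fun i j hij => (h i i.2).2.2.1 j hij, ?_⟩
  ext i j
  exact congrFun (h i i.2).2.2.2 j

lemma t5r_kosB {k l : Fin 5} (h : l ≤ k) : Model.kosB l ≤ Model.kosB k := by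
  revert k l
  decide

/-- lower triangular pairs keep the flag pattern -/
lemma t5r_kos {R : Type*} [CommRing R] {f : Model R} (h : f.Kos) {A B : Matrix (Fin 5) (Fin 5) R}
    (hA : ∀ i j, i < j → A i j = 0) (hB : ∀ i j, i < j → B i j = 0) : (f.act A B).Kos := by
  intro k i j hk
  rw [Model.act_c, moda_conj]
  refine Finset.sum_eq_zero fun a _ => Finset.sum_eq_zero fun b _ => ?_
  rcases lt_or_ge i a with ha | ha
  · rw [hA i a ha, zero_mul, zero_mul]
  rcases lt_or_ge j b with hb | hb
  · rw [hA j b hb, mul_zero, zero_mul]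
  rw [Model.ev_apply, Finset.sum_eq_zero fun l _ => ?_, mul_zero]
  rcases lt_or_ge k l with hl | hl
  · rw [hB k l hl, zero_mul]
  have h1 := t5r_kosB hl
  have h2 : a.1 ≤ i.1 := ha
  have h3 : b.1 ≤ j.1 := hb
  rw [h l a b (by omega), mul_zero]

theorem t5_triv_red {F : Type} [Field F] {v : Place F} {f : Model (OO v)}
    (h : (f.map (OO v).subtype).Triv) {κ : Type} [Field κ] (φ : OO v →+* κ) :
    (f.map φ).Triv := by
  obtain ⟨g, hg⟩ := h
  obtain ⟨L, K, hL, hK⟩ := t5r_iwa (OO v) g.A
  obtain ⟨L', K', hL', hK'⟩ := t5r_iwa (OO v) g.M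
  have h1 := t5r_kos hg hL hL'
  rw [G.smul_def, Model.act_act, hK, hK', ← Model.map_act] at h1
  refine ⟨G.map φ ⟨K, K'⟩, fun k i j hk => ?_⟩
  rw [← G.map_smul, Model.map_c]
  have h2 : (f.act K.1 K'.1).c k i j = 0 :=
    (OO v).subtype_injective ((h1 k i j hk).trans (map_zero _).symm)
  exact (congrArg φ h2).trans (map_zero φ)

end SelAvg.FF.T5
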