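import Pool.Agent.H34P.ToM
import Pool.Agent.H34P.Desc5
import Pool.Agent.H34P.Tail5C
import Pool.Agent.H34P.Tail5L
import Pool.Agent.H34P.Tail5R
import Pool.Agent.H5T.Tail3C

/-! Block TAIL5: negligible sets of degree five models on product boxes. -/

namespace SelAvg.FF.T5

open WeierstrassCurve WithZero Filter Topology
open scoped Classical

section Gen

variable (k : Type) [Field k] {A : Type} [CommRing A] [Algebra k A]

/-- the Jacobian of the generic model -/
noncomputable def genJ : WeierstrassCurve (MvPolynomial (Fin 50) k) := (toM MvPolynomial.X).jac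

lemma genJ_map (x : Fin 50 → A) :
    (genJ k).map (MvPolynomial.aeval x : MvPolynomial (Fin 50) k →ₐ[k] A).toRingHom =
      (toM x).jac := by
  rw [genJ, ← Model.jac_map, toM, Model.equivVec_symm_map]
  congr 2
  funext i
  exact MvPolynomial.aeval_X x i

lemma aeval_genJ_c46 (x : Fin 50 → A) :
    MvPolynomial.aeval x ((genJ k).c₄ * (genJ k).c₆) = (toM x).jac.c₄ * (toM x).jac.c₆ := by
  rw [← genJ_map k x, map_c₄, map_c₆, map_mul]
  rfl

lemma aeval_genJ_Δ (x : Fin 50 → A) : MvPolynomial.aeval x (genJ k).Δ = (toM x).jac.Δ := by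
  rw [← genJ_map k x, map_Δ]
  rfl

lemma t5_jac (W : WeierstrassCurve k) : ∃ (x : Fin 50 → k) (C : VariableChange k),
    (toM x).jac = C • W :=
  ⟨Model.equivVec (Model.unred (T3.wcub W)), _, by
    rw [toM, Equiv.symm_apply_apply, Model.jac_std (Model.unred_std _), Model.WS_unred rfl,
      T3.jac_wcub]⟩

lemma genJ_c46_ne_zero : (genJ k).c₄ * (genJ k).c₆ ≠ 0 := by
  intro h
  obtain ⟨x, C, e⟩ := t5_jac k ⟨1, 0, 0, 0, 0⟩
  have h1 := aeval_genJ_c46 k x
  rw [h, map_zero, e, variableChange_c₄, variableChange_c₆, mul_mul_mul_comm] at h1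
  exact mul_ne_zero (mul_ne_zero (pow_ne_zero _ (Units.ne_zero _)) (pow_ne_zero _ (Units.ne_zero _)))
    (tailAlg_c46 k) h1.symm

lemma genJ_Δ_ne_zero : (genJ k).Δ ≠ 0 := by
  intro h
  obtain ⟨x, C, e⟩ := t5_jac k (ofJ 0)
  have h1 := aeval_genJ_Δ k x
  rw [h, map_zero, e, variableChange_Δ] at h1
  exact mul_ne_zero (pow_ne_zero _ (Units.ne_zero _)) (ofJ (0 : k)).isUnit_Δ.ne_zero h1.symm

/-- the two matrices of a group element -/
def t5eG : th5.G k ≃ GL (Fin 5) k × GL (Fin 5) k :=
  ⟨fun g => (g.A, g.M), fun p => ⟨p.1, p.2⟩, fun _ => rfl, fun _ => rfl⟩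

/-- the coordinates of an object -/
def t5eO : th5.Obj k ≃ (Fin 50 → k) × VariableChange k :=
  ⟨fun z => (Model.equivVec z.f, z.γ), fun p => ⟨toM p.1, p.2⟩,
    fun z => Obj.ext (Model.equivVec.symm_apply_apply z.f) rfl,
    fun p => Prod.ext (Model.equivVec.apply_symm_apply p.1) rfl⟩

lemma t5eO_over (z : th5.Obj k) (W : WeierstrassCurve k) :
    th5.Over z W ↔ (toM (t5eO k z).1).jac = (t5eO k z).2 • W := by
  change _ ↔ (Model.equivVec.symm (Model.equivVec z.f)).jac = _
  rw [Equiv.symm_apply_apply]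
  rfl

end Gen

variable {F : Type} [Field F] [Cv F]

theorem tendsto_large (D : Fin 50 → Div F) (b : ℕ) :
    Tendsto (fun m => dens (PB D kV m) fun x => ∃ v : Place F, m * pp F < 2 * dg v + b ∧
      v.1 (toM x).jac.Δ ≤ exp (-2)) atTop (𝓝 0) :=
  tendsto_large' D kV_pos b

theorem tendsto_c46_V (D : Fin 50 → Div F) :
    Tendsto (fun m => dens (PB D kV m) fun x => (toM x).jac.c₄ = 0 ∨ (toM x).jac.c₆ = 0) atTop
      (𝓝 0) := by
  simp only [← mul_eq_zero, ← aeval_genJ_c46 F]
  exact dens_aeval_tendsto D kV_pos (genJ_c46_ne_zero F)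

lemma t5_dg_le (v : Place F) : dg v ≤ Fintype.card (kv v) := by
  rw [← Nat.card_eq_fintype_card, (card_kv v).2]
  exact (Nat.lt_pow_self (Cv.two_le (F := F))).le

omit [Cv F] in
lemma t5_char (v : Place F) : ((ringChar F : ℕ) : OO v) = 0 :=
  (OO v).subtype_injective (by rw [map_natCast, map_zero, ringChar.Nat.cast_ringChar])

lemma t5_small {k κ : Type} [Field k] [Field κ] [Algebra k κ] [Fintype κ] {n N : ℕ} (hN : 0 < N)
    {p : MvPolynomial (Fin n) k} (hp : p ≠ 0) (h : N * p.totalDegree ≤ Fintype.card κ) :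
    dens Finset.univ (fun x : Fin n → κ => MvPolynomial.aeval x p = 0) ≤ 1 / N := by
  refine (dens_aeval_field hp κ).trans ?_
  rw [div_le_div_iff₀ (Nat.cast_pos.2 Fintype.card_pos) (Nat.cast_pos.2 hN), one_mul, mul_comm]
  exact_mod_cast h

theorem tendsto_fiveTorsion (D : Fin 50 → Div F) :
    Tendsto (fun m => dens (PB D kV m) fun x => ¬NoFiveTorsion (toM x).jac) atTop (𝓝 0) := by
  have hp := Fact.mk (prime_ringChar (F := F))
  refine PB_sieve D kV_pos _ (c := 1 / 16384) (by norm_num)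
    (16384 * ((genJ (ZMod (ringChar F))).c₄ * (genJ (ZMod (ringChar F))).c₆).totalDegree +
      8 * (genW (ZMod (ringChar F))).Δ.totalDegree)
    (fun v y => Tor5 (toM y).jac ∨ (toM y).jac.c₄ * (toM y).jac.c₆ = 0) (fun v hv => ?_)
    fun v y h => ?_
  · have : CharP (kv v) (ringChar F) := (CharP.charP_iff_prime_eq_zero hp.out).2 (by
      rw [← map_natCast ((resv v).comp (tl_inc v)), t5_char, map_zero])
    let _ : Algebra (ZMod (ringChar F)) (kv v) := ZMod.algebra _ _
    have h0 := hv.trans (t5_dg_le v)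
    have h1 := dens_tor5_le th5 (t5eG (kv v)) (fun x => (toM x).jac) (t5eO _) (t5eO_over _) (by
      rw [← negl_dens_equiv wEquivVec.symm]
      simp only [← aeval_genW_Delta (k := ZMod (ringChar F))]
      exact_mod_cast t5_small (N := 8) (by norm_num) (genW_Delta_ne_zero _) (by omega))
    have h2 := t5_small (κ := kv v) (N := 16384) (by norm_num)
      (genJ_c46_ne_zero (ZMod (ringChar F))) (by omega)
    simp only [aeval_genJ_c46] at h2
    refine (dens_or_le _ _ _).trans ((add_le_add h1 h2).trans (by norm_num))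
  · rw [toM, ← Model.equivVec_symm_map, Model.jac_map] at h ⊢
    rw [map_c₄, or_iff_not_imp_right]
    intro hb
    simp only [NoFiveTorsion, not_forall] at h
    obtain ⟨P, h3, hP⟩ := h
    refine (tor5_int (K := F) ?_ (tor5_of_point hP h3)).map _
    by_cases hc : ringChar F = 5
    · refine Or.inr ⟨by exact_mod_cast hc ▸ t5_char v, ?_⟩
      by_contra hu
      exact left_ne_zero_of_mul hb (ad_j_ker v _ hu)
    · have h4 := (Nat.Coprime.cast (R := OO v)
        ((Nat.coprime_primes Nat.prime_five hp.out).2 (Ne.symm hc)))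
      rw [t5_char, isCoprime_zero_right] at h4
      exact Or.inl (by exact_mod_cast h4)

theorem tendsto_triv (D : Fin 50 → Div F) :
    Tendsto (fun m => dens (PB D kV m) fun x => (toM x).Triv) atTop (𝓝 0) := by
  have hp := Fact.mk (prime_ringChar (F := F))
  refine PB_sieve D kV_pos _ (c := 1 / 200) (by norm_num)
    (200 * (genJ (ZMod (ringChar F))).Δ.totalDegree + 8)
    (fun v y => ((toM y).jac.Δ ≠ 0 ∧ (toM y).Triv) ∨ (toM y).jac.Δ = 0) (fun v hv => ?_)
    fun v y h => ?_
  · have : CharP (kv v) (ringChar F) := (CharP.charP_iff_prime_eq_zero hp.out).2 (by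
      rw [← map_natCast ((resv v).comp (tl_inc v)), t5_char, map_zero])
    let _ : Algebra (ZMod (ringChar F)) (kv v) := ZMod.algebra _ _
    have h0 := hv.trans (t5_dg_le v)
    have h1 := dens_triv5_le th5 (t5eG (kv v)) (fun x => (toM x).jac) (t5eO _) (t5eO_over _)
      (by omega) (fun x => (toM x).Triv) fun z W hW hz h => (triv_iff hW hz).1
        (Model.equivVec.symm_apply_apply z.f ▸ h)
    have h2 := t5_small (κ := kv v) (N := 200) (by norm_num)
      (genJ_Δ_ne_zero (ZMod (ringChar F))) (by omega)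
    simp only [aeval_genJ_Δ] at h2
    refine (dens_or_le _ _ _).trans ((add_le_add h1 h2).trans (by norm_num))
  · rw [toM, ← Model.equivVec_symm_map] at h ⊢
    exact (em _).symm.imp_left fun h1 => ⟨h1, t5_triv_red h _⟩

end SelAvg.FF.T5
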