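import Pool.Agent.H34P.Mod
import Pool.Agent.H34P.ToM
import Pool.Agent.H15G.SiegN
import Pool.Agent.H81Sel.Glob1

/-! Adelic points of `GL₅ × GL₅`, integrality, local models; invariance. -/

namespace SelAvg.FF.T5

open WeierstrassCurve WithZero Filter Topology Matrix
open scoped Classical ENNReal

variable {F : Type} [Field F]

variable (F) in
/-- the integral points -/
noncomputable def KG : Subgroup (G (A F)) := (G.map (inc F)).range

variable (F) in
/-- torsors with a generic trivialisation -/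
abbrev XG : Type := RC (KG F)

/-- the bundle on which the alternating forms live -/
noncomputable def pN (x : XG F) : XN F 5 := RC.mk (KN F 5) x.out.A

/-- the bundle of the variables -/
noncomputable def pM (x : XG F) : XN F 5 := RC.mk (KN F 5) x.out.M

/-- the divisor of the line bundle of the Jacobian -/
noncomputable def cls (g : G (A F)) : Div F := idiv g.det

lemma cls_eq (g : G (A F)) :
    cls g = 2 • idiv (GeneralLinearGroup.det g.A) + idiv (GeneralLinearGroup.det g.M) := by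
  rw [cls, G.det, idiv_mul, idiv_pow]

lemma mem_KG {k : G (A F)} : k ∈ KG F ↔ k.A ∈ KN F 5 ∧ k.M ∈ KN F 5 := by
  constructor
  · rintro ⟨k₀, rfl⟩
    exact ⟨⟨k₀.A, rfl⟩, ⟨k₀.M, rfl⟩⟩
  · rintro ⟨⟨N, hN⟩, M, hM⟩
    exact ⟨⟨N, M⟩, G.ext hN hM⟩

lemma mem_KN_of_forall {n : ℕ} {k : GL (Fin n) (A F)}
    (h : ∀ v : Place F, ∃ h : GL (Fin n) v.loc.O,
      GeneralLinearGroup.map v.loc.incl h = GeneralLinearGroup.map (pr v) k) : k ∈ KN F n := by
  choose h hh using h
  refine mem_KN.2 ⟨fun i j => glob0_mem fun v => ⟨(h v).1 i j, ?_⟩,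
    glob0_idiv fun v => ⟨GeneralLinearGroup.det (h v), ?_⟩⟩
  · exact congrArg (fun g : GL (Fin n) v.Compl => g.1 i j) (hh v)
  · have := congrArg GeneralLinearGroup.det (hh v)
    rwa [GeneralLinearGroup.map_det, GeneralLinearGroup.map_det] at this

/-- membership can be tested place by place -/
lemma mem_KG_of_forall {k : G (A F)}
    (h : ∀ v : Place F, ∃ h : G v.loc.O, G.map v.loc.incl h = G.map (pr v) k) : k ∈ KG F :=
  mem_KG.2 ⟨mem_KN_of_forall fun v => (h v).elim fun h hh => ⟨h.A, congrArg G.A hh⟩,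
    mem_KN_of_forall fun v => (h v).elim fun h hh => ⟨h.M, congrArg G.M hh⟩⟩

lemma exists_GL_patch {n : ℕ} (T : Finset (Place F)) (g : ∀ v : Place F, GL (Fin n) v.Compl) :
    ∃ g₀ : GL (Fin n) (A F), (∀ v ∈ T, GeneralLinearGroup.map (pr v) g₀ = g v) ∧
      ∀ v ∉ T, GeneralLinearGroup.map (pr v) g₀ = 1 := by
  let g' : ∀ v : Place F, GL (Fin n) v.Compl := fun v => if v ∈ T then g v else 1
  have hg : ∀ v ∉ T, g' v = 1 := fun v hv => if_neg hv
  have key : ∀ a : ∀ v : Place F, v.Compl, (∀ v ∉ T, a v = 0 ∨ a v = 1) →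
      ∃ b : A F, ∀ v, pr v b = a v := fun a ha =>
    exists_adele a (T.finite_toSet.subset fun v hv => by
      by_contra hT
      rcases ha v hT with h | h <;> exact hv (by simp [h]))
  have hone : ∀ (v : Place F) (i j : Fin n), (1 : Matrix (Fin n) (Fin n) v.Compl) i j = 0 ∨
      (1 : Matrix (Fin n) (Fin n) v.Compl) i j = 1 := fun v i j => by
    by_cases h : i = j
    · exact Or.inr (by rw [h, one_apply_eq])
    · exact Or.inl (one_apply_ne h)
  choose M hM using fun i j => key (fun v => (g' v).1 i j) fun v hv => by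
    simpa [hg v hv] using hone v i j
  choose N hN using fun i j => key (fun v => ((g' v)⁻¹).1 i j) fun v hv => by
    simpa [hg v hv] using hone v i j
  have hM' : ∀ v, (pr v).mapMatrix (of M) = (g' v).1 := fun v => Matrix.ext fun i j => hM i j v
  have hN' : ∀ v, (pr v).mapMatrix (of N) = ((g' v)⁻¹).1 := fun v =>
    Matrix.ext fun i j => hN i j v
  have hext : ∀ X Y : Matrix (Fin n) (Fin n) (A F),
      (∀ v, (pr v).mapMatrix X = (pr v).mapMatrix Y) → X = Y := fun X Y h =>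
    Matrix.ext fun i j => A_ext fun v => congrFun (congrFun (h v) i) j
  have e : ∀ v, GeneralLinearGroup.map (pr v) ⟨of M, of N, hext _ _ fun v => by
        rw [map_mul, hM', hN', map_one, Units.mul_inv], hext _ _ fun v => by
        rw [map_mul, hM', hN', map_one, Units.inv_mul]⟩ = g' v :=
    fun v => Units.ext (hM' v)
  exact ⟨_, fun v hv => (e v).trans (if_pos hv), fun v hv => (e v).trans (hg v hv)⟩

/-- patching of local group elements that are trivial outside a finite set -/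
lemma exists_G_patch (T : Finset (Place F)) (g : ∀ v : Place F, G v.Compl) :
    ∃ g₀ : G (A F), (∀ v ∈ T, G.map (pr v) g₀ = g v) ∧ ∀ v ∉ T, G.map (pr v) g₀ = 1 := by
  obtain ⟨N, h1, h2⟩ := exists_GL_patch T fun v => (g v).A
  obtain ⟨M, h3, h4⟩ := exists_GL_patch T fun v => (g v).M
  exact ⟨⟨N, M⟩, fun v hv => G.ext (h1 v hv) (h3 v hv), fun v hv => G.ext (h2 v hv) (h4 v hv)⟩

lemma pN_mk (g : G (A F)) : pN (RC.mk (KG F) g) = RC.mk (KN F 5) g.A := by
  obtain ⟨k, hk, e⟩ := RC.out_mk (K := KG F) g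
  rw [pN, e, G.mul_A]
  exact (RC.mk_eq.2 ⟨k.A, (mem_KG.1 hk).1, rfl⟩).symm

lemma pM_mk (g : G (A F)) : pM (RC.mk (KG F) g) = RC.mk (KN F 5) g.M := by
  obtain ⟨k, hk, e⟩ := RC.out_mk (K := KG F) g
  rw [pM, e, G.mul_M]
  exact (RC.mk_eq.2 ⟨k.M, (mem_KG.1 hk).2, rfl⟩).symm

/-- a torsor is a pair of bundles -/
lemma mkG_eq_iff {g g' : G (A F)} : RC.mk (KG F) g = RC.mk (KG F) g' ↔
    RC.mk (KN F 5) g.A = RC.mk (KN F 5) g'.A ∧ RC.mk (KN F 5) g.M = RC.mk (KN F 5) g'.M := by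
  rw [RC.mk_eq', RC.mk_eq', RC.mk_eq', mem_KG]
  rfl

variable (F) in
/-- the pair of bundles -/
noncomputable def pNM : XG F ≃ XN F 5 × XN F 5 where
  toFun x := (pN x, pM x)
  invFun y := RC.mk (KG F) ⟨y.1.out, y.2.out⟩
  left_inv x := by
    obtain ⟨g, rfl⟩ := x.mk_surj
    exact mkG_eq_iff.2 ⟨(RC.mk_out _).trans (pN_mk g), (RC.mk_out _).trans (pM_mk g)⟩
  right_inv y := Prod.ext ((pN_mk _).trans y.1.mk_out) ((pM_mk _).trans y.2.mk_out)

lemma pNM_apply (x : XG F) : pNM F x = (pN x, pM x) := rfl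

lemma pN_symm (y : XN F 5 × XN F 5) : pN ((pNM F).symm y) = y.1 :=
  congrArg Prod.fst ((pNM F).apply_symm_apply y)

lemma pM_symm (y : XN F 5 × XN F 5) : pM ((pNM F).symm y) = y.2 :=
  congrArg Prod.snd ((pNM F).apply_symm_apply y)

lemma cls_mul (g g' : G (A F)) : cls (g * g') = cls g + cls g' := by
  rw [cls, cls, cls, G.det_mul, idiv_mul]

lemma cls_inv (g : G (A F)) : cls g⁻¹ = -cls g := by
  rw [cls, cls, G.det_inv, idiv_inv]

lemma cls_K {k : G (A F)} (hk : k ∈ KG F) (g : G (A F)) : cls (k * g) = cls g := by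
  rw [cls_mul, cls_eq, (mem_KN.1 (mem_KG.1 hk).1).2, (mem_KN.1 (mem_KG.1 hk).2).2, smul_zero,
    zero_add, zero_add]

lemma cls_out (x : XG F) : cls x.out = 2 • detN (pN x) + detN (pM x) := by
  rw [pN, pM, detN_mk, detN_mk, cls_eq]

lemma idiv_Gam (g : G (A F)) (f : Model (A F)) : idiv (g.Gam f).u = -cls g := by
  rw [G.Gam_u, idiv_inv, cls]

/-- the group as a product -/
def prodG (R : Type) [CommRing R] : G R ≃ GL (Fin 5) R × GL (Fin 5) R where
  toFun g := (g.A, g.M)
  invFun p := ⟨p.1, p.2⟩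
  left_inv _ := rfl
  right_inv _ := rfl

variable [Cv F]

variable (F) in
/-- the diagonal embedding -/
noncomputable abbrev gA : G F →* G (A F) := G.map (toA F)

variable (F) in
/-- change of the generic trivialisation -/
noncomputable def actG : G F →* Equiv.Perm (XG F) := (RC.act (KG F)).comp (gA F)

lemma actG_mk (γ : G F) (g : G (A F)) :
    actG F γ (RC.mk (KG F) g) = RC.mk (KG F) (g * (gA F γ)⁻¹) := rfl

/-- the form in which invariance under `KG` and `G F` is used on representatives -/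
lemma out_actG (γ : G F) (x : XG F) : ∃ k ∈ KG F, (actG F γ x).out = k * (x.out * (gA F γ)⁻¹) := by
  conv => enter [1, k, 2, 1]; rw [← x.mk_out, actG_mk]
  exact RC.out_mk _

lemma pN_act (γ : G F) (x : XG F) : pN (actG F γ x) = actN F 5 γ.A (pN x) := by
  obtain ⟨g, rfl⟩ := x.mk_surj
  rw [actG_mk, pN_mk, pN_mk, actN_mk]
  rfl

lemma pM_act (γ : G F) (x : XG F) : pM (actG F γ x) = actN F 5 γ.M (pM x) := by
  obtain ⟨g, rfl⟩ := x.mk_surj
  rw [actG_mk, pM_mk, pM_mk, actN_mk]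
  rfl

lemma pNM_act (γ : G F) (x : XG F) :
    pNM F (actG F γ x) = prodAct (actN F 5) (actN F 5) (prodG F γ) (pNM F x) :=
  Prod.ext (pN_act γ x) (pM_act γ x)

lemma isBru_pNM {ρ : XG F → ℝ≥0∞} (hρ : IsBru (actG F) ρ) :
    IsBru (prodAct (actN F 5) (actN F 5)) fun y => ρ ((pNM F).symm y) := by
  intro y
  obtain ⟨x, rfl⟩ := (pNM F).surjective y
  rw [← (prodG F).tsum_eq]
  simp only [← pNM_act, Equiv.symm_apply_apply]
  exact hρ x

lemma isBru_prod {β ρ : XN F 5 → ℝ≥0∞} (hβ : IsBru (actN F 5) β) (hρ : IsBru (actN F 5) ρ) :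
    IsBru (actG F) fun x => β (pN x) * ρ (pM x) := by
  intro x
  simp only [pN_act, pM_act]
  have h := hβ.prod hρ (pN x, pM x)
  rw [← (prodG F).tsum_eq] at h
  exact h

lemma cls_gA (γ : G F) : cls (gA F γ) = dv ((γ.det : Fˣ) : F) := by
  rw [cls, G.map_det]
  exact idiv_uA γ.det

lemma cls_act (γ : G F) (g : G (A F)) :
    cls (g * (gA F γ)⁻¹) = cls g - dv ((γ.det : Fˣ) : F) := by
  rw [cls_mul, cls_inv, cls_gA, sub_eq_add_neg]

theorem finite_stabG (x : XG F) : {γ : G F | actG F γ x = x}.Finite := by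
  refine (((finite_stabN (pN x)).prod (finite_stabN (pM x))).image (prodG F).symm).subset
    fun γ hγ => ⟨(γ.A, γ.M), ⟨?_, ?_⟩, rfl⟩
  · change actN F 5 γ.A _ = _
    rw [← pN_act, hγ]
  · change actN F 5 γ.M _ = _
    rw [← pM_act, hγ]

/-- the torsors whose line bundle is isomorphic to that of `D` -/
def XD (D : Div F) : Set (XG F) := {x | ∃ u : Fˣ, cls x.out = D + dv (u : F)}

lemma mk_mem_XD {D : Div F} {g : G (A F)} :
    RC.mk (KG F) g ∈ XD D ↔ ∃ u : Fˣ, cls g = D + dv (u : F) := by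
  obtain ⟨k, hk, e⟩ := RC.out_mk (K := KG F) g
  rw [XD, Set.mem_ofPred_eq, e, cls_K hk]

lemma mem_XD {D : Div F} {x : XG F} :
    x ∈ XD D ↔ ∃ u : Fˣ, 2 • detN (pN x) + detN (pM x) = D + dv (u : F) := by
  rw [XD, Set.mem_ofPred_eq, cls_out]

lemma act_mem_XD {D : Div F} (γ : G F) {x : XG F} : actG F γ x ∈ XD D ↔ x ∈ XD D := by
  obtain ⟨g, rfl⟩ := x.mk_surj
  rw [actG_mk, mk_mem_XD, mk_mem_XD, cls_act]
  constructor
  · rintro ⟨u, hu⟩
    refine ⟨u * γ.det, ?_⟩
    rw [Units.val_mul, dv_mul u.ne_zero (Units.ne_zero _), ← add_assoc, ← hu]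
    abel
  · rintro ⟨u, hu⟩
    refine ⟨u * γ.det⁻¹, ?_⟩
    rw [Units.val_mul, dv_mul u.ne_zero (Units.ne_zero _), Units.val_inv_eq_inv_val, dv_inv, hu]
    abel

/-- the model is integral for the trivialisations `g` -/
def IntM (g : G (A F)) (f : Model F) : Prop :=
  ∃ f₀ : Model (Oh F), f₀.map (inc F) = g • f.map (toA F)

lemma intM_iff {g : G (A F)} {f : Model F} :
    IntM g f ↔ ∀ i, Model.equivVec (g • f.map (toA F)) i ∈ Oh F := by
  constructor
  · rintro ⟨f₀, h⟩ i
    rw [← h, vec_map]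
    exact (Model.equivVec f₀ i).2
  · intro h
    exact ⟨toM fun i => ⟨_, h i⟩, (Model.equivVec_symm_map _ _).trans
      (Model.equivVec.symm_apply_apply _)⟩

lemma intM_K {k : G (A F)} (hk : k ∈ KG F) (g : G (A F)) (f : Model F) :
    IntM (k * g) f ↔ IntM g f := by
  have key : ∀ {k : G (A F)}, k ∈ KG F → ∀ g, IntM g f → IntM (k * g) f := by
    rintro _ ⟨k₀, rfl⟩ g ⟨f₀, h⟩
    exact ⟨k₀ • f₀, by rw [G.map_smul, h, mul_smul]⟩
  refine ⟨fun h => ?_, key hk g⟩
  simpa using key ((KG F).inv_mem hk) _ h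

lemma act_smul_map (γ : G F) (g : G (A F)) (f : Model F) :
    (g * (gA F γ)⁻¹) • (γ • f).map (toA F) = g • f.map (toA F) := by
  rw [G.map_smul, ← mul_smul, inv_mul_cancel_right]

lemma intM_act (γ : G F) (g : G (A F)) (f : Model F) :
    IntM (g * (gA F γ)⁻¹) (γ • f) ↔ IntM g f := by
  rw [IntM, IntM, act_smul_map]

/-- the local model -/
noncomputable def locM (v : Place F) (g : G (A F)) (f : Model F) : Model v.loc.O :=
  toM fun i => cO v (Model.equivVec (g • f.map (toA F)) i)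

lemma locM_eq {g : G (A F)} {f : Model F} {f₀ : Model (Oh F)}
    (h : f₀.map (inc F) = g • f.map (toA F)) (v : Place F) : locM v g f = f₀.map (prO v) := by
  rw [locM, ← h]
  apply Model.equivVec.injective
  funext i
  rw [Equiv.apply_symm_apply, vec_map, vec_map]
  exact cO_coe v _

lemma locM_act (v : Place F) (γ : G F) (g : G (A F)) (f : Model F) :
    locM v (g * (gA F γ)⁻¹) (γ • f) = locM v g f := by
  rw [locM, locM, act_smul_map]

lemma locM_K {k g : G (A F)} (hk : k ∈ KG F) {f : Model F} (hf : IntM g f) (v : Place F) :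
    ∃ h : G v.loc.O, locM v (k * g) f = h • locM v g f := by
  obtain ⟨k₀, rfl⟩ := hk
  obtain ⟨f₀, h⟩ := hf
  refine ⟨G.map (prO v) k₀, ?_⟩
  rw [locM_eq h, ← G.map_smul]
  exact locM_eq (by rw [G.map_smul, h, mul_smul]) v

lemma locM_map {g : G (A F)} {f : Model F} (hf : IntM g f) (v : Place F) :
    (locM v g f).map v.loc.incl = G.map (pr v) g • f.map (algebraMap F v.Compl) := by
  obtain ⟨f₀, h⟩ := hf
  rw [locM_eq h, Model.map_map, incl_comp_prO, ← Model.map_map, h, G.map_smul, Model.map_map,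
    pr_comp_toA]

lemma glob0_Delta {g : G (A F)} {f : Model F} (hf : IntM g f) (v : Place F) :
    ((locM v g f).jac.Δ : v.Compl) =
      pr v (g.det : (A F)ˣ) ^ 12 * algebraMap F v.Compl f.jac.Δ := by
  have h := congrArg (fun f => f.jac.Δ) (locM_map hf v)
  simp only [Model.jac_map, map_Δ, G.jac_smul, variableChange_Δ, G.Gam_u, G.map_det, inv_inv] at h
  exact h

lemma locM_Delta {g : G (A F)} {f : Model F} (hf : IntM g f) (hΔ : f.jac.Δ ≠ 0) (v : Place F) :
    (locM v g f).jac.Δ ≠ 0 := by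
  intro h0
  have h := glob0_Delta hf v
  rw [h0, ZeroMemClass.coe_zero, eq_comm, mul_eq_zero] at h
  rcases h with h | h
  · exact pow_ne_zero _ ((Units.isUnit _).map (pr v)).ne_zero h
  · exact hΔ ((map_eq_zero _).1 h)

lemma v_locM_Delta {g : G (A F)} {f : Model F} (hf : IntM g f) (v : Place F) :
    v.vc ((locM v g f).jac.Δ : v.Compl) = exp (-(12 * cls g v)) * v.1 f.jac.Δ := by
  rw [glob0_Delta hf v, map_mul, map_pow, vc_unit, Place.vc_algebraMap, ← WithZero.exp_nsmul, cls]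
  congr 2
  simp only [nsmul_eq_mul]
  push_cast
  ring

end SelAvg.FF.T5
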