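import Pool.Agent.H34P.Glob0

/-! Integral objects for degree five models. -/

namespace SelAvg.FF.T5

open WeierstrassCurve WithZero Filter Topology Matrix
open scoped Classical ENNReal

variable {F : Type} [Field F] [Cv F]

/-- the object is integral for `g` and lies over an equation that is integral for `D` -/
def IntO (D : Div F) (z : Obj F) (g : G (A F)) : Prop :=
  IntM g z.f ∧ IntC (g.Gam (z.f.map (toA F)) * z.γ.map (toA F) * (cW D)⁻¹)

lemma intO_iff {D : Div F} {z : Obj F} {g : G (A F)} : IntO D z g ↔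
    ∃ z₀ : Obj (Oh F), z₀.map (inc F) = (g • z.map (toA F)).rmul (cW D)⁻¹ := by
  constructor
  · rintro ⟨⟨f₀, hf⟩, C₀, hC⟩
    refine ⟨⟨f₀, C₀⟩, Obj.ext ?_ ?_⟩
    · rw [Obj.map_f, Obj.rmul_f, Obj.smul_f, Obj.map_f]
      exact hf
    · rw [Obj.map_γ, Obj.rmul_γ, Obj.smul_γ, Obj.map_f, Obj.map_γ]
      exact hC
  · rintro ⟨z₀, h⟩
    have h1 := congrArg Obj.f h
    have h2 := congrArg Obj.γ h
    rw [Obj.map_f, Obj.rmul_f, Obj.smul_f, Obj.map_f] at h1
    rw [Obj.map_γ, Obj.rmul_γ, Obj.smul_γ, Obj.map_f, Obj.map_γ] at h2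
    exact ⟨⟨z₀.f, h1⟩, z₀.γ, h2⟩

lemma intO_K {k : G (A F)} (hk : k ∈ KG F) (D : Div F) (z : Obj F) (g : G (A F)) :
    IntO D z (k * g) ↔ IntO D z g := by
  obtain ⟨k₀, rfl⟩ := hk
  rw [intO_iff, intO_iff, mul_smul, ← Obj.smul_rmul]
  constructor
  · rintro ⟨z₀, h⟩
    exact ⟨k₀⁻¹ • z₀, by rw [Obj.map_smul, h, map_inv, inv_smul_smul]⟩
  · rintro ⟨z₀, h⟩
    exact ⟨k₀ • z₀, by rw [Obj.map_smul, h]⟩

lemma intO_act (γ : G F) (D : Div F) (z : Obj F) (g : G (A F)) :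
    IntO D (γ • z) (g * (gA F γ)⁻¹) ↔ IntO D z g := by
  rw [intO_iff, intO_iff, Obj.map_smul, mul_smul, inv_smul_smul]

lemma IntO.cls_eq {D : Div F} {z : Obj F} {g : G (A F)} (h : IntO D z g) :
    cls g = D + dv ((z.γ.u : Fˣ) : F) := by
  have h1 := (intC_iff.1 h.2).1
  have h2 : (g.Gam (z.f.map (toA F)) * z.γ.map (toA F) * (cW D)⁻¹).u =
      (g.Gam (z.f.map (toA F))).u * uA z.γ.u * (piD (-D))⁻¹ := rfl
  rw [h2, idiv_mul, idiv_mul, idiv_Gam, idiv_inv, idiv_piD, idiv_uA] at h1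
  rw [← sub_eq_zero, ← neg_eq_zero, ← h1]
  abel

lemma glob1_over {D : Div F} {z : Obj F} {g : G (A F)} {z₀ : Obj (Oh F)}
    (h : z₀.map (inc F) = (g • z.map (toA F)).rmul (cW D)⁻¹) {W : WeierstrassCurve F}
    (hz : z.Over W) : (z₀.γ⁻¹ • z₀.f.jac).map (inc F) = cW D • W.map (toA F) := by
  have h1 : (z₀.map (inc F)).Over (cW D • W.map (toA F)) := by
    rw [h]
    refine Obj.Over.rmul ?_
    rw [inv_smul_smul]
    exact (hz.map _).smul g
  unfold Obj.Over at h1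
  rw [Obj.map_f, Obj.map_γ, Model.jac_map] at h1
  rw [← map_variableChange, h1, glob1_map_inv, inv_smul_smul]

lemma IntO.mem_WB {D : Div F} {z : Obj F} {g : G (A F)} (h : IntO D z g) {W : WeierstrassCurve F}
    (hz : z.Over W) : W ∈ WB D := by
  obtain ⟨z₀, h₀⟩ := intO_iff.1 h
  exact mem_WB_iff_int.2 ⟨_, glob1_over h₀ hz⟩

lemma IntO.jac_loc {D : Div F} {z : Obj F} {g : G (A F)} (h : IntO D z g) {W : WeierstrassCurve F}
    (hz : z.Over W) (v : Place F) :
    ∃ C : VariableChange v.loc.O, (locM v g z.f).jac = C • locW v D W := by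
  obtain ⟨z₀, h₀⟩ := intO_iff.1 h
  refine ⟨z₀.γ.map (prO v), ?_⟩
  rw [locW_eq (glob1_over h₀ hz), locM_eq (f₀ := z₀.f) (congrArg Obj.f h₀), Model.jac_map,
    map_variableChange, smul_inv_smul]

/-- the object over the completion, lying over the local equation -/
noncomputable def objAt (v : Place F) (D : Div F) (z : Obj F) : Obj v.Compl :=
  (z.map (algebraMap F v.Compl)).rmul ((cW D).map (pr v))⁻¹

lemma objAt_over {D : Div F} {z : Obj F} {W : WeierstrassCurve F} (hW : W ∈ WB D) (hz : z.Over W)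
    (v : Place F) : (objAt v D z).Over ((locW v D W).map v.loc.incl) := by
  rw [locW_map hW]
  refine Obj.Over.rmul ?_
  rw [inv_smul_smul]
  exact hz.map _

lemma glob1_map_pr (v : Place F) (D : Div F) (z : Obj F) (g : G (A F)) :
    ((g • z.map (toA F)).rmul (cW D)⁻¹).map (pr v) = G.map (pr v) g • objAt v D z := by
  rw [Obj.map_rmul, Obj.map_smul, Obj.map_map, pr_comp_toA, glob1_map_inv, objAt, Obj.smul_rmul]

lemma glob1_loc {D : Div F} {z : Obj F} {g : G (A F)} {z₀ : Obj (Oh F)}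
    (h : z₀.map (inc F) = (g • z.map (toA F)).rmul (cW D)⁻¹) (v : Place F) :
    G.map (pr v) g • objAt v D z = (z₀.map (prO v)).map v.loc.incl := by
  rw [← glob1_map_pr, ← h, Obj.map_map, Obj.map_map, incl_comp_prO]

omit [Cv F] in
lemma glob1_glue (y : Obj (A F))
    (h : ∀ v : Place F, ∃ z₀ : Obj v.loc.O, y.map (pr v) = z₀.map v.loc.incl) :
    ∃ z₀ : Obj (Oh F), z₀.map (inc F) = y := by
  choose z₀ h₀ using h
  have hle : ∀ (v : Place F) {a : A F} {b : v.loc.O}, pr v a = v.loc.incl b →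
      v.vc (pr v a) ≤ 1 := fun v a b hab => by rw [hab]; exact b.2
  have hf : ∀ i, Model.equivVec y.f i ∈ Oh F := fun i v => by
    have h1 := congrArg (fun y => Model.equivVec y.f i) (h₀ v)
    simp only [Obj.map_f, vec_map] at h1
    exact hle v h1
  have hC : IntC y.γ := by
    refine intC_iff.2 ⟨?_, fun v => ?_, fun v => ?_, fun v => ?_⟩
    · ext v
      have h1 : pr v y.γ.u = v.loc.incl (z₀ v).γ.u :=
        congrArg (fun y => (y.γ.u : v.Compl)) (h₀ v)
      have h2 : v.vc (v.loc.incl ((z₀ v).γ.u : v.loc.O)) = 1 :=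
        (v.loc.isUnit_iff _).1 (z₀ v).γ.u.isUnit
      rw [idiv_apply, h1, h2]
      simp
    · exact hle v (congrArg (fun y => y.γ.r) (h₀ v))
    · exact hle v (congrArg (fun y => y.γ.s) (h₀ v))
    · exact hle v (congrArg (fun y => y.γ.t) (h₀ v))
  obtain ⟨C₀, hC₀⟩ := hC
  exact ⟨⟨Model.equivVec.symm fun i => ⟨_, hf i⟩, C₀⟩, Obj.ext
    ((Model.equivVec_symm_map _ _).trans (Model.equivVec.symm_apply_apply _)) hC₀⟩

/-- integrality can be tested place by place -/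
lemma intO_iff_forall {D : Div F} {z : Obj F} {g : G (A F)} : IntO D z g ↔
    ∀ v : Place F, ∃ z₀ : Obj v.loc.O, G.map (pr v) g • objAt v D z = z₀.map v.loc.incl := by
  constructor
  · intro h v
    obtain ⟨z₀, h₀⟩ := intO_iff.1 h
    exact ⟨z₀.map (prO v), glob1_loc h₀ v⟩
  · intro h
    simp only [← glob1_map_pr] at h
    exact intO_iff.2 (glob1_glue _ h)

/-- an object is integral at almost all places -/
lemma eventually_objAt_int (D : Div F) (z : Obj F) :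
    ∀ᶠ v : Place F in cofinite, ∃ z₀ : Obj v.loc.O, objAt v D z = z₀.map v.loc.incl := by
  have h0 : ∀ v : Place F, objAt v D z = ((z.map (toA F)).rmul (cW D)⁻¹).map (pr v) := fun v => by
    rw [Obj.map_rmul, Obj.map_map, pr_comp_toA, glob1_map_inv, objAt]
  simp only [h0]
  generalize (z.map (toA F)).rmul (cW D)⁻¹ = y
  have h : ∀ a : A F, ∀ᶠ v : Place F in cofinite, v.vc (pr v a) ≤ 1 := fun a => mem_Ad.1 a.2
  filter_upwards [eventually_all.2 fun i => h (Model.equivVec y.f i), h y.γ.u,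
    h (y.γ.u⁻¹ : (A F)ˣ), h y.γ.r, h y.γ.s, h y.γ.t] with v h1 hu hu' hr hs ht
  refine ⟨⟨Model.equivVec.symm fun i => ⟨_, h1 i⟩,
    ⟨⟨⟨_, hu⟩, ⟨_, hu'⟩, Subtype.ext ?_, Subtype.ext ?_⟩, ⟨_, hr⟩, ⟨_, hs⟩, ⟨_, ht⟩⟩⟩,
    Obj.ext ?_ rfl⟩
  · change pr v _ * pr v _ = 1
    rw [← map_mul, Units.mul_inv, map_one]
  · change pr v _ * pr v _ = 1
    rw [← map_mul, Units.inv_mul, map_one]
  · rw [Obj.map_f, Obj.map_f, Model.equivVec_symm_map, Equiv.eq_symm_apply]
    funext i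
    exact vec_map _ _ i

end SelAvg.FF.T5
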