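import Pool.Agent.H34P.ModA
import Pool.Agent.H34P.WtN
import Pool.Agent.H34P.Cusp5B

/-! Triangular pairs of adelic matrices: the boxes of quintic models and the bound in the cusp. -/

namespace SelAvg.FF.T5

open WeierstrassCurve WithZero Filter Topology Matrix
open scoped Classical ENNReal

lemma act_apply {R : Type*} [CommRing R] (A B : Matrix (Fin 5) (Fin 5) R) (f : Model R)
    (k i j : Fin 5) : (f.act A B).c k i j =
      ∑ p : Fin 5 × Fin 5 × Fin 5, B k p.1 * A i p.2.1 * A j p.2.2 * f.c p.1 p.2.1 p.2.2 := by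
  simp only [Model.act_c, mul_apply, Model.ev_apply, transpose_apply, Finset.sum_mul,
    Finset.mul_sum, Fintype.sum_prod_type]
  rw [Finset.sum_comm, Finset.sum_congr rfl fun _ _ => Finset.sum_comm, Finset.sum_comm]
  exact Finset.sum_congr rfl fun _ _ => Finset.sum_congr rfl fun _ _ =>
    Finset.sum_congr rfl fun _ _ => by ring

/-- a coefficient of a triangular transform depends only on the coefficients below it -/
lemma gt_dep {R : Type*} [CommRing R] {A B : Matrix (Fin 5) (Fin 5) R}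
    (hA : ∀ i j, i < j → A i j = 0) (hB : ∀ i j, i < j → B i j = 0) {f f' : Model R}
    {k i j : Fin 5} (hij : i < j) (h : ∀ k' ≤ k, ∀ i' ≤ i, ∀ j' ≤ j, i' < j' →
      (k', i', j') ≠ (k, i, j) → f.c k' i' j' = f'.c k' i' j') :
    (f.act A B).c k i j - B k k * A i i * A j j * f.c k i j =
      (f'.act A B).c k i j - B k k * A i i * A j j * f'.c k i j := by
  rw [act_apply, act_apply, sub_eq_sub_iff_sub_eq_sub, ← Finset.sum_sub_distrib,
    Finset.sum_eq_single (k, i, j) _ (by simp)]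
  rintro ⟨k', i', j'⟩ - hne
  rw [← mul_sub]
  rcases lt_or_ge k k' with h1 | h1
  · simp [hB _ _ h1]
  rcases lt_or_ge i i' with h2 | h2
  · simp [hA _ _ h2]
  rcases lt_or_ge j j' with h3 | h3
  · simp [hA _ _ h3]
  refine mul_eq_zero_of_right _ (sub_eq_zero.2 ?_)
  rcases lt_trichotomy i' j' with h4 | rfl | h4
  · exact h k' h1 i' h2 j' h3 h4 hne
  · exact (f.diag _ _).trans (f'.diag _ _).symm
  · refine (f.alt _ _ _).trans ((congrArg Neg.neg (h k' h1 j' (h4.le.trans h2) i' (h2.trans hij.le)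
      h4 fun e => ?_)).trans (f'.alt _ _ _).symm)
    exact (h2.trans_lt hij).ne (congrArg (fun p => p.2.2) e)

lemma pI_lt_pJ : ∀ p, pI p < pJ p := by decide

lemma exists_pI : ∀ i j : Fin 5, i < j → ∃ p, pI p = i ∧ pJ p = j := by decide

lemma le_of_pI : ∀ p p', pI p' ≤ pI p → pJ p' ≤ pJ p → p' ≤ p := by decide

lemma sum_ix {M : Type*} [AddCommMonoid M] (g : Fin 5 → Fin 5 → Fin 5 → M) :
    ∑ n : Fin 50, g (ixK n) (pI (ixP n)) (pJ (ixP n)) =
      ∑ k, ∑ i, ∑ j, if i < j then g k i j else 0 := by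
  rw [← (⟨fun p : Fin 5 × Fin 10 => ix p.1 p.2, fun n => (ixK n, ixP n), fun p => by simp,
    ix_ixK⟩ : Fin 5 × Fin 10 ≃ Fin 50).sum_comp, Fintype.sum_prod_type]
  refine Finset.sum_congr rfl fun k _ => ?_
  simp [Fin.sum_univ_succ, pI, pJ, add_assoc]

/-- What is needed of the excluded models (singular, or the trivial class). -/
structure IsBad5 {K : Type} [Field K] (Bad : Model K → Prop) : Prop where
  gl : ∀ (A B : Matrix (Fin 5) (Fin 5) K) (f : Model K), IsUnit A.det → IsUnit B.det →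
    Bad (f.act A B) → Bad f
  tor : ∀ (l m : Fin 5 → ℤ) (f : Model K), ∑ i, l i = 0 → ∑ j, m j = 0 → (l ≠ 0 ∨ m ≠ 0) →
    (∀ k i j, l k + m i + m j < 0 → f.c k i j = 0) → Bad f
  kos : ∀ f : Model K, f.Kos → Bad f

lemma IsBad5.isBad {K : Type} [Field K] {Bad : Model K → Prop} (h : IsBad5 Bad) :
    Cusp5.IsBad fun c : Cusp5.V K => ∃ f : Model K, f.c = c ∧ Bad f := by
  refine ⟨fun g a c hg ha hc ⟨f, e, hf⟩ => ⟨⟨c, hc.1, hc.2⟩, rfl, h.gl a g _ ha hg ?_⟩,
    fun l m c h1 h2 h3 hc h4 => ⟨⟨c, hc.1, hc.2⟩, rfl, h.tor l m _ h1 h2 h3 h4⟩,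
    fun c hc h1 => ⟨⟨c, hc.1, hc.2⟩, rfl, h.kos _ fun k i j e => h1 k i j ?_⟩⟩
  · convert hf
    refine Model.ext (Eq.trans (funext fun k => ?_) e.symm)
    simp only [Model.act_c, Model.ev, Cusp5.act, Finset.mul_sum, Finset.sum_mul, Matrix.mul_smul,
      Matrix.smul_mul]
  · rw [add_assoc, add_comm]
    exact e

variable {F : Type} [Field F]

/-- the divisors of the fifty coefficients -/
noncomputable def DV (DA DB : Fin 5 → Div F) (n : Fin 50) : Div F :=
  DB (ixK n) + DA (pI (ixP n)) + DA (pJ (ixP n))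

lemma triN_upper {n : ℕ} (D : Fin n → Div F) (η : Fin n → Fin n → A F) (i j : Fin n) (h : i < j) :
    (triN D η).1 i j = 0 := by simp [triN_apply, h.not_gt, h.ne']

lemma triN_diag {n : ℕ} (D : Fin n → Div F) (η : Fin n → Fin n → A F) (i : Fin n) :
    (triN D η).1 i i = piD (D i) := by simp [triN_apply]

variable [Cv F]

/-- integrality for a pair of adelic matrices -/
def Int5 (a b : GL (Fin 5) (A F)) (f : Model F) : Prop :=
  ∀ n, Model.equivVec ((f.map (toA F)).act a.1 b.1) n ∈ Oh F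

lemma sum_deg_DV (DA DB : Fin 5 → Div F) :
    ∑ n, deg (DV DA DB n) = 10 * deg (2 • ∑ i, DA i + ∑ i, DB i) := by
  refine (sum_ix fun k i j => deg (DB k + DA i + DA j)).trans ?_
  simp only [Fin.sum_univ_five, map_add, map_nsmul, nsmul_eq_mul, Fin.reduceLT, lt_self_iff_false,
    if_true, if_false, Nat.cast_ofNat]
  ring

lemma gt_zpow (e : Fin 50 → ℤ) : ∏ i, qq F ^ (e i + cc F) = qq F ^ (∑ i, e i + 50 * cc F) := by
  rw [latd_zpow (one_pos.trans one_lt_qq).ne', Finset.sum_add_distrib, Finset.sum_const,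
    Finset.card_univ, Fintype.card_fin, nsmul_eq_mul, Nat.cast_ofNat]

theorem exists_tri_desc (DA DB : Fin 5 → Div F) (η ζ : Fin 5 → Fin 5 → A F) :
    ∃ φ : Fin 50 → (Fin 50 → F) → A F, (∀ n x y, (∀ j, j < n → x j = y j) → φ n x = φ n y) ∧
      ∀ x, Int5 (triN DA η) (triN DB ζ) (Model.equivVec.symm x) ↔
        ∀ n, toA F (x n) + φ n x ∈ AD (DV DA DB n) := by
  refine ⟨fun n x => (((piD (DV DA DB n))⁻¹ : (A F)ˣ) : A F) * Model.equivVec
    (((Model.equivVec.symm x).map (toA F)).act (triN DA η).1 (triN DB ζ).1) n - toA F (x n),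
    fun n x y h => ?_, fun x => forall_congr' fun n => ?_⟩
  · have hx : ∀ (x : Fin 50 → F) k p, ((Model.equivVec.symm x).map (toA F)).c k (pI p) (pJ p) =
        toA F (x (ix k p)) := fun x k p => by
      rw [Model.map_c, ← Model.equivVec_ix, Equiv.apply_symm_apply]
    have h1 := gt_dep (triN_upper DA η) (triN_upper DB ζ) (k := ixK n)
      (f := (Model.equivVec.symm x).map (toA F)) (f' := (Model.equivVec.symm y).map (toA F))
      (pI_lt_pJ (ixP n)) fun k' hk i' hi j' hj hij hne => by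
        obtain ⟨p, rfl, rfl⟩ := exists_pI i' j' hij
        have h2 := le_of_pI _ _ hi hj
        rw [hx, hx, h _ (lt_of_le_of_ne ?_ fun e => hne (by rw [← e, ixK_ix, ixP_ix]))]
        rw [← ix_ixK n]
        change 10 * k'.1 + p.1 ≤ 10 * (ixK n).1 + (ixP n).1
        omega
    rw [hx, hx, ix_ixK, triN_diag, triN_diag, triN_diag, ← Units.val_mul, ← Units.val_mul,
      ← piD_add, ← piD_add, ← DV, ← Model.equivVec_apply, ← Model.equivVec_apply] at h1
    have h2 := (piD (DV DA DB n)).inv_mul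
    linear_combination (((piD (DV DA DB n))⁻¹ : (A F)ˣ) : A F) * h1 +
      (toA F (x n) - toA F (y n)) * h2
  · rw [add_sub_cancel, unit_mul_mem_AD, idiv_inv, idiv_piD, add_neg_cancel, mem_AD_zero]

theorem card_int5_le (DA DB : Fin 5 → Div F) (η ζ : Fin 5 → Fin 5 → A F) (s : Finset (Model F))
    (hs : ∀ f ∈ s, Int5 (triN DA η) (triN DB ζ) f) : s.card ≤ ∏ n, (box (DV DA DB n)).card := by
  obtain ⟨φ, hφ, h⟩ := exists_tri_desc DA DB η ζ
  rw [← Finset.card_map Model.equivVec.toEmbedding]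
  exact card_tri_le (DV DA DB) φ hφ _ fun x hx => (h x).1 (hs _ (Finset.mem_map_equiv.1 hx))

theorem finite_int5 (DA DB : Fin 5 → Div F) (η ζ : Fin 5 → Fin 5 → A F) :
    {f | Int5 (triN DA η) (triN DB ζ) f}.Finite := by
  by_contra h1
  obtain ⟨s, hs, hc⟩ := Set.Infinite.exists_subset_card_eq h1 (∏ n, (box (DV DA DB n)).card + 1)
  have h2 := card_int5_le DA DB η ζ s fun f hf => hs hf
  omega

theorem card_int5 {DA DB : Fin 5 → Div F} (η ζ : Fin 5 → Fin 5 → A F)
    (h : ∀ n, (c0 F : ℤ) ≤ deg (DV DA DB n)) (s : Finset (Model F))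
    (hs : ∀ f, f ∈ s ↔ Int5 (triN DA η) (triN DB ζ) f) :
    (s.card : ℝ) = qq F ^ (10 * deg (2 • ∑ i, DA i + ∑ i, DB i) + 50 * cc F) := by
  obtain ⟨φ, hφ, h'⟩ := exists_tri_desc DA DB η ζ
  rw [← Finset.card_map Model.equivVec.toEmbedding, card_tri (DV DA DB) h φ hφ _ fun x =>
    Finset.mem_map_equiv.trans ((hs _).trans (h' x)), Nat.cast_prod,
    Finset.prod_congr rfl fun i _ => card_box (h i), gt_zpow, sum_deg_DV]

/-- a coefficient vanishes if all coefficients below it have negative degree -/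
theorem int5_zero {DA DB : Fin 5 → Div F} {η ζ : Fin 5 → Fin 5 → A F} {f : Model F}
    (hf : Int5 (triN DA η) (triN DB ζ) f) (N : ℕ) : ∀ k i j : Fin 5, k.1 + i.1 + j.1 = N → i < j →
      (∀ k' ≤ k, ∀ i' ≤ i, ∀ j' ≤ j, i' < j' → deg (DB k') + deg (DA i') + deg (DA j') < 0) →
        f.c k i j = 0 := by
  induction N using Nat.strong_induction_on with
  | _ N ih =>
    intro k i j hN hij h
    have h1 := gt_dep (triN_upper DA η) (triN_upper DB ζ) (k := k) (f := f.map (toA F))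
      (f' := ⟨0, fun _ _ => rfl, fun _ _ _ => neg_zero.symm⟩) hij
      fun k' hk i' hi j' hj hij' hne => by
        rw [Model.map_c, ih _ ?_ k' i' j' rfl hij' fun k₁ hk₁ i₁ hi₁ j₁ hj₁ =>
          h k₁ (hk₁.trans hk) i₁ (hi₁.trans hi) j₁ (hj₁.trans hj), map_zero]
        · rfl
        · simp only [ne_eq, Prod.mk.injEq, Fin.ext_iff] at hne
          omega
    obtain ⟨p, rfl, rfl⟩ := exists_pI i j hij
    have h2 := hf (ix k p)
    rw [act_apply _ _ ⟨0, _, _⟩, triN_diag, triN_diag, triN_diag, ← Units.val_mul, ← Units.val_mul,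
      ← piD_add, ← piD_add] at h1
    simp only [Pi.zero_apply, Matrix.zero_apply, mul_zero, Finset.sum_const_zero, sub_zero,
      sub_eq_zero] at h1
    rw [Model.equivVec_ix, h1, ← mem_AD_zero, unit_mul_mem_AD, idiv_piD, zero_add, Model.map_c,
      toA_mem_AD] at h2
    exact eq_zero_of_deg_neg (by simpa only [map_add] using h k le_rfl _ le_rfl _ le_rfl hij) h2

theorem card_cusp_le {Bad : Model F → Prop} (hB : IsBad5 Bad) : ∃ K : ℝ, 0 < K ∧
    ∀ (DA DB : Fin 5 → Div F) (η ζ : Fin 5 → Fin 5 → A F), RedN F (fun i => deg (DA i)) →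
      RedN F (fun i => deg (DB i)) → ∀ s : Finset (Model F),
        (∀ f ∈ s, Int5 (triN DA η) (triN DB ζ) f ∧ ¬Bad f) → (s.card : ℝ) ≤
          K * (qq F ^ (99 / 100 * (spN F (fun i => deg (DA i)) : ℝ)) *
            qq F ^ (99 / 100 * (spN F (fun i => deg (DB i)) : ℝ))) *
              qq F ^ (10 * deg (2 • ∑ i, DA i + ∑ i, DB i) + 50 * cc F) := by
  obtain ⟨C₀, hC₀, hC⟩ := card_box_le (F := F) 0
  have hq := one_lt_qq (F := F)
  have hq0 : 0 < qq F := one_pos.trans hq
  have hC0 : 0 < C₀ := one_pos.trans_le hC₀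
  have hbox : ∀ D : Div F, ((box D).card : ℝ) ≤ C₀ * qq F ^ (deg D + max 0 (-deg D) + cc F) :=
    fun D => by
    rcases le_or_gt 0 (deg D) with h | h
    · rw [max_eq_left (neg_nonpos.2 h), add_zero]
      exact hC D (by simpa using h)
    · have h1 := hC 0 (by simp)
      rw [map_zero] at h1
      rw [max_eq_right (neg_nonneg.2 h.le), add_neg_cancel]
      refine le_trans (Nat.cast_le.2 (Finset.card_le_card fun x hx => ?_)) h1
      rw [eq_zero_of_deg_neg h (mem_box.1 hx)]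
      exact zero_mem_box _
  refine ⟨C₀ ^ 50 * qq F ^ (340 * rbN F : ℝ), by positivity, fun DA DB η ζ h1 h2 s hs => ?_⟩
  rcases s.eq_empty_or_nonempty with rfl | ⟨f, hf⟩
  · rw [Finset.card_empty, Nat.cast_zero]
    positivity
  have h3 := Cusp5.cusp5_excess hB.isBad (f := f.c) ⟨f.diag, f.alt⟩
    (fun ⟨f', e, h⟩ => (hs f hf).2 (Model.ext e ▸ h)) (a := fun i => deg (DB i))
    (c := fun i => deg (DA i)) (b := rbN F) (fun i => h2 _ _ rfl) (fun i => h1 _ _ rfl)
    fun k i j => int5_zero (hs f hf).1 _ k i j rfl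
  rw [← sum_ix fun k i j => max 0 (-(deg (DB k) + deg (DA i) + deg (DA j)))] at h3
  simp only [← map_add, ← DV.eq_def] at h3
  calc (s.card : ℝ) ≤ ∏ n, ((box (DV DA DB n)).card : ℝ) := by
        exact_mod_cast card_int5_le DA DB η ζ s fun f hf => (hs f hf).1
    _ ≤ ∏ n, C₀ * qq F ^ (deg (DV DA DB n) + max 0 (-deg (DV DA DB n)) + cc F) :=
        Finset.prod_le_prod (fun i _ => Nat.cast_nonneg _) fun i _ => hbox _
    _ ≤ _ := by
        rw [Finset.prod_mul_distrib, gt_zpow, Finset.prod_const, Finset.card_univ,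
          Fintype.card_fin, Finset.sum_add_distrib, sum_deg_DV, add_right_comm, zpow_add₀ hq0.ne',
          mul_comm (qq F ^ _), ← mul_assoc, mul_assoc (C₀ ^ 50) _ (_ * _), ← Real.rpow_add hq0,
          ← Real.rpow_add hq0, ← Real.rpow_intCast _ (∑ _, _)]
        refine mul_le_mul_of_nonneg_right (mul_le_mul_of_nonneg_left
          (Real.rpow_le_rpow_of_exponent_le hq.le ?_) (by positivity)) (zpow_pos hq0 _).le
        have h4 : 100 * ∑ n, max 0 (-deg (DV DA DB n)) ≤ 34000 * rbN F +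
            99 * (spN F (fun i => deg (DA i)) + spN F fun i => deg (DB i)) := by
          have : (0 : ℤ) ≤ rbN F := Nat.cast_nonneg _
          rw [spN_five, spN_five]
          linarith
        have h5 := (Int.cast_le (R := ℝ)).2 h4
        rw [Int.cast_mul, Int.cast_add, Int.cast_mul, Int.cast_mul, Int.cast_add,
          Int.cast_natCast, Int.cast_ofNat, Int.cast_ofNat, Int.cast_ofNat] at h5
        linarith

end SelAvg.FF.T5
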