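import Pool.Agent.H34P.GtA

/-! Models supported on nonnegative weights of a torus are singular. -/

namespace SelAvg.FF.T5

open WeierstrassCurve Matrix Polynomial
open scoped Classical

variable {K : Type} [Field K]

/-- `d₀` is the discriminant over `K` and `d₁` over `K[X]`.  The part of weight zero has the same
discriminant and is fixed by a one-parameter group. -/
theorem tor_core {N : ℕ} {t : Kˣ} (ht : ∀ n : ℤ, t ^ n = 1 → n = 0) (d₀ : Model K → K)
    (d₁ : Model K[X] → K[X]) (hmap : ∀ x f, d₀ (f.map (evalRingHom x)) = (d₁ f).eval x)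
    (hdiag : ∀ (a b : Fin 5 → Kˣ) (f : Model K), ∏ i, a i = 1 → ∏ i, b i = 1 →
      d₀ (f.act (diagonal fun i => (a i : K)) (diagonal fun i => (b i : K))) = d₀ f)
    (haut : ∀ f, d₀ f ≠ 0 → ∀ s : Finset ((Fin 5 → Kˣ) × (Fin 5 → Kˣ)),
      (∀ p ∈ s, ∏ i, p.1 i = 1 ∧ ∏ i, p.2 i = 1 ∧
        f.act (diagonal fun i => (p.1 i : K)) (diagonal fun i => (p.2 i : K)) = f) →
      (∀ p ∈ s, ∀ p' ∈ s, ∀ u : Kˣ, (∀ i, p'.1 i = u * p.1 i) → (∀ i, p'.2 i = u⁻¹ ^ 2 * p.2 i) →
        p = p') → s.card ≤ N)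
    (l m : Fin 5 → ℤ) (f : Model K) (hl : ∑ i, l i = 0) (hm : ∑ j, m j = 0) (hne : l ≠ 0 ∨ m ≠ 0)
    (h : ∀ k i j, l k + m i + m j < 0 → f.c k i j = 0) : d₀ f = 0 := by
  by_contra hd
  have hp : ∀ (x : Kˣ) (m : Fin 5 → ℤ), ∑ j, m j = 0 → ∏ i, x ^ m i = 1 := fun x m hm => by
    simpa only [Fin.prod_univ_five, ← _root_.zpow_add, ← Fin.sum_univ_five, hm] using zpow_zero x
  have hact : ∀ (x : Kˣ) (g : Model K) k i j, (g.act (diagonal fun i => ((x ^ m i : Kˣ) : K))
      (diagonal fun i => ((x ^ l i : Kˣ) : K))).c k i j = (x ^ (l k + m i + m j) : Kˣ) * g.c k i j :=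
    fun x g k i j => by
      rw [Model.act_diagonal, _root_.zpow_add, _root_.zpow_add, Units.val_mul, Units.val_mul]
      ring
  obtain ⟨g, hg⟩ : ∃ g : Model K[X], ∀ k i j,
      g.c k i j = C (f.c k i j) * X ^ (l k + m i + m j).toNat :=
    ⟨⟨fun k => of fun i j => C (f.c k i j) * X ^ (l k + m i + m j).toNat, fun k i => by
      simp [f.diag], fun k i j => by
        rw [of_apply, of_apply, f.alt k i j, add_right_comm, map_neg, neg_mul]⟩, fun _ _ _ => rfl⟩
  have h1 : ∀ x : Kˣ, (d₁ g - C (d₀ f)).eval (x : K) = 0 := fun x => by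
    rw [eval_sub, eval_C, ← hmap, sub_eq_zero, ← hdiag _ _ f (hp x m hm) (hp x l hl)]
    congr 1
    ext k i j
    rw [hact, Model.map_c, hg, coe_evalRingHom, eval_mul, eval_C, eval_pow, eval_X]
    rcases lt_or_ge (l k + m i + m j) 0 with e | e
    · rw [h k i j e, zero_mul, mul_zero]
    · rw [mul_comm, ← Units.val_pow_eq_pow_val, ← zpow_natCast, Int.toNat_of_nonneg e]
  have hinj : Function.Injective fun n : ℤ => ((t ^ n : Kˣ) : K) := fun n n' e =>
    sub_eq_zero.1 (ht _ (by rw [_root_.zpow_sub, Units.ext e, mul_inv_cancel]))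
  have h2 : d₁ g - C (d₀ f) = 0 := eq_zero_of_infinite_isRoot _
    (Set.infinite_of_injective_forall_mem hinj fun n => h1 _)
  have h3 : d₀ (g.map (evalRingHom 0)) = d₀ f := by rw [hmap, sub_eq_zero.1 h2, eval_C]
  have h4 : (Function.Injective fun n : ℕ =>
      (((fun i => (t ^ n) ^ m i), fun i => (t ^ n) ^ l i) : (Fin 5 → Kˣ) × (Fin 5 → Kˣ))) ∧
      ∀ (n n' : ℕ) (u : Kˣ), (∀ i, (t ^ n') ^ m i = u * (t ^ n) ^ m i) →
        (∀ i, (t ^ n') ^ l i = u⁻¹ ^ 2 * (t ^ n) ^ l i) → n = n' := by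
    have key : ∀ (n n' : ℕ) (u : Kˣ), (∀ i, (t ^ n') ^ m i = u * (t ^ n) ^ m i) →
        (∀ i, (t ^ n') ^ l i = u⁻¹ ^ 2 * (t ^ n) ^ l i) → n = n' := fun n n' u e1 e2 => by
      have hu : u ^ 5 = 1 := by
        have := hp (t ^ n') m hm
        rwa [Finset.prod_congr rfl fun i _ => e1 i, Finset.prod_mul_distrib, hp _ m hm, mul_one,
          Finset.prod_const, Finset.card_univ, Fintype.card_fin] at this
      have h5 : ∀ (r : ℤ) (v : Kˣ), v ^ 5 = 1 → (t ^ n') ^ r = v * (t ^ n) ^ r → r ≠ 0 → n = n' :=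
        fun r v hv e hr => by
          have e3 : t ^ ((n' * r - n * r) * (5 : ℕ) : ℤ) = 1 := by
            rw [_root_.zpow_mul, _root_.zpow_sub, _root_.zpow_mul, _root_.zpow_mul, zpow_natCast,
              zpow_natCast, zpow_natCast, e, mul_inv_cancel_right, hv]
          have e4 := ht _ e3
          rw [← sub_mul, mul_eq_zero, mul_eq_zero] at e4
          omega
      rcases hne with hne | hne <;> obtain ⟨i, hi⟩ := Function.ne_iff.1 hne
      · exact h5 _ _ (by rw [← pow_mul, mul_comm, pow_mul, inv_pow, hu, inv_one, one_pow]) (e2 i) hi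
      · exact h5 _ _ hu (e1 i) hi
    exact ⟨fun n n' e => key n n' 1 (fun i => by rw [one_mul]; exact (congrFun (congrArg Prod.fst e) i).symm)
      fun i => by rw [inv_one, one_pow, one_mul]; exact (congrFun (congrArg Prod.snd e) i).symm, key⟩
  have h5 := haut _ (h3 ▸ hd) ((Finset.range (N + 1)).image fun n : ℕ =>
    ((fun i => (t ^ n) ^ m i), fun i => (t ^ n) ^ l i)) (fun p hp' => by
      obtain ⟨n, -, rfl⟩ := Finset.mem_image.1 hp'
      refine ⟨hp _ m hm, hp _ l hl, ?_⟩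
      ext k i j
      rw [hact, Model.map_c, hg, coe_evalRingHom, eval_mul, eval_C, eval_pow, eval_X]
      rcases lt_trichotomy (l k + m i + m j) 0 with e | e | e
      · rw [h k i j e, zero_mul, mul_zero]
      · rw [e, zpow_zero, Units.val_one, one_mul]
      · rw [zero_pow (by omega), mul_zero, mul_zero]) fun p hp' p' hp'' u e1 e2 => by
      obtain ⟨n, -, rfl⟩ := Finset.mem_image.1 hp'
      obtain ⟨n', -, rfl⟩ := Finset.mem_image.1 hp''
      rw [h4.2 n n' u e1 e2]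
  rw [Finset.card_image_of_injective _ h4.1, Finset.card_range] at h5
  omega

lemma exists_inf_order {F : Type} [Field F] [Cv F] : ∃ t : Fˣ, ∀ n : ℤ, t ^ n = 1 → n = 0 := by
  obtain ⟨x, hx⟩ := (Cv.P : Place F).2 (WithZero.exp 1)
  have h0 : x ≠ 0 := fun h => WithZero.exp_ne_zero (by rw [← hx, h, map_zero])
  refine ⟨Units.mk0 x h0, fun n hn => ?_⟩
  have h1 := congrArg (fun u : Fˣ => (Cv.P : Place F).1 (u : F)) hn
  simp only [Units.val_zpow_eq_zpow_val, Units.val_mk0, map_zpow₀, hx, Units.val_one,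
    map_one, ← WithZero.exp_zsmul, smul_eq_mul, mul_one] at h1
  simpa using h1

end SelAvg.FF.T5
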