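import Pool.Agent.H34P.GtC
import Pool.Agent.H34P.Mod
import Pool.Agent.H81Sel.Vcp

/-! The models that are singular or trivial satisfy the hypotheses of the cusp bound. -/

namespace SelAvg.FF.T5

open WeierstrassCurve WithZero Filter Topology Matrix
open scoped Classical ENNReal

variable {F : Type} [Field F]

variable (F) in
/-- an object has at most `25` automorphisms modulo scalars -/
def AutLe : Prop := ∀ (W : WeierstrassCurve F) (z : Obj F), W.Δ ≠ 0 → z.Over W →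
  ∀ s : Finset (G F), (∀ g ∈ s, g • z = z) →
    (∀ g ∈ s, ∀ g' ∈ s, ∀ t : Fˣ, g' = G.scalar t * g → g = g') → s.card ≤ 25

lemma AutLe.fix (h : AutLe F) {f : Model F} (hf : f.jac.Δ ≠ 0) (s : Finset (G F))
    (hs : ∀ g ∈ s, g • f = f)
    (hs' : ∀ g ∈ s, ∀ g' ∈ s, ∀ t : Fˣ, g' = G.scalar t * g → g = g') : s.card ≤ 25 * 192 := by
  refine (Finset.card_le_mul_card_image (f := fun g => g.Gam f) s 25 fun C hC => ?_).trans
    (Nat.mul_le_mul_left _ (vcp_card_le hf _ fun C hC => ?_))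
  · obtain ⟨g₀, h0, rfl⟩ := Finset.mem_image.1 hC
    rw [← Finset.card_image_of_injective _ (mul_right_injective g₀⁻¹)]
    refine h f.jac ⟨f, 1⟩ hf (one_smul _ _).symm _ (fun g hg => ?_) fun g hg g' hg' t ht => ?_
    · obtain ⟨a, ha, rfl⟩ := Finset.mem_image.1 hg
      rw [mul_smul, inv_smul_eq_iff]
      exact Obj.ext ((hs a (Finset.mem_filter.1 ha).1).trans (hs g₀ h0).symm)
        (congrArg (· * 1) (Finset.mem_filter.1 ha).2)
    · obtain ⟨a, ha, rfl⟩ := Finset.mem_image.1 hg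
      obtain ⟨b, hb, rfl⟩ := Finset.mem_image.1 hg'
      rw [← mul_assoc, G.scalar_comm, mul_assoc, mul_right_inj] at ht
      rw [hs' a (Finset.mem_filter.1 ha).1 b (Finset.mem_filter.1 hb).1 t ht]
  · obtain ⟨g, hg, rfl⟩ := Finset.mem_image.1 hC
    rw [← G.jac_smul, hs g hg]

/-- a diagonal matrix with unit entries -/
def dgGL (a : Fin 5 → Fˣ) : GL (Fin 5) F :=
  ⟨diagonal fun i => (a i : F), diagonal fun i => (((a i)⁻¹ : Fˣ) : F), by simp, by simp⟩

lemma dgGL_eq {a a' : Fin 5 → Fˣ} {u : Fˣ} (h : dgGL a' = G.scM u * dgGL a) (i : Fin 5) :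
    a' i = u * a i := by
  have := congrArg (fun g : GL (Fin 5) F => g.1 i i) h
  ext1
  simpa [dgGL, G.scM_val] using this

theorem isBad5 [Cv F] (h : AutLe F) : IsBad5 fun f : Model F => f.jac.Δ = 0 ∨ f.Triv := by
  obtain ⟨t, ht⟩ := exists_inf_order (F := F)
  refine ⟨fun A B f hA hB hf => hf.imp (fun e => ?_) fun hg => ?_,
    fun l m f hl hm hne hf => Or.inl ?_, fun f hf => Or.inr ⟨1, by rwa [one_smul]⟩⟩
  · rw [Model.Δ_act] at e
    exact (mul_eq_zero.1 e).resolve_left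
      (pow_ne_zero _ (mul_ne_zero (pow_ne_zero _ hA.ne_zero) hB.ne_zero))
  · obtain ⟨a, rfl⟩ := (isUnit_iff_isUnit_det A).2 hA
    obtain ⟨b, rfl⟩ := (isUnit_iff_isUnit_det B).2 hB
    exact hg.elim fun g hg => ⟨g * ⟨a, b⟩, by rwa [mul_smul]⟩
  · refine tor_core (N := 25 * 192) ht (fun f => f.jac.Δ) (fun f => f.jac.Δ)
      (fun x f => by rw [Model.jac_map, map_Δ, Polynomial.coe_evalRingHom]) (fun a b f ha hb => ?_)
      (fun f hd s hs hs' => ?_) l m f hl hm hne hf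
    · rw [Model.Δ_act, chi, det_diagonal, det_diagonal, ← Units.coe_prod, ← Units.coe_prod, ha, hb]
      simp
    · have key : ∀ p ∈ s, ∀ p' ∈ s, ∀ u : Fˣ, (⟨dgGL p'.1, dgGL p'.2⟩ : G F) =
          G.scalar u * ⟨dgGL p.1, dgGL p.2⟩ → p = p' := fun p hp p' hp' u e =>
        hs' p hp p' hp' u (dgGL_eq (congrArg G.A e)) (dgGL_eq (congrArg G.M e))
      rw [← Finset.card_image_of_injOn (f := fun p => (⟨dgGL p.1, dgGL p.2⟩ : G F))
        fun p hp p' hp' e => key p hp p' hp' 1 (by rw [G.scalar_one, one_mul]; exact e.symm)]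
      refine h.fix hd _ (fun g hg => ?_) fun g hg g' hg' u e => ?_
      · obtain ⟨p, hp, rfl⟩ := Finset.mem_image.1 hg
        exact (hs p hp).2.2
      · obtain ⟨p, hp, rfl⟩ := Finset.mem_image.1 hg
        obtain ⟨p', hp', rfl⟩ := Finset.mem_image.1 hg'
        rw [key p hp p' hp' u e]

/-- the cusp bound, for any finite set of integral models -/
theorem cusp_of_aut [Cv F] (h : AutLe F) : ∃ K : ℝ, 0 < K ∧
    ∀ (g : G (A F)) (s : Finset (Model F)), (∀ f ∈ s, Int5 g.A g.M f) →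
      ((s.filter fun f => f.jac.Δ ≠ 0 ∧ ¬f.Triv).card : ℝ) ≤
        K * (wtN (RC.mk (KN F 5) g.A) * wtN (RC.mk (KN F 5) g.M)) *
          qq F ^ (10 * deg (idiv g.det) + 50 * cc F) := by
  obtain ⟨K, hK, hC⟩ := cusp5 (isBad5 h)
  refine ⟨K, hK, fun g s hs => ?_⟩
  have h1 := hC g.A g.M (s.filter fun f => f.jac.Δ ≠ 0 ∧ ¬f.Triv) fun f hf =>
    ⟨hs f (Finset.mem_filter.1 hf).1, not_or.2 (Finset.mem_filter.1 hf).2⟩
  rwa [two_nsmul, ← idiv_mul, ← idiv_mul, ← sq] at h1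

end SelAvg.FF.T5
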