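import Pool.Agent.H34P.TwoC

/-! The Weierstrass equations attached to two standard positions of one model. -/

namespace SelAvg.FF.T5

open WeierstrassCurve Matrix

/-- `W'` is obtained from `W` by scaling with `u` and a shift -/
def WRel {R : Type*} [CommRing R] (u : R) (W W' : WeierstrassCurve R) : Prop :=
  ∃ r s t : R, W' = wsh r s t • wsc u W

lemma WRel.trans {R : Type*} [CommRing R] {u u' : R} {W W' W'' : WeierstrassCurve R}
    (h : WRel u W W') (h' : WRel u' W' W'') : WRel (u' * u) W W'' := by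
  obtain ⟨r, s, t, rfl⟩ := h
  obtain ⟨r', s', t', rfl⟩ := h'
  rw [T3.wsc_wsh, T3.wsc_wsc, ← mul_smul, wsh_mul]
  exact ⟨_, _, _, rfl⟩

lemma wrel_swap {R : Type*} [CommRing R] (p : NP R) : WRel 1 p.nf.WS p.swap.nf.WS := by
  refine ⟨(p.swap.kap * p.sig * p.kap⁻¹).r, (p.swap.kap * p.sig * p.kap⁻¹).s,
    (p.swap.kap * p.sig * p.kap⁻¹).t, ?_⟩
  rw [T3.wsc_one, p.WS_swap]
  congr 1
  ext1 <;> simp [wsh, VariableChange.mul_def, VariableChange.inv_def, NP.kap_u, NP.sig_u]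

variable {L : Type*} [Field L]

lemma rk2_of_act {f : Model L} {A B : Matrix (Fin 5) (Fin 5) L} (hA : A.det ≠ 0)
    (h : (f.act A B).Std) : Rk2 (f.ev (B 0)) := by
  have hu : IsUnit A.det := hA.isUnit
  have h1 : A⁻¹ * (A * f.ev (B 0) * Aᵀ) * A⁻¹ᵀ = f.ev (B 0) := by
    rw [← Matrix.mul_assoc, ← Matrix.mul_assoc, nonsing_inv_mul _ hu, Matrix.one_mul,
      Matrix.mul_assoc, ← transpose_mul, nonsing_inv_mul _ hu, transpose_one, Matrix.mul_one]
  rw [← h1]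
  exact (two_rk2_c0 h).conj _

theorem two_point {s : Model L} (hs : s.Std) {A B : Matrix (Fin 5) (Fin 5) L} (hA : A.det ≠ 0)
    (hB : B.det ≠ 0) (hs' : (s.act A B).Std) (hD : s.WS.Δ ≠ 0) :
    ∃ r s' t : L, (s.act A B).WS = wsh r s' t • wsc (chi A B) s.WS := by
  have hQ := rk2_of_act hA hs'
  by_cases ht : Pt.tail (B 0) = 0
  · exact WS_act (par_of_std hs hD hA hB hs' (two_tail hs (two_cub_ne hD) hQ ht) (congrFun ht 0)
      (congrFun ht 1) (congrFun ht 2)) hs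
  obtain ⟨p, hst⟩ := two_exists_nf hs hD hQ ht
  have hD1 := hst.disc hs hD
  obtain ⟨A1, B1, hP, hA1, hB1, hp, hrow⟩ := hst
  have r1 : WRel (chi A1 B1) s.WS p.nf.WS := hp ▸ WS_act hP hs
  have r2 := wrel_swap p
  have hD2 : p.swap.nf.WS.Δ ≠ 0 := by
    obtain ⟨r, s', t, e⟩ := r2
    rw [e, para_disc]; simpa using hD1
  have hA2 : (swA * A1).det ≠ 0 := by
    rw [det_mul]
    exact mul_ne_zero (fun h => by simpa [h] using det_swA_sq (R := L)) hA1
  have hB2 : (swB * B1).det ≠ 0 := by rw [det_mul, det_swB, one_mul]; exact hB1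
  have e1 : p.swap.nf = s.act (swA * A1) (swB * B1) := by
    rw [← Model.act_act, ← hp, NP.act_sw]
  have eA : A * (swA * A1)⁻¹ * (swA * A1) = A := nonsing_inv_mul_cancel_right _ _ hA2.isUnit
  have eB : B * (swB * B1)⁻¹ * (swB * B1) = B := nonsing_inv_mul_cancel_right _ _ hB2.isUnit
  have e2 : p.swap.nf.act (A * (swA * A1)⁻¹) (B * (swB * B1)⁻¹) = s.act A B := by
    rw [e1, Model.act_act, eA, eB]
  have hA3 : (A * (swA * A1)⁻¹).det ≠ 0 := left_ne_zero_of_mul (by rw [← det_mul, eA]; exact hA)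
  have hB3 : (B * (swB * B1)⁻¹).det ≠ 0 := left_ne_zero_of_mul (by rw [← det_mul, eB]; exact hB)
  have hrow0 : (B * (swB * B1)⁻¹ : Matrix (Fin 5) (Fin 5) L) 0 = Pi.single 0 1 := by
    have e : (Pi.single 0 1 : Pt L) ᵥ* (swB * B1) = B 0 := by
      rw [← vecMul_vecMul, vecMul_swB, ← hrow]
      congr 1
      funext j; fin_cases j <;> simp
    rw [two_mul_row, ← e, vecMul_vecMul, mul_nonsing_inv _ hB2.isUnit, vecMul_one]
  have hP3 : Par (A * (swA * A1)⁻¹) (B * (swB * B1)⁻¹) :=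
    par_of_std p.swap.nf_std hD2 hA3 hB3 (e2 ▸ hs') (by simp [hrow0]) (by simp [hrow0])
      (by simp [hrow0]) (by simp [hrow0])
  have r3 : WRel (chi (A * (swA * A1)⁻¹) (B * (swB * B1)⁻¹)) p.swap.nf.WS (s.act A B).WS :=
    e2 ▸ WS_act hP3 p.swap.nf_std
  have r := (r1.trans r2).trans r3
  rwa [← chi_sw, ← chi_mul, ← chi_mul, eA, eB] at r

theorem WS_rel {L : Type} [Field L] [CharZero L] {s : Model L} (hs : s.Std)
    {A B : Matrix (Fin 5) (Fin 5) L} (hA : A.det ≠ 0) (hB : B.det ≠ 0) (hs' : (s.act A B).Std)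
    (hD : s.WS.Δ ≠ 0) : (s.act A B).WS.c₄ = (A.det ^ 2 * B.det) ^ 4 * s.WS.c₄ ∧
      (s.act A B).WS.c₆ = (A.det ^ 2 * B.det) ^ 6 * s.WS.c₆ := by
  obtain ⟨r, s', t, e⟩ := two_point hs hA hB hs' hD
  rw [e]
  exact ⟨para_c4 _ _ _ _ _, para_c6 _ _ _ _ _⟩

end SelAvg.FF.T5
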