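import Pool.Agent.H34P.InvE
import Pool.Agent.H34P.InvB

/-! Existence of the universal Jacobian. -/

namespace SelAvg.FF.T5

open WeierstrassCurve Matrix

theorem exists_jac_univ : ∃ W : WeierstrassCurve UV, JacSpec W :=
  Inv.exists_jac_of_two fun _ _ _ _ _ _ hs hA hB hs' hD => two_point hs hA hB hs' hD

end SelAvg.FF.T5
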