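import Pool.Agent.H38Sel.AlgA

/-!
Endomorphisms of a polynomial ring that are tangent to the identity at the origin: purity,
roots modulo a prime, descent of Weierstrass equations, lifting of embeddings.
-/

namespace SelAvg.FF.T5.Inv

open MvPolynomial WeierstrassCurve

variable {k : Type} [CommRing k] {σ : Type}

/-- tangent to the identity at the origin -/
def Tang (θ : MvPolynomial σ k →ₐ[k] MvPolynomial σ k) : Prop :=
  ∀ i, θ (X i) - X i ∈ idealOfVars σ k ^ 2

lemma X_mem (i : σ) : (X i : MvPolynomial σ k) ∈ idealOfVars σ k :=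
  Ideal.subset_span ⟨i, rfl⟩

lemma cc_eq_zero {x : MvPolynomial σ k} (h : x ∈ idealOfVars σ k) : constantCoeff x = 0 := by
  have h1 : x ∈ idealOfVars σ k ^ 1 := by simpa using h
  exact (mem_pow_idealOfVars_iff' 1 x).1 h1 0 (by simp)

lemma exists_trunc (x : MvPolynomial σ k) (K : ℕ) :
    ∃ x' : MvPolynomial σ k, x'.totalDegree ≤ K ∧ x - x' ∈ idealOfVars σ k ^ (K + 1) := by
  classical
  refine ⟨∑ s ∈ x.support.filter (fun s => Finsupp.degree s ≤ K), monomial s (coeff s x), ?_, ?_⟩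
  · refine totalDegree_finsetSum_le fun s hs => (totalDegree_monomial_le _ _).trans ?_
    exact (Finset.mem_filter.1 hs).2
  · rw [mem_pow_idealOfVars_iff']
    intro s hs
    rw [coeff_sub, coeff_sum]
    simp only [coeff_monomial, Finset.sum_ite_eq', Finset.mem_filter, mem_support_iff]
    by_cases h : coeff s x = 0
    · simp [h]
    · rw [if_pos ⟨h, by omega⟩, sub_self]

lemma eq_zero_of_mem {x : MvPolynomial σ k} {K : ℕ} (hd : x.totalDegree ≤ K)
    (h : x ∈ idealOfVars σ k ^ (K + 1)) : x = 0 := by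
  by_contra h0
  obtain ⟨s, hs⟩ := support_nonempty.2 h0
  have h1 := (mem_pow_idealOfVars_iff _ _).1 h s hs
  have h2 : Finsupp.degree s ≤ x.totalDegree := le_totalDegree hs
  omega

namespace Tang

variable {θ : MvPolynomial σ k →ₐ[k] MvPolynomial σ k}

lemma sq (h : Tang θ) (x : MvPolynomial σ k) : θ x - x ∈ idealOfVars σ k ^ 2 := by
  induction x using MvPolynomial.induction_on with
  | C a => simp [← algebraMap_eq]
  | add p q hp hq =>
    have e : θ (p + q) - (p + q) = (θ p - p) + (θ q - q) := by rw [map_add]; ring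
    rw [e]; exact Ideal.add_mem _ hp hq
  | mul_X p i hp =>
    have e : θ (p * X i) - p * X i = θ p * (θ (X i) - X i) + (θ p - p) * X i := by
      rw [map_mul]; ring
    rw [e]
    exact Ideal.add_mem _ (Ideal.mul_mem_left _ _ (h i)) (Ideal.mul_mem_right _ _ hp)

lemma pow (h : Tang θ) (n : ℕ) :
    ∀ x ∈ idealOfVars σ k ^ n, θ x - x ∈ idealOfVars σ k ^ (n + 1) := by
  induction n with
  | zero => exact fun x _ => Ideal.pow_le_pow_right (by norm_num) (h.sq x)
  | succ n ih =>
    intro x hx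
    rw [pow_succ] at hx
    refine Submodule.mul_induction_on hx (fun a ha b hb => ?_) (fun p q hp hq => ?_)
    · have e : θ (a * b) - a * b = ((θ a - a) + a) * (θ b - b) + (θ a - a) * b := by
        rw [map_mul]; ring
      rw [e]
      refine Ideal.add_mem _ ?_ ?_
      · have h1 : (θ a - a) + a ∈ idealOfVars σ k ^ n :=
          Ideal.add_mem _ (Ideal.pow_le_pow_right (by omega) (ih a ha)) ha
        have h2 := Ideal.mul_mem_mul h1 (h.sq b)
        rwa [← pow_add] at h2
      · rw [pow_succ]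
        exact Ideal.mul_mem_mul (ih a ha) hb
    · have e : θ (p + q) - (p + q) = (θ p - p) + (θ q - q) := by rw [map_add]; ring
      rw [e]; exact Ideal.add_mem _ hp hq

lemma surj (h : Tang θ) (y : MvPolynomial σ k) (n : ℕ) :
    ∃ x, θ x - y ∈ idealOfVars σ k ^ n := by
  induction n with
  | zero => exact ⟨0, by simp⟩
  | succ n ih =>
    obtain ⟨x, hx⟩ := ih
    refine ⟨x - (θ x - y), ?_⟩
    have e : θ (x - (θ x - y)) - y = -(θ (θ x - y) - (θ x - y)) := by rw [map_sub θ x]; ring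
    rw [e]
    exact neg_mem (h.pow n _ hx)

lemma inj (h : Tang θ) {x : MvPolynomial σ k} {n : ℕ} (hx : θ x ∈ idealOfVars σ k ^ n) :
    x ∈ idealOfVars σ k ^ n := by
  induction n with
  | zero => simp
  | succ n ih =>
    have h1 := h.pow n x (ih (Ideal.pow_le_pow_right (by omega) hx))
    have e : x = θ x - (θ x - x) := by ring
    rw [e]
    exact Ideal.sub_mem _ hx h1

lemma injective (h : Tang θ) : Function.Injective θ := by
  rw [injective_iff_map_eq_zero]
  intro x hx
  exact eq_zero_of_mem le_rfl (h.inj (by rw [hx]; exact Ideal.zero_mem _))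

/-- purity -/
theorem pure [IsNoetherianRing k] [Finite σ] (h : Tang θ) {d n y : MvPolynomial σ k}
    (hd : Prime d) (hm : ¬IsUnit (constantCoeff d)) (e : θ n = θ d * y) : d ∣ n := by
  have hp : (Ideal.span {d}).IsPrime := (Ideal.span_singleton_prime hd.ne_zero).2 hd
  set π := Ideal.Quotient.mk (Ideal.span {d})
  have hne : (idealOfVars σ k).map π ≠ ⊤ := by
    intro ht
    have h1 : (1 : MvPolynomial σ k ⧸ Ideal.span {d}) ∈ (idealOfVars σ k).map π := by
      rw [ht]; trivial
    obtain ⟨x, hx, hx1⟩ := (Ideal.mem_map_iff_of_surjective π Ideal.Quotient.mk_surjective).1 h1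
    have h2 : 1 - x ∈ Ideal.span {d} := by
      rw [← Ideal.Quotient.eq_zero_iff_mem, map_sub, hx1, map_one, sub_self]
    obtain ⟨z, hz⟩ := Ideal.mem_span_singleton.1 h2
    have h3 := congrArg constantCoeff hz
    rw [map_sub, map_one, cc_eq_zero hx, sub_zero, map_mul] at h3
    exact hm (IsUnit.of_mul_eq_one _ h3.symm)
  have hk := Ideal.iInf_pow_eq_bot_of_isDomain _ hne
  rw [← Ideal.mem_span_singleton, ← Ideal.Quotient.eq_zero_iff_mem, ← Ideal.mem_bot, ← hk,
    Ideal.mem_iInf]
  intro j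
  obtain ⟨x, hx⟩ := h.surj y j
  have h1 : n - d * x ∈ idealOfVars σ k ^ j := by
    apply h.inj
    have e1 : θ (n - d * x) = -(θ d * (θ x - y)) := by rw [map_sub, map_mul, e]; ring
    rw [e1]
    exact neg_mem (Ideal.mul_mem_left _ _ hx)
  have h2 := Ideal.mem_map_of_mem π h1
  have h3 : π d = 0 := Ideal.Quotient.eq_zero_iff_mem.2 (Ideal.mem_span_singleton_self d)
  rwa [Ideal.map_pow, map_sub, map_mul, h3, zero_mul, sub_zero] at h2

/-- embeddings into an algebraically closed field extend along `θ` -/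
theorem exists_lift [IsDomain k] [Finite σ] (h : Tang θ) {Ω : Type} [Field Ω] [IsAlgClosed Ω]
    (ι : MvPolynomial σ k →+* Ω) (hι : Function.Injective ι) :
    ∃ j : MvPolynomial σ k →+* Ω, Function.Injective j ∧ ∀ x, j (θ x) = ι x := by
  have hθ : aeval (fun i => θ (X i)) = θ := (aeval_unique θ).symm
  have hind : AlgebraicIndependent k (fun i => θ (X i)) := by
    rw [algebraicIndependent_iff_injective_aeval, hθ]; exact h.injective
  have hb := hind.isTranscendenceBasis_of_trdeg_le_of_finite (by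
    rw [MvPolynomial.trdeg_of_isDomain]; simp)
  have halg := hb.isAlgebraic
  set S := Algebra.adjoin k (Set.range fun i => θ (X i))
  let e : MvPolynomial σ k ≃ₐ[k] S := hind.aevalEquiv
  have he : ∀ x, (e x : MvPolynomial σ k) = θ x := fun x => by
    have := hind.algebraMap_aevalEquiv x
    rw [hθ] at this
    exact this
  let ι' : S →+* Ω := ι.comp (e.symm : S →+* MvPolynomial σ k)
  have hι' : Function.Injective ι' := hι.comp e.symm.injective
  let _ : Algebra S Ω := ι'.toAlgebra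
  have _ : FaithfulSMul S Ω := (faithfulSMul_iff_algebraMap_injective S Ω).2 hι'
  let j : MvPolynomial σ k →ₐ[S] Ω := IsAlgClosed.lift
  refine ⟨j.toRingHom, ?_, fun x => ?_⟩
  · rw [RingHom.injective_iff_ker_eq_bot]
    by_contra hne
    obtain ⟨x, hx, hx0⟩ := Submodule.exists_mem_ne_zero_of_ne_bot hne
    apply Ideal.comap_ne_bot_of_algebraic_mem hx0 hx (halg.isAlgebraic x)
    rw [eq_bot_iff]
    intro s hs
    have h1 : j (algebraMap S _ s) = 0 := hs
    rw [j.commutes] at h1
    exact hι' (h1.trans (map_zero ι').symm)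
  · have h1 := j.commutes (e x)
    change j (e x : MvPolynomial σ k) = ι (e.symm (e x)) at h1
    rw [he, e.symm_apply_apply] at h1
    exact h1

end Tang

section Int

variable {θ : MvPolynomial σ ℤ →ₐ[ℤ] MvPolynomial σ ℤ}

lemma prime_natCast {p : ℕ} (hp : p.Prime) : Prime (p : MvPolynomial σ ℤ) := by
  have h : Prime (C (p : ℤ) : MvPolynomial σ ℤ) :=
    (MvPolynomial.prime_C_iff σ).2 (Nat.prime_iff_prime_int.1 hp)
  simpa using h

theorem Tang.pure_nat [Finite σ] (h : Tang θ) (N : ℕ) (hN : N ≠ 0) :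
    ∀ {n y : MvPolynomial σ ℤ}, θ n = N * y → ∃ n', θ n' = y := by
  induction N using induction_on_primes with
  | zero => exact absurd rfl hN
  | one => exact fun {n y} e => ⟨n, by simpa using e⟩
  | prime_mul p a hp ih =>
    intro n y e
    have hu : ¬IsUnit (constantCoeff (p : MvPolynomial σ ℤ)) := by
      rw [map_natCast]
      exact (Nat.prime_iff_prime_int.1 hp).not_isUnit
    obtain ⟨z, rfl⟩ := h.pure (prime_natCast hp) hu (y := a * y)
      (n := n) (by rw [e, map_natCast]; push_cast; ring)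
    refine ih (fun h0 => hN (by simp [h0])) (n := z) ?_
    apply mul_left_cancel₀ (prime_natCast (σ := σ) hp).ne_zero
    rw [map_mul, map_natCast] at e
    rw [e]; push_cast; ring

/-- roots modulo a prime -/
theorem Tang.root (h : Tang θ) {p : ℕ} (hp : p.Prime) {b y z : MvPolynomial σ ℤ}
    (e : θ b = y ^ p + p * z) : ∃ a w, θ a = y + p * w := by
  set K := b.totalDegree
  obtain ⟨x, hx⟩ := h.surj y (p * K + 1)
  obtain ⟨z', hz'⟩ := h.surj z (p * K + 1)
  obtain ⟨a, ha, hxa⟩ := exists_trunc x K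
  have h1 : b - x ^ p - p * z' ∈ idealOfVars σ ℤ ^ (p * K + 1) := by
    apply h.inj
    obtain ⟨c, hc⟩ := sub_dvd_pow_sub_pow (θ x) y p
    have e1 : θ (b - x ^ p - p * z') = -((θ x - y) * c) - p * (θ z' - z) := by
      rw [map_sub, map_sub, map_mul, map_pow, map_natCast, e, ← hc]; ring
    rw [e1]
    exact Ideal.sub_mem _ (neg_mem (Ideal.mul_mem_right _ _ hx)) (Ideal.mul_mem_left _ _ hz')
  obtain ⟨r, hr⟩ := exists_add_pow_prime_eq hp a (x - a)
  rw [add_sub_cancel] at hr
  have h2 : (x - a) ^ p ∈ idealOfVars σ ℤ ^ (p * K + 1) := by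
    have h3 := Ideal.pow_mem_pow hxa p
    rw [← pow_mul] at h3
    refine Ideal.pow_le_pow_right ?_ h3
    have := hp.one_le
    nlinarith
  obtain ⟨w, hw, hw'⟩ := exists_trunc (z' + a * (x - a) * r) (p * K)
  have h4 : b - a ^ p - p * w = 0 := by
    refine eq_zero_of_mem (K := p * K) ?_ ?_
    · refine (totalDegree_sub _ _).trans (max_le ((totalDegree_sub _ _).trans (max_le ?_ ?_)) ?_)
      · exact Nat.le_mul_of_pos_left K hp.pos
      · exact (totalDegree_pow _ _).trans (Nat.mul_le_mul_left p ha)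
      · refine (totalDegree_mul _ _).trans ?_
        have : (p : MvPolynomial σ ℤ).totalDegree = 0 := by
          rw [← map_natCast (C : ℤ →+* MvPolynomial σ ℤ), totalDegree_C]
        omega
    · have e2 : b - a ^ p - p * w = (b - x ^ p - p * z') + (x - a) ^ p
          + p * (z' + a * (x - a) * r - w) := by rw [hr]; ring
      rw [e2]
      exact Ideal.add_mem _ (Ideal.add_mem _ h1 h2) (Ideal.mul_mem_left _ _ hw')
  obtain ⟨r', hr'⟩ := exists_add_pow_prime_eq hp y (θ a - y)
  rw [add_sub_cancel] at hr'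
  have h5 := congrArg θ h4
  rw [map_sub, map_sub, map_mul, map_pow, map_natCast, e, hr', map_zero] at h5
  have h6 : (p : MvPolynomial σ ℤ) ∣ (θ a - y) ^ p :=
    ⟨z - θ w - y * (θ a - y) * r', by linear_combination -h5⟩
  obtain ⟨u, hu⟩ := (prime_natCast hp).dvd_of_dvd_pow h6
  exact ⟨a, u, by linear_combination hu⟩

/-- a Weierstrass equation whose invariants descend along `θ` descends after a shift -/
theorem Tang.kraus [Finite σ] (h : Tang θ) (W : WeierstrassCurve (MvPolynomial σ ℤ))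
    {c4 c6 : MvPolynomial σ ℤ} (h4 : θ c4 = W.c₄) (h6 : θ c6 = W.c₆) :
    ∃ (W₀ : WeierstrassCurve (MvPolynomial σ ℤ)) (r s t : MvPolynomial σ ℤ),
      W₀.map θ.toRingHom = wsh r s t • W := by
  obtain ⟨x, w, hx⟩ := h.root Nat.prime_two (b := c4) (y := W.a₁ ^ 2)
    (z := 4 * W.a₁ ^ 2 * W.a₂ + 8 * W.a₂ ^ 2 - 12 * W.b₄)
    (by rw [h4]; simp only [c₄, b₂]; push_cast; ring)
  obtain ⟨a1, s, ha1⟩ := h.root Nat.prime_two (b := x) (y := W.a₁) (z := w) hx
  obtain ⟨β, z, hβ⟩ := h.root Nat.prime_three (b := -c6) (y := W.b₂)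
    (z := -12 * W.b₂ * W.b₄ + 72 * W.b₆) (by rw [map_neg, h6]; simp only [c₆]; push_cast; ring)
  push_cast at ha1 hβ
  set r := W.a₂ + z - s * W.a₁ - s ^ 2 with hr
  set W1 := wsh r s 0 • W with hW1
  have e1 : θ a1 = W1.a₁ := by simp [hW1, wsh, variableChange_a₁, ha1]
  have e2 : θ (β - a1 ^ 2) = W1.a₂ := by
    rw [map_sub, map_pow, ha1, hβ]
    simp only [hW1, wsh, variableChange_a₂, b₂, hr, inv_one, Units.val_one]
    ring
  have e4 : θ c4 = W1.c₄ := by simp [hW1, wsh, variableChange_c₄, h4]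
  have e6 : θ c6 = W1.c₆ := by simp [hW1, wsh, variableChange_c₆, h6]
  have eb2 : θ (a1 ^ 2 + 4 * (β - a1 ^ 2)) = W1.b₂ := by
    rw [map_add, map_mul, map_pow, e1, e2, map_ofNat]; rfl
  generalize a1 ^ 2 + 4 * (β - a1 ^ 2) = b2 at eb2
  obtain ⟨b4, eb4⟩ := h.pure_nat 24 (by norm_num) (n := b2 ^ 2 - c4) (y := W1.b₄)
    (by rw [map_sub, map_pow, eb2, e4]; simp only [c₄]; push_cast; ring)
  obtain ⟨b6, eb6⟩ := h.pure_nat 216 (by norm_num) (n := -b2 ^ 3 + 36 * b2 * b4 - c6) (y := W1.b₆)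
    (by
      rw [map_sub, map_add, map_neg, map_pow, map_mul, map_mul, eb2, eb4, e6, map_ofNat]
      simp only [c₆]; push_cast; ring)
  obtain ⟨a3, t, ha3⟩ := h.root Nat.prime_two (b := b6) (y := W1.a₃) (z := 2 * W1.a₆)
    (by rw [eb6]; simp only [b₆]; push_cast; ring)
  push_cast at ha3
  obtain ⟨a4, ha4⟩ := h.pure_nat 2 (by norm_num) (n := b4 - a1 * a3) (y := W1.a₄ - t * W1.a₁)
    (by rw [map_sub, map_mul, eb4, e1, ha3]; simp only [b₄]; push_cast; ring)
  obtain ⟨a6, ha6⟩ := h.pure_nat 4 (by norm_num) (n := b6 - a3 ^ 2)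
    (y := W1.a₆ - t * W1.a₃ - t ^ 2)
    (by rw [map_sub, map_pow, eb6, ha3]; simp only [b₆]; push_cast; ring)
  refine ⟨⟨a1, β - a1 ^ 2, a3, a4, a6⟩, r, s, t, ?_⟩
  have e : wsh r s t • W = wsh 0 0 t • W1 := by
    rw [hW1, ← mul_smul]
    congr 1
    ext <;> simp [wsh, VariableChange.mul_def]
  rw [e]
  refine WeierstrassCurve.ext ?_ ?_ ?_ ?_ ?_
  · simp [wsh, variableChange_a₁, e1]
  · simpa [wsh, variableChange_a₂] using e2
  · simp [wsh, variableChange_a₃, ha3]
  · simp [wsh, variableChange_a₄, ha4]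
  · simp [wsh, variableChange_a₆, ha6]

end Int

end SelAvg.FF.T5.Inv
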