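import Pool.Agent.H34P.InvDef
import Pool.Agent.H34P.InvA

/-! A chart of the space of models by unipotent pairs and models in standard position. -/

namespace SelAvg.FF.T5.Inv

open WeierstrassCurve Matrix MvPolynomial

variable {R S : Type*} [CommRing R] [CommRing S]

/-- all entries lie in the ideal -/
def Ent (J : Ideal R) (M : Matrix (Fin 5) (Fin 5) R) : Prop := ∀ i j, M i j ∈ J

lemma Ent.mul {I J : Ideal R} {M N : Matrix (Fin 5) (Fin 5) R} (hM : Ent I M) (hN : Ent J N) :
    Ent (I * J) (M * N) := fun i j => by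
  rw [mul_apply]
  exact Ideal.sum_mem _ fun a _ => Ideal.mul_mem_mul (hM i a) (hN a j)

lemma Ent.mul_right {I : Ideal R} {M : Matrix (Fin 5) (Fin 5) R} (hM : Ent I M)
    (N : Matrix (Fin 5) (Fin 5) R) : Ent I (M * N) := fun i j => by
  rw [mul_apply]
  exact Ideal.sum_mem _ fun a _ => Ideal.mul_mem_right _ _ (hM i a)

lemma Ent.add {I : Ideal R} {M N : Matrix (Fin 5) (Fin 5) R} (hM : Ent I M) (hN : Ent I N) :
    Ent I (M + N) := fun i j => Ideal.add_mem _ (hM i j) (hN i j)

lemma Ent.transpose {I : Ideal R} {M : Matrix (Fin 5) (Fin 5) R} (hM : Ent I M) : Ent I Mᵀ :=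
  fun i j => hM j i

lemma act_lin {I : Ideal R} {N N' : Matrix (Fin 5) (Fin 5) R} (hN : Ent I N) (hN' : Ent I N')
    {s e : Model R} (hs : ∀ k, Ent I (s.c k - e.c k)) (k : Fin 5) :
    Ent (I * I) ((s.act (1 + N) (1 + N')).c k -
      (s.c k + N * e.c k + e.c k * Nᵀ + e.ev (N' k))) := by
  have h1 : (1 + N') k = Pi.single k 1 + N' k := by
    funext j; simp [one_apply, Pi.single_apply, eq_comm]
  have h2 : Ent (I * I) (s.ev (N' k) - e.ev (N' k)) := fun i j => by
    rw [Matrix.sub_apply, Model.ev_apply, Model.ev_apply, ← Finset.sum_sub_distrib]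
    refine Ideal.sum_mem _ fun a _ => ?_
    rw [← mul_sub]
    exact Ideal.mul_mem_mul (hN' k a) (hs a i j)
  have h3 : Ent I (s.c k - e.c k + s.ev (N' k)) := (hs k).add fun i j => by
    rw [Model.ev_apply]
    exact Ideal.sum_mem _ fun a _ => Ideal.mul_mem_right _ _ (hN' k a)
  rw [Model.act_c, h1, Model.ev_add, Model.ev_single]
  generalize s.ev (N' k) = Z at h2 h3
  generalize e.ev (N' k) = Z' at h2
  generalize s.c k = P at h3
  generalize e.c k = E at h3
  have e1 : (1 + N) * (P + Z) * (1 + N)ᵀ - (P + N * E + E * Nᵀ + Z') =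
      (Z - Z') + N * (P - E + Z) + (P - E + Z) * Nᵀ + N * (P + Z) * Nᵀ := by
    rw [transpose_add, transpose_one]
    noncomm_ring
  rw [e1]
  exact ((h2.add (hN.mul h3)).add (h3.mul hN.transpose)).add ((hN.mul_right _).mul hN.transpose)

/-- the base point of the chart -/
def e0 (n : Fin 50) : ℤ :=
  if n = 9 then 1 else if n = 24 then 1 else if n = 31 then -1 else if n = 40 then 1 else 0

/-- evaluation in coordinates centred at the base point -/
noncomputable def evT (f : Model R) : UV →+* R :=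
  eval₂Hom (Int.castRingHom R) fun n => Model.equivVec f n - (e0 n : R)

@[simp] lemma evT_X (f : Model R) (n : Fin 50) :
    evT f (X n) = Model.equivVec f n - (e0 n : R) := by simp [evT]

lemma comp_evT (φ : R →+* S) (f : Model R) : φ.comp (evT f) = evT (f.map φ) := by
  apply MvPolynomial.ringHom_ext
  · intro r; simp [evT]
  · intro n; simp [Model.equivVec_map]

/-- the universal model, centred -/
noncomputable def fT : Model UV := Model.equivVec.symm fun n => X n + (e0 n : UV)

/-- the universal model in standard position, centred -/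
noncomputable def sT : Model UV :=
  Model.equivVec.symm fun n => if n ∈ stdIx then 0 else X n + (e0 n : UV)

/-- the base point as a model -/
noncomputable def eT : Model UV := Model.equivVec.symm fun n => (e0 n : UV)

lemma fT_map (f : Model R) : fT.map (evT f) = f := by
  rw [fT, Model.equivVec_symm_map]
  simp

lemma evT_fT : evT fT = RingHom.id UV := by
  apply MvPolynomial.ringHom_ext
  · intro r; simp [evT]
  · intro n; simp [fT]

lemma sT_std : sT.Std := std_iff.2 fun n hn => by simp [sT, hn]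

lemma sT_map {f : Model R} (h : f.Std) : sT.map (evT f) = f := by
  rw [sT, Model.equivVec_symm_map, Equiv.symm_apply_eq]
  funext n
  by_cases hn : n ∈ stdIx
  · simp [hn, std_iff.1 h n hn]
  · simp [hn]

lemma e0_std : ∀ n ∈ stdIx, e0 n = 0 := by decide

noncomputable def nA : Matrix (Fin 5) (Fin 5) UV :=
  !![0, 0, 0, X 3, -X 2; 0, 0, 0, X 6, -X 5; 0, 0, 0, X 8, -X 7; 0, 0, 0, 0, 0; 0, 0, 0, 0, 0]

noncomputable def nB : Matrix (Fin 5) (Fin 5) UV :=
  !![0, 0, X 4, -X 1, X 0; 0, 0, X 14, -X 11, X 10; 0, 0, 0, 0, 0; 0, 0, 0, 0, 0; 0, 0, 0, 0, 0]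

lemma det_A : (1 + nA).det = 1 := by
  rw [det_of_isUpperTriangular]
  · simp [nA, Fin.prod_univ_five]
  · intro i j h
    fin_cases i <;> fin_cases j <;> first | exact absurd h (by decide) | simp [nA]

lemma det_B : (1 + nB).det = 1 := by
  rw [det_of_isUpperTriangular]
  · simp [nB, Fin.prod_univ_five]
  · intro i j h
    fin_cases i <;> fin_cases j <;> first | exact absurd h (by decide) | simp [nB]

lemma ent_A : Ent (idealOfVars (Fin 50) ℤ) nA := fun i j => by
  fin_cases i <;> fin_cases j <;> simp [nA, X_mem]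

lemma ent_B : Ent (idealOfVars (Fin 50) ℤ) nB := fun i j => by
  fin_cases i <;> fin_cases j <;> simp [nB, X_mem]

lemma ent_altM {I : Ideal R} {v : Fin 10 → R} (h : ∀ p, v p ∈ I) : Ent I (altM v) := fun i j => by
  fin_cases i <;> fin_cases j <;> simp [altM, h]

lemma altM_sub (v w : Fin 10 → R) : altM v - altM w = altM (v - w) := by
  ext i j
  fin_cases i <;> fin_cases j <;> simp [altM] <;> ring

lemma ent_s (k : Fin 5) : Ent (idealOfVars (Fin 50) ℤ) (sT.c k - eT.c k) := by
  change Ent _ (altM (R := UV) _ - altM (R := UV) _)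
  rw [altM_sub]
  refine ent_altM fun p => ?_
  by_cases h : ix k p ∈ stdIx
  · simp [h, e0_std _ h]
  · simp [h, X_mem]

/-- the chart -/
noncomputable def fC : Model UV := sT.act (1 + nA) (1 + nB)

/-- the chart as a map of coordinate rings -/
noncomputable def th : UV →ₐ[ℤ] UV := (evT fC).toIntAlgHom

lemma th_apply (x : UV) : th x = evT fC x := rfl

lemma eT_c (k : Fin 5) : eT.c k = altM (![![0, 0, 0, 0, 0, 0, 0, 0, 0, 1],
    ![0, 0, 0, 0, 0, 0, 0, 0, 0, 0], ![0, 0, 0, 0, 1, 0, 0, 0, 0, 0],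
    ![0, -1, 0, 0, 0, 0, 0, 0, 0, 0], ![1, 0, 0, 0, 0, 0, 0, 0, 0, 0]] k) := by
  change altM (R := UV) (fun p => (e0 (ix k p) : UV)) = _
  congr 1
  funext p
  fin_cases k <;> fin_cases p <;> simp [e0, ix]

lemma lin_part (k : Fin 5) (p : Fin 10) :
    (nA * eT.c k + eT.c k * nAᵀ + eT.ev (nB k)) (pI p) (pJ p) =
      if ix k p ∈ stdIx then X (ix k p) else 0 := by
  simp only [Matrix.add_apply, mul_apply, Model.ev_apply, eT_c, Fin.sum_univ_five, transpose_apply]
  fin_cases k <;> fin_cases p <;> simp [nA, nB, altM, pI, pJ, ix, stdIx]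

theorem th_tang : Tang th := by
  intro n
  obtain ⟨k, p, rfl⟩ : ∃ k p, n = ix k p := ⟨_, _, (ix_ixK n).symm⟩
  have h := act_lin ent_A ent_B ent_s k (pI p) (pJ p)
  have h2 := lin_part k p
  have h3 : sT.c k (pI p) (pJ p) = if ix k p ∈ stdIx then 0 else X (ix k p) + (e0 (ix k p) : UV) := by
    rw [← Model.equivVec_ix]; simp [sT]
  simp only [Matrix.add_apply, Matrix.sub_apply] at h h2
  rw [th_apply, evT_X, Model.equivVec_ix, sq]
  convert h using 1
  rw [add_assoc, add_assoc, ← add_assoc ((nA * eT.c k) _ _), h2, h3]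
  by_cases hn : ix k p ∈ stdIx
  · simp [hn, e0_std _ hn, fC]
  · simp only [hn, if_false, fC]; ring

lemma fT_map_th : fT.map th.toRingHom = fC := fT_map fC

lemma nA_map {f : Model R} (h : f.Std) : (1 + nA).map (evT f) = 1 := by
  have h0 : ∀ n ∈ stdIx, evT f (X n) = 0 := fun n hn => by
    simp [std_iff.1 h n hn, e0_std n hn]
  ext i j
  fin_cases i <;> fin_cases j <;>
    simp [nA, -evT_X, h0 3 (by decide), h0 2 (by decide), h0 6 (by decide), h0 5 (by decide),
      h0 8 (by decide), h0 7 (by decide)]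

lemma nB_map {f : Model R} (h : f.Std) : (1 + nB).map (evT f) = 1 := by
  have h0 : ∀ n ∈ stdIx, evT f (X n) = 0 := fun n hn => by
    simp [std_iff.1 h n hn, e0_std n hn]
  ext i j
  fin_cases i <;> fin_cases j <;>
    simp [nB, -evT_X, h0 4 (by decide), h0 1 (by decide), h0 0 (by decide), h0 14 (by decide),
      h0 11 (by decide), h0 10 (by decide)]

lemma evT_th {f : Model R} (h : f.Std) (x : UV) : evT f (th x) = evT f x := by
  have e : (evT f).comp (evT fC) = evT f := by
    rw [comp_evT, fC, Model.map_act, nA_map h, nB_map h, sT_map h, Model.act_one]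
  exact DFunLike.congr_fun e x

/-- a model in standard position with nonzero discriminant -/
def wit : Model ℤ := Model.unred ⟨0, -1, -1, 0, 1, 0, 0, 0, 0, 1⟩

lemma wit_std : wit.Std := by constructor <;> rfl

lemma wit_Delta : wit.WS.Δ ≠ 0 := by decide +kernel

lemma sT_Delta : sT.WS.Δ ≠ 0 := fun h => wit_Delta (by
  rw [← sT_map wit_std, Model.WS_map, map_Δ, h, map_zero])

end SelAvg.FF.T5.Inv
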