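import Pool.Agent.H34P.InvC

/-! Descent of the invariants to the coordinate ring of the space of models. -/

namespace SelAvg.FF.T5.Inv

open WeierstrassCurve Matrix MvPolynomial

/-- independence of the point -/
def HTwo : Prop := ∀ (L : Type) [Field L] [CharZero L] (s : Model L)
  (A B : Matrix (Fin 5) (Fin 5) L), s.Std → A.det ≠ 0 → B.det ≠ 0 → (s.act A B).Std →
    s.WS.Δ ≠ 0 → (s.act A B).WS.c₄ = chi A B ^ 4 * s.WS.c₄ ∧ (s.act A B).WS.c₆ = chi A B ^ 6 * s.WS.c₆

/-- standard position over valuation rings -/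
def HVal : Prop := ∀ (L : Type) [Field L] (O : ValuationSubring L) (f : Model O) (Q : Pt L),
  Q ≠ 0 → Rk2 ((f.map O.subtype).ev Q) →
    ∃ A B : Matrix (Fin 5) (Fin 5) O, IsUnit A.det ∧ IsUnit B.det ∧ (f.act A B).Std

lemma det_map' {R S : Type*} [CommRing R] [CommRing S] (φ : R →+* S)
    (M : Matrix (Fin 5) (Fin 5) R) : (M.map φ).det = φ M.det := by
  rw [RingHom.map_det, RingHom.mapMatrix_apply]

lemma rel2 (h2 : HTwo) {L : Type} [Field L] [CharZero L] {s s' : Model L} (hs : s.Std)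
    (hs' : s'.Std) (hD : s.WS.Δ ≠ 0) {A B A' B' : Matrix (Fin 5) (Fin 5) L} (hA : A.det ≠ 0)
    (hB : B.det ≠ 0) (hA' : A'.det ≠ 0) (hB' : B'.det ≠ 0) (e : s.act A B = s'.act A' B') :
    chi A' B' ^ 4 * s'.WS.c₄ = chi A B ^ 4 * s.WS.c₄ ∧
      chi A' B' ^ 6 * s'.WS.c₆ = chi A B ^ 6 * s.WS.c₆ := by
  have uA : IsUnit A'.det := isUnit_iff_ne_zero.2 hA'
  have uB : IsUnit B'.det := isUnit_iff_ne_zero.2 hB'
  have e1 : s.act (A'⁻¹ * A) (B'⁻¹ * B) = s' := by
    rw [← Model.act_act, e, Model.act_act, nonsing_inv_mul _ uA, nonsing_inv_mul _ uB,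
      Model.act_one]
  have e2 : chi A' B' * chi (A'⁻¹ * A) (B'⁻¹ * B) = chi A B := by
    rw [← chi_mul, mul_nonsing_inv_cancel_left _ _ uA, mul_nonsing_inv_cancel_left _ _ uB]
  have h := h2 L s (A'⁻¹ * A) (B'⁻¹ * B) hs
    (by rw [det_mul]; exact mul_ne_zero (isUnit_nonsing_inv_det _ uA).ne_zero hA)
    (by rw [det_mul]; exact mul_ne_zero (isUnit_nonsing_inv_det _ uB).ne_zero hB)
    (e1.symm ▸ hs') hD
  rw [e1] at h
  rw [h.1, h.2, ← e2]
  constructor <;> ring

section Lift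

variable {Ω : Type} [Field Ω] {ι j : UV →+* Ω}

lemma lift_act (h : ∀ x, j (th x) = ι x) :
    (sT.map j).act ((1 + nA).map j) ((1 + nB).map j) = fT.map ι := by
  rw [← Model.map_act]
  change fC.map j = _
  rw [← fT_map_th, Model.map_map]
  congr 1
  exact RingHom.ext h

lemma dA {j : UV →+* Ω} : ((1 + nA).map j).det = 1 := by rw [det_map', det_A, map_one]

lemma dB {j : UV →+* Ω} : ((1 + nB).map j).det = 1 := by rw [det_map', det_B, map_one]

lemma chi_AB (j : UV →+* Ω) : chi ((1 + nA).map j) ((1 + nB).map j) = 1 := by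
  simp [chi, dA, dB]

lemma lift_Delta (hj : Function.Injective j) : (sT.map j).WS.Δ ≠ 0 := by
  rw [Model.WS_map, map_Δ]
  exact fun h => sT_Delta (hj (h.trans (map_zero j).symm))

/-- comparison of a lift of the chart with any other standard position -/
lemma lift_rel [CharZero Ω] (h2 : HTwo) (hj : Function.Injective j) (h : ∀ x, j (th x) = ι x)
    {s' : Model Ω} (hs' : s'.Std) {A B A' B' : Matrix (Fin 5) (Fin 5) Ω} (hA : A.det ≠ 0)
    (hB : B.det ≠ 0) (hA' : A'.det ≠ 0) (hB' : B'.det ≠ 0)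
    (e : (fT.map ι).act A B = s'.act A' B') :
    chi A' B' ^ 4 * s'.WS.c₄ = chi A B ^ 4 * j sT.WS.c₄ ∧
      chi A' B' ^ 6 * s'.WS.c₆ = chi A B ^ 6 * j sT.WS.c₆ := by
  rw [← lift_act h, Model.act_act] at e
  have h3 := rel2 h2 (sT_std.map j) hs' (lift_Delta hj)
    (by rw [det_mul, dA, mul_one]; exact hA) (by rw [det_mul, dB, mul_one]; exact hB) hA' hB' e
  rwa [chi_mul, chi_AB, mul_one, Model.WS_map, map_c₄, map_c₆] at h3

lemma rk2_std {R : Type*} [CommRing R] {s : Model R} (h : s.Std) : Rk2 (s.c 0) := by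
  rw [rk2_iff (s.diag 0) (s.alt 0)]
  simp [pf, h.c001, h.c002, h.c003, h.c004, h.c012, h.c013, h.c014, h.c023, h.c024]

lemma lift_point (h : ∀ x, j (th x) = ι x) : ∃ Q : Pt Ω, Q ≠ 0 ∧ Rk2 ((fT.map ι).ev Q) := by
  have uB : IsUnit ((1 + nB).map j).det := by rw [dB]; exact isUnit_one
  refine ⟨Pt.std ᵥ* ((1 + nB).map j)⁻¹, fun h0 => ?_, ?_⟩
  · have h1 := congrArg (· ᵥ* (1 + nB).map j) h0
    simp only [vecMul_vecMul, nonsing_inv_mul _ uB, vecMul_one, zero_vecMul] at h1
    simpa using congrFun h1 0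
  · rw [← lift_act h, Model.ev_act, vecMul_vecMul, nonsing_inv_mul _ uB, vecMul_one, Model.ev_std]
    exact (rk2_std (sT_std.map j)).conj _

lemma lift_mem [CharZero Ω] (h2 : HTwo) (hv : HVal) (hj : Function.Injective j)
    (h : ∀ x, j (th x) = ι x) (O : ValuationSubring Ω) (hO : ∀ x, ι x ∈ O) :
    j sT.WS.c₄ ∈ O ∧ j sT.WS.c₆ ∈ O := by
  let ι' : UV →+* O := ι.codRestrict O hO
  have e0 : (fT.map ι').map O.subtype = fT.map ι := rfl
  obtain ⟨Q, hQ, hr⟩ := lift_point h
  obtain ⟨A, B, hA, hB, hs⟩ := hv Ω O (fT.map ι') Q hQ (e0 ▸ hr)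
  have e1 : (fT.map ι).act 1 1 =
      (((fT.map ι').act A B).map O.subtype).act (A⁻¹.map O.subtype) (B⁻¹.map O.subtype) := by
    rw [← Model.map_act, Model.act_act, nonsing_inv_mul _ hA, nonsing_inv_mul _ hB, Model.act_one,
      Model.act_one, e0]
  have h3 := lift_rel h2 hj h (hs.map O.subtype) (by simp) (by simp)
    (by rw [det_map']; exact ((isUnit_nonsing_inv_det _ hA).map _).ne_zero)
    (by rw [det_map']; exact ((isUnit_nonsing_inv_det _ hB).map _).ne_zero) e1
  rw [chi_one, one_pow, one_pow, one_mul, one_mul, chi_map, Model.WS_map, map_c₄, map_c₆,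
    ← map_pow, ← map_pow, ← map_mul, ← map_mul] at h3
  rw [← h3.1, ← h3.2]
  have hm : ∀ z : O, O.subtype z ∈ O := fun z => z.2
  exact ⟨hm _, hm _⟩

end Lift

lemma mem_range_of {A K Ω : Type} [CommRing A] [IsDomain A] [IsIntegrallyClosed A] [Field K]
    [Algebra A K] [IsFractionRing A K] [Field Ω] [Algebra K Ω] [Algebra A Ω] [IsScalarTower A K Ω]
    [IsGalois K Ω] {c : Ω} (h1 : ∀ σ : Ω ≃ₐ[K] Ω, σ c = c)
    (h2 : ∀ O : ValuationSubring Ω, (∀ x, algebraMap A Ω x ∈ O) → c ∈ O) :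
    ∃ x, algebraMap A Ω x = c := by
  obtain ⟨y, rfl⟩ := (InfiniteGalois.mem_range_algebraMap_iff_fixed (k := K) c).2 h1
  have h3 : algebraMap K Ω y ∈
      (integralClosure (Subring.closure (Set.range (algebraMap A Ω))) Ω).toSubring := by
    rw [← iInf_valuationSubring_superset, Subring.mem_iInf]
    exact fun V => h2 V.1 fun x => V.2 ⟨x, rfl⟩
  have e : Subring.closure (Set.range (algebraMap A Ω)) = (algebraMap A Ω).range := by
    rw [← RingHom.coe_range, Subring.closure_eq]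
  rw [e] at h3
  obtain ⟨p, hp, hp0⟩ := h3
  obtain ⟨q, hq, -, hqm⟩ := Polynomial.lifts_and_degree_eq_and_monic
    (f := (algebraMap A Ω).rangeRestrict)
    (Polynomial.mem_lifts_of_surjective (algebraMap A Ω).rangeRestrict_surjective p) hp
  have h4 : IsIntegral A (algebraMap K Ω y) := by
    refine ⟨q, hqm, ?_⟩
    rw [← hq, Polynomial.eval₂_map] at hp0
    exact hp0
  obtain ⟨x, hx⟩ := IsIntegrallyClosed.isIntegral_iff.1
    ((isIntegral_algebraMap_iff (algebraMap K Ω).injective).1 h4)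
  exact ⟨x, by rw [IsScalarTower.algebraMap_apply A K Ω, hx]⟩

lemma inj_closure (A : Type) [CommRing A] [IsDomain A] :
    Function.Injective (algebraMap A (AlgebraicClosure (FractionRing A))) := by
  rw [IsScalarTower.algebraMap_eq A (FractionRing A), RingHom.coe_comp]
  exact (RingHom.injective _).comp (IsFractionRing.injective A _)

theorem exists_c46 (h2 : HTwo) (hv : HVal) :
    (∃ x, th x = sT.WS.c₄) ∧ ∃ x, th x = sT.WS.c₆ := by
  let K := FractionRing UV
  let Ω := AlgebraicClosure K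
  have hι : Function.Injective (algebraMap UV Ω) := inj_closure UV
  obtain ⟨j, hj, h⟩ := th_tang.exists_lift (algebraMap UV Ω) hι
  have hσ : ∀ σ : Ω ≃ₐ[K] Ω, σ (j sT.WS.c₄) = j sT.WS.c₄ ∧ σ (j sT.WS.c₆) = j sT.WS.c₆ := by
    intro σ
    let j' : UV →+* Ω := (σ : Ω →+* Ω).comp j
    have h' : ∀ x, j' (th x) = algebraMap UV Ω x := fun x => by
      change σ (j (th x)) = _
      rw [h, IsScalarTower.algebraMap_apply UV K Ω, σ.commutes]
    have h3 := lift_rel h2 hj h (sT_std.map j') (A := 1) (B := 1) (by simp) (by simp)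
      (dA.trans_ne one_ne_zero) (dB.trans_ne one_ne_zero)
      ((Model.act_one _).trans (lift_act h').symm)
    rw [chi_AB, chi_one, Model.WS_map, map_c₄, map_c₆] at h3
    simpa [j'] using h3
  obtain ⟨x, hx⟩ := mem_range_of (A := UV) (K := K) (fun σ => (hσ σ).1)
    fun O hO => (lift_mem h2 hv hj h O hO).1
  obtain ⟨y, hy⟩ := mem_range_of (A := UV) (K := K) (fun σ => (hσ σ).2)
    fun O hO => (lift_mem h2 hv hj h O hO).2
  exact ⟨⟨x, hj ((h x).trans hx)⟩, ⟨y, hj ((h y).trans hy)⟩⟩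

/-- the retraction of the universal ring -/
noncomputable def rho : Univ →+* UV :=
  eval₂Hom (Int.castRingHom UV) (Sum.elim (fun p => (1 : Matrix (Fin 5) (Fin 5) UV) p.1 p.2)
    (Sum.elim (fun p => (1 : Matrix (Fin 5) (Fin 5) UV) p.1 p.2) (Model.equivVec fT)))

lemma rho_A : univA.map rho = 1 := by ext1 i j; simp [univA, rho]

lemma rho_B : univB.map rho = 1 := by ext1 i j; simp [univB, rho]

lemma rho_F : univF.map rho = fT := by
  rw [univF, Model.equivVec_symm_map]
  simp [rho]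

lemma evT_inj {f : Model Univ} (h : f.map rho = fT) : Function.Injective (evT f) := by
  have e : rho.comp (evT f) = RingHom.id UV := by rw [comp_evT, h, evT_fT]
  exact Function.LeftInverse.injective (g := rho) fun x => DFunLike.congr_fun e x

theorem univ_act (h2 : HTwo) {x y : UV} (hx : th x = sT.WS.c₄) (hy : th y = sT.WS.c₆) :
    evT (univF.act univA univB) x = chi univA univB ^ 4 * evT univF x ∧
      evT (univF.act univA univB) y = chi univA univB ^ 6 * evT univF y := by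
  let Ω := AlgebraicClosure (FractionRing Univ)
  have hι : Function.Injective (algebraMap Univ Ω) := inj_closure Univ
  set ι := algebraMap Univ Ω
  obtain ⟨j1, hj1, h1⟩ := th_tang.exists_lift (ι.comp (evT univF)) (hι.comp (evT_inj rho_F))
  obtain ⟨j2, -, h2'⟩ := th_tang.exists_lift (ι.comp (evT (univF.act univA univB)))
    (hι.comp (evT_inj (by rw [Model.map_act, rho_A, rho_B, rho_F, Model.act_one])))
  have hd : ∀ M : Matrix (Fin 5) (Fin 5) Univ, M.map rho = 1 → (M.map ι).det ≠ 0 := by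
    intro M hM h0
    rw [det_map'] at h0
    have h5 := det_map' rho M
    rw [hM, hι (h0.trans (map_zero ι).symm)] at h5
    simp at h5
  have h3 := lift_rel h2 hj1 h1 (sT_std.map j2) (hd _ rho_A) (hd _ rho_B)
    (dA.trans_ne one_ne_zero) (dB.trans_ne one_ne_zero)
    (Eq.trans (by rw [← Model.map_map, ← Model.map_map, fT_map, fT_map, Model.map_act])
      (lift_act h2').symm)
  rw [chi_AB, chi_map, Model.WS_map, map_c₄, map_c₆, ← hx, ← hy, h1, h1, h2', h2'] at h3
  constructor <;> apply hι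
  · simpa using h3.1
  · simpa using h3.2

theorem exists_jac_of (h2 : HTwo) (hv : HVal) : ∃ W : WeierstrassCurve UV, JacSpec W := by
  obtain ⟨⟨x, hx⟩, ⟨y, hy⟩⟩ := exists_c46 h2 hv
  obtain ⟨W, r, s, t, hW⟩ := th_tang.kraus sT.WS hx hy
  have h4 : th W.c₄ = sT.WS.c₄ := by
    have := congrArg WeierstrassCurve.c₄ hW
    rw [map_c₄, variableChange_c₄] at this
    simpa [wsh] using this
  have h6 : th W.c₆ = sT.WS.c₆ := by
    have := congrArg WeierstrassCurve.c₆ hW
    rw [map_c₆, variableChange_c₆] at this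
    simpa [wsh] using this
  have e : ∀ {R : Type} [CommRing R] (f : Model R), (W.map (evT uF)).map (evV f) = W.map (evT f) := by
    intro R _ f
    rw [WeierstrassCurve.map_map, comp_evT, uF_map]
  have hs : uS.WS = sT.WS.map (evT uS) := by rw [← Model.WS_map, sT_map uS_std]
  refine ⟨W.map (evT uF), ?_, ?_, ?_, ?_⟩
  · rw [e, map_c₄, hs, map_c₄, ← h4, evT_th uS_std]
  · rw [e, map_c₆, hs, map_c₆, ← h6, evT_th uS_std]
  · rw [e, e, map_c₄, map_c₄]; exact (univ_act h2 h4 h6).1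
  · rw [e, e, map_c₆, map_c₆]; exact (univ_act h2 h4 h6).2

end SelAvg.FF.T5.Inv
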