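import Pool.Agent.H34P.ModA

/-! The universal rings and the specification of the universal Jacobian. -/

namespace SelAvg.FF.T5

open WeierstrassCurve Matrix

variable {R S : Type*} [CommRing R] [CommRing S]

/-- the coordinate ring of the space of models -/
abbrev UV : Type := MvPolynomial (Fin 50) ℤ

/-- evaluation at a model -/
noncomputable def evV (f : Model R) : UV →+* R :=
  MvPolynomial.eval₂Hom (Int.castRingHom R) (Model.equivVec f)

/-- the universal model -/
noncomputable def uF : Model UV := Model.equivVec.symm MvPolynomial.X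

/-- the coordinates that vanish in standard position -/
def stdIx : Finset (Fin 50) := {0, 1, 2, 3, 4, 5, 6, 7, 8, 10, 11, 14}

/-- the universal model in standard position -/
noncomputable def uS : Model UV :=
  Model.equivVec.symm fun n => if n ∈ stdIx then 0 else MvPolynomial.X n

/-- the universal ring for two matrices and a model -/
abbrev Univ : Type := MvPolynomial ((Fin 5 × Fin 5) ⊕ (Fin 5 × Fin 5) ⊕ Fin 50) ℤ

noncomputable def univA : Matrix (Fin 5) (Fin 5) Univ :=
  Matrix.of fun i j => MvPolynomial.X (Sum.inl (i, j))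

noncomputable def univB : Matrix (Fin 5) (Fin 5) Univ :=
  Matrix.of fun i j => MvPolynomial.X (Sum.inr (Sum.inl (i, j)))

noncomputable def univF : Model Univ :=
  Model.equivVec.symm fun k => MvPolynomial.X (Sum.inr (Sum.inr k))

/-- the character -/
def chi (A B : Matrix (Fin 5) (Fin 5) R) : R := A.det ^ 2 * B.det

/-- what is required of the universal Jacobian -/
structure JacSpec (W : WeierstrassCurve UV) : Prop where
  std4 : (W.map (evV uS)).c₄ = uS.WS.c₄
  std6 : (W.map (evV uS)).c₆ = uS.WS.c₆
  act4 : (W.map (evV (univF.act univA univB))).c₄ = chi univA univB ^ 4 * (W.map (evV univF)).c₄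
  act6 : (W.map (evV (univF.act univA univB))).c₆ = chi univA univB ^ 6 * (W.map (evV univF)).c₆

@[simp] lemma evV_X (f : Model R) (n : Fin 50) : evV f (MvPolynomial.X n) = Model.equivVec f n := by
  simp [evV]

lemma comp_evV (φ : R →+* S) (f : Model R) : φ.comp (evV f) = evV (f.map φ) := by
  apply MvPolynomial.ringHom_ext
  · intro r; simp [evV]
  · intro n; simp [Model.equivVec_map]

lemma uF_map (f : Model R) : uF.map (evV f) = f := by
  rw [uF, Model.equivVec_symm_map]
  simp

lemma evV_uF : evV uF = RingHom.id UV := by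
  apply MvPolynomial.ringHom_ext
  · intro r; simp [evV]
  · intro n; simp [uF]

lemma std_iff {f : Model R} : f.Std ↔ ∀ n ∈ stdIx, Model.equivVec f n = 0 := by
  constructor
  · intro h n hn
    simp only [stdIx, Finset.mem_insert, Finset.mem_singleton] at hn
    rcases hn with rfl | rfl | rfl | rfl | rfl | rfl | rfl | rfl | rfl | rfl | rfl | rfl
    exacts [h.c001, h.c002, h.c003, h.c004, h.c012, h.c013, h.c014, h.c023, h.c024, h.c101,
      h.c102, h.c112]
  · intro h
    exact ⟨h 0 (by decide), h 1 (by decide), h 2 (by decide), h 3 (by decide), h 4 (by decide),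
      h 5 (by decide), h 6 (by decide), h 7 (by decide), h 8 (by decide), h 10 (by decide),
      h 11 (by decide), h 14 (by decide)⟩

lemma uS_std : uS.Std := std_iff.2 fun n hn => by simp [uS, hn]

lemma uS_map {f : Model R} (h : f.Std) : uS.map (evV f) = f := by
  rw [uS, Model.equivVec_symm_map, Equiv.symm_apply_eq]
  funext n
  by_cases hn : n ∈ stdIx
  · simp [hn, std_iff.1 h n hn]
  · simp [hn]

lemma chi_mul (A B A' B' : Matrix (Fin 5) (Fin 5) R) :
    chi (A * A') (B * B') = chi A B * chi A' B' := by simp only [chi, det_mul]; ring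

@[simp] lemma chi_one : chi (1 : Matrix (Fin 5) (Fin 5) R) 1 = 1 := by simp [chi]

lemma chi_map (φ : R →+* S) (A B : Matrix (Fin 5) (Fin 5) R) :
    chi (A.map φ) (B.map φ) = φ (chi A B) := by
  simp only [chi, map_mul, map_pow, RingHom.map_det, RingHom.mapMatrix_apply]

namespace Model

lemma lin_map (φ : R →+* S) (f : Model R) (i j : Fin 5) :
    (f.map φ).lin i j = T3.Pt.map φ (f.lin i j) := by
  funext r; fin_cases r <;> rfl

lemma Tm_map (φ : R →+* S) (f : Model R) : (f.map φ).Tm = f.Tm.map φ := by
  ext r s; fin_cases r <;> fin_cases s <;> simp [Tm, lin]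

lemma nv_map (φ : R →+* S) (f : Model R) (i : Fin 5) :
    (f.map φ).nv i = T3.Pt.map φ (f.nv i) := by
  funext r; fin_cases r <;> rfl

lemma alp_map (φ : R →+* S) (f : Model R) (i : Fin 5) :
    (f.map φ).alp i = T3.Pt.map φ (f.alp i) := by
  funext r; simp [alp, Tm_map, nv_map, vecMul, dotProduct]

lemma qm_map (φ : R →+* S) (f : Model R) (i : Fin 5) : (f.map φ).qm i = (f.qm i).map φ := by
  ext r s; simp [qm, Tm_map, lin_map]

lemma cub_map (φ : R →+* S) (f : Model R) : (f.map φ).cub = f.cub.map φ := by
  rw [cub, cub, ofTensor_map]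
  simp [alp_map, qm_map]

lemma mk'_map (φ : R →+* S) (f : Model R) : (f.map φ).mk' = T3.Pt.map φ f.mk' := by
  funext r; fin_cases r <;> simp [mk', alp_map, crossProduct]

@[simp] lemma lam_map (φ : R →+* S) (f : Model R) : (f.map φ).lam = φ f.lam := rfl

lemma WS_map (φ : R →+* S) (f : Model R) : (f.map φ).WS = f.WS.map φ := by
  rw [WS, WS, T3.wsc_map, cub_map, T3.Model.jac_map, lam_map]

lemma Std.map {f : Model R} (h : f.Std) (φ : R →+* S) : (f.map φ).Std :=
  std_iff.2 fun n hn => by rw [equivVec_map, std_iff.1 h n hn, map_zero]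

lemma Std.of_map {f : Model R} {φ : R →+* S} (hφ : Function.Injective φ) (h : (f.map φ).Std) :
    f.Std :=
  std_iff.2 fun n hn => hφ (by rw [← equivVec_map, std_iff.1 h n hn, map_zero])

end Model

end SelAvg.FF.T5
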