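import Pool.Agent.H34P.InvD
import Pool.Agent.H34P.ParB

/-! The two inputs of the descent. -/

namespace SelAvg.FF.T5.Inv

open WeierstrassCurve Matrix

theorem hval : HVal := by
  intro L _ O f Q hQ h
  obtain ⟨A, B, hs, -⟩ := exists_std_val (O := O) (L := L) f hQ h
  exact ⟨A.1, B.1, (Matrix.isUnit_iff_isUnit_det _).1 A.isUnit,
    (Matrix.isUnit_iff_isUnit_det _).1 B.isUnit, hs⟩

/-- independence of the point, in the form of a change of variables -/
def TwoPt : Prop := ∀ (L : Type) [Field L] [CharZero L] (s : Model L)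
  (A B : Matrix (Fin 5) (Fin 5) L), s.Std → A.det ≠ 0 → B.det ≠ 0 → (s.act A B).Std →
    s.WS.Δ ≠ 0 → ∃ r u t : L, (s.act A B).WS = wsh r u t • wsc (chi A B) s.WS

theorem htwo_of (h : TwoPt) : HTwo := by
  intro L _ _ s A B hs hA hB hs' hD
  obtain ⟨r, u, t, e⟩ := h L s A B hs hA hB hs' hD
  rw [e]
  exact ⟨para_c4 .., para_c6 ..⟩

theorem exists_jac_of_two (h : TwoPt) : ∃ W : WeierstrassCurve UV, JacSpec W :=
  exists_jac_of (htwo_of h) hval

end SelAvg.FF.T5.Inv
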