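import Pool.Agent.H34P.Lang5B
import Pool.Agent.H34P.LangW5
import Pool.Agent.H34P.ParB
import Pool.Agent.H34P.DifC

/-!
A degree five model whose discriminant is not divisible by the square of the uniformiser has a good
point over the finite residue field.
-/

namespace SelAvg.FF.T5

open WeierstrassCurve Matrix Polynomial
open T3 (lgFr lg_fixed lg_fixed_finite lg_comp)

lemma l5c_std {K : Type*} [Field K] (f : Model K) (Q : Pt K) (hQ : f.On Q) :
    ∃ g : G K, g.pt Pt.std = Q ∧ (g • f).Std := by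
  obtain ⟨A, B, e, hs⟩ := exists_std_field f hQ.prim hQ.eq
  exact ⟨⟨A, B⟩, (G.pt_std _).trans e, hs⟩

section Frob

variable {κ K : Type*} [Field κ] [Fintype κ] [Field K] [Algebra κ K]

lemma l5c_map_fr (f : Model κ) :
    (f.map (algebraMap κ K)).map (lgFr κ K) = f.map (algebraMap κ K) := by
  rw [Model.map_map, lg_comp]

/-- a point proportional to its conjugate comes from a rational point -/
lemma l5c_rat {f : Model κ} {Q : Pt K} (hQ : (f.map (algebraMap κ K)).On Q) {t : K}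
    (h : Q.map (lgFr κ K) = t • Q) : ∃ Q₀, f.On Q₀ := by
  obtain ⟨i, hi⟩ : ∃ i, Q i ≠ 0 := Function.ne_iff.1 hQ.prim
  have hi' : lgFr κ K (Q i) ≠ 0 := (_root_.map_ne_zero _).2 hi
  have ht : ∀ j, lgFr κ K (Q j) = t * Q j := fun j => congrFun h j
  choose Q₀ h₀ using fun j => lg_fixed (κ := κ) (x := (Q i)⁻¹ * Q j) (by
    rw [map_mul, map_inv₀]
    field_simp
    rw [ht, ht]
    ring)
  have e : Pt.map (algebraMap κ K) Q₀ = (Q i)⁻¹ • Q := funext fun j => h₀ j
  refine ⟨Q₀, fun e0 => ?_, fun a b c d => (algebraMap κ K).injective ?_⟩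
  · have := h₀ i
    rw [e0, inv_mul_cancel₀ hi] at this
    simp at this
  · rw [← pf_map, ← Model.ev_map, e, Model.rk2_smul hQ.eq, map_zero]

variable [IsAlgClosed K]

/-- the theorem of Lang for nonsingular models -/
theorem l5c_on_of_ne {f : Model κ} (hΔ : (f.map (algebraMap κ K)).jac.Δ ≠ 0) :
    ∃ Q₀, f.On Q₀ := by
  classical
  set φ := lgFr κ K
  set z : Obj K := ⟨f.map (algebraMap κ K), 1⟩ with hzd
  set W := (f.map (algebraMap κ K)).jac
  have hz : z.Over W := (one_smul _ _).symm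
  have hf : z.f.map φ = z.f := l5c_map_fr f
  have hzφ : z.map φ = z := Obj.ext hf (VariableChange.mapHom φ).map_one
  have hW : W = W.map φ := by rw [← Model.jac_map, l5c_map_fr]
  have on : ∀ {Q}, z.f.On Q → z.f.On (Q.map φ) := fun {Q} h => by
    rw [← hf]; exact (Model.on_map φ _ Q).2 h
  have hD : ∀ {Q Q'}, z.f.On Q → z.f.On Q' →
      D W z (Q.map φ) (Q'.map φ) = pmap φ hW (D W z Q Q') := fun {Q Q'} h h' => by
    apply toRaw_injective
    rw [toRaw_pmap, ← toRaw_D_map φ hΔ hz h h', hzφ]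
    have : ∀ W', W = W' → toRaw (D W z (Q.map φ) (Q'.map φ)) =
      toRaw (D W' z (Q.map φ) (Q'.map φ)) := by rintro _ rfl; rfl
    exact this _ hW
  have hP : ∀ {Q}, z.f.On Q → piP W z (Q.map φ) = pmap φ hW (piP W z Q) := fun {Q} h => by
    apply toRaw_injective
    rw [toRaw_pmap, ← toRaw_piP_map φ hΔ hz h, hzφ]
    have : ∀ W', W = W' → toRaw (piP W z (Q.map φ)) = toRaw (piP W' z (Q.map φ)) := by
      rintro _ rfl; rfl
    exact this _ hW
  obtain ⟨Q, q0, q1⟩ := exists_point z.f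
  have hQ : z.f.On Q := ⟨q0, q1⟩
  obtain ⟨S, hS⟩ := H5T.lang_five hΔ φ lg_fixed_finite hW (ξ := D W z Q (Q.map φ))
    (R := -piP W z Q) (by rw [five_smul_D hΔ hz hQ (on hQ), hP hQ, map_neg]; abel)
  obtain ⟨Q', hQ', e⟩ := D_surjective hΔ hz hQ (-S)
  have h0 : D W z Q' (Q'.map φ) = 0 := by
    rw [← D_add hΔ hz hQ' hQ (on hQ'), ← D_add hΔ hz hQ (on hQ) (on hQ'), D_symm hΔ hz hQ hQ',
      hD hQ hQ', hS, e, map_neg]
    abel
  obtain ⟨t, -, ht⟩ := (D_eq_zero_iff hΔ hz hQ' (on hQ')).1 h0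
  exact l5c_rat hQ' ht

/-- the singular point of a model with a simple zero of the discriminant is rational -/
theorem l5c_on_of_eq {f : Model κ} (hΔ : (f.map (algebraMap κ K)).jac.Δ = 0)
    (h : ¬DSing (f.map (algebraMap κ K))) : ∃ Q₀, f.On Q₀ := by
  have hf := l5c_map_fr (K := K) f
  have key : ∃ (Q : Pt K) (t : K), (f.map (algebraMap κ K)).On Q ∧ Q.map (lgFr κ K) = t • Q := by
    generalize f.map (algebraMap κ K) = s at hΔ h hf
    have hc : s.jac.c₄ ≠ 0 := fun e => h (DSing.of_c4 e hΔ)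
    obtain ⟨P, p0, p1⟩ := exists_point s
    obtain ⟨-, g, -, hs, hl, hT⟩ := Model.exists_sm hc (l5c_std s) ⟨p0, p1⟩
    have h' : ¬DSing (g • s) := mt (DSing.of_smul g) h
    have hχ : chi g.a g.e ≠ 0 := by rw [← G.det_val]; exact g.det.ne_zero
    obtain ⟨Q, hQ, hu⟩ := Model.exists_unique_crit (f := g • s)
      (by rw [G.smul_def, Model.Δ_act, hΔ, mul_zero])
      (by rw [G.smul_def, Model.c₄_act]; exact mul_ne_zero (pow_ne_zero _ hχ) hc)
      (l5c_std _) hs hl hT (l5b_pol hs hl hT h')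
      fun M hM ha h2 h1 hb => h' (DSing.of_line hs hl hT hM ha h2 h1 hb)
    have c1 := (Model.crit_pt g s Q).2 hQ
    have c2 := c1.map (lgFr κ K)
    rw [hf, ← G.pt_inv_pt g (Pt.map (lgFr κ K) (g.pt Q)), Model.crit_pt] at c2
    obtain ⟨t, ht⟩ := hu _ c2
    refine ⟨g.pt Q, t, c1.on, ?_⟩
    rw [← G.pt_inv_pt g (Pt.map (lgFr κ K) (g.pt Q)), ht]
    exact G.pt_sc g t Q
  obtain ⟨Q, t, hQ, ht⟩ := key
  exact l5c_rat hQ ht

end Frob

variable {L κ : Type*} [Field L] [Field κ] {V : LocalField L} {red : V.O →+* κ}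

theorem exists_good_point [Finite κ] (hred : V.IsRed red 1) {p : ℕ} (hp : p.Prime)
    (hp0 : (p : L) = 0) {f : Model V.O} (hΔ : ¬V.unif ^ 2 ∣ f.jac.Δ) :
    ∃ Q, (f.map red).Good Q := by
  have := Fintype.ofFinite κ
  have h1 : ¬DSing (f.map red) := fun h =>
    hΔ (sq_dvd_of_dsing hred hp hp0 f (RingHom.id κ) h)
  have h2 : ¬DSing ((f.map red).map (algebraMap κ (AlgebraicClosure κ))) := fun h =>
    hΔ (sq_dvd_of_dsing hred hp hp0 f _ h)
  generalize f.map red = s at h1 h2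
  obtain ⟨Q, hQ⟩ : ∃ Q, s.On Q := by
    by_cases h0 : (s.map (algebraMap κ (AlgebraicClosure κ))).jac.Δ = 0
    · exact l5c_on_of_eq h0 h2
    · exact l5c_on_of_ne h0
  by_cases h0 : s.jac.Δ = 0
  · obtain ⟨Q', hQ'⟩ := Model.exists_sm (fun e => h1 (DSing.of_c4 e h0)) (l5c_std s) hQ
    exact ⟨Q', l5b_good h1 hQ'⟩
  · exact ⟨Q, Model.good_of_on h0 hQ⟩

end SelAvg.FF.T5
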