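import Pool.Agent.H34P.Mod
import Pool.Agent.H34P.ParA
import Pool.Agent.H5T.Lang

/-!
First order deformations of degree five models: singular points of the discriminant.
-/

namespace SelAvg.FF.T5

open WeierstrassCurve Matrix

variable {K : Type*} [Field K]

/-- the constant term of a dual number -/
noncomputable abbrev dnR (K : Type*) [Field K] : DualNumber K →+* K :=
  (TrivSqZeroExt.fstHom K K K : DualNumber K →+* K)

/-- the constants among the dual numbers -/
noncomputable abbrev dnI (K : Type*) [Field K] : K →+* DualNumber K := algebraMap K (DualNumber K)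

lemma l5d_RI (x : K) : dnR K (dnI K x) = x := rfl

lemma l5d_dvd {x : DualNumber K} (h : dnR K x = 0) : (DualNumber.eps : DualNumber K) ∣ x := by
  refine ⟨dnI K x.snd, ?_⟩
  have h' : x.fst = 0 := h
  ext <;> simp [h', TrivSqZeroExt.algebraMap_eq_inl]

lemma l5d_sq : (DualNumber.eps : DualNumber K) ^ 2 = 0 := by rw [sq, DualNumber.eps_mul_eps]

lemma l5d_mul {x y : DualNumber K} (hx : dnR K x = 0) (hy : dnR K y = 0) : x * y = 0 := by
  obtain ⟨a, rfl⟩ := l5d_dvd hx
  obtain ⟨b, rfl⟩ := l5d_dvd hy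
  linear_combination a * b * (l5d_sq (K := K))

lemma l5d_unit {x : DualNumber K} (h : dnR K x ≠ 0) : IsUnit x :=
  TrivSqZeroExt.isUnit_iff_isUnit_fst.2 (Ne.isUnit h)

lemma l5d_zero {x : DualNumber K} (h : (DualNumber.eps : DualNumber K) ^ 2 ∣ x) : x = 0 := by
  rwa [l5d_sq, zero_dvd_iff] at h

lemma l5d_map {m : Type*} (M : Matrix m m K) : (M.map (dnI K)).map (dnR K) = M := rfl

/-- a cusp is a singular point of the discriminant -/
lemma l5d_cusp {W : WeierstrassCurve (DualNumber K)} (h4 : (W.map (dnR K)).c₄ = 0)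
    (hΔ : (W.map (dnR K)).Δ = 0) : W.Δ = 0 := by
  have nat : ∀ n : ℕ, (n : K) = 0 → (n : DualNumber K) = 0 := fun n h => by
    rw [← map_natCast (dnI K), h, map_zero]
  by_cases h2 : (2 : K) = 0
  · have e2 : (2 : DualNumber K) = 0 := by exact_mod_cast nat 2 (by exact_mod_cast h2)
    have a1 : dnR K W.a₁ = 0 := by
      refine pow_eq_zero_iff (n := 4) (by norm_num) |>.1 ?_
      simp only [c₄, b₂, b₄, map_a₁, map_a₂, map_a₃, map_a₄] at h4
      linear_combination h4 - (4 * dnR K W.a₁ ^ 2 * dnR K W.a₂ + 8 * dnR K W.a₂ ^ 2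
        - 24 * dnR K W.a₄ - 12 * dnR K W.a₁ * dnR K W.a₃) * h2
    have a3 : dnR K W.a₃ = 0 := by
      refine pow_eq_zero_iff (n := 4) (by norm_num) |>.1 ?_
      simp only [Δ, b₂, b₄, b₆, b₈, map_a₁, map_a₂, map_a₃, map_a₄, map_a₆, a1] at hΔ
      have h4' : (4 : K) = 0 := by linear_combination 2 * h2
      have h8 : (8 : K) = 0 := by linear_combination 4 * h2
      simp only [h2, h4', h8] at hΔ
      linear_combination -hΔ - 13 * dnR K W.a₃ ^ 4 * h2
    have e4 : (4 : DualNumber K) = 0 := by linear_combination 2 * e2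
    have b2 : W.b₂ = 0 := by rw [b₂, e4, sq, l5d_mul a1 a1]; ring
    have b4 : W.b₄ = 0 := by rw [b₄, e2, l5d_mul a1 a3]; ring
    have b6 : W.b₆ = 0 := by rw [b₆, e4, sq, l5d_mul a3 a3]; ring
    rw [Δ, b2, b4, b6]; ring
  by_cases h3 : (3 : K) = 0
  · have e3 : (3 : DualNumber K) = 0 := by exact_mod_cast nat 3 (by exact_mod_cast h3)
    have b2 : dnR K W.b₂ = 0 := by
      refine pow_eq_zero_iff (n := 2) (by norm_num) |>.1 ?_
      simp only [c₄, map_b₂, map_b₄] at h4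
      linear_combination h4 + 8 * dnR K W.b₄ * h3
    have b4 : dnR K W.b₄ = 0 := by
      refine pow_eq_zero_iff (n := 3) (by norm_num) |>.1 ?_
      simp only [Δ, map_b₂, map_b₄, map_b₆, map_b₈, b2] at hΔ
      linear_combination hΔ + (3 * dnR K W.b₄ ^ 3 + 9 * dnR K W.b₆ ^ 2) * h3
    rw [Δ]
    linear_combination -W.b₈ * l5d_mul b2 b2 - 8 * W.b₄ * l5d_mul b4 b4
      + (3 * W.b₂ * W.b₄ * W.b₆ - 9 * W.b₆ ^ 2) * e3
  have c6 : dnR K W.c₆ = 0 := by
    refine pow_eq_zero_iff (n := 2) (by norm_num) |>.1 ?_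
    have := (W.map (dnR K)).c_relation
    rw [h4, hΔ, map_c₆] at this
    linear_combination this
  rw [map_c₄] at h4
  have hu : IsUnit (1728 : DualNumber K) := l5d_unit (by
    rw [map_ofNat, show (1728 : K) = 2 ^ 6 * 3 ^ 3 by norm_num]
    exact mul_ne_zero (pow_ne_zero _ h2) (pow_ne_zero _ h3))
  refine hu.mul_right_eq_zero.1 ?_
  linear_combination W.c_relation + W.c₄ * l5d_mul h4 h4 - l5d_mul c6 c6

/-- the discriminant vanishes to second order -/
def DSing (s : Model K) : Prop := ∀ h : Model (DualNumber K), h.map (dnR K) = s → h.jac.Δ = 0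

lemma l5d_disc {A B : Matrix (Fin 5) (Fin 5) (DualNumber K)} {h : Model (DualNumber K)}
    (hc : chi (A.map (dnR K)) (B.map (dnR K)) ≠ 0) (e : (h.act A B).jac.Δ = 0) : h.jac.Δ = 0 := by
  rw [chi_map] at hc
  rwa [Model.Δ_act, ((l5d_unit hc).pow 12).mul_right_eq_zero] at e

lemma DSing.of_act {s : Model K} {A B : Matrix (Fin 5) (Fin 5) K} (hA : A.det ≠ 0) (hB : B.det ≠ 0)
    (h : DSing (s.act A B)) : DSing s := fun f hf =>
  l5d_disc (A := A.map (dnI K)) (B := B.map (dnI K)) (mul_ne_zero (pow_ne_zero _ hA) hB)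
    (h _ (by rw [Model.map_act, hf]; rfl))

lemma DSing.of_smul {s : Model K} (g : G K) (h : DSing (g • s)) : DSing s :=
  DSing.of_act g.A.det_ne_zero g.M.det_ne_zero h

lemma DSing.of_c4 {s : Model K} (h4 : s.jac.c₄ = 0) (hΔ : s.jac.Δ = 0) : DSing s := fun f hf =>
  l5d_cusp (by rwa [← Model.jac_map, hf]) (by rwa [← Model.jac_map, hf])

section Ring

variable {R : Type*} [CommRing R]

/-- adds a combination of the last three rows to the row `k` -/
def l5row (k : Fin 5) (y : Fin 3 → R) : Matrix (Fin 5) (Fin 5) R :=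
  1 + of fun i j => if i = k then (![0, 0, y 0, y 1, y 2] : Fin 5 → R) j else 0

/-- adds combinations of the last two rows to the first three -/
def l5col (p q : Fin 3 → R) : Matrix (Fin 5) (Fin 5) R :=
  !![1, 0, 0, p 0, q 0; 0, 1, 0, p 1, q 1; 0, 0, 1, p 2, q 2; 0, 0, 0, 1, 0; 0, 0, 0, 0, 1]

lemma l5row_c (k : Fin 5) (y : Fin 3 → R) (h : Model R) (l i j : Fin 5) :
    (h.act 1 (l5row k y)).c l i j = h.c l i j + if l = k then h.lin i j ⬝ᵥ y else 0 := by
  rw [Model.act_c, transpose_one, Matrix.one_mul, Matrix.mul_one, Model.ev_apply]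
  simp only [l5row, Matrix.add_apply, of_apply, add_mul, Finset.sum_add_distrib, one_apply, ite_mul,
    one_mul, zero_mul, Finset.sum_ite_eq, Finset.mem_univ, if_true]
  congr 1
  split_ifs
  · simp [Fin.sum_univ_five, Model.lin, dotProduct, Fin.sum_univ_three]; ring
  · simp

lemma l5col_c (p q : Fin 3 → R) (h : Model R) (l : Fin 5) :
    (h.act (l5col p q) 1).c l = l5col p q * h.c l * (l5col p q)ᵀ := by
  have e : (1 : Matrix (Fin 5) (Fin 5) R) l = Pi.single l 1 := by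
    funext j; simp [one_apply, Pi.single_apply, eq_comm]
  rw [Model.act_c, e, Model.ev_single]

/-- the upper left block of `c k` as a vector -/
def Model.l5blk (f : Model R) (k : Fin 5) : Fin 3 → R := ![f.c k 1 2, -f.c k 0 2, f.c k 0 1]

lemma exists_l5row (h : Model R) (hT : IsUnit h.Tm.det) (k : Fin 5) :
    ∃ y : Fin 3 → R, y = -(h.Tm⁻¹ *ᵥ h.l5blk k) ∧ (h.act 1 (l5row k y)).c k 0 1 = 0 ∧
      (h.act 1 (l5row k y)).c k 0 2 = 0 ∧ (h.act 1 (l5row k y)).c k 1 2 = 0 := by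
  refine ⟨_, rfl, ?_⟩
  have e : h.Tm *ᵥ (-(h.Tm⁻¹ *ᵥ h.l5blk k)) = -h.l5blk k := by
    rw [mulVec_neg, mulVec_mulVec, mul_nonsing_inv _ hT, one_mulVec]
  generalize -(h.Tm⁻¹ *ᵥ h.l5blk k) = y at e ⊢
  have e0 : h.lin 1 2 ⬝ᵥ y = -h.c k 1 2 := congrFun e 0
  have e1 : (-h.lin 0 2) ⬝ᵥ y = - -h.c k 0 2 := congrFun e 1
  have e2 : h.lin 0 1 ⬝ᵥ y = -h.c k 0 1 := congrFun e 2
  rw [neg_dotProduct, neg_inj] at e1
  simp only [l5row_c, if_true, e0, e1, e2, add_neg_cancel, and_self]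

end Ring

lemma l5row_red (k : Fin 5) {y : Fin 3 → DualNumber K} (hy : ∀ r, dnR K (y r) = 0) :
    (l5row k y).map (dnR K) = 1 := by
  ext i j
  have : dnR K ((![0, 0, y 0, y 1, y 2] : Fin 5 → DualNumber K) j) = 0 := by
    fin_cases j <;> simp only [Fin.reduceFinMk, cons_val, map_zero, hy, Fin.zero_eta, Fin.mk_one]
  simp only [l5row, map_apply, Matrix.add_apply, of_apply, map_add, one_apply, apply_ite (dnR K), this,
    map_zero, map_one, ite_self, add_zero]

lemma l5col_red {p q : Fin 3 → DualNumber K} (hp : ∀ r, dnR K (p r) = 0)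
    (hq : ∀ r, dnR K (q r) = 0) : (l5col p q).map (dnR K) = 1 := by
  ext i j
  rw [map_apply]
  fin_cases i <;> fin_cases j <;>
    simp only [l5col, of_apply, Fin.reduceFinMk, cons_val, Fin.zero_eta, Fin.mk_one, map_zero,
      map_one, hp, hq, cons_val', cons_val_fin_one] <;> simp

lemma l5d_inv_red {h : Model (DualNumber K)} {k : Fin 5} (h1 : dnR K (h.c k 0 1) = 0)
    (h2 : dnR K (h.c k 0 2) = 0) (h3 : dnR K (h.c k 1 2) = 0) (r : Fin 3) :
    dnR K ((-(h.Tm⁻¹ *ᵥ h.l5blk k)) r) = 0 := by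
  simp only [Pi.neg_apply, mulVec, dotProduct, Fin.sum_univ_three, Model.l5blk, cons_val, map_neg,
    map_add, map_mul, h1, h2, h3, neg_zero, mul_zero, add_zero]

/-- At a smooth point it is enough to consider deformations in standard position. -/
theorem DSing.of_std {s : Model K} (hs : s.Std) (hl : s.lam ≠ 0) (hT : s.Tm.det ≠ 0)
    (H : ∀ h : Model (DualNumber K), h.Std → h.map (dnR K) = s → h.cub.jac.Δ = 0) : DSing s := by
  have one : (1 : Matrix (Fin 5) (Fin 5) (DualNumber K)).map (dnR K) = 1 :=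
    Matrix.map_one _ (map_zero _) (map_one _)
  have step : ∀ {A B : Matrix (Fin 5) (Fin 5) (DualNumber K)} {h : Model (DualNumber K)},
      A.map (dnR K) = 1 → B.map (dnR K) = 1 → h.map (dnR K) = s →
      (h.act A B).map (dnR K) = s ∧ ((h.act A B).jac.Δ = 0 → h.jac.Δ = 0) :=
    fun {A B h} hA hB e => ⟨by rw [Model.map_act, hA, hB, e, Model.act_one],
      l5d_disc (by rw [hA, hB, chi_one]; exact one_ne_zero)⟩
  have red : ∀ {h : Model (DualNumber K)}, h.map (dnR K) = s → ∀ k i j,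
      dnR K (h.c k i j) = s.c k i j := fun {h} e k i j => by rw [← e]; rfl
  have unitT : ∀ {h : Model (DualNumber K)}, h.map (dnR K) = s → IsUnit h.Tm.det :=
    fun {h} e => l5d_unit (by rwa [RingHom.map_det, RingHom.mapMatrix_apply, ← Model.Tm_map, e])
  intro h e
  obtain ⟨y, hy, a1, a2, a3⟩ := exists_l5row h (unitT e) 0
  obtain ⟨e1, d1⟩ := step one (l5row_red 0 (y := y) fun r => by
    rw [hy]
    exact l5d_inv_red ((red e ..).trans hs.c001) ((red e ..).trans hs.c002)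
      ((red e ..).trans hs.c012) r) e
  generalize h.act 1 (l5row 0 y) = h1 at a1 a2 a3 e1 d1
  obtain ⟨u, hu⟩ := (l5d_unit (x := h1.c 0 3 4) (by rw [red e1]; exact hl)).exists_right_inv
  have z03 := (red e1 ..).trans hs.c003
  have z04 := (red e1 ..).trans hs.c004
  have z13 := (red e1 ..).trans hs.c013
  have z14 := (red e1 ..).trans hs.c014
  have z23 := (red e1 ..).trans hs.c023
  have z24 := (red e1 ..).trans hs.c024
  obtain ⟨e2, d2⟩ := step (l5col_red
    (p := ![-(h1.c 0 0 4 * u), -(h1.c 0 1 4 * u), -(h1.c 0 2 4 * u)])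
    (q := ![h1.c 0 0 3 * u, h1.c 0 1 3 * u, h1.c 0 2 3 * u])
    (fun r => by fin_cases r <;> simp only [Fin.reduceFinMk, cons_val, Fin.zero_eta, Fin.mk_one,
      map_neg, map_mul, z04, z14, z24, zero_mul, neg_zero])
    (fun r => by fin_cases r <;> simp only [Fin.reduceFinMk, cons_val, Fin.zero_eta, Fin.mk_one,
      map_mul, z03, z13, z23, zero_mul])) one e1
  have b := l5col_c ![-(h1.c 0 0 4 * u), -(h1.c 0 1 4 * u), -(h1.c 0 2 4 * u)]
    ![h1.c 0 0 3 * u, h1.c 0 1 3 * u, h1.c 0 2 3 * u] h1 0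
  generalize h1.act (l5col _ _) 1 = h2 at e2 d2 b
  have al := h1.alt 0
  have dg := h1.diag 0
  have b' : h2.c 0 0 1 = 0 ∧ h2.c 0 0 2 = 0 ∧ h2.c 0 1 2 = 0 ∧ h2.c 0 0 3 = 0 ∧ h2.c 0 0 4 = 0 ∧
      h2.c 0 1 3 = 0 ∧ h2.c 0 1 4 = 0 ∧ h2.c 0 2 3 = 0 ∧ h2.c 0 2 4 = 0 := by
    rw [b]
    simp only [l5col, mul_apply, transpose_apply, Fin.sum_univ_five, of_apply, cons_val,
      cons_val', cons_val_fin_one, dg, a1, a2, a3, al 0 1, al 0 2, al 1 2, al 0 3, al 0 4, al 1 3,
      al 1 4, al 2 3, al 2 4, al 3 4]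
    refine ⟨?_, ?_, ?_, ?_, ?_, ?_, ?_, ?_, ?_⟩
    · linear_combination (u * h1.c 0 3 4 * u - 2 * u) * (l5d_mul z03 z14 - l5d_mul z04 z13)
    · linear_combination (u * h1.c 0 3 4 * u - 2 * u) * (l5d_mul z03 z24 - l5d_mul z04 z23)
    · linear_combination (u * h1.c 0 3 4 * u - 2 * u) * (l5d_mul z13 z24 - l5d_mul z14 z23)
    · linear_combination -h1.c 0 0 3 * hu
    · linear_combination -h1.c 0 0 4 * hu
    · linear_combination -h1.c 0 1 3 * hu
    · linear_combination -h1.c 0 1 4 * hu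
    · linear_combination -h1.c 0 2 3 * hu
    · linear_combination -h1.c 0 2 4 * hu
  obtain ⟨b1, b2, b3, b4, b5, b6, b7, b8, b9⟩ := b'
  obtain ⟨z, hz, c1, c2, c3⟩ := exists_l5row h2 (unitT e2) 1
  obtain ⟨e3, d3⟩ := step one (l5row_red 1 (y := z) fun r => by
    rw [hz]
    exact l5d_inv_red ((red e2 ..).trans hs.c101) ((red e2 ..).trans hs.c102)
      ((red e2 ..).trans hs.c112) r) e2
  have k0 : ∀ i j, (h2.act 1 (l5row 1 z)).c 0 i j = h2.c 0 i j := fun i j => by
    rw [l5row_c, if_neg (by decide), add_zero]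
  have st : (h2.act 1 (l5row 1 z)).Std := ⟨(k0 ..).trans b1, (k0 ..).trans b2, (k0 ..).trans b4,
    (k0 ..).trans b5, (k0 ..).trans b3, (k0 ..).trans b6, (k0 ..).trans b7, (k0 ..).trans b8,
    (k0 ..).trans b9, c1, c2, c3⟩
  exact d1 (d2 (d3 (by rw [Model.Δ_std st, H _ st e3, mul_zero])))

end SelAvg.FF.T5
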