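import Pool.Agent.H34P.Mod
import Pool.Agent.H5T.LangA

/-!
Points of a degree five model in standard position and points of the projected cubic; smooth and
critical points.
-/

namespace SelAvg.FF.T5

open WeierstrassCurve Matrix

section Ring

variable {R : Type*} [CommRing R]

namespace Model

/-- the value of the quadratic form `qm i` -/
def l5q (f : Model R) (i : Fin 5) (P : T3.Pt R) : R :=
  ∑ r, (f.Tm *ᵥ P) r * (![f.lin 0 i, f.lin 1 i, f.lin 2 i] r ⬝ᵥ P)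

lemma l5_F (f : Model R) (P : T3.Pt R) :
    f.cub.F P = (f.alp 3 ⬝ᵥ P) * f.l5q 4 P - (f.alp 4 ⬝ᵥ P) * f.l5q 3 P := by
  rw [cub, F_ofTensor]
  simp only [l5q, qm, of_apply, mulVec, dotProduct, Fin.sum_univ_three, cons_val]
  ring

lemma l5q_smul (f : Model R) (i : Fin 5) (t : R) (P : T3.Pt R) :
    f.l5q i (t • P) = t ^ 2 * f.l5q i P := by
  simp only [l5q, mulVec, dotProduct, Fin.sum_univ_three, cons_val, Pi.smul_apply, smul_eq_mul]
  ring

lemma l5_pol (f : Model R) (P w : T3.Pt R) : ∃ c3 c4 : R, f.cub.pol P w =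
    (f.alp 3 ⬝ᵥ w) * f.l5q 4 P - (f.alp 4 ⬝ᵥ w) * f.l5q 3 P + (f.alp 3 ⬝ᵥ P) * c4
      - (f.alp 4 ⬝ᵥ P) * c3 := by
  refine ⟨P ⬝ᵥ f.qm 3 *ᵥ w + w ⬝ᵥ f.qm 3 *ᵥ P, P ⬝ᵥ f.qm 4 *ᵥ w + w ⬝ᵥ f.qm 4 *ᵥ P, ?_⟩
  have e : ∀ i, f.l5q i P = P ⬝ᵥ f.qm i *ᵥ P := fun i => by
    simp only [l5q, qm, of_apply, mulVec, dotProduct, Fin.sum_univ_three, cons_val]
    ring
  rw [e, e, cub]
  generalize f.alp 3 = a3
  generalize f.alp 4 = a4
  generalize f.qm 3 = q3
  generalize f.qm 4 = q4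
  simp only [ofTensor, T3.Model.pol, T3.Model.Fx, T3.Model.Fy, T3.Model.Fz, mulVec, dotProduct,
    Fin.sum_univ_three]
  ring

lemma l5_alp_ker (f : Model R) {n : T3.Pt R} (h : f.Tm *ᵥ n = 0) (i : Fin 5) :
    f.alp i ⬝ᵥ n = 0 := by
  rw [alp, ← dotProduct_mulVec, h, dotProduct_zero]

lemma l5q_ker (f : Model R) {n : T3.Pt R} (h : f.Tm *ᵥ n = 0) (i : Fin 5) : f.l5q i n = 0 := by
  simp [l5q, h]

lemma l5_key {u w T : T3.Pt R} (e3 : T ⬝ᵥ u = 0) (e4 : T ⬝ᵥ w = 0) (r s : Fin 3) :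
    crossProduct u w r * T s = crossProduct u w s * T r := by
  simp only [dotProduct, Fin.sum_univ_three] at e3 e4
  fin_cases r <;> fin_cases s <;> simp [cross_apply] <;>
    first
    | linear_combination u 2 * e4 - w 2 * e3
    | linear_combination w 2 * e3 - u 2 * e4
    | linear_combination u 1 * e4 - w 1 * e3
    | linear_combination w 1 * e3 - u 1 * e4
    | linear_combination u 0 * e4 - w 0 * e3
    | linear_combination w 0 * e3 - u 0 * e4

lemma l5_mk_zero (f : Model R) (h : crossProduct (f.nv 3) (f.nv 4) = 0) : f.mk' = 0 := by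
  have h0 := congrFun h 0
  have h1 := congrFun h 1
  have h2 := congrFun h 2
  simp only [cross_apply, cons_val, Pi.zero_apply] at h0 h1 h2
  rw [mk', alp, alp]
  generalize f.Tm = T
  funext r
  fin_cases r <;> simp [cross_apply, vecMul, dotProduct, Fin.sum_univ_three]
  · linear_combination (T 1 1 * T 2 2 - T 1 2 * T 2 1) * h0 + (T 2 1 * T 0 2 - T 2 2 * T 0 1) * h1
      + (T 0 1 * T 1 2 - T 0 2 * T 1 1) * h2
  · linear_combination (T 1 2 * T 2 0 - T 1 0 * T 2 2) * h0 + (T 2 2 * T 0 0 - T 2 0 * T 0 2) * h1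
      + (T 0 2 * T 1 0 - T 0 0 * T 1 2) * h2
  · linear_combination (T 1 0 * T 2 1 - T 1 1 * T 2 0) * h0 + (T 2 0 * T 0 1 - T 2 1 * T 0 0) * h1
      + (T 0 0 * T 1 1 - T 0 1 * T 1 0) * h2

lemma rk2_pt (g : G R) (f : Model R) (Q : Pt R) :
    Rk2 ((g • f).ev Q) ↔ Rk2 (f.ev (g.pt Q)) := by
  refine ⟨fun h => ?_, fun h => by rw [G.ev_pt]; exact h.conj _⟩
  have := G.ev_pt g⁻¹ (g • f) (g.pt Q)
  rw [inv_smul_smul, G.inv_pt_pt] at this
  rw [this]
  exact h.conj _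

lemma rk2_map {S : Type*} [CommRing S] (φ : R →+* S) {f : Model R} {Q : Pt R}
    (h : Rk2 (f.ev Q)) : Rk2 ((f.map φ).ev (Q.map φ)) := fun i j k l => by
  rw [ev_map, pf_map, h, map_zero]

lemma rk2_smul {f : Model R} {Q : Pt R} (h : Rk2 (f.ev Q)) (t : R) : Rk2 (f.ev (t • Q)) :=
  fun i j k l => by rw [ev_smul, pf_smul, h, mul_zero]

/-- the column `i` of the upper three rows -/
def l5u (f : Model R) (Q : Pt R) (i : Fin 5) : T3.Pt R := ![f.ev Q 0 i, f.ev Q 1 i, f.ev Q 2 i]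

lemma l5_T {f : Model R} (h : f.Std) (Q : Pt R) :
    f.Tm *ᵥ Q.tail = ![f.ev Q 1 2, -f.ev Q 0 2, f.ev Q 0 1] := by
  funext r
  fin_cases r <;> simp [Tm, lin, ev_apply, mulVec, dotProduct, Fin.sum_univ_three,
    Fin.sum_univ_five, h.c001, h.c002, h.c012, h.c101, h.c102, h.c112] <;> ring

lemma l5_rk2 {f : Model R} (h : f.Std) (Q : Pt R) : Rk2 (f.ev Q) ↔
    (f.Tm *ᵥ Q.tail) ⬝ᵥ f.l5u Q 3 = 0 ∧ (f.Tm *ᵥ Q.tail) ⬝ᵥ f.l5u Q 4 = 0 ∧
      f.ev Q 3 4 • (f.Tm *ᵥ Q.tail) = crossProduct (f.l5u Q 3) (f.l5u Q 4) := by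
  rw [rk2_iff (f.ev_diag Q) (f.ev_alt Q), l5_T h]
  simp only [pf, l5u, dotProduct, Fin.sum_univ_three, cons_val, cross_apply, funext_iff,
    Fin.forall_fin_succ, Pi.smul_apply, smul_eq_mul, cons_val_zero, cons_val_succ,
    IsEmpty.forall_iff, and_true]
  constructor
  · rintro ⟨h1, h2, h3, h4, h5⟩
    exact ⟨by linear_combination h1, by linear_combination h2, by linear_combination h5,
      by linear_combination -h4, by linear_combination h3⟩
  · rintro ⟨h1, h2, h3, h4, h5⟩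
    exact ⟨by linear_combination h1, by linear_combination h2, by linear_combination h5,
      by linear_combination -h4, by linear_combination h3⟩

lemma l5_u {f : Model R} (h : f.Std) (Q : Pt R) {i : Fin 5} (hi : i = 3 ∨ i = 4) :
    f.l5u Q i = Q 1 • f.nv i + fun r => ![f.lin 0 i, f.lin 1 i, f.lin 2 i] r ⬝ᵥ Q.tail := by
  funext r
  rcases hi with rfl | rfl <;> fin_cases r <;>
    simp [l5u, nv, lin, ev_apply, dotProduct, Fin.sum_univ_three, Fin.sum_univ_five, h.c003, h.c004,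
      h.c013, h.c014, h.c023, h.c024] <;> ring

lemma l5_E {f : Model R} (h : f.Std) (Q : Pt R) {i : Fin 5} (hi : i = 3 ∨ i = 4) :
    (f.Tm *ᵥ Q.tail) ⬝ᵥ f.l5u Q i = Q 1 * (f.alp i ⬝ᵥ Q.tail) + f.l5q i Q.tail := by
  rw [l5_u h Q hi, dotProduct_add, dotProduct_smul, alp, ← dotProduct_mulVec, dotProduct_comm]
  rfl

lemma l5_m (f : Model R) (Q : Pt R) :
    f.ev Q 3 4 = Q 0 * f.lam + Q 1 * f.c 1 3 4 + f.lin 3 4 ⬝ᵥ Q.tail := by
  simp [lam, lin, ev_apply, dotProduct, Fin.sum_univ_three, Fin.sum_univ_five]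
  ring

/-- the projection of a point lies on the cubic -/
theorem tail_on {f : Model R} (h : f.Std) {Q : Pt R} (hQ : Rk2 (f.ev Q)) :
    f.cub.F Q.tail = 0 := by
  obtain ⟨h3, h4, -⟩ := (l5_rk2 h Q).1 hQ
  rw [l5_E h Q (Or.inl rfl)] at h3
  rw [l5_E h Q (Or.inr rfl)] at h4
  rw [l5_F]
  linear_combination (f.alp 3 ⬝ᵥ Q.tail) * h4 - (f.alp 4 ⬝ᵥ Q.tail) * h3

/-- a point of the cubic lifts -/
theorem lift_pt {f : Model R} (h : f.Std) (hl : IsUnit f.lam) {P : T3.Pt R} (hP : f.cub.F P = 0)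
    (ha : IsUnit (f.alp 3 ⬝ᵥ P) ∨ IsUnit (f.alp 4 ⬝ᵥ P)) (hT : ∃ r, IsUnit ((f.Tm *ᵥ P) r)) :
    ∃ Q : Pt R, Q.tail = P ∧ Rk2 (f.ev Q) := by
  rw [l5_F] at hP
  obtain ⟨x, h3, h4⟩ : ∃ x, x * (f.alp 3 ⬝ᵥ P) + f.l5q 3 P = 0 ∧
      x * (f.alp 4 ⬝ᵥ P) + f.l5q 4 P = 0 := by
    rcases ha with ha | ha
    · obtain ⟨b, hb⟩ := ha.exists_right_inv
      exact ⟨-(f.l5q 3 P * b), by linear_combination (-f.l5q 3 P) * hb,
        by linear_combination b * hP - f.l5q 4 P * hb⟩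
    · obtain ⟨b, hb⟩ := ha.exists_right_inv
      exact ⟨-(f.l5q 4 P * b), by linear_combination (-b) * hP - f.l5q 3 P * hb,
        by linear_combination (-f.l5q 4 P) * hb⟩
  obtain ⟨r, hr⟩ := hT
  obtain ⟨t, ht⟩ := hr.exists_right_inv
  obtain ⟨l, hl'⟩ := hl.exists_right_inv
  have tl : ∀ y, Pt.tail ![y, x, P 0, P 1, P 2] = P := fun y => by
    funext i; fin_cases i <;> rfl
  have ue : ∀ y {i : Fin 5}, i = 3 ∨ i = 4 →
      f.l5u ![y, x, P 0, P 1, P 2] i = f.l5u ![0, x, P 0, P 1, P 2] i := fun y i hi => by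
    rw [l5_u h _ hi, l5_u h _ hi, tl, tl]; rfl
  have e3 := l5_E h ![0, x, P 0, P 1, P 2] (Or.inl rfl)
  have e4 := l5_E h ![0, x, P 0, P 1, P 2] (Or.inr rfl)
  rw [tl] at e3 e4
  replace e3 := e3.trans h3
  replace e4 := e4.trans h4
  refine ⟨![(crossProduct (f.l5u ![0, x, P 0, P 1, P 2] 3) (f.l5u ![0, x, P 0, P 1, P 2] 4) r * t
    - x * f.c 1 3 4 - f.lin 3 4 ⬝ᵥ P) * l, x, P 0, P 1, P 2], tl _, ?_⟩
  rw [l5_rk2 h, tl, ue _ (Or.inl rfl), ue _ (Or.inr rfl), l5_m, tl]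
  refine ⟨e3, e4, ?_⟩
  simp only [cons_val_zero, cons_val_one]
  generalize f.l5u ![0, x, P 0, P 1, P 2] 3 = u at e3 ⊢
  generalize f.l5u ![0, x, P 0, P 1, P 2] 4 = w at e4 ⊢
  generalize f.Tm *ᵥ P = T at e3 e4 ht ⊢
  have em : (crossProduct u w r * t - x * f.c 1 3 4 - f.lin 3 4 ⬝ᵥ P) * l * f.lam + x * f.c 1 3 4 +
      f.lin 3 4 ⬝ᵥ P = crossProduct u w r * t := by
    linear_combination (crossProduct u w r * t - x * f.c 1 3 4 - f.lin 3 4 ⬝ᵥ P) * hl'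
  rw [em]
  have key := l5_key e3 e4 r
  funext s
  simp only [Pi.smul_apply, smul_eq_mul]
  linear_combination t * key s + crossProduct u w s * ht

/-- the lift is unique -/
theorem lift_unique {f : Model R} (h : f.Std) (hl : IsUnit f.lam) {Q Q' : Pt R}
    (hQ : Rk2 (f.ev Q)) (hQ' : Rk2 (f.ev Q')) (e : Q'.tail = Q.tail)
    (ha : IsUnit (f.alp 3 ⬝ᵥ Q.tail) ∨ IsUnit (f.alp 4 ⬝ᵥ Q.tail))
    (hT : ∃ r, IsUnit ((f.Tm *ᵥ Q.tail) r)) : Q' = Q := by
  obtain ⟨h3, h4, h5⟩ := (l5_rk2 h Q).1 hQ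
  obtain ⟨k3, k4, k5⟩ := (l5_rk2 h Q').1 hQ'
  rw [l5_E h _ (Or.inl rfl)] at h3 k3
  rw [l5_E h _ (Or.inr rfl)] at h4 k4
  rw [e] at k3 k4 k5
  have e1 : Q' 1 = Q 1 := by
    rcases ha with ha | ha
    · exact ha.mul_right_cancel (by linear_combination k3 - h3)
    · exact ha.mul_right_cancel (by linear_combination k4 - h4)
  rw [l5_u h _ (Or.inl rfl), l5_u h _ (Or.inr rfl)] at h5 k5
  rw [e, e1, ← h5] at k5
  obtain ⟨r, hr⟩ := hT
  have k6 := hr.mul_right_cancel (congrFun k5 r)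
  rw [l5_m, l5_m, e, e1] at k6
  have e0 : Q' 0 = Q 0 := hl.mul_right_cancel (by linear_combination k6)
  funext i
  fin_cases i
  exacts [e0, e1, congrFun e 0, congrFun e 1, congrFun e 2]

end Model

end Ring

section Field

open TrivSqZeroExt

variable {L L' : Type*} [Field L] [Field L']

/-- the inclusion in the dual numbers -/
abbrev dι (L : Type*) [Field L] : L →+* DualNumber L := algebraMap L (DualNumber L)

/-- the vector `Q + ε v` -/
def dn {n : Type*} (Q v : n → L) : n → DualNumber L := fun k => inl (Q k) + inr (v k)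

@[simp] lemma fst_dn {n : Type*} (Q v : n → L) (k : n) : (dn Q v k).fst = Q k := by simp [dn]
@[simp] lemma snd_dn {n : Type*} (Q v : n → L) (k : n) : (dn Q v k).snd = v k := by simp [dn]
@[simp] lemma fst_dι (x : L) : (dι L x).fst = x := rfl
@[simp] lemma snd_dι (x : L) : (dι L x).snd = 0 := rfl

lemma dn_tail (Q v : Pt L) : Pt.tail (dn Q v) = dn Q.tail v.tail := by
  funext i; fin_cases i <;> rfl

lemma dn_zero {n : Type*} (Q : n → L) : dn Q 0 = dι L ∘ Q := by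
  funext i; ext <;> simp

lemma dn_pt (g : G L) (Q v : Pt L) : (G.map (dι L) g).pt (dn Q v) = dn (g.pt Q) (g.pt v) := by
  funext i
  ext <;> simp [G.pt, G.map_e, vecMul, dotProduct, Fin.sum_univ_five]

lemma dn_mulVec (M : Matrix (Fin 3) (Fin 3) L) (P w : T3.Pt L) :
    M.map (dι L) *ᵥ dn P w = dn (M *ᵥ P) (M *ᵥ w) := by
  funext i
  ext <;> simp [mulVec, dotProduct, Fin.sum_univ_three]

lemma dn_dot (a P w : T3.Pt L) : (T3.Pt.map (dι L) a ⬝ᵥ dn P w).fst = a ⬝ᵥ P := by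
  simp [dotProduct, Fin.sum_univ_three]

lemma dn_F (h : T3.Model L) (P w : T3.Pt L) :
    (h.map (dι L)).F (dn P w) = inl (h.F P) + inr (h.pol P w) := by
  ext
  · simp [T3.Model.F]
  · simp [T3.Model.F, T3.Model.pol, T3.Model.Fx, T3.Model.Fy, T3.Model.Fz, pow_succ]
    ring

lemma dn_unit {x : DualNumber L} (h : x.fst ≠ 0) : IsUnit x :=
  isUnit_iff_isUnit_fst.2 h.isUnit

lemma l5_dim {V : Type*} [AddCommGroup V] [Module L V] (j : (Fin 3 → L) →ₗ[L] V)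
    (hj : Function.Injective j) (p q : V) (h : ∀ y, ∃ a b : L, j y = a • p + b • q) : False := by
  obtain ⟨a0, b0, e0⟩ := h ![1, 0, 0]
  obtain ⟨a1, b1, e1⟩ := h ![0, 1, 0]
  obtain ⟨a2, b2, e2⟩ := h ![0, 0, 1]
  have key : ∀ x y z : L, x * a0 + y * a1 + z * a2 = 0 → x * b0 + y * b1 + z * b2 = 0 →
      x = 0 ∧ y = 0 ∧ z = 0 := fun x y z ha hb => by
    have e : j (x • ![1, 0, 0] + y • ![0, 1, 0] + z • ![0, 0, 1]) = j 0 := by
      rw [map_add, map_add, map_smul, map_smul, map_smul, e0, e1, e2, map_zero]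
      have : x • (a0 • p + b0 • q) + y • (a1 • p + b1 • q) + z • (a2 • p + b2 • q) =
          (x * a0 + y * a1 + z * a2) • p + (x * b0 + y * b1 + z * b2) • q := by module
      rw [this, ha, hb, zero_smul, zero_smul, add_zero]
    have e' := hj e
    exact ⟨by simpa using congrFun e' 0, by simpa using congrFun e' 1,
      by simpa using congrFun e' 2⟩
  obtain ⟨k0, k1, k2⟩ := key (a1 * b2 - a2 * b1) (a2 * b0 - a0 * b2) (a0 * b1 - a1 * b0)
    (by ring) (by ring)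
  have z0 := key a1 (-a0) 0 (by ring) (by linear_combination -k2)
  have z1 := key b1 (-b0) 0 (by linear_combination k2) (by ring)
  exact one_ne_zero (key 1 0 0 (by linear_combination -z0.2.1) (by linear_combination -z1.2.1)).1

namespace Model

/-- `v` is tangent at `Q` -/
def Tan (f : Model L) (Q v : Pt L) : Prop := Rk2 ((f.map (dι L)).ev (dn Q v))

/-- a smooth point -/
def Sm (f : Model L) (Q : Pt L) : Prop :=
  ∃ g : G L, g.pt Pt.std = Q ∧ (g • f).Std ∧ (g • f).lam ≠ 0 ∧ (g • f).Tm.det ≠ 0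

/-- a critical point -/
def Crit (f : Model L) (Q : Pt L) : Prop :=
  ∃ g : G L, g.pt Pt.std = Q ∧ (g • f).Std ∧ (g • f).lam ≠ 0 ∧ (g • f).Tm.det = 0

/-- the projection is a local isomorphism at points above `P` -/
structure Reg (f : Model L) (P : T3.Pt L) : Prop where
  alp : f.alp 3 ⬝ᵥ P ≠ 0 ∨ f.alp 4 ⬝ᵥ P ≠ 0
  T : f.Tm *ᵥ P ≠ 0

lemma Reg.a {f : Model L} {P : T3.Pt L} (h : f.Reg P) :
    IsUnit (f.alp 3 ⬝ᵥ P) ∨ IsUnit (f.alp 4 ⬝ᵥ P) := h.alp.imp Ne.isUnit Ne.isUnit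

lemma Reg.t {f : Model L} {P : T3.Pt L} (h : f.Reg P) : ∃ r, IsUnit ((f.Tm *ᵥ P) r) :=
  (Function.ne_iff.1 h.T).imp fun _ => Ne.isUnit

lemma Reg.da {f : Model L} {P : T3.Pt L} (h : f.Reg P) (w : T3.Pt L) :
    IsUnit ((f.map (dι L)).alp 3 ⬝ᵥ dn P w) ∨ IsUnit ((f.map (dι L)).alp 4 ⬝ᵥ dn P w) :=
  h.alp.imp (fun e => dn_unit (by rwa [alp_map, dn_dot])) fun e =>
    dn_unit (by rwa [alp_map, dn_dot])

lemma Reg.dt {f : Model L} {P : T3.Pt L} (h : f.Reg P) (w : T3.Pt L) :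
    ∃ r, IsUnit (((f.map (dι L)).Tm *ᵥ dn P w) r) :=
  (Function.ne_iff.1 h.T).imp fun r e => dn_unit (by rwa [Tm_map, dn_mulVec, fst_dn])

lemma tan_pt (g : G L) (f : Model L) (Q v : Pt L) :
    (g • f).Tan Q v ↔ f.Tan (g.pt Q) (g.pt v) := by
  rw [Tan, Tan, G.map_smul, rk2_pt, dn_pt]

lemma l5_cross {f : Model L} (h : f.Std) {Q : Pt L} (h1 : Q 1 = 0) (ht : Q.tail = 0) (v : Pt L) :
    crossProduct ((f.map (dι L)).l5u (dn Q v) 3) ((f.map (dι L)).l5u (dn Q v) 4) = 0 := by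
  have k : ∀ i : Fin 5, i = 3 ∨ i = 4 → ∀ r, ((f.map (dι L)).l5u (dn Q v) i r).fst = 0 := by
    intro i hi r
    rw [l5_u (h.map _) _ hi, dn_tail, ht]
    fin_cases r <;> simp [h1, dotProduct, Fin.sum_univ_three]
  have k3 := k 3 (Or.inl rfl)
  have k4 := k 4 (Or.inr rfl)
  funext r
  fin_cases r <;> ext <;> simp [cross_apply, k3, k4]

lemma tan_std {f : Model L} (h : f.Std) {Q : Pt L} (h1 : Q 1 = 0) (ht : Q.tail = 0) {v : Pt L}
    (hv : f.Tm *ᵥ v.tail = 0) : f.Tan Q v := by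
  rw [Tan, l5_rk2 (h.map _), l5_cross h h1 ht, Tm_map, dn_tail, dn_mulVec, ht, hv, mulVec_zero]
  have : dn (0 : T3.Pt L) 0 = 0 := by funext i; ext <;> simp
  rw [this]
  simp

lemma Tan.std {f : Model L} (h : f.Std) (hl : f.lam ≠ 0) {Q : Pt L} (h0 : Q 0 ≠ 0) (h1 : Q 1 = 0)
    (ht : Q.tail = 0) {v : Pt L} (hv : f.Tan Q v) : f.Tm *ᵥ v.tail = 0 := by
  rw [Tan, l5_rk2 (h.map _), l5_cross h h1 ht, Tm_map, dn_tail, dn_mulVec, ht, mulVec_zero] at hv
  have e : ((f.map (dι L)).ev (dn Q v) 3 4).fst = Q 0 * f.lam := by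
    rw [l5_m, dn_tail, ht]
    simp [h1, dotProduct, Fin.sum_univ_three]
  funext r
  have := congrArg snd (congrFun hv.2.2 r)
  simpa [e, h0, hl] using this

lemma Tan.pol {f : Model L} (h : f.Std) {Q v : Pt L} (hv : f.Tan Q v) :
    f.cub.pol Q.tail v.tail = 0 := by
  have := tail_on (h.map _) hv
  rw [cub_map, dn_tail, dn_F] at this
  simpa using congrArg snd this

lemma Tan.eq_zero {f : Model L} (h : f.Std) (hl : f.lam ≠ 0) {Q v : Pt L} (hQ : Rk2 (f.ev Q))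
    (hr : f.Reg Q.tail) (hv : f.Tan Q v) (ht : v.tail = 0) : v = 0 := by
  have h0 : Rk2 ((f.map (dι L)).ev (dn Q 0)) := by rw [dn_zero]; exact rk2_map _ hQ
  have e0 : (0 : Pt L).tail = 0 := by funext i; fin_cases i <;> rfl
  have e := lift_unique (h.map _) (dn_unit (by simpa using hl)) h0 hv
    (by rw [dn_tail, dn_tail, ht, e0]) (by rw [dn_tail]; exact hr.da _)
    (by rw [dn_tail]; exact hr.dt _)
  funext i
  simpa using congrArg snd (congrFun e i)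

lemma exists_tan {f : Model L} (h : f.Std) (hl : f.lam ≠ 0) {Q : Pt L} (hQ : Rk2 (f.ev Q))
    (hr : f.Reg Q.tail) {w : T3.Pt L} (hw : f.cub.pol Q.tail w = 0) :
    ∃ v : Pt L, v.tail = w ∧ f.Tan Q v := by
  obtain ⟨Z, hZ, hR⟩ := lift_pt (h.map (dι L)) (dn_unit (by simpa using hl)) (P := dn Q.tail w)
    (by rw [cub_map, dn_F, tail_on h hQ, hw]; simp) (hr.da w) (hr.dt w)
  have h1 := rk2_map (fstHom L L L : DualNumber L →+* L) hR
  rw [map_map, show (fstHom L L L : DualNumber L →+* L).comp (dι L) = RingHom.id L from rfl] at h1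
  have e := lift_unique h hl.isUnit hQ h1 (by
    rw [Pt.tail_map, hZ]; funext i; simp) hr.a hr.t
  refine ⟨fun i => (Z i).snd, ?_, ?_⟩
  · funext i
    have := congrArg snd (congrFun hZ i)
    fin_cases i <;> simpa using this
  · have : dn Q (fun i => (Z i).snd) = Z := by
      funext i
      ext
      · rw [fst_dn, ← e]; rfl
      · rw [snd_dn]
    rw [Tan, this]
    exact hR

lemma l5_on_std {f : Model L} (h : f.Std) : Rk2 (f.ev Pt.std) := by
  have e : (Pt.std : Pt L).tail = 0 := by funext i; fin_cases i <;> rfl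
  rw [l5_rk2 h, l5_u h _ (Or.inl rfl), l5_u h _ (Or.inr rfl), e]
  simp [cross_apply]

lemma l5_on {f : Model L} {g : G L} (h : (g • f).Std) : f.On (g.pt Pt.std) := by
  refine ⟨fun e => ?_, (rk2_pt g f _).1 (l5_on_std h)⟩
  have := G.inv_pt_pt g Pt.std
  rw [e] at this
  simpa [G.pt] using congrFun this 0

lemma Sm.on {f : Model L} {Q : Pt L} (h : f.Sm Q) : f.On Q := by
  obtain ⟨g, rfl, hs, -⟩ := h
  exact l5_on hs

lemma Crit.on {f : Model L} {Q : Pt L} (h : f.Crit Q) : f.On Q := by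
  obtain ⟨g, rfl, hs, -⟩ := h
  exact l5_on hs

lemma sm_pt (g : G L) (f : Model L) (Q : Pt L) : f.Sm (g.pt Q) ↔ (g • f).Sm Q := by
  constructor
  · rintro ⟨k, h1, h2⟩
    exact ⟨k * g⁻¹, by rw [G.mul_pt, h1, G.inv_pt_pt], by rwa [mul_smul, inv_smul_smul]⟩
  · rintro ⟨k, h1, h2⟩
    exact ⟨k * g, by rw [G.mul_pt, h1], by rwa [mul_smul]⟩

lemma crit_pt (g : G L) (f : Model L) (Q : Pt L) : f.Crit (g.pt Q) ↔ (g • f).Crit Q := by
  constructor
  · rintro ⟨k, h1, h2⟩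
    exact ⟨k * g⁻¹, by rw [G.mul_pt, h1, G.inv_pt_pt], by rwa [mul_smul, inv_smul_smul]⟩
  · rintro ⟨k, h1, h2⟩
    exact ⟨k * g, by rw [G.mul_pt, h1], by rwa [mul_smul]⟩

lemma Sm.map {f : Model L} {Q : Pt L} (h : f.Sm Q) (φ : L →+* L') :
    (f.map φ).Sm (Q.map φ) := by
  obtain ⟨g, rfl, h1, h2, h3⟩ := h
  refine ⟨G.map φ g, by rw [← Pt.map_std φ, G.map_pt], ?_⟩
  rw [← G.map_smul, lam_map, Tm_map, ← RingHom.mapMatrix_apply, ← RingHom.map_det]
  exact ⟨h1.map φ, (map_ne_zero φ).2 h2, (map_ne_zero φ).2 h3⟩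

lemma Crit.map {f : Model L} {Q : Pt L} (h : f.Crit Q) (φ : L →+* L') :
    (f.map φ).Crit (Q.map φ) := by
  obtain ⟨g, rfl, h1, h2, h3⟩ := h
  refine ⟨G.map φ g, by rw [← Pt.map_std φ, G.map_pt], ?_⟩
  rw [← G.map_smul, lam_map, Tm_map, ← RingHom.mapMatrix_apply, ← RingHom.map_det]
  exact ⟨h1.map φ, (map_ne_zero φ).2 h2, by rw [h3, map_zero]⟩

/-- at a critical point there is a three dimensional space of tangent vectors -/
lemma Crit.tan {f : Model L} {Q : Pt L} (h : f.Crit Q) :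
    ∃ j : (Fin 3 → L) →ₗ[L] Pt L, Function.Injective j ∧ ∀ y, f.Tan Q (j y) := by
  obtain ⟨g, rfl, h1, -, h3⟩ := h
  obtain ⟨n, hn, hT⟩ := exists_mulVec_eq_zero_iff.2 h3
  let N : Matrix (Fin 3) (Fin 5) L := !![1, 0, 0, 0, 0; 0, 1, 0, 0, 0; 0, 0, n 0, n 1, n 2]
  have hN : ∀ y : Fin 3 → L, y ᵥ* N = ![y 0, y 1, y 2 * n 0, y 2 * n 1, y 2 * n 2] := fun y => by
    funext i
    fin_cases i <;> simp [N, vecMul, dotProduct, Fin.sum_univ_three]
  refine ⟨(vecMulLinear g.e).comp (vecMulLinear N), ?_, fun y => ?_⟩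
  · rw [injective_iff_map_eq_zero]
    intro y hy
    have e : g.pt (y ᵥ* N) = 0 := hy
    have e2 := G.inv_pt_pt g (y ᵥ* N)
    rw [e, hN] at e2
    obtain ⟨r, hr⟩ := Function.ne_iff.1 hn
    have e0 := congrFun e2 0
    have e1 := congrFun e2 1
    have e3 : y 2 * n r = 0 := by
      fin_cases r
      · simpa [G.pt] using congrFun e2 2
      · simpa [G.pt] using congrFun e2 3
      · simpa [G.pt] using congrFun e2 4
    funext i
    fin_cases i
    · simpa [G.pt] using e0.symm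
    · simpa [G.pt] using e1.symm
    · exact (mul_eq_zero.1 e3).resolve_right hr
  · refine (tan_pt g f _ (y ᵥ* N)).1 (tan_std h1 rfl (by funext i; fin_cases i <;> rfl) ?_)
    have : Pt.tail (y ᵥ* N) = y 2 • n := by
      rw [hN]; funext i; fin_cases i <;> rfl
    rw [this, mulVec_smul, hT, smul_zero]

lemma l5_tail_zero {v : Pt L} (h : v.tail = 0) :
    v = v 0 • (Pt.std : Pt L) + v 1 • ![0, 1, 0, 0, 0] := by
  funext i
  fin_cases i
  · simp
  · simp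
  · simpa using congrFun h 0
  · simpa using congrFun h 1
  · simpa using congrFun h 2

/-- at a smooth point the tangent vectors lie in a plane -/
lemma Sm.tan {f : Model L} {Q : Pt L} (h : f.Sm Q) :
    ∃ p q : Pt L, ∀ v, f.Tan Q v → ∃ a b : L, v = a • p + b • q := by
  obtain ⟨g, rfl, h1, h2, h3⟩ := h
  refine ⟨g.pt Pt.std, g.pt ![0, 1, 0, 0, 0], fun v hv => ?_⟩
  rw [← G.pt_inv_pt g v, ← tan_pt] at hv
  have e := l5_tail_zero (eq_zero_of_mulVec_eq_zero h3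
    (hv.std h1 h2 one_ne_zero rfl (by funext i; fin_cases i <;> rfl)))
  refine ⟨g⁻¹.pt v 0, g⁻¹.pt v 1, ?_⟩
  conv_lhs => rw [← G.pt_inv_pt g v, e]
  simp only [G.pt, add_vecMul, smul_vecMul]

theorem Sm.not_crit {f : Model L} {Q : Pt L} (h : f.Sm Q) : ¬f.Crit Q := fun hc => by
  obtain ⟨p, q, H⟩ := h.tan
  obtain ⟨j, hj, hy⟩ := hc.tan
  exact l5_dim j hj p q fun y => H _ (hy y)

/-- the last three coordinates, as a linear map -/
def tailL (L : Type*) [Field L] : Pt L →ₗ[L] T3.Pt L where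
  toFun := Pt.tail
  map_add' x y := by funext i; fin_cases i <;> rfl
  map_smul' t x := Pt.tail_smul t x

/-- a critical point projects to a singular point -/
theorem Crit.sing {f : Model L} (h : f.Std) (hl : f.lam ≠ 0) {Q : Pt L} (hc : f.Crit Q)
    (hr : f.Reg Q.tail) (w : T3.Pt L) : f.cub.pol Q.tail w = 0 := by
  obtain ⟨j, hj, hy⟩ := hc.tan
  have inj : Function.Injective ((tailL L).comp j) := by
    rw [injective_iff_map_eq_zero]
    intro y e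
    exact hj (((hy y).eq_zero h hl hc.on.eq hr e).trans (map_zero j).symm)
  obtain ⟨y, rfl⟩ := LinearMap.injective_iff_surjective.1 inj w
  exact (hy y).pol h

/-- a point above a singular point is not smooth -/
theorem not_sm_of_sing {f : Model L} (h : f.Std) (hl : f.lam ≠ 0) {Q : Pt L} (hQ : Rk2 (f.ev Q))
    (hr : f.Reg Q.tail) (hs : ∀ w, f.cub.pol Q.tail w = 0) : ¬f.Sm Q := fun hm => by
  obtain ⟨p, q, H⟩ := hm.tan
  refine l5_dim (L := L) LinearMap.id Function.injective_id p.tail q.tail fun w => ?_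
  obtain ⟨v, rfl, hv⟩ := exists_tan h hl hQ hr (hs w)
  obtain ⟨a, b, rfl⟩ := H v hv
  exact ⟨a, b, by funext i; fin_cases i <;> rfl⟩

lemma l5_c4_triple {h : T3.Model L} {n : T3.Pt L} (hn : n ≠ 0) (hF : h.F n = 0)
    (h1 : ∀ w, h.pol n w = 0) (h2 : ∀ d, h.pol d n = 0) : h.jac.c₄ = 0 := by
  obtain ⟨M, hM, h0⟩ := T3.Model.lg_one_row hn
  have e : (h.subst M).jac.c₄ = M.det ^ 4 * h.jac.c₄ := by
    rw [T3.Model.jac_subst, variableChange_c₄, T3.Model.sh_u, wsc_c₄]; simp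
  have em : h.tri n (M 1) (M 2) = h.pol (M 1 + M 2) n - h.pol (M 1) n - h.pol (M 2) n := by
    simp only [T3.Model.tri, T3.Model.pol, T3.Model.Fx, T3.Model.Fy, T3.Model.Fz, Pi.add_apply]
    ring
  have a0 : (h.subst M).a = 0 := by rw [T3.Model.subst_a, h0, hF]
  have a2 : (h.subst M).a2 = 0 := by rw [T3.Model.subst_a2, h0, h1]
  have a3 : (h.subst M).a3 = 0 := by rw [T3.Model.subst_a3, h0, h1]
  have b1 : (h.subst M).b1 = 0 := by rw [T3.Model.subst_b1, h0, h2]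
  have c1 : (h.subst M).c1 = 0 := by rw [T3.Model.subst_c1, h0, h2]
  have m : (h.subst M).m = 0 := by rw [T3.Model.subst_m, h0, em, h2, h2, h2]; ring
  have z : (h.subst M).jac.c₄ = 0 := by
    simp [T3.Model.jac, c₄, b₂, b₄, a0, a2, a3, b1, c1, m]
  exact (mul_eq_zero.1 (e ▸ z)).resolve_left (pow_ne_zero _ hM)

/-- next to a critical point of multiplicative type there is a point that is not critical -/
theorem exists_not_crit {f : Model L} (h : f.Std) (hl : f.lam ≠ 0) (hT : f.Tm.det = 0)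
    (hc : f.cub.jac.c₄ ≠ 0) : ∃ Q, f.On Q ∧ ¬f.Crit Q := by
  obtain ⟨n, hn, hk⟩ := exists_mulVec_eq_zero_iff.2 hT
  have a3 := f.l5_alp_ker hk 3
  have a4 := f.l5_alp_ker hk 4
  have hF : f.cub.F n = 0 := by rw [l5_F, a3, a4]; ring
  have h1 : ∀ w, f.cub.pol n w = 0 := fun w => by
    obtain ⟨c3, c4, e⟩ := f.l5_pol n w
    rw [e, a3, a4, f.l5q_ker hk, f.l5q_ker hk]; ring
  obtain ⟨d, hd⟩ : ∃ d, f.cub.pol d n ≠ 0 := by
    by_contra hh
    exact hc (l5_c4_triple hn hF h1 fun d => not_not.1 fun e => hh ⟨d, e⟩)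
  obtain ⟨x, hx⟩ : ∃ x, x * f.cub.pol d n = -f.cub.F d := ⟨_ / _, div_mul_cancel₀ _ hd⟩
  have hP : f.cub.F (x • n + d) = 0 := by
    have := f.cub.F_add x 1 n d
    rw [one_smul, hF, h1] at this
    linear_combination this + hx
  have hp : f.cub.pol (x • n + d) n =
      x ^ 2 * f.cub.pol n n + 2 * x * f.cub.pol n d + f.cub.pol d n := by
    simp only [T3.Model.pol, T3.Model.Fx, T3.Model.Fy, T3.Model.Fz, Pi.add_apply, Pi.smul_apply,
      smul_eq_mul]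
    ring
  rw [h1, h1, mul_zero, mul_zero, zero_add, zero_add] at hp
  have ha : f.alp 3 ⬝ᵥ (x • n + d) ≠ 0 ∨ f.alp 4 ⬝ᵥ (x • n + d) ≠ 0 := by
    by_contra hh
    simp only [not_or, not_not] at hh
    obtain ⟨c3, c4, e⟩ := f.l5_pol (x • n + d) n
    rw [a3, a4, hh.1, hh.2, hp] at e
    exact hd (by linear_combination e)
  have hr : f.Reg (x • n + d) := ⟨ha, fun e => by
    rw [f.l5_alp_ker e, f.l5_alp_ker e] at ha
    simp at ha⟩
  obtain ⟨Q, hQ, hR⟩ := lift_pt h hl.isUnit hP hr.a hr.t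
  rw [← hQ] at hr hp
  refine ⟨Q, ⟨fun e => hr.T ?_, hR⟩, fun hcr => hd (hp ▸ hcr.sing h hl hr n)⟩
  rw [e, show Pt.tail (0 : Pt L) = 0 from map_zero (tailL L), mulVec_zero]

lemma l5_mk_sing {f : Model L} {P : T3.Pt L} (hP : P ≠ 0) (h3 : f.alp 3 ⬝ᵥ P = 0)
    (h4 : f.alp 4 ⬝ᵥ P = 0) (hs : ∀ w, f.cub.pol P w = 0) (w : T3.Pt L) :
    f.cub.pol f.mk' w = 0 := by
  obtain ⟨r, hr⟩ := Function.ne_iff.1 hP
  have e : f.mk' = (f.mk' r / P r) • P := by
    funext s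
    have := l5_key ((dotProduct_comm _ _).trans h3) ((dotProduct_comm _ _).trans h4) r s
    have hr' : P r ≠ 0 := hr
    rw [Pi.smul_apply, smul_eq_mul, div_mul_eq_mul_div, eq_div_iff hr']
    exact this.symm
  have := f.cub.pol_smul (f.mk' r / P r) 1 P w
  rw [one_smul, ← e, hs] at this
  rw [this, mul_zero]

lemma reg_of_sing {f : Model L} (hT : f.Tm.det ≠ 0) (hs : ∃ w, f.cub.pol f.mk' w ≠ 0)
    {P : T3.Pt L} (hP : P ≠ 0) (h : ∀ w, f.cub.pol P w = 0) : f.Reg P := by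
  refine ⟨?_, fun e => hP (eq_zero_of_mulVec_eq_zero hT e)⟩
  by_contra hh
  simp only [not_or, not_not] at hh
  obtain ⟨w, hw⟩ := hs
  exact hw (l5_mk_sing hP hh.1 hh.2 h w)

/-- a singular point of the cubic lifts to a point that is not smooth -/
theorem exists_not_sm {f : Model L} (h : f.Std) (hl : f.lam ≠ 0) (hT : f.Tm.det ≠ 0)
    (hs : ∃ w, f.cub.pol f.mk' w ≠ 0) {P : T3.Pt L} (hP : P ≠ 0) (hF : f.cub.F P = 0)
    (h1 : ∀ w, f.cub.pol P w = 0) : ∃ Q, f.On Q ∧ Q.tail = P ∧ ¬f.Sm Q := by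
  have hr := reg_of_sing hT hs hP h1
  obtain ⟨Q, rfl, hR⟩ := lift_pt h hl.isUnit hF hr.a hr.t
  exact ⟨Q, ⟨fun e => hP (by rw [e]; exact map_zero (tailL L)), hR⟩, rfl,
    not_sm_of_sing h hl hR hr h1⟩

lemma Crit.reg {f : Model L} (h : f.Std) (hl : f.lam ≠ 0) (hT : f.Tm.det ≠ 0)
    (hs : ∃ w, f.cub.pol f.mk' w ≠ 0) {Q : Pt L} (hc : f.Crit Q) : f.Reg Q.tail := by
  obtain ⟨w, hw⟩ := hs
  obtain ⟨h3, h4, h5⟩ := (l5_rk2 h Q).1 hc.on.eq
  have hP : Q.tail ≠ 0 := by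
    intro e
    have h1 : Q 1 = 0 := by
      by_contra h1
      rw [l5_u h _ (Or.inl rfl), l5_u h _ (Or.inr rfl), e] at h5
      simp only [mulVec_zero, smul_zero, dotProduct_zero] at h5
      have z : (fun _ : Fin 3 => (0 : L)) = 0 := rfl
      rw [z, add_zero, add_zero, map_smul, map_smul, LinearMap.smul_apply] at h5
      have := f.l5_mk_zero
        ((smul_eq_zero.1 ((smul_eq_zero.1 h5.symm).resolve_left h1)).resolve_left h1)
      rw [this] at hw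
      exact hw (by simp [T3.Model.pol, T3.Model.Fx, T3.Model.Fy, T3.Model.Fz])
    have h0 : Q 0 ≠ 0 := fun h0 => hc.on.prim (by rw [l5_tail_zero e, h0, h1]; simp)
    obtain ⟨j, hj, hy⟩ := hc.tan
    exact l5_dim j hj _ _ fun y =>
      ⟨_, _, l5_tail_zero (eq_zero_of_mulVec_eq_zero hT ((hy y).std h hl h0 h1 e))⟩
  refine ⟨?_, fun e => hP (eq_zero_of_mulVec_eq_zero hT e)⟩
  by_contra hh
  simp only [not_or, not_not] at hh
  rw [l5_E h _ (Or.inl rfl), hh.1, mul_zero, zero_add] at h3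
  rw [l5_E h _ (Or.inr rfl), hh.2, mul_zero, zero_add] at h4
  refine hw (l5_mk_sing hP hh.1 hh.2 (fun w => ?_) w)
  obtain ⟨c3, c4, e⟩ := f.l5_pol Q.tail w
  rw [e, h3, h4, hh.1, hh.2]; ring

/-- critical points project to singular points of the cubic -/
theorem Crit.tail {f : Model L} (h : f.Std) (hl : f.lam ≠ 0) (hT : f.Tm.det ≠ 0)
    (hs : ∃ w, f.cub.pol f.mk' w ≠ 0) {Q : Pt L} (hc : f.Crit Q) :
    Q.tail ≠ 0 ∧ f.cub.F Q.tail = 0 ∧ ∀ w, f.cub.pol Q.tail w = 0 :=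
  ⟨fun e => (hc.reg h hl hT hs).T (by rw [e, mulVec_zero]), tail_on h hc.on.eq,
    hc.sing h hl (hc.reg h hl hT hs)⟩

/-- critical points are determined by their projections -/
theorem Crit.unique {f : Model L} (h : f.Std) (hl : f.lam ≠ 0) (hT : f.Tm.det ≠ 0)
    (hs : ∃ w, f.cub.pol f.mk' w ≠ 0) {Q Q' : Pt L} (hQ : f.On Q) (hc : f.Crit Q') {t : L}
    (e : Q'.tail = t • Q.tail) : Q' = t • Q :=
  (lift_unique h hl.isUnit hc.on.eq (rk2_smul hQ.eq t) (by rw [Pt.tail_smul, e])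
    (hc.reg h hl hT hs).a (hc.reg h hl hT hs).t).symm

/-- A point of a curve with `c₄ ≠ 0` is smooth or critical. -/
lemma sm_or_crit {f : Model L} (hc : f.jac.c₄ ≠ 0 ∨ f.jac.Δ ≠ 0) {g : G L} (hs : (g • f).Std) :
    f.Sm (g.pt Pt.std) ∨ f.Crit (g.pt Pt.std) := by
  have hχ : chi g.a g.e ≠ 0 := by rw [← G.det_val]; exact g.det.ne_zero
  have hl : (g • f).lam ≠ 0 := fun e => by
    have e4 := c₄_std hs
    have e12 := Δ_std hs
    rw [e, G.smul_def, c₄_act] at e4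
    rw [e, G.smul_def, Δ_act] at e12
    rcases hc with hc | hc
    · exact mul_ne_zero (pow_ne_zero 4 hχ) hc (by rw [e4]; ring)
    · exact mul_ne_zero (pow_ne_zero 12 hχ) hc (by rw [e12]; ring)
  by_cases hT : (g • f).Tm.det = 0
  · exact Or.inr ⟨g, rfl, hs, hl, hT⟩
  · exact Or.inl ⟨g, rfl, hs, hl, hT⟩

/-- With `c₄ ≠ 0`, a rational point gives a smooth rational point (`hstd`: points can be moved to
standard position). -/
theorem exists_sm {f : Model L} (hc : f.jac.c₄ ≠ 0)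
    (hstd : ∀ Q, f.On Q → ∃ g : G L, g.pt Pt.std = Q ∧ (g • f).Std) {Q : Pt L} (hQ : f.On Q) :
    ∃ Q', f.Sm Q' := by
  obtain ⟨g, rfl, hs⟩ := hstd Q hQ
  rcases sm_or_crit (Or.inl hc) hs with h | ⟨k, -, h1, h2, h3⟩
  · exact ⟨_, h⟩
  have hχ : chi k.a k.e ≠ 0 := by rw [← G.det_val]; exact k.det.ne_zero
  obtain ⟨Q', o, n⟩ := exists_not_crit h1 h2 h3 fun e => by
    have e4 := c₄_std h1
    rw [e, G.smul_def, c₄_act] at e4
    exact mul_ne_zero (pow_ne_zero 4 hχ) hc (by rw [e4]; ring)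
  have o' : f.On (k.pt Q') := ⟨fun e => o.prim (by
    rw [← G.inv_pt_pt k Q', e]; simp [G.pt]), (rk2_pt k f _).1 o.eq⟩
  obtain ⟨g', e, hs'⟩ := hstd _ o'
  refine ⟨_, (sm_or_crit (Or.inl hc) hs').resolve_right ?_⟩
  rwa [e, crit_pt]

/-- Over an algebraically closed field: if `Δ = 0`, `c₄ ≠ 0`, the standard point is smooth, its
image is a smooth point of the cubic and the cubic contains no line in the pattern of
`sq_dvd_of_line`, then there is exactly one critical point. -/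
theorem exists_unique_crit [IsAlgClosed L] {f : Model L} (hΔ : f.jac.Δ = 0) (hc : f.jac.c₄ ≠ 0)
    (hstd : ∀ Q, f.On Q → ∃ g : G L, g.pt Pt.std = Q ∧ (g • f).Std)
    (h : f.Std) (hl : f.lam ≠ 0) (hT : f.Tm.det ≠ 0) (hs : ∃ w, f.cub.pol f.mk' w ≠ 0)
    (hline : ∀ M : Matrix (Fin 3) (Fin 3) L, M.det ≠ 0 → (f.cub.subst M).a = 0 →
      (f.cub.subst M).a2 = 0 → (f.cub.subst M).b1 = 0 → (f.cub.subst M).b ≠ 0) :
    ∃ Q, f.Crit Q ∧ ∀ Q', f.Crit Q' → ∃ t : L, Q' = t • Q := by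
  have h0 : f.cub.jac.Δ = 0 :=
    (mul_eq_zero.1 ((Δ_std h).symm.trans hΔ)).resolve_left (pow_ne_zero _ hl)
  obtain ⟨P, hP, hn⟩ := T3.Model.exists_sing_pt h0
  rw [T3.Model.lg_not_smooth] at hn
  obtain ⟨Q, hQ, rfl, hm⟩ := exists_not_sm h hl hT hs hP.prim hP.eq hn
  obtain ⟨g, e, hg⟩ := hstd Q hQ
  refine ⟨Q, e ▸ (sm_or_crit (Or.inl hc) hg).resolve_left (e ▸ hm), fun Q' hc' => ?_⟩
  obtain ⟨p', F', s'⟩ := hc'.tail h hl hT hs
  by_cases hi : Q.tail 1 * Q'.tail 2 - Q.tail 2 * Q'.tail 1 ≠ 0 ∨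
      Q.tail 2 * Q'.tail 0 - Q.tail 0 * Q'.tail 2 ≠ 0 ∨
        Q.tail 0 * Q'.tail 1 - Q.tail 1 * Q'.tail 0 ≠ 0
  · obtain ⟨M, hM, m0, m1⟩ := T3.Model.lg_two_rows hi
    exact absurd (by rw [T3.Model.subst_b, m1, F']) (hline M hM
      (by rw [T3.Model.subst_a, m0, hP.eq]) (by rw [T3.Model.subst_a2, m0, hn])
      (by rw [T3.Model.subst_b1, m1, s']))
  · simp only [not_or, not_not] at hi
    obtain ⟨c0, c1, c2⟩ := hi
    obtain ⟨r, hr⟩ := Function.ne_iff.1 hP.prim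
    have hr' : Q.tail r ≠ 0 := hr
    refine ⟨Q'.tail r / Q.tail r, Crit.unique h hl hT hs hQ hc' (funext fun s => ?_)⟩
    rw [Pi.smul_apply, smul_eq_mul, div_mul_eq_mul_div, eq_div_iff hr']
    generalize Q.tail = u at c0 c1 c2
    generalize Q'.tail = v at c0 c1 c2
    fin_cases r <;> fin_cases s <;> simp <;>
      first
      | linear_combination c0 | linear_combination -c0 | linear_combination c1
      | linear_combination -c1 | linear_combination c2 | linear_combination -c2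

end Model

end Field

end SelAvg.FF.T5
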