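import Pool.Agent.H34P.Lang5A
import Pool.Agent.H34P.Lang5G

/-!
A smooth point of a degree five model is good unless the discriminant vanishes to second order.
-/

namespace SelAvg.FF.T5

open WeierstrassCurve Matrix Polynomial

variable {K : Type*} [Field K]

lemma l5b_red {h : Model (DualNumber K)} {s : Model K} (e : h.map (dnR K) = s)
    {M : Matrix (Fin 3) (Fin 3) (DualNumber K)} {N : Matrix (Fin 3) (Fin 3) K}
    (hM : M.map (dnR K) = N) : (h.cub.subst M).map (dnR K) = s.cub.subst N := by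
  rw [T3.Model.map_subst, ← Model.cub_map, e, hM]

lemma l5b_disc {c : T3.Model (DualNumber K)} {M : Matrix (Fin 3) (Fin 3) (DualNumber K)}
    (hM : (M.map (dnR K)).det ≠ 0)
    (h : (DualNumber.eps : DualNumber K) ^ 2 ∣ (c.subst M).jac.Δ) : c.jac.Δ = 0 := by
  have e := l5d_zero h
  rw [← RingHom.mapMatrix_apply, ← RingHom.map_det] at hM
  rwa [T3.Model.lg_Delta_subst, ((l5d_unit hM).pow 12).mul_right_eq_zero] at e

/-- the cubic contains a line -/
theorem DSing.of_line {s : Model K} (hs : s.Std) (hl : s.lam ≠ 0) (hT : s.Tm.det ≠ 0)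
    {N : Matrix (Fin 3) (Fin 3) K} (hN : N.det ≠ 0) (ha : (s.cub.subst N).a = 0)
    (h2 : (s.cub.subst N).a2 = 0) (h1 : (s.cub.subst N).b1 = 0) (hb : (s.cub.subst N).b = 0) :
    DSing s := DSing.of_std hs hl hT fun h _ e => by
  have r := l5b_red e (l5d_map N)
  exact l5b_disc (M := N.map (dnI K)) hN (T3.Model.sq_dvd_of_line _
    (l5d_dvd ((congrArg T3.Model.a r).trans ha)) (l5d_dvd ((congrArg T3.Model.a2 r).trans h2))
    (l5d_dvd ((congrArg T3.Model.b1 r).trans h1)) (l5d_dvd ((congrArg T3.Model.b r).trans hb)))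

lemma l5b_F_mk {R : Type*} [CommRing R] (f : Model R) : f.cub.F f.mk' = 0 := by
  rw [Model.l5_F, Model.mk', dot_self_cross, dot_cross_self, zero_mul, zero_mul, sub_zero]

/-- the cubic is singular at the marked point -/
theorem DSing.of_sing {s : Model K} (hs : s.Std) (hl : s.lam ≠ 0) (hT : s.Tm.det ≠ 0)
    (h0 : s.mk' ≠ 0) (hp : ∀ w, s.cub.pol s.mk' w = 0) : DSing s :=
  DSing.of_std hs hl hT fun h _ e => by
    obtain ⟨N, hN, n0⟩ := T3.Model.lg_one_row h0
    have hM : ((N.map (dnI K)).updateRow 0 h.mk').map (dnR K) = N := by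
      rw [map_updateRow, l5d_map, ← updateRow_eq_self N 0, updateRow_idem, n0, ← e,
        Model.mk'_map]
    have r := l5b_red e hM
    refine l5b_disc (by rwa [hM]) (T3.Model.sq_dvd_of_sing _ ?_
      (l5d_dvd ((congrArg T3.Model.a2 r).trans ?_)) (l5d_dvd ((congrArg T3.Model.a3 r).trans ?_)))
    · rw [T3.Model.subst_a, updateRow_self, l5b_F_mk]
      exact dvd_zero _
    · rw [T3.Model.subst_a2, n0, hp]
    · rw [T3.Model.subst_a3, n0, hp]

lemma l5b_perp {u w : T3.Pt K} (h : crossProduct u w = 0) : ∃ N : Matrix (Fin 3) (Fin 3) K,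
    N.det ≠ 0 ∧ u ⬝ᵥ N 0 = 0 ∧ u ⬝ᵥ N 1 = 0 ∧ w ⬝ᵥ N 0 = 0 ∧ w ⬝ᵥ N 1 = 0 := by
  have key : ∀ {u w : T3.Pt K}, u ≠ 0 → crossProduct u w = 0 → ∃ N : Matrix (Fin 3) (Fin 3) K,
      N.det ≠ 0 ∧ u ⬝ᵥ N 0 = 0 ∧ u ⬝ᵥ N 1 = 0 ∧ w ⬝ᵥ N 0 = 0 ∧ w ⬝ᵥ N 1 = 0 := by
    intro u w hu h
    have c0 : u 1 * w 2 - u 2 * w 1 = 0 := by simpa [cross_apply] using congrFun h 0
    have c1 : u 2 * w 0 - u 0 * w 2 = 0 := by simpa [cross_apply] using congrFun h 1
    have c2 : u 0 * w 1 - u 1 * w 0 = 0 := by simpa [cross_apply] using congrFun h 2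
    rcases T3.Model.lg_coord hu with h | h | h
    · obtain ⟨N, hN, n0, n1⟩ := T3.Model.lg_two_rows (Q := ![-u 1, u 0, 0])
        (Q' := ![-u 2, 0, u 0]) (Or.inl (by simpa using h))
      refine ⟨N, hN, ?_⟩
      simp only [n0, n1, dotProduct, Fin.sum_univ_three, cons_val]
      exact ⟨by ring, by ring, by linear_combination c2, by linear_combination -c1⟩
    · obtain ⟨N, hN, n0, n1⟩ := T3.Model.lg_two_rows (Q := ![u 1, -u 0, 0])
        (Q' := ![0, -u 2, u 1]) (Or.inr (Or.inl (by simpa using h)))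
      refine ⟨N, hN, ?_⟩
      simp only [n0, n1, dotProduct, Fin.sum_univ_three, cons_val]
      exact ⟨by ring, by ring, by linear_combination -c2, by linear_combination c0⟩
    · obtain ⟨N, hN, n0, n1⟩ := T3.Model.lg_two_rows (Q := ![u 2, 0, -u 0])
        (Q' := ![0, u 2, -u 1]) (Or.inr (Or.inr (by simpa using h)))
      refine ⟨N, hN, ?_⟩
      simp only [n0, n1, dotProduct, Fin.sum_univ_three, cons_val]
      exact ⟨by ring, by ring, by linear_combination c1, by linear_combination -c0⟩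
  by_cases hu : u = 0
  · by_cases hw : w = 0
    · exact ⟨1, by simp, by simp [hu, hw]⟩
    · obtain ⟨N, hN, a, b, c, d⟩ := key (w := u) hw (by rw [hu, map_zero])
      exact ⟨N, hN, c, d, a, b⟩
  · exact key hu h

/-- the marked point vanishes -/
theorem DSing.of_mk {s : Model K} (hs : s.Std) (hl : s.lam ≠ 0) (hT : s.Tm.det ≠ 0)
    (h0 : s.mk' = 0) : DSing s := by
  obtain ⟨N, hN, a, b, c, d⟩ := l5b_perp h0
  obtain ⟨c3, c4, p01⟩ := s.l5_pol (N 0) (N 1)
  obtain ⟨c3', c4', p10⟩ := s.l5_pol (N 1) (N 0)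
  refine DSing.of_line hs hl hT hN ?_ ?_ ?_ ?_
  · rw [T3.Model.subst_a, Model.l5_F, a, c]; ring
  · rw [T3.Model.subst_a2, p01, a, b, c, d]; ring
  · rw [T3.Model.subst_b1, p10, a, b, c, d]; ring
  · rw [T3.Model.subst_b, Model.l5_F, b, d]; ring

lemma l5b_pol {s : Model K} (hs : s.Std) (hl : s.lam ≠ 0) (hT : s.Tm.det ≠ 0) (h : ¬DSing s) :
    ∃ w, s.cub.pol s.mk' w ≠ 0 := by
  by_contra hc
  simp only [not_exists, not_not] at hc
  by_cases h0 : s.mk' = 0
  · exact h (DSing.of_mk hs hl hT h0)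
  · exact h (DSing.of_sing hs hl hT h0 hc)

theorem l5b_good {f : Model K} (h : ¬DSing f) {Q : Pt K} (hQ : f.Sm Q) : f.Good Q := by
  obtain ⟨g, e, hs, hl, hT⟩ := hQ
  have h' : ¬DSing (g • f) := mt (DSing.of_smul g) h
  refine ⟨g, e, hs, hl, ?_⟩
  generalize g • f = s at hs hl hT h'
  have h0 : s.mk' ≠ 0 := fun h0 => h' (DSing.of_mk hs hl hT h0)
  obtain ⟨k, ek, ks, k3⟩ := T3.Model.difa1_mover (f := s.cub) ⟨h0, l5b_F_mk s⟩ (by
    by_contra hc
    rw [T3.Model.lg_not_smooth] at hc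
    exact h' (DSing.of_sing hs hl hT h0 hc))
  refine ⟨k, ek, ks, k3, ?_⟩
  by_contra hc
  simp only [not_or, not_not] at hc
  refine h' (DSing.of_line hs hl hT (N := k.e) k.M.det_ne_zero ?_ ?_ ?_ ?_) <;>
    rw [← T3.G.scale_smul]
  · rw [T3.Model.scale_a, ks.a, mul_zero]
  · rw [T3.Model.scale_a2, ks.a2, mul_zero]
  · rw [T3.Model.scale_b1, hc.1, mul_zero]
  · rw [T3.Model.scale_b, hc.2, mul_zero]

lemma l5b_coeff {R : Type*} [CommRing R] (χ : R →+* K) {P : R[X]}
    (h : eval₂RingHom ((dnI K).comp χ) DualNumber.eps P = 0) :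
    χ (P.coeff 0) = 0 ∧ χ (P.coeff 1) = 0 := by
  have e1 := congrArg (eval₂RingHom ((dnI K).comp χ) DualNumber.eps) P.divX_mul_X_add
  have e2 := congrArg (eval₂RingHom ((dnI K).comp χ) DualNumber.eps) P.divX.divX_mul_X_add
  simp only [map_add, map_mul, coe_eval₂RingHom, eval₂_X, eval₂_C, coeff_divX, zero_add,
    RingHom.comp_apply] at e1 e2 h
  have e : dnI K (χ (P.coeff 1)) * DualNumber.eps + dnI K (χ (P.coeff 0)) = 0 := by
    linear_combination e1 + h + DualNumber.eps * e2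
      - eval₂ ((dnI K).comp χ) DualNumber.eps P.divX.divX * (l5d_sq (K := K))
  have f1 := congrArg TrivSqZeroExt.fst e
  have f2 := congrArg TrivSqZeroExt.snd e
  exact ⟨by simpa [TrivSqZeroExt.algebraMap_eq_inl] using f1,
    by simpa [TrivSqZeroExt.algebraMap_eq_inl] using f2⟩

variable {L κ : Type*} [Field L] [Field κ] {V : LocalField L} {red : V.O →+* κ}

/-- If the discriminant vanishes to second order at the reduction, then the square of the
uniformiser divides the discriminant. -/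
theorem sq_dvd_of_dsing [Finite κ] (hred : V.IsRed red 1) {p : ℕ} (hp : p.Prime)
    (hp0 : (p : L) = 0) (f : Model V.O) (ι : κ →+* K) (H : DSing ((f.map red).map ι)) :
    V.unif ^ 2 ∣ f.jac.Δ := by
  have hker : ∀ x : V.O, red x = 0 ↔ V.unif ∣ x := fun x => by
    rw [hred.ker, V.le_exp_iff_dvd, pow_one]
  have := Fact.mk hp
  have : CharP L p := (CharP.charP_iff_prime_eq_zero hp).2 hp0
  have : CharP V.O p := RingHom.charP V.incl V.incl_injective p
  have : CharP κ p := (CharP.charP_iff_prime_eq_zero hp).2 (by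
    rw [← map_natCast red, CharP.cast_eq_zero, map_zero])
  have dec : ∀ x : V.O, ∃ t h : V.O, x = t ^ p + V.unif * h := fun x => by
    obtain ⟨s, hs⟩ := surjective_frobenius κ p (red x)
    obtain ⟨t, rfl⟩ := hred.surj s
    obtain ⟨h, hh⟩ := (hker (x - t ^ p)).1 (by
      rw [map_sub, map_pow, ← hs, frobenius_def, sub_self])
    exact ⟨t, h, by linear_combination hh⟩
  choose t h hth using dec
  let s : V.O → V.O[X] := fun x => C (t x ^ p) + X * C (h x)
  let fT : Model V.O[X] := Model.equivVec.symm fun n => s (Model.equivVec f n)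
  let f₀ : Model V.O := Model.equivVec.symm fun n => t (Model.equivVec f n)
  let ψ : V.O[X] →+* DualNumber K := eval₂RingHom ((dnI K).comp (ι.comp red)) DualNumber.eps
  have s1 : ∀ x, evalRingHom V.unif (s x) = x := fun x => by
    simp only [s, coe_evalRingHom, eval_add, eval_mul, eval_C, eval_X]; exact (hth x).symm
  have s0 : ∀ x, evalRingHom 0 (s x) = frobenius V.O p (t x) := fun x => by
    simp [s, frobenius_def]
  have s2 : ∀ x, dnR K (ψ (s x)) = ι (red x) := fun x => by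
    have z : dnR K DualNumber.eps = 0 := rfl
    conv_rhs => rw [hth x]
    simp only [s, ψ, coe_eval₂RingHom, eval₂_C, eval₂_X, map_add, map_mul,
      RingHom.comp_apply, l5d_RI, z, (hker _).2 dvd_rfl, map_zero, zero_mul]
  have e1 : fT.map (evalRingHom V.unif) = f := by
    simp only [fT, Model.equivVec_symm_map, s1]
    exact Model.equivVec.symm_apply_apply f
  have e0 : fT.map (evalRingHom 0) = f₀.map (frobenius V.O p) := by
    simp only [fT, f₀, Model.equivVec_symm_map, s0]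
  have e2 : (fT.map ψ).map (dnR K) = (f.map red).map ι := by
    simp only [fT, Model.equivVec_symm_map, s2]
    exact Model.equivVec.symm_apply_apply ((f.map red).map ι)
  have hX := H _ e2
  rw [Model.jac_map, map_Δ] at hX
  obtain ⟨c0, c1⟩ := l5b_coeff _ hX
  rw [RingHom.comp_apply, map_eq_zero] at c0 c1
  have d0 : fT.jac.Δ.coeff 0 = f₀.jac.Δ ^ p := by
    rw [coeff_zero_eq_eval_zero, ← coe_evalRingHom, ← map_Δ, ← Model.jac_map, e0, Model.jac_map,
      map_Δ, frobenius_def]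
  rw [← e1, Model.jac_map, map_Δ, coe_evalRingHom]
  refine T3.lg_sq_dvd_eval ?_ ((hker _).1 c1)
  rw [d0, map_pow, pow_eq_zero_iff hp.ne_zero, hker] at c0
  rw [d0]
  exact (pow_dvd_pow _ hp.two_le).trans (pow_dvd_pow_of_dvd c0 p)

end SelAvg.FF.T5
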