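import Pool.Agent.H34P.LocG
import Pool.Agent.H34P.Lang5

/-! If the discriminant has valuation at most one, the local weight is one. -/

namespace SelAvg.FF.T5.LocalField

open WeierstrassCurve

variable {L κ : Type*} [Field L] [Field κ] {V : LocalField L} {red : V.O →+* κ}

theorem phiL_eq_one [Finite κ] (hred : V.IsRed red 1) {p : ℕ} (hp : p.Prime) (hp0 : (p : L) = 0)
    {f : Model V.O} (hΔ : ¬V.unif ^ 2 ∣ f.jac.Δ) : V.phiL5 red f = 1 := by
  obtain ⟨Q, hQ⟩ := exists_good_point hred hp hp0 hΔ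
  exact phiL_eq_one_of_good hred hΔ hQ

end SelAvg.FF.T5.LocalField
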