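import Pool.Agent.H34P.Mod
import Pool.Agent.H34P.ParA

/-! Local theory of degree five models: identities over rings and fields. -/

namespace SelAvg.FF.T5

open WeierstrassCurve Matrix

section Ring

variable {R S : Type*} [CommRing R] [CommRing S]

namespace Model

/-- the cross product of the two columns of coefficients of `x₁` -/
def nx (f : Model R) : T3.Pt R := crossProduct (f.nv 3) (f.nv 4)

lemma loc_alp3_mk (f : Model R) : f.alp 3 ⬝ᵥ f.mk' = 0 := dot_self_cross _ _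

lemma loc_alp4_mk (f : Model R) : f.alp 4 ⬝ᵥ f.mk' = 0 := dot_cross_self _ _

lemma loc_F_mk (f : Model R) : f.cub.F f.mk' = 0 := by
  rw [F_cub, loc_alp3_mk, loc_alp4_mk]; ring

lemma loc_pol_cub (f : Model R) (p q : T3.Pt R) : f.cub.pol p q =
    (f.alp 3 ⬝ᵥ q) * f.qd 4 p + (f.alp 3 ⬝ᵥ p) * (p ᵥ* f.qm 4 ⬝ᵥ q + q ᵥ* f.qm 4 ⬝ᵥ p)
      - (f.alp 4 ⬝ᵥ q) * f.qd 3 p - (f.alp 4 ⬝ᵥ p) * (p ᵥ* f.qm 3 ⬝ᵥ q + q ᵥ* f.qm 3 ⬝ᵥ p) := by
  simp only [cub, ofTensor, T3.Model.pol, T3.Model.Fx, T3.Model.Fy, T3.Model.Fz, qd, vecMul,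
    dotProduct, Fin.sum_univ_three]
  ring

lemma loc_pol_mk (f : Model R) (q : T3.Pt R) : f.cub.pol f.mk' q =
    (f.alp 3 ⬝ᵥ q) * f.qd 4 f.mk' - (f.alp 4 ⬝ᵥ q) * f.qd 3 f.mk' := by
  rw [loc_pol_cub, loc_alp3_mk, loc_alp4_mk]; ring

lemma loc_Tm_mk (f : Model R) : f.Tm *ᵥ f.mk' = f.Tm.det • f.nx := by
  funext r
  fin_cases r <;>
    simp [mk', nx, alp, crossProduct, mulVec, vecMul, dotProduct, Fin.sum_univ_three,
      det_fin_three] <;> ring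

lemma loc_qd (f : Model R) (i : Fin 5) (v : T3.Pt R) : f.qd i v =
    (f.lin 0 i ⬝ᵥ v) * (f.Tm *ᵥ v) 0 + (f.lin 1 i ⬝ᵥ v) * (f.Tm *ᵥ v) 1
      + (f.lin 2 i ⬝ᵥ v) * (f.Tm *ᵥ v) 2 := by
  simp only [qd, qm, of_apply, mulVec, vecMul, dotProduct, Fin.sum_univ_three]
  ring

lemma loc_qd_smul (f : Model R) (i : Fin 5) (t : R) (v : T3.Pt R) :
    f.qd i (t • v) = t ^ 2 * f.qd i v := by
  simp only [qd, vecMul, dotProduct, Fin.sum_univ_three, Pi.smul_apply, smul_eq_mul]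
  ring

lemma loc_det_dvd_qd (f : Model R) (i : Fin 5) : f.Tm.det ∣ f.qd i f.mk' := by
  rw [loc_qd, loc_Tm_mk]
  simp only [Pi.smul_apply, smul_eq_mul]
  exact dvd_add (dvd_add ((dvd_mul_right _ _).mul_left _) ((dvd_mul_right _ _).mul_left _))
    ((dvd_mul_right _ _).mul_left _)

lemma loc_det_dvd_pol (f : Model R) (q : T3.Pt R) : f.Tm.det ∣ f.cub.pol f.mk' q := by
  rw [loc_pol_mk]
  exact dvd_sub (Dvd.dvd.mul_left (f.loc_det_dvd_qd 4) _) (Dvd.dvd.mul_left (f.loc_det_dvd_qd 3) _)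

lemma Std.loc_F_tail {f : Model R} (h : f.Std) {Q : Pt R} (hQ : Rk2 (f.ev Q)) :
    f.cub.F Q.tail = 0 := by
  have h3 := hQ 0 1 2 3
  have h4 := hQ 0 1 2 4
  rw [h.pf_three] at h3
  rw [h.pf_four] at h4
  rw [F_cub]
  linear_combination (f.alp 3 ⬝ᵥ Q.tail) * h4 - (f.alp 4 ⬝ᵥ Q.tail) * h3

/-- on the tangent line -/
lemma Std.loc_tail_zero {f : Model R} (h : f.Std) {Q : Pt R} (hQ : Rk2 (f.ev Q))
    (h0 : Q.tail = 0) (r : Fin 3) : Q 1 ^ 2 * f.nx r = 0 := by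
  have e2 : Q 2 = 0 := congrFun h0 0
  have e3 : Q 3 = 0 := congrFun h0 1
  have e4 : Q 4 = 0 := congrFun h0 2
  have p0 := hQ 1 2 3 4
  have p1 := hQ 0 2 3 4
  have p2 := hQ 0 1 3 4
  simp only [pf, ev_apply, Fin.sum_univ_five, e2, e3, e4, h.c001, h.c002, h.c003, h.c004, h.c012,
    h.c013, h.c014, h.c023, h.c024, h.c101, h.c102, h.c112] at p0 p1 p2
  fin_cases r <;> simp [nx, nv, crossProduct, -mul_eq_zero]
  · linear_combination -p0
  · linear_combination p1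
  · linear_combination -p2

/-- near the standard point -/
lemma Std.loc_near {f : Model R} (h : f.Std) {Q : Pt R} (hQ : Rk2 (f.ev Q)) {s : R} {v : T3.Pt R}
    (h0 : Q.tail = s • v) {i : Fin 5} (hi : i = 3 ∨ i = 4) :
    ∃ X Y : R, s * (f.lam * Q 0 * (f.alp i ⬝ᵥ v)) = s * (Q 1 * X + s * Y) := by
  have e2 : Q 2 = s * v 0 := congrFun h0 0
  have e3 : Q 3 = s * v 1 := congrFun h0 1
  have e4 : Q 4 = s * v 2 := congrFun h0 2
  have p0 := hQ 1 2 3 4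
  have p1 := hQ 0 2 3 4
  have p2 := hQ 0 1 3 4
  simp only [pf, ev_apply, Fin.sum_univ_five, e2, e3, e4, h.c001, h.c002, h.c003, h.c004, h.c012,
    h.c013, h.c014, h.c023, h.c024, h.c101, h.c102, h.c112] at p0 p1 p2
  refine ⟨f.nv i ⬝ᵥ (crossProduct (f.nv 3) ![f.lin 0 4 ⬝ᵥ v, f.lin 1 4 ⬝ᵥ v, f.lin 2 4 ⬝ᵥ v] +
      crossProduct ![f.lin 0 3 ⬝ᵥ v, f.lin 1 3 ⬝ᵥ v, f.lin 2 3 ⬝ᵥ v] (f.nv 4))
        - f.c 1 3 4 * (f.alp i ⬝ᵥ v),
    f.nv i ⬝ᵥ crossProduct ![f.lin 0 3 ⬝ᵥ v, f.lin 1 3 ⬝ᵥ v, f.lin 2 3 ⬝ᵥ v]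
      ![f.lin 0 4 ⬝ᵥ v, f.lin 1 4 ⬝ᵥ v, f.lin 2 4 ⬝ᵥ v] - (f.lin 3 4 ⬝ᵥ v) * (f.alp i ⬝ᵥ v), ?_⟩
  rcases hi with rfl | rfl
  · simp [lam, alp, nv, Tm, lin, crossProduct, vecMul, dotProduct, Fin.sum_univ_three,
      -mul_eq_mul_left_iff]
    linear_combination f.c 1 0 3 * p0 - f.c 1 1 3 * p1 + f.c 1 2 3 * p2
  · simp [lam, alp, nv, Tm, lin, crossProduct, vecMul, dotProduct, Fin.sum_univ_three,
      -mul_eq_mul_left_iff]
    linear_combination f.c 1 0 4 * p0 - f.c 1 1 4 * p1 + f.c 1 2 4 * p2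

end Model

/-- unipotent matrices that clear the columns `3, 4` -/
def locUp (p q : Fin 3 → R) : Matrix (Fin 5) (Fin 5) R :=
  !![1, 0, 0, p 0, q 0; 0, 1, 0, p 1, q 1; 0, 0, 1, p 2, q 2; 0, 0, 0, 1, 0; 0, 0, 0, 0, 1]

lemma locUp_mul (p q : Fin 3 → R) : locUp p q * locUp (-p) (-q) = 1 := by
  ext i j
  fin_cases i <;> fin_cases j <;> simp [locUp, mul_apply, Fin.sum_univ_five]

/-- unipotent matrices that move the tangent direction -/
def locRow (s : Fin 3 → R) : Matrix (Fin 5) (Fin 5) R :=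
  !![1, 0, 0, 0, 0; 0, 1, s 0, s 1, s 2; 0, 0, 1, 0, 0; 0, 0, 0, 1, 0; 0, 0, 0, 0, 1]

lemma locRow_mul (s : Fin 3 → R) : locRow s * locRow (-s) = 1 := by
  ext i j
  fin_cases i <;> fin_cases j <;> simp [locRow, mul_apply, Fin.sum_univ_five]

/-- `locUp` as a group element -/
def locUpG (p q : Fin 3 → R) : G R :=
  G.ofA ⟨locUp p q, locUp (-p) (-q), locUp_mul p q, by simpa using locUp_mul (-p) (-q)⟩

/-- `locRow` as a group element -/
def locRowG (s : Fin 3 → R) : G R :=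
  G.ofM ⟨locRow s, locRow (-s), locRow_mul s, by simpa using locRow_mul (-s)⟩

lemma locUpG_map (φ : R →+* S) {p q : Fin 3 → R} (hp : ∀ r, φ (p r) = 0) (hq : ∀ r, φ (q r) = 0) :
    G.map φ (locUpG p q) = 1 := by
  refine G.ext ?_ (by simp [locUpG])
  ext i j
  change φ (locUp p q i j) = (1 : Matrix (Fin 5) (Fin 5) S) i j
  fin_cases i <;> fin_cases j <;> simp [locUp, hp, hq]

lemma locRowG_map (φ : R →+* S) {s : Fin 3 → R} (hs : ∀ r, φ (s r) = 0) :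
    G.map φ (locRowG s) = 1 := by
  refine G.ext (by simp [locRowG]) ?_
  ext i j
  change φ (locRow s i j) = (1 : Matrix (Fin 5) (Fin 5) S) i j
  fin_cases i <;> fin_cases j <;> simp [locRow, hs]

lemma locUpG_pt (p q : Fin 3 → R) (Q : Pt R) : (locUpG p q).pt Q = Q := by
  simp [locUpG, G.pt, G.e]

lemma locRowG_pt (s : Fin 3 → R) : (locRowG s).pt Pt.std = Pt.std := by
  rw [G.pt_std]
  funext j
  change locRow s 0 j = _
  fin_cases j <;> simp [locRow]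

lemma locUpG_c (p q : Fin 3 → R) (f : Model R) (k : Fin 5) :
    (locUpG p q • f).c k = locUp p q * f.c k * (locUp p q)ᵀ := by
  have h : (1 : Matrix (Fin 5) (Fin 5) R) k = Pi.single k 1 := by
    funext j; simp [one_apply, Pi.single_apply, eq_comm]
  change locUp p q * f.ev ((1 : Matrix (Fin 5) (Fin 5) R) k) * (locUp p q)ᵀ = _
  rw [h, Model.ev_single]

lemma locRowG_c (s : Fin 3 → R) (f : Model R) (k i j : Fin 5) :
    (locRowG s • f).c k i j = ∑ l, locRow s k l * f.c l i j := by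
  change ((1 : Matrix (Fin 5) (Fin 5) R) * f.ev (locRow s k) * (1 : Matrix (Fin 5) (Fin 5) R)ᵀ) i j = _
  rw [transpose_one, mul_one, one_mul, Model.ev_apply]

/-- exact standard position from standard position of a reduction -/
theorem loc_exists_std (φ : R →+* S) (hφ : ∀ x, IsUnit (φ x) → IsUnit x) {f : Model R}
    (hrk : Rk2 (f.c 0)) (hS : (f.map φ).Std) (hl : IsUnit (f.map φ).lam)
    (hT : IsUnit (f.map φ).Tm.det) :
    ∃ k : G R, G.map φ k = 1 ∧ k.pt Pt.std = Pt.std ∧ (k • f).Std := by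
  obtain ⟨u, hu⟩ := (hφ f.lam hl).exists_right_inv
  have hu' : f.c 0 3 4 * u = 1 := hu
  set k₁ : G R := locUpG ![-(f.c 0 0 4 * u), -(f.c 0 1 4 * u), -(f.c 0 2 4 * u)]
    ![f.c 0 0 3 * u, f.c 0 1 3 * u, f.c 0 2 3 * u] with hk₁
  have m₁ : G.map φ k₁ = 1 := by
    have a3 : φ (f.c 0 0 3) = 0 := hS.c003
    have a4 : φ (f.c 0 0 4) = 0 := hS.c004
    have b3 : φ (f.c 0 1 3) = 0 := hS.c013
    have b4 : φ (f.c 0 1 4) = 0 := hS.c014
    have c3 : φ (f.c 0 2 3) = 0 := hS.c023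
    have c4 : φ (f.c 0 2 4) = 0 := hS.c024
    refine locUpG_map φ (fun r => ?_) fun r => ?_ <;> fin_cases r <;> simp [a3, a4, b3, b4, c3, c4]
  obtain ⟨f₁, hf₁⟩ : ∃ f₁, f₁ = k₁ • f := ⟨_, rfl⟩
  have e₁ : f₁.map φ = f.map φ := by rw [hf₁, G.map_smul, m₁, one_smul]
  have a := f.alt 0
  have p0 := hrk 1 2 3 4
  have p1 := hrk 0 2 3 4
  have p2 := hrk 0 1 3 4
  simp only [pf] at p0 p1 p2
  have z : f₁.c 0 0 1 = 0 ∧ f₁.c 0 0 2 = 0 ∧ f₁.c 0 0 3 = 0 ∧ f₁.c 0 0 4 = 0 ∧ f₁.c 0 1 2 = 0 ∧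
      f₁.c 0 1 3 = 0 ∧ f₁.c 0 1 4 = 0 ∧ f₁.c 0 2 3 = 0 ∧ f₁.c 0 2 4 = 0 := by
    rw [hf₁, hk₁, locUpG_c]
    simp only [moda_conj]
    simp [locUp, Fin.sum_univ_five, f.diag, a 1 3, a 1 4, a 2 3, a 2 4, a 3 4]
    refine ⟨?_, ?_, ?_, ?_, ?_, ?_, ?_, ?_, ?_⟩
    · linear_combination u * p2 + (-f.c 0 0 1 + u * (f.c 0 0 3 * f.c 0 1 4 - f.c 0 0 4 * f.c 0 1 3)) * hu'
    · linear_combination u * p1 + (-f.c 0 0 2 + u * (f.c 0 0 3 * f.c 0 2 4 - f.c 0 0 4 * f.c 0 2 3)) * hu'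
    · linear_combination (-f.c 0 0 3) * hu'
    · linear_combination (-f.c 0 0 4) * hu'
    · linear_combination u * p0 + (-f.c 0 1 2 + u * (f.c 0 1 3 * f.c 0 2 4 - f.c 0 1 4 * f.c 0 2 3)) * hu'
    · linear_combination (-f.c 0 1 3) * hu'
    · linear_combination (-f.c 0 1 4) * hu'
    · linear_combination (-f.c 0 2 3) * hu'
    · linear_combination (-f.c 0 2 4) * hu'
  have hT₁ : IsUnit f₁.Tm.det := hφ _ (by
    rw [RingHom.map_det, RingHom.mapMatrix_apply, ← Model.Tm_map, e₁]; exact hT)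
  obtain ⟨s, hs, hs0⟩ : ∃ s : Fin 3 → R, f₁.Tm *ᵥ s = ![-f₁.c 1 1 2, f₁.c 1 0 2, -f₁.c 1 0 1] ∧
      ∀ r, φ (s r) = 0 := by
    refine ⟨f₁.Tm⁻¹ *ᵥ ![-f₁.c 1 1 2, f₁.c 1 0 2, -f₁.c 1 0 1], ?_, fun r => ?_⟩
    · rw [mulVec_mulVec, mul_nonsing_inv _ hT₁, one_mulVec]
    · have b1 : φ (f₁.c 1 0 1) = 0 := (e₁ ▸ hS : (f₁.map φ).Std).c101
      have b2 : φ (f₁.c 1 0 2) = 0 := (e₁ ▸ hS : (f₁.map φ).Std).c102
      have b3 : φ (f₁.c 1 1 2) = 0 := (e₁ ▸ hS : (f₁.map φ).Std).c112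
      simp [mulVec, dotProduct, Fin.sum_univ_three, b1, b2, b3]
  have s0 := congrFun hs 0
  have s1 := congrFun hs 1
  have s2 := congrFun hs 2
  simp [Model.Tm, Model.lin, mulVec, dotProduct, Fin.sum_univ_three] at s0 s1 s2
  refine ⟨locRowG s * k₁, by rw [map_mul, m₁, locRowG_map φ hs0, mul_one],
    by rw [G.mul_pt, locRowG_pt, hk₁, locUpG_pt], ?_⟩
  rw [mul_smul, ← hf₁]
  obtain ⟨z1, z2, z3, z4, z5, z6, z7, z8, z9⟩ := z
  constructor <;> simp [locRowG_c, locRow, Fin.sum_univ_five, z1, z2, z3, z4, z5, z6, z7, z8, z9]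
  · linear_combination s2
  · linear_combination -s1
  · linear_combination s0

lemma loc_GL_of_map {n : ℕ} (φ : R →+* S) (hφ : ∀ x, IsUnit (φ x) → IsUnit x) (M : GL (Fin n) S)
    (N : Matrix (Fin n) (Fin n) R) (h : N.map φ = M.1) :
    ∃ N' : GL (Fin n) R, N'.1 = N ∧ Matrix.GeneralLinearGroup.map φ N' = M := by
  have hd : IsUnit N.det := hφ _ (by
    rw [RingHom.map_det, RingHom.mapMatrix_apply, h]
    exact (Matrix.isUnit_iff_isUnit_det _).1 M.isUnit)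
  refine ⟨((Matrix.isUnit_iff_isUnit_det _).2 hd).unit, rfl, Units.ext ?_⟩
  exact h

/-- group elements lift, with prescribed image of the standard point -/
lemma loc_lift_G (φ : R →+* S) (hs : Function.Surjective φ) (hφ : ∀ x, IsUnit (φ x) → IsUnit x)
    (g : G S) {Q : Pt R} (hQ : Q.map φ = g.pt Pt.std) :
    ∃ k : G R, G.map φ k = g ∧ k.pt Pt.std = Q := by
  choose l hl using hs
  obtain ⟨A, -, hA⟩ := loc_GL_of_map φ hφ g.A (g.a.map l) (by ext i j; simp [hl])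
  obtain ⟨M, hM0, hM⟩ := loc_GL_of_map φ hφ g.M ((g.e.map l).updateRow 0 Q) (by
    ext i j
    rw [G.pt_std] at hQ
    by_cases hi : i = 0
    · subst hi
      simpa using congrFun hQ j
    · simp [updateRow_ne hi, hl])
  refine ⟨⟨A, M⟩, G.ext hA hM, ?_⟩
  rw [G.pt_std]
  change M.1 0 = Q
  rw [hM0, updateRow_self]

end Ring

section Field

variable {κ : Type*} [Field κ]

namespace Model

lemma GoodStd.loc_mk_ne {f : Model κ} (h : f.GoodStd) : f.mk' ≠ 0 := h.good.on.prim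

lemma GoodStd.loc_det {f : Model κ} (h : f.GoodStd) : f.Tm.det ≠ 0 := by
  obtain ⟨w, hw⟩ := T3.Model.smooth_iff.1 h.good.smooth
  intro h0
  exact hw (zero_dvd_iff.1 (h0 ▸ f.loc_det_dvd_pol w))

lemma GoodStd.loc_nx {f : Model κ} (h : f.GoodStd) : f.nx ≠ 0 := by
  intro h0
  have e := f.loc_Tm_mk
  rw [h0, smul_zero] at e
  exact h.loc_mk_ne (Matrix.eq_zero_of_mulVec_eq_zero h.loc_det e)

lemma GoodStd.loc_one {f : Model κ} (h : f.GoodStd) {Q : Pt κ} (hQ : Rk2 (f.ev Q))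
    (h0 : Q.tail = 0) : Q 1 = 0 := by
  obtain ⟨r, hr⟩ := Function.ne_iff.1 h.loc_nx
  exact pow_eq_zero_iff two_ne_zero |>.1
    ((mul_eq_zero.1 (h.std.loc_tail_zero hQ h0 r)).resolve_right hr)

/-- no second point over the marked point -/
lemma GoodStd.loc_far {f : Model κ} (h : f.GoodStd) {Q : Pt κ} (hQ : Rk2 (f.ev Q)) :
    ¬T3.Pt.Eqv f.mk' Q.tail := by
  rintro ⟨t, ht, e⟩
  have h3 := hQ 0 1 2 3
  have h4 := hQ 0 1 2 4
  rw [h.std.pf_three, e, dotProduct_smul, loc_alp3_mk, loc_qd_smul] at h3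
  rw [h.std.pf_four, e, dotProduct_smul, loc_alp4_mk, loc_qd_smul] at h4
  simp only [smul_zero, mul_zero, zero_add, mul_eq_zero, pow_eq_zero_iff two_ne_zero, ht,
    false_or] at h3 h4
  obtain ⟨w, hw⟩ := T3.Model.smooth_iff.1 h.good.smooth
  exact hw (by rw [loc_pol_mk, h3, h4]; ring)

lemma GoodStd.loc_eqv {f : Model κ} (h : f.GoodStd) {v : T3.Pt κ} (hv : v ≠ 0)
    (h3 : f.alp 3 ⬝ᵥ v = 0) (h4 : f.alp 4 ⬝ᵥ v = 0) : T3.Pt.Eqv f.mk' v := by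
  have key : ∀ i j, f.mk' i * v j = f.mk' j * v i := by
    simp only [dotProduct, Fin.sum_univ_three] at h3 h4
    intro i j
    fin_cases i <;> fin_cases j <;> simp [mk', crossProduct, -mul_eq_mul_right_iff]
    · linear_combination f.alp 4 2 * h3 - f.alp 3 2 * h4
    · linear_combination f.alp 3 1 * h4 - f.alp 4 1 * h3
    · linear_combination f.alp 3 2 * h4 - f.alp 4 2 * h3
    · linear_combination f.alp 4 0 * h3 - f.alp 3 0 * h4
    · linear_combination f.alp 4 1 * h3 - f.alp 3 1 * h4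
    · linear_combination f.alp 3 0 * h4 - f.alp 4 0 * h3
  obtain ⟨i, hi⟩ := Function.ne_iff.1 h.loc_mk_ne
  have hi' : f.mk' i ≠ 0 := hi
  have e : v = (v i / f.mk' i) • f.mk' := by
    funext j
    rw [Pi.smul_apply, smul_eq_mul, div_mul_eq_mul_div, eq_div_iff hi']
    linear_combination key i j
  refine ⟨v i / f.mk' i, fun h0 => hv ?_, e⟩
  rw [e, h0, zero_smul]

end Model

end Field

end SelAvg.FF.T5
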