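import Pool.Agent.H34P.LocS
import Pool.Agent.H5T.Loc

/-! If the discriminant has valuation at most one, every integral point is good. -/

namespace SelAvg.FF.T5

open WeierstrassCurve WithZero Matrix SelAvg.LocalField
open scoped Classical

lemma locG_plane {κ : Type*} [Field κ] {c : Fin 3 → κ} (hc : c ≠ 0) :
    ∃ M : Matrix (Fin 3) (Fin 3) κ, M.det ≠ 0 ∧
      ∀ a : Fin 3 → κ, crossProduct c a = 0 → a ⬝ᵥ M 0 = 0 ∧ a ⬝ᵥ M 1 = 0 := by
  obtain ⟨i, hi⟩ := Function.ne_iff.1 hc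
  have key : ∀ a : Fin 3 → κ, crossProduct c a = 0 → c 1 * a 2 - c 2 * a 1 = 0 ∧
      c 2 * a 0 - c 0 * a 2 = 0 ∧ c 0 * a 1 - c 1 * a 0 = 0 := fun a h =>
    ⟨congrFun h 0, congrFun h 1, congrFun h 2⟩
  fin_cases i
  · have h0 : c 0 ≠ 0 := hi
    refine ⟨!![-c 1, c 0, 0; -c 2, 0, c 0; 1, 0, 0], by simp [det_fin_three, h0], fun a h => ?_⟩
    obtain ⟨-, h1, h2⟩ := key a h
    constructor <;> simp [dotProduct, Fin.sum_univ_three]
    · linear_combination h2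
    · linear_combination -h1
  · have h0 : c 1 ≠ 0 := hi
    refine ⟨!![c 1, -c 0, 0; 0, -c 2, c 1; 0, 1, 0], by simp [det_fin_three, h0], fun a h => ?_⟩
    obtain ⟨h1, -, h2⟩ := key a h
    constructor <;> simp [dotProduct, Fin.sum_univ_three]
    · linear_combination -h2
    · linear_combination h1
  · have h0 : c 2 ≠ 0 := hi
    refine ⟨!![c 2, 0, -c 0; 0, c 2, -c 1; 0, 0, 1], by simp [det_fin_three, h0], fun a h => ?_⟩
    obtain ⟨h1, h2, -⟩ := key a h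
    constructor <;> simp [dotProduct, Fin.sum_univ_three]
    · linear_combination h2
    · linear_combination -h1

/-- if the marked vector vanishes the cubic contains a line -/
lemma locG_line {κ : Type*} [Field κ] {f : Model κ} (h : f.mk' = 0) :
    ∃ M : Matrix (Fin 3) (Fin 3) κ, M.det ≠ 0 ∧ (f.cub.subst M).a = 0 ∧ (f.cub.subst M).a2 = 0 ∧
      (f.cub.subst M).b1 = 0 ∧ (f.cub.subst M).b = 0 := by
  obtain ⟨M, hM, h1, h2, h3, h4⟩ : ∃ M : Matrix (Fin 3) (Fin 3) κ, M.det ≠ 0 ∧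
      f.alp 3 ⬝ᵥ M 0 = 0 ∧ f.alp 3 ⬝ᵥ M 1 = 0 ∧ f.alp 4 ⬝ᵥ M 0 = 0 ∧ f.alp 4 ⬝ᵥ M 1 = 0 := by
    by_cases h3 : f.alp 3 = 0
    · by_cases h4 : f.alp 4 = 0
      · exact ⟨1, by simp, by simp [h3], by simp [h3], by simp [h4], by simp [h4]⟩
      · obtain ⟨M, hM, H⟩ := locG_plane h4
        exact ⟨M, hM, by simp [h3], by simp [h3], (H _ (cross_self _)).1, (H _ (cross_self _)).2⟩
    · obtain ⟨M, hM, H⟩ := locG_plane h3
      exact ⟨M, hM, (H _ (cross_self _)).1, (H _ (cross_self _)).2, (H _ h).1, (H _ h).2⟩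
  refine ⟨M, hM, ?_, ?_, ?_, ?_⟩
  · rw [T3.Model.subst_a, Model.F_cub, h1, h3]; ring
  · rw [T3.Model.subst_a2, Model.loc_pol_cub, h1, h2, h3, h4]; ring
  · rw [T3.Model.subst_b1, Model.loc_pol_cub, h1, h2, h3, h4]; ring
  · rw [T3.Model.subst_b, Model.F_cub, h2, h4]; ring

namespace LocalField

variable {L κ : Type*} [Field L] [Field κ] {V : LocalField L} {red : V.O →+* κ}

lemma sq_dvd_smul (k : G V.O) {f : Model V.O} (h : V.unif ^ 2 ∣ (k • f).jac.Δ) :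
    V.unif ^ 2 ∣ f.jac.Δ := by
  rw [G.jac_smul, variableChange_Δ, ← Units.val_pow_eq_pow_val] at h
  exact Units.dvd_mul_left.1 h

lemma sq_dvd_of_mk (hred : V.IsRed red 1) {f : Model V.O} (h : (f.map red).mk' = 0) :
    V.unif ^ 2 ∣ f.cub.jac.Δ := by
  obtain ⟨M, hM, h1, h2, h3, h4⟩ := locG_line h
  choose l hl using hred.surj
  obtain ⟨N, hN, -⟩ := loc_GL_of_map red (locP_loc hred)
    (Matrix.GeneralLinearGroup.mkOfDetNeZero M hM) (M.map l) (by ext i j; simp [hl])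
  have e : (T3.G.ofM N • f.cub).map red = (f.map red).cub.subst M := by
    have e1 : T3.G.ofM N • f.cub = f.cub.subst (M.map l) := by
      simp [T3.G.smul_def, T3.G.e, hN]
    have e2 : (M.map l).map red = M := by ext i j; simp [hl]
    rw [e1, T3.Model.map_subst, e2, Model.cub_map]
  rw [← e] at h1 h2 h3 h4
  exact T3.LocalField.sq_dvd_smul (T3.G.ofM N) (T3.Model.sq_dvd_of_line _
    ((locGood_red_eq_zero hred _).1 h1) ((locGood_red_eq_zero hred _).1 h2)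
    ((locGood_red_eq_zero hred _).1 h3) ((locGood_red_eq_zero hred _).1 h4))

lemma goodStd_of_not_sq_dvd (hred : V.IsRed red 1) {f : Model V.O} (h : f.Std)
    (hΔ : ¬V.unif ^ 2 ∣ f.jac.Δ) : (f.map red).GoodStd := by
  rw [Model.Δ_std h] at hΔ
  have h3 : ¬V.unif ^ 2 ∣ f.cub.jac.Δ := fun k => hΔ (k.mul_left _)
  refine ⟨h.map red, fun k => hΔ (Dvd.dvd.mul_right ?_ _), ?_⟩
  · exact (pow_dvd_pow_of_dvd ((locGood_red_eq_zero hred _).1 k) 2).trans
      (pow_dvd_pow _ (by norm_num))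
  · have hp : V.IPrim3 f.mk' := by
      rw [IPrim3.map_red hred, ← Model.mk'_map]
      exact fun k => h3 (sq_dvd_of_mk hred k)
    rw [Model.cub_map, Model.mk'_map]
    exact T3.LocalField.good_of_not_sq_dvd hred h3 hp f.loc_F_mk

/-- every integral point is good -/
theorem good_of_not_sq_dvd (hred : V.IsRed red 1) {f : Model V.O} (hΔ : ¬V.unif ^ 2 ∣ f.jac.Δ)
    {Q : Pt V.O} (hQ : V.IPrim5 Q) (hF : Rk2 (f.ev Q)) : (f.map red).Good (Q.map red) := by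
  obtain ⟨A, B, hB, hS⟩ := exists_std_GL f hQ hF
  have hk : (⟨A, B⟩ : G V.O).pt Pt.std = Q := (G.pt_std _).trans hB
  have hg := goodStd_of_not_sq_dvd hred (f := (⟨A, B⟩ : G V.O) • f) hS
    fun k => hΔ (sq_dvd_smul _ k)
  rw [← hk, good_red_pt]
  exact (Model.good_std hg.std).2 hg

/-- the weight is one as soon as there is a good point -/
theorem phiL_eq_one_of_good [Finite κ] (hred : V.IsRed red 1) {f : Model V.O}
    (hΔ : ¬V.unif ^ 2 ∣ f.jac.Δ) {Q : Pt κ} (hQ : (f.map red).Good Q) : V.phiL5 red f = 1 := by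
  have hW := locGood_ne_zero hΔ
  obtain ⟨Q₁, hQ₁, hF₁, -⟩ := exists_lift hred f hQ
  have hz₀ : (⟨f, 1⟩ : Obj V.O).Over f.jac := (one_smul _ _).symm
  have hz := hz₀.map V.incl
  let p₀ : V.LocRep5 ((⟨f, 1⟩ : Obj V.O).map V.incl) := ⟨1, ⟨f, 1⟩, one_smul _ _⟩
  have h₁ := locModel_on p₀ hQ₁ hF₁
  have hlift : ∀ τ : {q : PIdx κ // (f.map red).Good (npt q)},
      ∃ Q : Pt V.O, V.IPrim5 Q ∧ Rk2 (f.ev Q) ∧ Q.map red = npt τ.1 :=
    fun τ => exists_lift hred _ τ.2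
  choose lift hl1 hl2 hl3 using hlift
  have h1 : V.Nloc f.jac ≤ nGood (f.map red) := by
    refine Nat.card_le_card_of_surjective (fun τ =>
      ((D (f.jac.map V.incl) ((⟨f, 1⟩ : Obj V.O).map V.incl) (p₀.g.pt (Q₁.map V.incl))
        (p₀.g.pt ((lift τ).map V.incl)) :
        (f.jac.map V.incl).toAffine.Point) : (f.jac.map V.incl).toAffine.Point ⧸ V.E1 f.jac)) ?_
    intro c
    obtain ⟨R, rfl⟩ := QuotientAddGroup.mk_surjective c
    obtain ⟨P, hP, rfl⟩ := D_surjective (locModel_Delta hW) hz h₁ R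
    obtain ⟨Q₂, hQ₂, hF₂, e⟩ := locModel_rep p₀ hP
    have hg := good_of_not_sq_dvd hred hΔ hQ₂ hF₂
    obtain ⟨q, hq⟩ := exists_npt hg.on.prim
    refine ⟨⟨q, hg.eqv hq⟩, ?_⟩
    rw [D_eqv (locModel_Delta hW) hz h₁ hP (Pt.Eqv.refl _) e]
    symm
    refine (locModel_coset hW hz h₁ (locModel_on p₀ hQ₂ hF₂)
      (locModel_on p₀ (hl1 ⟨q, hg.eqv hq⟩) (hl2 _))).2 ?_
    rw [locModel_disc hred hW hz p₀ hQ₂ hF₂ hg (hl1 _) (hl2 _), hl3]
    exact hq
  have h2 := nGood_le_Nloc hred hW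
  have h3 := Nloc_pos hred hW
  unfold phiL5
  rw [le_antisymm h2 h1]
  exact div_self (by exact_mod_cast h3.ne')

end LocalField

end SelAvg.FF.T5
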