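import Pool.Agent.H34P.LocD
import Pool.Agent.H34P.LocA
import Pool.Agent.H34P.DifA
import Pool.Agent.H38Sel.LocB

/-! Local theory of degree five models: counting good points, integral points. -/

namespace SelAvg.FF.T5

open WeierstrassCurve WithZero Matrix
open scoped Classical

section Field

variable {κ : Type*} [Field κ]

lemma npt_one (p : PIdx κ) : ∃ i, npt p i = 1 := by
  obtain p | p | p | _ | z := p
  exacts [⟨0, rfl⟩, ⟨1, rfl⟩, ⟨2, rfl⟩, ⟨4, rfl⟩, ⟨3, rfl⟩]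

lemma npt_prim (p : PIdx κ) : (npt p).Prim := by
  obtain ⟨i, hi⟩ := npt_one p
  exact Pt.prim_iff.2 ⟨i, hi ▸ one_ne_zero⟩

lemma exists_npt {Q : Pt κ} (h : Q.Prim) : ∃ p, Q.Eqv (npt p) := by
  by_cases h0 : Q 0 ≠ 0
  · refine ⟨.inl ((Q 0)⁻¹ * Q 1, (Q 0)⁻¹ * Q 2, (Q 0)⁻¹ * Q 3, (Q 0)⁻¹ * Q 4), (Q 0)⁻¹,
      inv_ne_zero h0, ?_⟩
    funext i; fin_cases i <;> simp [npt, h0]
  rw [not_not] at h0
  by_cases h1 : Q 1 ≠ 0
  · refine ⟨.inr (.inl ((Q 1)⁻¹ * Q 2, (Q 1)⁻¹ * Q 3, (Q 1)⁻¹ * Q 4)), (Q 1)⁻¹,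
      inv_ne_zero h1, ?_⟩
    funext i; fin_cases i <;> simp [npt, h0, h1]
  rw [not_not] at h1
  by_cases h2 : Q 2 ≠ 0
  · refine ⟨.inr (.inr (.inl ((Q 2)⁻¹ * Q 3, (Q 2)⁻¹ * Q 4))), (Q 2)⁻¹, inv_ne_zero h2, ?_⟩
    funext i; fin_cases i <;> simp [npt, h0, h1, h2]
  rw [not_not] at h2
  by_cases h3 : Q 3 ≠ 0
  · refine ⟨.inr (.inr (.inr (some ((Q 3)⁻¹ * Q 4)))), (Q 3)⁻¹, inv_ne_zero h3, ?_⟩
    funext i; fin_cases i <;> simp [npt, h0, h1, h2, h3]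
  rw [not_not] at h3
  have h4 : Q 4 ≠ 0 := by
    obtain ⟨i, hi⟩ := Pt.prim_iff.1 h
    fin_cases i
    exacts [absurd h0 hi, absurd h1 hi, absurd h2 hi, absurd h3 hi, hi]
  refine ⟨.inr (.inr (.inr none)), (Q 4)⁻¹, inv_ne_zero h4, ?_⟩
  funext i; fin_cases i <;> simp [npt, h0, h1, h2, h3, h4]

lemma npt_inj {p p' : PIdx κ} (h : (npt p).Eqv (npt p')) : p = p' := by
  obtain ⟨t, ht, e⟩ := h
  have e0 := congrFun e 0
  have e1 := congrFun e 1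
  have e2 := congrFun e 2
  have e3 := congrFun e 3
  have e4 := congrFun e 4
  obtain ⟨a, b, c, d⟩ | ⟨b, c, d⟩ | ⟨c, d⟩ | _ | d := p <;>
    obtain ⟨a', b', c', d'⟩ | ⟨b', c', d'⟩ | ⟨c', d'⟩ | _ | d' := p' <;>
    simp [npt, ht.symm] at e0 e1 e2 e3 e4
  · subst e0; simp [e1, e2, e3, e4]
  · subst e1; simp [e2, e3, e4]
  · subst e2; simp [e3, e4]
  · rfl
  · subst e3; simp [e4]

lemma count_emb (g : G κ) (f : Model κ) :
    Nonempty ({p : PIdx κ // (g • f).Good (npt p)} ↪ {p : PIdx κ // f.Good (npt p)}) := by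
  choose n hn using fun p : PIdx κ => exists_npt ((npt_prim p).pt g)
  refine ⟨⟨fun p => ⟨n p.1, ((Model.good_pt g f _).2 p.2).eqv (hn p.1)⟩, ?_⟩⟩
  intro p p' h
  have h1 : n p.1 = n p'.1 := congrArg Subtype.val h
  have h2 : (g.pt (npt p.1)).Eqv (g.pt (npt p'.1)) := (hn p.1).trans (h1 ▸ (hn p'.1).symm)
  have h3 := h2.pt g⁻¹
  rw [G.inv_pt_pt, G.inv_pt_pt] at h3
  exact Subtype.ext (npt_inj h3)

theorem nGood_smul (g : G κ) (f : Model κ) : nGood (g • f) = nGood f := by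
  obtain ⟨e₁⟩ := count_emb g f
  obtain ⟨e₂⟩ := count_emb g⁻¹ (g • f)
  rw [inv_smul_smul] at e₂
  obtain ⟨e⟩ := Function.Embedding.antisymm e₁ e₂
  exact Nat.card_congr e

end Field

variable {L κ : Type*} [Field L] [Field κ] {V : LocalField L} {red : V.O →+* κ}

lemma _root_.SelAvg.LocalField.IPrim5.map_incl {Q : Pt V.O} (h : V.IPrim5 Q) :
    (Q.map V.incl).Prim := by
  obtain ⟨i, hi⟩ := h
  exact Pt.prim_iff.2 ⟨i, (hi.map V.incl).ne_zero⟩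

lemma _root_.SelAvg.LocalField.IPrim5.map_red (hred : V.IsRed red 1) {Q : Pt V.O} :
    V.IPrim5 Q ↔ (Q.map red).Prim := by
  rw [Pt.prim_iff]
  exact exists_congr fun i => hred.isUnit_iff _

lemma _root_.SelAvg.LocalField.IPrim5.pt {Q : Pt V.O} (h : V.IPrim5 Q) (g : G V.O) :
    V.IPrim5 (g.pt Q) := by
  have hred := SelAvg.LocalField.locDisc_isRed V
  rw [SelAvg.LocalField.IPrim5.map_red hred] at h ⊢
  rw [← G.map_pt]
  exact h.pt _

/-- two equivalent primitive integral points differ by a unit -/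
lemma _root_.SelAvg.LocalField.IPrim5.eqv_red (hred : V.IsRed red 1) {Q Q' : Pt V.O}
    (h : V.IPrim5 Q) (h' : V.IPrim5 Q') (e : (Q.map V.incl).Eqv (Q'.map V.incl)) :
    (Q.map red).Eqv (Q'.map red) := by
  obtain ⟨t, ht, e⟩ := e
  have ex : ∀ i, (Q' i : L) = t * Q i := fun i => congrFun e i
  have hle : V.v t ≤ 1 := by
    obtain ⟨i, hi⟩ := h
    have := V.v_le_one (Q' i)
    rwa [ex, map_mul, (V.isUnit_iff _).1 hi, mul_one] at this
  set t₀ : V.O := ⟨t, hle⟩ with ht₀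
  have ex' : ∀ i, Q' i = t₀ * Q i := fun i => Subtype.ext (ex i)
  have hu : IsUnit t₀ := by
    obtain ⟨i, hi⟩ := h'
    rw [ex'] at hi
    exact isUnit_of_mul_isUnit_left hi
  refine ⟨red t₀, (hred.isUnit_iff _).1 hu, ?_⟩
  funext i
  simp [ex']

lemma locP_rk2_map {R S : Type*} [CommRing R] [CommRing S] (φ : R →+* S) {f : Model R} {Q : Pt R}
    (h : Rk2 (f.ev Q)) : Rk2 ((f.map φ).ev (Q.map φ)) := fun i j k l => by
  rw [Model.ev_map, pf_map, h, map_zero]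

lemma locP_rk2_smul {R : Type*} [CommRing R] {f : Model R} (g : G R) {Q : Pt R}
    (h : Rk2 (f.ev (g.pt Q))) : Rk2 ((g • f).ev Q) := by
  rw [G.ev_pt]; exact h.conj _

lemma locP_rk2_pt {R : Type*} [CommRing R] {f : Model R} (g : G R) {Q : Pt R}
    (h : Rk2 ((g • f).ev Q)) : Rk2 (f.ev (g.pt Q)) := by
  have := locP_rk2_smul (f := g • f) g⁻¹ (Q := g.pt Q) (by rwa [G.inv_pt_pt])
  rwa [inv_smul_smul] at this

/-- three Pfaffians suffice if the entry `(3, 4)` is a unit -/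
lemma locP_three {R : Type*} [CommRing R] {M : Matrix (Fin 5) (Fin 5) R} (hd : ∀ i, M i i = 0)
    (ha : ∀ i j, M j i = -M i j) (hu : IsUnit (M 3 4)) (h0 : pf M 1 2 3 4 = 0)
    (h1 : pf M 0 2 3 4 = 0) (h2 : pf M 0 1 3 4 = 0) : Rk2 M := by
  refine (rk2_iff hd ha).2 ⟨hu.mul_right_eq_zero.1 ?_, hu.mul_right_eq_zero.1 ?_, h2, h1, h0⟩
  · simp only [pf] at h0 h1 h2 ⊢
    linear_combination M 0 3 * h0 - M 1 3 * h1 + M 2 3 * h2
  · simp only [pf] at h0 h1 h2 ⊢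
    linear_combination M 0 4 * h0 - M 1 4 * h1 + M 2 4 * h2

/-- Newton iteration for three Pfaffians -/
lemma locP_ring {R : Type*} [CommRing R] (π : R)
    (hfix : ∀ T : (Fin 3 → R) → Fin 3 → R,
      (∀ (c : R) (x y : Fin 3 → R), (∀ i, c ∣ x i - y i) → ∀ i, π * c ∣ T x i - T y i) →
        ∃ x, T x = x) (f : Model R)
    (h01 : π ∣ f.c 0 0 1) (h02 : π ∣ f.c 0 0 2) (h03 : π ∣ f.c 0 0 3) (h04 : π ∣ f.c 0 0 4)
    (h12 : π ∣ f.c 0 1 2) (h13 : π ∣ f.c 0 1 3) (h14 : π ∣ f.c 0 1 4) (h23 : π ∣ f.c 0 2 3)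
    (h24 : π ∣ f.c 0 2 4) (hl : IsUnit f.lam) (hT : IsUnit f.Tm.det) :
    ∃ w : Fin 3 → R, pf (f.ev ![1, 0, π * w 0, π * w 1, π * w 2]) 1 2 3 4 = 0 ∧
      pf (f.ev ![1, 0, π * w 0, π * w 1, π * w 2]) 0 2 3 4 = 0 ∧
      pf (f.ev ![1, 0, π * w 0, π * w 1, π * w 2]) 0 1 3 4 = 0 := by
  obtain ⟨m01, e01⟩ := h01
  obtain ⟨m02, e02⟩ := h02
  obtain ⟨m03, e03⟩ := h03
  obtain ⟨m04, e04⟩ := h04
  obtain ⟨m12, e12⟩ := h12
  obtain ⟨m13, e13⟩ := h13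
  obtain ⟨m14, e14⟩ := h14
  obtain ⟨m23, e23⟩ := h23
  obtain ⟨m24, e24⟩ := h24
  obtain ⟨u, hu⟩ := hl.exists_right_inv
  have hu' : f.c 0 3 4 * u = 1 := hu
  obtain ⟨P, hPd⟩ : ∃ P : (Fin 3 → R) → Fin 3 → R, ∀ w, P w =
    ![(m12 + f.lin 1 2 ⬝ᵥ w) * (f.lin 3 4 ⬝ᵥ w) - (m13 + f.lin 1 3 ⬝ᵥ w) * (m24 + f.lin 2 4 ⬝ᵥ w)
        + (m14 + f.lin 1 4 ⬝ᵥ w) * (m23 + f.lin 2 3 ⬝ᵥ w),
      -((m02 + f.lin 0 2 ⬝ᵥ w) * (f.lin 3 4 ⬝ᵥ w) - (m03 + f.lin 0 3 ⬝ᵥ w) * (m24 + f.lin 2 4 ⬝ᵥ w)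
        + (m04 + f.lin 0 4 ⬝ᵥ w) * (m23 + f.lin 2 3 ⬝ᵥ w)),
      (m01 + f.lin 0 1 ⬝ᵥ w) * (f.lin 3 4 ⬝ᵥ w) - (m03 + f.lin 0 3 ⬝ᵥ w) * (m14 + f.lin 1 4 ⬝ᵥ w)
        + (m04 + f.lin 0 4 ⬝ᵥ w) * (m13 + f.lin 1 3 ⬝ᵥ w)] := ⟨_, fun _ => rfl⟩
  have hP : ∀ (c : R) (x y : Fin 3 → R), (∀ i, c ∣ x i - y i) → ∀ i, c ∣ P x i - P y i := by
    intro c x y hxy i
    have q : ∀ a b : R, c ∣ a - b ↔
        Ideal.Quotient.mk (Ideal.span {c}) a = Ideal.Quotient.mk (Ideal.span {c}) b :=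
      fun a b => by rw [Ideal.Quotient.eq, Ideal.mem_span_singleton]
    have h0 := (q _ _).1 (hxy 0)
    have h1 := (q _ _).1 (hxy 1)
    have h2 := (q _ _).1 (hxy 2)
    rw [q, hPd, hPd]
    fin_cases i <;> simp [dotProduct, Fin.sum_univ_three, h0, h1, h2]
  obtain ⟨w, hw⟩ := hfix
    (fun w : Fin 3 → R => f.Tm⁻¹ *ᵥ (![-m12, m02, -m01] - (π * u) • P w)) (by
      intro c x y hxy i
      obtain ⟨d0, g0⟩ := hP c x y hxy 0
      obtain ⟨d1, g1⟩ := hP c x y hxy 1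
      obtain ⟨d2, g2⟩ := hP c x y hxy 2
      refine ⟨-u * (f.Tm⁻¹ i 0 * d0 + f.Tm⁻¹ i 1 * d1 + f.Tm⁻¹ i 2 * d2), ?_⟩
      simp only [mulVec, dotProduct, Fin.sum_univ_three, Pi.sub_apply, Pi.smul_apply, smul_eq_mul]
      linear_combination (-(π * u * f.Tm⁻¹ i 0)) * g0 - (π * u * f.Tm⁻¹ i 1) * g1
        - (π * u * f.Tm⁻¹ i 2) * g2)
  have hw' : f.Tm *ᵥ w = ![-m12, m02, -m01] - (π * u) • P w := by
    conv_lhs => rw [← hw]
    rw [mulVec_mulVec, mul_nonsing_inv _ hT, one_mulVec]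
  have s0 := congrFun hw' 0
  have s1 := congrFun hw' 1
  have s2 := congrFun hw' 2
  have t0 := congrFun (hPd w) 0
  have t1 := congrFun (hPd w) 1
  have t2 := congrFun (hPd w) 2
  simp [Model.Tm, Model.lin, mulVec, dotProduct, Fin.sum_univ_three] at s0 s1 s2 t0 t1 t2
  refine ⟨w, ?_, ?_, ?_⟩
  · simp [pf, Model.ev_apply, Fin.sum_univ_five, e12, e13, e14, e23, e24]
    linear_combination (π * f.c 0 3 4) * s0 - π ^ 2 * t0 - π ^ 2 * P w 0 * hu'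
  · simp [pf, Model.ev_apply, Fin.sum_univ_five, e02, e03, e04, e23, e24]
    linear_combination (-(π * f.c 0 3 4)) * s1 + π ^ 2 * t1 + π ^ 2 * P w 1 * hu'
  · simp [pf, Model.ev_apply, Fin.sum_univ_five, e01, e03, e04, e13, e14]
    linear_combination (π * f.c 0 3 4) * s2 - π ^ 2 * t2 - π ^ 2 * P w 2 * hu'

namespace LocalField

open SelAvg.LocalField

lemma locP_loc (hred : V.IsRed red 1) (x : V.O) (h : IsUnit (red x)) : IsUnit x :=
  (hred.isUnit_iff x).2 h.ne_zero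

lemma on_int {f : Model V.O} {Q : Pt V.O} (hQ : V.IPrim5 Q) (hF : Rk2 (f.ev Q)) :
    (f.map V.incl).On (Q.map V.incl) := ⟨hQ.map_incl, locP_rk2_map _ hF⟩

lemma on_red (hred : V.IsRed red 1) {f : Model V.O} {Q : Pt V.O} (hQ : V.IPrim5 Q)
    (hF : Rk2 (f.ev Q)) : (f.map red).On (Q.map red) :=
  ⟨(IPrim5.map_red hred).1 hQ, locP_rk2_map _ hF⟩

theorem exists_integral_rep (f : Model V.O) {Q : Pt L} (hQ : (f.map V.incl).On Q) :
    ∃ Q₀ : Pt V.O, V.IPrim5 Q₀ ∧ Rk2 (f.ev Q₀) ∧ Q.Eqv (Q₀.map V.incl) := by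
  obtain ⟨i, -, hi⟩ := Finset.exists_max_image Finset.univ (fun i => V.v (Q i)) Finset.univ_nonempty
  have hs : Q i ≠ 0 := by
    obtain ⟨j, hj⟩ := Pt.prim_iff.1 hQ.prim
    intro h0
    have := hi j (Finset.mem_univ _)
    rw [h0, map_zero, le_zero_iff, map_eq_zero] at this
    exact hj this
  have hv : 0 < V.v (Q i) := by rwa [Valuation.pos_iff]
  have key : ∀ j, V.v ((Q i)⁻¹ * Q j) ≤ 1 := fun j => by
    rw [map_mul, map_inv₀, inv_mul_le_iff₀ hv, mul_one]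
    exact hi j (Finset.mem_univ _)
  let Q₀ : Pt V.O := fun j => ⟨(Q i)⁻¹ * Q j, key j⟩
  have hm : Q₀.map V.incl = Q.sc (Q i)⁻¹ := rfl
  refine ⟨Q₀, ⟨i, ?_⟩, fun a b c d => ?_, (Q i)⁻¹, inv_ne_zero hs, hm⟩
  · have : Q₀ i = 1 := Subtype.ext (inv_mul_cancel₀ hs)
    rw [this]; exact isUnit_one
  · apply V.incl_injective
    rw [← pf_map, ← Model.ev_map, hm, Model.ev_smul, pf_smul, hQ.eq, mul_zero, map_zero]

/-- the fixed point theorem in several variables -/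
theorem fixed_vec {ι : Type*} (T : (ι → V.O) → ι → V.O)
    (hT : ∀ (c : V.O) (x y : ι → V.O), (∀ i, c ∣ x i - y i) → ∀ i, V.unif * c ∣ T x i - T y i) :
    ∃ x, T x = x := by
  have hstep : ∀ (n : ℕ) (i : ι), V.unif ^ n ∣ T^[n + 1] 0 i - T^[n] 0 i := by
    intro n
    induction n with
    | zero => intro i; simp
    | succ n ih =>
      rw [Function.iterate_succ_apply' T (n + 1), Function.iterate_succ_apply' T n, pow_succ']
      refine hT _ _ _ ?_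
      rw [← Function.iterate_succ_apply' T n]
      exact ih
  have hlim : ∀ i, ∃ x : V.O, ∀ n : ℕ, V.unif ^ n ∣ x - T^[n] 0 i := by
    intro i
    obtain ⟨x, hx⟩ := V.complete (fun n => ((T^[n] 0 i : V.O) : L)) fun n => by
      have := (V.le_exp_iff_dvd _ n).2 (hstep n i)
      simpa using this
    have hxO : x ∈ V.v.valuationSubring := by
      rw [Valuation.mem_valuationSubring_iff]
      simpa using hx 0
    exact ⟨⟨x, hxO⟩, fun n => (V.le_exp_iff_dvd _ n).1 (by simpa using hx n)⟩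
  choose x hx using hlim
  refine ⟨x, funext fun i => sub_eq_zero.1 (Subtype.ext ?_)⟩
  refine V.eq_zero_of_forall_le fun n => (V.le_exp_iff_dvd _ n).2 ?_
  have h1 := hT _ x (T^[n] 0) (fun j => hx j n) i
  have h2 := hx i (n + 1)
  rw [Function.iterate_succ_apply' T n, pow_succ'] at h2
  have h3 := dvd_sub h1 h2
  rw [sub_sub_sub_cancel_right] at h3
  exact (Dvd.intro_left _ rfl).trans h3

/-- the standard point lifts -/
theorem exists_lift_std (hred : V.IsRed red 1) (f : Model V.O) (h : (f.map red).GoodStd) :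
    ∃ Q₀ : Pt V.O, Rk2 (f.ev Q₀) ∧ Q₀.map red = Pt.std := by
  have dv : ∀ x : V.O, red x = 0 → V.unif ∣ x := fun x hx => (locGood_red_eq_zero hred x).1 hx
  have hT : IsUnit f.Tm.det := (hred.isUnit_iff _).2 (by
    rw [RingHom.map_det, RingHom.mapMatrix_apply, ← Model.Tm_map]; exact h.loc_det)
  obtain ⟨w, p0, p1, p2⟩ := locP_ring V.unif fixed_vec f (dv _ h.std.c001) (dv _ h.std.c002)
    (dv _ h.std.c003) (dv _ h.std.c004) (dv _ h.std.c012) (dv _ h.std.c013) (dv _ h.std.c014)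
    (dv _ h.std.c023) (dv _ h.std.c024) ((hred.isUnit_iff f.lam).2 h.lam) hT
  have hr : red V.unif = 0 := (locGood_red_eq_zero hred _).2 dvd_rfl
  have hm : Pt.map red ![1, 0, V.unif * w 0, V.unif * w 1, V.unif * w 2] = Pt.std := by
    funext i
    fin_cases i <;> simp [hr]
  refine ⟨_, locP_three (f.ev_diag _) (f.ev_alt _) ((hred.isUnit_iff _).2 ?_) p0 p1 p2, hm⟩
  have e := congrFun (congrFun (f.ev_map red ![1, 0, V.unif * w 0, V.unif * w 1, V.unif * w 2]) 3) 4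
  rw [hm, Model.ev_std, map_apply] at e
  rw [← e]
  exact h.lam

/-- good points lift -/
theorem exists_lift (hred : V.IsRed red 1) (f : Model V.O) {Q : Pt κ}
    (hQ : (f.map red).Good Q) : ∃ Q₀ : Pt V.O, V.IPrim5 Q₀ ∧ Rk2 (f.ev Q₀) ∧ Q₀.map red = Q := by
  have hp := hQ.on.prim
  obtain ⟨g, hg, hs⟩ := hQ
  choose P hP using fun i => hred.surj (Q i)
  obtain ⟨k, hk, -⟩ := loc_lift_G red hred.surj (locP_loc hred) g (Q := P)
    (by rw [hg]; exact funext hP)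
  obtain ⟨Q₁, h1, h2⟩ := exists_lift_std hred (k • f) (by rw [G.map_smul, hk]; exact hs)
  have h3 : (k.pt Q₁).map red = Q := by rw [← G.map_pt, hk, h2, hg]
  exact ⟨k.pt Q₁, (IPrim5.map_red hred).2 (h3 ▸ hp), locP_rk2_pt k h1, h3⟩

theorem soluble_of_nGood_pos (hred : V.IsRed red 1) (f : Model V.O) (h : 0 < nGood (f.map red)) :
    (f.map V.incl).Soluble := by
  obtain ⟨⟨p, hp⟩⟩ := (Nat.card_pos_iff.1 h).1
  obtain ⟨Q₀, h1, h2, -⟩ := exists_lift hred f hp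
  exact ⟨Q₀.map V.incl, on_int h1 h2⟩

lemma good_red_pt (k : G V.O) (f : Model V.O) :
    (f.map red).Good ((k.pt Pt.std).map red) ↔ ((k • f).map red).Good Pt.std := by
  rw [← G.map_pt, Pt.map_std, Model.good_pt, G.map_smul]

/-- integral standard position at a good point -/
theorem exists_std_good (hred : V.IsRed red 1) {f : Model V.O} {Q : Pt V.O}
    (hF : Rk2 (f.ev Q)) (hs : (f.map red).Good (Q.map red)) :
    ∃ k : G V.O, k.pt Pt.std = Q ∧ (k • f).Std ∧ ((k • f).map red).GoodStd := by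
  obtain ⟨g, hg, hs⟩ := hs
  obtain ⟨k, hk, hQ⟩ := loc_lift_G red hred.surj (locP_loc hred) g hg.symm
  have hs' : ((k • f).map red).GoodStd := by rw [G.map_smul, hk]; exact hs
  obtain ⟨k', h1, h2, h3⟩ := loc_exists_std red (locP_loc hred) (f := k • f)
    (by rw [← Model.ev_std]; exact locP_rk2_smul k (hQ ▸ hF)) hs'.std hs'.lam.isUnit
    hs'.loc_det.isUnit
  refine ⟨k' * k, by rw [G.mul_pt, h2, hQ], by rwa [mul_smul], ?_⟩
  rw [mul_smul, G.map_smul, h1, one_smul]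
  exact hs'

lemma nstd_of_good (hred : V.IsRed red 1) {f : Model V.O} (h : f.Std)
    (hs : (f.map red).GoodStd) : f.NStd := by
  refine ⟨h, (hred.isUnit_iff _).2 hs.lam, (hred.isUnit_iff _).2 ?_, ?_⟩
  · rw [RingHom.map_det, RingHom.mapMatrix_apply, ← Model.Tm_map]; exact hs.loc_det
  · obtain ⟨i, hi⟩ := Function.ne_iff.1 hs.loc_mk_ne
    rw [Model.mk'_map] at hi
    exact ⟨i, (hred.isUnit_iff _).2 hi⟩

end LocalField

end SelAvg.FF.T5
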