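import Pool.Agent.H34P.LocP
import Pool.Agent.H34P.ParB
import Pool.Agent.H34P.DifB2
import Pool.Agent.H5T.LocS

/-! Local theory of degree five models: residue discs, uniqueness and existence of good models. -/

namespace SelAvg.FF.T5

open WeierstrassCurve WithZero Matrix SelAvg.LocalField
open scoped Classical

lemma locU_good_scale {κ : Type*} [Field κ] {h : T3.Model κ} {Q : T3.Pt κ} {t : κ} (ht : t ≠ 0)
    (hg : h.Good Q) : (h.scale t).Good Q := by
  have e : (T3.G.ofMu (Units.mk0 t ht)⁻¹) • h = h.scale t := by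
    simp [T3.G.smul_def, T3.G.e]
  rw [← e, ← T3.Model.good_pt]
  simpa [T3.G.pt, T3.G.e] using hg

lemma locU_tail {R S : Type*} [CommRing R] [CommRing S] (φ : R →+* S) {Q : Pt R} {s : R}
    {v : T3.Pt R} (e : Q.tail = s • v) : (Q.map φ).tail = φ s • T3.Pt.map φ v := by
  rw [Pt.tail_map, e]; funext j; simp

lemma locU_tail0 {R S : Type*} [CommRing R] [CommRing S] (φ : R →+* S) {Q : Pt R}
    (e : Q.tail = 0) : (Q.map φ).tail = 0 := by
  rw [Pt.tail_map, e]; funext j; simp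

namespace LocalField

variable {L κ : Type*} [Field L] [Field κ] {V : LocalField L} {red : V.O →+* κ}

lemma locU_prim_mk {f : Model V.O} (h : f.NStd) : V.IPrim3 f.mk' := h.prim

lemma locU_F_mk (f : Model V.O) : (f.cub.scale f.lam).F f.mk' = 0 := by
  rw [T3.Model.F_scale, Model.loc_F_mk, mul_zero]

lemma locU_good_mk {f : Model V.O} (hs : (f.map red).GoodStd) :
    ((f.cub.scale f.lam).map red).Good (T3.Pt.map red f.mk') := by
  rw [T3.Model.map_scale, ← Model.cub_map, ← Model.mk'_map]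
  exact locU_good_scale hs.lam hs.good

/-- the disc of the standard point -/
theorem disc_std (hred : V.IsRed red 1) {f : Model V.O} (h : f.Std) (hs : (f.map red).GoodStd)
    {Q : Pt V.O} (hQ : V.IPrim5 Q) (hF : Rk2 (f.ev Q)) :
    ∃ v : T3.Pt V.O, V.IPrim3 v ∧ (f.cub.scale f.lam).F v = 0 ∧
      T3.Pt.Eqv ((f.map V.incl).phi (Q.map V.incl)) (T3.Pt.map V.incl v) ∧
      (T3.Pt.Eqv (T3.Pt.map red f.mk') (T3.Pt.map red v) ↔ (Pt.std : Pt κ).Eqv (Q.map red)) := by
  have hon := on_red hred hQ hF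
  by_cases h0 : Q.tail = 0
  · have t0 := locU_tail0 red h0
    refine ⟨f.mk', locU_prim_mk (nstd_of_good hred h hs), locU_F_mk f, ?_, ?_⟩
    · rw [Model.phi, if_pos (locU_tail0 _ h0), Model.mk'_map]
      exact T3.Pt.Eqv.refl _
    · exact iff_of_true (T3.Pt.Eqv.refl _)
        ((Pt.std_eqv_iff hon.prim).2 ⟨hs.loc_one hon.eq t0, t0⟩)
  obtain ⟨s, v, i, e, hi⟩ := parb_prim Q.tail
  have hs0 : s ≠ 0 := fun k => h0 (by rw [e, k, zero_smul])
  have em := locU_tail red e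
  have eL := locU_tail V.incl e
  have hv : T3.Pt.map red v ≠ 0 := fun k => by
    have := congrFun k i
    simp [hi] at this
  have hsL : V.incl s ≠ 0 := fun k => hs0 (V.incl_injective (k.trans (map_zero _).symm))
  refine ⟨v, ⟨i, hi ▸ isUnit_one⟩, ?_, ?_, ?_⟩
  · have h1 := h.loc_F_tail hF
    rw [e, T3.Model.F_smul] at h1
    rw [T3.Model.F_scale, (mul_eq_zero.1 h1).resolve_left (pow_ne_zero _ hs0), mul_zero]
  · have hne : (Q.map V.incl).tail ≠ 0 := fun k => by
      have := congrFun (eL.symm.trans k) i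
      simp [hi, hs0] at this
    rw [Model.phi, if_neg hne]
    exact T3.Pt.Eqv.symm ⟨_, hsL, eL⟩
  by_cases hr : red s = 0
  · have t0 : (Q.map red).tail = 0 := by rw [em, hr, zero_smul]
    have t1 : red (Q 1) = 0 := hs.loc_one hon.eq t0
    have hx : red (Q 0) ≠ 0 := by
      obtain ⟨t, ht, e0⟩ := (Pt.std_eqv_iff hon.prim).2 ⟨t1, t0⟩
      have : red (Q 0) = t := by simpa using congrFun e0 0
      rwa [this]
    have key : ∀ j : Fin 5, j = 3 ∨ j = 4 → (f.map red).alp j ⬝ᵥ T3.Pt.map red v = 0 := by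
      intro j hj
      obtain ⟨X, Y, e1⟩ := h.loc_near hF e hj
      have e2 := congrArg red (mul_left_cancel₀ hs0 e1)
      rw [map_add, map_mul red (Q 1), map_mul red s, t1, hr, zero_mul, zero_mul, add_zero, map_mul,
        map_mul] at e2
      have e3 := (mul_eq_zero.1 e2).resolve_left (mul_ne_zero hs.lam hx)
      rw [Model.alp_map]
      simpa [dotProduct] using e3
    refine iff_of_true ?_ ((Pt.std_eqv_iff hon.prim).2 ⟨t1, t0⟩)
    rw [← Model.mk'_map]
    exact hs.loc_eqv hv (key 3 (Or.inl rfl)) (key 4 (Or.inr rfl))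
  · refine iff_of_false (fun k => hs.loc_far hon.eq ?_) fun k => ?_
    · rw [Model.mk'_map]
      exact k.trans ⟨_, hr, em⟩
    · have := ((Pt.std_eqv_iff hon.prim).1 k).2
      rw [em] at this
      exact hv ((smul_eq_zero.1 this).resolve_left hr)

theorem disc (hred : V.IsRed red 1) {W : WeierstrassCurve V.O} (hW : W.Δ ≠ 0) {z : Obj V.O}
    (hz : z.Over W) {Q Q' : Pt V.O} (hQ : V.IPrim5 Q) (hF : Rk2 (z.f.ev Q))
    (hs : (z.f.map red).Good (Q.map red)) (hQ' : V.IPrim5 Q') (hF' : Rk2 (z.f.ev Q')) :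
    V.InE1 (toRaw (D (W.map V.incl) (z.map V.incl) (Q.map V.incl) (Q'.map V.incl))) ↔
      (Q.map red).Eqv (Q'.map red) := by
  obtain ⟨g, hg, h1, hu⟩ := exists_std_good hred hF hs
  have hn := nstd_of_good hred h1 hu
  have hgL : ((G.map V.incl g).pt Pt.std).Eqv (Q.map V.incl) := by
    rw [← Pt.map_std V.incl, G.map_pt, hg]
    exact Pt.Eqv.refl _
  have hgr : (G.map red g).pt Pt.std = Q.map red := by
    rw [← Pt.map_std red, G.map_pt, hg]
  have hQ'' : V.IPrim5 (g⁻¹.pt Q') := hQ'.pt g⁻¹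
  have hF'' : Rk2 ((g • z.f).ev (g⁻¹.pt Q')) := locP_rk2_smul g (by rw [G.pt_inv_pt]; exact hF')
  have e : G.map V.incl g • (z.map V.incl).f = (g • z.f).map V.incl := (G.map_smul _ _ _).symm
  have ho : (g • z).red.Over W := (Obj.over_red h1).2 (hz.smul g)
  obtain ⟨v, hv, hFv, e1, e2⟩ := disc_std hred h1 hu hQ'' hF''
  have o1 : ((g • z).red.map V.incl).f.On (T3.Pt.map V.incl (g • z.f).mk') :=
    T3.LocalField.on_int (f := (g • z).red.f) (locU_prim_mk hn) (locU_F_mk _)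
  have o2 : ((g • z).red.map V.incl).f.On (T3.Pt.map V.incl v) :=
    T3.LocalField.on_int (f := (g • z).red.f) hv hFv
  rw [D_eq (locDisc_Delta hW) (hz.map V.incl) (on_int hQ hF) (on_int hQ' hF') _ hgL
      (by rw [e]; exact h1.map V.incl), e, ← Obj.map_smul, ← map_inv, G.map_pt, Obj.red_map,
    Model.mk'_map, ← T3.D_eqv (locDisc_Delta hW) (ho.map V.incl) o1 o2 (T3.Pt.Eqv.refl _) e1.symm,
    T3.LocalField.disc hred hW ho (locU_prim_mk hn) (locU_F_mk _) (locU_good_mk hu) hv hFv, e2]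
  refine ⟨fun h4 => ?_, fun h => ?_⟩
  · have h5 := h4.pt (G.map red g)
    rwa [hgr, G.map_pt, G.pt_inv_pt] at h5
  · have h5 := h.pt (G.map red g⁻¹)
    rwa [G.map_pt, G.map_pt, ← hg, G.inv_pt_pt, Pt.map_std] at h5

/-- uniqueness in standard position -/
theorem unique_std (hred : V.IsRed red 1) {W : WeierstrassCurve L} (hW : W.Δ ≠ 0)
    {z z' : Obj V.O} (hz' : (z'.map V.incl).Over W) (h : z.f.Std) (h' : z'.f.Std)
    (hs : (z.f.map red).GoodStd) (hs' : (z'.f.map red).GoodStd)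
    {g : G L} (hg : g • z'.map V.incl = z.map V.incl) (hQ : (g.pt Pt.std).Eqv Pt.std) :
    V.MEq5 1 g := by
  have hn := nstd_of_good hred h hs
  have hn' := nstd_of_good hred h' hs'
  have hgf : g • (z'.map V.incl).f = (z.map V.incl).f := congrArg Obj.f hg
  have hP : g.IsPar := G.par_of_pt (f := (z'.map V.incl).f) (hn'.map V.incl) hQ
    (by rw [hgf]; exact h.map V.incl)
  obtain ⟨k, hk⟩ := hP.exists_ind
  have hkz : k • z'.red.map V.incl = z.red.map V.incl := by
    rw [← Obj.red_map, ← Obj.red_map, hk.smul_obj hP (h'.map V.incl), hg]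
  obtain ⟨t₁, ht₁⟩ := hk.pt_mk' hP (f := (z'.map V.incl).f) (h'.map V.incl)
  rw [hgf, Obj.map_f, Obj.map_f, Model.mk'_map, Model.mk'_map] at ht₁
  have hM := T3.LocalField.unique_good hred (z₀ := z'.red.map V.incl) ⟨1, z'.red, one_smul _ _⟩
    ⟨k, z.red, hkz⟩ (locU_prim_mk hn') (locU_F_mk _) (locU_good_mk hs') (locU_prim_mk hn)
    (locU_F_mk _) (locU_good_mk hs) (by
      rw [T3.G.one_pt]
      exact ⟨t₁, t₁.ne_zero, ht₁⟩)
  obtain ⟨t, k₀, e, ez⟩ := T3.LocalField.equiv_lift (V := V) (z₀ := z'.red.map V.incl)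
    ⟨1, z'.red, one_smul _ _⟩ ⟨k, z.red, hkz⟩ hM
  simp only [mul_one] at e ez
  rw [e, T3.G.mul_pt, T3.G.scalar_pt, T3.G.pt_sc, T3.G.map_pt] at ht₁
  have ex : ∀ j, (t : L) * (k₀.pt z.f.mk' j : L) = t₁ * (z'.f.mk' j : L) := fun j => congrFun ht₁ j
  obtain ⟨i, hi⟩ := hn'.prim
  obtain ⟨u, hu⟩ := hi.exists_right_inv
  have hp : k₀.pt z.f.mk' = (k₀.pt z.f.mk' i * u) • z'.f.mk' := by
    funext j
    have huL : (z'.f.mk' i : L) * u = 1 := by exact_mod_cast congrArg Subtype.val hu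
    refine Subtype.ext (mul_left_cancel₀ t.ne_zero ?_)
    rw [Pi.smul_apply, smul_eq_mul]
    push_cast
    linear_combination ex j - (u : L) * (z'.f.mk' j : L) * ex i - t₁ * (z'.f.mk' j : L) * huL
  obtain ⟨g₀, hP₀, -, hz₀⟩ := exists_par_of_red hn hn' ez.symm hp
  have hg₀ : G.map V.incl g₀ • z'.map V.incl = g • z'.map V.incl := by
    rw [← Obj.map_smul, hz₀, hg]
  obtain ⟨s, hs₀⟩ := iso_unique hW hz' (Q := Pt.std)
    (by rw [hg₀, hg]; exact (h.map V.incl).on_std) hg₀ ((hP₀.map' V.incl).eqv_std.trans hQ.symm)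
  exact ⟨s, g₀, by rw [hs₀, mul_one]⟩

/-- integral normal forms -/
theorem exists_good (hred : V.IsRed red 1) {W : WeierstrassCurve V.O} (hW : W.Δ ≠ 0)
    (P : (W.map V.incl).toAffine.Point) :
    ∃ z : Obj V.O, z.Over W ∧ z.f.Std ∧ (z.f.map red).GoodStd ∧
      piP (W.map V.incl) (z.map V.incl) Pt.std = P := by
  obtain ⟨y, hy, ha, h3, hu, hπ⟩ := T3.LocalField.exists_good hW P
  have ho : (Obj.unred y).Over W := (Obj.over_unred ha.a).2 hy
  refine ⟨Obj.unred y, ho, Model.unred_std _, ⟨(Model.unred_std _).map red, ?_, ?_⟩, ?_⟩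
  · rw [Model.lam_map, Obj.unred_f, Model.lam_unred, map_one]
    exact one_ne_zero
  · rw [Model.cub_map, Model.mk'_map, Obj.unred_f, Model.cub_unred ha.a, Model.mk'_unred,
      T3.Pt.map_std]
    exact (T3.LocalField.good_red_iff hred ha).2 ⟨h3, hu⟩
  · rw [piP_std (locModel_Delta hW) (ho.map V.incl) ((Model.unred_std _).map V.incl), Obj.red_map,
      Obj.red_unred ha.a, Obj.map_f, Model.mk'_map, Obj.unred_f, Model.mk'_unred, T3.Pt.map_std, hπ]

end LocalField

end SelAvg.FF.T5
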