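import Pool.Agent.H34P.Fin1
import Pool.Agent.H94Q.HtG
import Pool.Agent.H5T.Abhn

/-! The average size of the 5-Selmer group. -/

namespace SelAvg.FF.T5

open WeierstrassCurve WithZero Filter Topology
open scoped Classical

variable {F : Type} [Field F] [Cv F]

theorem SD_sub_le (R : Div F) {ε : ℝ} (hε : 0 < ε) :
    ∀ᶠ m : ℕ in atTop, SD (R + m • PP F) - 5 * TD (R + m • PP F) ≤ ε := by
  refine finG_le (by norm_num) zz5_pos tendsto_cs5 R (fun N η hη => ?_) hε
  have h3 : 0 < η / 3 := by positivity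
  obtain ⟨j, hj, hL⟩ := exists_level (plLE F N) h3
  have hd0 := delta_nonneg (plLE F N) j
  have hc0 := cs5_nonneg (plLE F N)
  exact ⟨j, hj, SD_eventually_le R (plLE F N) (by positivity)
    (fun g => (Uup_le (plLE F N) hj h3 hL g).mono fun m hm => hm.trans_eq (by ring)) hη⟩

theorem le_SD_sub (R : Div F) {ε : ℝ} (hε : 0 < ε) :
    ∀ᶠ m : ℕ in atTop, -ε ≤ SD (R + m • PP F) - 5 * TD (R + m • PP F) := by
  refine finG_ge 22 (by norm_num) zz5_pos one_le_cs5 R (fun N η hη => ?_) hε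
  have h3 : 0 < η / 3 := by positivity
  have hCS := CS_pos (plLE F N)
  obtain ⟨j, hj, hL⟩ := exists_level (plLE F N) (div_pos h3 hCS)
  refine ⟨j, hj, SD_eventually_ge R (plLE F N)
    (fun g => (le_Ulow N hj h3 hL g).mono fun m hm => le_of_eq_of_le ?_ hm) hη⟩
  field_simp
  ring

lemma AvD_eq (D : Div F) : AvD (fun W => ((SelO W).ncard : ℝ) + 1) D = SD D + TD D := by
  rw [AvD_add, AvD_one]
  rfl

theorem tendsto_ratio (R : Div F) : Tendsto (fun m : ℕ =>
    AvD (fun W => ((SelO W).ncard : ℝ) + 1) (R + m • PP F) / TD (R + m • PP F)) atTop (𝓝 6) := by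
  refine tendsto_div_TD (A := AvD fun W => ((SelO W).ncard : ℝ) + 1) R fun ε hε => ?_
  filter_upwards [SD_sub_le R hε, le_SD_sub R hε] with m h1 h2
  rw [AvD_eq, abs_le]
  constructor <;> linarith

lemma ncard_Sel {W : WeierstrassCurve F} (C : VariableChange F) (h : W.Δ ≠ 0) :
    ((Sel W 5).ncard : ℝ) = (SelO (C • W)).ncard + 1 := by
  rw [(finite_Sel_of (H5T.abhn (by norm_num)) h (finite_SelO h)).2, Set.ncard_def (SelO (C • _)),
    encard_SelO_smul, ← Set.ncard_def]
  push_cast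
  rfl

theorem selmerAverage_cv : SelmerAverage F 5 6 :=
  selmerAverage_gen 5 6 _ _ (fun _ h => (finite_Sel_of (H5T.abhn (by norm_num)) h (finite_SelO h)).1)
    (fun _ C h => (ncard_Sel C h).ge) (fun _ C h => (ncard_Sel C h).le) tendsto_ratio tendsto_ratio

omit [Cv F] in
theorem selmerAverage_five (k F : Type) [Field k] [Finite k] [Field F] [Algebra (RatFunc k) F]
    [FiniteDimensional (RatFunc k) F] : SelStmt.SelmerAverage F 5 6 := by
  obtain ⟨h⟩ := exists_cv k F
  exact selmerAverage_bridge selmerAverage_cv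

end SelAvg.FF.T5
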