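import Pool.Agent.H5T.Mass
import Pool.Agent.H34P.InvDef

/-! The local mass formula in degree five: the sums over ternary cubics with a marked point. -/

namespace SelAvg.FF.T5

open WeierstrassCurve Matrix
open scoped Classical

section Fib

variable {α β : Type*} [Fintype α] [Fintype β]

/-- all fibres have `c` elements -/
def M5Fib (f : α → β) (c : ℝ) : Prop :=
  ∀ y, ((Finset.univ.filter fun x => f x = y).card : ℝ) = c

omit [Fintype β] in
lemma M5Fib.card {f : α → β} {c : ℝ} (h : M5Fib f c) {s : Finset α} {t : Finset β}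
    (hs : ∀ x, x ∈ s ↔ f x ∈ t) : (s.card : ℝ) = c * t.card := by
  rw [Finset.card_eq_sum_card_fiberwise (f := f) (t := t) (fun x hx => (hs x).1 hx), Nat.cast_sum,
    mul_comm, ← nsmul_eq_mul, ← Finset.sum_const]
  refine Finset.sum_congr rfl fun y hy => ?_
  rw [← h y]
  congr 2
  ext x
  simp only [Finset.mem_filter, Finset.mem_univ, true_and, hs]
  exact ⟨fun h => h.2, fun h => ⟨h ▸ hy, h⟩⟩

omit [Fintype β] in
lemma M5Fib.pi {f : α → β} {c : ℝ} (h : M5Fib f c) (n : ℕ) :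
    M5Fib (fun (v : Fin n → α) i => f (v i)) (c ^ n) := by
  intro w
  refine (congrArg (fun s : Finset (Fin n → α) => (s.card : ℝ)) (?_ : _ =
    Fintype.piFinset fun i => Finset.univ.filter fun x => f x = w i)).trans ?_
  · ext v
    simp [funext_iff]
  · rw [Fintype.card_piFinset, Nat.cast_prod, Finset.prod_congr rfl fun i _ => h (w i)]
    simp

end Fib

variable {R κ : Type*} [CommRing R] [Field κ] [Fintype R] [Fintype κ] {θ : R →+* κ}

lemma m5_fib (h : IsResidue θ) : M5Fib θ ((Fintype.card R : ℝ) / Fintype.card κ) := by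
  intro y
  obtain ⟨a, rfl⟩ := h.surj y
  rw [← mass_card_ker h]
  congr 1
  refine Finset.card_nbij' (fun x => x - a) (fun x => x + a) ?_ ?_ ?_ ?_
  · intro x hx
    simp only [Finset.coe_filter, Finset.mem_univ, true_and, Set.mem_ofPred_eq] at hx ⊢
    rw [map_sub, hx, sub_self]
  · intro x hx
    simp only [Finset.coe_filter, Finset.mem_univ, true_and, Set.mem_ofPred_eq] at hx ⊢
    rw [map_add, hx, zero_add]
  · intro x _; simp
  · intro x _; simp

lemma m5_card_GL (n : ℕ) :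
    ((Finset.univ.filter fun T : Matrix (Fin n) (Fin n) κ => T.det ≠ 0).card : ℝ) =
      ∏ i : Fin n, ((Fintype.card κ : ℝ) ^ n - (Fintype.card κ : ℝ) ^ i.1) := by
  have e : Nat.card (GL (Fin n) κ) =
      (Finset.univ.filter fun T : Matrix (Fin n) (Fin n) κ => T.det ≠ 0).card := by
    rw [← Fintype.card_subtype, ← Nat.card_eq_fintype_card]
    exact Nat.card_congr ⟨fun g => ⟨g.1, g.det_ne_zero⟩,
      fun T => GeneralLinearGroup.mkOfDetNeZero T.1 T.2, fun g => by ext; rfl, fun T => rfl⟩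
  rw [← e, card_GL_field, Nat.cast_prod]
  refine Finset.prod_congr rfl fun i _ => ?_
  rw [Nat.cast_sub (Nat.pow_le_pow_right Fintype.card_pos i.2.le)]
  push_cast
  rfl

lemma m5_card_GLR (h : IsResidue θ) :
    ((Finset.univ.filter fun T : Matrix (Fin 3) (Fin 3) R => θ T.det ≠ 0).card : ℝ) =
      ((Fintype.card R : ℝ) / Fintype.card κ) ^ 9 * (((Fintype.card κ : ℝ) ^ 3 - 1) *
        ((Fintype.card κ : ℝ) ^ 3 - Fintype.card κ) *
        ((Fintype.card κ : ℝ) ^ 3 - (Fintype.card κ : ℝ) ^ 2)) := by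
  have h2 := m5_card_GL (κ := κ) 3
  simp only [Fin.prod_univ_three, Fin.val_zero, Fin.val_one, Fin.val_two, pow_zero, pow_one] at h2
  rw [← h2, show 9 = 3 * 3 from rfl, pow_mul]
  refine (((m5_fib h).pi 3).pi 3).card fun T => ?_
  refine (Finset.mem_filter_univ (α := Matrix (Fin 3) (Fin 3) R) T).trans
    (Iff.trans ?_ (Finset.mem_filter_univ (α := Matrix (Fin 3) (Fin 3) κ) _).symm)
  rw [RingHom.map_det]
  rfl

lemma m5_card_prim (h : IsResidue θ) :
    ((Finset.univ.filter fun s : T3.Pt R × T3.Pt R =>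
      T3.Pt.map θ (crossProduct s.1 s.2) ≠ 0).card : ℝ) =
      ((Fintype.card R : ℝ) / Fintype.card κ) ^ 6 * (((Fintype.card κ : ℝ) ^ 3 - 1) *
        ((Fintype.card κ : ℝ) ^ 3 - Fintype.card κ)) := by
  have h2 := card_linearIndependent (K := κ) (V := Fin 3 → κ) (k := 2) (by simp)
  rw [Nat.card_eq_fintype_card, Fintype.card_subtype] at h2
  have hq : 0 < Fintype.card κ := Fintype.card_pos
  have h3 : ((Finset.univ.filter fun s : Fin 2 → Fin 3 → κ => LinearIndependent κ s).card : ℝ) =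
      ((Fintype.card κ : ℝ) ^ 3 - 1) * ((Fintype.card κ : ℝ) ^ 3 - Fintype.card κ) := by
    rw [h2, Fin.prod_univ_two, Nat.cast_mul, Module.finrank_fin_fun,
      Nat.cast_sub (Nat.pow_le_pow_right hq (by simp)),
      Nat.cast_sub (Nat.pow_le_pow_right hq (by simp))]
    simp
  rw [← h3, show 6 = 3 * 2 from rfl, pow_mul,
    ← Finset.card_map (piFinTwoEquiv fun _ => T3.Pt R).symm.toEmbedding]
  refine (((m5_fib h).pi 3).pi 2).card fun s => ?_
  simp only [Finset.mem_map_equiv, Finset.mem_filter, Finset.mem_univ, true_and, Equiv.symm_symm,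
    piFinTwoEquiv_apply]
  have e1 : T3.Pt.map θ (crossProduct (s 0) (s 1)) =
      crossProduct (T3.Pt.map θ (s 0)) (T3.Pt.map θ (s 1)) := by
    funext r; fin_cases r <;> simp [crossProduct]
  have e2 : ![T3.Pt.map θ (s 0), T3.Pt.map θ (s 1)] = fun i j => θ (s i j) := by
    funext i; fin_cases i <;> rfl
  rw [e1, crossProduct_ne_zero_iff_linearIndependent, e2]

/-- the cubics through the standard point -/
lemma m5_cubics (h : IsResidue θ) (Ψ : WeierstrassCurve R → ℝ)
    (hΨ : ∀ (C : VariableChange R) W, Ψ (C • W) = Ψ W) :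
    ∑ f : T3.Model R with f.a = 0 ∧ (f.map θ).Good T3.Pt.std, Ψ f.jac =
      ((Fintype.card κ : ℝ) + 1) * ((Fintype.card R : ℝ) / Fintype.card κ) *
        ∑ f : T3.Model R with f.Std ∧ T3.StdMod θ f, Ψ f.jac := by
  have ha : ∀ (o : Option R) (f : T3.Model R), (T3.mass1_k o • f).a = f.a := fun o f => by
    obtain _ | s := o <;> simp [T3.mass1_k_smul, T3.Model.subst, T3.mass1_mat, T3.Model.F]
  have h1 : ∀ o : Option κ, ∑ f : T3.Model R, (if T3.StdMod (RingHom.id κ)
      (T3.mass1_k o • f.map θ) then (if f.a = 0 then Ψ f.jac else 0) else 0) =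
      ∑ f : T3.Model R with f.a = 0 ∧ T3.StdMod θ f, Ψ f.jac := by
    intro o
    obtain ⟨o', rfl⟩ : ∃ o' : Option R, o'.map θ = o := by
      obtain _ | s := o
      · exact ⟨none, rfl⟩
      · obtain ⟨r, rfl⟩ := h.surj s
        exact ⟨some r, rfl⟩
    rw [Finset.sum_filter, ← Equiv.sum_comp (MulAction.toPerm (T3.mass1_k o'))
      fun f : T3.Model R => if f.a = 0 ∧ T3.StdMod θ f then Ψ f.jac else 0]
    refine Finset.sum_congr rfl fun f _ => ?_
    rw [MulAction.toPerm_apply, T3.G.jac_smul, hΨ, ← T3.mass1_k_map, ha, ← ite_and]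
    exact if_congr and_comm rfl rfl
  have h2 : ∑ p ∈ (Finset.univ.filter fun x : R => θ x = 0) ×ˢ
        (Finset.univ.filter fun f : T3.Model R => f.Std ∧ T3.StdMod θ f), Ψ p.2.jac =
      ∑ f : T3.Model R with f.a = 0 ∧ T3.StdMod θ f, Ψ f.jac := by
    have hb : ∀ (s : R) (f : T3.Model R), (T3.mass2U 0 s • f).a = f.a := fun s f => by
      rw [T3.mass2_a]; ring
    refine Finset.sum_bij (fun p _ => (T3.mass2U 0 p.1)⁻¹ • p.2) ?_ ?_ ?_ ?_
    · intro p hp
      simp only [Finset.mem_product, Finset.mem_filter, Finset.mem_univ, true_and] at hp ⊢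
      rw [← T3.mass2_mod (map_zero θ) hp.1, ← hb p.1, smul_inv_smul]
      exact ⟨hp.2.1.a, hp.2.2⟩
    · rintro ⟨s, f⟩ hp ⟨s', f'⟩ hp' e
      simp only [Finset.mem_product, Finset.mem_filter, Finset.mem_univ, true_and] at hp hp' e
      have hf : T3.StdMod θ ((T3.mass2U 0 s)⁻¹ • f) := by
        rw [← T3.mass2_mod (map_zero θ) hp.1, smul_inv_smul]
        exact hp.2.2
      obtain ⟨-, rfl⟩ := T3.mass2_uniq h hf (s := s) (s' := s') (map_zero θ) (map_zero θ)
        (by rw [smul_inv_smul]; exact hp.2.1) (by rw [e, smul_inv_smul]; exact hp'.2.1)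
      rw [MulAction.injective _ e]
    · intro f hf
      simp only [Finset.mem_filter, Finset.mem_univ, true_and] at hf
      obtain ⟨v, hv⟩ := ((h.unit f.a3).2 hf.2.2.2.1).exists_right_inv
      have hs : θ (-(v * f.a2)) = 0 := by simp [hf.2.2.1]
      have e : (T3.mass2U 0 (-(v * f.a2)) • f).Std :=
        ⟨(hb _ _).trans hf.1, by rw [T3.mass2_a2]; linear_combination -f.a2 * hv⟩
      exact ⟨(-(v * f.a2), T3.mass2U 0 (-(v * f.a2)) • f), by
        simp only [Finset.mem_product, Finset.mem_filter, Finset.mem_univ, true_and]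
        exact ⟨hs, e, (T3.mass2_mod (map_zero θ) hs f).2 hf.2⟩, inv_smul_smul _ _⟩
    · intro p _
      rw [T3.G.jac_smul, hΨ]
  have h3 : ∀ f : T3.Model R, (if f.a = 0 ∧ (f.map θ).Good T3.Pt.std then Ψ f.jac else 0) =
      if (f.map θ).Good T3.Pt.std then (if f.a = 0 then Ψ f.jac else 0) else 0 := fun f => by
    rw [← ite_and]
    exact if_congr and_comm rfl rfl
  rw [Finset.sum_filter]
  simp only [h3, T3.mass1_split]
  rw [Finset.sum_comm]
  simp only [h1]
  rw [← h2, Finset.sum_product]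
  simp only [Finset.sum_const, Finset.card_univ, Fintype.card_option, nsmul_eq_mul,
    mass_card_ker h]
  push_cast
  ring

/-- the cubic `a(v) N(v) - b(v) M(v)` -/
def cubM (a b : T3.Pt R) (M N : Matrix (Fin 3) (Fin 3) R) : T3.Model R :=
  ofTensor fun r s u => a r * N s u - b r * M s u

omit [Fintype R] in
lemma m5_ofTensor_subst (t : Fin 3 → Fin 3 → Fin 3 → R) (P : Matrix (Fin 3) (Fin 3) R) :
    (ofTensor t).subst P =
      ofTensor fun r s u => ∑ i, ∑ j, ∑ k, P r i * P s j * P u k * t i j k := by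
  ext <;> simp only [ofTensor, T3.Model.subst, T3.Model.F, T3.Model.tri, T3.Model.pol, T3.Model.Fx,
    T3.Model.Fy, T3.Model.Fz, Fin.sum_univ_three, Pi.add_apply] <;> ring

omit [Fintype R] in
lemma cubM_subst (a b : T3.Pt R) (M N P : Matrix (Fin 3) (Fin 3) R) :
    (cubM a b M N).subst P = cubM (P *ᵥ a) (P *ᵥ b) (P * M * Pᵀ) (P * N * Pᵀ) := by
  rw [cubM, m5_ofTensor_subst, cubM]
  congr 1
  funext r s u
  simp only [mulVec, dotProduct, mul_apply, transpose_apply, Fin.sum_univ_three]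
  ring

omit [Fintype R] in
lemma m5_cross (a b : T3.Pt R) (P : Matrix (Fin 3) (Fin 3) R) :
    crossProduct (P *ᵥ a) (P *ᵥ b) ᵥ* P = P.det • crossProduct a b := by
  funext r
  fin_cases r <;>
    simp [crossProduct, mulVec, vecMul, dotProduct, Fin.sum_univ_three, det_fin_three] <;> ring

/-- the sum for a fixed pair of linear forms -/
noncomputable def m5S (θ : R →+* κ) (Ψ : WeierstrassCurve R → ℝ) (a b : T3.Pt R) : ℝ :=
  ∑ p : Matrix (Fin 3) (Fin 3) R × Matrix (Fin 3) (Fin 3) R,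
    if ((cubM a b p.1 p.2).map θ).Good (T3.Pt.map θ (crossProduct a b)) then
      Ψ (cubM a b p.1 p.2).jac else 0

omit [Fintype κ] in
lemma m5S_mul (h : IsResidue θ) (Ψ : WeierstrassCurve R → ℝ)
    (hΨ : ∀ (C : VariableChange R) W, Ψ (C • W) = Ψ W) (a b : T3.Pt R)
    {P : Matrix (Fin 3) (Fin 3) R} (hP : θ P.det ≠ 0) :
    m5S θ Ψ (P *ᵥ a) (P *ᵥ b) = m5S θ Ψ a b := by
  have hu : IsUnit P.det := (h.unit _).2 hP
  have hinj : Function.Injective fun M : Matrix (Fin 3) (Fin 3) R => P * M * Pᵀ := fun M N e =>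
    ((isUnit_iff_isUnit_det P).2 hu).mul_left_cancel
      (((isUnit_iff_isUnit_det Pᵀ).2 (by rwa [det_transpose])).mul_right_cancel e)
  let e := Equiv.ofBijective _ (Finite.injective_iff_bijective.1 hinj)
  let g : T3.G R := T3.G.ofM (GeneralLinearGroup.mk'' P hu)
  have hg : ∀ f : T3.Model R, g • f = f.subst P := fun f =>
    (T3.Model.scale_one _).symm.trans (T3.G.scale_smul g f)
  rw [m5S, m5S, ← (e.prodCongr e).sum_comp]
  refine Finset.sum_congr rfl fun p _ => ?_
  have e1 : cubM (P *ᵥ a) (P *ᵥ b) ((e.prodCongr e) p).1 ((e.prodCongr e) p).2 =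
      g • cubM a b p.1 p.2 := by rw [hg, cubM_subst]; rfl
  have e2 : T3.Pt.map θ (g.pt (crossProduct (P *ᵥ a) (P *ᵥ b))) =
      T3.Pt.sc (θ P.det) (T3.Pt.map θ (crossProduct a b)) := by
    rw [show g.pt (crossProduct (P *ᵥ a) (P *ᵥ b)) = _ from m5_cross a b P]
    funext r; simp
  rw [e1, T3.G.jac_smul, hΨ, T3.G.map_smul]
  refine if_congr ?_ rfl rfl
  rw [← T3.Model.good_pt, T3.G.map_pt, e2]
  exact ⟨fun hg => hg.eqv ⟨(θ P.det)⁻¹, inv_ne_zero hP, by simp [smul_smul, hP]⟩,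
    fun hg => hg.eqv ⟨_, hP, rfl⟩⟩

omit [Fintype κ] in
lemma m5S_std (Ψ : WeierstrassCurve R → ℝ) : m5S θ Ψ ![0, 1, 0] ![0, 0, 1] =
    (Fintype.card R : ℝ) ^ 9 *
      ∑ f : T3.Model R with f.a = 0 ∧ (f.map θ).Good T3.Pt.std, Ψ f.jac := by
  have e0 : T3.Pt.map θ (crossProduct (![0, 1, 0] : T3.Pt R) ![0, 0, 1]) = T3.Pt.std := by
    funext r; fin_cases r <;> simp [crossProduct]
  let F : (Fin 9 → R) × T3.Model R → Matrix (Fin 3) (Fin 3) R × Matrix (Fin 3) (Fin 3) R :=
    fun p => (!![-p.2.a3, p.1 0, -p.2.c1 - p.1 1; p.1 2, p.1 3, p.1 4; p.1 1, p.1 5, -p.2.c],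
      !![p.2.a2, p.2.b1 - p.1 6, p.2.m - p.1 7 + p.1 0 + p.1 2; p.1 6, p.2.b,
        p.2.b3 - p.1 8 + p.1 3; p.1 7, p.1 8, p.2.c2 + p.1 4 + p.1 5])
  have hF : ∀ p : (Fin 9 → R) × T3.Model R, p.2.a = 0 →
      cubM ![0, 1, 0] ![0, 0, 1] (F p).1 (F p).2 = p.2 := fun p hp => by
    ext <;> simp [cubM, ofTensor, F, hp]
    all_goals ring
  have key : ∑ p ∈ (Finset.univ : Finset (Fin 9 → R)) ×ˢ
      (Finset.univ.filter fun f : T3.Model R => f.a = 0),
      (if (p.2.map θ).Good T3.Pt.std then Ψ p.2.jac else 0) = m5S θ Ψ ![0, 1, 0] ![0, 0, 1] := by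
    rw [m5S, e0]
    refine Finset.sum_bij (fun p _ => F p) (fun _ _ => Finset.mem_univ _) ?_ ?_ ?_
    · intro p hp p' hp' e
      simp only [Finset.mem_product, Finset.mem_filter, Finset.mem_univ, true_and] at hp hp'
      refine Prod.ext ?_ (by rw [← hF p hp, ← hF p' hp', e])
      funext i
      fin_cases i
      exacts [congrArg (·.1 0 1) e, congrArg (·.1 2 0) e, congrArg (·.1 1 0) e,
        congrArg (·.1 1 1) e, congrArg (·.1 1 2) e, congrArg (·.1 2 1) e, congrArg (·.2 1 0) e,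
        congrArg (·.2 2 0) e, congrArg (·.2 2 1) e]
    · rintro ⟨M, N⟩ -
      refine ⟨(![M 0 1, M 2 0, M 1 0, M 1 1, M 1 2, M 2 1, N 1 0, N 2 0, N 2 1],
        cubM ![0, 1, 0] ![0, 0, 1] M N), by simp [cubM, ofTensor], Prod.ext ?_ ?_⟩ <;>
      · ext i j
        fin_cases i <;> fin_cases j <;> simp [F, cubM, ofTensor] <;> ring
    · intro p hp
      simp only [Finset.mem_product, Finset.mem_filter, Finset.mem_univ, true_and] at hp
      rw [hF p hp]
  rw [← key, Finset.sum_product]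
  simp only [Finset.sum_const, Finset.card_univ, Fintype.card_fun, Fintype.card_fin, nsmul_eq_mul,
    Finset.sum_filter, ite_and]
  push_cast
  rfl

/-- the sum over all pairs of linear forms -/
theorem m5S_sum (h : IsResidue θ) (Ψ : WeierstrassCurve R → ℝ)
    (hΨ : ∀ (C : VariableChange R) W, Ψ (C • W) = Ψ W) :
    ∑ s : T3.Pt R × T3.Pt R, m5S θ Ψ s.1 s.2 =
      ((Fintype.card R : ℝ) / Fintype.card κ) ^ 6 * (((Fintype.card κ : ℝ) ^ 3 - 1) *
        ((Fintype.card κ : ℝ) ^ 3 - Fintype.card κ)) * ((Fintype.card R : ℝ) ^ 9 *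
          ∑ f : T3.Model R with f.a = 0 ∧ (f.map θ).Good T3.Pt.std, Ψ f.jac) := by
  rw [← m5_card_prim h, ← m5S_std, ← nsmul_eq_mul, ← Finset.sum_const, Finset.sum_filter]
  refine Finset.sum_congr rfl fun s _ => ?_
  split_ifs with hs
  · obtain ⟨i, hi⟩ := Function.ne_iff.1 hs
    have hP : θ (of ![Pi.single i 1, s.1, s.2])ᵀ.det ≠ 0 := by
      rw [det_transpose, ← show _ = (of ![Pi.single i 1, s.1, s.2]).det from
        triple_product_eq_det _ _ _, single_one_dotProduct]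
      exact hi
    rw [← m5S_mul h Ψ hΨ ![0, 1, 0] ![0, 0, 1] hP]
    congr 1 <;>
    · funext r
      simp [mulVec, dotProduct, Fin.sum_univ_three]
  · exact Finset.sum_eq_zero fun p _ => if_neg fun hg => hs hg.on.prim

end SelAvg.FF.T5
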