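import Pool.Agent.H34P.Mass5A
import Pool.Agent.H34P.LocD

/-! The local mass formula in degree five: models in standard position. -/

namespace SelAvg.FF.T5

open WeierstrassCurve Matrix
open scoped Classical

variable {R κ : Type*} [CommRing R] [Field κ] {θ : R →+* κ}

/-- the coordinates of a model in standard position -/
abbrev M5P (R : Type*) := (R × (Fin 4 → R)) × Matrix (Fin 3) (Fin 3) R ×
  (T3.Pt R × T3.Pt R) × Matrix (Fin 3) (Fin 3) R × Matrix (Fin 3) (Fin 3) R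

/-- the coefficients of `x₂, x₃, x₄` -/
def m5row (p : M5P R) (s : Fin 3) : Fin 10 → R :=
  ![p.2.1 2 s, -p.2.1 1 s, p.2.2.2.1 0 s, p.2.2.2.2 0 s, p.2.1 0 s, p.2.2.2.1 1 s, p.2.2.2.2 1 s,
    p.2.2.2.1 2 s, p.2.2.2.2 2 s, p.1.2 s.succ]

/-- the model with given coordinates -/
def m5mk (v : Fin 12 → R) (p : M5P R) : Model R :=
  Model.ofVec ![![v 0, v 1, v 2, v 3, v 4, v 5, v 6, v 7, v 8, p.1.1],
    ![v 9, v 10, p.2.2.1.1 0, p.2.2.1.2 0, v 11, p.2.2.1.1 1, p.2.2.1.2 1, p.2.2.1.1 2,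
      p.2.2.1.2 2, p.1.2 0], m5row p 0, m5row p 1, m5row p 2]

/-- the coordinates that vanish in standard position -/
def m5v (f : Model R) : Fin 12 → R :=
  ![f.c 0 0 1, f.c 0 0 2, f.c 0 0 3, f.c 0 0 4, f.c 0 1 2, f.c 0 1 3, f.c 0 1 4, f.c 0 2 3,
    f.c 0 2 4, f.c 1 0 1, f.c 1 0 2, f.c 1 1 2]

/-- the other coordinates -/
def m5p (f : Model R) : M5P R :=
  ((f.lam, ![f.c 1 3 4, f.c 2 3 4, f.c 3 3 4, f.c 4 3 4]), f.Tm, (f.nv 3, f.nv 4),
    of ![f.lin 0 3, f.lin 1 3, f.lin 2 3], of ![f.lin 0 4, f.lin 1 4, f.lin 2 4])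

lemma m5v_mk (v : Fin 12 → R) (p : M5P R) : m5v (m5mk v p) = v := by
  funext i; fin_cases i <;> rfl

lemma m5p_mk (v : Fin 12 → R) (p : M5P R) : m5p (m5mk v p) = p := by
  refine Prod.ext (Prod.ext rfl ?_) (Prod.ext ?_ (Prod.ext (Prod.ext ?_ ?_) (Prod.ext ?_ ?_)))
  · funext i; fin_cases i <;> rfl
  · ext i j; fin_cases i <;> fin_cases j <;> first | rfl | exact neg_neg _
  · funext i; fin_cases i <;> rfl
  · funext i; fin_cases i <;> rfl
  · ext i j; fin_cases i <;> fin_cases j <;> rfl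
  · ext i j; fin_cases i <;> fin_cases j <;> rfl

lemma m5mk_vp (f : Model R) : m5mk (m5v f) (m5p f) = f := by
  apply Model.equivVec.injective
  funext n
  fin_cases n <;> first | rfl | exact neg_neg _

lemma m5_std_iff {f : Model R} : f.Std ↔ ∀ i, m5v f i = 0 := by
  constructor
  · intro h i
    fin_cases i
    exacts [h.c001, h.c002, h.c003, h.c004, h.c012, h.c013, h.c014, h.c023, h.c024, h.c101,
      h.c102, h.c112]
  · intro h
    exact ⟨h 0, h 1, h 2, h 3, h 4, h 5, h 6, h 7, h 8, h 9, h 10, h 11⟩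

lemma m5v_map (f : Model R) (i : Fin 12) : m5v (f.map θ) i = θ (m5v f i) := by
  fin_cases i <;> rfl

/-- the cubic in coordinates -/
def m5cub (p : M5P R) : T3.Model R :=
  cubM (p.2.2.1.1 ᵥ* p.2.1) (p.2.2.1.2 ᵥ* p.2.1) (p.2.2.2.1ᵀ * p.2.1) (p.2.2.2.2ᵀ * p.2.1)

lemma m5_cub (f : Model R) : f.cub = m5cub (m5p f) := by
  rw [Model.cub, m5cub, cubM]
  congr 1
  funext r s u
  have e : ∀ i, f.qm i s u = ((of ![f.lin 0 i, f.lin 1 i, f.lin 2 i])ᵀ * f.Tm) s u := fun i => by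
    simp [Model.qm, mul_apply, Fin.sum_univ_three]
  rw [e, e]
  rfl

lemma m5_sing {a b p : T3.Pt κ} {M N : Matrix (Fin 3) (Fin 3) κ} (ha : a ⬝ᵥ p = 0)
    (hb : b ⬝ᵥ p = 0) (hM : p ⬝ᵥ M *ᵥ p = 0) (hN : p ⬝ᵥ N *ᵥ p = 0) : ¬(cubM a b M N).Smooth p := by
  simp only [mulVec, dotProduct, Fin.sum_univ_three] at ha hb hM hN
  simp only [T3.Model.Smooth, not_or, not_not, cubM, ofTensor, T3.Model.Fx, T3.Model.Fy,
    T3.Model.Fz]
  refine ⟨?_, ?_, ?_⟩
  · linear_combination a 0 * hN - b 0 * hM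
      + (2 * N 0 0 * p 0 + (N 0 1 + N 1 0) * p 1 + (N 0 2 + N 2 0) * p 2) * ha
      - (2 * M 0 0 * p 0 + (M 0 1 + M 1 0) * p 1 + (M 0 2 + M 2 0) * p 2) * hb
  · linear_combination a 1 * hN - b 1 * hM
      + (2 * N 1 1 * p 1 + (N 0 1 + N 1 0) * p 0 + (N 1 2 + N 2 1) * p 2) * ha
      - (2 * M 1 1 * p 1 + (M 0 1 + M 1 0) * p 0 + (M 1 2 + M 2 1) * p 2) * hb
  · linear_combination a 2 * hN - b 2 * hM
      + (2 * N 2 2 * p 2 + (N 0 2 + N 2 0) * p 0 + (N 1 2 + N 2 1) * p 1) * ha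
      - (2 * M 2 2 * p 2 + (M 0 2 + M 2 0) * p 0 + (M 1 2 + M 2 1) * p 1) * hb

lemma m5_Tm {s : Model κ} (h : s.cub.Good s.mk') : s.Tm.det ≠ 0 := by
  intro h0
  have e : s.Tm *ᵥ s.mk' = 0 := by
    have : s.Tm *ᵥ s.mk' = s.Tm.det • crossProduct (s.nv 3) (s.nv 4) := by
      rw [Model.mk', Model.alp, Model.alp]
      generalize s.Tm = T
      funext r
      fin_cases r <;>
        simp [crossProduct, mulVec, vecMul, dotProduct, Fin.sum_univ_three, det_fin_three] <;> ring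
    rw [this, h0, zero_smul]
  refine m5_sing (a := s.alp 3) (b := s.alp 4) (p := s.mk') ?_ ?_ ?_ ?_ (m5_cub s ▸ h.smooth)
  · exact dot_self_cross _ _
  · exact dot_cross_self _ _
  · rw [← mulVec_mulVec]
    exact (congrArg (fun v => s.mk' ⬝ᵥ _ *ᵥ v) e).trans (by simp)
  · rw [← mulVec_mulVec]
    exact (congrArg (fun v => s.mk' ⬝ᵥ _ *ᵥ v) e).trans (by simp)

/-- goodness in coordinates -/
def M5Gp (θ : R →+* κ) (p : M5P R) : Prop := θ p.1.1 ≠ 0 ∧ θ p.2.1.det ≠ 0 ∧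
  ((m5cub p).map θ).Good (T3.Pt.map θ (crossProduct (p.2.2.1.1 ᵥ* p.2.1) (p.2.2.1.2 ᵥ* p.2.1)))

lemma m5G_map (f : Model R) :
    (f.map θ).GoodStd ↔ (∀ i, θ (m5v f i) = 0) ∧ M5Gp θ (m5p f) := by
  have e : (f.map θ).cub.Good (f.map θ).mk' ↔ ((m5cub (m5p f)).map θ).Good (T3.Pt.map θ f.mk') := by
    rw [Model.cub_map, Model.mk'_map, m5_cub]
  constructor
  · intro h
    refine ⟨fun i => by rw [← m5v_map]; exact m5_std_iff.1 h.std i, h.lam, ?_, e.1 h.good⟩
    have := m5_Tm h.good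
    rw [Model.Tm_map] at this
    rw [RingHom.map_det]
    exact this
  · rintro ⟨h1, h2, -, h3⟩
    exact ⟨m5_std_iff.2 fun i => by rw [m5v_map]; exact h1 i, h2, e.2 h3⟩

/-- the unipotent matrix acting on the rows and columns -/
def m5A (x : Fin 12 → R) : Matrix (Fin 5) (Fin 5) R :=
  !![1, 0, 0, x 0, x 1; 0, 1, 0, x 2, x 3; 0, 0, 1, x 4, x 5; 0, 0, 0, 1, 0; 0, 0, 0, 0, 1]

/-- the unipotent matrix acting on the variables -/
def m5B (x : Fin 12 → R) : Matrix (Fin 5) (Fin 5) R :=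
  !![1, 0, x 6, x 7, x 8; 0, 1, x 9, x 10, x 11; 0, 0, 1, 0, 0; 0, 0, 0, 1, 0; 0, 0, 0, 0, 1]

lemma m5A_mul (x y : Fin 12 → R) : m5A x * m5A y = m5A (x + y) := by
  ext i j
  fin_cases i <;> fin_cases j <;> simp [m5A, mul_apply, Fin.sum_univ_five, add_comm]

lemma m5B_mul (x y : Fin 12 → R) : m5B x * m5B y = m5B (x + y) := by
  ext i j
  fin_cases i <;> fin_cases j <;> simp [m5B, mul_apply, Fin.sum_univ_five, add_comm]

lemma m5A_zero : m5A (0 : Fin 12 → R) = 1 := by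
  ext i j
  fin_cases i <;> fin_cases j <;> rfl

lemma m5B_zero : m5B (0 : Fin 12 → R) = 1 := by
  ext i j
  fin_cases i <;> fin_cases j <;> rfl

lemma m5A_unit (x : Fin 12 → R) : IsUnit (m5A x).det :=
  isUnit_det_of_right_inverse (B := m5A (-x)) (by rw [m5A_mul, add_neg_cancel, m5A_zero])

lemma m5B_unit (x : Fin 12 → R) : IsUnit (m5B x).det :=
  isUnit_det_of_right_inverse (B := m5B (-x)) (by rw [m5B_mul, add_neg_cancel, m5B_zero])

lemma m5_act_map {x : Fin 12 → R} (hx : ∀ i, θ (x i) = 0) (f : Model R) :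
    (f.act (m5A x) (m5B x)).map θ = f.map θ := by
  have h1 : (m5A x).map θ = 1 := by
    ext i j
    fin_cases i <;> fin_cases j <;> simp [m5A, hx]
  have h2 : (m5B x).map θ = 1 := by
    ext i j
    fin_cases i <;> fin_cases j <;> simp [m5B, hx]
  rw [Model.map_act, h1, h2, Model.act_one]

lemma m5_c_zero {s : Model R} (h : s.Std) : s.c 0 = altM ![0, 0, 0, 0, 0, 0, 0, 0, 0, s.lam] := by
  rw [← altM_eq (s.diag 0) (s.alt 0)]
  congr 1
  funext p
  fin_cases p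
  exacts [h.c001, h.c002, h.c003, h.c004, h.c012, h.c013, h.c014, h.c023, h.c024, rfl]

lemma m5_conj {s : Model R} (h : s.Std) (A : Matrix (Fin 5) (Fin 5) R) (i j : Fin 5) :
    (A * s.c 0 * Aᵀ) i j = s.lam * (A i 3 * A j 4 - A i 4 * A j 3) := by
  rw [m5_c_zero h]
  simp [altM, mul_apply, Fin.sum_univ_five]
  ring

/-- the entries of the upper left block -/
lemma m5_block {s : Model R} (h : s.Std) (Q : Pt R) :
    s.Tm *ᵥ Q.tail = ![s.ev Q 1 2, -s.ev Q 0 2, s.ev Q 0 1] := by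
  funext r
  fin_cases r <;>
    simp [Model.Tm, Model.lin, mulVec, dotProduct, Fin.sum_univ_three, Model.ev_apply,
      Fin.sum_univ_five, h.c001, h.c002, h.c012, h.c101, h.c102, h.c112] <;> ring

lemma m5_mulVec {M : Matrix (Fin 3) (Fin 3) R} (hM : IsUnit M.det) {v : Fin 3 → R}
    (h : M *ᵥ v = 0) : v = 0 := by
  rw [← one_mulVec v, ← nonsing_inv_mul M hM, ← mulVec_mulVec, h, mulVec_zero]

lemma m5_uniq (h : IsResidue θ) {s : Model R} (hs : s.Std) (hl : θ s.lam ≠ 0)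
    (hT : θ s.Tm.det ≠ 0) {x : Fin 12 → R} (hx : ∀ i, θ (x i) = 0)
    (hs' : (s.act (m5A x) (m5B x)).Std) : x = 0 := by
  obtain ⟨M, hM⟩ : ∃ M, M = s.ev (m5B x 0) := ⟨_, rfl⟩
  have e0 : m5A (-x) * (s.act (m5A x) (m5B x)).c 0 * (m5A (-x))ᵀ = M := by
    rw [Model.act_c, ← Matrix.mul_assoc, ← Matrix.mul_assoc, Matrix.mul_assoc, ← transpose_mul,
      m5A_mul, neg_add_cancel, m5A_zero, Matrix.one_mul, transpose_one, Matrix.mul_one, hM]
  have e1 : ∀ i j k l, pf M i j k l = 0 := fun i j k l => by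
    simp only [pf, ← e0, m5_conj hs']
    ring
  have e2 : ∀ i j, s.c 0 i j = 0 → M i j = s.lin i j ⬝ᵥ Pt.tail (m5B x 0) := fun i j h0 => by
    simp [hM, Model.ev_apply, Fin.sum_univ_five, h0, m5B, Model.lin, dotProduct,
      Fin.sum_univ_three]
    ring
  have e3 : ∀ i j, θ (M i j) = θ (s.c 0 i j) := fun i j => by
    simp [hM, Model.ev_apply, Fin.sum_univ_five, hx, m5B]
  have e4 := m5_block hs (m5B x 0)
  rw [← hM] at e4
  have e5 : Pt.tail (m5B x 0) = 0 := by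
    refine m5_mulVec (M := M 3 4 • s.Tm - of ![M 1 3 • s.lin 2 4 - M 1 4 • s.lin 2 3,
      M 0 4 • s.lin 2 3 - M 0 3 • s.lin 2 4, M 0 3 • s.lin 1 4 - M 0 4 • s.lin 1 3])
      ((h.unit _).2 ?_) ?_
    · have : θ.mapMatrix (M 3 4 • s.Tm - of ![M 1 3 • s.lin 2 4 - M 1 4 • s.lin 2 3,
          M 0 4 • s.lin 2 3 - M 0 3 • s.lin 2 4, M 0 3 • s.lin 1 4 - M 0 4 • s.lin 1 3]) =
          θ s.lam • θ.mapMatrix s.Tm := by
        ext i j
        fin_cases i <;> simp [e3, hs.c003, hs.c004, hs.c013, hs.c014, Model.lam]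
      rw [RingHom.map_det, this, det_smul, ← RingHom.map_det]
      exact mul_ne_zero (pow_ne_zero _ hl) hT
    · rw [sub_mulVec, smul_mulVec, e4]
      funext r
      fin_cases r
      · have := e1 1 2 3 4
        simp [← e2 2 4 hs.c024, ← e2 2 3 hs.c023]
        simp only [pf] at this
        linear_combination this
      · have := e1 0 2 3 4
        simp [← e2 2 4 hs.c024, ← e2 2 3 hs.c023]
        simp only [pf] at this
        linear_combination -this
      · have := e1 0 1 3 4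
        simp [← e2 1 4 hs.c014, ← e2 1 3 hs.c013]
        simp only [pf] at this
        linear_combination this
  have x6 : x 6 = 0 := congrFun e5 0
  have x7 : x 7 = 0 := congrFun e5 1
  have x8 : x 8 = 0 := congrFun e5 2
  have hB : m5B x 0 = Pt.std := by
    funext j
    fin_cases j <;> simp [m5B, x6, x7, x8]
  have hu := (h.unit _).2 hl
  have e6 : ∀ i j, (s.act (m5A x) (m5B x)).c 0 i j =
      s.lam * (m5A x i 3 * m5A x j 4 - m5A x i 4 * m5A x j 3) := fun i j => by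
    rw [Model.act_c, hB, Model.ev_std, m5_conj hs]
  have x0 : x 0 = 0 := by simpa [m5A, hu.mul_right_eq_zero] using (e6 0 4).symm.trans hs'.c004
  have x1 : x 1 = 0 := by simpa [m5A, hu.mul_right_eq_zero] using (e6 0 3).symm.trans hs'.c003
  have x2 : x 2 = 0 := by simpa [m5A, hu.mul_right_eq_zero] using (e6 1 4).symm.trans hs'.c014
  have x3 : x 3 = 0 := by simpa [m5A, hu.mul_right_eq_zero] using (e6 1 3).symm.trans hs'.c013
  have x4 : x 4 = 0 := by simpa [m5A, hu.mul_right_eq_zero] using (e6 2 4).symm.trans hs'.c024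
  have x5 : x 5 = 0 := by simpa [m5A, hu.mul_right_eq_zero] using (e6 2 3).symm.trans hs'.c023
  have hA : m5A x = 1 := by
    rw [← m5A_zero]
    simp [m5A, x0, x1, x2, x3, x4, x5]
  have e7 : (s.act (m5A x) (m5B x)).c 1 = s.ev (m5B x 1) := by
    rw [Model.act_c, hA, transpose_one, Matrix.mul_one, Matrix.one_mul]
  have e8 := m5_block hs (m5B x 1)
  rw [← e7, hs'.c112, hs'.c102, hs'.c101] at e8
  have e9 := m5_mulVec ((h.unit _).2 hT) (e8.trans (by simp))
  funext i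
  fin_cases i
  exacts [x0, x1, x2, x3, x4, x5, x6, x7, x8, congrFun e9 0, congrFun e9 1, congrFun e9 2]

variable [Fintype R] [Fintype κ] [Fintype (Model R)]

theorem mass_exact (h : IsResidue θ) (Φ : Model R → ℝ) (hΦ : ∀ (g : G R) f, Φ (g • f) = Φ f) :
    ∑ f : Model R with (f.map θ).GoodStd, Φ f =
      ((Fintype.card R : ℝ) / Fintype.card κ) ^ 12 *
        ∑ f : Model R with f.Std ∧ (f.map θ).GoodStd, Φ f := by
  obtain ⟨K, hK⟩ : ∃ K : Finset (Fin 12 → R), ∀ x, x ∈ K ↔ ∀ i, θ (x i) = 0 :=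
    ⟨Finset.univ.filter _, fun x => Finset.mem_filter_univ x⟩
  have hc : (K.card : ℝ) = ((Fintype.card R : ℝ) / Fintype.card κ) ^ 12 := by
    rw [((m5_fib h).pi 12).card (t := {0}) fun x => by simp [hK, funext_iff]]
    simp
  obtain ⟨S, hS⟩ : ∃ S, S = Finset.univ.filter fun f : Model R => f.Std ∧ (f.map θ).GoodStd :=
    ⟨_, rfl⟩
  have hS' : ∀ f, f ∈ S ↔ f.Std ∧ (f.map θ).GoodStd := fun f => by rw [hS, Finset.mem_filter_univ]
  let F : (Fin 12 → R) × Model R → Model R := fun p => p.2.act (m5A p.1) (m5B p.1)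
  have hinj : Set.InjOn F (K ×ˢ S : Finset _) := by
    rintro ⟨x, s⟩ hp ⟨x', s'⟩ hp' e
    simp only [Finset.mem_coe, Finset.mem_product, hK, hS'] at hp hp'
    have e1 : s.act (m5A (-x' + x)) (m5B (-x' + x)) = s' := by
      rw [← m5A_mul, ← m5B_mul, ← Model.act_act, show s.act (m5A x) (m5B x) = _ from e,
        Model.act_act, m5A_mul, m5B_mul, neg_add_cancel, m5A_zero, m5B_zero, Model.act_one]
    have e2 := m5_uniq h hp.2.1 hp.2.2.lam ((m5G_map s).1 hp.2.2).2.2.1 (x := -x' + x)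
      (fun i => by simp [hp.1 i, hp'.1 i]) (e1 ▸ hp'.2.1)
    rw [e2, m5A_zero, m5B_zero, Model.act_one] at e1
    exact Prod.ext (neg_add_eq_zero.1 e2).symm e1
  have hcard : (Finset.univ.filter fun f : Model R => (f.map θ).GoodStd).card =
      (K ×ˢ S).card := by
    refine Finset.card_nbij' (fun f => (m5v f, m5mk 0 (m5p f))) (fun p => m5mk p.1 (m5p p.2))
      ?_ ?_ ?_ ?_
    · intro f hf
      simp only [Finset.mem_coe, Finset.mem_product, hK, hS', Finset.mem_filter_univ, m5G_map,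
        m5_std_iff, m5v_mk, m5p_mk] at hf ⊢
      exact ⟨hf.1, fun _ => rfl, fun _ => map_zero θ, hf.2⟩
    · intro p hp
      simp only [Finset.mem_coe, Finset.mem_product, hK, hS', Finset.mem_filter_univ, m5G_map,
        m5v_mk, m5p_mk] at hp ⊢
      exact ⟨hp.1, hp.2.2.2⟩
    · intro f _
      simp only [m5p_mk, m5mk_vp]
    · intro p hp
      simp only [Finset.mem_coe, Finset.mem_product, hS'] at hp
      simp only [m5v_mk, m5p_mk]
      rw [← show m5v p.2 = 0 from funext (m5_std_iff.1 hp.2.1), m5mk_vp]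
  have himg : (K ×ˢ S).image F = Finset.univ.filter fun f : Model R => (f.map θ).GoodStd := by
    refine Finset.eq_of_subset_of_card_le (fun f hf => ?_)
      (by rw [Finset.card_image_of_injOn hinj, hcard])
    obtain ⟨p, hp, rfl⟩ := Finset.mem_image.1 hf
    simp only [Finset.mem_product, hK, hS'] at hp
    rw [Finset.mem_filter_univ, m5_act_map hp.1]
    exact hp.2.2
  rw [← himg, Finset.sum_image hinj, ← hS, Finset.sum_product, ← hc, ← nsmul_eq_mul,
    ← Finset.sum_const]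
  exact Finset.sum_congr rfl fun x _ => Finset.sum_congr rfl fun s _ =>
    hΦ ⟨GeneralLinearGroup.mk'' _ (m5A_unit x), GeneralLinearGroup.mk'' _ (m5B_unit x)⟩ s

omit [Fintype κ] [Fintype (Model R)] in
lemma m5_change (h : IsResidue θ) (Ψ : WeierstrassCurve R → ℝ) (u : R × (Fin 4 → R))
    {T : Matrix (Fin 3) (Fin 3) R} (hu : θ u.1 ≠ 0) (hT : θ T.det ≠ 0) :
    ∑ y : (T3.Pt R × T3.Pt R) × Matrix (Fin 3) (Fin 3) R × Matrix (Fin 3) (Fin 3) R,
      (if M5Gp θ (u, T, y) then Ψ (m5cub (u, T, y)).jac else 0) =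
      ∑ s : T3.Pt R × T3.Pt R, m5S θ Ψ s.1 s.2 := by
  have hT' : IsUnit T := (isUnit_iff_isUnit_det T).2 ((h.unit _).2 hT)
  let e₁ := Equiv.ofBijective (fun n : T3.Pt R => n ᵥ* T)
    (Finite.injective_iff_bijective.1 (vecMul_injective_of_isUnit hT'))
  let e₂ := Equiv.ofBijective (fun L : Matrix (Fin 3) (Fin 3) R => Lᵀ * T)
    (Finite.injective_iff_bijective.1 fun L L' e => transpose_injective (hT'.mul_right_cancel e))
  simp only [m5S]
  rw [← Fintype.sum_prod_type']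
  exact Fintype.sum_equiv ((e₁.prodCongr e₁).prodCongr (e₂.prodCongr e₂)) _ _ fun y =>
    if_congr ⟨fun h => h.2.2, fun h => ⟨hu, hT, h⟩⟩ rfl rfl

theorem mass_std (h : IsResidue θ) (Ψ : WeierstrassCurve R → ℝ)
    (hΨ : ∀ (C : VariableChange R) W, Ψ (C • W) = Ψ W) :
    ∑ f : Model R with f.Std ∧ (f.map θ).GoodStd, Ψ f.jac =
      (Fintype.card R - (Fintype.card R : ℝ) / Fintype.card κ) * (Fintype.card R : ℝ) ^ 4 *
        (((Fintype.card R : ℝ) / Fintype.card κ) ^ 9 * (((Fintype.card κ : ℝ) ^ 3 - 1) *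
        ((Fintype.card κ : ℝ) ^ 3 - Fintype.card κ) *
        ((Fintype.card κ : ℝ) ^ 3 - (Fintype.card κ : ℝ) ^ 2))) *
        ∑ s : T3.Pt R × T3.Pt R, m5S θ Ψ s.1 s.2 := by
  have h1 : ∑ f : Model R with f.Std ∧ (f.map θ).GoodStd, Ψ f.jac =
      ∑ p : M5P R, if M5Gp θ p then Ψ (m5cub p).jac else 0 := by
    rw [← Finset.sum_filter]
    refine Finset.sum_nbij' m5p (m5mk 0) ?_ ?_ ?_ ?_ ?_
    · intro f hf
      rw [Finset.mem_filter_univ] at hf ⊢
      exact ((m5G_map f).1 hf.2).2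
    · intro p hp
      simp only [Finset.mem_filter_univ, m5G_map, m5_std_iff, m5v_mk, m5p_mk] at hp ⊢
      exact ⟨fun _ => rfl, fun _ => map_zero θ, hp⟩
    · intro f hf
      rw [Finset.mem_filter_univ] at hf
      rw [← show m5v f = 0 from funext (m5_std_iff.1 hf.1), m5mk_vp]
    · intro p _
      exact m5p_mk _ _
    · intro f hf
      rw [Finset.mem_filter_univ] at hf
      obtain ⟨u, hu⟩ := (h.unit f.lam).2 hf.2.lam
      rw [Model.jac_std hf.1, hΨ, Model.WS, ← hu, wsc_unit, hΨ, m5_cub]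
  have h2 : ∀ (u : R × (Fin 4 → R)) (T : Matrix (Fin 3) (Fin 3) R),
      ∑ y : (T3.Pt R × T3.Pt R) × Matrix (Fin 3) (Fin 3) R × Matrix (Fin 3) (Fin 3) R,
        (if M5Gp θ (u, T, y) then Ψ (m5cub (u, T, y)).jac else 0) =
      if θ u.1 ≠ 0 then (if θ T.det ≠ 0 then ∑ s : T3.Pt R × T3.Pt R, m5S θ Ψ s.1 s.2 else 0)
        else 0 := fun u T => by
    split_ifs with hu hT
    · exact m5_change h Ψ u hu hT
    · exact Finset.sum_eq_zero fun y _ => if_neg fun hy => hT hy.2.1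
    · exact Finset.sum_eq_zero fun y _ => if_neg fun hy => hu hy.1
  rw [h1, Fintype.sum_prod_type]
  simp only [Fintype.sum_prod_type (α₁ := Matrix (Fin 3) (Fin 3) R), h2]
  rw [Fintype.sum_prod_type, ← mass_card_unit h, ← m5_card_GLR h]
  simp only [Finset.sum_ite_irrel, Finset.sum_const_zero, ← Finset.sum_filter, Finset.sum_const,
    Finset.card_univ, Fintype.card_fun, Fintype.card_fin, nsmul_eq_mul]
  push_cast
  ring

end SelAvg.FF.T5
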