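import Pool.Agent.H5T.DifA

/-!
Degree five models: five alternating `5 × 5` matrices, the action of pairs of matrices, standard
position and the projection to a ternary cubic.
-/

namespace SelAvg.FF.T5

open WeierstrassCurve Matrix

variable {R S : Type*} [CommRing R] [CommRing S]

/-- An alternating matrix of linear forms: `c k` is the coefficient matrix of `x k`. -/
@[ext] structure Model (R : Type*) [CommRing R] where
  c : Fin 5 → Matrix (Fin 5) (Fin 5) R
  diag : ∀ k i, c k i i = 0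
  alt : ∀ k i j, c k j i = -c k i j

/-- homogeneous coordinates (row vectors) -/
abbrev Pt (R : Type*) := Fin 5 → R

namespace Pt

abbrev map {R S : Type*} [CommRing R] [CommRing S] (φ : R →+* S) (Q : Pt R) : Pt S := φ ∘ Q

/-- scaling -/
abbrev sc (t : R) (Q : Pt R) : Pt R := t • Q

/-- the standard point `(1 : 0 : 0 : 0 : 0)` -/
def std : Pt R := ![1, 0, 0, 0, 0]

/-- the last three coordinates -/
def tail (Q : Pt R) : T3.Pt R := ![Q 2, Q 3, Q 4]

@[simp] lemma std_zero : (std : Pt R) 0 = 1 := rfl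
@[simp] lemma std_one : (std : Pt R) 1 = 0 := rfl
@[simp] lemma std_two : (std : Pt R) 2 = 0 := rfl
@[simp] lemma std_three : (std : Pt R) 3 = 0 := rfl
@[simp] lemma std_four : (std : Pt R) 4 = 0 := rfl
@[simp] lemma map_std (φ : R →+* S) : (std : Pt R).map φ = std := by
  funext i; fin_cases i <;> simp
omit [CommRing R] in
@[simp] lemma tail_zero (Q : Pt R) : Q.tail 0 = Q 2 := rfl
omit [CommRing R] in
@[simp] lemma tail_one (Q : Pt R) : Q.tail 1 = Q 3 := rfl
omit [CommRing R] in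
@[simp] lemma tail_two (Q : Pt R) : Q.tail 2 = Q 4 := rfl
lemma tail_map (φ : R →+* S) (Q : Pt R) : (Q.map φ).tail = T3.Pt.map φ Q.tail := by
  funext i; fin_cases i <;> rfl
lemma tail_smul (t : R) (Q : Pt R) : tail (t • Q) = t • Q.tail := by
  funext i; fin_cases i <;> rfl

end Pt

/-- the Pfaffian of the submatrix with rows and columns `i, j, k, l` -/
def pf (M : Matrix (Fin 5) (Fin 5) R) (i j k l : Fin 5) : R :=
  M i j * M k l - M i k * M j l + M i l * M j k

/-- all `4 × 4` Pfaffians vanish -/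
def Rk2 (M : Matrix (Fin 5) (Fin 5) R) : Prop := ∀ i j k l, pf M i j k l = 0

/-- the row index of the `p`-th entry above the diagonal -/
def pI : Fin 10 → Fin 5 := ![0, 0, 0, 0, 1, 1, 1, 2, 2, 3]

/-- the column index of the `p`-th entry above the diagonal -/
def pJ : Fin 10 → Fin 5 := ![1, 2, 3, 4, 2, 3, 4, 3, 4, 4]

/-- the alternating matrix with given entries above the diagonal -/
def altM (v : Fin 10 → R) : Matrix (Fin 5) (Fin 5) R :=
  !![0, v 0, v 1, v 2, v 3; -v 0, 0, v 4, v 5, v 6; -v 1, -v 4, 0, v 7, v 8;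
    -v 2, -v 5, -v 7, 0, v 9; -v 3, -v 6, -v 8, -v 9, 0]

/-- the coordinate `10 k + p` -/
def ix (k : Fin 5) (p : Fin 10) : Fin 50 := ⟨10 * k.1 + p.1, by omega⟩

/-- the variable index of a coordinate -/
def ixK (n : Fin 50) : Fin 5 := ⟨n.1 / 10, by omega⟩

/-- the entry index of a coordinate -/
def ixP (n : Fin 50) : Fin 10 := ⟨n.1 % 10, by omega⟩

@[simp] lemma ixK_ix (k : Fin 5) (p : Fin 10) : ixK (ix k p) = k := by
  apply Fin.ext; simp only [ixK, ix]; omega
@[simp] lemma ixP_ix (k : Fin 5) (p : Fin 10) : ixP (ix k p) = p := by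
  apply Fin.ext; simp only [ixP, ix]; omega
@[simp] lemma ix_ixK (n : Fin 50) : ix (ixK n) (ixP n) = n := by
  apply Fin.ext; simp only [ixP, ixK, ix]; omega

lemma altM_pI (v : Fin 10 → R) (p : Fin 10) : altM v (pI p) (pJ p) = v p := by
  fin_cases p <;> rfl

lemma altM_diag (v : Fin 10 → R) (i : Fin 5) : altM v i i = 0 := by
  fin_cases i <;> rfl

lemma altM_alt (v : Fin 10 → R) (i j : Fin 5) : altM v j i = -altM v i j := by
  fin_cases i <;> fin_cases j <;> simp [altM]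

lemma altM_eq {M : Matrix (Fin 5) (Fin 5) R} (hd : ∀ i, M i i = 0) (ha : ∀ i j, M j i = -M i j) :
    altM (fun p => M (pI p) (pJ p)) = M := by
  ext i j
  fin_cases i <;> fin_cases j <;> simp [altM, pI, pJ, hd] <;> exact (ha _ _).symm

lemma altM_map (φ : R →+* S) (v : Fin 10 → R) : (altM v).map φ = altM (fun p => φ (v p)) := by
  ext i j
  fin_cases i <;> fin_cases j <;> simp [altM]

lemma pf_map (φ : R →+* S) (M : Matrix (Fin 5) (Fin 5) R) (i j k l : Fin 5) :
    pf (M.map φ) i j k l = φ (pf M i j k l) := by simp [pf]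

lemma pf_smul (t : R) (M : Matrix (Fin 5) (Fin 5) R) (i j k l : Fin 5) :
    pf (t • M) i j k l = t ^ 2 * pf M i j k l := by simp [pf]; ring

lemma moda_sum1 (X Y : Fin 5 → Fin 5 → R) :
    (∑ a, ∑ b, X a b) * (∑ c, ∑ d, Y c d) = ∑ a, ∑ b, ∑ c, ∑ d, X a b * Y c d := by
  rw [Finset.sum_mul]
  refine Finset.sum_congr rfl fun a _ => ?_
  rw [Finset.sum_mul]
  refine Finset.sum_congr rfl fun b _ => ?_
  rw [Finset.mul_sum]
  refine Finset.sum_congr rfl fun c _ => ?_
  rw [Finset.mul_sum]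

lemma moda_sum2 (X Y : Fin 5 → Fin 5 → R) :
    (∑ a, ∑ c, X a c) * (∑ b, ∑ d, Y b d) = ∑ a, ∑ b, ∑ c, ∑ d, X a c * Y b d := by
  rw [moda_sum1]
  exact Finset.sum_congr rfl fun a _ => Finset.sum_comm

lemma moda_sum3 (X Y : Fin 5 → Fin 5 → R) :
    (∑ a, ∑ d, X a d) * (∑ b, ∑ c, Y b c) = ∑ a, ∑ b, ∑ c, ∑ d, X a d * Y b c := by
  rw [moda_sum2]
  exact Finset.sum_congr rfl fun a _ => Finset.sum_congr rfl fun b _ => Finset.sum_comm

lemma moda_conj (A M : Matrix (Fin 5) (Fin 5) R) (i j : Fin 5) :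
    (A * M * Aᵀ) i j = ∑ a, ∑ b, A i a * A j b * M a b := by
  simp only [mul_apply, transpose_apply, Finset.sum_mul]
  rw [Finset.sum_comm]
  exact Finset.sum_congr rfl fun a _ => Finset.sum_congr rfl fun b _ => by ring

/-- the Pfaffians form a tensor -/
lemma pf_conj (A M : Matrix (Fin 5) (Fin 5) R) (i j k l : Fin 5) :
    pf (A * M * Aᵀ) i j k l =
      ∑ a, ∑ b, ∑ c, ∑ d, A i a * A j b * A k c * A l d * pf M a b c d := by
  rw [pf, moda_conj, moda_conj, moda_conj, moda_conj, moda_conj, moda_conj,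
    moda_sum1 (fun a b => A i a * A j b * M a b), moda_sum2 (fun a c => A i a * A k c * M a c),
    moda_sum3 (fun a d => A i a * A l d * M a d)]
  simp only [← Finset.sum_sub_distrib, ← Finset.sum_add_distrib]
  refine Finset.sum_congr rfl fun a _ => Finset.sum_congr rfl fun b _ =>
    Finset.sum_congr rfl fun c _ => Finset.sum_congr rfl fun d _ => ?_
  rw [pf]; ring

lemma Rk2.conj {M : Matrix (Fin 5) (Fin 5) R} (h : Rk2 M) (A : Matrix (Fin 5) (Fin 5) R) :
    Rk2 (A * M * Aᵀ) := fun i j k l => by simp [pf_conj, h _ _ _ _]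

/-- for an alternating matrix five Pfaffians suffice -/
lemma rk2_iff {M : Matrix (Fin 5) (Fin 5) R} (hd : ∀ i, M i i = 0) (ha : ∀ i j, M j i = -M i j) :
    Rk2 M ↔ pf M 0 1 2 3 = 0 ∧ pf M 0 1 2 4 = 0 ∧ pf M 0 1 3 4 = 0 ∧ pf M 0 2 3 4 = 0 ∧
      pf M 1 2 3 4 = 0 := by
  refine ⟨fun h => ⟨h _ _ _ _, h _ _ _ _, h _ _ _ _, h _ _ _ _, h _ _ _ _⟩, ?_⟩
  rintro ⟨h1, h2, h3, h4, h5⟩
  have s1 : ∀ i j k l, pf M j i k l = -pf M i j k l := fun i j k l => by
    simp only [pf, ha i j]; ring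
  have s2 : ∀ i j k l, pf M i k j l = -pf M i j k l := fun i j k l => by
    simp only [pf, ha j k]; ring
  have s3 : ∀ i j k l, pf M i j l k = -pf M i j k l := fun i j k l => by
    simp only [pf, ha k l]; ring
  have z1 : ∀ i k l, pf M i i k l = 0 := fun i k l => by simp only [pf, hd]; ring
  have z2 : ∀ i j l, pf M i j j l = 0 := fun i j l => by simp only [pf, hd]; ring
  have z3 : ∀ i j k, pf M i j k k = 0 := fun i j k => by simp only [pf, hd]; ring
  have srt : ∀ i j k l : Fin 5, i ≤ j → j ≤ k → k ≤ l → pf M i j k l = 0 := by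
    intro i j k l a b c
    rcases a.eq_or_lt with rfl | a
    · exact z1 _ _ _
    rcases b.eq_or_lt with rfl | b
    · exact z2 _ _ _
    rcases c.eq_or_lt with rfl | c
    · exact z3 _ _ _
    have hi : i.1 < j.1 := a
    have hj : j.1 < k.1 := b
    have hk : k.1 < l.1 := c
    have hl := l.2
    have : (i = 0 ∧ j = 1 ∧ k = 2 ∧ l = 3) ∨ (i = 0 ∧ j = 1 ∧ k = 2 ∧ l = 4) ∨
        (i = 0 ∧ j = 1 ∧ k = 3 ∧ l = 4) ∨ (i = 0 ∧ j = 2 ∧ k = 3 ∧ l = 4) ∨
        (i = 1 ∧ j = 2 ∧ k = 3 ∧ l = 4) := by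
      simp only [Fin.ext_iff]
      change (i.1 = 0 ∧ j.1 = 1 ∧ k.1 = 2 ∧ l.1 = 3) ∨ (i.1 = 0 ∧ j.1 = 1 ∧ k.1 = 2 ∧ l.1 = 4) ∨
        (i.1 = 0 ∧ j.1 = 1 ∧ k.1 = 3 ∧ l.1 = 4) ∨ (i.1 = 0 ∧ j.1 = 2 ∧ k.1 = 3 ∧ l.1 = 4) ∨
        (i.1 = 1 ∧ j.1 = 2 ∧ k.1 = 3 ∧ l.1 = 4)
      omega
    rcases this with ⟨rfl, rfl, rfl, rfl⟩ | ⟨rfl, rfl, rfl, rfl⟩ | ⟨rfl, rfl, rfl, rfl⟩ |
      ⟨rfl, rfl, rfl, rfl⟩ | ⟨rfl, rfl, rfl, rfl⟩ <;> assumption
  have t3 : ∀ i j k l : Fin 5, i ≤ j → j ≤ k → j ≤ l → pf M i j k l = 0 := by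
    intro i j k l a b c
    rcases le_total k l with d | d
    · exact srt _ _ _ _ a b d
    · rw [s3, srt _ _ _ _ a c d, neg_zero]
  have t2 : ∀ i j k l : Fin 5, i ≤ j → i ≤ k → i ≤ l → pf M i j k l = 0 := by
    intro i j k l a b c
    by_cases d : j ≤ k ∧ j ≤ l
    · exact t3 _ _ _ _ a d.1 d.2
    by_cases e : k ≤ j ∧ k ≤ l
    · rw [s2, t3 _ _ _ _ b e.1 e.2, neg_zero]
    · rw [s3, s2, t3 _ _ _ _ c (by omega) (by omega), neg_zero, neg_zero]
  intro i j k l
  by_cases a : i ≤ j ∧ i ≤ k ∧ i ≤ l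
  · exact t2 _ _ _ _ a.1 a.2.1 a.2.2
  by_cases b : j ≤ i ∧ j ≤ k ∧ j ≤ l
  · rw [s1, t2 _ _ _ _ b.1 b.2.1 b.2.2, neg_zero]
  by_cases c : k ≤ i ∧ k ≤ j ∧ k ≤ l
  · rw [s2, s1, t2 _ _ _ _ c.1 c.2.1 c.2.2, neg_zero, neg_zero]
  · rw [s3, s2, s1, t2 _ _ _ _ (by omega) (by omega) (by omega), neg_zero, neg_zero, neg_zero]

/-- the ternary cubic `∑ t r s u * v r * v s * v u` -/
def ofTensor (t : Fin 3 → Fin 3 → Fin 3 → R) : T3.Model R where
  a := t 0 0 0
  b := t 1 1 1
  c := t 2 2 2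
  a2 := t 0 0 1 + t 0 1 0 + t 1 0 0
  a3 := t 0 0 2 + t 0 2 0 + t 2 0 0
  b1 := t 0 1 1 + t 1 0 1 + t 1 1 0
  b3 := t 1 1 2 + t 1 2 1 + t 2 1 1
  c1 := t 0 2 2 + t 2 0 2 + t 2 2 0
  c2 := t 1 2 2 + t 2 1 2 + t 2 2 1
  m := t 0 1 2 + t 0 2 1 + t 1 0 2 + t 1 2 0 + t 2 0 1 + t 2 1 0

lemma F_ofTensor (t : Fin 3 → Fin 3 → Fin 3 → R) (v : T3.Pt R) :
    (ofTensor t).F v = ∑ r, ∑ s, ∑ u, t r s u * v r * v s * v u := by
  simp only [ofTensor, T3.Model.F, Fin.sum_univ_three]; ring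

lemma ofTensor_map (φ : R →+* S) (t : Fin 3 → Fin 3 → Fin 3 → R) :
    (ofTensor t).map φ = ofTensor (fun r s u => φ (t r s u)) := by
  ext <;> simp [ofTensor]

namespace Model

/-- the value of the matrix of linear forms -/
def ev (f : Model R) (Q : Pt R) : Matrix (Fin 5) (Fin 5) R := ∑ k, Q k • f.c k

lemma ev_apply (f : Model R) (Q : Pt R) (i j : Fin 5) : f.ev Q i j = ∑ k, Q k * f.c k i j := by
  simp [ev, Matrix.sum_apply]

lemma ev_diag (f : Model R) (Q : Pt R) (i : Fin 5) : f.ev Q i i = 0 := by simp [ev_apply, f.diag]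

lemma ev_alt (f : Model R) (Q : Pt R) (i j : Fin 5) : f.ev Q j i = -f.ev Q i j := by
  simp only [ev_apply, ← Finset.sum_neg_distrib]
  exact Finset.sum_congr rfl fun k _ => by rw [f.alt k i j]; ring

lemma conj_alt {M : Matrix (Fin 5) (Fin 5) R} (ha : ∀ i j, M j i = -M i j)
    (A : Matrix (Fin 5) (Fin 5) R) (i j : Fin 5) : (A * M * Aᵀ) j i = -(A * M * Aᵀ) i j := by
  have h : Mᵀ = -M := by ext a b; simp [ha a b]
  have h2 : (A * M * Aᵀ)ᵀ = -(A * M * Aᵀ) := by
    rw [transpose_mul, transpose_mul, transpose_transpose, h]; simp [Matrix.mul_assoc]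
  simpa using congrFun (congrFun h2 i) j

lemma conj_diag {M : Matrix (Fin 5) (Fin 5) R} (hd : ∀ i, M i i = 0) (ha : ∀ i j, M j i = -M i j)
    (A : Matrix (Fin 5) (Fin 5) R) (i : Fin 5) : (A * M * Aᵀ) i i = 0 := by
  rw [← altM_eq hd ha]
  simp [altM, mul_apply, Fin.sum_univ_five]
  ring

/-- the substitution `Φ(x) ↦ A Φ(x B) Aᵀ` -/
def act (A B : Matrix (Fin 5) (Fin 5) R) (f : Model R) : Model R where
  c k := A * f.ev (B k) * Aᵀ
  diag _ i := conj_diag (f.ev_diag _) (f.ev_alt _) A i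
  alt _ i j := conj_alt (f.ev_alt _) A i j

def map (φ : R →+* S) (f : Model R) : Model S where
  c k := (f.c k).map φ
  diag k i := by simp [f.diag]
  alt k i j := by simp [f.alt k i j]

/-- the model with given entries above the diagonal -/
def ofVec (v : Fin 5 → Fin 10 → R) : Model R :=
  ⟨fun k => altM (v k), fun k => altM_diag (v k), fun k => altM_alt (v k)⟩

/-- the coefficient vector: coordinate `10 k + p` is the entry `(pI p, pJ p)` of `c k` -/
def equivVec : Model R ≃ (Fin 50 → R) where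
  toFun f n := f.c (ixK n) (pI (ixP n)) (pJ (ixP n))
  invFun v := ofVec fun k p => v (ix k p)
  left_inv f := by
    ext1
    funext k
    simpa [ofVec] using altM_eq (f.diag k) (f.alt k)
  right_inv v := by
    funext n
    simp [ofVec, altM_pI]

lemma equivVec_apply (f : Model R) (n : Fin 50) :
    equivVec f n = f.c (ixK n) (pI (ixP n)) (pJ (ixP n)) := rfl

lemma equivVec_ix (f : Model R) (k : Fin 5) (p : Fin 10) :
    equivVec f (ix k p) = f.c k (pI p) (pJ p) := by simp [equivVec_apply]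

@[simp] lemma map_c (φ : R →+* S) (f : Model R) (k i j : Fin 5) :
    (f.map φ).c k i j = φ (f.c k i j) := rfl

lemma act_c (A B : Matrix (Fin 5) (Fin 5) R) (f : Model R) (k : Fin 5) :
    (f.act A B).c k = A * f.ev (B k) * Aᵀ := rfl

lemma equivVec_map (φ : R →+* S) (f : Model R) (n : Fin 50) :
    equivVec (f.map φ) n = φ (equivVec f n) := rfl

lemma ofVec_map (φ : R →+* S) (v : Fin 5 → Fin 10 → R) :
    (ofVec v).map φ = ofVec fun k p => φ (v k p) := by
  ext1; funext k; exact altM_map φ (v k)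

lemma equivVec_symm_map (φ : R →+* S) (v : Fin 50 → R) :
    (Model.equivVec.symm v).map φ = Model.equivVec.symm (fun i => φ (v i)) := ofVec_map φ _

lemma map_map {T : Type*} [CommRing T] (φ : R →+* S) (ψ : S →+* T) (f : Model R) :
    (f.map φ).map ψ = f.map (ψ.comp φ) := rfl

lemma map_injective {φ : R →+* S} (h : Function.Injective φ) :
    Function.Injective (Model.map φ) := by
  intro f f' e
  ext k i j
  exact h (congrArg (fun x => x.c k i j) e)

lemma ev_map (φ : R →+* S) (f : Model R) (Q : Pt R) :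
    (f.map φ).ev (Q.map φ) = (f.ev Q).map φ := by
  ext i j; simp [ev_apply]

lemma ev_smul (f : Model R) (t : R) (Q : Pt R) : f.ev (t • Q) = t • f.ev Q := by
  simp [ev, Finset.smul_sum, smul_smul]

lemma ev_add (f : Model R) (Q Q' : Pt R) : f.ev (Q + Q') = f.ev Q + f.ev Q' := by
  simp [ev, add_smul, Finset.sum_add_distrib]

@[simp] lemma ev_std (f : Model R) : f.ev Pt.std = f.c 0 := by
  simp [ev, Fin.sum_univ_five]

lemma ev_single (f : Model R) (k : Fin 5) : f.ev (Pi.single k 1) = f.c k := by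
  simp [ev, Pi.single_apply]

lemma ev_vecMul (f : Model R) (Q : Pt R) (B : Matrix (Fin 5) (Fin 5) R) :
    f.ev (Q ᵥ* B) = ∑ k, Q k • f.ev (B k) := by
  simp only [ev, vecMul, dotProduct, Finset.sum_smul, Finset.smul_sum, smul_smul]
  exact Finset.sum_comm

lemma ev_act (A B : Matrix (Fin 5) (Fin 5) R) (f : Model R) (Q : Pt R) :
    (f.act A B).ev Q = A * f.ev (Q ᵥ* B) * Aᵀ := by
  rw [ev_vecMul]
  simp only [ev.eq_def (f.act A B), act_c, Finset.mul_sum, Finset.sum_mul, Matrix.mul_smul,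
    Matrix.smul_mul]

lemma act_act (A B A' B' : Matrix (Fin 5) (Fin 5) R) (f : Model R) :
    (f.act A' B').act A B = f.act (A * A') (B * B') := by
  ext1
  funext k
  have h : (B * B') k = B k ᵥ* B' := by funext j; simp [mul_apply, vecMul, dotProduct]
  rw [act_c, act_c, ev_act, h, transpose_mul]
  simp only [Matrix.mul_assoc]

@[simp] lemma act_one (f : Model R) : f.act 1 1 = f := by
  ext1
  funext k
  have h : (1 : Matrix (Fin 5) (Fin 5) R) k = Pi.single k 1 := by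
    funext j; simp [one_apply, Pi.single_apply, eq_comm]
  rw [act_c, h, ev_single]; simp

lemma map_act (φ : R →+* S) (A B : Matrix (Fin 5) (Fin 5) R) (f : Model R) :
    (f.act A B).map φ = (f.map φ).act (A.map φ) (B.map φ) := by
  ext1
  funext k
  have h : (B.map φ) k = Pt.map φ (B k) := rfl
  rw [act_c, h, ev_map]
  change (A * f.ev (B k) * Aᵀ).map φ = _
  rw [Matrix.map_mul, Matrix.map_mul, transpose_map]

lemma act_diagonal (a b : Fin 5 → R) (f : Model R) (k i j : Fin 5) :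
    (f.act (diagonal a) (diagonal b)).c k i j = a i * a j * b k * f.c k i j := by
  have h : (diagonal b) k = b k • (Pi.single k 1 : Pt R) := by
    funext j; simp [diagonal_apply, Pi.single_apply, eq_comm]
  rw [act_c, h, ev_smul, ev_single]
  simp; ring

/-- Standard position: `Φ(e₀)` is a multiple of the elementary form at `(3, 4)` and the upper left
`3 × 3` block does not involve `x₁` (12 coordinates vanish). -/
structure Std (f : Model R) : Prop where
  c001 : f.c 0 0 1 = 0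
  c002 : f.c 0 0 2 = 0
  c003 : f.c 0 0 3 = 0
  c004 : f.c 0 0 4 = 0
  c012 : f.c 0 1 2 = 0
  c013 : f.c 0 1 3 = 0
  c014 : f.c 0 1 4 = 0
  c023 : f.c 0 2 3 = 0
  c024 : f.c 0 2 4 = 0
  c101 : f.c 1 0 1 = 0
  c102 : f.c 1 0 2 = 0
  c112 : f.c 1 1 2 = 0

/-- the coefficient of `x₀` at `(3, 4)` -/
def lam (f : Model R) : R := f.c 0 3 4

/-- the part of the entry `(i, j)` in the variables `x₂, x₃, x₄` (coefficient vector) -/
def lin (f : Model R) (i j : Fin 5) : T3.Pt R := ![f.c 2 i j, f.c 3 i j, f.c 4 i j]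

/-- the rows are the coefficient vectors of `φ₁₂`, `-φ₀₂`, `φ₀₁` -/
def Tm (f : Model R) : Matrix (Fin 3) (Fin 3) R := of ![f.lin 1 2, -f.lin 0 2, f.lin 0 1]

/-- the coefficients of `x₁` in the entries `(0, i)`, `(1, i)`, `(2, i)` -/
def nv (f : Model R) (i : Fin 5) : T3.Pt R := ![f.c 1 0 i, f.c 1 1 i, f.c 1 2 i]

/-- the coefficient of `x₁` in the Pfaffian `(0, 1, 2, i)`, a linear form in `x₂, x₃, x₄` -/
def alp (f : Model R) (i : Fin 5) : T3.Pt R := f.nv i ᵥ* f.Tm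

/-- the part of the Pfaffian `(0, 1, 2, i)` without `x₁`, as a (non symmetric) matrix -/
def qm (f : Model R) (i : Fin 5) : Matrix (Fin 3) (Fin 3) R :=
  of fun s u => f.lin 0 i s * f.Tm 0 u + f.lin 1 i s * f.Tm 1 u + f.lin 2 i s * f.Tm 2 u

/-- the ternary cubic obtained by projecting from the tangent line at the standard point -/
def cub (f : Model R) : T3.Model R :=
  ofTensor fun r s u => f.alp 3 r * f.qm 4 s u - f.alp 4 r * f.qm 3 s u

/-- the image of the standard point on the cubic -/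
def mk' (f : Model R) : T3.Pt R := crossProduct (f.alp 3) (f.alp 4)

/-- the Weierstrass equation attached to a model in standard position -/
def WS (f : Model R) : WeierstrassCurve R := wsc f.lam f.cub.jac

/-- the model in standard position with given cubic `h` (for `h.a = 0`) and marked point
`(1 : 0 : 0)` -/
def unred (h : T3.Model R) : Model R :=
  ofVec ![![0, 0, 0, 0, 0, 0, 0, 0, 0, 1], ![0, 0, 0, 0, 0, 1, 0, 0, 1, 0],
    ![0, 0, -h.a3, h.a2, 1, 0, 0, 0, 0, 0], ![0, -1, 0, h.b1, 0, 0, h.b, 0, 0, 0],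
    ![1, 0, -h.c1, h.m, 0, 0, h.b3, -h.c, h.c2, 0]]

/-- the weights of the variables in the flag pattern -/
def kosB : Fin 5 → ℕ := ![0, 1, 2, 3, 5]

/-- the flag pattern of the trivial class (20 coordinates vanish) -/
def Kos (f : Model R) : Prop := ∀ k i j : Fin 5, i.1 + j.1 + kosB k ≤ 5 → f.c k i j = 0

end Model

/-- Block triangular pairs: they preserve standard position. -/
structure Par (A B : Matrix (Fin 5) (Fin 5) R) : Prop where
  a03 : A 0 3 = 0
  a04 : A 0 4 = 0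
  a13 : A 1 3 = 0
  a14 : A 1 4 = 0
  a23 : A 2 3 = 0
  a24 : A 2 4 = 0
  b01 : B 0 1 = 0
  b02 : B 0 2 = 0
  b03 : B 0 3 = 0
  b04 : B 0 4 = 0
  b12 : B 1 2 = 0
  b13 : B 1 3 = 0
  b14 : B 1 4 = 0

/-- the upper left `3 × 3` block -/
def blk3 (A : Matrix (Fin 5) (Fin 5) R) : Matrix (Fin 3) (Fin 3) R :=
  !![A 0 0, A 0 1, A 0 2; A 1 0, A 1 1, A 1 2; A 2 0, A 2 1, A 2 2]

/-- the determinant of the lower right `2 × 2` block -/
def det2 (A : Matrix (Fin 5) (Fin 5) R) : R := A 3 3 * A 4 4 - A 3 4 * A 4 3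

/-- the lower right `3 × 3` block -/
def low3 (B : Matrix (Fin 5) (Fin 5) R) : Matrix (Fin 3) (Fin 3) R :=
  !![B 2 2, B 2 3, B 2 4; B 3 2, B 3 3, B 3 4; B 4 2, B 4 3, B 4 4]

end SelAvg.FF.T5
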