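import Pool.Agent.H34P.Red3
import Pool.Agent.H34P.ParB

/-!
Lifting elements of the degree three group.
-/

namespace SelAvg.FF.T5

open WeierstrassCurve Matrix

variable {R S : Type*} [CommRing R] [CommRing S]

/-- For `k = (M, μ)` with `M 0 1 = M 0 2 = 0`: `blk3 A = M`, `low3 B = M / det M`,
`B 1 1 = μ / (M 0 0 * m ^ 2)` with `m` the lower `2 × 2` minor of `M`. -/
theorem exists_par_sn {f : Model R} (h : f.SN) {k : T3.G R} (h1 : k.e 0 1 = 0)
    (h2 : k.e 0 2 = 0) : ∃ g : G R, g.IsPar ∧ g.Ind k ∧ (g • f).SN := by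
  have hd : k.e.det = k.e 0 0 * (k.e 1 1 * k.e 2 2 - k.e 1 2 * k.e 2 1) := by
    rw [det_fin_three, h1, h2]; ring
  have hu : IsUnit k.e.det := by rw [← T3.G.det_val]; exact Units.isUnit _
  obtain ⟨a, ha0⟩ := isUnit_of_mul_isUnit_left (hd ▸ hu)
  obtain ⟨m, hm⟩ := isUnit_of_mul_isUnit_right (hd ▸ hu)
  rw [← ha0, ← hm] at hd
  set c : Rˣ := k.μ * (a * m ^ 2)⁻¹ with hc
  set s : R := (((m * c)⁻¹ : Rˣ) : R) with hs
  set t : R := (((a * m)⁻¹ : Rˣ) : R) with ht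
  have s1 : s * (m * c) = 1 := Units.inv_mul (m * c)
  have t1 : t * (a * m) = 1 := Units.inv_mul (a * m)
  have c1 : (c : R) * (a * m ^ 2) = k.μ :=
    Units.inv_mul_cancel_right (k.μ : R) (a * m ^ 2 : Rˣ)
  have hdet : s * k.e 2 2 * (s * k.e 1 1) - -(s * k.e 2 1) * -(s * k.e 1 2) = s ^ 2 * m := by
    rw [hm]; ring
  obtain ⟨g, hg, ha, he⟩ := exists_blk (N := k.e) (N' := t • k.e) 0 0
    (a := s * k.e 2 2) (b := -(s * k.e 2 1)) (c := -(s * k.e 1 2)) (d := s * k.e 1 1)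
    (a' := m * c ^ 2) (c' := c) 0 0 0 hu
    (by rw [hdet]; exact ((Units.isUnit _).pow 2).mul m.isUnit)
    (m.isUnit.mul (c.isUnit.pow 2)) c.isUnit
    (by rw [det_smul]; exact ((Units.isUnit _).pow _).mul hu)
  have e00 : g.e 0 0 = m * c ^ 2 := by rw [he]; rfl
  have e11 : g.e 1 1 = c := by rw [he]; rfl
  have d2 : det2 g.a = s ^ 2 * m := by rw [ha, det2_blkA, hdet]
  have b3 : blk3 g.a = k.e := by rw [ha, blk3_blkA]
  have l3 : low3 g.e = t • k.e := by rw [he, low3_blkB]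
  refine ⟨g, hg, ⟨?_, ?_⟩, hg.std' h.std, ?_, ?_, ?_, ?_⟩
  · rw [b3, l3, smul_smul, hd, mul_comm _ t, t1, one_smul]
  · rw [b3, d2, e00, e11, hd, ← c1]
    linear_combination (a * m * ((s * (m * c)) ^ 3 + (s * (m * c)) ^ 2 + s * (m * c) + 1) : R) * s1
  · rw [G.smul_def, lam_act hg h.std, d2, e00, h.lam]
    linear_combination (s * (m * c) + 1 : R) * s1
  · rw [G.smul_def, red3_Tm_act hg h.std, h.tm, b3, l3, Matrix.mul_one, ← transpose_mul, smul_mul,
      mul_adjugate, smul_smul, hd, t1, one_smul, transpose_one]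
  · rw [G.smul_def, red3_nv_act hg h.std, h.nv3, h.nv4, b3, e11, ha]
    funext j
    fin_cases j <;> simp [blkA, mulVec, dotProduct, Fin.sum_univ_three, h1, h2]
    · linear_combination s1 - (c * s : R) * hm
    · ring
  · rw [G.smul_def, red3_nv_act hg h.std, h.nv3, h.nv4, b3, e11, ha]
    funext j
    fin_cases j <;> simp [blkA, mulVec, dotProduct, Fin.sum_univ_three, h1, h2]
    · ring
    · linear_combination s1 - (c * s : R) * hm

/-- An element of the degree three group matching the marked points lifts. -/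
theorem exists_par_of_red {z z' : Obj R} (h : z.f.NStd) (h' : z'.f.NStd) {k : T3.G R}
    (hk : k • z'.red = z.red) {t : R} (hp : k.pt z.f.mk' = t • z'.f.mk') :
    ∃ g : G R, g.IsPar ∧ g.Ind k ∧ g • z' = z := by
  obtain ⟨g₀, y, hg₀, hy, e₀⟩ := exists_nf h
  obtain ⟨g₁, y', hg₁, hy', e₁⟩ := exists_nf h'
  obtain ⟨k₀, i₀⟩ := hg₀.exists_ind
  obtain ⟨k₁, i₁⟩ := hg₁.exists_ind
  have r₀ : k₀ • z.red = y := by rw [i₀.smul_obj hg₀ h.std, e₀, Obj.red_unred hy]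
  have r₁ : k₁ • z'.red = y' := by rw [i₁.smul_obj hg₁ h'.std, e₁, Obj.red_unred hy']
  have hk' : (k₀ * k * k₁⁻¹) • y' = y := by
    rw [← r₁, mul_smul, mul_smul, inv_smul_smul, hk, r₀]
  obtain ⟨t₀, p₀⟩ := i₀.pt_mk' hg₀ h.std
  obtain ⟨t₁, p₁⟩ := i₁.pt_mk' hg₁ h'.std
  rw [← Obj.smul_f, e₀, Obj.unred_f, Model.mk'_unred] at p₀
  rw [← Obj.smul_f, e₁, Obj.unred_f, Model.mk'_unred] at p₁
  have p₂ : k₁⁻¹.pt z'.f.mk' = ((t₁⁻¹ : Rˣ) : R) • (T3.Pt.std : T3.Pt R) := by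
    have := congrArg (fun Q => k₁⁻¹.pt (((t₁⁻¹ : Rˣ) : R) • Q)) p₁
    simp only [smul_smul, Units.inv_mul, one_smul] at this
    rw [← this]
    exact (T3.G.pt_sc _ _ _).trans (by rw [T3.G.inv_pt_pt])
  have p₃ : (k₀ * k * k₁⁻¹).e 0 = (t₀ * t * ((t₁⁻¹ : Rˣ) : R)) • (T3.Pt.std : T3.Pt R) := by
    rw [← T3.G.pt_std, T3.G.mul_pt, T3.G.mul_pt, p₀]
    have a1 : k.pt ((t₀ : R) • z.f.mk') = (t₀ : R) • k.pt z.f.mk' := T3.G.pt_sc _ _ _
    have a2 : k₁⁻¹.pt (((t₀ : R) * t) • z'.f.mk') = ((t₀ : R) * t) • k₁⁻¹.pt z'.f.mk' :=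
      T3.G.pt_sc _ _ _
    rw [a1, hp, smul_smul, a2, p₂, smul_smul]
  obtain ⟨g₂, hg₂, i₂, s₂⟩ := exists_par_sn (Model.unred_sn y'.f) (k := k₀ * k * k₁⁻¹)
    (by rw [p₃]; simp) (by rw [p₃]; simp)
  obtain ⟨g₃, hg₃, i₃, e₃⟩ := exists_unred s₂
  have i₄ : (g₃ * g₂).Ind (k₀ * k * k₁⁻¹) := by simpa using G.Ind.mul hg₃ hg₂ i₃ i₂
  have c₂ : (g₂ • Model.unred y'.f).cub = y.f := by
    have := i₂.smul hg₂ (Model.unred_std y'.f)
    rw [s₂.lam, Model.lam_unred, T3.Model.scale_one, T3.Model.scale_one, Model.cub_unred hy'] at this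
    rw [← this, ← hk', T3.Obj.smul_f]
  have e₄ : (g₃ * g₂) • Obj.unred y' = Obj.unred y := by
    refine Obj.eq_of_red ?_ ?_
    · rw [Obj.smul_f, Obj.unred_f, Obj.unred_f, mul_smul, e₃, c₂]
    · rw [← i₄.smul_obj (hg₃.mul hg₂) (Model.unred_std y'.f), Obj.red_unred hy', hk',
        Obj.red_unred hy]
  refine ⟨g₀⁻¹ * (g₃ * g₂) * g₁, (hg₀.inv.mul (hg₃.mul hg₂)).mul hg₁, ?_, ?_⟩
  · have := G.Ind.mul (hg₀.inv.mul (hg₃.mul hg₂)) hg₁
      (G.Ind.mul hg₀.inv (hg₃.mul hg₂) (i₀.inv hg₀) i₄) i₁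
    simpa [mul_assoc] using this
  · rw [mul_smul, e₁, mul_smul, e₄, ← e₀, inv_smul_smul]

lemma red4_blkA {A B : Matrix (Fin 5) (Fin 5) R} (h : Par A B) : A = blkA (blk3 A)
    ![A 3 0, A 3 1, A 3 2] ![A 4 0, A 4 1, A 4 2] (A 3 3) (A 3 4) (A 4 3) (A 4 4) := by
  ext i j
  fin_cases i <;> fin_cases j <;> first
    | rfl | exact h.a03 | exact h.a04 | exact h.a13 | exact h.a14 | exact h.a23 | exact h.a24

lemma red4_blkB {A B : Matrix (Fin 5) (Fin 5) R} (h : Par A B) : B = blkB (B 0 0) (B 1 0) (B 1 1)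
    ![B 2 0, B 3 0, B 4 0] ![B 2 1, B 3 1, B 4 1] (low3 B) := by
  ext i j
  fin_cases i <;> fin_cases j <;> first
    | rfl | exact h.b01 | exact h.b02 | exact h.b03 | exact h.b04 | exact h.b12 | exact h.b13
    | exact h.b14

lemma red4_sn {f : Model R} (h : f.SN) {g : G R} (hg : g.IsPar) (hk : g.Ind 1)
    (e : g • f = f) : g = 1 := by
  obtain ⟨u1, -, -, u4, -⟩ := hg.units
  have he : (1 : Matrix (Fin 3) (Fin 3) R) = (blk3 g.a).det • low3 g.e := hk.e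
  have hμ : det2 g.a ^ 2 * g.e 0 0 * g.e 1 1 = (blk3 g.a).det := by simpa using hk.μ
  have t := red3_Tm_act hg h.std
  have l := lam_act hg h.std
  have n3 := red3_nv_act hg h.std 3
  have n4 := red3_nv_act hg h.std 4
  rw [← G.smul_def, e] at t l n3 n4
  rw [h.tm, Matrix.mul_one, ← transpose_mul, eq_comm, transpose_eq_one] at t
  have b3 : blk3 g.a = 1 := by
    have : low3 g.e * (blk3 g.a).adjugate * blk3 g.a = blk3 g.a := by rw [t, Matrix.one_mul]
    rw [← this, Matrix.mul_assoc, adjugate_mul, Matrix.mul_smul, Matrix.mul_one, ← he]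
  rw [b3, det_one, one_smul] at he
  rw [b3, det_one] at hμ
  rw [h.lam, mul_one] at l
  rw [h.nv3, h.nv4, b3, one_mulVec] at n3 n4
  have x33 : g.e 1 1 * g.a 3 3 = 1 := by simpa using (congrFun n3 1).symm
  have x34 : g.e 1 1 * g.a 3 4 = 0 := by simpa using (congrFun n3 2).symm
  have x43 : g.e 1 1 * g.a 4 3 = 0 := by simpa using (congrFun n4 1).symm
  have x44 : g.e 1 1 * g.a 4 4 = 1 := by simpa using (congrFun n4 2).symm
  have a34 : g.a 3 4 = 0 := u4.mul_right_eq_zero.1 x34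
  have a43 : g.a 4 3 = 0 := u4.mul_right_eq_zero.1 x43
  have d2 : det2 g.a = g.a 3 3 * g.a 4 4 := by rw [det2, a34]; ring
  have a33 : g.a 3 3 = 1 := by
    have : det2 g.a * g.e 1 1 = 1 := by linear_combination hμ + det2 g.a * g.e 1 1 * l
    rw [d2] at this
    linear_combination this - g.a 3 3 * x44
  have e11 : g.e 1 1 = 1 := by rw [← x33, a33, mul_one]
  have a44 : g.a 4 4 = 1 := by rw [← x44, e11, one_mul]
  have e00 : g.e 0 0 = 1 := by rw [l, d2, a33, a44]; ring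
  have ha := red4_blkA hg
  have hb := red4_blkB hg
  rw [b3, a33, a34, a43, a44] at ha
  rw [← he, e00, e11] at hb
  generalize ![g.a 3 0, g.a 3 1, g.a 3 2] = p, ![g.a 4 0, g.a 4 1, g.a 4 2] = q at ha
  generalize ![g.e 2 0, g.e 3 0, g.e 4 0] = u, ![g.e 2 1, g.e 3 1, g.e 4 1] = w,
    g.e 1 0 = b at hb
  obtain ⟨⟨z1, z0, z2, z3, z4, z5, z6⟩, z7, z8, z9⟩ := red3_uni h p q u w b
  rw [← ha, ← hb, ← G.smul_def, e] at z0 z1 z2 z3 z4 z5 z6 z7 z8 z9
  have p0 : p = 0 := by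
    funext j; fin_cases j
    · exact (by linear_combination -z6 : p 0 = 0)
    · exact (by linear_combination z5 : p 1 = 0)
    · exact (by linear_combination z1 : p 2 = 0)
  subst p0
  simp only [Pi.zero_apply] at z2 z4
  have w0 : w = 0 := by
    funext j; fin_cases j
    · exact (by linear_combination -z2 : w 0 = 0)
    · exact (by linear_combination -z3 : w 1 = 0)
    · exact (by linear_combination -z4 : w 2 = 0)
  subst w0
  simp only [Pi.zero_apply] at z8 z9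
  have q0 : q = 0 := by
    funext j; fin_cases j
    · exact (by linear_combination -z9 : q 0 = 0)
    · exact (by linear_combination z8 : q 1 = 0)
    · exact (by linear_combination -z7 : q 2 = 0)
  subst q0
  obtain ⟨y1, y2, y3, y4⟩ := red3_last h u b
  rw [← ha, ← hb, ← G.smul_def, e] at y1 y2 y3 y4
  have u0 : u = 0 := by
    funext j; fin_cases j
    · exact (by linear_combination -y2 : u 0 = 0)
    · exact (by linear_combination -y3 : u 1 = 0)
    · exact (by linear_combination -y4 : u 2 = 0)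
  have b0 : b = 0 := by linear_combination -y1
  subst u0 b0
  refine G.ext (Units.ext (ha.trans ?_)) (Units.ext (hb.trans ?_))
  · ext i j; fin_cases i <;> fin_cases j <;> simp [blkA]
  · ext i j; fin_cases i <;> fin_cases j <;> simp [blkB]

/-- The lift is unique. -/
theorem eq_one_of_ind {f : Model R} (h : f.NStd) {g : G R} (hg : g.IsPar) (hk : g.Ind 1)
    (e : g • f = f) : g = 1 := by
  obtain ⟨g₀, hg₀, s⟩ := exists_sn h
  obtain ⟨k₀, i₀⟩ := hg₀.exists_ind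
  have i : (g₀ * g * g₀⁻¹).Ind 1 := by
    simpa using G.Ind.mul (hg₀.mul hg) hg₀.inv (G.Ind.mul hg₀ hg i₀ hk) (i₀.inv hg₀)
  have := red4_sn s ((hg₀.mul hg).mul hg₀.inv) i (by rw [mul_smul, mul_smul, inv_smul_smul, e])
  simpa using this

lemma exists_mover_pt {Q : Pt R} (hQ : ∃ i, IsUnit (Q i)) : ∃ g : G R, g.pt Pt.std = Q := by
  obtain ⟨i, hi⟩ := hQ
  obtain ⟨B, hB, e, -⟩ := parb_row hi 0
  exact ⟨⟨1, GeneralLinearGroup.mk'' B hB⟩, (G.pt_std _).trans e⟩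

end SelAvg.FF.T5
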