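import Pool.Agent.H34P.Red1

/-!
The element of the degree three group induced by a block triangular element.
-/

namespace SelAvg.FF.T5

open WeierstrassCurve Matrix

variable {R S : Type*} [CommRing R] [CommRing S]

lemma red2_blk3_mul {A B A' : Matrix (Fin 5) (Fin 5) R} (h : Par A B) :
    blk3 (A * A') = blk3 A * blk3 A' := by
  ext i j
  fin_cases i <;> fin_cases j <;>
    simp [blk3, mul_apply, Fin.sum_univ_five, Fin.sum_univ_three, h.a03, h.a04, h.a13, h.a14, h.a23,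
      h.a24]

lemma red2_det2_mul {A A' B' : Matrix (Fin 5) (Fin 5) R} (h : Par A' B') :
    det2 (A * A') = det2 A * det2 A' := by
  simp only [det2, mul_apply, Fin.sum_univ_five, h.a03, h.a04, h.a13, h.a14, h.a23, h.a24]
  ring

lemma red2_low3_mul {B A' B' : Matrix (Fin 5) (Fin 5) R} (h : Par A' B') :
    low3 (B * B') = low3 B * low3 B' := by
  ext i j
  fin_cases i <;> fin_cases j <;>
    simp [low3, mul_apply, Fin.sum_univ_five, Fin.sum_univ_three, h.b02, h.b03, h.b04, h.b12, h.b13,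
      h.b14]

lemma red2_key {A B : Matrix (Fin 5) (Fin 5) R} (h : Par A B) {f : Model R} (hf : f.Std) :
    (f.act A B).shS * wsh (parU A B f ^ 2 * (f.cub.sh (low3 B)).r)
      (parU A B f * (f.cub.sh (low3 B)).s) (parU A B f ^ 3 * (f.cub.sh (low3 B)).t) =
    f.sh A B * wsh (chi A B ^ 2 * f.shS.r) (chi A B * f.shS.s) (chi A B ^ 3 * f.shS.t) := by
  have key : ∀ {A B : Matrix (Fin 5) (Fin 5) (T3.Free R)} (_ : Par A B) {f : Model (T3.Free R)}
      (_ : f.Std), (f.act A B).shS * wsh (parU A B f ^ 2 * (f.cub.sh (low3 B)).r)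
        (parU A B f * (f.cub.sh (low3 B)).s) (parU A B f ^ 3 * (f.cub.sh (low3 B)).t) =
      f.sh A B * wsh (chi A B ^ 2 * f.shS.r) (chi A B * f.shS.s) (chi A B ^ 3 * f.shS.t) := by
    intro A B h f hf
    have e : f.shS = wsh f.shS.r f.shS.s f.shS.t := by ext1 <;> simp [wsh, Model.shS_u]
    refine vc_unique (W := wsc (chi A B) f.WS)
      (by simp [VariableChange.mul_def, Model.sh_u, Model.shS_u, wsh]) ?_
    rw [mul_smul, mul_smul, ← WS_act' h hf, ← Model.jac_std (h.std hf), ← T3.wsc_wsh, ← e,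
      ← Model.jac_std hf, ← Model.jac_act]
  have e := congrArg (fun C => C.map (T3.freeEv R)) (key (liftM_par h) (liftF_std hf))
  have hU : T3.freeEv R (parU (liftM A) (liftM B) (liftF f)) = parU A B f := by
    conv_rhs => rw [← liftM_map A, ← liftM_map B, ← liftF_map f]
    simp only [parU, map_mul, map_pow, det2_map, blk3_map, T3.Model.det_map', map_apply,
      Model.lam_map]
  have hS := Model.shS_map (T3.freeEv R) (liftF f)
  have hr := congrArg VariableChange.r hS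
  have hs := congrArg VariableChange.s hS
  have ht := congrArg VariableChange.t hS
  simp only [VariableChange.map_r, VariableChange.map_s, VariableChange.map_t, liftF_map]
    at hr hs ht
  simpa only [← Model.sh_map, ← Model.shS_map, SelAvg.Obj.vc_map_mul, T3.wsh_map, map_mul, map_pow,
    hU, ← hr, ← hs, ← ht, ← chi_map, ← T3.Model.sh_map_r, ← T3.Model.sh_map_s, ← T3.Model.sh_map_t,
    ← Model.cub_map, ← low3_map, Model.map_act, liftM_map, liftF_map] using e

namespace G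

/-- `k` is the element of the degree three group induced by the block triangular `g` -/
structure Ind (g : G R) (k : T3.G R) : Prop where
  e : k.e = (blk3 g.a).det • low3 g.e
  μ : k.μ * (det2 g.a ^ 2 * g.e 0 0 * g.e 1 1) = (blk3 g.a).det

lemma IsPar.exists_ind {g : G R} (hg : g.IsPar) : ∃ k, g.Ind k := by
  obtain ⟨⟨d, hd⟩, ⟨a, ha⟩, ⟨b, hb⟩, ⟨c, hc⟩, h5⟩ := hg.units
  have hM : IsUnit ((blk3 g.a).det • low3 g.e).det := by
    rw [det_smul, ← hd]; exact (d.isUnit.pow _).mul h5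
  refine ⟨⟨GeneralLinearGroup.mk'' _ hM, d * (a ^ 2 * b * c)⁻¹⟩, rfl, ?_⟩
  change ((d * (a ^ 2 * b * c)⁻¹ : Rˣ) : R) * _ = _
  rw [← hd, ← ha, ← hb, ← hc]
  exact Units.inv_mul_cancel_right (d : R) (a ^ 2 * b * c : Rˣ)

lemma Ind.unique {g : G R} (hg : g.IsPar) {k k' : T3.G R} (h : g.Ind k) (h' : g.Ind k') :
    k = k' := by
  obtain ⟨-, h2, h3, h4, -⟩ := hg.units
  exact T3.G.ext (Units.ext (h.e.trans h'.e.symm))
    (Units.ext ((((h2.pow 2).mul h3).mul h4).mul_right_cancel (h.μ.trans h'.μ.symm)))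

lemma Ind.one : (1 : G R).Ind 1 := by
  have h1 : blk3 (1 : Matrix (Fin 5) (Fin 5) R) = 1 := by
    ext i j; fin_cases i <;> fin_cases j <;> simp [blk3]
  have h2 : low3 (1 : Matrix (Fin 5) (Fin 5) R) = 1 := by
    ext i j; fin_cases i <;> fin_cases j <;> simp [low3]
  constructor
  · simp [G.a, G.e, T3.G.e, h1, h2]
  · simp [G.a, G.e, h1, det2]

lemma Ind.mul {g g' : G R} (hg : g.IsPar) (hg' : g'.IsPar) {k k' : T3.G R} (h : g.Ind k)
    (h' : g'.Ind k') : (g * g').Ind (k * k') := by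
  have ha : (g * g').a = g.a * g'.a := rfl
  have he : (g * g').e = g.e * g'.e := rfl
  have hk : (k * k').e = k.e * k'.e := rfl
  constructor
  · rw [ha, he, hk, h.e, h'.e, red2_blk3_mul hg, red2_low3_mul hg', Matrix.det_mul, smul_mul,
      Matrix.mul_smul, smul_smul]
  · have e0 : (g.e * g'.e) 0 0 = g.e 0 0 * g'.e 0 0 := by
      simp [mul_apply, Fin.sum_univ_five, hg.b01, hg.b02, hg.b03, hg.b04]
    have e1 : (g.e * g'.e) 1 1 = g.e 1 1 * g'.e 1 1 := by
      simp [mul_apply, Fin.sum_univ_five, hg'.b01, hg.b12, hg.b13, hg.b14]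
    rw [ha, he, e0, e1, red2_blk3_mul hg, red2_det2_mul hg', Matrix.det_mul, ← h.μ, ← h'.μ,
      T3.G.mul_μ, Units.val_mul]
    ring

lemma Ind.inv {g : G R} (hg : g.IsPar) {k : T3.G R} (h : g.Ind k) : g⁻¹.Ind k⁻¹ := by
  obtain ⟨k', h'⟩ := hg.inv.exists_ind
  have h1 := Ind.mul hg hg.inv h h'
  rw [mul_inv_cancel] at h1
  rw [inv_eq_of_mul_eq_one_right (Ind.unique IsPar.one h1 Ind.one)]
  exact h'

lemma Ind.scalar (t : Rˣ) : (G.scalar t).Ind (T3.G.scalar t) := by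
  have ha : (G.scalar t).a = (t : R) • 1 := scM_val' t
  have he : (G.scalar t).e = ((t⁻¹ ^ 2 : Rˣ) : R) • 1 := scM_val' _
  have h1 : blk3 ((t : R) • (1 : Matrix (Fin 5) (Fin 5) R)) = (t : R) • 1 := by
    ext i j; fin_cases i <;> fin_cases j <;> simp [blk3]
  have h2 : ∀ s : R, low3 (s • (1 : Matrix (Fin 5) (Fin 5) R)) = s • 1 := fun s => by
    ext i j; fin_cases i <;> fin_cases j <;> simp [low3]
  have h3 : (t : R) * ((t⁻¹ : Rˣ) : R) = 1 := t.mul_inv
  constructor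
  · rw [ha, he, h1, h2, smul_smul, det_smul, Matrix.det_one]
    refine (T3.G.scM_val' t).trans (congrArg (· • (1 : Matrix (Fin 3) (Fin 3) R)) ?_)
    rw [Units.val_pow_eq_pow_val, Fintype.card_fin]
    linear_combination (-(t : R) * (t * (t⁻¹ : Rˣ) + 1)) * h3
  · rw [ha, he, h1, det_smul, Matrix.det_one, T3.G.scalar_μ, Fintype.card_fin]
    simp only [det2, Matrix.smul_apply, one_apply_eq, smul_eq_mul, Units.val_pow_eq_pow_val,
      one_apply_ne (by decide : (3 : Fin 5) ≠ 4)]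
    linear_combination ((t : R) ^ 3 * ((t * (t⁻¹ : Rˣ)) ^ 3 + (t * (t⁻¹ : Rˣ)) ^ 2
      + t * (t⁻¹ : Rˣ) + 1)) * h3

lemma Ind.map {g : G R} {k : T3.G R} (h : g.Ind k) (φ : R →+* S) :
    (G.map φ g).Ind (T3.G.map φ k) := by
  constructor
  · rw [T3.G.map_e, map_a, map_e, h.e, blk3_map, low3_map, T3.Model.det_map']
    ext i j; simp
  · rw [map_a, map_e, blk3_map, det2_map, T3.Model.det_map', ← h.μ]
    simp

lemma Ind.smul {g : G R} (hg : g.IsPar) {f : Model R} (hf : f.Std) {k : T3.G R} (h : g.Ind k) :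
    k • f.cub.scale f.lam = (g • f).cub.scale (g • f).lam := by
  have e : (blk3 g.a).det • low3 g.e = ((blk3 g.a).det • 1) * low3 g.e := by simp
  have h3 : ((k.μ⁻¹ : Rˣ) : R) * k.μ = 1 := k.μ.inv_mul
  rw [T3.G.smul_def, smul_def, cub_act hg hf, lam_act hg hf, h.e, e, ← T3.Model.subst_subst,
    T3.Model.subst_smul_one, T3.Model.subst_scale, T3.Model.scale_scale, T3.Model.scale_scale,
    T3.Model.scale_scale]
  refine congrArg (fun u => (f.cub.subst (low3 g.e)).scale u) ?_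
  linear_combination (-((k.μ⁻¹ : Rˣ) : R) * (blk3 g.a).det ^ 2 * f.lam) * h.μ
    + (det2 g.a ^ 2 * g.e 0 0 * g.e 1 1 * (blk3 g.a).det ^ 2 * f.lam) * h3

/-- By `vc_unique` over `Free R` (`liftM`, `liftF`, `liftM_par`, `liftF_std`) and `WS_act'`. -/
lemma Ind.Gam {g : G R} (hg : g.IsPar) {f : Model R} (hf : f.Std) {k : T3.G R} (h : g.Ind k) :
    (g • f).shS * k.Gam (f.cub.scale f.lam) = g.Gam f * f.shS := by
  have e : (blk3 g.a).det • low3 g.e = diagonal (fun _ => (blk3 g.a).det) * low3 g.e := by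
    rw [← smul_one_eq_diagonal]; simp
  have hU : f.lam * (blk3 g.a).det ^ 3 = k.μ * parU g.a g.e f := by
    rw [parU]; linear_combination (-(blk3 g.a).det ^ 2 * f.lam) * h.μ
  have hd : k.μ * k.det⁻¹ = g.det⁻¹ := by
    rw [mul_inv_eq_iff_eq_mul, eq_inv_mul_iff_mul_eq]
    ext
    rw [Units.val_mul, det_val, T3.G.det_val, h.e, det_smul, Fintype.card_fin, hg.chi_eq]
    linear_combination ((blk3 g.a).det ^ 2 * (low3 g.e).det) * h.μ
  have s1 : (f.cub.scale f.lam).sh k.e = wsh (k.μ ^ 2 * (parU g.a g.e f ^ 2 * (f.cub.sh (low3 g.e)).r))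
      (k.μ * (parU g.a g.e f * (f.cub.sh (low3 g.e)).s))
      (k.μ ^ 3 * (parU g.a g.e f ^ 3 * (f.cub.sh (low3 g.e)).t)) := by
    rw [h.e, e, T3.Model.sh_scale, T3.Model.sh_mul, T3.Model.sh_diagonal, one_mul, det_diagonal,
      Finset.prod_const, Finset.card_univ, Fintype.card_fin]
    simp only [wsh, ← mul_assoc, ← mul_pow, hU]
  have s2 : ∀ r s t : R, wdiag k.μ * wsh (k.μ ^ 2 * r) (k.μ * s) (k.μ ^ 3 * t) =
      wsh r s t * wdiag k.μ := fun r s t => by
    have := SelAvg.G.wdiag_inv_mul_wsh r s t k.μ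
    rw [← mul_right_inj (wdiag k.μ⁻¹), ← mul_assoc, ← mul_assoc, this, wdiag_mul, mul_assoc,
      wdiag_mul, inv_mul_cancel]
    change 1 * _ = _ * 1
    rw [one_mul, mul_one]
  have e' : f.shS = wsh f.shS.r f.shS.s f.shS.t := by ext1 <;> simp [wsh, Model.shS_u]
  rw [T3.G.Gam, s1, s2, mul_assoc, wdiag_mul, hd, ← mul_assoc, smul_def, red2_key hg hf, G.Gam,
    mul_assoc, mul_assoc, ← det_val, ← SelAvg.G.wdiag_inv_mul_wsh, ← e']

lemma Ind.smul_obj {g : G R} (hg : g.IsPar) {z : Obj R} (hf : z.f.Std) {k : T3.G R}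
    (h : g.Ind k) : k • z.red = (g • z).red := by
  ext1
  · exact h.smul hg hf
  · rw [T3.Obj.smul_γ, Obj.red_f, Obj.red_γ, Obj.red_γ, Obj.smul_f, Obj.smul_γ,
      eq_inv_mul_iff_mul_eq, ← mul_assoc, h.Gam hg hf, mul_assoc, mul_inv_cancel_left]

lemma Ind.pt_tail {g : G R} (hg : g.IsPar) {k : T3.G R} (h : g.Ind k) (Q : Pt R) :
    k.pt Q.tail = (blk3 g.a).det • (g.pt Q).tail := by
  rw [T3.G.pt, h.e, vecMul_smul, pt, hg.tail_vecMul]

lemma Ind.pt_mk' {g : G R} (hg : g.IsPar) {f : Model R} (hf : f.Std) {k : T3.G R}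
    (h : g.Ind k) : ∃ t : Rˣ, k.pt (g • f).mk' = (t : R) • f.mk' := by
  obtain ⟨h1, h2, -, h4, h5⟩ := hg.units
  obtain ⟨t, ht⟩ := h1.mul ((((h1.mul h4).pow 2).mul h2).mul h5)
  exact ⟨t, by rw [T3.G.pt, h.e, vecMul_smul, smul_def, mk'_act_vecMul hg hf, smul_smul, ht]⟩

end G

end SelAvg.FF.T5
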