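import Pool.Agent.H34P.Red2

/-!
Normal forms in standard position.
-/

namespace SelAvg.FF.T5

open WeierstrassCurve Matrix

variable {R S : Type*} [CommRing R] [CommRing S]

/-- a block triangular matrix for the rows and columns -/
def blkA (N : Matrix (Fin 3) (Fin 3) R) (p q : Fin 3 → R) (a b c d : R) :
    Matrix (Fin 5) (Fin 5) R :=
  !![N 0 0, N 0 1, N 0 2, 0, 0; N 1 0, N 1 1, N 1 2, 0, 0; N 2 0, N 2 1, N 2 2, 0, 0;
    p 0, p 1, p 2, a, b; q 0, q 1, q 2, c, d]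

/-- a block triangular matrix for the variables -/
def blkB (a b c : R) (u w : Fin 3 → R) (N : Matrix (Fin 3) (Fin 3) R) :
    Matrix (Fin 5) (Fin 5) R :=
  !![a, 0, 0, 0, 0; b, c, 0, 0, 0; u 0, w 0, N 0 0, N 0 1, N 0 2; u 1, w 1, N 1 0, N 1 1, N 1 2;
    u 2, w 2, N 2 0, N 2 1, N 2 2]

lemma par_blk (N : Matrix (Fin 3) (Fin 3) R) (p q : Fin 3 → R) (a b c d a' b' c' : R)
    (u w : Fin 3 → R) (N' : Matrix (Fin 3) (Fin 3) R) :
    Par (blkA N p q a b c d) (blkB a' b' c' u w N') := by constructor <;> rfl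

lemma blk3_blkA (N : Matrix (Fin 3) (Fin 3) R) (p q : Fin 3 → R) (a b c d : R) :
    blk3 (blkA N p q a b c d) = N := by
  ext i j; fin_cases i <;> fin_cases j <;> rfl

lemma det2_blkA (N : Matrix (Fin 3) (Fin 3) R) (p q : Fin 3 → R) (a b c d : R) :
    det2 (blkA N p q a b c d) = a * d - b * c := rfl

lemma low3_blkB (a b c : R) (u w : Fin 3 → R) (N : Matrix (Fin 3) (Fin 3) R) :
    low3 (blkB a b c u w N) = N := by
  ext i j; fin_cases i <;> fin_cases j <;> rfl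

/-- a block triangular group element with given blocks -/
lemma exists_blk {N N' : Matrix (Fin 3) (Fin 3) R} (p q : Fin 3 → R) {a b c d a' c' : R} (b' : R)
    (u w : Fin 3 → R) (h1 : IsUnit N.det) (h2 : IsUnit (a * d - b * c)) (h3 : IsUnit a')
    (h4 : IsUnit c') (h5 : IsUnit N'.det) :
    ∃ g : G R, g.IsPar ∧ g.a = blkA N p q a b c d ∧ g.e = blkB a' b' c' u w N' := by
  have h := par_blk N p q a b c d a' b' c' u w N'
  have hA : IsUnit (blkA N p q a b c d).det := by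
    rw [h.det_fst, blk3_blkA, det2_blkA]; exact h1.mul h2
  have hB : IsUnit (blkB a' b' c' u w N').det := by
    rw [h.det_snd, low3_blkB]; exact (h3.mul h4).mul h5
  exact ⟨⟨GeneralLinearGroup.mk'' _ hA, GeneralLinearGroup.mk'' _ hB⟩, h, rfl, rfl⟩

lemma red3_Tm_act {A B : Matrix (Fin 5) (Fin 5) R} (h : Par A B) {f : Model R} (hf : f.Std) :
    (f.act A B).Tm = (blk3 A).adjugateᵀ * f.Tm * (low3 B)ᵀ := by
  have a := f.alt
  ext r s
  fin_cases r <;> fin_cases s <;>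
    simp [Model.Tm, Model.lin, Model.act_c_apply, Fin.sum_univ_five, mul_apply, Fin.sum_univ_three,
      adjugate_fin_three, blk3, low3, h.a03, h.a04, h.a13, h.a14, h.a23, h.a24, f.diag, a _ 0 1,
      a _ 0 2, a _ 1 2, hf.c001, hf.c002, hf.c012, hf.c101, hf.c102, hf.c112] <;> ring

lemma red3_nv_act {A B : Matrix (Fin 5) (Fin 5) R} (h : Par A B) {f : Model R} (hf : f.Std) (i : Fin 5) :
    (f.act A B).nv i = B 1 1 • (blk3 A *ᵥ (A i 3 • f.nv 3 + A i 4 • f.nv 4)) := by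
  have a := f.alt
  funext r
  fin_cases r <;>
    simp [Model.nv, Model.act_c_apply, Fin.sum_univ_five,
      blk3, h.a03, h.a04, h.a13, h.a14, h.a23, h.a24, h.b12, h.b13, h.b14, f.diag, a _ 0 1,
      a _ 0 2, a _ 1 2, hf.c001, hf.c002, hf.c003, hf.c004, hf.c012, hf.c013, hf.c014, hf.c023,
      hf.c024, hf.c101, hf.c102, hf.c112] <;> ring

/-- the entries fixed by the semi-normal form -/
lemma Model.SN.entries {f : Model R} (h : f.SN) :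
    (f.c 2 1 2 = 1 ∧ f.c 3 1 2 = 0 ∧ f.c 4 1 2 = 0) ∧
    (f.c 2 0 2 = 0 ∧ f.c 3 0 2 = -1 ∧ f.c 4 0 2 = 0) ∧
    (f.c 2 0 1 = 0 ∧ f.c 3 0 1 = 0 ∧ f.c 4 0 1 = 1) ∧
    (f.c 1 0 3 = 0 ∧ f.c 1 1 3 = 1 ∧ f.c 1 2 3 = 0) ∧
    (f.c 1 0 4 = 0 ∧ f.c 1 1 4 = 0 ∧ f.c 1 2 4 = 1) ∧ f.c 0 3 4 = 1 := by
  have t := fun r s => congrFun (congrFun h.tm r) s
  refine ⟨⟨t 0 0, t 0 1, t 0 2⟩, ⟨?_, ?_, ?_⟩, ⟨t 2 0, t 2 1, t 2 2⟩,
    ⟨congrFun h.nv3 0, congrFun h.nv3 1, congrFun h.nv3 2⟩,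
    ⟨congrFun h.nv4 0, congrFun h.nv4 1, congrFun h.nv4 2⟩, h.lam⟩
  · exact neg_eq_zero.1 (t 1 0)
  · exact neg_eq_iff_eq_neg.1 (t 1 1)
  · exact neg_eq_zero.1 (t 1 2)

/-- a model in semi-normal form with the zero pattern of `unred` is `unred` of its cubic -/
lemma Model.SN.eq_unred {f : Model R} (h : f.SN) (z1 : f.c 3 0 3 = 0) (z2 : f.c 2 1 3 = 0)
    (z3 : f.c 3 1 3 = 0) (z4 : f.c 4 1 3 = 0) (z5 : f.c 2 2 3 = 0) (z6 : f.c 3 2 3 = 0)
    (z7 : f.c 2 1 4 = 0) (z8 : f.c 2 2 4 = 0) (z9 : f.c 3 2 4 = 0) (y1 : f.c 1 3 4 = 0)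
    (y2 : f.c 2 3 4 = 0) (y3 : f.c 3 3 4 = 0) (y4 : f.c 4 3 4 = 0) : f = Model.unred f.cub := by
  obtain ⟨⟨e1, e2, e3⟩, ⟨e4, e5, e6⟩, ⟨e7, e8, e9⟩, ⟨n1, n2, n3⟩, ⟨n4, n5, n6⟩, hl⟩ := h.entries
  have s := h.std
  have a3 : f.alp 3 = ![0, 1, 0] := by rw [Model.alp, h.tm, h.nv3, vecMul_one]
  have a4 : f.alp 4 = ![0, 0, 1] := by rw [Model.alp, h.tm, h.nv4, vecMul_one]
  ext1
  funext k
  rw [← altM_eq (f.diag k) (f.alt k)]
  change altM _ = altM _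
  congr 1
  funext p
  fin_cases k <;> fin_cases p <;>
    simp [pI, pJ, Model.cub, ofTensor, Model.qm, h.tm, Model.lin, one_apply, *, s.c001,
      s.c002, s.c003, s.c004, s.c012, s.c013, s.c014, s.c023, s.c024, s.c101, s.c102, s.c112]

lemma red3_ind_one {g : G R} {p q u w : Fin 3 → R} {b : R} (ha : g.a = blkA 1 p q 1 0 0 1)
    (he : g.e = blkB 1 b 1 u w 1) : g.Ind 1 := by
  constructor
  · rw [ha, he, blk3_blkA, low3_blkB]; simp [T3.G.e]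
  · rw [ha, he, blk3_blkA, det2_blkA]; simp [blkB]

lemma red3_sn {g : G R} (hg : g.IsPar) {p q u w : Fin 3 → R} {b : R}
    (ha : g.a = blkA 1 p q 1 0 0 1) (he : g.e = blkB 1 b 1 u w 1) {f : Model R} (h : f.SN) :
    (g • f).SN ∧ (g • f).cub = f.cub := by
  refine ⟨⟨hg.std' h.std, ?_, ?_, ?_, ?_⟩, ?_⟩
  · rw [G.smul_def, lam_act hg h.std, h.lam, ha, he, det2_blkA]; simp [blkB]
  · rw [G.smul_def, red3_Tm_act hg h.std, h.tm, ha, he, blk3_blkA, low3_blkB]; simp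
  · rw [G.smul_def, red3_nv_act hg h.std, h.nv3, ha, he, blk3_blkA]; simp [blkA, blkB]
  · rw [G.smul_def, red3_nv_act hg h.std, h.nv4, ha, he, blk3_blkA]; simp [blkA, blkB]
  · rw [G.smul_def, cub_act hg h.std, ha, he, blk3_blkA, low3_blkB, det2_blkA]; simp [blkB]

/-- the entries after a unipotent element -/
lemma red3_uni {f : Model R} (h : f.SN) (p q u w : Fin 3 → R) (b : R) :
    let f' := f.act (blkA 1 p q 1 0 0 1) (blkB 1 b 1 u w 1)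
    (f'.c 3 0 3 = f.c 3 0 3 - p 2 ∧ f'.c 4 0 3 = f.c 4 0 3 + p 1 ∧
      f'.c 2 1 3 = f.c 2 1 3 + p 2 + w 0 ∧ f'.c 3 1 3 = f.c 3 1 3 + w 1 ∧
      f'.c 4 1 3 = f.c 4 1 3 - p 0 + w 2 ∧ f'.c 2 2 3 = f.c 2 2 3 - p 1 ∧
      f'.c 3 2 3 = f.c 3 2 3 + p 0) ∧
    (f'.c 2 1 4 = f.c 2 1 4 + q 2 ∧ f'.c 2 2 4 = f.c 2 2 4 - q 1 + w 0 ∧
      f'.c 3 2 4 = f.c 3 2 4 + q 0 + w 1) := by
  obtain ⟨⟨e1, e2, e3⟩, ⟨e4, e5, e6⟩, ⟨e7, e8, e9⟩, ⟨n1, n2, n3⟩, ⟨n4, n5, n6⟩, hl⟩ := h.entries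
  have s := h.std
  have a := f.alt
  refine ⟨⟨?_, ?_, ?_, ?_, ?_, ?_, ?_⟩, ?_, ?_, ?_⟩ <;>
    simp [Model.act_c_apply, Fin.sum_univ_five, blkA, blkB, one_apply, f.diag, a _ 0 1, a _ 0 2,
      a _ 1 2, e1, e2, e3, e4, e5, e6, e7, e8, e9, n1, n2, n3, n4, n5, n6, s.c001,
      s.c002, s.c003, s.c004, s.c012, s.c013, s.c014, s.c023, s.c024, s.c101, s.c102, s.c112] <;>
    ring

/-- the entries at `(3, 4)` after a change of `x₀` -/
lemma red3_last {f : Model R} (h : f.SN) (u : Fin 3 → R) (b : R) :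
    let f' := f.act (blkA 1 0 0 1 0 0 1) (blkB 1 b 1 u 0 1)
    f'.c 1 3 4 = f.c 1 3 4 + b ∧ f'.c 2 3 4 = f.c 2 3 4 + u 0 ∧ f'.c 3 3 4 = f.c 3 3 4 + u 1 ∧
      f'.c 4 3 4 = f.c 4 3 4 + u 2 := by
  have hl : f.c 0 3 4 = 1 := h.lam
  refine ⟨?_, ?_, ?_, ?_⟩ <;>
    simp [Model.act_c_apply, Fin.sum_univ_five, blkA, blkB, one_apply, hl, add_comm]

/-- Take for `blk3 A` the inverse transpose of the matrix with rows `u, nv 3, nv 4` (`u` a column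
of the adjugate of `Tm`), then `low3 B` and `B 0 0`. -/
theorem exists_sn {f : Model R} (h : f.NStd) : ∃ g : G R, g.IsPar ∧ (g • f).SN := by
  obtain ⟨i, hi⟩ := h.prim
  let N : Matrix (Fin 3) (Fin 3) R := of ![f.Tm.adjugate i, f.nv 3, f.nv 4]
  have hN : N.det = f.mk' i := by
    rw [Model.mk', Model.alp, Model.alp, ← mulVec_transpose, ← mulVec_transpose, para_cross,
      ← adjugate_transpose, vecMul_transpose]
    simp [N, det_fin_three, mulVec, dotProduct, Fin.sum_univ_three, crossProduct]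
    ring
  have hNt : IsUnit Nᵀ.det := by rwa [det_transpose, hN]
  have hA : IsUnit (Nᵀ⁻¹).det := isUnit_nonsing_inv_det _ hNt
  have hT : IsUnit ((Nᵀ⁻¹).adjugateᵀ * f.Tm).det := by
    rw [det_mul, det_transpose, det_adjugate]; exact (hA.pow _).mul h.tm
  obtain ⟨l, hl⟩ := h.lam
  obtain ⟨g, hg, ha, he⟩ := exists_blk (N := Nᵀ⁻¹) (N' := (((Nᵀ⁻¹).adjugateᵀ * f.Tm)⁻¹)ᵀ) 0 0
    (a := 1) (b := 0) (c := 0) (d := 1) (a' := ((l⁻¹ : Rˣ) : R)) (c' := 1) 0 0 0 hA (by simp)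
    (Units.isUnit _) isUnit_one (by rw [det_transpose]; exact isUnit_nonsing_inv_det _ hT)
  have col : ∀ j : Fin 3, Nᵀ⁻¹ *ᵥ N j = Pi.single j 1 := fun j => by
    have e : N j = Nᵀ *ᵥ Pi.single j 1 := by rw [mulVec_single_one]; rfl
    rw [e, mulVec_mulVec, nonsing_inv_mul _ hNt, one_mulVec]
  have c3 : Nᵀ⁻¹ *ᵥ f.nv 3 = Pi.single 1 1 := col 1
  have c4 : Nᵀ⁻¹ *ᵥ f.nv 4 = Pi.single 2 1 := col 2
  clear_value N
  refine ⟨g, hg, hg.std' h.std, ?_, ?_, ?_, ?_⟩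
  · rw [G.smul_def, lam_act hg h.std, ← hl, ha, he, det2_blkA]; simp [blkB]
  · rw [G.smul_def, red3_Tm_act hg h.std, ha, he, blk3_blkA, low3_blkB, transpose_transpose,
      mul_nonsing_inv _ hT]
  · rw [G.smul_def, red3_nv_act hg h.std, ha, he, blk3_blkA]
    simp [blkA, blkB, c3]
    funext j; fin_cases j <;> rfl
  · rw [G.smul_def, red3_nv_act hg h.std, ha, he, blk3_blkA]
    simp [blkA, blkB, c4]
    funext j; fin_cases j <;> rfl

/-- The unipotent part: the lower left block of `A`, the entries `B k 1` and then `B k 0`. -/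
theorem exists_unred {f : Model R} (h : f.SN) :
    ∃ g : G R, g.IsPar ∧ g.Ind 1 ∧ g • f = Model.unred f.cub := by
  obtain ⟨g, hg, ha, he⟩ := exists_blk (N := 1) (N' := 1)
    ![-f.c 3 2 3, f.c 2 2 3, f.c 3 0 3]
    ![-f.c 3 2 4 + f.c 3 1 3, f.c 2 2 4 - f.c 2 1 3 - f.c 3 0 3, -f.c 2 1 4]
    (a := 1) (b := 0) (c := 0) (d := 1) (a' := 1) (c' := 1) 0 0
    ![-f.c 2 1 3 - f.c 3 0 3, -f.c 3 1 3, -f.c 3 2 3 - f.c 4 1 3] (by simp) (by simp) isUnit_one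
    isUnit_one (by simp)
  obtain ⟨h1, c1⟩ := red3_sn hg ha he h
  obtain ⟨⟨z1, -, z2, z3, z4, z5, z6⟩, z7, z8, z9⟩ := red3_uni h _ _ _ _ _
  rw [← ha, ← he, ← G.smul_def] at z1 z2 z3 z4 z5 z6 z7 z8 z9
  simp only [Matrix.cons_val] at z1 z2 z3 z4 z5 z6 z7 z8 z9
  obtain ⟨g', hg', ha', he'⟩ := exists_blk (N := 1) (N' := 1) 0 0
    (a := 1) (b := 0) (c := 0) (d := 1) (a' := 1) (c' := 1) (-(g • f).c 1 3 4)
    ![-(g • f).c 2 3 4, -(g • f).c 3 3 4, -(g • f).c 4 3 4] 0 (by simp) (by simp) isUnit_one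
    isUnit_one (by simp)
  obtain ⟨h2, c2⟩ := red3_sn hg' ha' he' h1
  obtain ⟨⟨w1, -, w2, w3, w4, w5, w6⟩, w7, w8, w9⟩ := red3_uni h1 _ _ _ _ _
  rw [← ha', ← he', ← G.smul_def] at w1 w2 w3 w4 w5 w6 w7 w8 w9
  obtain ⟨y1, y2, y3, y4⟩ := red3_last h1 _ _
  rw [← ha', ← he', ← G.smul_def] at y1 y2 y3 y4
  simp only [Matrix.cons_val, Pi.zero_apply] at w1 w2 w3 w4 w5 w6 w7 w8 w9 y1 y2 y3 y4
  refine ⟨g' * g, hg'.mul hg, ?_, ?_⟩
  · simpa using G.Ind.mul hg' hg (red3_ind_one ha' he') (red3_ind_one ha he)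
  · rw [mul_smul, ← c1, ← c2]
    exact h2.eq_unred (by linear_combination w1 + z1) (by linear_combination w2 + z2)
      (by linear_combination w3 + z3) (by linear_combination w4 + z4)
      (by linear_combination w5 + z5) (by linear_combination w6 + z6)
      (by linear_combination w7 + z7) (by linear_combination w8 + z8)
      (by linear_combination w9 + z9) (by linear_combination y1) (by linear_combination y2)
      (by linear_combination y3) (by linear_combination y4)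

/-- the normal form of an object -/
theorem exists_nf {z : Obj R} (h : z.f.NStd) : ∃ (g : G R) (y : T3.Obj R), g.IsPar ∧ y.f.a = 0 ∧
    g • z = Obj.unred y := by
  obtain ⟨g, hg, h1⟩ := exists_sn h
  obtain ⟨g', hg', -, e⟩ := exists_unred h1
  have ef : ((g' * g) • z).f = Model.unred (g • z.f).cub := by rw [Obj.smul_f, mul_smul, e]
  have ey : ((g' * g) • z).red.f = (g • z.f).cub := by
    rw [Obj.red_f, ef, Model.cub_unred h1.cub_a, Model.lam_unred, T3.Model.scale_one]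
  have ha : ((g' * g) • z).red.f.a = 0 := by rw [ey]; exact h1.cub_a
  exact ⟨g' * g, ((g' * g) • z).red, hg'.mul hg, ha,
    Obj.eq_of_red (by rw [Obj.unred_f, ey, ef]) (Obj.red_unred ha).symm⟩

theorem exists_nf_obj {z : Obj R} (h : z.f.NStd) : ∃ (g : G R) (y : T3.Obj R), g.IsPar ∧
    y.f.a = 0 ∧ g • z = Obj.unred y := exists_nf h

end SelAvg.FF.T5
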