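import Pool.Agent.H34P.Glob1
import Pool.Agent.H34P.Loc
import Pool.Agent.H34P.Desc5

/-! The local weights, for degree five models. -/

namespace SelAvg.FF.T5

open WeierstrassCurve WithZero Filter Topology Matrix
open scoped Classical ENNReal

variable {F : Type} [Field F] [Cv F]

/-- the local representatives given by an integral object -/
lemma IntO.exists_locRep {D : Div F} {z : Obj F} {g : G (A F)} (h : IntO D z g) (v : Place F) :
    ∃ p : v.loc.LocRep5 (objAt v D z), p.g = G.map (pr v) g ∧ p.z.f = locM v g z.f := by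
  obtain ⟨z₀, h₀⟩ := intO_iff.1 h
  exact ⟨⟨G.map (pr v) g, z₀.map (prO v), glob1_loc h₀ v⟩, rfl,
    (T5.locM_eq (f₀ := z₀.f) (congrArg Obj.f h₀) v).symm⟩

lemma IntO.locM_eq {D : Div F} {z : Obj F} {g : G (A F)} (h : IntO D z g) {v : Place F}
    (p : v.loc.LocRep5 (objAt v D z)) (hp : p.g = G.map (pr v) g) : locM v g z.f = p.z.f := by
  refine Model.map_injective v.loc.incl_injective ?_
  rw [locM_map h.1, ← hp]
  exact congrArg Obj.f p.eq

/-- the local weight -/
noncomputable def phi (v : Place F) (g : G (A F)) (f : Model F) : ℝ :=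
  v.loc.phiL5 (resv v) (locM v g f)

/-- the product of the local weights -/
noncomputable def PhiS (S : Finset (Place F)) (g : G (A F)) (f : Model F) : ℝ := ∏ v ∈ S, phi v g f

/-- the discriminant is squarefree outside `S` -/
def SqM (S : Finset (Place F)) (g : G (A F)) (f : Model F) : Prop :=
  ∀ v ∉ S, ¬v.loc.unif ^ 2 ∣ (locM v g f).jac.Δ

lemma phi_nonneg (v : Place F) (g : G (A F)) (f : Model F) : 0 ≤ phi v g f := by
  exact LocalField.phiL_nonneg _ _

lemma phi_le_one {g : G (A F)} {f : Model F} (hf : IntM g f) (hΔ : f.jac.Δ ≠ 0) (v : Place F) :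
    phi v g f ≤ 1 := by
  exact LocalField.phiL_le_one (resv_isRed v) (locM_Delta hf hΔ v)

lemma phi_eq_one {v : Place F} {g : G (A F)} {f : Model F}
    (h : ¬v.loc.unif ^ 2 ∣ (locM v g f).jac.Δ) : phi v g f = 1 := by
  exact LocalField.phiL_eq_one (resv_isRed v) (prime_ringChar (F := F)) (by
    rw [← map_natCast (algebraMap F v.Compl), ringChar.Nat.cast_ringChar, map_zero]) h

lemma soluble_of_phi {v : Place F} {g : G (A F)} {f : Model F} (hf : IntM g f)
    (h : phi v g f ≠ 0) : (f.map (algebraMap F v.Compl)).Soluble := by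
  have h1 : 0 < nGood ((locM v g f).map (resv v)) := by
    refine Nat.pos_of_ne_zero fun h0 => h ?_
    unfold phi LocalField.phiL5
    rw [h0, Nat.cast_zero, zero_div]
  have h2 := LocalField.soluble_of_nGood_pos (resv_isRed v) _ h1
  rwa [locM_map hf, Model.soluble_smul] at h2

lemma PhiS_nonneg (S : Finset (Place F)) (g : G (A F)) (f : Model F) : 0 ≤ PhiS S g f := by
  exact Finset.prod_nonneg fun v _ => phi_nonneg v g f

lemma PhiS_le_one (S : Finset (Place F)) {g : G (A F)} {f : Model F} (hf : IntM g f)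
    (hΔ : f.jac.Δ ≠ 0) : PhiS S g f ≤ 1 := by
  exact Finset.prod_le_one (fun v _ => phi_nonneg v g f) fun v _ => phi_le_one hf hΔ v

lemma PhiS_K (S : Finset (Place F)) {k g : G (A F)} (hk : k ∈ KG F) {f : Model F} (hf : IntM g f)
    (hΔ : f.jac.Δ ≠ 0) : PhiS S (k * g) f = PhiS S g f := by
  refine Finset.prod_congr rfl fun v _ => ?_
  obtain ⟨h, e⟩ := locM_K hk hf v
  rw [phi, e, LocalField.phiL_smul _ _ (locM_Delta hf hΔ v), phi]

lemma PhiS_act (S : Finset (Place F)) (γ : G F) (g : G (A F)) (f : Model F) :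
    PhiS S (g * (gA F γ)⁻¹) (γ • f) = PhiS S g f := by
  simp only [PhiS, phi, locM_act]

lemma sqM_K (S : Finset (Place F)) {k g : G (A F)} (hk : k ∈ KG F) {f : Model F} (hf : IntM g f) :
    SqM S (k * g) f ↔ SqM S g f := by
  refine forall_congr' fun v => forall_congr' fun _ => ?_
  obtain ⟨h, e⟩ := locM_K hk hf v
  rw [e, G.jac_smul, variableChange_Δ, ← Units.val_pow_eq_pow_val, Units.dvd_mul_left]

lemma sqM_act (S : Finset (Place F)) (γ : G F) (g : G (A F)) (f : Model F) :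
    SqM S (g * (gA F γ)⁻¹) (γ • f) ↔ SqM S g f := by
  simp only [SqM, locM_act]

/-- the weight of an object on a torsor -/
noncomputable def PhiO (S : Finset (Place F)) (D : Div F) (z : Obj F) (x : XG F) : ℝ≥0∞ :=
  if z.f.jac.Δ ≠ 0 ∧ parN (pN x) ∧ IntO D z x.out then ENNReal.ofReal (PhiS S x.out z.f) else 0

/-- the weight used in the lower bound -/
noncomputable def PhiL (S : Finset (Place F)) (D : Div F) (z : Obj F) (x : XG F) : ℝ≥0∞ :=
  if SqM S x.out z.f then PhiO S D z x else 0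

lemma PhiO_mk (S : Finset (Place F)) (D : Div F) (z : Obj F) (g : G (A F)) :
    PhiO S D z (RC.mk (KG F) g) = if z.f.jac.Δ ≠ 0 ∧ parN (RC.mk (KN F 5) g.A) ∧ IntO D z g then
      ENNReal.ofReal (PhiS S g z.f) else 0 := by
  obtain ⟨k, hk, e⟩ := RC.out_mk (K := KG F) g
  rw [PhiO, pN_mk, e, intO_K hk]
  split_ifs with h
  · rw [PhiS_K S hk h.2.2.1 h.1]
  · rfl

lemma PhiL_mk (S : Finset (Place F)) (D : Div F) (z : Obj F) (g : G (A F)) :
    PhiL S D z (RC.mk (KG F) g) = if SqM S g z.f then PhiO S D z (RC.mk (KG F) g) else 0 := by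
  obtain ⟨k, hk, e⟩ := RC.out_mk (K := KG F) g
  rw [PhiL, e]
  by_cases hf : IntM g z.f
  · rw [sqM_K S hk hf]
  · rw [PhiO_mk, if_neg (fun h : _ ∧ _ ∧ IntO D z g => hf h.2.2.1), ite_self, ite_self]

lemma PhiO_act (S : Finset (Place F)) (D : Div F) (γ : G F) (z : Obj F) (x : XG F) :
    PhiO S D (actO F γ z) (actG F γ x) = PhiO S D z x := by
  obtain ⟨g, rfl⟩ := x.mk_surj
  have h1 : parN (RC.mk (KN F 5) (g * (gA F γ)⁻¹).A) ↔ parN (RC.mk (KN F 5) g.A) := by
    rw [← pN_mk, ← actG_mk, pN_act, parN_act, pN_mk]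
  have h2 : (γ • z.f).jac.Δ ≠ 0 ↔ z.f.jac.Δ ≠ 0 := by
    rw [G.jac_smul, variableChange_Δ, ← Units.val_pow_eq_pow_val, Ne, Units.mul_right_eq_zero]
  rw [actG_mk, PhiO_mk, PhiO_mk, actO_apply, intO_act, Obj.smul_f, PhiS_act, h1]
  simp only [h2]

lemma PhiL_act (S : Finset (Place F)) (D : Div F) (γ : G F) (z : Obj F) (x : XG F) :
    PhiL S D (actO F γ z) (actG F γ x) = PhiL S D z x := by
  obtain ⟨g, rfl⟩ := x.mk_surj
  have h := PhiO_act S D γ z (RC.mk (KG F) g)
  rw [actG_mk] at h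
  rw [actG_mk, PhiL_mk, PhiL_mk, h, actO_apply, Obj.smul_f, sqM_act]

/-- the twist of a torsor by a scalar idele -/
noncomputable def twG (E : Div F) (g : G (A F)) : XG F := RC.mk (KG F) (G.scalar (piD E) * g)

omit [Cv F] in
lemma pN_twG (E : Div F) (g : G (A F)) : pN (twG E g) = twN 5 E (RC.mk (KN F 5) g.A) := by
  rw [twG, pN_mk, twN_mk]
  rfl

omit [Cv F] in
lemma twG_injective (g : G (A F)) : Function.Injective fun E : Div F => twG E g := by
  intro E E' h
  have h1 := congrArg (fun x => detN (pN x)) h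
  simp only [pN_twG, detN_twN, add_right_inj] at h1
  ext v
  have h2 := DFunLike.congr_fun h1 v
  simp only [Finsupp.smul_apply, nsmul_eq_mul] at h2
  omega

/-- scalars act trivially on objects (`G.scalar_smul`, `G.Gam_scalar`) -/
lemma PhiO_twG (S : Finset (Place F)) (D : Div F) (z : Obj F) (E : Div F) (g : G (A F)) :
    PhiO S D z (twG E g) = if z.f.jac.Δ ≠ 0 ∧ parN (pN (twG E g)) ∧ IntO D z g then
      ENNReal.ofReal (PhiS S g z.f) else 0 := by
  have h1 : IntO D z (G.scalar (piD E) * g) ↔ IntO D z g := by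
    rw [intO_iff, intO_iff, mul_smul, Obj.scalar_smul]
  have h2 : PhiS S (G.scalar (piD E) * g) z.f = PhiS S g z.f := by
    simp only [PhiS, phi, locM, mul_smul, G.scalar_smul]
  rw [twG, PhiO_mk, pN_mk, h1, h2]

omit [Cv F] in
lemma selo_mk_scalar (t : (A F)ˣ) (g : G (A F)) :
    RC.mk (KG F) (G.scalar t * g) = RC.mk (KG F) (G.scalar (piD (idiv t)) * g) := by
  obtain ⟨e, he⟩ := (idiv_eq_zero_iff (piD (idiv t) * t⁻¹)).1 (by
    rw [idiv_mul, idiv_piD, idiv_inv, add_neg_cancel])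
  refine RC.mk_eq.2 ⟨G.scalar (piD (idiv t) * t⁻¹), ⟨G.scalar e, ?_⟩, ?_⟩
  · rw [← he]
    exact G.map_scalar _ e
  · rw [← mul_assoc, ← G.scalar_mul, inv_mul_cancel_right]

/-- The function `E ↦ τ (twG E g)` is a Bruhat function for `actD` (the scalar `u` sends
`twG E g` to `twG (E - dv u) g`); `exists_parN`, `kap_eq`. -/
theorem tsum_twG {τ : XG F → ℝ≥0∞} (hτ : IsBru ((actG F).comp (scal F)) τ) (g : G (A F)) :
    ∑' E : Div F, (if parN (pN (twG E g)) then τ (twG E g) else 0) = kap F := by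
  have hβ : IsBru (actD F) fun E => τ (twG E g) := fun E => by
    rw [← hτ (twG E g), ← (Equiv.inv Fˣ).tsum_eq]
    refine tsum_congr fun u => congrArg τ ?_
    have e : G.scalar (piD E) * g * (gA F (scal F u))⁻¹ = G.scalar (piD E * uA u⁻¹) * g := by
      rw [← map_inv, ← map_inv, G.scalar_mul, mul_assoc, mul_assoc, G.scalar_comm (uA u⁻¹)]
      exact congrArg (fun x => G.scalar (piD E) * (g * x)) (G.map_scalar (toA F) u⁻¹)
    rw [MonoidHom.comp_apply, twG, twG, actG_mk, e, selo_mk_scalar (piD E * uA u⁻¹), idiv_mul,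
      idiv_piD, idiv_uA]
    rfl
  obtain ⟨j, hj, h⟩ := exists_parN (by norm_num : 0 < 5) (RC.mk (KN F 5) g.A)
  simp only [pN_twG, h]
  exact kap_eq hβ hj

end SelAvg.FF.T5
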