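import Mathlib

/-! A smooth point over an extension gives a point over a separably closed field. -/

namespace H5T

open MvPolynomial TrivSqZeroExt

universe u

lemma sepg_infinite (L : Type u) [Field L] [IsSepClosed L] : Infinite L := by
  by_contra h
  rw [not_infinite_iff_finite] at h
  let := Fintype.ofFinite L
  obtain ⟨x, hx⟩ := IsSepClosed.exists_root_C_mul_X_pow_add_C_mul_X_add_C (n := Fintype.card L)
    (1 : L) (-1) 1 (FiniteField.cast_card_eq_zero L) Fintype.one_lt_card (by simp)
  simp [FiniteField.pow_card] at hx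

theorem sepg_algHom (L S : Type u) [Field L] [IsSepClosed L] [CommRing S] [Algebra L S]
    [h : Algebra.IsStandardSmooth L S] [Nontrivial S] : Nonempty (S →ₐ[L] L) := by
  obtain ⟨ι, σ, _, _, ⟨P⟩⟩ := h.out
  have := P.isStandardSmoothOfRelativeDimension rfl
  obtain ⟨g, hg⟩ :=
    Algebra.IsStandardSmoothOfRelativeDimension.exists_etale_mvPolynomial P.dimension L S
  generalize P.dimension = n at g hg
  let : Algebra (MvPolynomial (Fin n) L) S := g.toRingHom.toAlgebra
  have : Algebra.Etale (MvPolynomial (Fin n) L) S := hg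
  have ho : IsOpen (Set.range (PrimeSpectrum.comap (algebraMap (MvPolynomial (Fin n) L) S))) :=
    PrimeSpectrum.isOpenMap_comap_of_hasGoingDown_of_finitePresentation.isOpen_range
  obtain ⟨p⟩ : Nonempty (PrimeSpectrum S) := inferInstance
  obtain ⟨_, ⟨b, rfl⟩, hb, hb'⟩ :=
    PrimeSpectrum.isTopologicalBasis_basic_opens.exists_subset_of_mem_open
      (Set.mem_range_self p) ho
  have hb0 : b ≠ 0 := fun e => hb (by rw [e]; exact Ideal.zero_mem _)
  have := sepg_infinite L
  obtain ⟨c, hc⟩ : ∃ c, eval c b ≠ 0 := by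
    by_contra hc
    exact hb0 (MvPolynomial.funext fun c => by simpa using not_exists.1 hc c)
  obtain ⟨q, hq⟩ := hb' (a := ⟨RingHom.ker (eval c), RingHom.ker_isPrime _⟩) hc
  have hq' : ∀ x, eval c x = 0 → g x ∈ q.asIdeal := fun x hx => by
    have : x ∈ (PrimeSpectrum.comap (algebraMap (MvPolynomial (Fin n) L) S) q).asIdeal := by
      rw [hq]; exact hx
    exact this
  let : Algebra (MvPolynomial (Fin n) L) L := (eval c).toAlgebra
  have : IsScalarTower (MvPolynomial (Fin n) L) L (S ⧸ q.asIdeal) :=
    IsScalarTower.of_algebraMap_eq fun x => by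
      change Ideal.Quotient.mk _ (g x) = Ideal.Quotient.mk _ (algebraMap L S (eval c x))
      rw [Ideal.Quotient.eq, ← g.commutes, ← map_sub]
      exact hq' _ (by simp)
  have : Algebra.FormallyUnramified L (S ⧸ q.asIdeal) :=
    .of_restrictScalars (MvPolynomial (Fin n) L) L _
  have := Algebra.FormallyEtale.of_formallyUnramified_of_field L (S ⧸ q.asIdeal)
  obtain ⟨r⟩ : Nonempty (PrimeSpectrum (S ⧸ q.asIdeal)) := inferInstance
  exact ⟨((Pi.evalAlgHom L _ r).comp
    (Algebra.FormallyEtale.equivPiOfIsSepClosed L (S ⧸ q.asIdeal)).toAlgHom).comp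
      (Ideal.Quotient.mkₐ L _)⟩

variable {L K : Type u} [Field L] [Field K] [Algebra L K] {ι σ : Type} [Fintype ι] [Fintype σ]
  [DecidableEq ι]

theorem sepg_minor [IsSepClosed L] (v : ι → MvPolynomial σ L) (g : MvPolynomial σ L) (a : ι → σ)
    (x : σ → K) (hv : ∀ j, aeval x (v j) = 0) (hg : aeval x g ≠ 0)
    (hJ : (Matrix.of fun i j => aeval x (pderiv (a i) (v j))).det ≠ 0) :
    ∃ y : σ → L, (∀ j, eval y (v j) = 0) ∧ eval y g ≠ 0 := by
  have ha : Function.Injective a := fun i j e => by
    by_contra hij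
    exact hJ (Matrix.det_zero_of_row_eq hij (by ext k; simp [e]))
  let I : Ideal (MvPolynomial σ L) := Ideal.span (Set.range v)
  let P := Algebra.PreSubmersivePresentation.naive (v := v) a ha
    (Function.surjInv Ideal.Quotient.mk_surjective) (Function.surjInv_eq _)
  let r : MvPolynomial σ L ⧸ I := Ideal.Quotient.mk I g * P.jacobian
  let S := Localization.Away r
  have hr : IsUnit (algebraMap _ S r) := IsLocalization.Away.algebraMap_isUnit r
  have hr' := hr
  rw [map_mul, IsUnit.mul_iff] at hr'
  let Q : Algebra.SubmersivePresentation L S (Unit ⊕ σ) (Unit ⊕ ι) :=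
    { __ := (Algebra.PreSubmersivePresentation.localizationAway S r).comp P
      jacobian_isUnit := by
        rw [Algebra.PreSubmersivePresentation.comp_jacobian_eq_jacobian_smul_jacobian,
          Algebra.PreSubmersivePresentation.localizationAway_jacobian, Algebra.smul_def]
        exact hr'.2.mul hr }
  have := Q.isStandardSmooth
  let φ : (MvPolynomial σ L ⧸ I) →ₐ[L] K := Ideal.Quotient.liftₐ I (aeval x) fun p hp => by
    have : I ≤ RingHom.ker (aeval x : MvPolynomial σ L →ₐ[L] K) :=
      Ideal.span_le.2 (by rintro _ ⟨j, rfl⟩; exact hv j)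
    exact this hp
  have hφ : φ r ≠ 0 := by
    rw [map_mul]
    refine mul_ne_zero hg fun h0 => hJ ?_
    rw [P.jacobian_eq_jacobiMatrix_det] at h0
    change aeval x P.jacobiMatrix.det = 0 at h0
    rw [← h0, AlgHom.map_det]
    congr 1
    ext i j
    simp [P]
  have : Nontrivial S :=
    (IsLocalization.Away.lift r (g := φ.toRingHom) (Ne.isUnit hφ) : S →+* K).domain_nontrivial
  obtain ⟨ψ⟩ := sepg_algHom L S
  let χ : MvPolynomial σ L →ₐ[L] L :=
    (ψ.comp (IsScalarTower.toAlgHom L _ S)).comp (Ideal.Quotient.mkₐ L I)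
  have hχ : ∀ p, eval (fun i => χ (X i)) p = χ p := fun p => by
    have : χ = aeval fun i => χ (X i) := algHom_ext fun i => by simp
    conv_rhs => rw [this]
    rfl
  refine ⟨fun i => χ (X i), fun j => ?_, ?_⟩
  · rw [hχ]
    have : Ideal.Quotient.mkₐ L I (v j) = 0 :=
      Ideal.Quotient.eq_zero_iff_mem.2 (Ideal.subset_span ⟨j, rfl⟩)
    simp only [χ, AlgHom.comp_apply, this, map_zero]
  · rw [hχ]
    exact (hr'.1.map ψ).ne_zero

omit [Fintype ι] [DecidableEq ι] in
lemma sepg_dual (x w : σ → K) (p : MvPolynomial σ L) :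
    aeval (fun i => (inl (x i) + inr (w i) : DualNumber K)) p =
      inl (aeval x p) + inr (∑ i, aeval x (pderiv i p) * w i) := by
  classical
  induction p using MvPolynomial.induction_on with
  | C a => ext <;> simp [TrivSqZeroExt.algebraMap_eq_inl']
  | add p q hp hq => rw [map_add, hp, hq]; ext <;> simp [add_mul, Finset.sum_add_distrib]
  | mul_X p i hp =>
    rw [map_mul, hp, aeval_X]
    ext
    · simp
    · simp [pderiv_X, Pi.single_apply, add_mul, Finset.sum_add_distrib, mul_assoc, apply_ite]
      rw [← Finset.mul_sum, mul_comm]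

/-- A solution `x` over an extension field such that the tangent space meets the image of the
matrix `N` (with as many rows as there are equations) in zero gives a solution over `L`. -/
theorem sepg_point [IsSepClosed L] (v : ι → MvPolynomial σ L) (g : MvPolynomial σ L)
    (x : σ → K) (hv : ∀ j, aeval x (v j) = 0) (hg : aeval x g ≠ 0) (N : Matrix ι σ K)
    (hN : ∀ u : ι → K,
      (∀ j, aeval (fun i => (inl (x i) + inr (Matrix.vecMul u N i) : DualNumber K)) (v j) = 0) →
        u = 0) :
    ∃ y : σ → L, (∀ j, eval y (v j) = 0) ∧ eval y g ≠ 0 := by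
  classical
  let J : Matrix σ ι K := Matrix.of fun i j => aeval x (pderiv i (v j))
  have h1 : (N * J).det ≠ 0 := fun h0 => by
    obtain ⟨u, hu, e⟩ := Matrix.exists_vecMul_eq_zero_iff.2 h0
    refine hu (hN u fun j => ?_)
    rw [sepg_dual, hv]
    rw [← Matrix.vecMul_vecMul] at e
    ext
    · simp
    · have := congrFun e j
      simpa [Matrix.vecMul, dotProduct, J, mul_comm] using this
  by_contra h
  apply h1
  have h2 : ∀ a : ι → σ, (J.submatrix a id).det = 0 := fun a => by
    by_contra h0
    exact h (sepg_minor v g a x hv hg h0)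
  have h3 : (N * J) = fun i => ∑ k, N i k • J k := by
    ext i j; simp [Matrix.mul_apply]
  have h4 := Matrix.detRowAlternating.toMultilinearMap.map_sum (fun i k => N i k • J k)
  change Matrix.det (fun i => ∑ k, N i k • J k) = _ at h4
  rw [h3, h4]
  refine Finset.sum_eq_zero fun a _ => ?_
  rw [MultilinearMap.map_smul_univ]
  exact smul_eq_zero_of_right _ (h2 a)

end H5T
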