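import Pool.Agent.H34P.Mod
import Pool.Agent.H34P.SepG

/-! A smooth point over an extension gives a point over a separably closed field. -/

namespace SelAvg.FF.T5

open WeierstrassCurve Matrix TrivSqZeroExt

section Ring

variable {R : Type*} [CommRing R]

/-- three Pfaffians suffice where the entry `(3, 4)` is a unit -/
lemma sepa_three {M : Matrix (Fin 5) (Fin 5) R} (hd : ∀ i, M i i = 0) (ha : ∀ i j, M j i = -M i j)
    (hu : IsUnit (M 3 4)) (h2 : pf M 0 1 3 4 = 0) (h1 : pf M 0 2 3 4 = 0)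
    (h0 : pf M 1 2 3 4 = 0) : Rk2 M := by
  refine (rk2_iff hd ha).2 ⟨hu.mul_right_eq_zero.1 ?_, hu.mul_right_eq_zero.1 ?_, h2, h1, h0⟩
  · simp only [pf] at *
    linear_combination M 2 3 * h2 - M 1 3 * h1 + M 0 3 * h0
  · simp only [pf] at *
    linear_combination M 2 4 * h2 - M 1 4 * h1 + M 0 4 * h0

/-- a common zero of the upper left block is a singular point of the cubic -/
lemma sepa_sing (f : Model R) {u : T3.Pt R} (h : f.Tm *ᵥ u = 0) :
    f.cub.F u = 0 ∧ f.cub.Fx u = 0 ∧ f.cub.Fy u = 0 ∧ f.cub.Fz u = 0 := by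
  have h0 := congrFun h 0
  have h1 := congrFun h 1
  have h2 := congrFun h 2
  simp only [mulVec, dotProduct, Fin.sum_univ_three, Pi.zero_apply] at h0 h1 h2
  have a : ∀ i, f.alp i 0 * u 0 + f.alp i 1 * u 1 + f.alp i 2 * u 2 = 0 := fun i => by
    simp only [Model.alp, vecMul, dotProduct, Fin.sum_univ_three]
    linear_combination f.nv i 0 * h0 + f.nv i 1 * h1 + f.nv i 2 * h2
  have q : ∀ i s, f.qm i s 0 * u 0 + f.qm i s 1 * u 1 + f.qm i s 2 * u 2 = 0 := fun i s => by
    simp only [Model.qm, of_apply]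
    linear_combination f.lin 0 i s * h0 + f.lin 1 i s * h1 + f.lin 2 i s * h2
  have key : ∀ r, f.cub.pol u r = 0 := fun r => by
    simp only [Model.cub, ofTensor, T3.Model.pol, T3.Model.Fx, T3.Model.Fy, T3.Model.Fz]
    linear_combination (norm := (simp only [Fin.sum_univ_three]; ring1))
      (∑ s, ∑ t, f.qm 4 s t * (r s * u t + u s * r t)) * a 3 -
      (∑ s, ∑ t, f.qm 3 s t * (r s * u t + u s * r t)) * a 4 +
      (∑ s, f.alp 3 s * r s) * (u 0 * q 4 0 + u 1 * q 4 1 + u 2 * q 4 2) -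
      (∑ s, f.alp 4 s * r s) * (u 0 * q 3 0 + u 1 * q 3 1 + u 2 * q 3 2)
  refine ⟨?_, by simpa [T3.Model.pol] using key ![1, 0, 0],
    by simpa [T3.Model.pol] using key ![0, 1, 0], by simpa [T3.Model.pol] using key ![0, 0, 1]⟩
  simp only [Model.cub, ofTensor, T3.Model.F]
  linear_combination (norm := (simp only [Fin.sum_univ_three]; ring1))
    (∑ s, ∑ t, f.qm 4 s t * (u s * u t)) * a 3 - (∑ s, ∑ t, f.qm 3 s t * (u s * u t)) * a 4

end Ring

lemma det_Tm_ne_zero {L : Type*} [Field L] {f : Model L} (h : f.cub.jac.Δ ≠ 0) : f.Tm.det ≠ 0 := by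
  intro h0
  obtain ⟨u, hu, e⟩ := exists_mulVec_eq_zero_iff.2 h0
  obtain ⟨h1, h2, h3, h4⟩ := sepa_sing f e
  have := T3.Model.smooth_of_on h (Q := u) ⟨hu, h1⟩
  simp [T3.Model.Smooth, h2, h3, h4] at this

lemma Model.GoodStd.det_Tm {L : Type*} [Field L] {f : Model L} (h : f.GoodStd) :
    f.Tm.det ≠ 0 := by
  intro h0
  have e : f.Tm *ᵥ f.mk' = f.Tm.det • crossProduct (f.nv 3) (f.nv 4) := by
    funext r
    fin_cases r <;> simp [Model.mk', Model.alp, crossProduct, mulVec, vecMul, dotProduct,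
      Fin.sum_univ_three, det_fin_three] <;> ring
  rw [h0, zero_smul] at e
  obtain ⟨-, h2, h3, h4⟩ := sepa_sing f e
  have := h.good.smooth
  simp [T3.Model.Smooth, h2, h3, h4] at this

universe u

variable {L K : Type u} [Field L] [Field K] [Algebra L K]

lemma sepa_aux [IsSepClosed L] (f : Model L) {A B : Matrix (Fin 5) (Fin 5) K} (hA : A.det ≠ 0)
    (hs : ((f.map (algebraMap L K)).act A B).Std) (hl : ((f.map (algebraMap L K)).act A B).lam ≠ 0)
    (hT : ((f.map (algebraMap L K)).act A B).Tm.det ≠ 0)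
    (h34 : (f.map (algebraMap L K)).ev (B 0) 3 4 ≠ 0) : f.Soluble := by
  let P : Matrix (Fin 5) (Fin 5) (MvPolynomial (Fin 5) L) :=
    (f.map (algebraMap L _)).ev MvPolynomial.X
  have hP : ∀ {T : Type u} [CommRing T] [Algebra L T] (x : Fin 5 → T),
      P.map (MvPolynomial.aeval x : _ →ₐ[L] T) = (f.map (algebraMap L T)).ev x := fun x => by
    ext i j
    simp [P, Model.ev_apply]
  have hpf : ∀ {T : Type u} [CommRing T] [Algebra L T] (x : Fin 5 → T) (i j k l : Fin 5),
      MvPolynomial.aeval x (pf P i j k l) = pf ((f.map (algebraMap L T)).ev x) i j k l :=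
    fun x i j k l => by rw [← hP]; simp [pf]
  obtain ⟨s, hsd⟩ : ∃ s, s = (f.map (algebraMap L K)).act A B := ⟨_, rfl⟩
  rw [← hsd] at hs hl hT
  have hR : Rk2 ((f.map (algebraMap L K)).ev (B 0)) := by
    have h1 : Rk2 (s.c 0) := (rk2_iff (s.diag 0) (s.alt 0)).2 (by
      simp [pf, hs.c001, hs.c002, hs.c003, hs.c004, hs.c012, hs.c013, hs.c014])
    have h2 := h1.conj A⁻¹
    have hu := isUnit_iff_ne_zero.2 hA
    rwa [hsd, Model.act_c, ← Matrix.mul_assoc, ← Matrix.mul_assoc, nonsing_inv_mul _ hu,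
      Matrix.one_mul, Matrix.mul_assoc, ← transpose_mul, nonsing_inv_mul _ hu, transpose_one,
      Matrix.mul_one] at h2
  obtain ⟨y, hy, hy'⟩ := H5T.sepg_point (K := K) ![pf P 0 1 3 4, pf P 0 2 3 4, pf P 1 2 3 4]
    (P 3 4) (B 0) (fun j => by fin_cases j <;> exact (hpf _ _ _ _ _).trans (hR _ _ _ _))
    (by rwa [← hP] at h34) (of ![B 2, B 3, B 4]) (by
      intro u hu
      let ι := algebraMap K (DualNumber K)
      let w : Pt (DualNumber K) := ![1, 0, inr (u 0), inr (u 1), inr (u 2)]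
      have e : (fun i => (inl (B 0 i) + inr ((u ᵥ* of ![B 2, B 3, B 4]) i) : DualNumber K)) =
          w ᵥ* B.map ι := by
        funext i
        ext <;> simp [w, ι, vecMul, dotProduct, Fin.sum_univ_five, Fin.sum_univ_three,
          algebraMap_eq_inl]
      rw [e] at hu
      have h1 : Rk2 ((f.map (algebraMap L (DualNumber K))).ev (w ᵥ* B.map ι)) := by
        refine sepa_three (Model.ev_diag _ _) (Model.ev_alt _ _) ?_
          ((hpf _ _ _ _ _).symm.trans (hu 0)) ((hpf _ _ _ _ _).symm.trans (hu 1))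
          ((hpf _ _ _ _ _).symm.trans (hu 2))
        rw [isUnit_iff_isUnit_fst, isUnit_iff_ne_zero, ← e]
        simpa [Model.ev_apply, fst_sum, algebraMap_eq_inl'] using h34
      have h2 : Rk2 ((s.map ι).ev w) := by
        rw [hsd, Model.map_act, Model.ev_act, Model.map_map, ← IsScalarTower.algebraMap_eq]
        exact h1.conj _
      have k0 := congrArg snd (h2 1 2 3 4)
      have k1 := congrArg snd (h2 0 2 3 4)
      have k2 := congrArg snd (h2 0 1 3 4)
      simp [pf, Model.ev_apply, Fin.sum_univ_five, w, ι, hs.c001, hs.c002, hs.c003, hs.c004,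
        hs.c012, hs.c013, hs.c014, hs.c023, hs.c024, algebraMap_eq_inl] at k0 k1 k2
      refine eq_zero_of_mulVec_eq_zero hT ?_
      funext r
      refine mul_left_cancel₀ (show s.c 0 3 4 ≠ 0 from hl) ?_
      fin_cases r <;> simp only [Model.Tm, Model.lin, mulVec, dotProduct, Fin.sum_univ_three] <;>
        simp [-mul_eq_zero]
      · linear_combination k0
      · linear_combination -k1
      · linear_combination k2)
  have hm : f.map (algebraMap L L) = f := rfl
  have h3 : f.ev y 3 4 ≠ 0 := by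
    have := congrFun (congrFun (hP y) 3) 4
    rw [hm] at this
    rwa [← this]
  refine ⟨y, fun h0 => h3 (by simp [h0, Model.ev_apply]), sepa_three (f.ev_diag _) (f.ev_alt _)
    h3.isUnit ((hpf _ _ _ _ _).symm.trans (hy 0)) ((hpf _ _ _ _ _).symm.trans (hy 1))
    ((hpf _ _ _ _ _).symm.trans (hy 2))⟩

/-- A model which over an extension field is moved to standard position with a smooth standard
point has a point over the separably closed ground field. -/
theorem soluble_of_std [IsSepClosed L] (f : Model L) {A B : Matrix (Fin 5) (Fin 5) K}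
    (hA : A.det ≠ 0) (hs : ((f.map (algebraMap L K)).act A B).Std)
    (hl : ((f.map (algebraMap L K)).act A B).lam ≠ 0)
    (hT : ((f.map (algebraMap L K)).act A B).Tm.det ≠ 0) : f.Soluble := by
  obtain ⟨i, j, hij⟩ : ∃ i j, (f.map (algebraMap L K)).ev (B 0) i j ≠ 0 := by
    by_contra h
    have h0 : (f.map (algebraMap L K)).ev (B 0) = 0 := by
      ext i j
      by_contra h1
      exact h ⟨i, j, h1⟩
    exact hl (by simp [Model.lam, Model.act_c, h0])
  have hne : i ≠ j := fun e => hij (by rw [e, Model.ev_diag])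
  obtain ⟨σ, h3, h4⟩ : ∃ σ : Equiv.Perm (Fin 5), σ 3 = i ∧ σ 4 = j := by
    refine ⟨(Equiv.swap 4 (Equiv.swap 3 i j)).trans (Equiv.swap 3 i), ?_, by simp⟩
    have h1 : (3 : Fin 5) ≠ Equiv.swap 3 i j := fun e => hne (by
      simpa using congrArg (Equiv.swap 3 i) e)
    simp [Equiv.swap_apply_of_ne_of_ne (by decide : (3 : Fin 5) ≠ 4) h1]
  let M : Matrix (Fin 5) (Fin 5) L := σ.permMatrix L
  have hM : M.map (algebraMap L K) = σ.permMatrix K := by
    ext a b; simp [M, Equiv.Perm.permMatrix, PEquiv.toMatrix_apply, apply_ite]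
  have e : ((f.act M 1).map (algebraMap L K)).act (A * σ⁻¹.permMatrix K) B =
      (f.map (algebraMap L K)).act A B := by
    rw [Model.map_act, Model.act_act, hM, Matrix.mul_assoc, ← permMatrix_mul]
    simp
  obtain ⟨Q, hQ, hQ'⟩ := sepa_aux (K := K) (f.act M 1) (A := A * σ⁻¹.permMatrix K) (B := B)
    (by rw [det_mul, det_permutation]
        exact mul_ne_zero hA (by rcases Int.units_eq_one_or σ⁻¹.sign with h | h <;> simp [h]))
    (e ▸ hs) (e ▸ hl) (e ▸ hT) (by
      rw [Model.map_act, Model.ev_act, hM, transpose_permMatrix, PEquiv.toMatrix_toPEquiv_mul,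
        PEquiv.mul_toMatrix_toPEquiv]
      simpa [h3, h4, Equiv.Perm.inv_def] using hij)
  refine ⟨Q, hQ, ?_⟩
  have h2 := hQ'.conj (σ⁻¹.permMatrix L)
  rw [Model.ev_act, ← Matrix.mul_assoc, ← Matrix.mul_assoc, Matrix.mul_assoc _ Mᵀ, ← transpose_mul,
    ← permMatrix_mul] at h2
  simpa using h2

theorem soluble_of_good [IsSepClosed L] (f : Model L) {Q : Pt K}
    (h : (f.map (algebraMap L K)).Good Q) : f.Soluble := by
  obtain ⟨g, -, h⟩ := h
  exact soluble_of_std f (A := g.a) (B := g.e) g.A.det_ne_zero h.std h.lam h.det_Tm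

theorem soluble_of_std_Δ [IsSepClosed L] {f : Model L} (hΔ : f.jac.Δ ≠ 0)
    {A B : Matrix (Fin 5) (Fin 5) K} (hA : A.det ≠ 0) (hB : B.det ≠ 0)
    (hs : ((f.map (algebraMap L K)).act A B).Std) : f.Soluble := by
  have h1 : ((f.map (algebraMap L K)).act A B).jac.Δ ≠ 0 := by
    rw [Model.Δ_act, Model.jac_map, map_Δ]
    exact mul_ne_zero (pow_ne_zero _ (mul_ne_zero (pow_ne_zero _ hA) hB))
      ((_root_.map_ne_zero _).2 hΔ)
  rw [Model.Δ_std hs] at h1
  exact soluble_of_std f hA hs (fun e => h1 (by simp [e]))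
    (det_Tm_ne_zero (right_ne_zero_of_mul h1))

end SelAvg.FF.T5
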