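import Pool.Agent.H5T.Tail3B
import Pool.Agent.H5T.DescG
import Pool.Agent.H34P.LangW5

/-! Block TAIL5: Weierstrass equations with a point of order five. -/

namespace SelAvg.FF

open WeierstrassCurve
open scoped Classical

section Ring

variable {R S : Type} [CommRing R] [CommRing S]

/-- the normal form of a curve on which the origin has order five -/
def tate5 (a b : R) : WeierstrassCurve R := ⟨a - b, -(a * b), -(a ^ 2 * b), 0, 0⟩

/-- a shift of the curve is in normal form -/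
def Tor5 (W : WeierstrassCurve R) : Prop := ∃ a b r s t : R, wsh r s t • W = tate5 a b

lemma tate5_map (φ : R →+* S) (a b : R) : (tate5 a b).map φ = tate5 (φ a) (φ b) := by
  ext <;> simp [tate5]

lemma tate5_Δ (a b : R) : (tate5 a b).Δ = (a * b) ^ 5 * (b ^ 2 - 11 * (a * b) - a ^ 2) := by
  simp only [tate5, Δ, b₂, b₄, b₆, b₈]; ring

lemma tate5_c₄ (a b : R) : (tate5 a b).c₄ = (b ^ 2 - 11 * (a * b) - a ^ 2) ^ 2 +
    10 * (b ^ 2 - 11 * (a * b) - a ^ 2) * (a * b) + 5 * (a * b) ^ 2 := by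
  simp only [tate5, c₄, b₂, b₄]; ring

lemma Tor5.map {W : WeierstrassCurve R} (h : Tor5 W) (φ : R →+* S) : Tor5 (W.map φ) := by
  obtain ⟨a, b, r, s, t, h⟩ := h
  refine ⟨φ a, φ b, φ r, φ s, φ t, ?_⟩
  rw [← tate5_map, ← h, ← map_variableChange]
  simp [wsh, VariableChange.map]

lemma tor5_smul_of (C : VariableChange R) (W : WeierstrassCurve R) (h : Tor5 W) :
    Tor5 (C • W) := by
  obtain ⟨a, b, r, s, t, h⟩ := h
  have h1 : (wsh r s t * C⁻¹) • (C • W) = wsh r s t • W := by rw [mul_smul, inv_smul_smul]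
  obtain ⟨u, hu⟩ : ∃ u : Rˣ, u = (wsh r s t * C⁻¹).u := ⟨_, rfl⟩
  refine ⟨u * a, u * b, (wsh r s t * C⁻¹).r, (wsh r s t * C⁻¹).s, (wsh r s t * C⁻¹).t, ?_⟩
  rw [vcint_wsh_smul h1, ← wsc_unit, h, ← hu]
  ext <;> simp only [wsc, tate5] <;> ring

lemma tor5_smul (C : VariableChange R) (W : WeierstrassCurve R) : Tor5 (C • W) ↔ Tor5 W := by
  refine ⟨fun h => ?_, tor5_smul_of C W⟩
  have := tor5_smul_of C⁻¹ _ h
  rwa [inv_smul_smul] at this

lemma wsh_c₄ (r s t : R) (W : WeierstrassCurve R) : (wsh r s t • W).c₄ = W.c₄ := by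
  rw [variableChange_c₄]; simp [wsh]

lemma wsh_Δ (r s t : R) (W : WeierstrassCurve R) : (wsh r s t • W).Δ = W.Δ := by
  rw [variableChange_Δ]; simp [wsh]

end Ring

section Field

variable {K : Type} [Field K]

lemma psi5_zero {V : WeierstrassCurve K} (h4 : V.a₄ = 0) (h6 : V.a₆ = 0) :
    (V.preΨ' 5).eval 0 = V.a₃ ^ 6 * (V.a₁ * V.a₂ * V.a₃ - V.a₃ ^ 2 - V.a₂ ^ 3) := by
  rw [H5T.w5_five]
  simp only [preΨ₄, Ψ₃, Ψ₂Sq, Polynomial.eval_add, Polynomial.eval_sub, Polynomial.eval_mul,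
    Polynomial.eval_pow, Polynomial.eval_X, Polynomial.eval_C, Polynomial.eval_ofNat, b₂, b₄, b₆,
    b₈, h4, h6]
  ring

lemma origin_pt {W V : WeierstrassCurve K} {r s t : K} (h : V = wsh r s t • W) (h6 : V.a₆ = 0)
    (h3 : V.a₃ ≠ 0) : ∃ P : W.toAffine.Point, toRaw P = some (r, t) ∧
      (5 • P = 0 ↔ (V.preΨ' 5).eval 0 = 0) := by
  have k : V.toAffine.Nonsingular 0 0 := Affine.nonsingular_zero.2 ⟨h6, Or.inl h3⟩
  refine ⟨vcPt _ h (.some 0 0 k), ?_, ?_⟩
  · rw [toRaw_vcPt]
    simp [toRaw, vcRaw, wsh]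
  · rw [← H5T.tor5_root k, ← map_nsmul, EmbeddingLike.map_eq_zero_iff]

/-- a point of order five -/
theorem tor5_of_point {W : WeierstrassCurve K} {P : W.toAffine.Point} (h0 : P ≠ 0)
    (h5 : 5 • P = 0) : Tor5 W := by
  rcases P with _ | ⟨x, y, hP⟩
  · exact absurd rfl h0
  have hy : y ≠ W.toAffine.negY x y := by
    intro hy
    have h2 := Affine.Point.add_self_of_Y_eq (h₁ := hP) hy
    apply h0
    have e : Affine.Point.some x y hP = 5 • Affine.Point.some x y hP -
      2 • (Affine.Point.some x y hP + Affine.Point.some x y hP) := by abel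
    rw [e, h5, h2, smul_zero, sub_zero]
  have he := (Affine.equation_iff _ _).1 hP.1
  have hs := Affine.slope_of_Y_ne (W := W.toAffine) (rfl : x = x) hy
  rw [eq_div_iff (sub_ne_zero.2 hy)] at hs
  generalize W.toAffine.slope x x y y = s at hs
  have hy' := sub_ne_zero.2 hy
  simp only [Affine.negY] at hs he hy'
  obtain ⟨V, hV⟩ : ∃ V, V = wsh x s y • W := ⟨_, rfl⟩
  have h3 : V.a₃ ≠ 0 := by
    simp only [hV, wsh, variableChange_a₃, inv_one, Units.val_one, one_pow, one_mul]
    exact fun e => hy' (by linear_combination e)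
  have h4 : V.a₄ = 0 := by
    simp only [hV, wsh, variableChange_a₄, inv_one, Units.val_one, one_pow, one_mul]
    linear_combination -hs
  have h6 : V.a₆ = 0 := by
    simp only [hV, wsh, variableChange_a₆, inv_one, Units.val_one, one_pow, one_mul]
    linear_combination -he
  obtain ⟨P, e1, e2⟩ := origin_pt hV h6 h3
  obtain rfl : P = .some x y hP := toRaw_injective e1
  have e3 := e2.1 h5
  rw [psi5_zero h4 h6, mul_eq_zero, or_iff_right (pow_ne_zero _ h3)] at e3
  have h2 : V.a₂ ≠ 0 := fun e => h3 (pow_eq_zero_iff two_ne_zero |>.1 (by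
    rw [e] at e3; linear_combination -e3))
  refine ⟨V.a₃ / V.a₂, -V.a₂ ^ 2 / V.a₃, x, s, y, hV ▸ ?_⟩
  ext <;> simp only [tate5, h4, h6]
  · field_simp
    linear_combination e3
  · field_simp
  · field_simp

theorem point_of_tate5 {W : WeierstrassCurve K} {a b r s t : K} (h : wsh r s t • W = tate5 a b)
    (hab : a * b ≠ 0) : ∃ P : W.toAffine.Point, toRaw P = some (r, t) ∧ 5 • P = 0 := by
  obtain ⟨P, e1, e2⟩ := origin_pt h.symm rfl (neg_ne_zero.2 (mul_ne_zero
    (pow_ne_zero 2 (left_ne_zero_of_mul hab)) (right_ne_zero_of_mul hab)))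
  refine ⟨P, e1, e2.2 ?_⟩
  rw [psi5_zero rfl rfl]
  simp only [tate5]
  ring

end Field

/-- the normal form is integral -/
theorem tor5_int {R K : Type} [CommRing R] [IsDomain R] [Field K] [Algebra R K]
    [IsFractionRing R K] [IsIntegrallyClosed R] {W : WeierstrassCurve R}
    (hu : IsUnit (5 : R) ∨ ((5 : R) = 0 ∧ IsUnit W.c₄)) (h : Tor5 (W.map (algebraMap R K))) :
    Tor5 W := by
  obtain ⟨a, b, r, s, t, h⟩ := h
  have h4 := congrArg c₄ h
  have hD := congrArg Δ h
  rw [wsh_c₄, map_c₄, tate5_c₄] at h4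
  rw [wsh_Δ, map_Δ, tate5_Δ] at hD
  obtain ⟨w, hw⟩ : ∃ w, w = b ^ 2 - 11 * (a * b) - a ^ 2 := ⟨_, rfl⟩
  rw [← hw] at h4 hD
  obtain ⟨m, hm⟩ : ∃ m, algebraMap R K m = a * b := by
    generalize a * b = m at h4 hD
    rcases hu with hu | ⟨h5, hu⟩
    · obtain ⟨u, hu⟩ := hu.exists_left_inv
      have hu' : algebraMap R K u * 5 = 1 := by
        rw [← map_ofNat (algebraMap R K) 5, ← map_mul, hu, map_one]
      refine IsIntegrallyClosed.isIntegral_iff.1 ⟨Polynomial.X ^ 12 +
        (Polynomial.C (-(u * W.c₄)) * Polynomial.X ^ 10 +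
        Polynomial.C (2 * W.Δ) * Polynomial.X ^ 6 + Polynomial.C (u * W.Δ ^ 2)), ?_, ?_⟩
      · monicity!
      · simp only [Polynomial.eval₂_add, Polynomial.eval₂_mul, Polynomial.eval₂_pow,
          Polynomial.eval₂_X, Polynomial.eval₂_C]
        simp only [map_mul, map_neg, map_pow, map_ofNat, h4, hD]
        linear_combination (-(m ^ 12) - 2 * m ^ 11 * w) * hu'
    · obtain ⟨u, hu⟩ := hu.exists_left_inv
      have hu' : algebraMap R K u * algebraMap R K W.c₄ = 1 := by rw [← map_mul, hu, map_one]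
      have h5' : (5 : K) = 0 := by rw [← map_ofNat (algebraMap R K) 5, h5, map_zero]
      refine IsIntegrallyClosed.isIntegral_iff.1 ⟨Polynomial.X ^ 10 +
        Polynomial.C (-(u * W.Δ ^ 2)), Polynomial.monic_X_pow_add_C _ (by norm_num), ?_⟩
      simp only [Polynomial.eval₂_add, Polynomial.eval₂_pow, Polynomial.eval₂_X,
        Polynomial.eval₂_C]
      rw [h4] at hu'
      simp only [map_mul, map_neg, map_pow, hD]
      linear_combination (-(m ^ 10)) * hu' +
        algebraMap R K u * m ^ 10 * (2 * w * m + m ^ 2) * h5'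
  obtain ⟨w₀, hw₀⟩ : ∃ w₀, algebraMap R K w₀ = w := by
    refine vcint_quad (a := 10 * m) (b := 5 * m ^ 2 - W.c₄) ?_
    simp only [map_mul, map_sub, map_pow, map_ofNat, hm, h4]
    ring
  obtain ⟨a₀, rfl⟩ : ∃ a₀, algebraMap R K a₀ = a := by
    refine vcint_quart (a := w₀ + 11 * m) (b := 0) (c := -m ^ 2) ?_
    simp only [map_mul, map_add, map_neg, map_pow, map_ofNat, map_zero, hm, hw₀, hw]
    ring
  obtain ⟨b₀, rfl⟩ : ∃ b₀, algebraMap R K b₀ = b := by
    refine vcint_quart (a := -(w₀ + 11 * m)) (b := 0) (c := -m ^ 2) ?_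
    simp only [map_mul, map_add, map_neg, map_pow, map_ofNat, map_zero, hm, hw₀, hw]
    ring
  rw [← tate5_map] at h
  obtain ⟨C, -, h1⟩ := vc_integral 1 (by simp [wsh]) h
  rw [← tor5_smul C, h1]
  exact ⟨a₀, b₀, 0, 0, 0, one_smul _ _⟩

section Finite

variable {κ : Type} [Field κ] [Fintype κ]

omit [Fintype κ] in
/-- the curves with a marked point of order five -/
noncomputable def t5w (p : κ × κ × κ × κ × κ) : WeierstrassCurve κ :=
  (wsh p.2.2.1 p.2.2.2.1 p.2.2.2.2)⁻¹ • tate5 p.1 p.2.1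

omit [Fintype κ] in
lemma t5w_neg (a b r s t : κ) :
    t5w (-a, -b, r, s - (a - b), t + a ^ 2 * b) = t5w (a, b, r, s, t) := by
  have h1 : wsh r (s - (a - b)) (t + a ^ 2 * b) = wsh 0 (-(a - b)) (a ^ 2 * b) * wsh r s t := by
    rw [wsh_mul]
    congr 1 <;> ring
  have h2 : tate5 (-a) (-b) = wsh 0 (-(a - b)) (a ^ 2 * b) • tate5 a b := by
    ext <;> simp [wsh, tate5, variableChange_def] <;> ring
  simp only [t5w]
  rw [h1, h2, mul_inv_rev, mul_smul, inv_smul_smul]

theorem card_tor5_le : 2 * (Finset.univ.filter fun W : WeierstrassCurve κ => Tor5 W).card ≤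
    Fintype.card κ ^ 5 + 2 * Fintype.card κ ^ 3 := by
  set S : Finset (κ × κ × κ × κ × κ) := Finset.univ.filter fun p => ¬(p.1 = 0 ∧ p.2.1 = 0) with hS
  have h1 : (Finset.univ.filter fun W : WeierstrassCurve κ => Tor5 W) ⊆ S.image t5w ∪
      Finset.univ.image fun p : κ × κ × κ => t5w (0, 0, p) := by
    intro W hW
    obtain ⟨a, b, r, s, t, h⟩ := (Finset.mem_filter.1 hW).2
    have e : t5w (a, b, r, s, t) = W := by
      simp only [t5w]
      rw [inv_smul_eq_iff, h]
    by_cases h : a = 0 ∧ b = 0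
    · rw [h.1, h.2] at e
      exact Finset.mem_union_right _ (Finset.mem_image.2 ⟨(r, s, t), Finset.mem_univ _, e⟩)
    · exact Finset.mem_union_left _ (Finset.mem_image.2
        ⟨_, Finset.mem_filter.2 ⟨Finset.mem_univ _, h⟩, e⟩)
  have h2 : 2 * (S.image t5w).card ≤ S.card := by
    refine Finset.mul_card_image_le_card S 2 fun W hW => ?_
    obtain ⟨⟨a, b, r, s, t⟩, hp, rfl⟩ := Finset.mem_image.1 hW
    have hp' : ¬(a = 0 ∧ b = 0) := (Finset.mem_filter.1 hp).2
    refine Finset.one_lt_card.2 ⟨_, Finset.mem_filter.2 ⟨hp, rfl⟩,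
      (-a, -b, r, s - (a - b), t + a ^ 2 * b),
      Finset.mem_filter.2 ⟨Finset.mem_filter.2 ⟨Finset.mem_univ _, ?_⟩, t5w_neg a b r s t⟩, ?_⟩
    · simpa using hp'
    · intro e
      simp only [Prod.mk.injEq] at e
      have e1 : b = a := by linear_combination -e.2.2.2.1
      have e2 : a = 0 := pow_eq_zero_iff three_ne_zero |>.1 (by
        have e3 := e.2.2.2.2
        rw [e1] at e3
        linear_combination -e3)
      exact hp' ⟨e2, e1.trans e2⟩
  have h3 : S.card ≤ Fintype.card κ ^ 5 := by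
    refine (Finset.card_le_univ _).trans (le_of_eq ?_)
    simp only [Fintype.card_prod]
    ring
  have h4 : (Finset.univ.image fun p : κ × κ × κ => t5w (0, 0, p)).card ≤ Fintype.card κ ^ 3 := by
    refine Finset.card_image_le.trans (le_of_eq ?_)
    simp only [Finset.card_univ, Fintype.card_prod]
    ring
  have h5 := (Finset.card_le_card h1).trans (Finset.card_union_le _ _)
  omega

lemma t5_pairs : (Fintype.card κ - 1) * (Fintype.card κ - 3) ≤
    (Finset.univ.filter fun p : κ × κ => (tate5 p.1 p.2).Δ ≠ 0).card := by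
  have h := Finset.mul_card_image_le_card_of_maps_to (f := Prod.fst)
    (s := Finset.univ.filter fun p : κ × κ => (tate5 p.1 p.2).Δ ≠ 0 ∧ p.1 ≠ 0)
    (t := Finset.univ.erase 0) (fun p hp => Finset.mem_erase.2
      ⟨(Finset.mem_filter.1 hp).2.2, Finset.mem_univ _⟩) (Fintype.card κ - 3) fun a ha => ?_
  · rw [Finset.card_erase_of_mem (Finset.mem_univ _), Finset.card_univ, mul_comm] at h
    exact h.trans (Finset.card_le_card fun p hp =>
      Finset.mem_filter.2 ⟨Finset.mem_univ _, (Finset.mem_filter.1 hp).2.1⟩)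
  have ha0 := (Finset.mem_erase.1 ha).1
  obtain ⟨P, hP⟩ : ∃ P : Polynomial κ, P = Polynomial.X ^ 3 +
    (Polynomial.C (-(11 * a)) * Polynomial.X ^ 2 + Polynomial.C (-a ^ 2) * Polynomial.X) := ⟨_, rfl⟩
  have hm : P.Monic := by rw [hP]; monicity!
  have hd : P.roots.toFinset.card ≤ 3 := (Multiset.toFinset_card_le _).trans
    ((Polynomial.card_roots' _).trans (by rw [hP]; compute_degree))
  refine le_trans ?_ (Finset.card_le_card_of_injOn (s := P.roots.toFinsetᶜ) (fun b => (a, b))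
    (fun b hb => ?_) fun b _ b' _ e => (Prod.ext_iff.1 e).2)
  · rw [Finset.card_compl]
    omega
  · rw [Finset.mem_coe, Finset.mem_compl, Multiset.mem_toFinset, Polynomial.mem_roots hm.ne_zero,
      hP] at hb
    simp only [Polynomial.IsRoot, Polynomial.eval_add, Polynomial.eval_mul, Polynomial.eval_pow,
      Polynomial.eval_X, Polynomial.eval_C] at hb
    have e : b ^ 3 + (-(11 * a) * b ^ 2 + -a ^ 2 * b) = b * (b ^ 2 - 11 * (a * b) - a ^ 2) := by ring
    rw [e] at hb
    simp only [Finset.coe_filter, Finset.mem_filter, Finset.mem_univ, true_and, Set.mem_ofPred_eq,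
      and_true, tate5_Δ]
    exact ⟨mul_ne_zero (pow_ne_zero _ (mul_ne_zero ha0 (left_ne_zero_of_mul hb)))
      (right_ne_zero_of_mul hb), ha0⟩

/-- many curves have a point of order five -/
theorem card_tors5_ge : (Fintype.card κ - 1) * (Fintype.card κ - 3) * Fintype.card κ ^ 3 ≤
    25 * (Finset.univ.filter fun W : WeierstrassCurve κ => W.Δ ≠ 0 ∧ ¬H5T.NoTors W 5).card := by
  have key : ∀ p : κ × κ × κ × κ × κ, (tate5 p.1 p.2.1).Δ ≠ 0 → (t5w p).Δ ≠ 0 ∧
      ∃ P : (t5w p).toAffine.Point, toRaw P = some (p.2.2.1, p.2.2.2.2) ∧ 5 • P = 0 := by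
    intro p hp
    have e : wsh p.2.2.1 p.2.2.2.1 p.2.2.2.2 • t5w p = tate5 p.1 p.2.1 := smul_inv_smul _ _
    refine ⟨by rwa [← e, wsh_Δ] at hp, point_of_tate5 e fun h => hp ?_⟩
    rw [tate5_Δ, h]
    ring
  refine le_trans ?_ (Finset.card_le_mul_card_image_of_maps_to (f := t5w)
    (s := Finset.univ.filter fun p : κ × κ × κ × κ × κ => (tate5 p.1 p.2.1).Δ ≠ 0)
    (fun p hp => ?_) 25 fun W hW => ?_)
  · refine (Nat.mul_le_mul_right _ t5_pairs).trans ?_
    have e : Fintype.card κ ^ 3 = (Finset.univ : Finset (κ × κ × κ)).card := by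
      simp only [Finset.card_univ, Fintype.card_prod]
      ring
    rw [e, ← Finset.card_product]
    refine Finset.card_le_card_of_injOn (fun p => (p.1.1, p.1.2, p.2)) (fun p hp => ?_)
      fun p _ p' _ e => ?_
    · exact Finset.mem_filter.2 ⟨Finset.mem_univ _,
        (Finset.mem_filter.1 (Finset.mem_product.1 hp).1).2⟩
    · simp only [Prod.mk.injEq] at e
      exact Prod.ext (Prod.ext e.1 e.2.1) e.2.2
  · obtain ⟨h1, P, h2, h3⟩ := key p (Finset.mem_filter.1 hp).2
    refine Finset.mem_filter.2 ⟨Finset.mem_univ _, h1, fun h => ?_⟩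
    rw [h P h3] at h2
    exact Option.some_ne_none _ h2.symm
  · refine le_trans (Finset.card_le_card_of_injOn (fun p => ofRaw W (some (p.2.2.1, p.2.2.2.2)))
      (t := (H5T.finite_five_torsion (Finset.mem_filter.1 hW).2.1).toFinset) (fun p hp => ?_)
      fun p hp p' hp' e => ?_) (H5T.five_torsion_le (Finset.mem_filter.1 hW).2.1 _ fun P hP =>
        (H5T.finite_five_torsion (Finset.mem_filter.1 hW).2.1).mem_toFinset.1 hP)
    · obtain ⟨h1, rfl⟩ := Finset.mem_filter.1 hp
      obtain ⟨-, P, h2, h3⟩ := key p (Finset.mem_filter.1 h1).2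
      simp only [← h2, ofRaw_toRaw]
      exact (Set.Finite.mem_toFinset _).2 h3
    · obtain ⟨h1, rfl⟩ := Finset.mem_filter.1 hp
      obtain ⟨h1', e'⟩ := Finset.mem_filter.1 hp'
      obtain ⟨-, P, h2, -⟩ := key p (Finset.mem_filter.1 h1).2
      obtain ⟨-, P', h2', -⟩ := e' ▸ key p' (Finset.mem_filter.1 h1').2
      simp only [← h2, ← h2', ofRaw_toRaw] at e
      rw [e, h2', Option.some.injEq, Prod.mk.injEq] at h2
      obtain ⟨a, b, r, s, t⟩ := p
      obtain ⟨a', b', r', s', t'⟩ := p'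
      obtain ⟨rfl, rfl⟩ : r' = r ∧ t' = t := h2
      have hab : a * b ≠ 0 := fun h => (Finset.mem_filter.1 h1).2 (by rw [tate5_Δ, h]; ring)
      have ha := left_ne_zero_of_mul hab
      have hb := right_ne_zero_of_mul hab
      have e1 : tate5 a' b' = wsh 0 (s' - s) 0 • tate5 a b := by
        have e2 : wsh r' s' t' = wsh 0 (s' - s) 0 * wsh r' s t' := by
          rw [wsh_mul]
          congr 1 <;> ring
        simp only [t5w] at e'
        rw [inv_smul_eq_iff, e2, mul_smul, smul_inv_smul] at e'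
        exact e'
      have c4 := congrArg a₄ e1
      have c3 := congrArg a₃ e1
      have c2 := congrArg a₂ e1
      simp only [tate5, wsh, variableChange_a₂, variableChange_a₃, variableChange_a₄, inv_one,
        Units.val_one, one_pow, one_mul] at c2 c3 c4
      obtain rfl : s' = s := sub_eq_zero.1 (mul_left_cancel₀ (mul_ne_zero ha hab) (by
        linear_combination -c4))
      have d2 : a' * b' = a * b := by linear_combination -c2
      obtain rfl : a' = a := mul_right_cancel₀ hab (by linear_combination -c3 - a' * d2)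
      obtain rfl : b' = b := mul_left_cancel₀ ha d2
      rfl

end Finite

end SelAvg.FF
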