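import Pool.Agent.H5T.DifC

/-!
Projection of a ternary cubic from the standard point, with no condition on the tangent line.
-/

namespace SelAvg.FF.T3

open WeierstrassCurve Matrix

section Ring

variable {R S : Type*} [CommRing R] [CommRing S]

/-- in a domain of characteristic zero a change of variables with `u = 1` is determined by its
effect on one equation -/
lemma wsh_unique [IsDomain R] [CharZero R] {C C' : VariableChange R} {W : WeierstrassCurve R}
    (hu : C.u = 1) (hu' : C'.u = 1) (e : C • W = C' • W) : C = C' := by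
  have e1 := congrArg WeierstrassCurve.a₁ e
  have e2 := congrArg WeierstrassCurve.a₂ e
  have e3 := congrArg WeierstrassCurve.a₃ e
  simp only [variableChange_a₁, variableChange_a₂, variableChange_a₃, hu, hu', inv_one,
    Units.val_one, one_pow, one_mul] at e1 e2 e3
  have hs : C.s = C'.s := mul_left_cancel₀ (two_ne_zero (α := R)) (by linear_combination e1)
  rw [hs] at e2
  have hr : C.r = C'.r := mul_left_cancel₀ (by norm_num : (3 : R) ≠ 0) (by linear_combination e2)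
  rw [hr] at e3
  have ht : C.t = C'.t := mul_left_cancel₀ (two_ne_zero (α := R)) (by linear_combination e3)
  ext1
  exacts [hu.trans hu'.symm, hr, hs, ht]

namespace Model

/-- the degree 2 model obtained by projection from the point `(1 : 0 : 0)` of the curve -/
def redP (f : Model R) : SelAvg.Model R :=
  ⟨f.b1, f.m, f.c1, -(f.a2 * f.b), -(f.a2 * f.b3 + f.a3 * f.b), -(f.a2 * f.c2 + f.a3 * f.b3),
    -(f.a2 * f.c + f.a3 * f.c2), -(f.a3 * f.c)⟩

/-- the projection of a point other than the standard one -/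
def phiP0 (f : Model R) (Q : Pt R) : SelAvg.Pt R :=
  ⟨Q 1, Q 2, -((f.a2 * Q 1 + f.a3 * Q 2) * Q 0) - f.redP.q (Q 1) (Q 2)⟩

lemma jac_redP {f : Model R} (h : f.a = 0) : f.redP.jac = f.jac := by
  ext <;> simp only [redP, jac, SelAvg.Model.jac, h] <;> ring

lemma redP_map (φ : R →+* S) (f : Model R) : (f.map φ).redP = f.redP.map φ := by
  ext <;> simp [redP]

lemma redP_std {f : Model R} (h : f.Std) : f.redP = f.red := by
  ext <;> simp [redP, h.a2]

lemma F_phiP0 {f : Model R} (h : f.a = 0) (Q : Pt R) :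
    f.redP.F (f.phiP0 Q) = (f.a2 * Q 1 + f.a3 * Q 2) * f.F Q := by
  simp only [SelAvg.Model.F, SelAvg.Model.q, SelAvg.Model.g, redP, phiP0, F, h]; ring

lemma redP_subst {f : Model R} (h : f.a = 0) (α β γ δ : R) :
    (f.subst !![1, 0, 0; 0, α, β; 0, γ, δ]).redP = f.redP.subst α β γ δ := by
  ext <;> simp [redP, subst, SelAvg.Model.subst, F, pol, tri, Fx, Fy, Fz, h] <;> ring

lemma subst_low_a {f : Model R} (h : f.a = 0) (α β γ δ : R) :
    (f.subst !![1, 0, 0; 0, α, β; 0, γ, δ]).a = 0 := by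
  simp [subst, F, h]

lemma sh_low {f : Model R} (h : f.a = 0) (α β γ δ : R) :
    f.sh !![1, 0, 0; 0, α, β; 0, γ, δ] =
      wsh (f.redP.subR α β γ δ) (f.redP.subS α β γ δ) (f.redP.subT α β γ δ) := by
  let f' : Model (Free R) :=
    ⟨0, .X f.b, .X f.c, .X f.a2, .X f.a3, .X f.b1, .X f.b3, .X f.c1, .X f.c2, .X f.m⟩
  have hF : f'.map (freeEv R) = f := by ext <;> simp [f', h]
  have h0 : f'.a = 0 := rfl
  have key : f'.sh !![1, 0, 0; 0, .X α, .X β; 0, .X γ, .X δ] =
      wsh (f'.redP.subR (.X α) (.X β) (.X γ) (.X δ)) (f'.redP.subS (.X α) (.X β) (.X γ) (.X δ))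
        (f'.redP.subT (.X α) (.X β) (.X γ) (.X δ)) := by
    apply sh_unique
    rw [← jac_redP (subst_low_a h0 _ _ _ _), redP_subst h0, SelAvg.Model.jac_subst, jac_redP h0]
    congr 2
    simp [det_fin_three]
  have hM : (!![1, 0, 0; 0, .X α, .X β; 0, .X γ, .X δ] : Matrix (Fin 3) (Fin 3) (Free R)).map
      (freeEv R) = !![1, 0, 0; 0, α, β; 0, γ, δ] := by
    ext i j; fin_cases i <;> fin_cases j <;> simp
  have h1 := sh_map (freeEv R) !![1, 0, 0; 0, .X α, .X β; 0, .X γ, .X δ] f'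
  rw [hM, hF, key, wsh_map] at h1
  rw [h1, ← hF, redP_map]
  congr 1 <;> simp [SelAvg.Model.subR, SelAvg.Model.subS, SelAvg.Model.subT, map_ofNat]

end Model

/-- the projection of an object from the standard point -/
def Obj.redP (z : Obj R) : SelAvg.Obj R := ⟨z.f.redP, z.γ⟩

lemma Obj.over_redP {z : Obj R} (h : z.f.a = 0) {W : WeierstrassCurve R} :
    z.redP.Over W ↔ z.Over W := by
  simp only [SelAvg.Obj.Over, Obj.Over, Obj.redP, Model.jac_redP h]

end Ring

open scoped Classical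

variable {L : Type*} [Field L]

namespace Model

/-- the projection of points -/
noncomputable def phiP (f : Model L) (Q : Pt L) : SelAvg.Pt L :=
  if Q 1 = 0 ∧ Q 2 = 0 then ⟨f.a3, -f.a2, 0⟩ else f.phiP0 Q

lemma phiP_std (f : Model L) : f.phiP Pt.std = ⟨f.a3, -f.a2, 0⟩ := by simp [phiP]

lemma phiP_of_ne (f : Model L) {Q : Pt L} (h : ¬(Q 1 = 0 ∧ Q 2 = 0)) : f.phiP Q = f.phiP0 Q := by
  simp only [phiP, if_neg h]

lemma a2_or_a3 {f : Model L} (hΔ : f.jac.Δ ≠ 0) (h : f.a = 0) : f.a2 ≠ 0 ∨ f.a3 ≠ 0 :=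
  (smooth_std h).1 (smooth_of_on hΔ (on_std.2 h))

lemma on_phiP {f : Model L} (hΔ : f.jac.Δ ≠ 0) (h : f.a = 0) {Q : Pt L} (hQ : f.On Q) :
    f.redP.On (f.phiP Q) := by
  by_cases h0 : Q 1 = 0 ∧ Q 2 = 0
  · simp only [phiP, if_pos h0]
    refine ⟨?_, ?_⟩
    · rcases a2_or_a3 hΔ h with h2 | h3
      · exact Or.inr (neg_ne_zero.2 h2)
      · exact Or.inl h3
    · simp only [SelAvg.Model.F, SelAvg.Model.q, SelAvg.Model.g, redP]; ring
  · rw [phiP_of_ne f h0]
    exact ⟨not_and_or.1 h0, by rw [F_phiP0 h, hQ.eq, mul_zero]⟩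

end Model

variable {W : WeierstrassCurve L} {z : Obj L}

lemma exists_low (hW : W.Δ ≠ 0) (hz : z.Over W) (h : z.f.a = 0) :
    ∃ (g : G L) (k : SelAvg.G L), g.pt Pt.std = Pt.std ∧ (g • z.f).Std ∧
      k • z.redP = (g • z).red ∧ ∀ Q, k.pt ((g • z.f).phi (g⁻¹.pt Q)) = z.f.phiP Q := by
  obtain ⟨x, y, hxy⟩ : ∃ x y : L, z.f.a3 * y - -z.f.a2 * x = 1 := by
    rcases Model.a2_or_a3 (hz.jac_Delta hW) h with h2 | h3
    · exact ⟨z.f.a2⁻¹, 0, by field_simp; ring⟩
    · exact ⟨0, z.f.a3⁻¹, by field_simp; ring⟩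
  have hd3 : (!![1, 0, 0; 0, z.f.a3, -z.f.a2; 0, x, y] : Matrix (Fin 3) (Fin 3) L).det = 1 := by
    simp only [det_fin_three]; simp; linear_combination hxy
  have hd2 : (!![z.f.a3, -z.f.a2; x, y] : Matrix (Fin 2) (Fin 2) L).det = 1 := by
    simp only [det_fin_two]; simp; linear_combination hxy
  let g : G L := difcG _ (hd3.symm ▸ one_ne_zero)
  let k : SelAvg.G L :=
    SelAvg.G.ofM (GeneralLinearGroup.mkOfDetNeZero _ (hd2.symm ▸ one_ne_zero))
  have hg : g • z.f = z.f.subst !![1, 0, 0; 0, z.f.a3, -z.f.a2; 0, x, y] := difcG_smul _ _ _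
  have hge : g.e = !![1, 0, 0; 0, z.f.a3, -z.f.a2; 0, x, y] := rfl
  have k11 : k.m11 = z.f.a3 := rfl
  have k12 : k.m12 = -z.f.a2 := rfl
  have k21 : k.m21 = x := rfl
  have k22 : k.m22 = y := rfl
  have kμ : k.μ = 1 := rfl
  have k0 : k.r0 = 0 := rfl
  have k1 : k.r1 = 0 := rfl
  have k2 : k.r2 = 0 := rfl
  have hs : (g • z.f).Std := by
    rw [hg]
    exact ⟨Model.subst_low_a h _ _ _ _, by
      simp [Model.subst, Model.pol, Model.Fx, Model.Fy, Model.Fz]; ring⟩
  have hk : k • z.f.redP = (g • z.f).red := by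
    rw [← Model.redP_std hs, hg, Model.redP_subst h, SelAvg.G.smul_def, k11, k12, k21, k22, kμ, k0,
      k1, k2]
    simp
  have h3 : (g • z.f).a3 = 1 := by
    rw [hg]; simp [Model.subst, Model.pol, Model.Fx, Model.Fy, Model.Fz]; linear_combination hxy
  have hp : ∀ Q : Pt L, g.pt Q = ![Q 0, Q 1 * z.f.a3 + Q 2 * x, Q 1 * -z.f.a2 + Q 2 * y] := by
    intro Q; funext j; fin_cases j <;> simp [G.pt_apply, hge]
  refine ⟨g, k, by rw [hp]; funext j; fin_cases j <;> simp, hs, ?_, fun Q => ?_⟩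
  · refine SelAvg.Obj.ext hk ?_
    change k.Gam z.f.redP * z.γ = g.Gam z.f * z.γ
    congr 1
    have e1 : k.det = 1 := Units.ext (by rw [SelAvg.G.det_val, k11, k12, k21, k22]; exact hxy)
    have e2 : g.det = 1 := Units.ext (by rw [G.det_val, hge, hd3]; rfl)
    have e3 : g.μ = 1 := rfl
    rw [SelAvg.G.Gam, G.Gam, hge, Model.sh_low h, e1, e2, e3, k11, k12, k21, k22, kμ, k0, k1, k2]
    congr 2
    ext <;> simp [wsh, wdiag, SelAvg.Model.shR, SelAvg.Model.shT, VariableChange.mul_def]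
  · obtain ⟨P, rfl⟩ : ∃ P, Q = g.pt P := ⟨g⁻¹.pt Q, by simp⟩
    rw [G.inv_pt_pt]
    have hiff : (g.pt P 1 = 0 ∧ g.pt P 2 = 0) ↔ (P 1 = 0 ∧ P 2 = 0) := by
      rw [hp]
      simp only [cons_val_one, cons_val_zero, cons_val]
      constructor
      · rintro ⟨e1, e2⟩
        exact ⟨by linear_combination y * e1 - x * e2 - P 1 * hxy,
          by linear_combination z.f.a2 * e1 + z.f.a3 * e2 - P 2 * hxy⟩
      · rintro ⟨e1, e2⟩; simp [e1, e2]
    by_cases h0 : P 1 = 0 ∧ P 2 = 0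
    · simp only [Model.phi, Model.phiP, if_pos h0, if_pos (hiff.2 h0)]
      rw [SelAvg.G.pt_std, k11, k12, k0]
    · rw [Model.phi_of_ne _ h0, Model.phiP_of_ne _ (fun e => h0 (hiff.1 e))]
      have hq := SelAvg.G.q_pt k z.f.redP (P 1) (P 2)
      rw [hk, k11, k12, k21, k22, kμ, k0, k1, k2] at hq
      ext
      · simp [SelAvg.G.pt, Model.phi0, Model.phiP0, hp, k11, k21]
      · simp [SelAvg.G.pt, Model.phi0, Model.phiP0, hp, k12, k22]
      · simp only [SelAvg.G.pt, Model.phi0, Model.phiP0, hp, kμ, k0, k1, k2, h3, cons_val_one,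
          cons_val_zero, cons_val, Units.val_one] at hq ⊢
        linear_combination hq + P 0 * P 2 * hxy

theorem D_redP (hW : W.Δ ≠ 0) (hz : z.Over W) (h : z.f.a = 0) {P P' : Pt L} (hP : z.f.On P)
    (hP' : z.f.On P') : D W z P P' = SelAvg.D W z.redP (z.f.phiP P) (z.f.phiP P') := by
  obtain ⟨g, k, hg, hs, hk, hp⟩ := exists_low hW hz h
  have hr : z.redP.Over W := (Obj.over_redP h).2 hz
  have h0 : z.f.On Pt.std := Model.on_std.2 h
  have key : ∀ Q, z.f.On Q →
      D W z Pt.std Q = SelAvg.D W z.redP (z.f.phiP Pt.std) (z.f.phiP Q) := by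
    intro Q hQ
    have e : g⁻¹.pt Pt.std = Pt.std := by rw [← hg, G.inv_pt_pt, hg]
    rw [D_eq hW hz h0 hQ g (hg.symm ▸ Pt.Eqv.refl _) hs.a2, ← hk, SelAvg.D_smul hW hr k, hp,
      ← hp Pt.std, e, Model.phi_std]
    · rw [hk]; exact difb1_red_std _
    · rw [hk]; exact Model.on_phi hs (difb1_on g hQ)
  have hΔ := hz.jac_Delta hW
  have e1 := D_add hW hz h0 hP hP'
  have e2 := SelAvg.D_add hW hr (Model.on_phiP hΔ h h0) (Model.on_phiP hΔ h hP)
    (Model.on_phiP hΔ h hP')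
  rw [key P hP, key P' hP', ← e2] at e1
  exact add_left_cancel e1

theorem piP_redP (hW : W.Δ ≠ 0) (hz : z.Over W) (h : z.f.a = 0) :
    piP W z Pt.std = SelAvg.piP W z.redP (z.f.phiP Pt.std) := by
  obtain ⟨g, k, hg, hs, hk, hp⟩ := exists_low hW hz h
  have hr : z.redP.Over W := (Obj.over_redP h).2 hz
  have e : g⁻¹.pt Pt.std = Pt.std := by rw [← hg, G.inv_pt_pt, hg]
  rw [piP_eq hW hz (Model.on_std.2 h) g (hg.symm ▸ Pt.Eqv.refl _) hs.a2, ← hk,
    SelAvg.piP_smul hW hr k, ← hp Pt.std, e, Model.phi_std]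
  rw [hk]; exact difb1_red_std _

end SelAvg.FF.T3
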