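import Pool.Agent.H34P.ParA
import Pool.Agent.H34P.TwoA

/-!
The normal form attached to two distinct points, the secant cubic and the exchange of the points.
-/

namespace SelAvg.FF.T5

open WeierstrassCurve Matrix

variable {R S : Type*} [CommRing R] [CommRing S]

/-- The parameters of the normal form `φ₀₁ = x₂`, `φ₃₄ = x₀`, `φ₀₂ = u3 x₃ + u4 x₄`,
`φ₁₂ = v3 x₃ + v4 x₄`, `φ₂₃ = a3 x₁ + b3 x₄`, `φ₂₄ = a4 x₁ + b4 x₄`,
`φᵢⱼ = nij x₁ + sij x₃ + tij x₄` for `i ∈ {0, 1}`, `j ∈ {3, 4}`. -/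
@[ext] structure NP (R : Type*) where
  u3 : R
  u4 : R
  v3 : R
  v4 : R
  a3 : R
  a4 : R
  b3 : R
  b4 : R
  n03 : R
  n04 : R
  n13 : R
  n14 : R
  s03 : R
  s04 : R
  s13 : R
  s14 : R
  t03 : R
  t04 : R
  t13 : R
  t14 : R

/-- the exchange `0 ↔ 3`, `1 ↔ 4` of rows and columns -/
def swA : Matrix (Fin 5) (Fin 5) R :=
  !![0, 0, 0, 1, 0; 0, 0, 0, 0, 1; 0, 0, 1, 0, 0; 1, 0, 0, 0, 0; 0, 1, 0, 0, 0]

/-- the exchange `0 ↔ 2`, `1 ↔ 3` of variables -/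
def swB : Matrix (Fin 5) (Fin 5) R :=
  !![0, 0, 1, 0, 0; 0, 0, 0, 1, 0; 1, 0, 0, 0, 0; 0, 1, 0, 0, 0; 0, 0, 0, 0, 1]

/-- the exchange of the first two variables of a cubic -/
def sw3 : Matrix (Fin 3) (Fin 3) R := !![0, 1, 0; 1, 0, 0; 0, 0, 1]

lemma swA_mul : (swA * swA : Matrix (Fin 5) (Fin 5) R) = 1 := by
  ext i j; fin_cases i <;> fin_cases j <;> simp [swA, mul_apply, Fin.sum_univ_five]

lemma swB_mul : (swB * swB : Matrix (Fin 5) (Fin 5) R) = 1 := by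
  ext i j; fin_cases i <;> fin_cases j <;> simp [swB, mul_apply, Fin.sum_univ_five]

lemma sw3_mul : (sw3 * sw3 : Matrix (Fin 3) (Fin 3) R) = 1 := by
  ext i j; fin_cases i <;> fin_cases j <;> simp [sw3, mul_apply, Fin.sum_univ_three]

lemma swA_map (φ : R →+* S) : (swA : Matrix (Fin 5) (Fin 5) R).map φ = swA := by
  ext i j; fin_cases i <;> fin_cases j <;> simp [swA]

lemma swB_map (φ : R →+* S) : (swB : Matrix (Fin 5) (Fin 5) R).map φ = swB := by
  ext i j; fin_cases i <;> fin_cases j <;> simp [swB]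

lemma sw3_map (φ : R →+* S) : (sw3 : Matrix (Fin 3) (Fin 3) R).map φ = sw3 := by
  ext i j; fin_cases i <;> fin_cases j <;> simp [sw3]

lemma det_sw3 : (sw3 : Matrix (Fin 3) (Fin 3) R).det = -1 := by simp [sw3, det_fin_three]

lemma det_swA_sq : (swA : Matrix (Fin 5) (Fin 5) R).det ^ 2 = 1 := by
  rw [sq, ← det_mul, swA_mul, det_one]

lemma det_swB : (swB : Matrix (Fin 5) (Fin 5) R).det = 1 := by
  simp [swB, det_succ_row_zero, Fin.sum_univ_succ, Fin.succAbove]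

lemma chi_sw : chi (swA : Matrix (Fin 5) (Fin 5) R) swB = 1 := by
  rw [chi, det_swA_sq, det_swB, one_mul]

lemma vecMul_swB (Q : Pt R) : Q ᵥ* swB = ![Q 2, Q 3, Q 0, Q 1, Q 4] := by
  funext j; fin_cases j <;> simp [swB, vecMul, dotProduct, Fin.sum_univ_five]

lemma vecMul_sw3 (Q : T3.Pt R) : Q ᵥ* sw3 = ![Q 1, Q 0, Q 2] := by
  funext j; fin_cases j <;> simp [sw3, vecMul, dotProduct, Fin.sum_univ_three]

namespace NP

/-- apply a function to all parameters -/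
def map {R S : Type*} (φ : R → S) (p : NP R) : NP S :=
  ⟨φ p.u3, φ p.u4, φ p.v3, φ p.v4, φ p.a3, φ p.a4, φ p.b3, φ p.b4, φ p.n03, φ p.n04, φ p.n13,
    φ p.n14, φ p.s03, φ p.s04, φ p.s13, φ p.s14, φ p.t03, φ p.t04, φ p.t13, φ p.t14⟩

/-- the parameters after the exchange of the two points -/
def swap (p : NP R) : NP R :=
  ⟨-p.a3, -p.b3, -p.a4, -p.b4, -p.u3, -p.v3, -p.u4, -p.v4, -p.s03, -p.s13, -p.s04, -p.s14,
    -p.n03, -p.n13, -p.n04, -p.n14, -p.t03, -p.t13, -p.t04, -p.t14⟩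

/-- the model in normal form -/
def nf (p : NP R) : Model R :=
  Model.ofVec ![![0, 0, 0, 0, 0, 0, 0, 0, 0, 1],
    ![0, 0, p.n03, p.n04, 0, p.n13, p.n14, p.a3, p.a4, 0],
    ![1, 0, 0, 0, 0, 0, 0, 0, 0, 0],
    ![0, p.u3, p.s03, p.s04, p.v3, p.s13, p.s14, 0, 0, 0],
    ![0, p.u4, p.t03, p.t04, p.v4, p.t13, p.t14, p.b3, p.b4, 0]]

def c33 (p : NP R) : R := p.n03 * p.v3 - p.n13 * p.u3
def c34 (p : NP R) : R := p.n03 * p.v4 - p.n13 * p.u4
def c43 (p : NP R) : R := p.n04 * p.v3 - p.n14 * p.u3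
def c44 (p : NP R) : R := p.n04 * p.v4 - p.n14 * p.u4
def d30 (p : NP R) : R := p.s03 * p.v3 - p.s13 * p.u3
def d31 (p : NP R) : R := p.s03 * p.v4 + p.t03 * p.v3 - p.s13 * p.u4 - p.t13 * p.u3
def d32 (p : NP R) : R := p.t03 * p.v4 - p.t13 * p.u4
def d40 (p : NP R) : R := p.s04 * p.v3 - p.s14 * p.u3
def d41 (p : NP R) : R := p.s04 * p.v4 + p.t04 * p.v3 - p.s14 * p.u4 - p.t14 * p.u3
def d42 (p : NP R) : R := p.t04 * p.v4 - p.t14 * p.u4

/-- the cubic obtained by projection from the secant line, in the variables `x₁, x₃, x₄` -/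
def sec (p : NP R) : T3.Model R where
  a := 0
  b := 0
  c := p.d32 * p.b4 - p.d42 * p.b3
  a2 := p.c33 * p.a4 - p.c43 * p.a3
  a3 := p.c34 * p.a4 - p.c44 * p.a3
  b1 := p.d30 * p.a4 - p.d40 * p.a3
  b3 := p.d30 * p.b4 - p.d40 * p.b3
  c1 := p.c34 * p.b4 - p.c44 * p.b3 + (p.d32 * p.a4 - p.d42 * p.a3)
  c2 := p.d31 * p.b4 - p.d41 * p.b3
  m := p.c33 * p.b4 - p.c43 * p.b3 + (p.d31 * p.a4 - p.d41 * p.a3)

/-- the cubic obtained by projection from the tangent line, in the variables `x₂, x₃, x₄` -/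
def tan (p : NP R) : T3.Model R where
  a := 0
  b := p.c33 * p.d40 - p.c43 * p.d30
  c := p.c34 * p.d42 - p.c44 * p.d32
  a2 := 0
  a3 := p.a3 * p.b4 - p.a4 * p.b3
  b1 := p.a3 * p.d40 - p.a4 * p.d30
  b3 := p.c33 * p.d41 + p.c34 * p.d40 - p.c43 * p.d31 - p.c44 * p.d30
  c1 := p.c34 * p.b4 - p.c44 * p.b3 + (p.a3 * p.d42 - p.a4 * p.d32)
  c2 := p.c33 * p.d42 + p.c34 * p.d41 - p.c43 * p.d32 - p.c44 * p.d31
  m := p.c33 * p.b4 - p.c43 * p.b3 + (p.a3 * p.d41 - p.a4 * p.d31)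

def r0 (p : NP R) : R := p.a3 * p.d40 - p.a4 * p.d30
def r1 (p : NP R) : R := p.a3 * p.d41 - p.a4 * p.d31
def r2 (p : NP R) : R := p.a3 * p.d42 - p.a4 * p.d32

/-- the change of Weierstrass coordinates between the two cubics -/
def kap (p : NP R) : VariableChange R :=
  wsh (p.sec.redP.shR p.r0 p.r2) p.r1 (p.sec.redP.shT p.r0 p.r1 p.r2)

lemma swap_swap (p : NP R) : p.swap.swap = p := by ext <;> simp [swap]

lemma swap_map (φ : R →+* S) (p : NP R) : (p.map φ).swap = p.swap.map φ := by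
  ext <;> simp [swap, map]

lemma map_lift (p : NP R) : (p.map (MvPolynomial.X : R → T3.Free R)).map (T3.freeEv R) = p := by
  ext <;> simp [map]

lemma nf_map (φ : R →+* S) (p : NP R) : (p.map φ).nf = p.nf.map φ := by
  rw [nf, nf, Model.ofVec_map]
  congr 1
  funext k i; fin_cases k <;> fin_cases i <;> simp [map]

lemma sec_map (φ : R →+* S) (p : NP R) : (p.map φ).sec = p.sec.map φ := by
  ext <;> simp [sec, map, c33, c34, c43, c44, d30, d31, d32, d40, d41, d42]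

lemma kap_u (p : NP R) : p.kap.u = 1 := rfl

lemma kap_map (φ : R →+* S) (p : NP R) : (p.map φ).kap = p.kap.map φ := by
  have h0 : (p.map φ).r0 = φ p.r0 := by simp [r0, map, d30, d40]
  have h1 : (p.map φ).r1 = φ p.r1 := by simp [r1, map, d31, d41]
  have h2 : (p.map φ).r2 = φ p.r2 := by simp [r2, map, d32, d42]
  rw [kap, kap, T3.wsh_map, sec_map, T3.Model.redP_map, h0, h1, h2]
  congr 1 <;> simp [SelAvg.Model.shR, SelAvg.Model.shT, map_ofNat]

lemma nf_std (p : NP R) : p.nf.Std := ⟨rfl, rfl, rfl, rfl, rfl, rfl, rfl, rfl, rfl, rfl, rfl, rfl⟩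

lemma nf_lam (p : NP R) : p.nf.lam = 1 := rfl

lemma ev_nf (p : NP R) (Q : Pt R) : p.nf.ev Q = altM ![Q 2, p.u3 * Q 3 + p.u4 * Q 4,
    p.n03 * Q 1 + p.s03 * Q 3 + p.t03 * Q 4, p.n04 * Q 1 + p.s04 * Q 3 + p.t04 * Q 4,
    p.v3 * Q 3 + p.v4 * Q 4, p.n13 * Q 1 + p.s13 * Q 3 + p.t13 * Q 4,
    p.n14 * Q 1 + p.s14 * Q 3 + p.t14 * Q 4, p.a3 * Q 1 + p.b3 * Q 4, p.a4 * Q 1 + p.b4 * Q 4,
    Q 0] := by
  ext i j
  fin_cases i <;> fin_cases j <;>
    simp [Model.ev_apply, Fin.sum_univ_five, nf, Model.ofVec, altM] <;> ring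

lemma sw_conj (v : Fin 10 → R) : swA * altM v * swAᵀ =
    altM ![v 9, -v 7, -v 2, -v 5, -v 8, -v 3, -v 6, -v 1, -v 4, v 0] := by
  ext i j
  fin_cases i <;> fin_cases j <;> simp [swA, altM, mul_apply, Fin.sum_univ_five]

lemma act_sw (p : NP R) : p.nf.act swA swB = p.swap.nf := by
  ext1
  funext k
  rw [Model.act_c, ev_nf, sw_conj]
  change _ = altM _
  congr 1
  funext i
  fin_cases k <;> fin_cases i <;> simp [swB, swap]

lemma alp_three (p : NP R) : p.nf.alp 3 = ![p.a3, p.c33, p.c34] := by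
  funext r
  fin_cases r <;>
    simp [Model.alp, Model.nv, Model.Tm, Model.lin, nf, Model.ofVec, altM, vecMul, dotProduct,
      Fin.sum_univ_three, c33, c34] <;> ring

lemma alp_four (p : NP R) : p.nf.alp 4 = ![p.a4, p.c43, p.c44] := by
  funext r
  fin_cases r <;>
    simp [Model.alp, Model.nv, Model.Tm, Model.lin, nf, Model.ofVec, altM, vecMul, dotProduct,
      Fin.sum_univ_three, c43, c44] <;> ring

lemma qm_three (p : NP R) : p.nf.qm 3 = !![0, 0, 0;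
    0, p.s03 * p.v3 - p.s13 * p.u3, p.s03 * p.v4 - p.s13 * p.u4;
    p.b3, p.t03 * p.v3 - p.t13 * p.u3, p.t03 * p.v4 - p.t13 * p.u4] := by
  ext r s
  fin_cases r <;> fin_cases s <;>
    simp [Model.qm, Model.Tm, Model.lin, nf, Model.ofVec, altM] <;> ring

lemma qm_four (p : NP R) : p.nf.qm 4 = !![0, 0, 0;
    0, p.s04 * p.v3 - p.s14 * p.u3, p.s04 * p.v4 - p.s14 * p.u4;
    p.b4, p.t04 * p.v3 - p.t14 * p.u3, p.t04 * p.v4 - p.t14 * p.u4] := by
  ext r s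
  fin_cases r <;> fin_cases s <;>
    simp [Model.qm, Model.Tm, Model.lin, nf, Model.ofVec, altM] <;> ring

lemma cub_nf (p : NP R) : p.nf.cub = p.tan := by
  rw [Model.cub, alp_three, alp_four, qm_three, qm_four]
  ext <;> simp [ofTensor, tan, d30, d31, d32, d40, d41, d42] <;> ring

lemma mk'_nf (p : NP R) :
    p.nf.mk' = ![p.c33 * p.c44 - p.c34 * p.c43, p.sec.a3, -p.sec.a2] := by
  rw [Model.mk', alp_three, alp_four]
  funext r; fin_cases r <;> simp [crossProduct, sec] <;> ring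

lemma WS_nf (p : NP R) : p.nf.WS = p.tan.jac := by
  rw [Model.WS, nf_lam, T3.wsc_one, cub_nf]

/-- the Plücker identity -/
lemma redP_tan (p : NP R) : p.tan.redP = p.sec.redP.shift p.r0 p.r1 p.r2 := by
  ext <;> simp only [T3.Model.redP, tan, sec, SelAvg.Model.shift, r0, r1, r2] <;> ring

lemma jac_tan (p : NP R) : p.tan.jac = p.kap • p.sec.jac := by
  rw [← T3.Model.jac_redP (f := p.tan) rfl, redP_tan, SelAvg.Model.jac_shift,
    T3.Model.jac_redP (f := p.sec) rfl, kap]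

lemma subst_sw3 (f : T3.Model R) :
    f.subst sw3 = ⟨f.b, f.a, f.c, f.b1, f.b3, f.a2, f.a3, f.c2, f.c1, f.m⟩ := by
  ext <;> simp [T3.Model.subst, sw3, T3.Model.F, T3.Model.pol, T3.Model.tri, T3.Model.Fx,
    T3.Model.Fy, T3.Model.Fz]
  ring

lemma sec_swap (p : NP R) : p.swap.sec = (p.sec.subst sw3).scale (-1) := by
  rw [subst_sw3]
  ext <;> simp only [T3.Model.scale, sec, swap, c33, c34, c43, c44, d30, d31, d32, d40, d41, d42]
    <;> ring

/-- the change of Weierstrass coordinates induced by the exchange on the secant cubic -/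
noncomputable def sig (p : NP R) : VariableChange R :=
  wsh (p.sec.sh sw3).r (-(p.sec.sh sw3).s) (-(p.sec.sh sw3).t)

lemma sig_u (p : NP R) : p.sig.u = 1 := rfl

lemma sig_map (φ : R →+* S) (p : NP R) : (p.map φ).sig = p.sig.map φ := by
  rw [sig, sig, T3.wsh_map, sec_map, ← sw3_map φ, T3.Model.sh_map_r, T3.Model.sh_map_s,
    T3.Model.sh_map_t, map_neg, map_neg]

lemma jac_sec_swap (p : NP R) : p.swap.sec.jac = p.sig • p.sec.jac := by
  rw [sec_swap, T3.Model.jac_scale, T3.Model.jac_subst, T3.Model.sh_eq_wsh, T3.wsc_wsh,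
    T3.wsc_wsc, det_sw3, sig]
  congr 1
  · congr 1 <;> ring
  · simp

lemma WS_swap (p : NP R) : p.swap.nf.WS = (p.swap.kap * p.sig * p.kap⁻¹) • p.nf.WS := by
  rw [WS_nf, WS_nf, jac_tan, jac_tan, jac_sec_swap, mul_smul, mul_smul, inv_smul_smul]

end NP

end SelAvg.FF.T5
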